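import Pool.Agent.H789.HSC.StepDefs0

/-! Shared algebra for the cases A1 and A2: derivatives of `aV` and the tensors of
`V = ∑ F0 (t_i) + W`. -/

open scoped BigOperators ContDiff ComplexConjugate Topology

namespace Pool.Agent.H789.HSC.A12

noncomputable section

variable {p : ℕ}

theorem pd_congr {f g : (Fin p → ℝ) → ℝ} {t : Fin p → ℝ} (h : f =ᶠ[𝓝 t] g) (i : Fin p) :
    pd f i t = pd g i t := by
  unfold pd
  rw [h.fderiv_eq]

theorem pd_congr' {f g : (Fin p → ℝ) → ℝ} {t : Fin p → ℝ} (h : f =ᶠ[𝓝 t] g) (i : Fin p) :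
    pd f i =ᶠ[𝓝 t] pd g i := by
  filter_upwards [h.fderiv (𝕜 := ℝ)] with s hs
  unfold pd
  rw [hs]

theorem pd_add {f g : (Fin p → ℝ) → ℝ} {t : Fin p → ℝ} (hf : DifferentiableAt ℝ f t)
    (hg : DifferentiableAt ℝ g t) (i : Fin p) :
    pd (fun s => f s + g s) i t = pd f i t + pd g i t := by
  unfold pd
  have h := fderiv_add hf hg
  have e : (fun s => f s + g s) = f + g := rfl
  rw [e, h]
  rfl

theorem pd_sum {ι : Type*} {f : ι → (Fin p → ℝ) → ℝ} {t : Fin p → ℝ} (S : Finset ι)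
    (hf : ∀ j ∈ S, DifferentiableAt ℝ (f j) t) (i : Fin p) :
    pd (fun s => ∑ j ∈ S, f j s) i t = ∑ j ∈ S, pd (f j) i t := by
  unfold pd
  have h := (HasFDerivAt.fun_sum (fun j hj => (hf j hj).hasFDerivAt)).fderiv
  rw [h]
  simp

theorem diff_coord {F : ℝ → ℝ} {t : Fin p → ℝ} {i : Fin p} (h : DifferentiableAt ℝ F (t i)) :
    DifferentiableAt ℝ (fun s : Fin p → ℝ => F (s i)) t := by
  have h2 : DifferentiableAt ℝ (fun s : Fin p → ℝ => s i) t := differentiableAt_apply i t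
  exact DifferentiableAt.comp (g := F) t h h2

theorem pd_coord {F : ℝ → ℝ} {F' : ℝ} {t : Fin p → ℝ} {i : Fin p} (h : HasDerivAt F F' (t i))
    (j : Fin p) :
    pd (fun s : Fin p → ℝ => F (s i)) j t = if i = j then F' else 0 := by
  unfold pd
  have h2 : HasFDerivAt (fun s : Fin p → ℝ => s i)
      (ContinuousLinearMap.proj (R := ℝ) (φ := fun _ : Fin p => ℝ) i) t :=
    hasFDerivAt_apply i t
  have h3 := (h.comp_hasFDerivAt t h2).fderiv
  have e : (fun s : Fin p → ℝ => F (s i)) = F ∘ (fun s : Fin p → ℝ => s i) := rfl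
  rw [e, h3]
  by_cases hij : i = j
  · subst hij; simp
  · simp [hij]

/-! derivatives of `F0` .. `F3` -/

theorem hasDerivAt_e1 (R t : ℝ) : HasDerivAt (fun t : ℝ => Real.exp (-(t / R)))
    (-(1 / R) * Real.exp (-(t / R))) t := by
  have h : HasDerivAt (fun t : ℝ => -(t / R)) (-(1 / R)) t :=
    ((hasDerivAt_id t).div_const R).neg
  have := h.exp
  convert this using 1
  ring

theorem hasDerivAt_e2 (R t : ℝ) : HasDerivAt (fun t : ℝ => Real.exp (-(2 * t / R)))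
    (-(2 / R) * Real.exp (-(2 * t / R))) t := by
  have h : HasDerivAt (fun t : ℝ => -(2 * t / R)) (-(2 * 1 / R)) t :=
    (((hasDerivAt_id t).const_mul 2).div_const R).neg
  have := h.exp
  convert this using 1
  ring

theorem hasDerivAt_F0 {R : ℝ} (hR : R ≠ 0) (t : ℝ) : HasDerivAt (F0 R) (F1 R t) t := by
  have h := ((hasDerivAt_e1 R t).add ((hasDerivAt_e2 R t).div_const 4)).const_mul (R ^ 2 / 4)
  have e : (F0 R) = (fun t => R ^ 2 / 4 * (Real.exp (-(t / R)) + Real.exp (-(2 * t / R)) / 4)) :=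
    rfl
  rw [e]
  refine h.congr_deriv ?_
  unfold F1
  field_simp
  ring

theorem hasDerivAt_F1 {R : ℝ} (hR : R ≠ 0) (t : ℝ) : HasDerivAt (F1 R) (F2 R t) t := by
  have h := ((hasDerivAt_e1 R t).add ((hasDerivAt_e2 R t).div_const 2)).const_mul (-(R / 4))
  have e : (F1 R) = (fun t => -(R / 4) * (Real.exp (-(t / R)) + Real.exp (-(2 * t / R)) / 2)) :=
    rfl
  rw [e]
  refine h.congr_deriv ?_
  unfold F2
  field_simp
  ring

theorem hasDerivAt_F2 {R : ℝ} (hR : R ≠ 0) (t : ℝ) : HasDerivAt (F2 R) (F3 R t) t := by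
  have h := ((hasDerivAt_e1 R t).add (hasDerivAt_e2 R t)).div_const 4
  have e : (F2 R) = (fun t => (Real.exp (-(t / R)) + Real.exp (-(2 * t / R))) / 4) :=
    rfl
  rw [e]
  refine h.congr_deriv ?_
  unfold F3
  field_simp
  ring

theorem hasDerivAt_F3 {R : ℝ} (hR : R ≠ 0) (t : ℝ) : HasDerivAt (F3 R) (F4 R t) t := by
  have h := (((hasDerivAt_e1 R t).add ((hasDerivAt_e2 R t).const_mul 2)).neg).div_const (4 * R)
  have e : (F3 R) = (fun t => -(Real.exp (-(t / R)) + 2 * Real.exp (-(2 * t / R))) / (4 * R)) :=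
    rfl
  rw [e]
  refine h.congr_deriv ?_
  unfold F4
  field_simp
  ring

/-! smoothness -/

theorem diff_of {W : (Fin p → ℝ) → ℝ} {t : Fin p → ℝ} {n : ℕ}
    (hW : ContDiffAt ℝ (n + 1 : ℕ) W t) : DifferentiableAt ℝ W t :=
  hW.differentiableAt (by exact_mod_cast Nat.succ_ne_zero n)

theorem ev_of {W : (Fin p → ℝ) → ℝ} {t : Fin p → ℝ} {n : ℕ}
    (hW : ContDiffAt ℝ (n : ℕ) W t) : ∀ᶠ s in 𝓝 t, ContDiffAt ℝ (n : ℕ) W s :=
  hW.eventually (by simp)

theorem cd1 {W : (Fin p → ℝ) → ℝ} {t : Fin p → ℝ} (hW : ContDiffAt ℝ (5 : ℕ) W t) (i : Fin p) :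
    ContDiffAt ℝ (4 : ℕ) (pd W i) t := ContDiffAt.pd hW i

theorem cd2 {W : (Fin p → ℝ) → ℝ} {t : Fin p → ℝ} (hW : ContDiffAt ℝ (5 : ℕ) W t) (i j : Fin p) :
    ContDiffAt ℝ (3 : ℕ) (pd (pd W i) j) t := ContDiffAt.pd (cd1 hW i) j

theorem cd3 {W : (Fin p → ℝ) → ℝ} {t : Fin p → ℝ} (hW : ContDiffAt ℝ (5 : ℕ) W t)
    (i j l : Fin p) :
    ContDiffAt ℝ (2 : ℕ) (pd (pd (pd W i) j) l) t := ContDiffAt.pd (cd2 hW i j) l

/-! symmetry of the third and fourth derivatives -/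

theorem pd2_comm {W : (Fin p → ℝ) → ℝ} {t : Fin p → ℝ} (hW : ContDiffAt ℝ (5 : ℕ) W t)
    (i j : Fin p) : pd (pd W i) j t = pd (pd W j) i t :=
  HSC.pd_comm (hW.of_le (by norm_num)) i j

theorem pd2_comm_ev {W : (Fin p → ℝ) → ℝ} {t : Fin p → ℝ} (hW : ContDiffAt ℝ (5 : ℕ) W t)
    (i j : Fin p) : pd (pd W i) j =ᶠ[𝓝 t] pd (pd W j) i := by
  filter_upwards [ev_of hW] with s hs
  exact pd2_comm hs i j

theorem pd3_comm12 {W : (Fin p → ℝ) → ℝ} {t : Fin p → ℝ} (hW : ContDiffAt ℝ (5 : ℕ) W t)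
    (i j l : Fin p) : pd (pd (pd W i) j) l t = pd (pd (pd W j) i) l t :=
  pd_congr (pd2_comm_ev hW i j) l

theorem pd3_comm23 {W : (Fin p → ℝ) → ℝ} {t : Fin p → ℝ} (hW : ContDiffAt ℝ (5 : ℕ) W t)
    (i j l : Fin p) : pd (pd (pd W i) j) l t = pd (pd (pd W i) l) j t :=
  HSC.pd_comm ((cd1 hW i).of_le (by norm_num)) j l

theorem pd3_comm12_ev {W : (Fin p → ℝ) → ℝ} {t : Fin p → ℝ} (hW : ContDiffAt ℝ (5 : ℕ) W t)
    (i j l : Fin p) : pd (pd (pd W i) j) l =ᶠ[𝓝 t] pd (pd (pd W j) i) l :=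
  pd_congr' (pd2_comm_ev hW i j) l

theorem pd3_comm23_ev {W : (Fin p → ℝ) → ℝ} {t : Fin p → ℝ} (hW : ContDiffAt ℝ (5 : ℕ) W t)
    (i j l : Fin p) : pd (pd (pd W i) j) l =ᶠ[𝓝 t] pd (pd (pd W i) l) j := by
  filter_upwards [ev_of hW] with s hs
  exact pd3_comm23 hs i j l

theorem pd4_comm12 {W : (Fin p → ℝ) → ℝ} {t : Fin p → ℝ} (hW : ContDiffAt ℝ (5 : ℕ) W t)
    (i j l m : Fin p) :
    pd (pd (pd (pd W i) j) l) m t = pd (pd (pd (pd W j) i) l) m t :=
  pd_congr (pd3_comm12_ev hW i j l) m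

theorem pd4_comm23 {W : (Fin p → ℝ) → ℝ} {t : Fin p → ℝ} (hW : ContDiffAt ℝ (5 : ℕ) W t)
    (i j l m : Fin p) :
    pd (pd (pd (pd W i) j) l) m t = pd (pd (pd (pd W i) l) j) m t :=
  pd_congr (pd3_comm23_ev hW i j l) m

theorem pd4_comm34 {W : (Fin p → ℝ) → ℝ} {t : Fin p → ℝ} (hW : ContDiffAt ℝ (5 : ℕ) W t)
    (i j l m : Fin p) :
    pd (pd (pd (pd W i) j) l) m t = pd (pd (pd (pd W i) j) m) l t :=
  HSC.pd_comm ((cd2 hW i j).of_le (by norm_num)) l m

/-! the tensors of `V = ∑ F0 (t_i) + W` -/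

def a2 (R : ℝ) (W : (Fin p → ℝ) → ℝ) (t : Fin p → ℝ) (i j : Fin p) : ℝ :=
  (if i = j then F2 R (t i) else 0) + pd (pd W i) j t

def a3 (R : ℝ) (W : (Fin p → ℝ) → ℝ) (t : Fin p → ℝ) (i j l : Fin p) : ℝ :=
  (if i = j then (if j = l then F3 R (t i) else 0) else 0) + pd (pd (pd W i) j) l t

def a4 (R : ℝ) (W : (Fin p → ℝ) → ℝ) (t : Fin p → ℝ) (i j l m : Fin p) : ℝ :=
  (if i = j then (if j = l then (if l = m then F4 R (t i) else 0) else 0) else 0)
    + pd (pd (pd (pd W i) j) l) m t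

section
variable {R : ℝ} {W : (Fin p → ℝ) → ℝ} {t : Fin p → ℝ}

theorem a2_comm (hW : ContDiffAt ℝ (5 : ℕ) W t) (i j : Fin p) :
    a2 R W t i j = a2 R W t j i := by
  unfold a2
  rw [pd2_comm hW i j]
  by_cases h : i = j
  · subst h; rfl
  · rw [if_neg h, if_neg (fun h' => h h'.symm)]

theorem a3_comm12 (hW : ContDiffAt ℝ (5 : ℕ) W t) (i j l : Fin p) :
    a3 R W t i j l = a3 R W t j i l := by
  unfold a3
  rw [pd3_comm12 hW i j l]
  by_cases h : i = j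
  · subst h; rfl
  · rw [if_neg h, if_neg (fun h' => h h'.symm)]

theorem a3_comm23 (hW : ContDiffAt ℝ (5 : ℕ) W t) (i j l : Fin p) :
    a3 R W t i j l = a3 R W t i l j := by
  unfold a3
  rw [pd3_comm23 hW i j l]
  by_cases h : j = l
  · subst h; rfl
  · rw [if_neg h, if_neg (fun h' : l = j => h h'.symm)]; simp

theorem a4_comm12 (hW : ContDiffAt ℝ (5 : ℕ) W t) (i j l m : Fin p) :
    a4 R W t i j l m = a4 R W t j i l m := by
  unfold a4
  rw [pd4_comm12 hW i j l m]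
  by_cases h : i = j
  · subst h; rfl
  · rw [if_neg h, if_neg (fun h' => h h'.symm)]

theorem a4_comm23 (hW : ContDiffAt ℝ (5 : ℕ) W t) (i j l m : Fin p) :
    a4 R W t i j l m = a4 R W t i l j m := by
  unfold a4
  rw [pd4_comm23 hW i j l m]
  by_cases h : j = l
  · subst h; rfl
  · rw [if_neg h, if_neg (fun h' : l = j => h h'.symm)]; simp

theorem a4_comm34 (hW : ContDiffAt ℝ (5 : ℕ) W t) (i j l m : Fin p) :
    a4 R W t i j l m = a4 R W t i j m l := by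
  unfold a4
  rw [pd4_comm34 hW i j l m]
  by_cases h : l = m
  · subst h; rfl
  · rw [if_neg h, if_neg (fun h' : m = l => h h'.symm)]; simp

theorem sum_a2 (hR : R ≠ 0) (hW : ContDiffAt ℝ (5 : ℕ) W t) (j : Fin p) :
    pd (aV R W) j t = ∑ i, a2 R W t i j := by
  have e : aV R W = fun s => (fun s => ∑ i, (fun s : Fin p → ℝ => F1 R (s i) - F1 R 0) s) s
      + (fun s => ∑ i, pd W i s) s := rfl
  have hd1 : ∀ i : Fin p, DifferentiableAt ℝ (fun s : Fin p → ℝ => F1 R (s i) - F1 R 0) t :=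
    fun i => diff_coord (F := fun x => F1 R x - F1 R 0)
      ((hasDerivAt_F1 hR (t i)).sub_const (F1 R 0)).differentiableAt
  have hd2 : ∀ i : Fin p, DifferentiableAt ℝ (pd W i) t := fun i => diff_of (n := 3) (cd1 hW i)
  rw [e, pd_add (DifferentiableAt.fun_sum fun i _ => hd1 i)
    (DifferentiableAt.fun_sum fun i _ => hd2 i), pd_sum _ (fun i _ => hd1 i),
    pd_sum _ (fun i _ => hd2 i), ← Finset.sum_add_distrib]
  refine Finset.sum_congr rfl fun i _ => ?_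
  unfold a2
  rw [pd_coord (F := fun x => F1 R x - F1 R 0) ((hasDerivAt_F1 hR (t i)).sub_const (F1 R 0)) j]

theorem sum_a2_ev (hR : R ≠ 0) (hW : ContDiffAt ℝ (5 : ℕ) W t) (j : Fin p) :
    pd (aV R W) j =ᶠ[𝓝 t] fun s => (fun s : Fin p → ℝ => F2 R (s j)) s
      + (fun s => ∑ i, pd (pd W i) j s) s := by
  filter_upwards [ev_of hW] with s hs
  rw [sum_a2 hR hs]
  unfold a2
  rw [Finset.sum_add_distrib]
  simp

theorem sum_a3 (hR : R ≠ 0) (hW : ContDiffAt ℝ (5 : ℕ) W t) (j l : Fin p) :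
    pd (pd (aV R W) j) l t = ∑ i, a3 R W t i j l := by
  rw [pd_congr (sum_a2_ev hR hW j) l]
  have hd1 : DifferentiableAt ℝ (fun s : Fin p → ℝ => F2 R (s j)) t :=
    diff_coord (hasDerivAt_F2 hR (t j)).differentiableAt
  have hd2 : ∀ i : Fin p, DifferentiableAt ℝ (pd (pd W i) j) t :=
    fun i => diff_of (n := 2) (cd2 hW i j)
  rw [pd_add hd1 (DifferentiableAt.fun_sum fun i _ => hd2 i), pd_sum _ (fun i _ => hd2 i),
    pd_coord (hasDerivAt_F2 hR (t j)) l]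
  unfold a3
  rw [Finset.sum_add_distrib]
  simp

theorem sum_a3_ev (hR : R ≠ 0) (hW : ContDiffAt ℝ (5 : ℕ) W t) (j l : Fin p) :
    pd (pd (aV R W) j) l =ᶠ[𝓝 t] fun s =>
      (fun s : Fin p → ℝ => (fun x => if j = l then F3 R x else 0) (s j)) s
      + (fun s => ∑ i, pd (pd (pd W i) j) l s) s := by
  filter_upwards [ev_of hW] with s hs
  rw [sum_a3 hR hs]
  unfold a3
  rw [Finset.sum_add_distrib]
  simp

theorem sum_a4 (hR : R ≠ 0) (hW : ContDiffAt ℝ (5 : ℕ) W t) (j l m : Fin p) :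
    pd (pd (pd (aV R W) j) l) m t = ∑ i, a4 R W t i j l m := by
  rw [pd_congr (sum_a3_ev hR hW j l) m]
  have hF : HasDerivAt (fun x => if j = l then F3 R x else 0) (if j = l then F4 R (t j) else 0)
      (t j) := by
    by_cases h : j = l
    · simp only [if_pos h]; exact hasDerivAt_F3 hR (t j)
    · simp only [if_neg h]; exact hasDerivAt_const _ _
  have hd1 : DifferentiableAt ℝ
      (fun s : Fin p → ℝ => (fun x => if j = l then F3 R x else 0) (s j)) t :=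
    diff_coord (F := fun x => if j = l then F3 R x else 0) hF.differentiableAt
  have hd2 : ∀ i : Fin p, DifferentiableAt ℝ (pd (pd (pd W i) j) l) t :=
    fun i => diff_of (n := 1) (cd3 hW i j l)
  rw [pd_add hd1 (DifferentiableAt.fun_sum fun i _ => hd2 i), pd_sum _ (fun i _ => hd2 i),
    pd_coord (F := fun x => if j = l then F3 R x else 0) hF m]
  unfold a4
  rw [Finset.sum_add_distrib]
  congr 1
  by_cases h1 : j = l
  · subst h1
    by_cases h2 : j = m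
    · subst h2; simp
    · simp [h2]
  · simp [h1]

end

end

end Pool.Agent.H789.HSC.A12
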