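import Pool.Agent.H789.HSC.A12a

/-! Shared algebra for the cases A1 and A2: generic tensors. -/

open scoped BigOperators ContDiff ComplexConjugate Topology

namespace Pool.Agent.H789.HSC.A12

noncomputable section

variable {p : ℕ}

def T1 (a : Fin p → ℝ) (u : Fin p → ℂ) : ℂ := ∑ i, (a i : ℂ) * u i

def T2 (a : Fin p → Fin p → ℝ) (u v : Fin p → ℂ) : ℂ :=
  ∑ i, ∑ j, (a i j : ℂ) * u i * v j

def T3 (a : Fin p → Fin p → Fin p → ℝ) (u v w : Fin p → ℂ) : ℂ :=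
  ∑ i, ∑ j, ∑ l, (a i j l : ℂ) * u i * v j * w l

def T4 (a : Fin p → Fin p → Fin p → Fin p → ℝ) (u v w y : Fin p → ℂ) : ℂ :=
  ∑ i, ∑ j, ∑ l, ∑ m, (a i j l m : ℂ) * u i * v j * w l * y m

theorem norm_T1_le {a : Fin p → ℝ} {u : Fin p → ℂ} {K M : ℝ} (ha : ∀ i, |a i| ≤ K)
    (hu : ∀ i, ‖u i‖ ≤ M) (hK : 0 ≤ K) : ‖T1 a u‖ ≤ p * (K * M) := by
  unfold T1
  refine (norm_sum_le_of_le (f := fun i => (a i : ℂ) * u i) _ (fun i _ => ?_)).trans
    (b := ∑ _i : Fin p, K * M) ?_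
  · rw [norm_mul, Complex.norm_real, Real.norm_eq_abs]
    exact mul_le_mul (ha i) (hu i) (norm_nonneg _) hK
  · simp

theorem T2_eq (a : Fin p → Fin p → ℝ) (u v : Fin p → ℂ) :
    T2 a u v = ∑ i, u i * T1 (a i) v := by
  unfold T2 T1
  refine Finset.sum_congr rfl fun i _ => ?_
  rw [Finset.mul_sum]
  exact Finset.sum_congr rfl fun j _ => by ring

theorem T3_eq (a : Fin p → Fin p → Fin p → ℝ) (u v w : Fin p → ℂ) :
    T3 a u v w = ∑ i, u i * T2 (a i) v w := by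
  unfold T3 T2
  refine Finset.sum_congr rfl fun i _ => ?_
  simp only [Finset.mul_sum]
  exact Finset.sum_congr rfl fun j _ => Finset.sum_congr rfl fun l _ => by ring

theorem T4_eq (a : Fin p → Fin p → Fin p → Fin p → ℝ) (u v w y : Fin p → ℂ) :
    T4 a u v w y = ∑ i, u i * T3 (a i) v w y := by
  unfold T4 T3
  refine Finset.sum_congr rfl fun i _ => ?_
  simp only [Finset.mul_sum]
  exact Finset.sum_congr rfl fun j _ => Finset.sum_congr rfl fun l _ =>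
    Finset.sum_congr rfl fun m _ => by ring

theorem norm_sum_mul_le {u v : Fin p → ℂ} {A B : ℝ} (hu : ∀ i, ‖u i‖ ≤ A) (hv : ∀ i, ‖v i‖ ≤ B)
    (hA : 0 ≤ A) : ‖∑ i, u i * v i‖ ≤ p * (A * B) := by
  refine (norm_sum_le_of_le (f := fun i => u i * v i) _ (fun i _ => ?_)).trans
    (b := ∑ _i : Fin p, A * B) ?_
  · rw [norm_mul]
    exact mul_le_mul (hu i) (hv i) (norm_nonneg _) hA
  · simp

theorem norm_T2_le {a : Fin p → Fin p → ℝ} {u v : Fin p → ℂ} {K M N : ℝ}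
    (ha : ∀ i j, |a i j| ≤ K) (hu : ∀ i, ‖u i‖ ≤ M) (hv : ∀ i, ‖v i‖ ≤ N) (hK : 0 ≤ K)
    (hM : 0 ≤ M) : ‖T2 a u v‖ ≤ (p : ℝ) ^ 2 * (K * M * N) := by
  rw [T2_eq]
  refine (norm_sum_mul_le hu (fun i => norm_T1_le (ha i) hv hK) hM).trans (le_of_eq ?_)
  ring

theorem norm_T3_le {a : Fin p → Fin p → Fin p → ℝ} {u v w : Fin p → ℂ} {K M N O : ℝ}
    (ha : ∀ i j l, |a i j l| ≤ K) (hu : ∀ i, ‖u i‖ ≤ M) (hv : ∀ i, ‖v i‖ ≤ N)
    (hw : ∀ i, ‖w i‖ ≤ O) (hK : 0 ≤ K) (hM : 0 ≤ M) (hN : 0 ≤ N) :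
    ‖T3 a u v w‖ ≤ (p : ℝ) ^ 3 * (K * M * N * O) := by
  rw [T3_eq]
  refine (norm_sum_mul_le hu (fun i => norm_T2_le (ha i) hv hw hK hN) hM).trans (le_of_eq ?_)
  ring

theorem norm_T4_le {a : Fin p → Fin p → Fin p → Fin p → ℝ} {u v w y : Fin p → ℂ} {K M N O S : ℝ}
    (ha : ∀ i j l m, |a i j l m| ≤ K) (hu : ∀ i, ‖u i‖ ≤ M) (hv : ∀ i, ‖v i‖ ≤ N)
    (hw : ∀ i, ‖w i‖ ≤ O) (hy : ∀ i, ‖y i‖ ≤ S) (hK : 0 ≤ K) (hM : 0 ≤ M) (hN : 0 ≤ N)
    (hO : 0 ≤ O) :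
    ‖T4 a u v w y‖ ≤ (p : ℝ) ^ 4 * (K * M * N * O * S) := by
  rw [T4_eq]
  refine (norm_sum_mul_le hu (fun i => norm_T3_le (ha i) hv hw hy hK hN hO) hM).trans (le_of_eq ?_)
  ring

/-! ### constant vectors in one slot -/

theorem T2_const1 (a : Fin p → Fin p → ℝ) (e : ℂ) (v : Fin p → ℂ) :
    T2 a (fun _ => e) v = e * T1 (fun j => ∑ i, a i j) v := by
  unfold T2 T1
  rw [Finset.sum_comm, Finset.mul_sum]
  refine Finset.sum_congr rfl fun j _ => ?_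
  push_cast
  rw [Finset.sum_mul, Finset.mul_sum]
  exact Finset.sum_congr rfl fun i _ => by ring

theorem T2_swap (a : Fin p → Fin p → ℝ) (h : ∀ i j, a i j = a j i) (u v : Fin p → ℂ) :
    T2 a u v = T2 a v u := by
  unfold T2
  rw [Finset.sum_comm]
  exact Finset.sum_congr rfl fun j _ => Finset.sum_congr rfl fun i _ => by rw [h i j]; ring

theorem T3_const1 (a : Fin p → Fin p → Fin p → ℝ) (e : ℂ) (v w : Fin p → ℂ) :
    T3 a (fun _ => e) v w = e * T2 (fun j l => ∑ i, a i j l) v w := by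
  unfold T3 T2
  rw [Finset.sum_comm, Finset.mul_sum]
  refine Finset.sum_congr rfl fun j _ => ?_
  rw [Finset.sum_comm, Finset.mul_sum]
  refine Finset.sum_congr rfl fun l _ => ?_
  push_cast
  rw [Finset.sum_mul, Finset.sum_mul, Finset.mul_sum]
  exact Finset.sum_congr rfl fun i _ => by ring

theorem T3_swap12 (a : Fin p → Fin p → Fin p → ℝ) (h : ∀ i j l, a i j l = a j i l)
    (u v w : Fin p → ℂ) : T3 a u v w = T3 a v u w := by
  unfold T3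
  rw [Finset.sum_comm]
  exact Finset.sum_congr rfl fun j _ => Finset.sum_congr rfl fun i _ =>
    Finset.sum_congr rfl fun l _ => by rw [h i j l]; ring

theorem T3_swap23 (a : Fin p → Fin p → Fin p → ℝ) (h : ∀ i j l, a i j l = a i l j)
    (u v w : Fin p → ℂ) : T3 a u v w = T3 a u w v := by
  rw [T3_eq, T3_eq]
  refine Finset.sum_congr rfl fun i _ => ?_
  rw [T2_swap (a i) (h i)]

theorem T4_const1 (a : Fin p → Fin p → Fin p → Fin p → ℝ) (e : ℂ) (v w y : Fin p → ℂ) :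
    T4 a (fun _ => e) v w y = e * T3 (fun j l m => ∑ i, a i j l m) v w y := by
  unfold T4 T3
  rw [Finset.sum_comm, Finset.mul_sum]
  refine Finset.sum_congr rfl fun j _ => ?_
  rw [Finset.sum_comm, Finset.mul_sum]
  refine Finset.sum_congr rfl fun l _ => ?_
  rw [Finset.sum_comm, Finset.mul_sum]
  refine Finset.sum_congr rfl fun m _ => ?_
  push_cast
  rw [Finset.sum_mul, Finset.sum_mul, Finset.sum_mul, Finset.mul_sum]
  exact Finset.sum_congr rfl fun i _ => by ring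

theorem T4_swap12 (a : Fin p → Fin p → Fin p → Fin p → ℝ) (h : ∀ i j l m, a i j l m = a j i l m)
    (u v w y : Fin p → ℂ) : T4 a u v w y = T4 a v u w y := by
  unfold T4
  rw [Finset.sum_comm]
  exact Finset.sum_congr rfl fun j _ => Finset.sum_congr rfl fun i _ =>
    Finset.sum_congr rfl fun l _ => Finset.sum_congr rfl fun m _ => by rw [h i j l m]; ring

theorem T4_swap23 (a : Fin p → Fin p → Fin p → Fin p → ℝ) (h : ∀ i j l m, a i j l m = a i l j m)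
    (u v w y : Fin p → ℂ) : T4 a u v w y = T4 a u w v y := by
  rw [T4_eq, T4_eq]
  exact Finset.sum_congr rfl fun i _ => by rw [T3_swap12 (a i) (h i)]

theorem T4_swap34 (a : Fin p → Fin p → Fin p → Fin p → ℝ) (h : ∀ i j l m, a i j l m = a i j m l)
    (u v w y : Fin p → ℂ) : T4 a u v w y = T4 a u v y w := by
  rw [T4_eq, T4_eq]
  exact Finset.sum_congr rfl fun i _ => by rw [T3_swap23 (a i) (h i)]

/-! ### additivity in the first slot -/

theorem T2_sub1 (a : Fin p → Fin p → ℝ) (u u' v : Fin p → ℂ) :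
    T2 a u v - T2 a u' v = T2 a (fun i => u i - u' i) v := by
  rw [T2_eq, T2_eq, T2_eq, ← Finset.sum_sub_distrib]
  exact Finset.sum_congr rfl fun i _ => by ring

theorem T3_sub1 (a : Fin p → Fin p → Fin p → ℝ) (u u' v w : Fin p → ℂ) :
    T3 a u v w - T3 a u' v w = T3 a (fun i => u i - u' i) v w := by
  rw [T3_eq, T3_eq, T3_eq, ← Finset.sum_sub_distrib]
  exact Finset.sum_congr rfl fun i _ => by ring

theorem T4_sub1 (a : Fin p → Fin p → Fin p → Fin p → ℝ) (u u' v w y : Fin p → ℂ) :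
    T4 a u v w y - T4 a u' v w y = T4 a (fun i => u i - u' i) v w y := by
  rw [T4_eq, T4_eq, T4_eq, ← Finset.sum_sub_distrib]
  exact Finset.sum_congr rfl fun i _ => by ring

/-! ### differences when all slots are shifted by constants -/

theorem T2_diff {a : Fin p → Fin p → ℝ} (h : ∀ i j, a i j = a j i) {u v u' v' : Fin p → ℂ}
    {e f : ℂ} (hu : ∀ i, u i - u' i = e) (hv : ∀ i, v i - v' i = f) {K M N : ℝ}
    (hm : ∀ j, |∑ i, a i j| ≤ K) (hv1 : ∀ i, ‖v i‖ ≤ N) (hu1 : ∀ i, ‖u' i‖ ≤ M)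
    (hK : 0 ≤ K) :
    ‖T2 a u v - T2 a u' v'‖ ≤ p * (K * (‖e‖ * N + ‖f‖ * M)) := by
  have e1 : T2 a u v - T2 a u' v = e * T1 (fun j => ∑ i, a i j) v := by
    rw [T2_sub1, show (fun i => u i - u' i) = fun _ => e from funext hu, T2_const1]
  have e2 : T2 a u' v - T2 a u' v' = f * T1 (fun j => ∑ i, a i j) u' := by
    rw [T2_swap a h u' v, T2_swap a h u' v', T2_sub1,
      show (fun i => v i - v' i) = fun _ => f from funext hv, T2_const1]
  have e3 : T2 a u v - T2 a u' v' = e * T1 (fun j => ∑ i, a i j) v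
      + f * T1 (fun j => ∑ i, a i j) u' := by rw [← e1, ← e2]; ring
  rw [e3]
  have b1 := norm_T1_le hm hv1 hK
  have b2 := norm_T1_le hm hu1 hK
  calc _ ≤ ‖e * T1 (fun j => ∑ i, a i j) v‖ + ‖f * T1 (fun j => ∑ i, a i j) u'‖ := norm_add_le _ _
    _ = ‖e‖ * ‖T1 (fun j => ∑ i, a i j) v‖ + ‖f‖ * ‖T1 (fun j => ∑ i, a i j) u'‖ := by
        rw [norm_mul, norm_mul]
    _ ≤ ‖e‖ * (p * (K * N)) + ‖f‖ * (p * (K * M)) := by gcongr
    _ = _ := by ring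

theorem T3_diff {a : Fin p → Fin p → Fin p → ℝ} (h12 : ∀ i j l, a i j l = a j i l)
    (h23 : ∀ i j l, a i j l = a i l j) {u v w u' v' w' : Fin p → ℂ}
    {e f g : ℂ} (hu : ∀ i, u i - u' i = e) (hv : ∀ i, v i - v' i = f) (hw : ∀ i, w i - w' i = g)
    {K M N : ℝ}
    (hm : ∀ j l, |∑ i, a i j l| ≤ K) (hv1 : ∀ i, ‖v i‖ ≤ N) (hw1 : ∀ i, ‖w i‖ ≤ N)
    (hv2 : ∀ i, ‖v' i‖ ≤ N) (hu1 : ∀ i, ‖u' i‖ ≤ M)
    (hK : 0 ≤ K) (hN : 0 ≤ N) (hM : 0 ≤ M) :
    ‖T3 a u v w - T3 a u' v' w'‖ ≤ (p : ℝ) ^ 2 * (K * (‖e‖ * N * N + (‖f‖ + ‖g‖) * M * N)) := by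
  have e1 : T3 a u v w - T3 a u' v w = e * T2 (fun j l => ∑ i, a i j l) v w := by
    rw [T3_sub1, show (fun i => u i - u' i) = fun _ => e from funext hu, T3_const1]
  have e2 : T3 a u' v w - T3 a u' v' w = f * T2 (fun j l => ∑ i, a i j l) u' w := by
    rw [T3_swap12 a h12 u' v, T3_swap12 a h12 u' v', T3_sub1,
      show (fun i => v i - v' i) = fun _ => f from funext hv, T3_const1]
  have e3 : T3 a u' v' w - T3 a u' v' w' = g * T2 (fun j l => ∑ i, a i j l) u' v' := by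
    rw [T3_swap23 a h23 u' v' w, T3_swap12 a h12 u' w, T3_swap23 a h23 u' v' w',
      T3_swap12 a h12 u' w', T3_sub1,
      show (fun i => w i - w' i) = fun _ => g from funext hw, T3_const1]
  have e4 : T3 a u v w - T3 a u' v' w' = e * T2 (fun j l => ∑ i, a i j l) v w
      + f * T2 (fun j l => ∑ i, a i j l) u' w + g * T2 (fun j l => ∑ i, a i j l) u' v' := by
    rw [← e1, ← e2, ← e3]; ring
  rw [e4]
  have b1 := norm_T2_le hm hv1 hw1 hK hN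
  have b2 := norm_T2_le hm hu1 hw1 hK hM
  have b3 := norm_T2_le hm hu1 hv2 hK hM
  calc _ ≤ ‖e * T2 (fun j l => ∑ i, a i j l) v w‖ + ‖f * T2 (fun j l => ∑ i, a i j l) u' w‖
        + ‖g * T2 (fun j l => ∑ i, a i j l) u' v'‖ := norm_add₃_le
    _ = ‖e‖ * ‖T2 (fun j l => ∑ i, a i j l) v w‖ + ‖f‖ * ‖T2 (fun j l => ∑ i, a i j l) u' w‖
        + ‖g‖ * ‖T2 (fun j l => ∑ i, a i j l) u' v'‖ := by
        rw [norm_mul, norm_mul, norm_mul]
    _ ≤ ‖e‖ * ((p : ℝ) ^ 2 * (K * N * N)) + ‖f‖ * ((p : ℝ) ^ 2 * (K * M * N))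
        + ‖g‖ * ((p : ℝ) ^ 2 * (K * M * N)) := by gcongr
    _ = _ := by ring

theorem T4_diff {a : Fin p → Fin p → Fin p → Fin p → ℝ} (h12 : ∀ i j l m, a i j l m = a j i l m)
    (h23 : ∀ i j l m, a i j l m = a i l j m) (h34 : ∀ i j l m, a i j l m = a i j m l)
    {u v w y u' v' w' y' : Fin p → ℂ}
    {e f g c : ℂ} (hu : ∀ i, u i - u' i = e) (hv : ∀ i, v i - v' i = f) (hw : ∀ i, w i - w' i = g)
    (hy : ∀ i, y i - y' i = c)
    {K N : ℝ}
    (hm : ∀ j l m, |∑ i, a i j l m| ≤ K) (hv1 : ∀ i, ‖v i‖ ≤ N) (hw1 : ∀ i, ‖w i‖ ≤ N)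
    (hy1 : ∀ i, ‖y i‖ ≤ N)
    (hu2 : ∀ i, ‖u' i‖ ≤ N) (hv2 : ∀ i, ‖v' i‖ ≤ N) (hw2 : ∀ i, ‖w' i‖ ≤ N)
    (hK : 0 ≤ K) (hN : 0 ≤ N) :
    ‖T4 a u v w y - T4 a u' v' w' y'‖
      ≤ (p : ℝ) ^ 3 * (K * ((‖e‖ + ‖f‖ + ‖g‖ + ‖c‖) * N ^ 3)) := by
  have e1 : T4 a u v w y - T4 a u' v w y = e * T3 (fun j l m => ∑ i, a i j l m) v w y := by
    rw [T4_sub1, show (fun i => u i - u' i) = fun _ => e from funext hu, T4_const1]
  have e2 : T4 a u' v w y - T4 a u' v' w y = f * T3 (fun j l m => ∑ i, a i j l m) u' w y := by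
    rw [T4_swap12 a h12 u' v, T4_swap12 a h12 u' v', T4_sub1,
      show (fun i => v i - v' i) = fun _ => f from funext hv, T4_const1]
  have e3 : T4 a u' v' w y - T4 a u' v' w' y
      = g * T3 (fun j l m => ∑ i, a i j l m) u' v' y := by
    rw [T4_swap23 a h23 u' v' w, T4_swap12 a h12 u' w, T4_swap23 a h23 u' v' w',
      T4_swap12 a h12 u' w', T4_sub1,
      show (fun i => w i - w' i) = fun _ => g from funext hw, T4_const1]
  have e4 : T4 a u' v' w' y - T4 a u' v' w' y'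
      = c * T3 (fun j l m => ∑ i, a i j l m) u' v' w' := by
    rw [T4_swap34 a h34 u' v' w' y, T4_swap23 a h23 u' v' y, T4_swap12 a h12 u' y,
      T4_swap34 a h34 u' v' w' y', T4_swap23 a h23 u' v' y',
      T4_swap12 a h12 u' y', T4_sub1,
      show (fun i => y i - y' i) = fun _ => c from funext hy, T4_const1]
  have e5 : T4 a u v w y - T4 a u' v' w' y' = e * T3 (fun j l m => ∑ i, a i j l m) v w y
      + f * T3 (fun j l m => ∑ i, a i j l m) u' w y + g * T3 (fun j l m => ∑ i, a i j l m) u' v' y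
      + c * T3 (fun j l m => ∑ i, a i j l m) u' v' w' := by
    rw [← e1, ← e2, ← e3, ← e4]; ring
  rw [e5]
  have b1 := norm_T3_le hm hv1 hw1 hy1 hK hN hN
  have b2 := norm_T3_le hm hu2 hw1 hy1 hK hN hN
  have b3 := norm_T3_le hm hu2 hv2 hy1 hK hN hN
  have b4 := norm_T3_le hm hu2 hv2 hw2 hK hN hN
  calc _ ≤ ‖e * T3 (fun j l m => ∑ i, a i j l m) v w y‖
        + ‖f * T3 (fun j l m => ∑ i, a i j l m) u' w y‖
        + ‖g * T3 (fun j l m => ∑ i, a i j l m) u' v' y‖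
        + ‖c * T3 (fun j l m => ∑ i, a i j l m) u' v' w'‖ := by
        refine (norm_add_le _ _).trans ?_
        gcongr
        exact norm_add₃_le
    _ = ‖e‖ * ‖T3 (fun j l m => ∑ i, a i j l m) v w y‖
        + ‖f‖ * ‖T3 (fun j l m => ∑ i, a i j l m) u' w y‖
        + ‖g‖ * ‖T3 (fun j l m => ∑ i, a i j l m) u' v' y‖
        + ‖c‖ * ‖T3 (fun j l m => ∑ i, a i j l m) u' v' w'‖ := by
        rw [norm_mul, norm_mul, norm_mul, norm_mul]
    _ ≤ ‖e‖ * ((p : ℝ) ^ 3 * (K * N * N * N)) + ‖f‖ * ((p : ℝ) ^ 3 * (K * N * N * N))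
        + ‖g‖ * ((p : ℝ) ^ 3 * (K * N * N * N)) + ‖c‖ * ((p : ℝ) ^ 3 * (K * N * N * N)) := by
        gcongr
    _ = _ := by ring

end

end Pool.Agent.H789.HSC.A12
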