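import Pool.Agent.H789.HSC.A12b

/-! Shared algebra for the cases A1 and A2: the core identity and the core estimate. -/

open scoped BigOperators ContDiff ComplexConjugate Topology

namespace Pool.Agent.H789.HSC.A12

noncomputable section

variable {p : ℕ}

/-- the contribution of one embedding avoiding `D` -/
def coreQ (R : ℝ) (W : (Fin p → ℝ) → ℝ) (s : Fin p → ℝ) (τ σ : Fin p → ℂ) (h : ℝ) (k : ℂ)
    (Qu : ℝ) : ℝ :=
  -(p * F1 R 0) * Qu + ∑ j, (FJ R (TJ s τ σ h k Qu j)).Q + (multiJet W (TJ s τ σ h k Qu)).Q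

theorem T2_a2 (R : ℝ) (W : (Fin p → ℝ) → ℝ) (s : Fin p → ℝ) (u v : Fin p → ℂ) :
    T2 (a2 R W s) u v = (∑ i, (F2 R (s i) : ℂ) * u i * v i) + D2 W s u v := by
  unfold T2 a2 D2
  rw [← Finset.sum_add_distrib]
  refine Finset.sum_congr rfl fun i _ => ?_
  have : ∀ j, (((if i = j then F2 R (s i) else 0) + pd (pd W i) j s : ℝ) : ℂ) * u i * v j
      = (if i = j then (F2 R (s i) : ℂ) * u i * v j else 0)
        + (pd (pd W i) j s : ℂ) * u i * v j := by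
    intro j
    by_cases h : i = j
    · rw [if_pos h, if_pos h]; push_cast; ring
    · rw [if_neg h, if_neg h]; push_cast; ring
  simp only [this, Finset.sum_add_distrib]
  simp

theorem T3_a3 (R : ℝ) (W : (Fin p → ℝ) → ℝ) (s : Fin p → ℝ) (u v w : Fin p → ℂ) :
    T3 (a3 R W s) u v w = (∑ i, (F3 R (s i) : ℂ) * u i * v i * w i) + D3 W s u v w := by
  unfold T3 a3 D3
  rw [← Finset.sum_add_distrib]
  refine Finset.sum_congr rfl fun i _ => ?_
  have : ∀ j l, (((if i = j then (if j = l then F3 R (s i) else 0) else 0)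
      + pd (pd (pd W i) j) l s : ℝ) : ℂ) * u i * v j * w l
      = (if i = j then (if j = l then (F3 R (s i) : ℂ) * u i * v j * w l else 0) else 0)
        + (pd (pd (pd W i) j) l s : ℂ) * u i * v j * w l := by
    intro j l
    by_cases h : i = j
    · by_cases h' : j = l
      · simp only [if_pos h, if_pos h']; push_cast; ring
      · simp only [if_pos h, if_neg h']; push_cast; ring
    · simp only [if_neg h]; push_cast; ring
  simp only [this, Finset.sum_add_distrib]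
  congr 1
  rw [Finset.sum_eq_single i]
  · simp
  · intro j _ hj
    simp [Ne.symm hj]
  · intro h; exact absurd (Finset.mem_univ i) h

theorem T4_a4 (R : ℝ) (W : (Fin p → ℝ) → ℝ) (s : Fin p → ℝ) (u v w y : Fin p → ℂ) :
    T4 (a4 R W s) u v w y
      = (∑ i, (F4 R (s i) : ℂ) * u i * v i * w i * y i) + D4 W s u v w y := by
  unfold T4 a4 D4
  rw [← Finset.sum_add_distrib]
  refine Finset.sum_congr rfl fun i _ => ?_
  have : ∀ j l m, (((if i = j then (if j = l then (if l = m then F4 R (s i) else 0) else 0) else 0)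
      + pd (pd (pd (pd W i) j) l) m s : ℝ) : ℂ) * u i * v j * w l * y m
      = (if i = j then (if j = l then (if l = m then (F4 R (s i) : ℂ) * u i * v j * w l * y m
          else 0) else 0) else 0)
        + (pd (pd (pd (pd W i) j) l) m s : ℂ) * u i * v j * w l * y m := by
    intro j l m
    by_cases h : i = j
    · by_cases h' : j = l
      · by_cases h'' : l = m
        · simp only [if_pos h, if_pos h', if_pos h'']; push_cast; ring
        · simp only [if_pos h, if_pos h', if_neg h'']; push_cast; ring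
      · simp only [if_pos h, if_neg h']; push_cast; ring
    · simp only [if_neg h]; push_cast; ring
  simp only [this, Finset.sum_add_distrib]
  congr 1
  rw [Finset.sum_eq_single i]
  · rw [Finset.sum_eq_single i]
    · simp
    · intro l _ hl
      simp [Ne.symm hl]
    · intro h; exact absurd (Finset.mem_univ i) h
  · intro j _ hj
    simp [Ne.symm hj]
  · intro h; exact absurd (Finset.mem_univ i) h

/-- the quartic form of `V` -/
def HV (R : ℝ) (W : (Fin p → ℝ) → ℝ) (s : Fin p → ℝ) (τ σ : Fin p → ℂ) : ℝ :=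
  (T4 (a4 R W s) τ τ (fun i => conj (τ i)) (fun i => conj (τ i))).re
    + 2 * (T3 (a3 R W s) σ (fun i => conj (τ i)) (fun i => conj (τ i))).re
    + (T2 (a2 R W s) σ (fun i => conj (σ i))).re

theorem re_quart (x : ℝ) (z : ℂ) : ((x : ℂ) * z * z * conj z * conj z).re = x * ‖z‖ ^ 4 := by
  have h : (x : ℂ) * z * z * conj z * conj z = ((x * ‖z‖ ^ 4 : ℝ) : ℂ) := by
    have h2 : z * conj z = ((‖z‖ ^ 2 : ℝ) : ℂ) := by
      rw [Complex.mul_conj, Complex.normSq_eq_norm_sq]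
    calc (x : ℂ) * z * z * conj z * conj z = x * (z * conj z) * (z * conj z) := by ring
      _ = _ := by rw [h2]; push_cast; ring
  rw [h, Complex.ofReal_re]

theorem re_sq (x : ℝ) (z : ℂ) : ((x : ℂ) * z * conj z).re = x * ‖z‖ ^ 2 := by
  have h : (x : ℂ) * z * conj z = ((x * ‖z‖ ^ 2 : ℝ) : ℂ) := by
    have h2 : z * conj z = ((‖z‖ ^ 2 : ℝ) : ℂ) := by
      rw [Complex.mul_conj, Complex.normSq_eq_norm_sq]
    calc (x : ℂ) * z * conj z = x * (z * conj z) := by ring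
      _ = _ := by rw [h2]; push_cast; ring
  rw [h, Complex.ofReal_re]

theorem HV_eq (R : ℝ) (W : (Fin p → ℝ) → ℝ) (s : Fin p → ℝ) (τ σ : Fin p → ℂ) :
    ∑ i, QF R (s i) (τ i) (σ i) + holQ W s τ σ = HV R W s τ σ := by
  unfold HV holQ
  rw [T4_a4, T3_a3, T2_a2]
  simp only [Complex.add_re, Complex.re_sum]
  have h1 : ∀ i, ((F4 R (s i) : ℂ) * τ i * τ i * conj (τ i) * conj (τ i)).re
      = F4 R (s i) * ‖τ i‖ ^ 4 := fun i => re_quart _ _
  have h2 : ∀ i, ((F2 R (s i) : ℂ) * σ i * conj (σ i)).re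
      = F2 R (s i) * ‖σ i‖ ^ 2 := fun i => re_sq _ _
  have h3 : ∀ i, ((F3 R (s i) : ℂ) * σ i * conj (τ i) * conj (τ i)).re
      = F3 R (s i) * ((conj (τ i)) ^ 2 * σ i).re := by
    intro i
    rw [show (F3 R (s i) : ℂ) * σ i * conj (τ i) * conj (τ i)
      = (F3 R (s i) : ℂ) * ((conj (τ i)) ^ 2 * σ i) by ring, Complex.re_ofReal_mul]
  simp only [h1, h2, h3]
  have h4 : ∑ i, QF R (s i) (τ i) (σ i) = ∑ i, F4 R (s i) * ‖τ i‖ ^ 4
      + 2 * ∑ i, F3 R (s i) * ((conj (τ i)) ^ 2 * σ i).re + ∑ i, F2 R (s i) * ‖σ i‖ ^ 2 := by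
    rw [Finset.mul_sum, ← Finset.sum_add_distrib, ← Finset.sum_add_distrib]
    refine Finset.sum_congr rfl fun i _ => ?_
    unfold QF
    ring
  rw [h4]
  ring

/-- the core identity -/
theorem coreQ_eq (R : ℝ) (W : (Fin p → ℝ) → ℝ) (s : Fin p → ℝ) (τ σ : Fin p → ℂ) (h : ℝ) (k : ℂ)
    (Qu : ℝ) :
    coreQ R W s τ σ h k Qu = aV R W s * Qu + HV R W s τ σ
      + 4 * (T3 (a3 R W s) τ (fun i => conj (τ i)) (fun _ => (h : ℂ))).re
      + 2 * (T2 (a2 R W s) (fun _ => (h : ℂ)) (fun _ => (h : ℂ))).re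
      + 4 * (T2 (a2 R W s) (fun _ => k) (fun i => conj (τ i))).re := by
  rw [← HV_eq, T3_a3, T2_a2, T2_a2]
  unfold coreQ FJ TJ Jet.comp multiJet holQ
  simp only [Complex.add_re, Complex.re_sum]
  have h1 : ∀ i, ((F3 R (s i) : ℂ) * τ i * conj (τ i) * (h : ℂ)).re
      = F3 R (s i) * ‖τ i‖ ^ 2 * h := by
    intro i
    rw [Complex.re_mul_ofReal, re_sq]
  have h2 : ∀ i, ((F2 R (s i) : ℂ) * (h : ℂ) * (h : ℂ)).re = F2 R (s i) * h ^ 2 := by
    intro i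
    rw [Complex.re_mul_ofReal, Complex.re_mul_ofReal, Complex.ofReal_re]; ring
  have h3 : ∀ i, ((F2 R (s i) : ℂ) * k * conj (τ i)).re = F2 R (s i) * (τ i * conj k).re := by
    intro i
    rw [mul_assoc, Complex.re_ofReal_mul]
    congr 1
    rw [← Complex.conj_re (τ i * conj k)]
    simp only [map_mul, Complex.conj_conj]
    rw [mul_comm]
  simp only [h1, h2, h3]
  unfold aV
  have h4 : ∑ x, (F1 R (s x) * Qu + F2 R (s x) * (2 * h ^ 2 + ‖σ x‖ ^ 2 + 4 * (τ x * conj k).re)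
        + F3 R (s x) * (4 * ‖τ x‖ ^ 2 * h + 2 * ((conj (τ x)) ^ 2 * σ x).re)
        + F4 R (s x) * ‖τ x‖ ^ 4)
      = (∑ x, F1 R (s x)) * Qu + 2 * ∑ x, F2 R (s x) * h ^ 2
        + 4 * ∑ x, F2 R (s x) * (τ x * conj k).re
        + 4 * ∑ x, F3 R (s x) * ‖τ x‖ ^ 2 * h + ∑ i, QF R (s i) (τ i) (σ i) := by
    rw [Finset.sum_mul, Finset.mul_sum, Finset.mul_sum, Finset.mul_sum,
      ← Finset.sum_add_distrib, ← Finset.sum_add_distrib,
      ← Finset.sum_add_distrib, ← Finset.sum_add_distrib]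
    refine Finset.sum_congr rfl fun i _ => ?_
    unfold QF
    ring
  have h5 : ∑ x, pd W x (fun i => s i) * Qu = (∑ x, pd W x s) * Qu := by
    rw [Finset.sum_mul]
  rw [h4, h5, Finset.sum_sub_distrib]
  simp only [Finset.sum_const, Finset.card_univ, Fintype.card_fin, nsmul_eq_mul]
  ring

/-- the core estimate -/
theorem core_lower {K L R r₀ ρ X Y Z E G : ℝ} {W : (Fin p → ℝ) → ℝ} (hR : 1 ≤ R)
    (hN : NearV p K L R r₀ W) (hK : 0 ≤ K) {s : Fin p → ℝ} (hW : ContDiffAt ℝ (5 : ℕ) W s)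
    (hρ : 0 ≤ ρ) (hρr : ρ ≤ r₀) (hs : ∀ i, |s i| ≤ ρ) {τ σ : Fin p → ℂ} {h : ℝ} {k : ℂ}
    (Qu : ℝ) (j₀ : Fin p)
    (hX : ∀ i, ‖τ i - τ j₀‖ ≤ X) (hY : ∀ i, ‖σ i - σ j₀‖ ≤ Y) (hZ : ‖τ j₀‖ ≤ Z) (hE : ‖σ j₀‖ ≤ E)
    (hh : |h| ≤ E) (hk : ‖k‖ ≤ G) (i j : Fin p) :
    aV R W s * Qu + L * ‖τ i - τ j₀‖ ^ 4 + ‖σ j - σ j₀‖ ^ 2 / 16
      - (p : ℝ) ^ 3 * K * (4 * Z * (X + Z) ^ 3 + 6 * ρ * E * (X + Z) ^ 2
          + 4 * ρ * Z * Y * (X + Z) + ρ ^ 2 * (2 * E * Y + 3 * E ^ 2)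
          + 4 * ρ ^ 2 * G * (X + Z))
      ≤ coreQ R W s τ σ h k Qu := by
  have hR0 : R ≠ 0 := by positivity
  have hX0 : 0 ≤ X := (norm_nonneg _).trans (hX j₀)
  have hY0 : 0 ≤ Y := (norm_nonneg _).trans (hY j₀)
  have hZ0 : 0 ≤ Z := (norm_nonneg _).trans hZ
  have hE0 : 0 ≤ E := (norm_nonneg _).trans hE
  have hG0 : 0 ≤ G := (norm_nonneg _).trans hk
  have hp : (1 : ℝ) ≤ p := by
    have : 0 < p := lt_of_le_of_lt (Nat.zero_le _) j₀.2
    exact_mod_cast this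
  obtain ⟨-, hA1, hA2, hA3⟩ := hN.a0 s ρ hρ hρr hs
  have m2 : ∀ j, |∑ i, a2 R W s i j| ≤ K * ρ ^ 2 := fun j => by
    rw [← sum_a2 hR0 hW]; exact hA1 j
  have m3 : ∀ j l, |∑ i, a3 R W s i j l| ≤ K * ρ := fun j l => by
    rw [← sum_a3 hR0 hW]; exact hA2 j l
  have m4 : ∀ j l m, |∑ i, a4 R W s i j l m| ≤ K := fun j l m => by
    rw [← sum_a4 hR0 hW]; exact hA3 j l m
  set τ' : Fin p → ℂ := fun i => τ i - τ j₀ with hτ'
  set σ' : Fin p → ℂ := fun i => σ i - σ j₀ with hσ'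
  have nτ : ∀ i, ‖τ i‖ ≤ X + Z := fun i => by
    calc ‖τ i‖ = ‖(τ i - τ j₀) + τ j₀‖ := by rw [sub_add_cancel]
      _ ≤ _ := (norm_add_le _ _).trans (add_le_add (hX i) hZ)
  have nσ : ∀ i, ‖σ i‖ ≤ Y + E := fun i => by
    calc ‖σ i‖ = ‖(σ i - σ j₀) + σ j₀‖ := by rw [sub_add_cancel]
      _ ≤ _ := (norm_add_le _ _).trans (add_le_add (hY i) hE)
  have nτc : ∀ i, ‖conj (τ i)‖ ≤ X + Z := fun i => by rw [RCLike.norm_conj]; exact nτ i
  have nσc : ∀ i, ‖conj (σ i)‖ ≤ Y + E := fun i => by rw [RCLike.norm_conj]; exact nσ i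
  have nτ' : ∀ i, ‖τ' i‖ ≤ X + Z := fun i => (hX i).trans (by linarith)
  have nτ'c : ∀ i, ‖conj (τ' i)‖ ≤ X + Z := fun i => by rw [RCLike.norm_conj]; exact nτ' i
  have hXZ : 0 ≤ X + Z := by positivity
  have q0 := hN.Q0 s (fun i => (hs i).trans hρr) j₀ τ' σ' (by simp [hτ']) (by simp [hσ']) i j
  rw [HV_eq] at q0
  rw [coreQ_eq]
  -- the three differences
  have d4 := T4_diff (a := a4 R W s) (a4_comm12 hW) (a4_comm23 hW) (a4_comm34 hW)
    (u := τ) (v := τ) (w := fun i => conj (τ i)) (y := fun i => conj (τ i))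
    (u' := τ') (v' := τ') (w' := fun i => conj (τ' i)) (y' := fun i => conj (τ' i))
    (e := τ j₀) (f := τ j₀) (g := conj (τ j₀)) (c := conj (τ j₀))
    (fun i => by simp [hτ']) (fun i => by simp [hτ']) (fun i => by simp [hτ'])
    (fun i => by simp [hτ']) m4 nτ nτc nτc nτ' nτ' nτ'c hK hXZ
  have d3 := T3_diff (a := a3 R W s) (a3_comm12 hW) (a3_comm23 hW)
    (u := σ) (v := fun i => conj (τ i)) (w := fun i => conj (τ i))
    (u' := σ') (v' := fun i => conj (τ' i)) (w' := fun i => conj (τ' i))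
    (e := σ j₀) (f := conj (τ j₀)) (g := conj (τ j₀))
    (fun i => by simp [hσ']) (fun i => by simp [hτ']) (fun i => by simp [hτ'])
    m3 nτc nτc nτ'c hY (mul_nonneg hK hρ) hXZ hY0
  have d2 := T2_diff (a := a2 R W s) (a2_comm hW)
    (u := σ) (v := fun i => conj (σ i))
    (u' := σ') (v' := fun i => conj (σ' i))
    (e := σ j₀) (f := conj (σ j₀))
    (fun i => by simp [hσ']) (fun i => by simp [hσ'])
    m2 nσc hY (by positivity)
  have c3 : ‖T3 (a3 R W s) τ (fun i => conj (τ i)) (fun _ => (h : ℂ))‖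
      ≤ E * ((p : ℝ) ^ 2 * (K * ρ * (X + Z) * (X + Z))) := by
    rw [T3_swap23 _ (a3_comm23 hW), T3_swap12 _ (a3_comm12 hW), T3_const1, norm_mul,
      Complex.norm_real, Real.norm_eq_abs]
    have := norm_T2_le m3 nτ nτc (mul_nonneg hK hρ) hXZ
    gcongr
  have c2 : ‖T2 (a2 R W s) (fun _ => (h : ℂ)) (fun _ => (h : ℂ))‖
      ≤ E * (p * (K * ρ ^ 2 * E)) := by
    rw [T2_const1, norm_mul, Complex.norm_real, Real.norm_eq_abs]
    have := norm_T1_le (u := fun _ => (h : ℂ)) (M := E) m2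
      (fun i => by rw [Complex.norm_real, Real.norm_eq_abs]; exact hh) (by positivity)
    gcongr
  have c1 : ‖T2 (a2 R W s) (fun _ => k) (fun i => conj (τ i))‖
      ≤ G * (p * (K * ρ ^ 2 * (X + Z))) := by
    rw [T2_const1, norm_mul]
    have := norm_T1_le m2 nτc (by positivity)
    gcongr
  -- real parts
  have r4 := (Complex.abs_re_le_norm _).trans d4
  have r3 := (Complex.abs_re_le_norm _).trans d3
  have r2 := (Complex.abs_re_le_norm _).trans d2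
  have s3 := (Complex.abs_re_le_norm _).trans c3
  have s2 := (Complex.abs_re_le_norm _).trans c2
  have s1 := (Complex.abs_re_le_norm _).trans c1
  simp only [Complex.sub_re] at r4 r3 r2
  rw [RCLike.norm_conj] at r4 r3 r2
  have r4' := neg_le_of_abs_le r4
  have r3' := neg_le_of_abs_le r3
  have r2' := neg_le_of_abs_le r2
  have s3' := neg_le_of_abs_le s3
  have s2' := neg_le_of_abs_le s2
  have s1' := neg_le_of_abs_le s1
  unfold HV at q0 ⊢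
  have hp2 : (p : ℝ) ^ 2 ≤ (p : ℝ) ^ 3 := pow_le_pow_right₀ hp (by norm_num)
  have hp1 : (p : ℝ) ≤ (p : ℝ) ^ 3 := by
    calc (p : ℝ) = (p : ℝ) ^ 1 := (pow_one _).symm
      _ ≤ _ := pow_le_pow_right₀ hp (by norm_num)
  -- bounds of the errors
  have E4 : (p : ℝ) ^ 3 * (K * ((‖τ j₀‖ + ‖τ j₀‖ + ‖τ j₀‖ + ‖τ j₀‖) * (X + Z) ^ 3))
      ≤ (p : ℝ) ^ 3 * K * (4 * Z * (X + Z) ^ 3) := by
    have : ‖τ j₀‖ + ‖τ j₀‖ + ‖τ j₀‖ + ‖τ j₀‖ ≤ 4 * Z := by linarith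
    calc _ ≤ (p : ℝ) ^ 3 * (K * ((4 * Z) * (X + Z) ^ 3)) := by gcongr
      _ = _ := by ring
  have E3 : (p : ℝ) ^ 2 * (K * ρ * (‖σ j₀‖ * (X + Z) * (X + Z) + (‖τ j₀‖ + ‖τ j₀‖) * Y * (X + Z)))
      ≤ (p : ℝ) ^ 3 * K * (ρ * E * (X + Z) ^ 2 + 2 * ρ * Z * Y * (X + Z)) := by
    calc _ ≤ (p : ℝ) ^ 3 * (K * ρ * (E * (X + Z) * (X + Z) + (Z + Z) * Y * (X + Z))) := by gcongr
      _ = _ := by ring
  have E2 : (p : ℝ) * (K * ρ ^ 2 * (‖σ j₀‖ * (Y + E) + ‖σ j₀‖ * Y))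
      ≤ (p : ℝ) ^ 3 * K * (ρ ^ 2 * (2 * E * Y + E ^ 2)) := by
    calc _ ≤ (p : ℝ) ^ 3 * (K * ρ ^ 2 * (E * (Y + E) + E * Y)) := by gcongr
      _ = _ := by ring
  have G3 : E * ((p : ℝ) ^ 2 * (K * ρ * (X + Z) * (X + Z)))
      ≤ (p : ℝ) ^ 3 * K * (ρ * E * (X + Z) ^ 2) := by
    calc _ ≤ E * ((p : ℝ) ^ 3 * (K * ρ * (X + Z) * (X + Z))) := by gcongr
      _ = _ := by ring
  have G2 : E * (p * (K * ρ ^ 2 * E)) ≤ (p : ℝ) ^ 3 * K * (ρ ^ 2 * E ^ 2) := by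
    calc _ ≤ E * ((p : ℝ) ^ 3 * (K * ρ ^ 2 * E)) := by gcongr
      _ = _ := by ring
  have G1 : G * (p * (K * ρ ^ 2 * (X + Z))) ≤ (p : ℝ) ^ 3 * K * (ρ ^ 2 * G * (X + Z)) := by
    calc _ ≤ G * ((p : ℝ) ^ 3 * (K * ρ ^ 2 * (X + Z))) := by gcongr
      _ = _ := by ring
  simp only [hτ', hσ'] at q0 r4' r3' r2' ⊢
  have expand : (p : ℝ) ^ 3 * K * (4 * Z * (X + Z) ^ 3 + 6 * ρ * E * (X + Z) ^ 2
          + 4 * ρ * Z * Y * (X + Z) + ρ ^ 2 * (2 * E * Y + 3 * E ^ 2)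
          + 4 * ρ ^ 2 * G * (X + Z))
      = (p : ℝ) ^ 3 * K * (4 * Z * (X + Z) ^ 3)
        + 2 * ((p : ℝ) ^ 3 * K * (ρ * E * (X + Z) ^ 2 + 2 * ρ * Z * Y * (X + Z)))
        + (p : ℝ) ^ 3 * K * (ρ ^ 2 * (2 * E * Y + E ^ 2))
        + 4 * ((p : ℝ) ^ 3 * K * (ρ * E * (X + Z) ^ 2))
        + 2 * ((p : ℝ) ^ 3 * K * (ρ ^ 2 * E ^ 2))
        + 4 * ((p : ℝ) ^ 3 * K * (ρ ^ 2 * G * (X + Z))) := by ring
  rw [expand]
  linarith

end

end Pool.Agent.H789.HSC.A12
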