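import Pool.Agent.H789.HSC.A12c

/-! Shared algebra for the cases A1 and A2: splitting of `QG`, bounds of the terms meeting `D`. -/

open scoped BigOperators ContDiff ComplexConjugate Topology

namespace Pool.Agent.H789.HSC.A12

noncomputable section

variable {p q : ℕ}

open Classical in
/-- number of embeddings avoiding `D` -/
theorem card_avoid {m : ℕ} (hq : p + m = q) {D : Finset (Fin q)} (hD : D.card = m) :
    (Finset.univ.filter fun e : Fin p ↪ Fin q => ∀ j, e j ∉ D).card = p.factorial := by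
  have hcard : Fintype.card {x : Fin q // x ∉ D} = p := by
    rw [Fintype.card_subtype_compl]
    simp [hD]
    omega
  rw [← Fintype.card_subtype]
  let E : {e : Fin p ↪ Fin q // ∀ j, e j ∉ D} ≃ (Fin p ↪ {x : Fin q // x ∉ D}) :=
    { toFun := fun e => ⟨fun j => ⟨e.1 j, e.2 j⟩, fun a b hab => e.1.injective (by
        simpa using hab)⟩
      invFun := fun f => ⟨f.trans (Function.Embedding.subtype _), fun j => (f j).2⟩
      left_inv := fun e => by ext j; rfl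
      right_inv := fun f => by ext j; rfl }
  rw [Fintype.card_congr E, Fintype.card_embedding_eq, hcard, Fintype.card_fin,
    Nat.descFactorial_self]

/-- sums over the complement of `D` -/
theorem sum_avoid {m : ℕ} (hq : p + m = q) {D : Finset (Fin q)} (hD : D.card = m)
    {e : Fin p ↪ Fin q} (he : ∀ j, e j ∉ D) (f : Fin q → ℝ) :
    ∑ i ∈ Dᶜ, f i = ∑ j, f (e j) := by
  have h1 : Finset.univ.map e = Dᶜ := by
    apply Finset.eq_of_subset_of_card_le
    · intro x hx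
      rw [Finset.mem_map] at hx
      obtain ⟨j, -, rfl⟩ := hx
      rw [Finset.mem_compl]
      exact he j
    · rw [Finset.card_compl, Finset.card_map, hD]
      simp
      omega
  rw [← h1, Finset.sum_map]

theorem exists_of_avoid {m : ℕ} (hq : p + m = q) {D : Finset (Fin q)} (hD : D.card = m)
    {e : Fin p ↪ Fin q} (he : ∀ j, e j ∉ D) {i : Fin q} (hi : i ∉ D) : ∃ j, e j = i := by
  have h1 : Finset.univ.map e = Dᶜ := by
    apply Finset.eq_of_subset_of_card_le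
    · intro x hx
      rw [Finset.mem_map] at hx
      obtain ⟨j, -, rfl⟩ := hx
      rw [Finset.mem_compl]
      exact he j
    · rw [Finset.card_compl, Finset.card_map, hD]
      simp
      omega
  have : i ∈ Finset.univ.map e := by rw [h1, Finset.mem_compl]; exact hi
  rw [Finset.mem_map] at this
  obtain ⟨j, -, h⟩ := this
  exact ⟨j, h⟩

/-- splitting of `QG` -/
theorem QG_lower {m : ℕ} (hq : p + m = q) {D : Finset (Fin q)} (hD : D.card = m)
    {R : ℝ} {W : (Fin p → ℝ) → ℝ} {t : Fin q → ℝ} {τ σ : Fin q → ℂ} {h : ℝ} {k : ℂ} {Qu : ℝ}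
    {c b₁ b₂ : ℝ} (hb₂ : 0 ≤ b₂)
    (h1 : ∀ i ∈ D, -b₁ ≤ (FJ R (TJ t τ σ h k Qu i)).Q)
    (h2 : ∀ e : Fin p ↪ Fin q, (∃ j, e j ∈ D) →
      -b₂ ≤ (multiJet W (fun j => TJ t τ σ h k Qu (e j))).Q)
    (h3 : ∀ e : Fin p ↪ Fin q, (∀ j, e j ∉ D) →
      c ≤ coreQ R W (fun j => t (e j)) (fun j => τ (e j)) (fun j => σ (e j)) h k Qu) :
    c - m * b₁ - (Fintype.card (Fin p ↪ Fin q)) * b₂ ≤ QG p R W t τ σ h k Qu := by
  classical
  have hfac : (0 : ℝ) < (p.factorial : ℝ) := by exact_mod_cast Nat.factorial_pos p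
  have hfac1 : (1 : ℝ) ≤ (p.factorial : ℝ) := by exact_mod_cast Nat.factorial_pos p
  set S : ℝ := ∑ i ∈ Dᶜ, (FJ R (TJ t τ σ h k Qu i)).Q with hS
  set M : (Fin p ↪ Fin q) → ℝ := fun e => (multiJet W (fun j => TJ t τ σ h k Qu (e j))).Q with hM
  have hcore : ∀ e : Fin p ↪ Fin q, (∀ j, e j ∉ D) → c + (p * F1 R 0) * Qu - S ≤ M e := by
    intro e he
    have := h3 e he
    unfold coreQ at this
    rw [hS, sum_avoid hq hD he]
    simp only [hM]
    have e2 : (fun j => TJ t τ σ h k Qu (e j))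
      = TJ (fun j => t (e j)) (fun j => τ (e j)) (fun j => σ (e j)) h k Qu := rfl
    have e3 : ∀ j, TJ t τ σ h k Qu (e j)
      = TJ (fun j => t (e j)) (fun j => τ (e j)) (fun j => σ (e j)) h k Qu j := fun _ => rfl
    rw [e2]
    simp only [e3]
    linarith
  have hsplit : ∑ e, M e = ∑ e ∈ Finset.univ.filter (fun e : Fin p ↪ Fin q => ∀ j, e j ∉ D), M e
      + ∑ e ∈ Finset.univ.filter (fun e : Fin p ↪ Fin q => ¬ ∀ j, e j ∉ D), M e :=
    (Finset.sum_filter_add_sum_filter_not _ _ _).symm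
  have hA : (p.factorial : ℝ) * (c + (p * F1 R 0) * Qu - S)
      ≤ ∑ e ∈ Finset.univ.filter (fun e : Fin p ↪ Fin q => ∀ j, e j ∉ D), M e := by
    have := Finset.card_nsmul_le_sum
      (Finset.univ.filter (fun e : Fin p ↪ Fin q => ∀ j, e j ∉ D)) M
      (c + (p * F1 R 0) * Qu - S) (fun e he => hcore e (Finset.mem_filter.1 he).2)
    rwa [card_avoid hq hD, nsmul_eq_mul] at this
  have hB : -((Fintype.card (Fin p ↪ Fin q)) * b₂)
      ≤ ∑ e ∈ Finset.univ.filter (fun e : Fin p ↪ Fin q => ¬ ∀ j, e j ∉ D), M e := by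
    have := Finset.card_nsmul_le_sum
      (Finset.univ.filter (fun e : Fin p ↪ Fin q => ¬ ∀ j, e j ∉ D)) M
      (-b₂) (fun e he => h2 e (by
        have := (Finset.mem_filter.1 he).2
        push Not at this
        exact this))
    rw [nsmul_eq_mul] at this
    refine le_trans ?_ this
    have hc : ((Finset.univ.filter (fun e : Fin p ↪ Fin q => ¬ ∀ j, e j ∉ D)).card : ℝ)
        ≤ (Fintype.card (Fin p ↪ Fin q) : ℝ) := by
      exact_mod_cast Finset.card_le_univ _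
    nlinarith
  have hC : -(m * b₁) ≤ ∑ i ∈ D, (FJ R (TJ t τ σ h k Qu i)).Q := by
    have := Finset.card_nsmul_le_sum D (fun i => (FJ R (TJ t τ σ h k Qu i)).Q) (-b₁) h1
    rw [hD, nsmul_eq_mul] at this
    linarith
  have hsum : ∑ i, (FJ R (TJ t τ σ h k Qu i)).Q
      = ∑ i ∈ D, (FJ R (TJ t τ σ h k Qu i)).Q + S := by
    rw [hS, Finset.sum_add_sum_compl]
  unfold QG
  rw [hsum]
  change c - m * b₁ - (Fintype.card (Fin p ↪ Fin q)) * b₂ ≤
    -(p * F1 R 0) * Qu + (∑ i ∈ D, (FJ R (TJ t τ σ h k Qu i)).Q + S)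
      + 1 / (p.factorial : ℝ) * ∑ e, M e
  have hD2 : c + (p * F1 R 0) * Qu - S - (Fintype.card (Fin p ↪ Fin q)) * b₂
      ≤ 1 / (p.factorial : ℝ) * ∑ e, M e := by
    rw [hsplit, one_div, inv_mul_eq_div, le_div_iff₀ hfac]
    have hcb : 0 ≤ (Fintype.card (Fin p ↪ Fin q) : ℝ) * b₂ := by positivity
    nlinarith
  linarith

/-! ### the terms of `D` -/

theorem QF_nonneg {R : ℝ} (hR : 1 ≤ R) (t : ℝ) (τ σ : ℂ) : 0 ≤ QF R t τ σ := by
  have hR0 : R ≠ 0 := by positivity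
  set x := Real.exp (-(t / R)) with hx
  have hx2 : Real.exp (-(2 * t / R)) = x ^ 2 := by
    rw [hx, ← Real.exp_nat_mul]; congr 1; push_cast; ring
  have hxp : 0 < x := Real.exp_pos _
  have key : QF R t τ σ = (1 / 4) * (x * ‖σ - τ ^ 2 / R‖ ^ 2 + x ^ 2 * ‖σ - 2 * τ ^ 2 / R‖ ^ 2) := by
    have n1 : ‖σ - τ ^ 2 / R‖ ^ 2 = ‖σ‖ ^ 2 - 2 * ((conj τ) ^ 2 * σ).re / R
        + ‖τ‖ ^ 4 / R ^ 2 := by
      rw [← Complex.normSq_eq_norm_sq, Complex.normSq_sub, Complex.normSq_eq_norm_sq,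
        Complex.normSq_eq_norm_sq, norm_div, norm_pow, Complex.norm_real, Real.norm_eq_abs]
      have : (σ * conj (τ ^ 2 / (R : ℂ))).re = ((conj τ) ^ 2 * σ).re / R := by
        rw [map_div₀, map_pow, Complex.conj_ofReal, ← mul_div_assoc, Complex.div_ofReal_re]
        rw [mul_comm]
      rw [this, div_pow, sq_abs]
      ring
    have n2 : ‖σ - 2 * τ ^ 2 / R‖ ^ 2 = ‖σ‖ ^ 2 - 4 * ((conj τ) ^ 2 * σ).re / R
        + 4 * ‖τ‖ ^ 4 / R ^ 2 := by
      rw [← Complex.normSq_eq_norm_sq, Complex.normSq_sub, Complex.normSq_eq_norm_sq,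
        Complex.normSq_eq_norm_sq, norm_div, norm_mul, norm_pow, Complex.norm_real,
        Real.norm_eq_abs]
      have : (σ * conj (2 * τ ^ 2 / (R : ℂ))).re = 2 * ((conj τ) ^ 2 * σ).re / R := by
        rw [map_div₀, map_mul, map_pow, Complex.conj_ofReal, ← mul_div_assoc,
          Complex.div_ofReal_re]
        congr 1
        rw [show σ * (conj (2 : ℂ) * conj τ ^ 2) = ((2 : ℝ) : ℂ) * (conj τ ^ 2 * σ) by
          rw [show conj (2 : ℂ) = 2 from Complex.conj_ofNat 2]; push_cast; ring,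
          Complex.re_ofReal_mul]
      rw [this, div_pow, sq_abs]
      simp
      ring
    rw [n1, n2]
    unfold QF F4 F3 F2
    rw [hx2]
    field_simp
    ring
  rw [key]
  positivity

/-- bounds of `F1 .. F3` -/
theorem F_bounds {R t : ℝ} (hR : 1 ≤ R) (ht : 0 ≤ t) :
    |F1 R t| ≤ R * Real.exp (-(t / R)) ∧ 0 ≤ F2 R t ∧ |F2 R t| ≤ Real.exp (-(t / R)) ∧
      |F3 R t| ≤ Real.exp (-(t / R)) := by
  have hR0 : 0 < R := by positivity
  set x := Real.exp (-(t / R)) with hx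
  have hx2 : Real.exp (-(2 * t / R)) = x ^ 2 := by
    rw [hx, ← Real.exp_nat_mul]; congr 1; push_cast; ring
  have hxp : 0 < x := Real.exp_pos _
  have hx1 : x ≤ 1 := by
    rw [hx, Real.exp_le_one_iff]
    have : 0 ≤ t / R := by positivity
    linarith
  have hxx : x ^ 2 ≤ x := by nlinarith
  refine ⟨?_, ?_, ?_, ?_⟩
  · unfold F1
    rw [hx2, ← hx, abs_mul, abs_neg, abs_of_pos (by positivity : 0 < R / 4),
      abs_of_pos (by positivity : 0 < x + x ^ 2 / 2)]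
    nlinarith
  · unfold F2
    rw [hx2, ← hx]; positivity
  · unfold F2
    rw [hx2, ← hx, abs_of_pos (by positivity)]
    linarith
  · unfold F3
    rw [hx2, ← hx, abs_div, abs_neg, abs_of_pos (by positivity : 0 < x + 2 * x ^ 2),
      abs_of_pos (by positivity : 0 < 4 * R), div_le_iff₀ (by positivity)]
    nlinarith

/-- `e^{-t/R} ≤ δ`, also with some growth -/
theorem exp_aux {R t δ : ℝ} (hR : 1 ≤ R) (_ht : 0 ≤ t) (hδ : Real.exp (-(t / (2 * R))) ≤ δ)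
    {a : ℝ} (ha : a ≤ t / (2 * R)) : Real.exp (-(t / R)) * Real.exp a ≤ δ := by
  have hR0 : 0 < R := by positivity
  rw [← Real.exp_add]
  refine le_trans (Real.exp_le_exp.2 ?_) hδ
  have : t / R = t / (2 * R) + t / (2 * R) := by field_simp; ring
  linarith

/-- lower bound of the term of a deep coordinate -/
theorem FJ_lower {R : ℝ} (hR : 1 ≤ R) {t : Fin q → ℝ} {τ σ : Fin q → ℂ} {h : ℝ} {k : ℂ}
    {Qu δ N : ℝ} (hN : 0 ≤ N) {i : Fin q} (ht : 0 ≤ t i) (hδ : Real.exp (-(t i / (2 * R))) ≤ δ)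
    (hτ : Real.exp (-(t i / (8 * R))) * ‖τ i‖ ≤ N) (hh : |h| ≤ N ^ 2) (hk : ‖k‖ ≤ N ^ 3)
    (hQ : |Qu| ≤ N ^ 4) :
    -((R + 8) * δ * N ^ 4) ≤ (FJ R (TJ t τ σ h k Qu i)).Q := by
  have hR0 : 0 < R := by positivity
  obtain ⟨f1, f20, f2, f3⟩ := F_bounds hR ht
  have hδ0 : 0 ≤ δ := (Real.exp_pos _).le.trans hδ
  have heq : (FJ R (TJ t τ σ h k Qu i)).Q = QF R (t i) (τ i) (σ i) + F1 R (t i) * Qu
      + F2 R (t i) * (2 * h ^ 2) + 4 * F2 R (t i) * (τ i * conj k).re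
      + 4 * F3 R (t i) * ‖τ i‖ ^ 2 * h := by
    unfold FJ TJ Jet.comp QF
    simp only
    ring
  set x := Real.exp (t i / (8 * R)) with hx
  have hx0 : 0 < x := Real.exp_pos _
  have hτ' : ‖τ i‖ ≤ N * x := by
    have h1 : Real.exp (-(t i / (8 * R))) * x = 1 := by
      rw [hx, ← Real.exp_add]; simp
    calc ‖τ i‖ = (Real.exp (-(t i / (8 * R))) * ‖τ i‖) * x := by
          rw [mul_right_comm, h1, one_mul]
      _ ≤ N * x := by gcongr
  set y := Real.exp (-(t i / R)) with hy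
  have hy0 : 0 < y := Real.exp_pos _
  have y0 : y ≤ δ := by
    have := exp_aux hR ht hδ (a := 0) (by positivity)
    rwa [Real.exp_zero, mul_one] at this
  have y1 : y * x ≤ δ := exp_aux hR ht hδ (by
    apply div_le_div_of_nonneg_left ht (by positivity); linarith)
  have y2 : y * x ^ 2 ≤ δ := by
    have e2 : x ^ 2 = Real.exp (t i / (4 * R)) := by
      rw [hx, ← Real.exp_nat_mul]; congr 1; push_cast; field_simp; ring
    rw [e2]
    exact exp_aux hR ht hδ (by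
      apply div_le_div_of_nonneg_left ht (by positivity); linarith)
  have b1 : |F1 R (t i) * Qu| ≤ R * δ * N ^ 4 := by
    rw [abs_mul]
    calc |F1 R (t i)| * |Qu| ≤ (R * y) * N ^ 4 := by gcongr
      _ ≤ (R * δ) * N ^ 4 := by gcongr
  have b2 : |4 * F2 R (t i) * (τ i * conj k).re| ≤ 4 * δ * N ^ 4 := by
    rw [abs_mul, abs_mul]
    have : |(τ i * conj k).re| ≤ (N * x) * N ^ 3 := by
      refine (Complex.abs_re_le_norm _).trans ?_
      rw [norm_mul, RCLike.norm_conj]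
      gcongr
    calc |(4 : ℝ)| * |F2 R (t i)| * |(τ i * conj k).re| ≤ 4 * y * ((N * x) * N ^ 3) := by
          rw [abs_of_pos (by norm_num : (0 : ℝ) < 4)]
          gcongr
      _ = 4 * (y * x) * N ^ 4 := by ring
      _ ≤ 4 * δ * N ^ 4 := by gcongr
  have b3 : |4 * F3 R (t i) * ‖τ i‖ ^ 2 * h| ≤ 4 * δ * N ^ 4 := by
    rw [abs_mul, abs_mul, abs_mul]
    calc |(4 : ℝ)| * |F3 R (t i)| * |‖τ i‖ ^ 2| * |h| ≤ 4 * y * (N * x) ^ 2 * N ^ 2 := by
          rw [abs_of_pos (by norm_num : (0 : ℝ) < 4), abs_of_nonneg (sq_nonneg ‖τ i‖)]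
          gcongr
      _ = 4 * (y * x ^ 2) * N ^ 4 := by ring
      _ ≤ 4 * δ * N ^ 4 := by gcongr
  rw [heq]
  have := QF_nonneg hR (t i) (τ i) (σ i)
  have q2 : 0 ≤ F2 R (t i) * (2 * h ^ 2) := by positivity
  have c1 := neg_le_of_abs_le b1
  have c2 := neg_le_of_abs_le b2
  have c3 := neg_le_of_abs_le b3
  have e : (R + 8) * δ * N ^ 4 = R * δ * N ^ 4 + 4 * δ * N ^ 4 + 4 * δ * N ^ 4 := by ring
  rw [e]
  linarith

/-! ### embeddings hitting `D` -/

theorem D1_eq (W : (Fin p → ℝ) → ℝ) (t : Fin p → ℝ) (u : Fin p → ℂ) :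
    D1 W t u = T1 (fun i => pd W i t) u := rfl
theorem D2_eq (W : (Fin p → ℝ) → ℝ) (t : Fin p → ℝ) (u v : Fin p → ℂ) :
    D2 W t u v = T2 (fun i j => pd (pd W i) j t) u v := rfl
theorem D3_eq (W : (Fin p → ℝ) → ℝ) (t : Fin p → ℝ) (u v w : Fin p → ℂ) :
    D3 W t u v w = T3 (fun i j l => pd (pd (pd W i) j) l t) u v w := rfl
theorem D4_eq (W : (Fin p → ℝ) → ℝ) (t : Fin p → ℝ) (u v w y : Fin p → ℂ) :
    D4 W t u v w y = T4 (fun i j l m => pd (pd (pd (pd W i) j) l) m t) u v w y := rfl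

theorem multiJet_bound {W : (Fin p → ℝ) → ℝ} {T : Fin p → Jet} {M S : ℝ} (hp : 1 ≤ p)
    (hM : 0 ≤ M) (hS : 0 ≤ S)
    (h1 : ∀ i, |pd W i (fun i => (T i).v)| ≤ M)
    (h2 : ∀ i j, |pd (pd W i) j (fun i => (T i).v)| ≤ M)
    (h3 : ∀ i j l, |pd (pd (pd W i) j) l (fun i => (T i).v)| ≤ M)
    (h4 : ∀ i j l m, |pd (pd (pd (pd W i) j) l) m (fun i => (T i).v)| ≤ M)
    (ha : ∀ i, ‖(T i).a‖ ≤ S) (hb : ∀ i, ‖(T i).b‖ ≤ S ^ 2) (hh : ∀ i, |(T i).h| ≤ S ^ 2)
    (hk : ∀ i, ‖(T i).k‖ ≤ S ^ 3) (hQ : ∀ i, |(T i).Q| ≤ S ^ 4) :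
    |(multiJet W T).Q| ≤ 15 * (p : ℝ) ^ 4 * M * S ^ 4 := by
  have hp' : (1 : ℝ) ≤ p := by exact_mod_cast hp
  have p1 : (p : ℝ) ≤ (p : ℝ) ^ 4 := by
    calc (p : ℝ) = (p : ℝ) ^ 1 := (pow_one _).symm
      _ ≤ _ := pow_le_pow_right₀ hp' (by norm_num)
  have p2 : (p : ℝ) ^ 2 ≤ (p : ℝ) ^ 4 := pow_le_pow_right₀ hp' (by norm_num)
  have p3 : (p : ℝ) ^ 3 ≤ (p : ℝ) ^ 4 := pow_le_pow_right₀ hp' (by norm_num)
  have ha' : ∀ i, ‖conj (T i).a‖ ≤ S := fun i => by rw [RCLike.norm_conj]; exact ha i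
  have hb' : ∀ i, ‖conj (T i).b‖ ≤ S ^ 2 := fun i => by rw [RCLike.norm_conj]; exact hb i
  have hh' : ∀ i, ‖((T i).h : ℂ)‖ ≤ S ^ 2 := fun i => by
    rw [Complex.norm_real, Real.norm_eq_abs]; exact hh i
  have hS2 : 0 ≤ S ^ 2 := by positivity
  have hS3 : 0 ≤ S ^ 3 := by positivity
  have A4 : |(D4 W (fun i => (T i).v) (fun i => (T i).a) (fun i => (T i).a)
      (fun i => conj (T i).a) (fun i => conj (T i).a)).re| ≤ (p : ℝ) ^ 4 * (M * S ^ 4) := by
    rw [D4_eq]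
    refine (Complex.abs_re_le_norm _).trans
      ((norm_T4_le h4 ha ha ha' ha' hM hS hS hS).trans (le_of_eq ?_))
    ring
  have A3 : |(D3 W (fun i => (T i).v) (fun i => (T i).b) (fun i => conj (T i).a)
      (fun i => conj (T i).a)).re| ≤ (p : ℝ) ^ 4 * (M * S ^ 4) := by
    rw [D3_eq]
    refine (Complex.abs_re_le_norm _).trans
      ((norm_T3_le h3 hb ha' ha' hM hS2 hS).trans ?_)
    calc (p : ℝ) ^ 3 * (M * S ^ 2 * S * S) ≤ (p : ℝ) ^ 4 * (M * S ^ 2 * S * S) := by gcongr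
      _ = _ := by ring
  have A3' : |(D3 W (fun i => (T i).v) (fun i => (T i).a) (fun i => conj (T i).a)
      (fun i => ((T i).h : ℂ))).re| ≤ (p : ℝ) ^ 4 * (M * S ^ 4) := by
    rw [D3_eq]
    refine (Complex.abs_re_le_norm _).trans
      ((norm_T3_le h3 ha ha' hh' hM hS hS).trans ?_)
    calc (p : ℝ) ^ 3 * (M * S * S * S ^ 2) ≤ (p : ℝ) ^ 4 * (M * S * S * S ^ 2) := by gcongr
      _ = _ := by ring
  have A2 : |(D2 W (fun i => (T i).v) (fun i => (T i).b) (fun i => conj (T i).b)).re|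
      ≤ (p : ℝ) ^ 4 * (M * S ^ 4) := by
    rw [D2_eq]
    refine (Complex.abs_re_le_norm _).trans
      ((norm_T2_le h2 hb hb' hM hS2).trans ?_)
    calc (p : ℝ) ^ 2 * (M * S ^ 2 * S ^ 2) ≤ (p : ℝ) ^ 4 * (M * S ^ 2 * S ^ 2) := by gcongr
      _ = _ := by ring
  have A2' : |(D2 W (fun i => (T i).v) (fun i => ((T i).h : ℂ)) (fun i => ((T i).h : ℂ))).re|
      ≤ (p : ℝ) ^ 4 * (M * S ^ 4) := by
    rw [D2_eq]
    refine (Complex.abs_re_le_norm _).trans
      ((norm_T2_le h2 hh' hh' hM hS2).trans ?_)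
    calc (p : ℝ) ^ 2 * (M * S ^ 2 * S ^ 2) ≤ (p : ℝ) ^ 4 * (M * S ^ 2 * S ^ 2) := by gcongr
      _ = _ := by ring
  have A2'' : |(D2 W (fun i => (T i).v) (fun i => (T i).k) (fun i => conj (T i).a)).re|
      ≤ (p : ℝ) ^ 4 * (M * S ^ 4) := by
    rw [D2_eq]
    refine (Complex.abs_re_le_norm _).trans
      ((norm_T2_le h2 hk ha' hM hS3).trans ?_)
    calc (p : ℝ) ^ 2 * (M * S ^ 3 * S) ≤ (p : ℝ) ^ 4 * (M * S ^ 3 * S) := by gcongr
      _ = _ := by ring
  have A1 : |∑ i, pd W i (fun i => (T i).v) * (T i).Q| ≤ (p : ℝ) ^ 4 * (M * S ^ 4) := by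
    refine (Finset.abs_sum_le_sum_abs _ _).trans ?_
    calc ∑ i, |pd W i (fun i => (T i).v) * (T i).Q| ≤ ∑ _i : Fin p, M * S ^ 4 := by
          refine Finset.sum_le_sum fun i _ => ?_
          rw [abs_mul]
          exact mul_le_mul (h1 i) (hQ i) (abs_nonneg _) hM
      _ = p * (M * S ^ 4) := by simp
      _ ≤ _ := by gcongr
  unfold multiJet
  simp only
  rw [abs_le]
  have B4 := abs_le.1 A4
  have B3 := abs_le.1 A3
  have B3' := abs_le.1 A3'
  have B2 := abs_le.1 A2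
  have B2' := abs_le.1 A2'
  have B2'' := abs_le.1 A2''
  have B1 := abs_le.1 A1
  constructor
  · nlinarith [B4.1, B3.1, B3'.1, B2.1, B2'.1, B2''.1, B1.1]
  · nlinarith [B4.2, B3.2, B3'.2, B2.2, B2'.2, B2''.2, B1.2]

/-- bound of the jet of an embedding hitting `D` -/
theorem hit_bound {kk : ℕ} {ca Ca L R : ℝ} {W : (Fin p → ℝ) → ℝ}
    (hM : IsModel p kk ca Ca L R W) :
    ∃ C : ℝ, 0 ≤ C ∧ ∀ (q : ℕ) (t : Fin q → ℝ) (τ σ : Fin q → ℂ) (h : ℝ) (k : ℂ) (Qu δ N : ℝ)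
      (e : Fin p ↪ Fin q) (j₁ : Fin p), 0 ≤ N → (∀ i, 0 ≤ t i) →
      Real.exp (-(t (e j₁) / (2 * R))) ≤ δ →
      (∀ j, Real.exp (-(t (e j) / (8 * R))) * ‖τ (e j)‖ ≤ N ∧
        Real.exp (-(t (e j) / (4 * R))) * ‖σ (e j)‖ ≤ N ^ 2) →
      |h| ≤ N ^ 2 → ‖k‖ ≤ N ^ 3 → |Qu| ≤ N ^ 4 →
      |(multiJet W (fun j => TJ t τ σ h k Qu (e j))).Q| ≤ C * δ * N ^ 4 := by
  obtain ⟨C, hC⟩ := hM.bound
  have hC0 : 0 ≤ C := by
    have := hC 0 (fun i => le_rfl) 0 (by norm_num)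
    simp only [Pi.zero_apply, Finset.sum_const_zero, mul_zero, zero_div, neg_zero, Real.exp_zero,
      mul_one] at this
    exact (norm_nonneg _).trans this
  refine ⟨15 * (p : ℝ) ^ 4 * C, by positivity, ?_⟩
  intro q t τ σ h k Qu δ N e j₁ hN ht hδ hτσ hh hk hQ
  have hR := hM.hR
  have hR0 : 0 < R := by positivity
  set E : ℝ := ∑ j, t (e j) with hE
  have hEt : ∀ j, t (e j) ≤ E := fun j =>
    Finset.single_le_sum (f := fun j => t (e j)) (fun i _ => ht (e i)) (Finset.mem_univ j)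
  have hE0 : 0 ≤ E := (ht _).trans (hEt j₁)
  set x := Real.exp (E / (8 * R)) with hx
  have hx1 : 1 ≤ x := by
    rw [hx]; exact Real.one_le_exp (by positivity)
  have hx0 : 0 < x := by positivity
  have ht' : ∀ j, 0 ≤ (fun j => t (e j)) j := fun j => ht (e j)
  have hsm := hM.smooth (fun j => t (e j)) ht'
  have hsm' : ∀ n : ℕ, ContDiffAt ℝ n W (fun j => t (e j)) := fun n =>
    hsm.of_le (by exact_mod_cast le_top)
  have hp : 1 ≤ p := lt_of_le_of_lt (Nat.zero_le _) j₁.2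
  have hMv : ∀ m : ℕ, m ≤ 4 → ‖iteratedFDeriv ℝ m W (fun j => t (e j))‖
      ≤ C * Real.exp (-(2 * E / R)) := fun m hm => hC _ ht' m hm
  set M := C * Real.exp (-(2 * E / R)) with hMdef
  have key := multiJet_bound (W := W) (T := fun j => TJ t τ σ h k Qu (e j)) (M := M) (S := N * x)
    hp (by positivity) (by positivity)
    (fun i => (abs_pd1_le (hsm' 1) i).trans (hMv 1 (by norm_num)))
    (fun i j => (abs_pd2_le (hsm' 2) i j).trans (hMv 2 (by norm_num)))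
    (fun i j l => (abs_pd3_le (hsm' 3) i j l).trans (hMv 3 (by norm_num)))
    (fun i j l m => (abs_pd4_le (hsm' 4) i j l m).trans (hMv 4 (by norm_num)))
    (fun j => ?_) (fun j => ?_) (fun j => ?_) (fun j => ?_) (fun j => ?_)
  · refine key.trans ?_
    have e1 : Real.exp (-(2 * E / R)) * x ^ 4 ≤ δ := by
      rw [hx, ← Real.exp_nat_mul, ← Real.exp_add]
      refine le_trans (Real.exp_le_exp.2 ?_) hδ
      have h1 : t (e j₁) / (2 * R) ≤ E / (2 * R) := by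
        gcongr
        exact hEt j₁
      have h2 : -(2 * E / R) + ((4 : ℕ) : ℝ) * (E / (8 * R)) = -(E / (2 * R)) - E / R := by
        push_cast; field_simp; ring
      rw [h2]
      have : 0 ≤ E / R := by positivity
      linarith
    calc 15 * (p : ℝ) ^ 4 * M * (N * x) ^ 4
        = 15 * (p : ℝ) ^ 4 * C * (Real.exp (-(2 * E / R)) * x ^ 4) * N ^ 4 := by
          rw [hMdef]; ring
      _ ≤ 15 * (p : ℝ) ^ 4 * C * δ * N ^ 4 := by gcongr
  · change ‖τ (e j)‖ ≤ N * x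
    have h1 : Real.exp (-(t (e j) / (8 * R))) * Real.exp (t (e j) / (8 * R)) = 1 := by
      rw [← Real.exp_add]; simp
    have h2 : Real.exp (t (e j) / (8 * R)) ≤ x := by
      rw [hx]; apply Real.exp_le_exp.2; gcongr; exact hEt j
    calc ‖τ (e j)‖ = (Real.exp (-(t (e j) / (8 * R))) * ‖τ (e j)‖)
          * Real.exp (t (e j) / (8 * R)) := by
          rw [mul_right_comm, h1, one_mul]
      _ ≤ N * x := by
          apply mul_le_mul (hτσ j).1 h2 (Real.exp_pos _).le hN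
  · change ‖σ (e j)‖ ≤ (N * x) ^ 2
    have h1 : Real.exp (-(t (e j) / (4 * R))) * Real.exp (t (e j) / (4 * R)) = 1 := by
      rw [← Real.exp_add]; simp
    have h2 : Real.exp (t (e j) / (4 * R)) ≤ x ^ 2 := by
      rw [hx, ← Real.exp_nat_mul]; apply Real.exp_le_exp.2
      push_cast
      rw [show 2 * (E / (8 * R)) = E / (4 * R) by field_simp; ring]
      gcongr; exact hEt j
    calc ‖σ (e j)‖ = (Real.exp (-(t (e j) / (4 * R))) * ‖σ (e j)‖)
          * Real.exp (t (e j) / (4 * R)) := by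
          rw [mul_right_comm, h1, one_mul]
      _ ≤ N ^ 2 * x ^ 2 := by
          apply mul_le_mul (hτσ j).2 h2 (Real.exp_pos _).le (by positivity)
      _ = _ := by ring
  · change |h| ≤ (N * x) ^ 2
    refine hh.trans ?_
    have : N ≤ N * x := le_mul_of_one_le_right hN hx1
    gcongr
  · change ‖k‖ ≤ (N * x) ^ 3
    refine hk.trans ?_
    have : N ≤ N * x := le_mul_of_one_le_right hN hx1
    gcongr
  · change |Qu| ≤ (N * x) ^ 4
    refine hQ.trans ?_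
    have : N ≤ N * x := le_mul_of_one_le_right hN hx1
    gcongr

end

end Pool.Agent.H789.HSC.A12
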