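import Pool.Agent.H789.HSC.StepDefs0

/-! Case A1 of the recursion step (helper52). Auxiliary lemmas are in the namespace `C4aux`. -/

set_option linter.unusedVariables false

open scoped BigOperators ContDiff ComplexConjugate Topology

namespace Pool.Agent.H789.HSC

noncomputable section

namespace C4aux

/-! ### Part A: real algebra -/

theorem alg {C' c0 : ℝ} (hC : 0 ≤ C') (hc0 : 0 < c0) : ∃ M₁ L₁ : ℝ, 1 ≤ M₁ ∧ 1 ≤ L₁ ∧
    ∀ g X Y Z ρ L : ℝ, M₁ ≤ g → 0 ≤ X → 0 ≤ Y → 0 ≤ Z → 0 ≤ ρ → ρ ≤ 1 → L₁ ≤ L →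
      2 * X ^ 4 + Y ^ 2 / 32 + 2 * Z ^ 4 ≤ L * X ^ 4 + Y ^ 2 / 16 + c0 * g ^ 3 * Z ^ 4 -
        C' * (Z * (X + Z) ^ 3 + g * Z ^ 2 * (X + Z) ^ 2 + ρ * Z * (X + Z) * Y +
          g * ρ * Z ^ 2 * Y + g ^ 2 * Z ^ 4 + g ^ 2 * Z ^ 3 * (X + Z)) := by
  set S := C' + 1 with hS
  have hS0 : 0 < S := by rw [hS]; linarith
  set η := c0 / (2 * S) with hη
  have hη0 : 0 < η := by positivity
  refine ⟨max 1 (2 * (2 + C' * (13 + 144 * S)) / c0), 2 + C' * (9 + 128 * S + 1 / η ^ 3),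
    le_max_left _ _, ?_, ?_⟩
  · have : 0 ≤ C' * (9 + 128 * S + 1 / η ^ 3) := by positivity
    linarith
  intro g X Y Z ρ L hg hX hY hZ hρ hρ1 hL
  have hg1 : 1 ≤ g := (le_max_left _ _).trans hg
  have hg2 : 2 * (2 + C' * (13 + 144 * S)) / c0 ≤ g := (le_max_right _ _).trans hg
  have hg0 : 0 < g := by linarith
  have hX4 : 0 ≤ X ^ 4 := by positivity
  have hZ4 : 0 ≤ Z ^ 4 := by positivity
  have b8 : (X + Z) ^ 4 ≤ 8 * (X ^ 4 + Z ^ 4) := by
    have h1 : (X + Z) ^ 2 ≤ 2 * (X ^ 2 + Z ^ 2) := by nlinarith [sq_nonneg (X - Z)]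
    have h2 : (X ^ 2 + Z ^ 2) ^ 2 ≤ 2 * (X ^ 4 + Z ^ 4) := by nlinarith [sq_nonneg (X ^ 2 - Z ^ 2)]
    calc (X + Z) ^ 4 = ((X + Z) ^ 2) ^ 2 := by ring
      _ ≤ (2 * (X ^ 2 + Z ^ 2)) ^ 2 := pow_le_pow_left₀ (by positivity) h1 2
      _ = 4 * (X ^ 2 + Z ^ 2) ^ 2 := by ring
      _ ≤ _ := by linarith
  have hg2Z : Z ^ 4 ≤ g ^ 2 * Z ^ 4 := by
    exact le_mul_of_one_le_left hZ4 (one_le_pow₀ hg1)
  have t1 : Z * (X + Z) ^ 3 ≤ 8 * X ^ 4 + 8 * (g ^ 2 * Z ^ 4) := by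
    have : Z * (X + Z) ^ 3 ≤ (X + Z) ^ 4 := by
      have h1 : Z ≤ X + Z := by linarith
      calc Z * (X + Z) ^ 3 ≤ (X + Z) * (X + Z) ^ 3 := mul_le_mul_of_nonneg_right h1 (by positivity)
        _ = (X + Z) ^ 4 := by ring
    linarith
  have t2 : g * Z ^ 2 * (X + Z) ^ 2 ≤ X ^ 4 + 3 * (g ^ 2 * Z ^ 4) := by
    have h1 : (X + Z) ^ 2 ≤ 2 * X ^ 2 + 2 * Z ^ 2 := by nlinarith [sq_nonneg (X - Z)]
    have h2 : g * Z ^ 2 * (X + Z) ^ 2 ≤ g * Z ^ 2 * (2 * X ^ 2 + 2 * Z ^ 2) :=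
      mul_le_mul_of_nonneg_left h1 (by positivity)
    have h3 : g * Z ^ 4 ≤ g ^ 2 * Z ^ 4 := by
      have : g ≤ g ^ 2 := by nlinarith
      exact mul_le_mul_of_nonneg_right this hZ4
    have h4 : 2 * (g * Z ^ 2 * X ^ 2) ≤ X ^ 4 + g ^ 2 * Z ^ 4 := by
      have := sq_nonneg (X ^ 2 - g * Z ^ 2)
      have e : (X ^ 2 - g * Z ^ 2) ^ 2 = X ^ 4 - 2 * (g * Z ^ 2 * X ^ 2) + g ^ 2 * Z ^ 4 := by ring
      linarith
    have e2 : g * Z ^ 2 * (2 * X ^ 2 + 2 * Z ^ 2) = 2 * (g * Z ^ 2 * X ^ 2) + 2 * (g * Z ^ 4) := by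
      ring
    linarith
  have yg : ∀ a : ℝ, a * Y ≤ Y ^ 2 / (64 * S) + 16 * S * a ^ 2 := by
    intro a
    have h1 : Y ^ 2 / (64 * S) + 16 * S * a ^ 2 - a * Y = (Y - 32 * S * a) ^ 2 / (64 * S) := by
      field_simp
      ring
    have h2 : 0 ≤ (Y - 32 * S * a) ^ 2 / (64 * S) := by positivity
    linarith
  have t3 : ρ * Z * (X + Z) * Y ≤ Y ^ 2 / (64 * S) + 128 * S * X ^ 4 + 128 * S * (g ^ 2 * Z ^ 4) := by
    have h1 : ρ * Z * (X + Z) * Y ≤ (X + Z) ^ 2 * Y := by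
      refine mul_le_mul_of_nonneg_right ?_ hY
      have : ρ * Z ≤ X + Z := (mul_le_of_le_one_left hZ hρ1).trans (by linarith)
      calc ρ * Z * (X + Z) ≤ (X + Z) * (X + Z) := mul_le_mul_of_nonneg_right this (by positivity)
        _ = (X + Z) ^ 2 := by ring
    have h2 := yg ((X + Z) ^ 2)
    have h3 : ((X + Z) ^ 2) ^ 2 = (X + Z) ^ 4 := by ring
    rw [h3] at h2
    have h4 : 16 * S * (X + Z) ^ 4 ≤ 16 * S * (8 * (X ^ 4 + Z ^ 4)) :=
      mul_le_mul_of_nonneg_left b8 (by positivity)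
    have h5 : 128 * S * Z ^ 4 ≤ 128 * S * (g ^ 2 * Z ^ 4) :=
      mul_le_mul_of_nonneg_left hg2Z (by positivity)
    linarith
  have t4 : g * ρ * Z ^ 2 * Y ≤ Y ^ 2 / (64 * S) + 16 * S * (g ^ 2 * Z ^ 4) := by
    have h1 : g * ρ * Z ^ 2 * Y ≤ (g * Z ^ 2) * Y := by
      refine mul_le_mul_of_nonneg_right ?_ hY
      have : g * ρ ≤ g := mul_le_of_le_one_right hg0.le hρ1
      exact mul_le_mul_of_nonneg_right this (by positivity)
    have h2 := yg (g * Z ^ 2)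
    have h3 : (g * Z ^ 2) ^ 2 = g ^ 2 * Z ^ 4 := by ring
    rw [h3] at h2
    linarith
  have t6 : g ^ 2 * Z ^ 3 * X ≤ η * g ^ 3 * Z ^ 4 + 1 / η ^ 3 * X ^ 4 := by
    by_cases h : X ≤ η * g * Z
    · have h1 : g ^ 2 * Z ^ 3 * X ≤ g ^ 2 * Z ^ 3 * (η * g * Z) :=
        mul_le_mul_of_nonneg_left h (by positivity)
      have h2 : g ^ 2 * Z ^ 3 * (η * g * Z) = η * g ^ 3 * Z ^ 4 := by ring
      have h3 : 0 ≤ 1 / η ^ 3 * X ^ 4 := by positivity
      linarith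
    · push Not at h
      have h1 : (η * g * Z) ^ 3 ≤ X ^ 3 := pow_le_pow_left₀ (by positivity) h.le 3
      have h2 : g ^ 2 * Z ^ 3 ≤ 1 / η ^ 3 * X ^ 3 := by
        rw [one_div, inv_mul_eq_div, le_div_iff₀ (by positivity)]
        have h3 : g ^ 2 * Z ^ 3 * η ^ 3 ≤ g ^ 3 * Z ^ 3 * η ^ 3 := by
          have : g ^ 2 ≤ g ^ 3 := pow_le_pow_right₀ hg1 (by norm_num)
          have := mul_le_mul_of_nonneg_right this (by positivity : 0 ≤ Z ^ 3 * η ^ 3)
          linarith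
        have e3 : (η * g * Z) ^ 3 = g ^ 3 * Z ^ 3 * η ^ 3 := by ring
        linarith
      have h3 : g ^ 2 * Z ^ 3 * X ≤ 1 / η ^ 3 * X ^ 3 * X := mul_le_mul_of_nonneg_right h2 hX
      have h4 : 0 ≤ η * g ^ 3 * Z ^ 4 := by positivity
      have e4 : 1 / η ^ 3 * X ^ 3 * X = 1 / η ^ 3 * X ^ 4 := by ring
      linarith
  have key : Z * (X + Z) ^ 3 + g * Z ^ 2 * (X + Z) ^ 2 + ρ * Z * (X + Z) * Y +
      g * ρ * Z ^ 2 * Y + g ^ 2 * Z ^ 4 + g ^ 2 * Z ^ 3 * (X + Z) ≤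
      (9 + 128 * S + 1 / η ^ 3) * X ^ 4 + (13 + 144 * S) * (g ^ 2 * Z ^ 4) +
        Y ^ 2 / (32 * S) + η * g ^ 3 * Z ^ 4 := by
    have e1 : Y ^ 2 / (32 * S) = Y ^ 2 / (64 * S) + Y ^ 2 / (64 * S) := by
      field_simp; ring
    rw [e1]
    have e2 : g ^ 2 * Z ^ 3 * (X + Z) = g ^ 2 * Z ^ 3 * X + g ^ 2 * Z ^ 4 := by ring
    have e3 : (9 + 128 * S + 1 / η ^ 3) * X ^ 4 = 9 * X ^ 4 + 128 * S * X ^ 4 +
      1 / η ^ 3 * X ^ 4 := by ring
    have e4 : (13 + 144 * S) * (g ^ 2 * Z ^ 4) = 13 * (g ^ 2 * Z ^ 4) +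
      128 * S * (g ^ 2 * Z ^ 4) + 16 * S * (g ^ 2 * Z ^ 4) := by ring
    rw [e2, e3, e4]
    linarith
  have k1 := mul_le_mul_of_nonneg_left key hC
  have k2 : C' * (Y ^ 2 / (32 * S)) ≤ Y ^ 2 / 32 := by
    have : C' * (Y ^ 2 / (32 * S)) = (C' / S) * (Y ^ 2 / 32) := by field_simp
    rw [this]
    have h1 : C' / S ≤ 1 := by rw [div_le_one hS0]; linarith
    have h2 : 0 ≤ Y ^ 2 / 32 := by positivity
    exact mul_le_of_le_one_left h2 h1
  have k3 : C' * (η * g ^ 3 * Z ^ 4) ≤ c0 / 2 * (g ^ 3 * Z ^ 4) := by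
    have h1 : C' * η ≤ c0 / 2 := by
      rw [hη]
      have : C' * (c0 / (2 * S)) = (C' / S) * (c0 / 2) := by field_simp
      rw [this]
      have h1 : C' / S ≤ 1 := by rw [div_le_one hS0]; linarith
      exact mul_le_of_le_one_left (by positivity) h1
    have h2 : 0 ≤ g ^ 3 * Z ^ 4 := by positivity
    have h3 := mul_le_mul_of_nonneg_right h1 h2
    have e3 : C' * (η * g ^ 3 * Z ^ 4) = C' * η * (g ^ 3 * Z ^ 4) := by ring
    linarith
  have k4 : (2 + C' * (13 + 144 * S)) * (g ^ 2 * Z ^ 4) ≤ c0 / 2 * (g ^ 3 * Z ^ 4) := by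
    have h1 : 2 + C' * (13 + 144 * S) ≤ c0 / 2 * g := by
      rw [div_le_iff₀ hc0] at hg2
      linarith
    have h2 := mul_le_mul_of_nonneg_right h1 (by positivity : 0 ≤ g ^ 2 * Z ^ 4)
    have e3 : c0 / 2 * g * (g ^ 2 * Z ^ 4) = c0 / 2 * (g ^ 3 * Z ^ 4) := by ring
    linarith
  have k5 : (2 + C' * (9 + 128 * S + 1 / η ^ 3)) * X ^ 4 ≤ L * X ^ 4 :=
    mul_le_mul_of_nonneg_right hL hX4
  have e1 : c0 * g ^ 3 * Z ^ 4 = c0 / 2 * (g ^ 3 * Z ^ 4) + c0 / 2 * (g ^ 3 * Z ^ 4) := by ring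
  have e2 : (2 + C' * (9 + 128 * S + 1 / η ^ 3)) * X ^ 4 =
    2 * X ^ 4 + C' * ((9 + 128 * S + 1 / η ^ 3) * X ^ 4) := by ring
  have e3 : (2 + C' * (13 + 144 * S)) * (g ^ 2 * Z ^ 4) =
    2 * (g ^ 2 * Z ^ 4) + C' * ((13 + 144 * S) * (g ^ 2 * Z ^ 4)) := by ring
  rw [e1]
  rw [e2] at k5
  rw [e3] at k4
  linarith

end C4aux

namespace C4aux

/-! ### Part B: tensors -/

section tens

variable {p : ℕ}

def T1 (V : Fin p → ℝ) (u : Fin p → ℂ) : ℂ := ∑ i, (V i : ℂ) * u i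

def T2 (V : Fin p → Fin p → ℝ) (u v : Fin p → ℂ) : ℂ := ∑ i, ∑ j, (V i j : ℂ) * u i * v j

def T3 (V : Fin p → Fin p → Fin p → ℝ) (u v w : Fin p → ℂ) : ℂ :=
  ∑ i, ∑ j, ∑ l, (V i j l : ℂ) * u i * v j * w l

def T4 (V : Fin p → Fin p → Fin p → Fin p → ℝ) (u v w y : Fin p → ℂ) : ℂ :=
  ∑ i, ∑ j, ∑ l, ∑ m, (V i j l m : ℂ) * u i * v j * w l * y m

/-! swaps -/

theorem T2_swap {V : Fin p → Fin p → ℝ} (h : ∀ i j, V i j = V j i) (u v : Fin p → ℂ) :
    T2 V u v = T2 V v u := by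
  unfold T2
  rw [Finset.sum_comm]
  refine Finset.sum_congr rfl fun i _ => Finset.sum_congr rfl fun j _ => ?_
  rw [h j i]; ring

theorem T3_swap12 {V : Fin p → Fin p → Fin p → ℝ} (h : ∀ i j l, V i j l = V j i l)
    (u v w : Fin p → ℂ) : T3 V u v w = T3 V v u w := by
  unfold T3
  rw [Finset.sum_comm]
  refine Finset.sum_congr rfl fun i _ => Finset.sum_congr rfl fun j _ =>
    Finset.sum_congr rfl fun l _ => ?_
  rw [h j i l]; ring

theorem T3_swap23 {V : Fin p → Fin p → Fin p → ℝ} (h : ∀ i j l, V i j l = V i l j)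
    (u v w : Fin p → ℂ) : T3 V u v w = T3 V u w v := by
  unfold T3
  refine Finset.sum_congr rfl fun i _ => ?_
  rw [Finset.sum_comm]
  refine Finset.sum_congr rfl fun j _ => Finset.sum_congr rfl fun l _ => ?_
  rw [h i l j]; ring

theorem T4_swap12 {V : Fin p → Fin p → Fin p → Fin p → ℝ} (h : ∀ i j l m, V i j l m = V j i l m)
    (u v w y : Fin p → ℂ) : T4 V u v w y = T4 V v u w y := by
  unfold T4
  rw [Finset.sum_comm]
  refine Finset.sum_congr rfl fun i _ => Finset.sum_congr rfl fun j _ =>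
    Finset.sum_congr rfl fun l _ => Finset.sum_congr rfl fun m _ => ?_
  rw [h j i l m]; ring

theorem T4_swap23 {V : Fin p → Fin p → Fin p → Fin p → ℝ} (h : ∀ i j l m, V i j l m = V i l j m)
    (u v w y : Fin p → ℂ) : T4 V u v w y = T4 V u w v y := by
  unfold T4
  refine Finset.sum_congr rfl fun i _ => ?_
  rw [Finset.sum_comm]
  refine Finset.sum_congr rfl fun j _ =>
    Finset.sum_congr rfl fun l _ => Finset.sum_congr rfl fun m _ => ?_
  rw [h i l j m]; ring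

theorem T4_swap34 {V : Fin p → Fin p → Fin p → Fin p → ℝ} (h : ∀ i j l m, V i j l m = V i j m l)
    (u v w y : Fin p → ℂ) : T4 V u v w y = T4 V u v y w := by
  unfold T4
  refine Finset.sum_congr rfl fun i _ => Finset.sum_congr rfl fun j _ => ?_
  rw [Finset.sum_comm]
  refine Finset.sum_congr rfl fun l _ => Finset.sum_congr rfl fun m _ => ?_
  rw [h i j m l]; ring

/-! splitting -/

theorem T2_split1 (V : Fin p → Fin p → ℝ) (u u' v : Fin p → ℂ) :
    T2 V (fun i => u i + u' i) v = T2 V u v + T2 V u' v := by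
  unfold T2
  simp only [← Finset.sum_add_distrib]
  exact Finset.sum_congr rfl fun i _ => Finset.sum_congr rfl fun j _ => by ring

theorem T2_split2 (V : Fin p → Fin p → ℝ) (u v v' : Fin p → ℂ) :
    T2 V u (fun i => v i + v' i) = T2 V u v + T2 V u v' := by
  unfold T2
  simp only [← Finset.sum_add_distrib]
  exact Finset.sum_congr rfl fun i _ => Finset.sum_congr rfl fun j _ => by ring

theorem T3_split1 (V : Fin p → Fin p → Fin p → ℝ) (u u' v w : Fin p → ℂ) :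
    T3 V (fun i => u i + u' i) v w = T3 V u v w + T3 V u' v w := by
  unfold T3
  simp only [← Finset.sum_add_distrib]
  exact Finset.sum_congr rfl fun i _ => Finset.sum_congr rfl fun j _ =>
    Finset.sum_congr rfl fun l _ => by ring

theorem T3_split2 (V : Fin p → Fin p → Fin p → ℝ) (u v v' w : Fin p → ℂ) :
    T3 V u (fun i => v i + v' i) w = T3 V u v w + T3 V u v' w := by
  unfold T3
  simp only [← Finset.sum_add_distrib]
  exact Finset.sum_congr rfl fun i _ => Finset.sum_congr rfl fun j _ =>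
    Finset.sum_congr rfl fun l _ => by ring

theorem T3_split3 (V : Fin p → Fin p → Fin p → ℝ) (u v w w' : Fin p → ℂ) :
    T3 V u v (fun i => w i + w' i) = T3 V u v w + T3 V u v w' := by
  unfold T3
  simp only [← Finset.sum_add_distrib]
  exact Finset.sum_congr rfl fun i _ => Finset.sum_congr rfl fun j _ =>
    Finset.sum_congr rfl fun l _ => by ring

theorem T4_split1 (V : Fin p → Fin p → Fin p → Fin p → ℝ) (u u' v w y : Fin p → ℂ) :
    T4 V (fun i => u i + u' i) v w y = T4 V u v w y + T4 V u' v w y := by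
  unfold T4
  simp only [← Finset.sum_add_distrib]
  exact Finset.sum_congr rfl fun i _ => Finset.sum_congr rfl fun j _ =>
    Finset.sum_congr rfl fun l _ => Finset.sum_congr rfl fun m _ => by ring

theorem T4_split2 (V : Fin p → Fin p → Fin p → Fin p → ℝ) (u v v' w y : Fin p → ℂ) :
    T4 V u (fun i => v i + v' i) w y = T4 V u v w y + T4 V u v' w y := by
  unfold T4
  simp only [← Finset.sum_add_distrib]
  exact Finset.sum_congr rfl fun i _ => Finset.sum_congr rfl fun j _ =>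
    Finset.sum_congr rfl fun l _ => Finset.sum_congr rfl fun m _ => by ring

theorem T4_split3 (V : Fin p → Fin p → Fin p → Fin p → ℝ) (u v w w' y : Fin p → ℂ) :
    T4 V u v (fun i => w i + w' i) y = T4 V u v w y + T4 V u v w' y := by
  unfold T4
  simp only [← Finset.sum_add_distrib]
  exact Finset.sum_congr rfl fun i _ => Finset.sum_congr rfl fun j _ =>
    Finset.sum_congr rfl fun l _ => Finset.sum_congr rfl fun m _ => by ring

theorem T4_split4 (V : Fin p → Fin p → Fin p → Fin p → ℝ) (u v w y y' : Fin p → ℂ) :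
    T4 V u v w (fun i => y i + y' i) = T4 V u v w y + T4 V u v w y' := by
  unfold T4
  simp only [← Finset.sum_add_distrib]
  exact Finset.sum_congr rfl fun i _ => Finset.sum_congr rfl fun j _ =>
    Finset.sum_congr rfl fun l _ => Finset.sum_congr rfl fun m _ => by ring

/-! a constant vector in the first slot -/

theorem T2_const (V : Fin p → Fin p → ℝ) (e : ℂ) (v : Fin p → ℂ) :
    T2 V (fun _ => e) v = e * T1 (fun j => ∑ i, V i j) v := by
  unfold T2 T1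
  rw [Finset.sum_comm, Finset.mul_sum]
  refine Finset.sum_congr rfl fun j _ => ?_
  push_cast
  rw [Finset.sum_mul, Finset.mul_sum]
  exact Finset.sum_congr rfl fun i _ => by ring

theorem T3_const (V : Fin p → Fin p → Fin p → ℝ) (e : ℂ) (v w : Fin p → ℂ) :
    T3 V (fun _ => e) v w = e * T2 (fun j l => ∑ i, V i j l) v w := by
  unfold T3 T2
  rw [Finset.sum_comm, Finset.mul_sum]
  refine Finset.sum_congr rfl fun j _ => ?_
  rw [Finset.sum_comm, Finset.mul_sum]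
  refine Finset.sum_congr rfl fun l _ => ?_
  push_cast
  rw [Finset.sum_mul, Finset.sum_mul, Finset.mul_sum]
  exact Finset.sum_congr rfl fun i _ => by ring

theorem T4_const (V : Fin p → Fin p → Fin p → Fin p → ℝ) (e : ℂ) (v w y : Fin p → ℂ) :
    T4 V (fun _ => e) v w y = e * T3 (fun j l m => ∑ i, V i j l m) v w y := by
  unfold T4 T3
  rw [Finset.sum_comm, Finset.mul_sum]
  refine Finset.sum_congr rfl fun j _ => ?_
  rw [Finset.sum_comm, Finset.mul_sum]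
  refine Finset.sum_congr rfl fun l _ => ?_
  rw [Finset.sum_comm, Finset.mul_sum]
  refine Finset.sum_congr rfl fun m _ => ?_
  push_cast
  rw [Finset.sum_mul, Finset.sum_mul, Finset.sum_mul, Finset.mul_sum]
  exact Finset.sum_congr rfl fun i _ => by ring

/-! norm bounds -/

theorem norm_T1_le {V : Fin p → ℝ} {u : Fin p → ℂ} {M : ℝ} (h : ∀ i, |V i| * ‖u i‖ ≤ M) :
    ‖T1 V u‖ ≤ p * M := by
  unfold T1
  refine (norm_sum_le _ _).trans ?_
  calc ∑ i, ‖(V i : ℂ) * u i‖ ≤ ∑ _i : Fin p, M := Finset.sum_le_sum fun i _ => by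
        rw [norm_mul, Complex.norm_real, Real.norm_eq_abs]; exact h i
    _ = p * M := by simp

theorem norm_T2_le {V : Fin p → Fin p → ℝ} {u v : Fin p → ℂ} {M : ℝ}
    (h : ∀ i j, |V i j| * (‖u i‖ * ‖v j‖) ≤ M) : ‖T2 V u v‖ ≤ p ^ 2 * M := by
  unfold T2
  refine (norm_sum_le _ _).trans ?_
  calc ∑ i, ‖∑ j, (V i j : ℂ) * u i * v j‖ ≤ ∑ _i : Fin p, ∑ _j : Fin p, M := by
        refine Finset.sum_le_sum fun i _ => (norm_sum_le _ _).trans (Finset.sum_le_sum fun j _ => ?_)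
        rw [norm_mul, norm_mul, Complex.norm_real, Real.norm_eq_abs]
        have := h i j
        linarith
    _ = p ^ 2 * M := by simp; ring

theorem norm_T3_le {V : Fin p → Fin p → Fin p → ℝ} {u v w : Fin p → ℂ} {M : ℝ}
    (h : ∀ i j l, |V i j l| * (‖u i‖ * ‖v j‖ * ‖w l‖) ≤ M) : ‖T3 V u v w‖ ≤ p ^ 3 * M := by
  unfold T3
  refine (norm_sum_le _ _).trans ?_
  calc ∑ i, ‖∑ j, ∑ l, (V i j l : ℂ) * u i * v j * w l‖ ≤
      ∑ _i : Fin p, ∑ _j : Fin p, ∑ _l : Fin p, M := by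
        refine Finset.sum_le_sum fun i _ => (norm_sum_le _ _).trans (Finset.sum_le_sum fun j _ =>
          (norm_sum_le _ _).trans (Finset.sum_le_sum fun l _ => ?_))
        rw [norm_mul, norm_mul, norm_mul, Complex.norm_real, Real.norm_eq_abs]
        have := h i j l
        linarith
    _ = p ^ 3 * M := by simp; ring

theorem norm_T4_le {V : Fin p → Fin p → Fin p → Fin p → ℝ} {u v w y : Fin p → ℂ} {M : ℝ}
    (h : ∀ i j l m, |V i j l m| * (‖u i‖ * ‖v j‖ * ‖w l‖ * ‖y m‖) ≤ M) :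
    ‖T4 V u v w y‖ ≤ p ^ 4 * M := by
  unfold T4
  refine (norm_sum_le _ _).trans ?_
  calc ∑ i, ‖∑ j, ∑ l, ∑ m, (V i j l m : ℂ) * u i * v j * w l * y m‖ ≤
      ∑ _i : Fin p, ∑ _j : Fin p, ∑ _l : Fin p, ∑ _m : Fin p, M := by
        refine Finset.sum_le_sum fun i _ => (norm_sum_le _ _).trans (Finset.sum_le_sum fun j _ =>
          (norm_sum_le _ _).trans (Finset.sum_le_sum fun l _ =>
          (norm_sum_le _ _).trans (Finset.sum_le_sum fun m _ => ?_)))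
        rw [norm_mul, norm_mul, norm_mul, norm_mul, Complex.norm_real, Real.norm_eq_abs]
        have := h i j l m
        linarith
    _ = p ^ 4 * M := by simp; ring

/-! bounds with a constant vector in the first slot -/

theorem norm_T2_const_le {V : Fin p → Fin p → ℝ} {e : ℂ} {v : Fin p → ℂ} {κ E G : ℝ}
    (hV : ∀ j, |∑ i, V i j| ≤ κ) (he : ‖e‖ ≤ E) (hv : ∀ i, ‖v i‖ ≤ G) (hκ : 0 ≤ κ) :
    ‖T2 V (fun _ => e) v‖ ≤ E * (p * (κ * G)) := by
  rw [T2_const, norm_mul]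
  have hE : 0 ≤ E := (norm_nonneg e).trans he
  refine mul_le_mul he ?_ (norm_nonneg _) hE
  refine norm_T1_le fun i => ?_
  exact mul_le_mul (hV i) (hv i) (norm_nonneg _) hκ

theorem norm_T3_const_le {V : Fin p → Fin p → Fin p → ℝ} {e : ℂ} {v w : Fin p → ℂ}
    {κ E G G' : ℝ} (hV : ∀ j l, |∑ i, V i j l| ≤ κ) (he : ‖e‖ ≤ E) (hv : ∀ i, ‖v i‖ ≤ G)
    (hw : ∀ i, ‖w i‖ ≤ G') (hκ : 0 ≤ κ) :
    ‖T3 V (fun _ => e) v w‖ ≤ E * (p ^ 2 * (κ * (G * G'))) := by
  rw [T3_const, norm_mul]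
  have hE : 0 ≤ E := (norm_nonneg e).trans he
  refine mul_le_mul he ?_ (norm_nonneg _) hE
  refine norm_T2_le fun i j => ?_
  have hG : 0 ≤ G := (norm_nonneg _).trans (hv i)
  exact mul_le_mul (hV i j) (mul_le_mul (hv i) (hw j) (norm_nonneg _) hG)
    (mul_nonneg (norm_nonneg _) (norm_nonneg _)) hκ

theorem norm_T4_const_le {V : Fin p → Fin p → Fin p → Fin p → ℝ} {e : ℂ} {v w y : Fin p → ℂ}
    {κ E G : ℝ} (hV : ∀ j l m, |∑ i, V i j l m| ≤ κ) (he : ‖e‖ ≤ E) (hv : ∀ i, ‖v i‖ ≤ G)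
    (hw : ∀ i, ‖w i‖ ≤ G) (hy : ∀ i, ‖y i‖ ≤ G) (hκ : 0 ≤ κ) :
    ‖T4 V (fun _ => e) v w y‖ ≤ E * (p ^ 3 * (κ * G ^ 3)) := by
  rw [T4_const, norm_mul]
  have hE : 0 ≤ E := (norm_nonneg e).trans he
  refine mul_le_mul he ?_ (norm_nonneg _) hE
  refine norm_T3_le fun i j l => ?_
  have hG : 0 ≤ G := (norm_nonneg _).trans (hv i)
  have h1 : ‖v i‖ * ‖w j‖ * ‖y l‖ ≤ G ^ 3 := by
    calc ‖v i‖ * ‖w j‖ * ‖y l‖ ≤ G * G * G :=
          mul_le_mul (mul_le_mul (hv i) (hw j) (norm_nonneg _) hG) (hy l) (norm_nonneg _)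
            (mul_nonneg hG hG)
      _ = G ^ 3 := by ring
  exact mul_le_mul (hV i j l) h1 (by positivity) hκ

/-- the sum of the three forms -/
def HH (V2 : Fin p → Fin p → ℝ) (V3 : Fin p → Fin p → Fin p → ℝ)
    (V4 : Fin p → Fin p → Fin p → Fin p → ℝ) (a b : Fin p → ℂ) : ℝ :=
  (T4 V4 a a (fun i => conj (a i)) (fun i => conj (a i))).re
    + 2 * (T3 V3 b (fun i => conj (a i)) (fun i => conj (a i))).re
    + (T2 V2 b (fun i => conj (b i))).re

theorem re_ge {z : ℂ} {M : ℝ} (h : ‖z‖ ≤ M) : -M ≤ z.re := by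
  have := Complex.abs_re_le_norm z
  have := neg_abs_le z.re
  linarith

/-- Expansion about a multiple of the vector of ones. -/
theorem HH_lower {V2 : Fin p → Fin p → ℝ} {V3 : Fin p → Fin p → Fin p → ℝ}
    {V4 : Fin p → Fin p → Fin p → Fin p → ℝ}
    (s2 : ∀ i j, V2 i j = V2 j i)
    (s3 : ∀ i j l, V3 i j l = V3 j i l) (s3' : ∀ i j l, V3 i j l = V3 i l j)
    (s4 : ∀ i j l m, V4 i j l m = V4 j i l m) (s4' : ∀ i j l m, V4 i j l m = V4 i l j m)
    (s4'' : ∀ i j l m, V4 i j l m = V4 i j m l)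
    {κ2 κ3 κ4 : ℝ} (h2 : ∀ j, |∑ i, V2 i j| ≤ κ2) (h3 : ∀ j l, |∑ i, V3 i j l| ≤ κ3)
    (h4 : ∀ j l m, |∑ i, V4 i j l m| ≤ κ4) (k2 : 0 ≤ κ2) (k3 : 0 ≤ κ3) (k4 : 0 ≤ κ4)
    {a b : Fin p → ℂ} {e f : ℂ} {X Y Z H : ℝ} 
    (ha : ∀ i, ‖a i - e‖ ≤ X) (hb : ∀ i, ‖b i - f‖ ≤ Y) (he : ‖e‖ ≤ Z) (hf : ‖f‖ ≤ H) :
    HH V2 V3 V4 (fun i => a i - e) (fun i => b i - f) -
      (4 * (p ^ 3 * κ4 * (Z * (X + Z) ^ 3)) + 2 * (p ^ 2 * κ3 * (H * (X + Z) ^ 2)) +
        4 * (p ^ 2 * κ3 * (Z * (X + Z) * Y)) + p * κ2 * (2 * (H * Y) + H ^ 2)) ≤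
      HH V2 V3 V4 a b := by
  have hZ : 0 ≤ Z := (norm_nonneg _).trans he
  have hH : 0 ≤ H := (norm_nonneg _).trans hf
  set a' : Fin p → ℂ := fun i => a i - e with ha'
  set b' : Fin p → ℂ := fun i => b i - f with hb'
  have ea : a = fun i => e + a' i := by funext i; simp [ha']
  have eb : b = fun i => f + b' i := by funext i; simp [hb']
  have eca : (fun i => conj (a i)) = fun i => conj e + conj (a' i) := by
    funext i; rw [ea]; simp
  have ecb : (fun i => conj (b i)) = fun i => conj f + conj (b' i) := by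
    funext i; rw [eb]; simp
  have na : ∀ i, ‖a i‖ ≤ X + Z := fun i => by
    calc ‖a i‖ = ‖(a i - e) + e‖ := by congr 1; ring
      _ ≤ X + Z := (norm_add_le _ _).trans (add_le_add (ha i) he)
  have na' : ∀ i, ‖a' i‖ ≤ X := ha
  have nb' : ∀ i, ‖b' i‖ ≤ Y := hb
  have nb : ∀ i, ‖b i‖ ≤ Y + H := fun i => by
    calc ‖b i‖ = ‖(b i - f) + f‖ := by congr 1; ring
      _ ≤ Y + H := (norm_add_le _ _).trans (add_le_add (hb i) hf)
  have na2 : ∀ i, ‖a' i‖ ≤ X + Z := fun i => (na' i).trans (by linarith)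
  have nca : ∀ i, ‖conj (a i)‖ ≤ X + Z := fun i => by rw [RCLike.norm_conj]; exact na i
  have nca2 : ∀ i, ‖conj (a' i)‖ ≤ X + Z := fun i => by rw [RCLike.norm_conj]; exact na2 i
  have ncb : ∀ i, ‖conj (b i)‖ ≤ Y + H := fun i => by rw [RCLike.norm_conj]; exact nb i
  have nce : ‖conj e‖ ≤ Z := by rw [RCLike.norm_conj]; exact he
  have ncf : ‖conj f‖ ≤ H := by rw [RCLike.norm_conj]; exact hf
  -- quartic part
  have q4 : T4 V4 a a (fun i => conj (a i)) (fun i => conj (a i)) =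
      T4 V4 a' a' (fun i => conj (a' i)) (fun i => conj (a' i)) +
      (T4 V4 (fun _ => e) a (fun i => conj (a i)) (fun i => conj (a i)) +
       T4 V4 (fun _ => e) a' (fun i => conj (a i)) (fun i => conj (a i)) +
       T4 V4 (fun _ => conj e) a' a' (fun i => conj (a i)) +
       T4 V4 (fun _ => conj e) a' a' (fun i => conj (a' i))) := by
    have e1 : T4 V4 a a (fun i => conj (a i)) (fun i => conj (a i)) =
        T4 V4 (fun _ => e) a (fun i => conj (a i)) (fun i => conj (a i)) +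
        T4 V4 a' a (fun i => conj (a i)) (fun i => conj (a i)) := by
      rw [← T4_split1, ← ea]
    have e2 : T4 V4 a' a (fun i => conj (a i)) (fun i => conj (a i)) =
        T4 V4 (fun _ => e) a' (fun i => conj (a i)) (fun i => conj (a i)) +
        T4 V4 a' a' (fun i => conj (a i)) (fun i => conj (a i)) := by
      rw [T4_swap12 s4 (fun _ => e) a', ← T4_split2, ← ea]
    have e3 : T4 V4 a' a' (fun i => conj (a i)) (fun i => conj (a i)) =
        T4 V4 (fun _ => conj e) a' a' (fun i => conj (a i)) +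
        T4 V4 a' a' (fun i => conj (a' i)) (fun i => conj (a i)) := by
      rw [T4_swap12 s4 (fun _ => conj e) a', T4_swap23 s4' a' (fun _ => conj e), ← T4_split3,
        ← eca]
    have e4 : T4 V4 a' a' (fun i => conj (a' i)) (fun i => conj (a i)) =
        T4 V4 (fun _ => conj e) a' a' (fun i => conj (a' i)) +
        T4 V4 a' a' (fun i => conj (a' i)) (fun i => conj (a' i)) := by
      rw [T4_swap12 s4 (fun _ => conj e) a', T4_swap23 s4' a' (fun _ => conj e),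
        T4_swap34 s4'' a' a' (fun _ => conj e), ← T4_split4, ← eca]
    rw [e1, e2, e3, e4]; ring
  have q3 : T3 V3 b (fun i => conj (a i)) (fun i => conj (a i)) =
      T3 V3 b' (fun i => conj (a' i)) (fun i => conj (a' i)) +
      (T3 V3 (fun _ => f) (fun i => conj (a i)) (fun i => conj (a i)) +
       T3 V3 (fun _ => conj e) b' (fun i => conj (a i)) +
       T3 V3 (fun _ => conj e) b' (fun i => conj (a' i))) := by
    have e1 : T3 V3 b (fun i => conj (a i)) (fun i => conj (a i)) =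
        T3 V3 (fun _ => f) (fun i => conj (a i)) (fun i => conj (a i)) +
        T3 V3 b' (fun i => conj (a i)) (fun i => conj (a i)) := by
      rw [← T3_split1, ← eb]
    have e2 : T3 V3 b' (fun i => conj (a i)) (fun i => conj (a i)) =
        T3 V3 (fun _ => conj e) b' (fun i => conj (a i)) +
        T3 V3 b' (fun i => conj (a' i)) (fun i => conj (a i)) := by
      rw [T3_swap12 s3 (fun _ => conj e) b', ← T3_split2, ← eca]
    have e3 : T3 V3 b' (fun i => conj (a' i)) (fun i => conj (a i)) =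
        T3 V3 (fun _ => conj e) b' (fun i => conj (a' i)) +
        T3 V3 b' (fun i => conj (a' i)) (fun i => conj (a' i)) := by
      rw [T3_swap12 s3 (fun _ => conj e) b', T3_swap23 s3' b' (fun _ => conj e), ← T3_split3,
        ← eca]
    rw [e1, e2, e3]; ring
  have q2 : T2 V2 b (fun i => conj (b i)) =
      T2 V2 b' (fun i => conj (b' i)) +
      (T2 V2 (fun _ => f) (fun i => conj (b i)) + T2 V2 (fun _ => conj f) b') := by
    have e1 : T2 V2 b (fun i => conj (b i)) =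
        T2 V2 (fun _ => f) (fun i => conj (b i)) + T2 V2 b' (fun i => conj (b i)) := by
      rw [← T2_split1, ← eb]
    have e2 : T2 V2 b' (fun i => conj (b i)) =
        T2 V2 (fun _ => conj f) b' + T2 V2 b' (fun i => conj (b' i)) := by
      rw [T2_swap s2 (fun _ => conj f) b', ← T2_split2, ← ecb]
    rw [e1, e2]; ring
  have b41 := re_ge (norm_T4_const_le h4 he na nca nca k4)
  have b42 := re_ge (norm_T4_const_le h4 he na2 nca nca k4)
  have b43 := re_ge (norm_T4_const_le h4 nce na2 na2 nca k4)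
  have b44 := re_ge (norm_T4_const_le h4 nce na2 na2 nca2 k4)
  have b31 := re_ge (norm_T3_const_le h3 hf nca nca k3)
  have b32 := re_ge (norm_T3_const_le h3 nce nb' nca k3)
  have b33 := re_ge (norm_T3_const_le h3 nce nb' nca2 k3)
  have b21 := re_ge (norm_T2_const_le h2 hf ncb k2)
  have b22 := re_ge (norm_T2_const_le h2 ncf nb' k2)
  unfold HH
  rw [q4, q3, q2]
  simp only [Complex.add_re]
  linarith

end tens

end C4aux

namespace C4aux

/-! ### Part C: derivatives -/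

section der

variable {p : ℕ}

theorem hasDerivAt_e (c R t : ℝ) :
    HasDerivAt (fun t => Real.exp (-(c * t / R))) (-(c / R) * Real.exp (-(c * t / R))) t := by
  have h : HasDerivAt (fun t : ℝ => -(c * t / R)) (-(c / R)) t := by
    have := (((hasDerivAt_id t).const_mul c).div_const R).fun_neg
    rw [mul_one] at this
    exact this
  have := h.exp
  convert this using 1
  ring

theorem hasDerivAt_e1 (R t : ℝ) :
    HasDerivAt (fun t => Real.exp (-(t / R))) (-(1 / R) * Real.exp (-(t / R))) t := by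
  have := hasDerivAt_e 1 R t
  simpa only [one_mul] using this

theorem hasDerivAt_F1 {R : ℝ} (hR : R ≠ 0) (t : ℝ) : HasDerivAt (F1 R) (F2 R t) t := by
  unfold F1 F2
  have := ((hasDerivAt_e1 R t).fun_add ((hasDerivAt_e 2 R t).div_const 2)).const_mul (-(R / 4))
  refine this.congr_deriv ?_
  field_simp
  ring

theorem hasDerivAt_F2 {R : ℝ} (hR : R ≠ 0) (t : ℝ) : HasDerivAt (F2 R) (F3 R t) t := by
  unfold F2 F3
  have := ((hasDerivAt_e1 R t).fun_add (hasDerivAt_e 2 R t)).div_const 4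
  refine this.congr_deriv ?_
  field_simp
  ring

theorem hasDerivAt_F3 {R : ℝ} (hR : R ≠ 0) (t : ℝ) : HasDerivAt (F3 R) (F4 R t) t := by
  unfold F3 F4
  have := (((hasDerivAt_e1 R t).fun_add ((hasDerivAt_e 2 R t).const_mul 2)).fun_neg).div_const
    (4 * R)
  refine this.congr_deriv ?_
  field_simp
  ring

/-! rules for `pd` -/

theorem pd_congr {f g : (Fin p → ℝ) → ℝ} {t : Fin p → ℝ} (h : f =ᶠ[𝓝 t] g) (i : Fin p) :
    pd f i t = pd g i t := by
  unfold pd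
  rw [h.fderiv_eq]

theorem pd_congr' {f g : (Fin p → ℝ) → ℝ} {t : Fin p → ℝ} (h : f =ᶠ[𝓝 t] g) (i : Fin p) :
    pd f i =ᶠ[𝓝 t] pd g i := by
  filter_upwards [h.eventuallyEq_nhds] with s hs
  exact pd_congr hs i

theorem pd_add {f g : (Fin p → ℝ) → ℝ} {t : Fin p → ℝ} (hf : DifferentiableAt ℝ f t)
    (hg : DifferentiableAt ℝ g t) (i : Fin p) :
    pd (fun s => f s + g s) i t = pd f i t + pd g i t := by
  unfold pd
  rw [(hf.hasFDerivAt.fun_add hg.hasFDerivAt).fderiv]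
  rfl

theorem pd_sum {ι : Type} (S : Finset ι) {f : ι → (Fin p → ℝ) → ℝ} {t : Fin p → ℝ}
    (hf : ∀ i ∈ S, DifferentiableAt ℝ (f i) t) (j : Fin p) :
    pd (fun s => ∑ i ∈ S, f i s) j t = ∑ i ∈ S, pd (f i) j t := by
  unfold pd
  have : HasFDerivAt (fun s => ∑ i ∈ S, f i s) (∑ i ∈ S, fderiv ℝ (f i) t) t :=
    HasFDerivAt.fun_sum fun i hi => (hf i hi).hasFDerivAt
  rw [this.fderiv]
  simp

theorem hasFDerivAt_coord {F : ℝ → ℝ} {F' : ℝ} {t : Fin p → ℝ} {i : Fin p}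
    (h : HasDerivAt F F' (t i)) :
    HasFDerivAt (fun s : Fin p → ℝ => F (s i)) (F' • ContinuousLinearMap.proj (R := ℝ) i) t :=
  h.comp_hasFDerivAt t (hasFDerivAt_apply i t)

theorem pd_coord {F : ℝ → ℝ} {F' : ℝ} {t : Fin p → ℝ} {i : Fin p}
    (h : HasDerivAt F F' (t i)) (j : Fin p) :
    pd (fun s : Fin p → ℝ => F (s i)) j t = if i = j then F' else 0 := by
  unfold pd
  rw [(hasFDerivAt_coord h).fderiv]
  by_cases hij : i = j
  · subst hij; simp
  · simp [hij]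

theorem pd_const (c : ℝ) {t : Fin p → ℝ} (j : Fin p) : pd (fun _ => c) j t = 0 := by
  unfold pd
  simp

variable {W : (Fin p → ℝ) → ℝ} {t : Fin p → ℝ}

theorem cd_pd {n : ℕ} (h : ContDiffAt ℝ (n + 1 : ℕ) W t) (i : Fin p) :
    ContDiffAt ℝ n (pd W i) t := ContDiffAt.pd h i

theorem cd_ev {n : ℕ} {W : (Fin p → ℝ) → ℝ} (h : ContDiffAt ℝ n W t) :
    ∀ᶠ s in 𝓝 t, ContDiffAt ℝ n W s :=
  h.eventually (by simp)

theorem cd_diff {n : ℕ} {W : (Fin p → ℝ) → ℝ} (h : ContDiffAt ℝ (n + 1 : ℕ) W t) :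
    DifferentiableAt ℝ W t := h.differentiableAt (by simp)

theorem cd_pd2 {n : ℕ} (h : ContDiffAt ℝ (n + 2 : ℕ) W t) (i j : Fin p) :
    ContDiffAt ℝ n (pd (pd W i) j) t := cd_pd (cd_pd h i) j

theorem cd_pd3 {n : ℕ} (h : ContDiffAt ℝ (n + 3 : ℕ) W t) (i j l : Fin p) :
    ContDiffAt ℝ n (pd (pd (pd W i) j) l) t := cd_pd (cd_pd2 h i j) l

theorem cd_mono {n m : ℕ} {W : (Fin p → ℝ) → ℝ} (h : ContDiffAt ℝ n W t) (hm : m ≤ n) :
    ContDiffAt ℝ m W t := h.of_le (by exact_mod_cast hm)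

/-! symmetry -/

theorem sym2 (h : ContDiffAt ℝ 2 W t) (i j : Fin p) : pd (pd W i) j t = pd (pd W j) i t :=
  pd_comm h i j

theorem sym3 (h : ContDiffAt ℝ (3 : ℕ) W t) (i j l : Fin p) :
    pd (pd (pd W i) j) l t = pd (pd (pd W j) i) l t := by
  refine pd_congr ?_ l
  filter_upwards [cd_ev h] with s hs
  exact pd_comm (cd_mono hs (by norm_num)) i j

theorem sym3' (h : ContDiffAt ℝ (3 : ℕ) W t) (i j l : Fin p) :
    pd (pd (pd W i) j) l t = pd (pd (pd W i) l) j t :=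
  pd_comm (cd_pd (n := 2) h i) j l

theorem sym4 (h : ContDiffAt ℝ (4 : ℕ) W t) (i j l m : Fin p) :
    pd (pd (pd (pd W i) j) l) m t = pd (pd (pd (pd W j) i) l) m t := by
  refine pd_congr ?_ m
  filter_upwards [cd_ev h] with s hs
  exact sym3 (cd_mono hs (by norm_num)) i j l

theorem sym4' (h : ContDiffAt ℝ (4 : ℕ) W t) (i j l m : Fin p) :
    pd (pd (pd (pd W i) j) l) m t = pd (pd (pd (pd W i) l) j) m t := by
  refine pd_congr ?_ m
  filter_upwards [cd_ev h] with s hs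
  exact sym3' (cd_mono hs (by norm_num)) i j l

theorem sym4'' (h : ContDiffAt ℝ (4 : ℕ) W t) (i j l m : Fin p) :
    pd (pd (pd (pd W i) j) l) m t = pd (pd (pd (pd W i) j) m) l t :=
  pd_comm (cd_pd2 (n := 2) h i j) l m

/-! derivatives of `aV` -/

theorem aV_pd1 {R : ℝ} (hR : R ≠ 0) (h : ContDiffAt ℝ (2 : ℕ) W t) (j : Fin p) :
    pd (aV R W) j t = F2 R (t j) + ∑ i, pd (pd W i) j t := by
  have e : aV R W = fun s => (∑ i, (F1 R (s i) - F1 R 0)) + ∑ i, pd W i s := rfl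
  have hc : ∀ i, HasDerivAt (fun x => F1 R x - F1 R 0) (F2 R (t i)) (t i) := fun i =>
    (hasDerivAt_F1 hR (t i)).sub_const _
  have d1 : ∀ i ∈ (Finset.univ : Finset (Fin p)),
      DifferentiableAt ℝ (fun s : Fin p → ℝ => F1 R (s i) - F1 R 0) t := fun i _ =>
    (hasFDerivAt_coord (F := fun x => F1 R x - F1 R 0) (hc i)).differentiableAt
  have d2 : ∀ i ∈ (Finset.univ : Finset (Fin p)), DifferentiableAt ℝ (pd W i) t := fun i _ =>
    cd_diff (cd_pd (n := 1) h i)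
  rw [e, pd_add (DifferentiableAt.fun_sum d1) (DifferentiableAt.fun_sum d2), pd_sum _ d1,
    pd_sum _ d2]
  congr 1
  have : ∀ i, pd (fun s : Fin p → ℝ => F1 R (s i) - F1 R 0) j t = if i = j then F2 R (t i) else 0 :=
    fun i => pd_coord (F := fun x => F1 R x - F1 R 0) (hc i) j
  simp only [this]
  simp

theorem aV_pd2 {R : ℝ} (hR : R ≠ 0) (h : ContDiffAt ℝ (3 : ℕ) W t) (j l : Fin p) :
    pd (pd (aV R W) j) l t = (if j = l then F3 R (t j) else 0) +
      ∑ i, pd (pd (pd W i) j) l t := by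
  have e : pd (aV R W) j =ᶠ[𝓝 t] fun s => F2 R (s j) + ∑ i, pd (pd W i) j s := by
    filter_upwards [cd_ev h] with s hs
    exact aV_pd1 hR (cd_mono hs (by norm_num)) j
  rw [pd_congr e]
  have d2 : ∀ i ∈ (Finset.univ : Finset (Fin p)), DifferentiableAt ℝ (pd (pd W i) j) t :=
    fun i _ => cd_diff (cd_pd2 (n := 1) h i j)
  rw [pd_add (hasFDerivAt_coord (hasDerivAt_F2 hR (t j))).differentiableAt
    (DifferentiableAt.fun_sum d2), pd_sum _ d2, pd_coord (hasDerivAt_F2 hR (t j))]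

theorem aV_pd3 {R : ℝ} (hR : R ≠ 0) (h : ContDiffAt ℝ (4 : ℕ) W t) (j l m : Fin p) :
    pd (pd (pd (aV R W) j) l) m t = (if j = l ∧ l = m then F4 R (t j) else 0) +
      ∑ i, pd (pd (pd (pd W i) j) l) m t := by
  have e : pd (pd (aV R W) j) l =ᶠ[𝓝 t] fun s => (if j = l then F3 R (s j) else 0) +
      ∑ i, pd (pd (pd W i) j) l s := by
    filter_upwards [cd_ev h] with s hs
    exact aV_pd2 hR (cd_mono hs (by norm_num)) j l
  rw [pd_congr e]
  have d2 : ∀ i ∈ (Finset.univ : Finset (Fin p)), DifferentiableAt ℝ (pd (pd (pd W i) j) l) t :=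
    fun i _ => cd_diff (cd_pd3 (n := 1) h i j l)
  by_cases hjl : j = l
  · subst hjl
    simp only [if_true, true_and]
    rw [pd_add (hasFDerivAt_coord (hasDerivAt_F3 hR (t j))).differentiableAt
      (DifferentiableAt.fun_sum d2), pd_sum _ d2, pd_coord (hasDerivAt_F3 hR (t j))]
  · simp only [if_neg hjl]
    rw [if_neg (fun h' : j = l ∧ l = m => hjl h'.1)]
    rw [pd_add (differentiableAt_const _) (DifferentiableAt.fun_sum d2), pd_sum _ d2, pd_const]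

end der

end C4aux

namespace C4aux

/-! ### Part D: the tensors of `V = ∑ F0 (t_i) + W` -/

section V

variable {p : ℕ}

def V2 (R : ℝ) (W : (Fin p → ℝ) → ℝ) (x : Fin p → ℝ) (i j : Fin p) : ℝ :=
  (if i = j then F2 R (x i) else 0) + pd (pd W i) j x

def V3 (R : ℝ) (W : (Fin p → ℝ) → ℝ) (x : Fin p → ℝ) (i j l : Fin p) : ℝ :=
  (if i = j ∧ j = l then F3 R (x i) else 0) + pd (pd (pd W i) j) l x

def V4 (R : ℝ) (W : (Fin p → ℝ) → ℝ) (x : Fin p → ℝ) (i j l m : Fin p) : ℝ :=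
  (if i = j ∧ j = l ∧ l = m then F4 R (x i) else 0) + pd (pd (pd (pd W i) j) l) m x

theorem ite_swap {F : ℝ → ℝ} {x : Fin p → ℝ} {P Q : Prop} [Decidable P] [Decidable Q] {i j : Fin p}
    (hPQ : P ↔ Q) (h : P → i = j) :
    (if P then F (x i) else 0) = (if Q then F (x j) else 0) := by
  by_cases hP : P
  · rw [if_pos hP, if_pos (hPQ.1 hP), h hP]
  · rw [if_neg hP, if_neg (fun hQ => hP (hPQ.2 hQ))]

variable {R : ℝ} {W : (Fin p → ℝ) → ℝ} {x : Fin p → ℝ}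

theorem V2_symm (h : ContDiffAt ℝ (4 : ℕ) W x) (i j : Fin p) : V2 R W x i j = V2 R W x j i := by
  unfold V2
  rw [sym2 (cd_mono (m := 2) h (by norm_num)) i j]
  congr 1
  exact ite_swap ⟨fun h => h.symm, fun h => h.symm⟩ fun h => h

theorem V3_symm (h : ContDiffAt ℝ (4 : ℕ) W x) (i j l : Fin p) :
    V3 R W x i j l = V3 R W x j i l := by
  unfold V3
  rw [sym3 (cd_mono h (by norm_num)) i j l]
  congr 1
  exact ite_swap ⟨fun h => ⟨h.1.symm, h.1.trans h.2⟩, fun h => ⟨h.1.symm, h.1.trans h.2⟩⟩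
    fun h => h.1

theorem V3_symm' (h : ContDiffAt ℝ (4 : ℕ) W x) (i j l : Fin p) :
    V3 R W x i j l = V3 R W x i l j := by
  unfold V3
  rw [sym3' (cd_mono h (by norm_num)) i j l]
  congr 1
  exact ite_swap ⟨fun h => ⟨h.1.trans h.2, h.2.symm⟩, fun h => ⟨h.1.trans h.2, h.2.symm⟩⟩
    fun _ => rfl

theorem V4_symm (h : ContDiffAt ℝ (4 : ℕ) W x) (i j l m : Fin p) :
    V4 R W x i j l m = V4 R W x j i l m := by
  unfold V4
  rw [sym4 h i j l m]
  congr 1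
  exact ite_swap ⟨fun h => ⟨h.1.symm, h.1.trans h.2.1, h.2.2⟩,
    fun h => ⟨h.1.symm, h.1.trans h.2.1, h.2.2⟩⟩ fun h => h.1

theorem V4_symm' (h : ContDiffAt ℝ (4 : ℕ) W x) (i j l m : Fin p) :
    V4 R W x i j l m = V4 R W x i l j m := by
  unfold V4
  rw [sym4' h i j l m]
  congr 1
  exact ite_swap ⟨fun h => ⟨h.1.trans h.2.1, h.2.1.symm, h.2.1.trans h.2.2⟩,
    fun h => ⟨h.1.trans h.2.1, h.2.1.symm, h.2.1.trans h.2.2⟩⟩ fun _ => rfl

theorem V4_symm'' (h : ContDiffAt ℝ (4 : ℕ) W x) (i j l m : Fin p) :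
    V4 R W x i j l m = V4 R W x i j m l := by
  unfold V4
  rw [sym4'' h i j l m]
  congr 1
  exact ite_swap ⟨fun h => ⟨h.1, h.2.1.trans h.2.2, h.2.2.symm⟩,
    fun h => ⟨h.1, h.2.1.trans h.2.2, h.2.2.symm⟩⟩ fun _ => rfl

theorem V2_contr (hR : R ≠ 0) (h : ContDiffAt ℝ (4 : ℕ) W x) (j : Fin p) :
    ∑ i, V2 R W x i j = pd (aV R W) j x := by
  rw [aV_pd1 hR (cd_mono h (by norm_num))]
  unfold V2
  rw [Finset.sum_add_distrib]
  congr 1
  simp

theorem V3_contr (hR : R ≠ 0) (h : ContDiffAt ℝ (4 : ℕ) W x) (j l : Fin p) :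
    ∑ i, V3 R W x i j l = pd (pd (aV R W) j) l x := by
  rw [aV_pd2 hR (cd_mono h (by norm_num))]
  unfold V3
  rw [Finset.sum_add_distrib]
  congr 1
  by_cases hjl : j = l
  · subst hjl; simp
  · simp [hjl]

theorem V4_contr (hR : R ≠ 0) (h : ContDiffAt ℝ (4 : ℕ) W x) (j l m : Fin p) :
    ∑ i, V4 R W x i j l m = pd (pd (pd (aV R W) j) l) m x := by
  rw [aV_pd3 hR h]
  unfold V4
  rw [Finset.sum_add_distrib]
  congr 1
  by_cases hjl : j = l ∧ l = m
  · obtain ⟨rfl, rfl⟩ := hjl; simp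
  · rw [if_neg hjl]
    refine Finset.sum_eq_zero fun i _ => ?_
    rw [if_neg fun h => hjl h.2]

theorem T2_V (u v : Fin p → ℂ) :
    T2 (V2 R W x) u v = ∑ i, (F2 R (x i) : ℂ) * u i * v i + D2 W x u v := by
  unfold T2 V2 D2
  rw [← Finset.sum_add_distrib]
  refine Finset.sum_congr rfl fun i _ => ?_
  have : ∀ j, (((if i = j then F2 R (x i) else 0) + pd (pd W i) j x : ℝ) : ℂ) * u i * v j =
      (if i = j then (F2 R (x i) : ℂ) * u i * v j else 0) + (pd (pd W i) j x : ℂ) * u i * v j := by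
    intro j
    by_cases h : i = j
    · simp only [h, if_true]; push_cast; ring
    · simp only [h, if_false]; push_cast; ring
  simp only [this, Finset.sum_add_distrib, Finset.sum_ite_eq, Finset.mem_univ, if_true]

theorem T3_V (u v w : Fin p → ℂ) :
    T3 (V3 R W x) u v w = ∑ i, (F3 R (x i) : ℂ) * u i * v i * w i + D3 W x u v w := by
  unfold T3 V3 D3
  rw [← Finset.sum_add_distrib]
  refine Finset.sum_congr rfl fun i _ => ?_
  have : ∀ j l, (((if i = j ∧ j = l then F3 R (x i) else 0) + pd (pd (pd W i) j) l x : ℝ) : ℂ) *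
      u i * v j * w l =
      (if i = j then (if j = l then (F3 R (x i) : ℂ) * u i * v j * w l else 0) else 0) +
        (pd (pd (pd W i) j) l x : ℂ) * u i * v j * w l := by
    intro j l
    by_cases h : i = j
    · by_cases h' : j = l
      · simp only [h, h', if_true, and_self]; push_cast; ring
      · simp only [h', if_false, and_false, ite_self]; push_cast; ring
    · simp only [h, if_false, false_and]; push_cast; ring
  simp only [this, Finset.sum_add_distrib]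
  congr 1
  have e : ∀ j, ∑ l, (if i = j then (if j = l then (F3 R (x i) : ℂ) * u i * v j * w l else 0)
      else 0) = if i = j then (F3 R (x i) : ℂ) * u i * v j * w j else 0 := by
    intro j
    by_cases h : i = j
    · simp only [h, if_true, Finset.sum_ite_eq, Finset.mem_univ]
    · simp only [h, if_false, Finset.sum_const_zero]
  simp only [e, Finset.sum_ite_eq, Finset.mem_univ, if_true]

theorem T4_V (u v w y : Fin p → ℂ) :
    T4 (V4 R W x) u v w y = ∑ i, (F4 R (x i) : ℂ) * u i * v i * w i * y i + D4 W x u v w y := by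
  unfold T4 V4 D4
  rw [← Finset.sum_add_distrib]
  refine Finset.sum_congr rfl fun i _ => ?_
  have : ∀ j l m, (((if i = j ∧ j = l ∧ l = m then F4 R (x i) else 0) +
      pd (pd (pd (pd W i) j) l) m x : ℝ) : ℂ) * u i * v j * w l * y m =
      (if i = j then (if j = l then (if l = m then (F4 R (x i) : ℂ) * u i * v j * w l * y m else 0)
        else 0) else 0) +
        (pd (pd (pd (pd W i) j) l) m x : ℂ) * u i * v j * w l * y m := by
    intro j l m
    by_cases h : i = j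
    · by_cases h' : j = l
      · by_cases h'' : l = m
        · simp only [h, h', h'', if_true, and_self]; push_cast; ring
        · simp only [h'', if_false, and_false, ite_self]; push_cast; ring
      · simp only [h', if_false, and_false, false_and, ite_self]; push_cast; ring
    · simp only [h, if_false, false_and]; push_cast; ring
  simp only [this, Finset.sum_add_distrib]
  congr 1
  have e : ∀ j l, ∑ m, (if i = j then (if j = l then
      (if l = m then (F4 R (x i) : ℂ) * u i * v j * w l * y m else 0) else 0)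
      else 0) = if i = j then (if j = l then (F4 R (x i) : ℂ) * u i * v j * w l * y l else 0)
        else 0 := by
    intro j l
    by_cases h : i = j
    · by_cases h' : j = l
      · simp only [h, h', if_true, Finset.sum_ite_eq, Finset.mem_univ]
      · simp only [h', if_false, ite_self, Finset.sum_const_zero]
    · simp only [h, if_false, Finset.sum_const_zero]
  simp only [e]
  have e' : ∀ j, ∑ l, (if i = j then (if j = l then (F4 R (x i) : ℂ) * u i * v j * w l * y l else 0)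
      else 0) = if i = j then (F4 R (x i) : ℂ) * u i * v j * w j * y j else 0 := by
    intro j
    by_cases h : i = j
    · simp only [h, if_true, Finset.sum_ite_eq, Finset.mem_univ]
    · simp only [h, if_false, Finset.sum_const_zero]
  simp only [e', Finset.sum_ite_eq, Finset.mem_univ, if_true]

theorem norm4 (z : ℂ) : ‖z‖ ^ 4 = (z.re ^ 2 + z.im ^ 2) ^ 2 := by
  have : ‖z‖ ^ 4 = (‖z‖ ^ 2) ^ 2 := by ring
  rw [this, Complex.sq_norm, Complex.normSq_apply]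
  ring

theorem norm2 (z : ℂ) : ‖z‖ ^ 2 = z.re ^ 2 + z.im ^ 2 := by
  rw [Complex.sq_norm, Complex.normSq_apply]
  ring

theorem HH_V (a b : Fin p → ℂ) :
    HH (V2 R W x) (V3 R W x) (V4 R W x) a b = ∑ i, QF R (x i) (a i) (b i) + holQ W x a b := by
  unfold HH holQ
  rw [T2_V, T3_V, T4_V]
  have e : ∑ i, QF R (x i) (a i) (b i) =
      (∑ i, (F4 R (x i) : ℂ) * a i * a i * conj (a i) * conj (a i)).re +
      2 * (∑ i, (F3 R (x i) : ℂ) * b i * conj (a i) * conj (a i)).re +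
      (∑ i, (F2 R (x i) : ℂ) * b i * conj (b i)).re := by
    rw [Complex.re_sum, Complex.re_sum, Complex.re_sum, Finset.mul_sum, ← Finset.sum_add_distrib,
      ← Finset.sum_add_distrib]
    refine Finset.sum_congr rfl fun i _ => ?_
    unfold QF
    rw [norm4, norm2]
    simp only [Complex.mul_re, Complex.mul_im, Complex.ofReal_re, Complex.ofReal_im,
      Complex.conj_re, Complex.conj_im, sq]
    ring
  rw [e]
  simp only [Complex.add_re]
  ring

/-- the main identity -/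
theorem main_id (hW : ContDiffAt ℝ (4 : ℕ) W x) (a b : Fin p → ℂ) (h Qu : ℝ)
    (k : ℂ) :
    -(p * F1 R 0) * Qu + ∑ j, (FJ R ⟨x j, h, Qu, a j, b j, k⟩).Q +
      (multiJet W (fun j => ⟨x j, h, Qu, a j, b j, k⟩)).Q =
    aV R W x * Qu + HH (V2 R W x) (V3 R W x) (V4 R W x) a b +
      4 * h * (T3 (V3 R W x) (fun _ => 1) a (fun i => conj (a i))).re +
      2 * h ^ 2 * (T2 (V2 R W x) (fun _ => 1) (fun _ => 1)).re +
      4 * (k * T2 (V2 R W x) (fun _ => 1) (fun i => conj (a i))).re := by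
  have d3 : D3 W x a (fun i => conj (a i)) (fun _ => (h : ℂ)) =
      h * D3 W x (fun _ => 1) a (fun i => conj (a i)) := by
    have s := sym3 (cd_mono (m := 3) hW (by norm_num))
    have s' := sym3' (cd_mono (m := 3) hW (by norm_num))
    show T3 (fun i j l => pd (pd (pd W i) j) l x) _ _ _ =
      h * T3 (fun i j l => pd (pd (pd W i) j) l x) _ _ _
    rw [T3_swap23 s', T3_swap12 s, T3_const, T3_const]
    ring
  have d2 : D2 W x (fun _ => (h : ℂ)) (fun _ => (h : ℂ)) =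
      h ^ 2 * D2 W x (fun _ => 1) (fun _ => 1) := by
    show T2 (fun i j => pd (pd W i) j x) _ _ = h ^ 2 * T2 (fun i j => pd (pd W i) j x) _ _
    unfold T2
    rw [Finset.mul_sum]
    refine Finset.sum_congr rfl fun i _ => ?_
    rw [Finset.mul_sum]
    exact Finset.sum_congr rfl fun j _ => by ring
  have d2' : D2 W x (fun _ => k) (fun i => conj (a i)) =
      k * D2 W x (fun _ => 1) (fun i => conj (a i)) := by
    show T2 (fun i j => pd (pd W i) j x) _ _ = k * T2 (fun i j => pd (pd W i) j x) _ _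
    rw [T2_const, T2_const]
    ring
  have eM : (multiJet W (fun j => ⟨x j, h, Qu, a j, b j, k⟩)).Q =
      holQ W x a b + 4 * (D3 W x a (fun i => conj (a i)) (fun _ => (h : ℂ))).re +
      2 * (D2 W x (fun _ => (h : ℂ)) (fun _ => (h : ℂ))).re +
      4 * (D2 W x (fun _ => k) (fun i => conj (a i))).re + (∑ i, pd W i x) * Qu := by
    unfold multiJet holQ
    simp only
    rw [Finset.sum_mul]
    ring
  rw [eM, d3, d2, d2', HH_V, T3_V, T2_V, T2_V]
  have eF : ∑ j, (FJ R ⟨x j, h, Qu, a j, b j, k⟩).Q =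
      (∑ j, F1 R (x j)) * Qu + ∑ i, QF R (x i) (a i) (b i) +
      4 * h * (∑ i, (F3 R (x i) : ℂ) * 1 * a i * conj (a i)).re +
      2 * h ^ 2 * (∑ i, (F2 R (x i) : ℂ) * 1 * 1).re +
      4 * (k * ∑ i, (F2 R (x i) : ℂ) * 1 * conj (a i)).re := by
    rw [Finset.mul_sum (a := k), Complex.re_sum, Complex.re_sum, Complex.re_sum, Finset.mul_sum,
      Finset.mul_sum, Finset.mul_sum, Finset.sum_mul, ← Finset.sum_add_distrib,
      ← Finset.sum_add_distrib, ← Finset.sum_add_distrib, ← Finset.sum_add_distrib]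
    refine Finset.sum_congr rfl fun i _ => ?_
    unfold FJ Jet.comp QF
    simp only
    rw [norm4, norm2, norm2]
    simp only [Complex.mul_re, Complex.mul_im, Complex.ofReal_re, Complex.ofReal_im,
      Complex.conj_re, Complex.conj_im, Complex.one_re, Complex.one_im, sq]
    ring
  rw [eF]
  have eA : aV R W x = ∑ j, F1 R (x j) - p * F1 R 0 + ∑ i, pd W i x := by
    unfold aV
    rw [Finset.sum_sub_distrib]
    simp
  rw [eA]
  have r1 : ∀ z w : ℂ, (h * z).re = h * z.re := fun z _ => by simp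
  have r2 : ∀ z : ℂ, ((h : ℂ) ^ 2 * z).re = h ^ 2 * z.re := fun z => by
    have : ((h : ℂ) ^ 2 * z) = ((h ^ 2 : ℝ) : ℂ) * z := by push_cast; ring
    rw [this, Complex.re_ofReal_mul]
  rw [r1 _ 0, r2, mul_add]
  simp only [Complex.add_re]
  ring

end V

end C4aux

namespace C4aux

/-! ### Part E: the lower bound for one embedding -/

theorem re_mul_ge {r : ℝ} {z : ℂ} {E M : ℝ} (hr : |r| ≤ E) (hz : ‖z‖ ≤ M) :
    -(E * M) ≤ r * z.re := by
  have h1 := Complex.abs_re_le_norm z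
  have h2 : |r * z.re| ≤ E * M := by
    rw [abs_mul]
    exact mul_le_mul hr (h1.trans hz) (abs_nonneg _) ((abs_nonneg _).trans hr)
  have := neg_abs_le (r * z.re)
  linarith

theorem main_lower {p : ℕ} {K ca κ M₁ L₁ : ℝ} (hK : 0 ≤ K) (hca : 0 < ca) (hκ : 0 < κ)
    (hM₁ : 1 ≤ M₁)
    (H0 : ∀ g X Y Z ρ L : ℝ, M₁ ≤ g → 0 ≤ X → 0 ≤ Y → 0 ≤ Z → 0 ≤ ρ → ρ ≤ 1 → L₁ ≤ L →
      2 * X ^ 4 + Y ^ 2 / 32 + 2 * Z ^ 4 ≤ L * X ^ 4 + Y ^ 2 / 16 + ca * κ / 2 * g ^ 3 * Z ^ 4 -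
        6 * p ^ 3 * K * (Z * (X + Z) ^ 3 + g * Z ^ 2 * (X + Z) ^ 2 + ρ * Z * (X + Z) * Y +
          g * ρ * Z ^ 2 * Y + g ^ 2 * Z ^ 4 + g ^ 2 * Z ^ 3 * (X + Z)))
    {kk : ℕ} {Ca L L' R r₀ : ℝ} {W : (Fin p → ℝ) → ℝ} (hM : IsModel p kk ca Ca L' R W)
    (hN : NearV p K L R r₀ W) (hL : L₁ ≤ L)
    {lam B ρ h Qu : ℝ} {k : ℂ} {x : Fin p → ℝ} {a b : Fin p → ℂ} {j0 : Fin p} {X Y : ℝ}
    (hlam : 0 < lam) (hB : 0 ≤ B) (hx0 : ∀ j, 0 ≤ x j) (hxρ : ∀ j, x j ≤ ρ)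
    (hatt : ∃ j, x j = ρ) (hρ : ρ ≤ r₀) (hMρ : M₁ * lam ≤ ρ)
    (ha : ‖a j0‖ ≤ lam * B) (hb : ‖b j0‖ ≤ lam * B ^ 2) (hh : |h| ≤ lam * B ^ 2)
    (hk : ‖k‖ ≤ lam * B ^ 3) (hQ : κ * lam * B ^ 4 ≤ Qu)
    (hX : ∀ j, ‖a j - a j0‖ ≤ X) (hX' : ∃ j, ‖a j - a j0‖ = X)
    (hY : ∀ j, ‖b j - b j0‖ ≤ Y) (hY' : ∃ j, ‖b j - b j0‖ = Y) :
    2 * X ^ 4 + Y ^ 2 / 32 + 2 * (lam * B) ^ 4 + ca / 2 * ρ ^ 3 * Qu ≤
      -(p * F1 R 0) * Qu + ∑ j, (FJ R ⟨x j, h, Qu, a j, b j, k⟩).Q +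
      (multiJet W (fun j => ⟨x j, h, Qu, a j, b j, k⟩)).Q := by
  have hR : R ≠ 0 := by have := hM.hR; intro h; linarith
  have hW : ContDiffAt ℝ (4 : ℕ) W x := contDiffAt_infty.1 (hM.smooth x hx0) 4
  have hρ0 : 0 < ρ := lt_of_lt_of_le (by positivity) hMρ
  have hρ1 : ρ ≤ 1 := hρ.trans hN.le_one
  have habs : ∀ j, |x j| ≤ ρ := fun j => by rw [abs_of_nonneg (hx0 j)]; exact hxρ j
  obtain ⟨-, n1, n2, n3⟩ := hN.a0 x ρ hρ0.le hρ habs
  have hX0 : 0 ≤ X := (norm_nonneg _).trans (hX j0)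
  have hY0 : 0 ≤ Y := (norm_nonneg _).trans (hY j0)
  set Z := lam * B with hZ
  have hZ0 : 0 ≤ Z := by positivity
  set H := lam * B ^ 2 with hH
  have hH0 : 0 ≤ H := by positivity
  rw [main_id hW]
  -- contraction bounds
  have c2 : ∀ j, |∑ i, V2 R W x i j| ≤ K * ρ ^ 2 := fun j => by
    rw [V2_contr hR hW]; exact n1 j
  have c3 : ∀ j l, |∑ i, V3 R W x i j l| ≤ K * ρ := fun j l => by
    rw [V3_contr hR hW]; exact n2 j l
  have c4 : ∀ j l m, |∑ i, V4 R W x i j l m| ≤ K := fun j l m => by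
    rw [V4_contr hR hW]; exact n3 j l m
  have hlow := HH_lower (V2_symm hW) (V3_symm hW) (V3_symm' hW) (V4_symm hW) (V4_symm' hW)
    (V4_symm'' hW) c2 c3 c4 (by positivity) (by positivity) hK hX hY ha hb
  have hQ0 : L * X ^ 4 + Y ^ 2 / 16 ≤
      HH (V2 R W x) (V3 R W x) (V4 R W x) (fun i => a i - a j0) (fun i => b i - b j0) := by
    rw [HH_V]
    obtain ⟨i, hi⟩ := hX'
    obtain ⟨j, hj⟩ := hY'
    have := hN.Q0 x (fun j => (habs j).trans hρ) j0 (fun i => a i - a j0) (fun i => b i - b j0)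
      (sub_self _) (sub_self _) i j
    rw [← hi, ← hj]
    exact this
  have na : ∀ i, ‖a i‖ ≤ X + Z := fun i => by
    calc ‖a i‖ = ‖(a i - a j0) + a j0‖ := by congr 1; ring
      _ ≤ X + Z := (norm_add_le _ _).trans (add_le_add (hX i) ha)
  have nca : ∀ i, ‖conj (a i)‖ ≤ X + Z := fun i => by rw [RCLike.norm_conj]; exact na i
  have n1' : ‖(1 : ℂ)‖ ≤ 1 := by simp
  have o3 := norm_T3_const_le c3 n1' na nca (by positivity)
  have o2 := norm_T2_const_le (v := fun _ => (1 : ℂ)) c2 n1' (fun _ => n1') (by positivity)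
  have o2' := norm_T2_const_le c2 n1' nca (by positivity)
  have r3 := re_mul_ge hh o3
  have hh2 : |h ^ 2| ≤ H ^ 2 := by
    rw [abs_pow]; exact pow_le_pow_left₀ (abs_nonneg _) hh 2
  have r2 := re_mul_ge hh2 o2
  have r2' : -(lam * B ^ 3 * (1 * (p * (K * ρ ^ 2 * (X + Z))))) ≤
      (k * T2 (V2 R W x) (fun _ => 1) (fun i => conj (a i))).re := by
    refine re_ge ?_
    rw [norm_mul]
    exact mul_le_mul hk o2' (norm_nonneg _) (by positivity)
  -- the potential term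
  have hQu0 : 0 ≤ Qu := le_trans (by positivity) hQ
  have hA : ca * ρ ^ 3 * Qu ≤ aV R W x * Qu := by
    obtain ⟨j, hj⟩ := hatt
    have := hM.mono x hx0 j
    rw [hj, min_eq_right hρ1] at this
    exact mul_le_mul_of_nonneg_right this hQu0
  set g := ρ / lam with hg
  have hρg : ρ = g * lam := by rw [hg]; field_simp
  have hg0 : 0 < g := by positivity
  have hMg : M₁ ≤ g := by rw [hg, le_div_iff₀ hlam]; exact hMρ
  have hAg : ca * κ * g ^ 3 * Z ^ 4 ≤ ca * ρ ^ 3 * Qu := by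
    have : ca * ρ ^ 3 * (κ * lam * B ^ 4) ≤ ca * ρ ^ 3 * Qu :=
      mul_le_mul_of_nonneg_left hQ (by positivity)
    refine le_trans (le_of_eq ?_) this
    rw [hρg, hZ]; ring
  have halg := H0 g X Y Z ρ L hMg hX0 hY0 hZ0 hρ0.le hρ1 hL
  have hp1 : (1 : ℝ) ≤ p := by
    have : 0 < p := j0.pos
    exact_mod_cast this
  -- rewriting of the errors
  have x1 : ρ * H = g * Z ^ 2 := by rw [hρg, hH, hZ]; ring
  have x2 : ρ ^ 2 * H = g * ρ * Z ^ 2 := by rw [hρg, hH, hZ]; ring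
  have x3 : ρ ^ 2 * H ^ 2 = g ^ 2 * Z ^ 4 := by rw [hρg, hH, hZ]; ring
  have x4 : lam * B ^ 3 * ρ ^ 2 = g ^ 2 * Z ^ 3 := by rw [hρg, hZ]; ring
  have err : 4 * (p ^ 3 * K * (Z * (X + Z) ^ 3)) + 2 * (p ^ 2 * (K * ρ) * (H * (X + Z) ^ 2)) +
      4 * (p ^ 2 * (K * ρ) * (Z * (X + Z) * Y)) + p * (K * ρ ^ 2) * (2 * (H * Y) + H ^ 2) +
      4 * (H * (1 * (p ^ 2 * (K * ρ * ((X + Z) * (X + Z)))))) +
      2 * (H ^ 2 * (1 * (p * (K * ρ ^ 2 * 1)))) +
      4 * (lam * B ^ 3 * (1 * (p * (K * ρ ^ 2 * (X + Z))))) ≤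
      6 * p ^ 3 * K * (Z * (X + Z) ^ 3 + g * Z ^ 2 * (X + Z) ^ 2 + ρ * Z * (X + Z) * Y +
          g * ρ * Z ^ 2 * Y + g ^ 2 * Z ^ 4 + g ^ 2 * Z ^ 3 * (X + Z)) := by
    have e : 4 * (p ^ 3 * K * (Z * (X + Z) ^ 3)) + 2 * (p ^ 2 * (K * ρ) * (H * (X + Z) ^ 2)) +
      4 * (p ^ 2 * (K * ρ) * (Z * (X + Z) * Y)) + p * (K * ρ ^ 2) * (2 * (H * Y) + H ^ 2) +
      4 * (H * (1 * (p ^ 2 * (K * ρ * ((X + Z) * (X + Z)))))) +
      2 * (H ^ 2 * (1 * (p * (K * ρ ^ 2 * 1)))) +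
      4 * (lam * B ^ 3 * (1 * (p * (K * ρ ^ 2 * (X + Z))))) =
      (4 * p ^ 3 * K) * (Z * (X + Z) ^ 3) + (6 * p ^ 2 * K) * ((ρ * H) * (X + Z) ^ 2) +
      (4 * p ^ 2 * K) * (ρ * Z * (X + Z) * Y) + (2 * p * K) * ((ρ ^ 2 * H) * Y) +
      (3 * p * K) * (ρ ^ 2 * H ^ 2) + (4 * p * K) * ((lam * B ^ 3 * ρ ^ 2) * (X + Z)) := by ring
    rw [e, x1, x2, x3, x4]
    have hp2 : (p : ℝ) ≤ p ^ 3 := by
      have : (p : ℝ) ^ 1 ≤ p ^ 3 := pow_le_pow_right₀ hp1 (by norm_num)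
      linarith
    have hp3 : (p : ℝ) ^ 2 ≤ p ^ 3 := pow_le_pow_right₀ hp1 (by norm_num)
    have a1 : 4 * (p : ℝ) ^ 3 * K ≤ 6 * p ^ 3 * K := by
      have : 0 ≤ (p : ℝ) ^ 3 * K := by positivity
      linarith
    have a2 : 6 * (p : ℝ) ^ 2 * K ≤ 6 * p ^ 3 * K := by
      have := mul_le_mul_of_nonneg_right hp3 hK
      linarith
    have a3 : 4 * (p : ℝ) ^ 2 * K ≤ 6 * p ^ 3 * K := by
      have := mul_le_mul_of_nonneg_right hp3 hK
      have : 0 ≤ (p : ℝ) ^ 3 * K := by positivity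
      linarith
    have a4 : 2 * (p : ℝ) * K ≤ 6 * p ^ 3 * K := by
      have := mul_le_mul_of_nonneg_right hp2 hK
      have : 0 ≤ (p : ℝ) ^ 3 * K := by positivity
      linarith
    have a5 : 3 * (p : ℝ) * K ≤ 6 * p ^ 3 * K := by
      have := mul_le_mul_of_nonneg_right hp2 hK
      have : 0 ≤ (p : ℝ) ^ 3 * K := by positivity
      linarith
    have a6 : 4 * (p : ℝ) * K ≤ 6 * p ^ 3 * K := by
      have := mul_le_mul_of_nonneg_right hp2 hK
      have : 0 ≤ (p : ℝ) ^ 3 * K := by positivity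
      linarith
    have b1 := mul_le_mul_of_nonneg_right a1 (by positivity : 0 ≤ Z * (X + Z) ^ 3)
    have b2 := mul_le_mul_of_nonneg_right a2 (by positivity : 0 ≤ g * Z ^ 2 * (X + Z) ^ 2)
    have b3 := mul_le_mul_of_nonneg_right a3 (by positivity : 0 ≤ ρ * Z * (X + Z) * Y)
    have b4 := mul_le_mul_of_nonneg_right a4 (by positivity : 0 ≤ g * ρ * Z ^ 2 * Y)
    have b5 := mul_le_mul_of_nonneg_right a5 (by positivity : 0 ≤ g ^ 2 * Z ^ 4)
    have b6 := mul_le_mul_of_nonneg_right a6 (by positivity : 0 ≤ g ^ 2 * Z ^ 3 * (X + Z))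
    linarith
  have m1 : 4 * h * (T3 (V3 R W x) (fun _ => 1) a (fun i => conj (a i))).re =
      4 * (h * (T3 (V3 R W x) (fun _ => 1) a (fun i => conj (a i))).re) := by ring
  have m2 : 2 * h ^ 2 * (T2 (V2 R W x) (fun _ => 1) (fun _ => 1)).re =
      2 * (h ^ 2 * (T2 (V2 R W x) (fun _ => 1) (fun _ => 1)).re) := by ring
  rw [m1, m2]
  have m3 : ca * κ / 2 * g ^ 3 * Z ^ 4 = ca * κ * g ^ 3 * Z ^ 4 / 2 := by ring
  rw [m3] at halg
  linarith

end C4aux

namespace C4aux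

/-! ### Part F: deep coordinates, bad embeddings -/

theorem QF_eq {R : ℝ} (hR : R ≠ 0) (t : ℝ) (τ σ : ℂ) : QF R t τ σ =
    (Real.exp (-(t / R)) * ‖σ - τ ^ 2 / R‖ ^ 2 + Real.exp (-(2 * t / R)) *
      ‖σ - 2 * τ ^ 2 / R‖ ^ 2) / 4 := by
  unfold QF F2 F3 F4
  have e1 : σ - τ ^ 2 / R = σ - ((1 / R : ℝ) : ℂ) * τ ^ 2 := by push_cast; ring
  have e2 : σ - 2 * τ ^ 2 / R = σ - ((2 / R : ℝ) : ℂ) * τ ^ 2 := by push_cast; ring
  rw [e1, e2, norm4, norm2, norm2, norm2]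
  simp only [Complex.sub_re, Complex.sub_im, Complex.mul_re, Complex.mul_im, Complex.ofReal_re,
    Complex.ofReal_im, Complex.conj_re, Complex.conj_im, sq]
  field_simp
  ring

theorem QF_nonneg {R : ℝ} (hR : R ≠ 0) (t : ℝ) (τ σ : ℂ) : 0 ≤ QF R t τ σ := by
  rw [QF_eq hR]
  positivity

theorem dterm {R t δ B P h Qu : ℝ} {k τ σ : ℂ} (hR : 1 ≤ R) (ht : 0 ≤ t) (hδ1 : δ ≤ 1)
    (h1 : Real.exp (-(t / (2 * R))) ≤ δ) (h2 : Real.exp (-(t / (8 * R))) * ‖τ‖ ≤ P)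
    (hB : 0 ≤ B) (hh : |h| ≤ B ^ 2) (hk : ‖k‖ ≤ B ^ 3) (hQu : 0 ≤ Qu) :
    -(R * (δ * Qu)) - 5 * (δ * (P ^ 4 + B ^ 4)) ≤ (FJ R ⟨t, h, Qu, τ, σ, k⟩).Q := by
  have hR0 : 0 < R := by linarith
  have hδ : 0 < δ := (Real.exp_pos _).trans_le h1
  set w := Real.exp (-(t / (8 * R))) with hw
  have hw0 : 0 < w := Real.exp_pos _
  have hw1 : w ≤ 1 := by
    rw [hw, Real.exp_le_one_iff]
    have : 0 ≤ t / (8 * R) := by positivity
    linarith
  have e2 : Real.exp (-(t / (2 * R))) = w ^ 4 := by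
    rw [hw, ← Real.exp_nat_mul]; congr 1; push_cast; field_simp; ring
  have e1 : Real.exp (-(t / R)) = w ^ 8 := by
    rw [hw, ← Real.exp_nat_mul]; congr 1; push_cast; field_simp
  have e3 : Real.exp (-(2 * t / R)) = w ^ 16 := by
    rw [hw, ← Real.exp_nat_mul]; congr 1; push_cast; field_simp; ring
  rw [e2] at h1
  have hP : 0 ≤ P := le_trans (by positivity) h2
  have w84 : w ^ 8 ≤ δ * w ^ 4 := by
    have : w ^ 8 = w ^ 4 * w ^ 4 := by ring
    rw [this]; exact mul_le_mul_of_nonneg_right h1 (by positivity)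
  have w41 : w ^ 4 ≤ w := by
    have := pow_le_pow_of_le_one hw0.le hw1 (show 1 ≤ 4 by norm_num)
    simpa using this
  have w42 : w ^ 4 ≤ w ^ 2 := pow_le_pow_of_le_one hw0.le hw1 (by norm_num)
  have w168 : w ^ 16 ≤ w ^ 8 := pow_le_pow_of_le_one hw0.le hw1 (by norm_num)
  have w8δ : w ^ 8 ≤ δ := by
    have h3 : w ^ 4 ≤ 1 := pow_le_one₀ hw0.le hw1
    exact w84.trans (mul_le_of_le_one_right hδ.le h3)
  -- the identity
  have hid : (FJ R ⟨t, h, Qu, τ, σ, k⟩).Q = QF R t τ σ + F1 R t * Qu + F2 R t * (2 * h ^ 2) +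
      F2 R t * (4 * (τ * conj k).re) + F3 R t * (4 * ‖τ‖ ^ 2 * h) := by
    unfold FJ Jet.comp QF
    simp only
    ring
  rw [hid]
  have hQF := QF_nonneg hR0.ne' t τ σ
  have hF2 : F2 R t = (w ^ 8 + w ^ 16) / 4 := by unfold F2; rw [e1, e3]
  have hF1 : F1 R t = -(R / 4) * (w ^ 8 + w ^ 16 / 2) := by unfold F1; rw [e1, e3]
  have hF3 : F3 R t = -(w ^ 8 + 2 * w ^ 16) / (4 * R) := by unfold F3; rw [e1, e3]
  have b1 : -(R * (δ * Qu)) ≤ F1 R t * Qu := by
    rw [hF1]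
    have : (R / 4) * (w ^ 8 + w ^ 16 / 2) ≤ R * δ := by
      have h3 : w ^ 8 + w ^ 16 / 2 ≤ 2 * δ := by linarith
      have := mul_le_mul_of_nonneg_left h3 (by positivity : 0 ≤ R / 4)
      have h5 : 0 ≤ R * δ := by positivity
      linarith
    have := mul_le_mul_of_nonneg_right this hQu
    linarith
  have b2 : 0 ≤ F2 R t * (2 * h ^ 2) := by rw [hF2]; positivity
  have hF2' : 0 ≤ F2 R t := by rw [hF2]; positivity
  have hF2'' : F2 R t ≤ w ^ 8 / 2 := by rw [hF2]; linarith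
  have pb1 : P * B ^ 3 ≤ P ^ 4 + B ^ 4 := by
    rcases le_total P B with hPB | hPB
    · have : P * B ^ 3 ≤ B * B ^ 3 := mul_le_mul_of_nonneg_right hPB (by positivity)
      have h5 : 0 ≤ P ^ 4 := by positivity
      have h6 : B * B ^ 3 = B ^ 4 := by ring
      linarith
    · have h6 : B ^ 3 ≤ P ^ 3 := pow_le_pow_left₀ hB hPB 3
      have : P * B ^ 3 ≤ P * P ^ 3 := mul_le_mul_of_nonneg_left h6 hP
      have h5 : 0 ≤ B ^ 4 := by positivity
      have h7 : P * P ^ 3 = P ^ 4 := by ring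
      linarith
  have pb2 : P ^ 2 * B ^ 2 ≤ P ^ 4 + B ^ 4 := by
    have h3 := sq_nonneg (P ^ 2 - B ^ 2)
    have h4 : (P ^ 2 - B ^ 2) ^ 2 = P ^ 4 + B ^ 4 - 2 * (P ^ 2 * B ^ 2) := by ring
    have h5 : 0 ≤ P ^ 2 * B ^ 2 := by positivity
    linarith
  have b3 : -(2 * (δ * (P ^ 4 + B ^ 4))) ≤ F2 R t * (4 * (τ * conj k).re) := by
    have h3 : |(τ * conj k).re| ≤ ‖τ‖ * B ^ 3 := by
      refine (Complex.abs_re_le_norm _).trans ?_
      rw [norm_mul, RCLike.norm_conj]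
      exact mul_le_mul_of_nonneg_left hk (norm_nonneg _)
    have h4 := neg_abs_le ((τ * conj k).re)
    have h5 : w ^ 8 * ‖τ‖ ≤ δ * P := by
      calc w ^ 8 * ‖τ‖ ≤ (δ * w ^ 4) * ‖τ‖ := mul_le_mul_of_nonneg_right w84 (norm_nonneg _)
        _ ≤ (δ * w) * ‖τ‖ := mul_le_mul_of_nonneg_right
            (mul_le_mul_of_nonneg_left w41 hδ.le) (norm_nonneg _)
        _ = δ * (w * ‖τ‖) := by ring
        _ ≤ δ * P := mul_le_mul_of_nonneg_left h2 hδ.le
    have h6 : F2 R t * (4 * (‖τ‖ * B ^ 3)) ≤ 2 * (δ * (P ^ 4 + B ^ 4)) := by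
      calc F2 R t * (4 * (‖τ‖ * B ^ 3)) ≤ (w ^ 8 / 2) * (4 * (‖τ‖ * B ^ 3)) :=
            mul_le_mul_of_nonneg_right hF2'' (by positivity)
        _ = 2 * ((w ^ 8 * ‖τ‖) * B ^ 3) := by ring
        _ ≤ 2 * ((δ * P) * B ^ 3) := by
            have := mul_le_mul_of_nonneg_right h5 (by positivity : 0 ≤ B ^ 3)
            linarith
        _ = 2 * (δ * (P * B ^ 3)) := by ring
        _ ≤ _ := by
            have := mul_le_mul_of_nonneg_left pb1 hδ.le
            linarith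
    have h7 : F2 R t * (4 * -(‖τ‖ * B ^ 3)) ≤ F2 R t * (4 * (τ * conj k).re) :=
      mul_le_mul_of_nonneg_left (by linarith) hF2'
    linarith
  have b4 : -(3 * (δ * (P ^ 4 + B ^ 4))) ≤ F3 R t * (4 * ‖τ‖ ^ 2 * h) := by
    have h5 : w ^ 8 * ‖τ‖ ^ 2 ≤ δ * P ^ 2 := by
      calc w ^ 8 * ‖τ‖ ^ 2 ≤ (δ * w ^ 4) * ‖τ‖ ^ 2 := mul_le_mul_of_nonneg_right w84 (by positivity)
        _ ≤ (δ * w ^ 2) * ‖τ‖ ^ 2 := mul_le_mul_of_nonneg_right
            (mul_le_mul_of_nonneg_left w42 hδ.le) (by positivity)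
        _ = δ * (w * ‖τ‖) ^ 2 := by ring
        _ ≤ δ * P ^ 2 := mul_le_mul_of_nonneg_left
            (pow_le_pow_left₀ (by positivity) h2 2) hδ.le
    have h6 : |F3 R t| ≤ 3 / 4 * w ^ 8 := by
      rw [hF3, abs_div, abs_neg, abs_of_nonneg (by positivity : 0 ≤ w ^ 8 + 2 * w ^ 16),
        abs_of_nonneg (by positivity : 0 ≤ 4 * R), div_le_iff₀ (by positivity)]
      have h7 : w ^ 8 + 2 * w ^ 16 ≤ 3 * w ^ 8 := by linarith
      have h8 : 3 * w ^ 8 ≤ 3 * w ^ 8 * R := le_mul_of_one_le_right (by positivity) hR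
      linarith
    have h7 : |F3 R t * (4 * ‖τ‖ ^ 2 * h)| ≤ 3 * (δ * (P ^ 4 + B ^ 4)) := by
      rw [abs_mul, abs_mul, abs_of_nonneg (by positivity : 0 ≤ 4 * ‖τ‖ ^ 2)]
      calc |F3 R t| * (4 * ‖τ‖ ^ 2 * |h|) ≤ (3 / 4 * w ^ 8) * (4 * ‖τ‖ ^ 2 * B ^ 2) :=
            mul_le_mul h6 (mul_le_mul_of_nonneg_left hh (by positivity)) (by positivity)
              (by positivity)
        _ = 3 * ((w ^ 8 * ‖τ‖ ^ 2) * B ^ 2) := by ring
        _ ≤ 3 * ((δ * P ^ 2) * B ^ 2) := by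
            have := mul_le_mul_of_nonneg_right h5 (by positivity : 0 ≤ B ^ 2)
            linarith
        _ = 3 * (δ * (P ^ 2 * B ^ 2)) := by ring
        _ ≤ _ := by
            have := mul_le_mul_of_nonneg_left pb2 hδ.le
            linarith
    have := neg_abs_le (F3 R t * (4 * ‖τ‖ ^ 2 * h))
    linarith
  linarith

/-- the value of `W` on an embedding that hits a deep coordinate -/
theorem bad_term {p : ℕ} {R C : ℝ} {W : (Fin p → ℝ) → ℝ} (hR : 1 ≤ R) (hC : 0 ≤ C)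
    {x : Fin p → ℝ} (hx : ∀ i, 0 ≤ x i) (hW : ContDiffAt ℝ (4 : ℕ) W x)
    (hb : ∀ m : ℕ, m ≤ 4 → ‖iteratedFDeriv ℝ m W x‖ ≤ C * Real.exp (-(2 * (∑ i, x i) / R)))
    {a b : Fin p → ℂ} {h Qu δ G S B : ℝ} {k : ℂ} (hG : 0 ≤ G) (hS : 0 ≤ S) (hB : 0 ≤ B)
    (hδ : ∃ j, Real.exp (-(x j / (2 * R))) ≤ δ)
    (ha : ∀ i, Real.exp (-(x i / (8 * R))) * ‖a i‖ ≤ G)
    (hbb : ∀ i, Real.exp (-(x i / (4 * R))) * ‖b i‖ ≤ S)
    (hh : |h| ≤ B ^ 2) (hk : ‖k‖ ≤ B ^ 3) (hQu : 0 ≤ Qu) :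
    -(p ^ 4 * (C * δ) * (8 * G ^ 4 + 2 * S ^ 2 + 8 * B ^ 4 + Qu)) ≤
      (multiJet W (fun j => ⟨x j, h, Qu, a j, b j, k⟩)).Q := by
  obtain ⟨j1, hj1⟩ := hδ
  have hδ0 : 0 < δ := (Real.exp_pos _).trans_le hj1
  have hR0 : 0 < R := by linarith
  set E := Real.exp (-(2 * (∑ i, x i) / R)) with hE
  set w : Fin p → ℝ := fun i => Real.exp (-(x i / (8 * R))) with hw
  have hw0 : ∀ i, 0 < w i := fun i => Real.exp_pos _
  have hw1 : ∀ i, w i ≤ 1 := fun i => by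
    rw [hw]
    simp only
    rw [Real.exp_le_one_iff]
    have : 0 ≤ x i / (8 * R) := div_nonneg (hx i) (by positivity)
    linarith
  have hw2 : ∀ i, Real.exp (-(x i / (4 * R))) = w i * w i := fun i => by
    rw [hw]
    simp only
    rw [← Real.exp_add]; congr 1; field_simp; ring
  have hle : ∀ i, x i ≤ ∑ i, x i := fun i =>
    Finset.single_le_sum (fun j _ => hx j) (Finset.mem_univ i)
  have hF : ∀ i j l m, E ≤ δ * (w i * w j * w l * w m) := by
    intro i j l m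
    have h1 : E ≤ Real.exp (-(x j1 / (2 * R))) * (w i * w j * w l * w m) := by
      rw [hE, hw]
      simp only
      rw [← Real.exp_add, ← Real.exp_add, ← Real.exp_add, ← Real.exp_add, Real.exp_le_exp]
      have e : -(x j1 / (2 * R)) + (-(x i / (8 * R)) + -(x j / (8 * R)) + -(x l / (8 * R)) +
          -(x m / (8 * R))) = -((4 * x j1 + x i + x j + x l + x m) / (8 * R)) := by
        field_simp; ring
      rw [e, neg_le_neg_iff, div_le_div_iff₀ (by positivity) hR0]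
      have i1 := hle i
      have i2 := hle j
      have i3 := hle l
      have i4 := hle m
      have i5 := hle j1
      have i6 : 0 ≤ ∑ i, x i := Finset.sum_nonneg fun i _ => hx i
      have i7 : (4 * x j1 + x i + x j + x l + x m) ≤ 2 * (∑ i, x i) * 8 := by linarith
      have i8 := mul_le_mul_of_nonneg_right i7 hR0.le
      linarith
    refine h1.trans (mul_le_mul_of_nonneg_right hj1 ?_)
    have := hw0 i; have := hw0 j; have := hw0 l; have := hw0 m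
    positivity
  have hF2 : ∀ i j, E ≤ δ * (w i * w j) := by
    intro i j
    refine (hF i j i i).trans (mul_le_mul_of_nonneg_left ?_ hδ0.le)
    have h1 := hw0 i; have h2 := hw0 j; have h3 := hw1 i
    have h4 : w i * w i ≤ 1 := mul_le_one₀ h3 h1.le h3
    have h5 : 0 < w i * w j := by positivity
    have h6 := mul_le_of_le_one_right h5.le h4
    linarith
  have hF1 : ∀ i, E ≤ δ * w i := by
    intro i
    refine (hF2 i i).trans (mul_le_mul_of_nonneg_left ?_ hδ0.le)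
    exact mul_le_of_le_one_right (hw0 i).le (hw1 i)
  have hF0 : E ≤ δ := by
    exact (hF1 j1).trans (mul_le_of_le_one_right hδ0.le (hw1 j1))
  have hE0 : 0 < E := Real.exp_pos _
  have p4 : ∀ i j l m, |pd (pd (pd (pd W i) j) l) m x| ≤ C * E := fun i j l m =>
    (abs_pd4_le hW i j l m).trans (hb 4 le_rfl)
  have p3 : ∀ i j l, |pd (pd (pd W i) j) l x| ≤ C * E := fun i j l =>
    (abs_pd3_le (cd_mono (m := 3) hW (by norm_num)) i j l).trans (hb 3 (by norm_num))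
  have p2 : ∀ i j, |pd (pd W i) j x| ≤ C * E := fun i j =>
    (abs_pd2_le (cd_mono (m := 2) hW (by norm_num)) i j).trans (hb 2 (by norm_num))
  have p1 : ∀ i, |pd W i x| ≤ C * E := fun i =>
    (abs_pd1_le (cd_mono (m := 1) hW (by norm_num)) i).trans (hb 1 (by norm_num))
  have wa : ∀ i, w i * ‖a i‖ ≤ G := ha
  have wb : ∀ i, w i * w i * ‖b i‖ ≤ S := fun i => by rw [← hw2]; exact hbb i
  have nc : ∀ z : ℂ, ‖conj z‖ = ‖z‖ := fun z => RCLike.norm_conj z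
  -- the six norms
  have q4 : ‖D4 W x a a (fun i => conj (a i)) (fun i => conj (a i))‖ ≤ p ^ 4 * (C * (δ * G ^ 4)) := by
    refine norm_T4_le (V := fun i j l m => pd (pd (pd (pd W i) j) l) m x) fun i j l m => ?_
    simp only [nc]
    calc |pd (pd (pd (pd W i) j) l) m x| * (‖a i‖ * ‖a j‖ * ‖a l‖ * ‖a m‖)
        ≤ (C * (δ * (w i * w j * w l * w m))) * (‖a i‖ * ‖a j‖ * ‖a l‖ * ‖a m‖) :=
          mul_le_mul_of_nonneg_right ((p4 i j l m).trans
            (mul_le_mul_of_nonneg_left (hF i j l m) hC)) (by positivity)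
      _ = C * (δ * ((w i * ‖a i‖) * (w j * ‖a j‖) * (w l * ‖a l‖) * (w m * ‖a m‖))) := by ring
      _ ≤ C * (δ * (G * G * G * G)) := by
          refine mul_le_mul_of_nonneg_left (mul_le_mul_of_nonneg_left ?_ hδ0.le) hC
          have g0 : ∀ i, 0 ≤ w i * ‖a i‖ := fun i => mul_nonneg (hw0 i).le (norm_nonneg _)
          exact mul_le_mul (mul_le_mul (mul_le_mul (wa i) (wa j) (g0 j) hG) (wa l) (g0 l)
            (mul_nonneg hG hG)) (wa m) (g0 m) (mul_nonneg (mul_nonneg hG hG) hG)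
      _ = C * (δ * G ^ 4) := by ring
  have q3 : ‖D3 W x b (fun i => conj (a i)) (fun i => conj (a i))‖ ≤
      p ^ 3 * (C * (δ * (S * G ^ 2))) := by
    refine norm_T3_le (V := fun i j l => pd (pd (pd W i) j) l x) fun i j l => ?_
    simp only [nc]
    calc |pd (pd (pd W i) j) l x| * (‖b i‖ * ‖a j‖ * ‖a l‖)
        ≤ (C * (δ * (w i * w i * w j * w l))) * (‖b i‖ * ‖a j‖ * ‖a l‖) :=
          mul_le_mul_of_nonneg_right ((p3 i j l).trans
            (mul_le_mul_of_nonneg_left (hF i i j l) hC)) (by positivity)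
      _ = C * (δ * ((w i * w i * ‖b i‖) * (w j * ‖a j‖) * (w l * ‖a l‖))) := by ring
      _ ≤ C * (δ * (S * G * G)) := by
          refine mul_le_mul_of_nonneg_left (mul_le_mul_of_nonneg_left ?_ hδ0.le) hC
          have g0 : ∀ i, 0 ≤ w i * ‖a i‖ := fun i => mul_nonneg (hw0 i).le (norm_nonneg _)
          exact mul_le_mul (mul_le_mul (wb i) (wa j) (g0 j) hS) (wa l) (g0 l) (mul_nonneg hS hG)
      _ = C * (δ * (S * G ^ 2)) := by ring
  have q3' : ‖D3 W x a (fun i => conj (a i)) (fun _ => (h : ℂ))‖ ≤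
      p ^ 3 * (C * (δ * (G ^ 2 * B ^ 2))) := by
    refine norm_T3_le (V := fun i j l => pd (pd (pd W i) j) l x) fun i j l => ?_
    simp only [nc, Complex.norm_real, Real.norm_eq_abs]
    calc |pd (pd (pd W i) j) l x| * (‖a i‖ * ‖a j‖ * |h|)
        ≤ (C * (δ * (w i * w j))) * (‖a i‖ * ‖a j‖ * |h|) :=
          mul_le_mul_of_nonneg_right ((p3 i j l).trans
            (mul_le_mul_of_nonneg_left (hF2 i j) hC)) (by positivity)
      _ = C * (δ * ((w i * ‖a i‖) * (w j * ‖a j‖) * |h|)) := by ring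
      _ ≤ C * (δ * (G * G * B ^ 2)) := by
          refine mul_le_mul_of_nonneg_left (mul_le_mul_of_nonneg_left ?_ hδ0.le) hC
          have g0 : ∀ i, 0 ≤ w i * ‖a i‖ := fun i => mul_nonneg (hw0 i).le (norm_nonneg _)
          exact mul_le_mul (mul_le_mul (wa i) (wa j) (g0 j) hG) hh (abs_nonneg _)
            (mul_nonneg hG hG)
      _ = C * (δ * (G ^ 2 * B ^ 2)) := by ring
  have q2 : ‖D2 W x b (fun i => conj (b i))‖ ≤ p ^ 2 * (C * (δ * S ^ 2)) := by
    refine norm_T2_le (V := fun i j => pd (pd W i) j x) fun i j => ?_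
    simp only [nc]
    calc |pd (pd W i) j x| * (‖b i‖ * ‖b j‖)
        ≤ (C * (δ * (w i * w i * w j * w j))) * (‖b i‖ * ‖b j‖) :=
          mul_le_mul_of_nonneg_right ((p2 i j).trans
            (mul_le_mul_of_nonneg_left (hF i i j j) hC)) (by positivity)
      _ = C * (δ * ((w i * w i * ‖b i‖) * (w j * w j * ‖b j‖))) := by ring
      _ ≤ C * (δ * (S * S)) := by
          refine mul_le_mul_of_nonneg_left (mul_le_mul_of_nonneg_left ?_ hδ0.le) hC
          have g0 : ∀ i, 0 ≤ w i * w i * ‖b i‖ := fun i =>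
            mul_nonneg (mul_nonneg (hw0 i).le (hw0 i).le) (norm_nonneg _)
          exact mul_le_mul (wb i) (wb j) (g0 j) hS
      _ = C * (δ * S ^ 2) := by ring
  have q2' : ‖D2 W x (fun _ => (h : ℂ)) (fun _ => (h : ℂ))‖ ≤ p ^ 2 * (C * (δ * B ^ 4)) := by
    refine norm_T2_le (V := fun i j => pd (pd W i) j x) fun i j => ?_
    simp only [Complex.norm_real, Real.norm_eq_abs]
    calc |pd (pd W i) j x| * (|h| * |h|)
        ≤ (C * δ) * (B ^ 2 * B ^ 2) :=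
          mul_le_mul ((p2 i j).trans (mul_le_mul_of_nonneg_left hF0 hC))
            (mul_le_mul hh hh (abs_nonneg _) (by positivity)) (by positivity) (by positivity)
      _ = C * (δ * B ^ 4) := by ring
  have q2'' : ‖D2 W x (fun _ => k) (fun i => conj (a i))‖ ≤ p ^ 2 * (C * (δ * (B ^ 3 * G))) := by
    refine norm_T2_le (V := fun i j => pd (pd W i) j x) fun i j => ?_
    simp only [nc]
    calc |pd (pd W i) j x| * (‖k‖ * ‖a j‖)
        ≤ (C * (δ * w j)) * (‖k‖ * ‖a j‖) :=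
          mul_le_mul_of_nonneg_right ((p2 i j).trans
            (mul_le_mul_of_nonneg_left (hF1 j) hC)) (by positivity)
      _ = C * (δ * (‖k‖ * (w j * ‖a j‖))) := by ring
      _ ≤ C * (δ * (B ^ 3 * G)) := by
          refine mul_le_mul_of_nonneg_left (mul_le_mul_of_nonneg_left ?_ hδ0.le) hC
          exact mul_le_mul hk (wa j) (mul_nonneg (hw0 j).le (norm_nonneg _)) (by positivity)
  have q1 : -(p * (C * (δ * Qu))) ≤ ∑ i, pd W i x * Qu := by
    have : ∀ i ∈ (Finset.univ : Finset (Fin p)), -(C * (δ * Qu)) ≤ pd W i x * Qu := by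
      intro i _
      have h1 := neg_abs_le (pd W i x)
      have h2 := (p1 i).trans (mul_le_mul_of_nonneg_left hF0 hC)
      have h3 := mul_le_mul_of_nonneg_right h2 hQu
      have h4 := mul_le_mul_of_nonneg_right h1 hQu
      linarith
    have := Finset.sum_le_sum this
    refine le_trans (le_of_eq ?_) this
    simp
  have hp1 : (1 : ℝ) ≤ p := by
    have : 0 < p := j1.pos
    exact_mod_cast this
  have pp1 : (p : ℝ) ≤ p ^ 4 := by
    have : (p : ℝ) ^ 1 ≤ p ^ 4 := pow_le_pow_right₀ hp1 (by norm_num)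
    linarith
  have pp2 : (p : ℝ) ^ 2 ≤ p ^ 4 := pow_le_pow_right₀ hp1 (by norm_num)
  have pp3 : (p : ℝ) ^ 3 ≤ p ^ 4 := pow_le_pow_right₀ hp1 (by norm_num)
  set U := (p : ℝ) ^ 4 * (C * δ) with hU
  have hCδ : 0 ≤ C * δ := mul_nonneg hC hδ0.le
  have hU0 : 0 ≤ U := by positivity
  have u1 : ∀ M : ℝ, 0 ≤ M → p * (C * (δ * M)) ≤ U * M := fun M hM => by
    have := mul_le_mul_of_nonneg_right pp1 (mul_nonneg hCδ hM)
    rw [hU]; linarith
  have u2 : ∀ M : ℝ, 0 ≤ M → p ^ 2 * (C * (δ * M)) ≤ U * M := fun M hM => by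
    have := mul_le_mul_of_nonneg_right pp2 (mul_nonneg hCδ hM)
    rw [hU]; linarith
  have u3 : ∀ M : ℝ, 0 ≤ M → p ^ 3 * (C * (δ * M)) ≤ U * M := fun M hM => by
    have := mul_le_mul_of_nonneg_right pp3 (mul_nonneg hCδ hM)
    rw [hU]; linarith
  have u4 : ∀ M : ℝ, p ^ 4 * (C * (δ * M)) = U * M := fun M => by rw [hU]; ring
  have v4 := re_ge (q4.trans (u4 _).le)
  have v3 := re_ge (q3.trans (u3 _ (by positivity)))
  have v3' := re_ge (q3'.trans (u3 _ (by positivity)))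
  have v2 := re_ge (q2.trans (u2 _ (by positivity)))
  have v2' := re_ge (q2'.trans (u2 _ (by positivity)))
  have v2'' := re_ge (q2''.trans (u2 _ (by positivity)))
  have v1 := u1 Qu hQu
  have y1 : 2 * (S * G ^ 2) ≤ S ^ 2 + G ^ 4 := by
    have h3 := sq_nonneg (S - G ^ 2)
    have h4 : (S - G ^ 2) ^ 2 = S ^ 2 + G ^ 4 - 2 * (S * G ^ 2) := by ring
    linarith
  have y2 : 2 * (G ^ 2 * B ^ 2) ≤ G ^ 4 + B ^ 4 := by
    have h3 := sq_nonneg (G ^ 2 - B ^ 2)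
    have h4 : (G ^ 2 - B ^ 2) ^ 2 = G ^ 4 + B ^ 4 - 2 * (G ^ 2 * B ^ 2) := by ring
    linarith
  have y3 : B ^ 3 * G ≤ G ^ 4 + B ^ 4 := by
    rcases le_total G B with hPB | hPB
    · have : B ^ 3 * G ≤ B ^ 3 * B := mul_le_mul_of_nonneg_left hPB (by positivity)
      have h5 : 0 ≤ G ^ 4 := by positivity
      have h6 : B ^ 3 * B = B ^ 4 := by ring
      linarith
    · have h6 : B ^ 3 ≤ G ^ 3 := pow_le_pow_left₀ hB hPB 3
      have : B ^ 3 * G ≤ G ^ 3 * G := mul_le_mul_of_nonneg_right h6 hG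
      have h5 : 0 ≤ B ^ 4 := by positivity
      have h7 : G ^ 3 * G = G ^ 4 := by ring
      linarith
  have z1 := mul_le_mul_of_nonneg_left y1 hU0
  have z2 := mul_le_mul_of_nonneg_left y2 hU0
  have z3 := mul_le_mul_of_nonneg_left y3 hU0
  have eM : (multiJet W (fun j => ⟨x j, h, Qu, a j, b j, k⟩)).Q =
      (D4 W x a a (fun i => conj (a i)) (fun i => conj (a i))).re +
      2 * (D3 W x b (fun i => conj (a i)) (fun i => conj (a i))).re +
      4 * (D3 W x a (fun i => conj (a i)) (fun _ => (h : ℂ))).re +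
      (D2 W x b (fun i => conj (b i))).re +
      2 * (D2 W x (fun _ => (h : ℂ)) (fun _ => (h : ℂ))).re +
      4 * (D2 W x (fun _ => k) (fun i => conj (a i))).re + ∑ i, pd W i x * Qu := rfl
  rw [eM]
  linarith

end C4aux

namespace C4aux

/-! ### Part G: embeddings -/

theorem card_good {p q : ℕ} (D : Finset (Fin q)) (hD : Dᶜ.card = p) :
    (Finset.univ.filter fun e : Fin p ↪ Fin q => ∀ j, e j ∉ D).card = p.factorial := by
  classical
  have h1 : (Finset.univ.filter fun e : Fin p ↪ Fin q => ∀ j, e j ∉ D).card =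
      Fintype.card {e : Fin p ↪ Fin q // ∀ j, e j ∉ D} := (Fintype.card_subtype _).symm
  have h2 : Fintype.card {e : Fin p ↪ Fin q // ∀ j, e j ∉ D} =
      Fintype.card (Fin p ↪ {i : Fin q // i ∉ D}) := by
    refine Fintype.card_congr ⟨fun e => ⟨fun j => ⟨e.1 j, e.2 j⟩, fun a b hab =>
      e.1.injective (congrArg Subtype.val hab)⟩,
      fun f => ⟨f.trans (Function.Embedding.subtype _), fun j => (f j).2⟩, fun e => ?_, fun f => ?_⟩
    · ext j; rfl
    · ext j; rfl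
  have h3 : Fintype.card {i : Fin q // i ∉ D} = p := by
    rw [Fintype.card_subtype, ← hD]
    congr 1
    ext i; simp
  rw [h1, h2, Fintype.card_embedding_eq, h3, Fintype.card_fin, Nat.descFactorial_self]

theorem map_good {p q : ℕ} (D : Finset (Fin q)) (hD : Dᶜ.card = p) (e : Fin p ↪ Fin q)
    (he : ∀ j, e j ∉ D) : Finset.univ.map e = Dᶜ := by
  refine Finset.eq_of_subset_of_card_le ?_ ?_
  · intro i hi
    obtain ⟨j, _, rfl⟩ := Finset.mem_map.1 hi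
    exact Finset.mem_compl.2 (he j)
  · rw [hD, Finset.card_map, Finset.card_univ, Fintype.card_fin]

theorem pow3_le {a b c : ℝ} (ha : 0 ≤ a) (hb : 0 ≤ b) (hc : 0 ≤ c) :
    (a + b + c) ^ 4 ≤ 81 * (a ^ 4 + b ^ 4 + c ^ 4) := by
  set M := max a (max b c) with hM
  have h1 : a ≤ M := le_max_left _ _
  have h2 : b ≤ M := (le_max_left _ _).trans (le_max_right _ _)
  have h3 : c ≤ M := (le_max_right _ _).trans (le_max_right _ _)
  have h4 : M ^ 4 ≤ a ^ 4 + b ^ 4 + c ^ 4 := by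
    have e1 : 0 ≤ a ^ 4 := by positivity
    have e2 : 0 ≤ b ^ 4 := by positivity
    have e3 : 0 ≤ c ^ 4 := by positivity
    rcases max_choice a (max b c) with h | h
    · rw [hM, h]; linarith
    · rcases max_choice b c with h' | h'
      · rw [hM, h, h']; linarith
      · rw [hM, h, h']; linarith
  calc (a + b + c) ^ 4 ≤ (3 * M) ^ 4 := pow_le_pow_left₀ (by positivity) (by linarith) 4
    _ = 81 * M ^ 4 := by ring
    _ ≤ _ := by linarith

theorem pow3_le' {a b c : ℝ} : (a + b + c) ^ 2 ≤ 3 * (a ^ 2 + b ^ 2 + c ^ 2) := by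
  nlinarith [sq_nonneg (a - b), sq_nonneg (b - c), sq_nonneg (a - c)]

end C4aux

open C4aux

/-- Case A1: exactly `m` deep coordinates, all others within `ρ ≤ r₀`, with `ρ ≥ M₁ lam` attained,
`u` good. -/
theorem caseA1 {p : ℕ} (hp2 : 2 ≤ p) {K ca κ : ℝ} (hK : 0 ≤ K) (hca : 0 < ca) (hκ : 0 < κ) :
    ∃ M₁ L₁ : ℝ, 1 ≤ M₁ ∧ 1 ≤ L₁ ∧
    ∀ {n m : ℕ}, p + m = 2 * n + 1 → ∀ (kk : ℕ) (Ca L L' R r₀ : ℝ) (W : (Fin p → ℝ) → ℝ),
      IsModel p kk ca Ca L' R W → NearV p K L R r₀ W → L₁ ≤ L →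
    ∃ C δ₀ : ℝ, 0 ≤ C ∧ 0 < δ₀ ∧
    ∀ (lam δ B P ρ h Qu : ℝ) (k : ℂ) (t : Fin (2 * n + 1) → ℝ) (τ σ : Fin (2 * n + 1) → ℂ)
      (D : Finset (Fin (2 * n + 1))) (i₀ : Fin (2 * n + 1)),
      0 < lam → lam ≤ 1 → 0 ≤ δ → δ ≤ δ₀ * lam ^ 3 → 0 ≤ B → 0 ≤ P → (∀ i, 0 ≤ t i) →
      D.card = m → i₀ ∉ D →
      (∀ i ∈ D, Real.exp (-(t i / (2 * R))) ≤ δ ∧
        Real.exp (-(t i / (8 * R))) * ‖τ i‖ ≤ P ∧ Real.exp (-(t i / (4 * R))) * ‖σ i‖ ≤ P ^ 2) →
      (∀ i, i ∉ D → t i ≤ ρ) → (∃ i, i ∉ D ∧ t i = ρ) → ρ ≤ r₀ → M₁ * lam ≤ ρ →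
      ‖τ i₀‖ ≤ lam * B → ‖σ i₀‖ ≤ lam * B ^ 2 → |h| ≤ lam * B ^ 2 → ‖k‖ ≤ lam * B ^ 3 →
      κ * lam * B ^ 4 ≤ Qu →
      ∀ i, i ∉ D → ∀ j, j ∉ D →
        ‖τ i - τ i₀‖ ^ 4 + ‖σ j - σ i₀‖ ^ 2 / 64 + (lam * B) ^ 4 - C * δ * (P ^ 4 + B ^ 4)
          ≤ QG p R W t τ σ h k Qu := by
  obtain ⟨M₁, L₁, hM₁, hL₁, H0⟩ := alg (C' := 6 * p ^ 3 * K) (c0 := ca * κ / 2) (by positivity)
    (by positivity)
  refine ⟨M₁, L₁, hM₁, hL₁, ?_⟩
  intro n m hpm kk Ca L L' R r₀ W hM hN hL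
  obtain ⟨C1, hC1⟩ := hM.bound
  set C2 := max C1 0 with hC2
  have hC20 : 0 ≤ C2 := le_max_right _ _
  have hR := hM.hR
  set Ne : ℝ := (Fintype.card (Fin p ↪ Fin (2 * n + 1)) : ℝ) with hNe
  have hNe0 : 0 ≤ Ne := Nat.cast_nonneg _
  set Ct : ℝ := Ne * (p ^ 4 * C2 * 700) + m * (5 + R) + 1 with hCt
  have hCt1 : 1 ≤ Ct := by
    have h1 : 0 ≤ Ne * (p ^ 4 * C2 * 700) := by positivity
    have h2 : 0 ≤ (m : ℝ) * (5 + R) := by positivity
    linarith
  have hCt0 : 0 < Ct := by linarith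
  refine ⟨Ct, min (1 / (64 * Ct)) (ca / (2 * Ct)), hCt0.le, by positivity, ?_⟩
  intro lam δ B P ρ h Qu k t τ σ D i₀ hlam hlam1 hδ hδ0 hB hP ht hDm hi₀ hdeep htρ hatt hρ hMρ
    hτ hσ hh hk hQ i hi j hj
  -- bookkeeping of small parameters
  have hlam3 : lam ^ 3 ≤ 1 := pow_le_one₀ hlam.le hlam1
  have hδa : δ ≤ 1 / (64 * Ct) := by
    refine hδ0.trans ?_
    have h1 : min (1 / (64 * Ct)) (ca / (2 * Ct)) ≤ 1 / (64 * Ct) := min_le_left _ _
    have h2 : 0 ≤ 1 / (64 * Ct) := by positivity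
    exact (mul_le_mul_of_nonneg_right h1 (by positivity)).trans (mul_le_of_le_one_right h2 hlam3)
  have hδb : δ ≤ ca / (2 * Ct) * lam ^ 3 :=
    hδ0.trans (mul_le_mul_of_nonneg_right (min_le_right _ _) (by positivity))
  have hCδ : Ct * δ ≤ 1 / 64 := by
    have := mul_le_mul_of_nonneg_left hδa hCt0.le
    refine this.trans (le_of_eq ?_)
    field_simp
  have hCδ' : Ct * δ ≤ ca / 2 * lam ^ 3 := by
    have := mul_le_mul_of_nonneg_left hδb hCt0.le
    refine this.trans (le_of_eq ?_)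
    field_simp
  have hδ1 : δ ≤ 1 := by
    have : δ ≤ Ct * δ := le_mul_of_one_le_left hδ hCt1
    linarith
  have hlρ : lam ≤ ρ := (le_mul_of_one_le_left hlam.le hM₁).trans hMρ
  have hρ0 : 0 < ρ := hlam.trans_le hlρ
  have hQu0 : 0 ≤ Qu := le_trans (by positivity) hQ
  have hDc : Dᶜ.card = p := by
    rw [Finset.card_compl, Fintype.card_fin, hDm]; omega
  have hB2 : lam * B ^ 2 ≤ B ^ 2 := mul_le_of_le_one_left (by positivity) hlam1
  have hB3 : lam * B ^ 3 ≤ B ^ 3 := mul_le_of_le_one_left (by positivity) hlam1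
  have hhB : |h| ≤ B ^ 2 := hh.trans hB2
  have hkB : ‖k‖ ≤ B ^ 3 := hk.trans hB3
  have hi₀' : i₀ ∈ Dᶜ := Finset.mem_compl.2 hi₀
  -- X and Y
  obtain ⟨iX, hiX, hX⟩ := Finset.exists_max_image Dᶜ (fun i => ‖τ i - τ i₀‖) ⟨i₀, hi₀'⟩
  obtain ⟨iY, hiY, hY⟩ := Finset.exists_max_image Dᶜ (fun i => ‖σ i - σ i₀‖) ⟨i₀, hi₀'⟩
  set X := ‖τ iX - τ i₀‖ with hXd
  set Y := ‖σ iY - σ i₀‖ with hYd
  have hX0 : 0 ≤ X := norm_nonneg _
  have hY0 : 0 ≤ Y := norm_nonneg _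
  set Z := lam * B with hZ
  have hZ0 : 0 ≤ Z := by positivity
  set T : Fin (2 * n + 1) → Jet := TJ t τ σ h k Qu with hT
  set M := 2 * X ^ 4 + Y ^ 2 / 32 + 2 * Z ^ 4 + ca / 2 * ρ ^ 3 * Qu with hMd
  set w : (Fin p ↪ Fin (2 * n + 1)) → ℝ := fun e => (multiJet W (fun j => T (e j))).Q with hw
  set good := Finset.univ.filter fun e : Fin p ↪ Fin (2 * n + 1) => ∀ j, e j ∉ D with hgood
  -- good embeddings
  have hG : ∀ e ∈ good, M + p * F1 R 0 * Qu - ∑ i ∈ Dᶜ, (FJ R (T i)).Q ≤ w e := by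
    intro e he
    have he' : ∀ j, e j ∉ D := (Finset.mem_filter.1 he).2
    have hmap := map_good D hDc e he'
    have hsurj : ∀ i, i ∉ D → ∃ j, e j = i := by
      intro i hi
      have : i ∈ Finset.univ.map e := by rw [hmap]; exact Finset.mem_compl.2 hi
      obtain ⟨j, _, hj⟩ := Finset.mem_map.1 this
      exact ⟨j, hj⟩
    obtain ⟨j0, hj0⟩ := hsurj i₀ hi₀
    obtain ⟨iρ, hiρ, hiρ'⟩ := hatt
    obtain ⟨jρ, hjρ⟩ := hsurj iρ hiρ
    obtain ⟨jX, hjX⟩ := hsurj iX (Finset.mem_compl.1 hiX)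
    obtain ⟨jY, hjY⟩ := hsurj iY (Finset.mem_compl.1 hiY)
    have := main_lower (x := fun j => t (e j)) (a := fun j => τ (e j)) (b := fun j => σ (e j))
      (j0 := j0) (X := X) (Y := Y) hK hca hκ hM₁ H0 hM hN hL hlam hB (fun j => ht _)
      (fun j => htρ _ (he' j)) ⟨jρ, by rw [hjρ]; exact hiρ'⟩ hρ hMρ (by simp only [hj0]; exact hτ)
      (by simp only [hj0]; exact hσ) hh hk hQ
      (fun j => by simp only [hj0]; exact hX _ (Finset.mem_compl.2 (he' j)))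
      ⟨jX, by simp only [hj0, hjX]; rfl⟩
      (fun j => by simp only [hj0]; exact hY _ (Finset.mem_compl.2 (he' j)))
      ⟨jY, by simp only [hj0, hjY]; rfl⟩
    have hs : ∑ j, (FJ R (T (e j))).Q = ∑ i ∈ Dᶜ, (FJ R (T i)).Q := by
      rw [← hmap, Finset.sum_map]
    rw [← hs]
    have e1 : ∑ j, (FJ R ⟨t (e j), h, Qu, τ (e j), σ (e j), k⟩).Q = ∑ j, (FJ R (T (e j))).Q := rfl
    have e2 : (multiJet W (fun j => ⟨t (e j), h, Qu, τ (e j), σ (e j), k⟩)).Q = w e := rfl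
    rw [e1, e2] at this
    linarith
  -- bad embeddings
  set G := P + X + Z with hGd
  set S := P ^ 2 + Y + B ^ 2 with hSd
  have hG0 : 0 ≤ G := by positivity
  have hS0 : 0 ≤ S := by positivity
  set Th := P ^ 4 + B ^ 4 + X ^ 4 + Z ^ 4 + Y ^ 2 with hTh
  have hTh0 : 0 ≤ Th := by positivity
  have hwt : ∀ i, Real.exp (-(t i / (8 * R))) * ‖τ i‖ ≤ G := by
    intro i
    by_cases hi : i ∈ D
    · have := (hdeep i hi).2.1
      linarith
    · have h1 := hX i (Finset.mem_compl.2 hi)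
      have h2 : ‖τ i‖ ≤ X + Z := by
        calc ‖τ i‖ = ‖(τ i - τ i₀) + τ i₀‖ := by congr 1; ring
          _ ≤ X + Z := (norm_add_le _ _).trans (add_le_add h1 hτ)
      have h3 : Real.exp (-(t i / (8 * R))) ≤ 1 := by
        rw [Real.exp_le_one_iff]
        have : 0 ≤ t i / (8 * R) := div_nonneg (ht i) (by positivity)
        linarith
      have h4 := mul_le_of_le_one_left (norm_nonneg (τ i)) h3
      linarith
  have hws : ∀ i, Real.exp (-(t i / (4 * R))) * ‖σ i‖ ≤ S := by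
    intro i
    by_cases hi : i ∈ D
    · have := (hdeep i hi).2.2
      have : 0 ≤ B ^ 2 := by positivity
      linarith
    · have h1 := hY i (Finset.mem_compl.2 hi)
      have h2 : ‖σ i‖ ≤ Y + B ^ 2 := by
        calc ‖σ i‖ = ‖(σ i - σ i₀) + σ i₀‖ := by congr 1; ring
          _ ≤ Y + B ^ 2 := (norm_add_le _ _).trans (add_le_add h1 (hσ.trans hB2))
      have h3 : Real.exp (-(t i / (4 * R))) ≤ 1 := by
        rw [Real.exp_le_one_iff]
        have : 0 ≤ t i / (4 * R) := div_nonneg (ht i) (by positivity)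
        linarith
      have h4 := mul_le_of_le_one_left (norm_nonneg (σ i)) h3
      have h5 : 0 ≤ P ^ 2 := by positivity
      linarith
  have hG4 : G ^ 4 ≤ 81 * (P ^ 4 + X ^ 4 + Z ^ 4) := pow3_le hP hX0 hZ0
  have hS2 : S ^ 2 ≤ 3 * (P ^ 4 + Y ^ 2 + B ^ 4) := by
    have := pow3_le' (a := P ^ 2) (b := Y) (c := B ^ 2)
    refine this.trans (le_of_eq ?_)
    ring
  have hbnd : 8 * G ^ 4 + 2 * S ^ 2 + 8 * B ^ 4 + Qu ≤ 700 * (Th + Qu) := by
    have e1 : 0 ≤ P ^ 4 := by positivity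
    have e2 : 0 ≤ X ^ 4 := by positivity
    have e3 : 0 ≤ Z ^ 4 := by positivity
    have e4 : 0 ≤ B ^ 4 := by positivity
    have e5 : 0 ≤ Y ^ 2 := by positivity
    linarith
  set bad := Finset.univ.filter fun e : Fin p ↪ Fin (2 * n + 1) => ¬ ∀ j, e j ∉ D with hbad
  have hBad : ∀ e ∈ bad, -(p ^ 4 * C2 * 700 * (δ * (Th + Qu))) ≤ w e := by
    intro e he
    have he' := (Finset.mem_filter.1 he).2
    push Not at he'
    obtain ⟨j1, hj1⟩ := he'
    have hx : ∀ j, 0 ≤ t (e j) := fun j => ht _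
    have := bad_term (x := fun j => t (e j)) (a := fun j => τ (e j)) (b := fun j => σ (e j))
      (h := h) (k := k) (Qu := Qu) (δ := δ) (G := G) (S := S) (B := B) hR hC20 hx
      (contDiffAt_infty.1 (hM.smooth _ hx) 4)
      (fun m hm => (hC1 _ hx m hm).trans (mul_le_mul_of_nonneg_right (le_max_left _ _)
        (Real.exp_pos _).le)) hG0 hS0 hB ⟨j1, (hdeep _ hj1).1⟩ (fun j => hwt _) (fun j => hws _)
      hhB hkB hQu0
    refine le_trans ?_ this
    have h1 := mul_le_mul_of_nonneg_left hbnd (by positivity : 0 ≤ (p : ℝ) ^ 4 * (C2 * δ))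
    linarith
  -- deep coordinates
  have hDt : -(m * (5 + R) * (δ * (Th + Qu))) ≤ ∑ i ∈ D, (FJ R (T i)).Q := by
    have h1 : ∀ i ∈ D, -((5 + R) * (δ * (Th + Qu))) ≤ (FJ R (T i)).Q := by
      intro i hi
      have := dterm (t := t i) (τ := τ i) (σ := σ i) (h := h) (k := k) (Qu := Qu) hR (ht i) hδ1
        (hdeep i hi).1 (hdeep i hi).2.1 hB hhB hkB hQu0
      refine le_trans ?_ this
      have e1 : P ^ 4 + B ^ 4 ≤ Th := by
        have e2 : 0 ≤ X ^ 4 := by positivity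
        have e3 : 0 ≤ Z ^ 4 := by positivity
        have e5 : 0 ≤ Y ^ 2 := by positivity
        linarith
      have e2 := mul_le_mul_of_nonneg_left e1 hδ
      have e3 : 0 ≤ R * (δ * Th) := by positivity
      have e4 : 0 ≤ δ * Qu := by positivity
      have e5 : (5 + R) * (δ * (Th + Qu)) = 5 * (δ * Th) + R * (δ * Th) + 5 * (δ * Qu) +
        R * (δ * Qu) := by ring
      rw [e5]
      linarith
    have h2 := Finset.sum_le_sum h1
    refine le_trans (le_of_eq ?_) h2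
    rw [Finset.sum_const, hDm, nsmul_eq_mul]
    ring
  -- assembly
  have hpf : (0 : ℝ) < p.factorial := by exact_mod_cast Nat.factorial_pos p
  have hpf1 : (1 : ℝ) ≤ p.factorial := by exact_mod_cast Nat.factorial_pos p
  have hsplit : ∑ e, w e = ∑ e ∈ good, w e + ∑ e ∈ bad, w e :=
    (Finset.sum_filter_add_sum_filter_not _ _ _).symm
  have hgs : p.factorial * (M + p * F1 R 0 * Qu - ∑ i ∈ Dᶜ, (FJ R (T i)).Q) ≤
      ∑ e ∈ good, w e := by
    have := Finset.sum_le_sum hG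
    rw [Finset.sum_const, card_good D hDc, nsmul_eq_mul] at this
    exact this
  have hbs : -(Ne * (p ^ 4 * C2 * 700 * (δ * (Th + Qu)))) ≤ ∑ e ∈ bad, w e := by
    have := Finset.sum_le_sum hBad
    rw [Finset.sum_const, nsmul_eq_mul] at this
    refine le_trans ?_ this
    have h1 : (bad.card : ℝ) ≤ Ne := by
      rw [hNe]
      exact_mod_cast (Finset.card_le_univ bad)
    have h2 : 0 ≤ p ^ 4 * C2 * 700 * (δ * (Th + Qu)) := by positivity
    have h3 := mul_le_mul_of_nonneg_right h1 h2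
    linarith
  have hQG : QG p R W t τ σ h k Qu = -(p * F1 R 0) * Qu + (∑ i ∈ D, (FJ R (T i)).Q +
      ∑ i ∈ Dᶜ, (FJ R (T i)).Q) + 1 / (p.factorial : ℝ) * (∑ e ∈ good, w e + ∑ e ∈ bad, w e) := by
    rw [← hsplit, Finset.sum_add_sum_compl]
    rfl
  have hg' : M + p * F1 R 0 * Qu - ∑ i ∈ Dᶜ, (FJ R (T i)).Q ≤
      1 / (p.factorial : ℝ) * ∑ e ∈ good, w e := by
    rw [one_div, inv_mul_eq_div, le_div_iff₀ hpf]
    linarith
  have hb' : -(Ne * (p ^ 4 * C2 * 700 * (δ * (Th + Qu)))) ≤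
      1 / (p.factorial : ℝ) * ∑ e ∈ bad, w e := by
    rw [one_div, inv_mul_eq_div, le_div_iff₀ hpf]
    refine le_trans ?_ hbs
    have h2 : 0 ≤ Ne * (p ^ 4 * C2 * 700 * (δ * (Th + Qu))) := by positivity
    have h3 := le_mul_of_one_le_right h2 hpf1
    linarith
  have hmain : M - Ct * δ * (Th + Qu) ≤ QG p R W t τ σ h k Qu := by
    rw [hQG, mul_add]
    have e1 : Ct * δ * (Th + Qu) = Ne * (p ^ 4 * C2 * 700 * (δ * (Th + Qu))) +
        m * (5 + R) * (δ * (Th + Qu)) + δ * (Th + Qu) := by rw [hCt]; ring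
    have e2 : 0 ≤ δ * (Th + Qu) := by positivity
    linarith
  refine le_trans ?_ hmain
  have hiX4 : ‖τ i - τ i₀‖ ^ 4 ≤ X ^ 4 :=
    pow_le_pow_left₀ (norm_nonneg _) (hX i (Finset.mem_compl.2 hi)) 4
  have hjY2 : ‖σ j - σ i₀‖ ^ 2 ≤ Y ^ 2 :=
    pow_le_pow_left₀ (norm_nonneg _) (hY j (Finset.mem_compl.2 hj)) 2
  have hq : Ct * δ * Qu ≤ ca / 2 * ρ ^ 3 * Qu := by
    refine mul_le_mul_of_nonneg_right (hCδ'.trans ?_) hQu0
    exact mul_le_mul_of_nonneg_left (pow_le_pow_left₀ hlam.le hlρ 3) (by positivity)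
  have hx : Ct * δ * (X ^ 4 + Z ^ 4 + Y ^ 2) ≤ 1 / 64 * (X ^ 4 + Z ^ 4 + Y ^ 2) :=
    mul_le_mul_of_nonneg_right hCδ (by positivity)
  have e2 : 0 ≤ X ^ 4 := by positivity
  have e3 : 0 ≤ Z ^ 4 := by positivity
  have e5 : Ct * δ * (Th + Qu) = Ct * δ * (P ^ 4 + B ^ 4) + Ct * δ * (X ^ 4 + Z ^ 4 + Y ^ 2) +
      Ct * δ * Qu := by rw [hTh]; ring
  rw [e5]
  linarith

end

end Pool.Agent.H789.HSC
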