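import Pool.Agent.H789.HSC.A12d

/-! Recursion step, case A2: exactly `m` deep coordinates, all others within `M₁ lam`. -/

open scoped BigOperators ContDiff ComplexConjugate Topology

namespace Pool.Agent.H789.HSC

noncomputable section

namespace A2aux

theorem four_pow (a b c d : ℝ) :
    (a + b + c + d) ^ 4 ≤ 64 * (a ^ 4 + b ^ 4 + c ^ 4 + d ^ 4) := by
  have h1 : (a + b + c + d) ^ 2 ≤ 4 * (a ^ 2 + b ^ 2 + c ^ 2 + d ^ 2) := by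
    nlinarith [sq_nonneg (a - b), sq_nonneg (a - c), sq_nonneg (a - d), sq_nonneg (b - c),
      sq_nonneg (b - d), sq_nonneg (c - d)]
  have h2 : (a ^ 2 + b ^ 2 + c ^ 2 + d ^ 2) ^ 2 ≤ 4 * (a ^ 4 + b ^ 4 + c ^ 4 + d ^ 4) := by
    nlinarith [sq_nonneg (a ^ 2 - b ^ 2), sq_nonneg (a ^ 2 - c ^ 2), sq_nonneg (a ^ 2 - d ^ 2),
      sq_nonneg (b ^ 2 - c ^ 2), sq_nonneg (b ^ 2 - d ^ 2), sq_nonneg (c ^ 2 - d ^ 2)]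
  have h3 : (a + b + c + d) ^ 4 = ((a + b + c + d) ^ 2) ^ 2 := by ring
  rw [h3]
  have h4 : ((a + b + c + d) ^ 2) ^ 2 ≤ (4 * (a ^ 2 + b ^ 2 + c ^ 2 + d ^ 2)) ^ 2 := by
    gcongr
  nlinarith

theorem three_pow {a b c : ℝ} : (a + b + c) ^ 4 ≤ 27 * (a ^ 4 + b ^ 4 + c ^ 4) := by
  have h1 : (a + b + c) ^ 2 ≤ 3 * (a ^ 2 + b ^ 2 + c ^ 2) := by
    nlinarith [sq_nonneg (a - b), sq_nonneg (a - c), sq_nonneg (b - c)]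
  have h2 : (a ^ 2 + b ^ 2 + c ^ 2) ^ 2 ≤ 3 * (a ^ 4 + b ^ 4 + c ^ 4) := by
    nlinarith [sq_nonneg (a ^ 2 - b ^ 2), sq_nonneg (a ^ 2 - c ^ 2),
      sq_nonneg (b ^ 2 - c ^ 2)]
  have h3 : (a + b + c) ^ 4 = ((a + b + c) ^ 2) ^ 2 := by ring
  rw [h3]
  have h4 : ((a + b + c) ^ 2) ^ 2 ≤ (3 * (a ^ 2 + b ^ 2 + c ^ 2)) ^ 2 := by
    gcongr
  nlinarith

theorem two_pow (a b : ℝ) : (a + b) ^ 4 ≤ 8 * (a ^ 4 + b ^ 4) := by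
  have h1 : (a + b) ^ 2 ≤ 2 * (a ^ 2 + b ^ 2) := by
    nlinarith [sq_nonneg (a - b)]
  have h2 : (a ^ 2 + b ^ 2) ^ 2 ≤ 2 * (a ^ 4 + b ^ 4) := by
    nlinarith [sq_nonneg (a ^ 2 - b ^ 2)]
  have h3 : (a + b) ^ 4 = ((a + b) ^ 2) ^ 2 := by ring
  rw [h3]
  have h4 : ((a + b) ^ 2) ^ 2 ≤ (2 * (a ^ 2 + b ^ 2)) ^ 2 := by
    gcongr
  nlinarith

/-- estimate for one avoiding embedding -/
theorem core_A2 {p : ℕ} {K L R r₀ M₁ lam B X Y h Qu : ℝ} {k : ℂ} {W : (Fin p → ℝ) → ℝ}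
    (hR : 1 ≤ R) (hN : NearV p K L R r₀ W) (hK : 0 ≤ K) (hM₁ : 1 ≤ M₁)
    {s : Fin p → ℝ} (hW : ContDiffAt ℝ (5 : ℕ) W s) (hlam : 0 < lam) (hlam1 : lam ≤ 1)
    (hρr : M₁ * lam ≤ r₀) (hs0 : ∀ i, 0 ≤ s i) (hs : ∀ i, s i ≤ M₁ * lam) {τ σ : Fin p → ℂ}
    (hB : 0 ≤ B) (j₀ : Fin p)
    (hX : ∀ i, ‖τ i - τ j₀‖ ≤ X) (hY : ∀ i, ‖σ i - σ j₀‖ ≤ Y) (hZ : ‖τ j₀‖ ≤ lam * B)
    (hE : ‖σ j₀‖ ≤ lam * B ^ 2)
    (hh : |h| ≤ lam * B ^ 2) (hk : ‖k‖ ≤ lam * B ^ 3) (hQ : |Qu| ≤ lam * B ^ 4) (i j : Fin p)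
    (hi : ‖τ i - τ j₀‖ = X) (hj : ‖σ j - σ j₀‖ = Y) :
    L * X ^ 4 + 3 / 64 * Y ^ 2
      - (18 * ((p : ℝ) ^ 3 * K * M₁ ^ 3) + 576 * ((p : ℝ) ^ 3 * K * M₁ ^ 3) ^ 2)
        * (X + lam * B) ^ 4
      ≤ A12.coreQ R W s τ σ h k Qu := by
  have hX0 : 0 ≤ X := (norm_nonneg _).trans (hX j₀)
  have hY0 : 0 ≤ Y := (norm_nonneg _).trans (hY j₀)
  have hp : (1 : ℝ) ≤ p := by
    have : 0 < p := lt_of_le_of_lt (Nat.zero_le _) j₀.2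
    exact_mod_cast this
  have hp3 : (1 : ℝ) ≤ (p : ℝ) ^ 3 := one_le_pow₀ hp
  have hρ : 0 ≤ M₁ * lam := by positivity
  have hs' : ∀ i, |s i| ≤ M₁ * lam := fun i => by rw [abs_of_nonneg (hs0 i)]; exact hs i
  have key := A12.core_lower hR hN hK hW hρ hρr hs' (τ := τ) (σ := σ) Qu j₀ hX hY hZ hE hh hk i j
  rw [hi, hj] at key
  refine le_trans ?_ key
  obtain ⟨hA, -⟩ := hN.a0 s (M₁ * lam) hρ hρr hs'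
  set Z := lam * B with hZd
  have hZ0 : 0 ≤ Z := by positivity
  set S := X + Z with hS
  have hS0 : 0 ≤ S := by positivity
  have hZS : Z ≤ S := by linarith
  have e1 : |aV R W s * Qu| ≤ K * M₁ ^ 3 * Z ^ 4 := by
    rw [abs_mul]
    calc |aV R W s| * |Qu| ≤ (K * (M₁ * lam) ^ 3) * (lam * B ^ 4) := by gcongr
      _ = K * M₁ ^ 3 * Z ^ 4 := by rw [hZd]; ring
  have e1' := neg_le_of_abs_le e1
  have e2 : (p : ℝ) ^ 3 * K * (4 * Z * S ^ 3 + 6 * (M₁ * lam) * (lam * B ^ 2) * S ^ 2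
      + 4 * (M₁ * lam) * Z * Y * S + (M₁ * lam) ^ 2 * (2 * (lam * B ^ 2) * Y + 3 * (lam * B ^ 2) ^ 2)
      + 4 * (M₁ * lam) ^ 2 * (lam * B ^ 3) * S)
      = (p : ℝ) ^ 3 * K * (4 * Z * S ^ 3 + 6 * M₁ * Z ^ 2 * S ^ 2
      + 4 * M₁ * lam * Z * Y * S + (2 * M₁ ^ 2 * lam * Z ^ 2 * Y + 3 * M₁ ^ 2 * Z ^ 4)
      + 4 * M₁ ^ 2 * Z ^ 3 * S) := by
    rw [hZd]; ring
  rw [e2]
  have m1 : M₁ ≤ M₁ ^ 3 := by
    calc M₁ = M₁ ^ 1 := (pow_one _).symm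
      _ ≤ _ := pow_le_pow_right₀ hM₁ (by norm_num)
  have m2 : M₁ ^ 2 ≤ M₁ ^ 3 := pow_le_pow_right₀ hM₁ (by norm_num)
  have m0 : 1 ≤ M₁ ^ 3 := one_le_pow₀ hM₁
  have e3 : 4 * Z * S ^ 3 + 6 * M₁ * Z ^ 2 * S ^ 2
      + 4 * M₁ * lam * Z * Y * S + (2 * M₁ ^ 2 * lam * Z ^ 2 * Y + 3 * M₁ ^ 2 * Z ^ 4)
      + 4 * M₁ ^ 2 * Z ^ 3 * S ≤ M₁ ^ 3 * (17 * S ^ 4 + 6 * S ^ 2 * Y) := by
    calc _ ≤ 4 * S * S ^ 3 + 6 * M₁ * S ^ 2 * S ^ 2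
      + 4 * M₁ * 1 * S * Y * S + (2 * M₁ ^ 2 * 1 * S ^ 2 * Y + 3 * M₁ ^ 2 * S ^ 4)
      + 4 * M₁ ^ 2 * S ^ 3 * S := by gcongr
      _ = 4 * 1 * S ^ 4 + 6 * M₁ * S ^ 4 + 4 * M₁ * S ^ 2 * Y + 2 * M₁ ^ 2 * S ^ 2 * Y
          + 7 * M₁ ^ 2 * S ^ 4 := by ring
      _ ≤ 4 * M₁ ^ 3 * S ^ 4 + 6 * M₁ ^ 3 * S ^ 4 + 4 * M₁ ^ 3 * S ^ 2 * Y
          + 2 * M₁ ^ 3 * S ^ 2 * Y + 7 * M₁ ^ 3 * S ^ 4 := by gcongr
      _ = _ := by ring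
  set Q := (p : ℝ) ^ 3 * K * M₁ ^ 3 with hQd
  have hQ0 : 0 ≤ Q := by positivity
  have e4 : (p : ℝ) ^ 3 * K * (4 * Z * S ^ 3 + 6 * M₁ * Z ^ 2 * S ^ 2
      + 4 * M₁ * lam * Z * Y * S + (2 * M₁ ^ 2 * lam * Z ^ 2 * Y + 3 * M₁ ^ 2 * Z ^ 4)
      + 4 * M₁ ^ 2 * Z ^ 3 * S) ≤ Q * (17 * S ^ 4 + 6 * S ^ 2 * Y) := by
    calc _ ≤ (p : ℝ) ^ 3 * K * (M₁ ^ 3 * (17 * S ^ 4 + 6 * S ^ 2 * Y)) := by gcongr
      _ = _ := by rw [hQd]; ring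
  have e5 : K * M₁ ^ 3 * Z ^ 4 ≤ Q * S ^ 4 := by
    calc K * M₁ ^ 3 * Z ^ 4 = 1 * K * M₁ ^ 3 * Z ^ 4 := by ring
      _ ≤ (p : ℝ) ^ 3 * K * M₁ ^ 3 * S ^ 4 := by gcongr
  have e6 : Q * (6 * S ^ 2 * Y) ≤ Y ^ 2 / 64 + 576 * Q ^ 2 * S ^ 4 := by
    have h1 : Y ^ 2 / 64 + 576 * Q ^ 2 * S ^ 4 - Q * (6 * S ^ 2 * Y)
        = (Y / 8 - 24 * Q * S ^ 2) ^ 2 := by ring
    have h2 := sq_nonneg (Y / 8 - 24 * Q * S ^ 2)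
    linarith
  clear_value Z S Q
  linarith

/-- numerical assembly -/
theorem num_A2 {C1 C2 KU lam lam₀ δ δ₀ B P X Y N L : ℝ} (hC10 : 0 ≤ C1) (hC20 : 0 ≤ C2)
    (hKU : 0 ≤ KU) (hlam : 0 < lam) (hlam1 : lam ≤ 1) (hlam₀ : lam ≤ lam₀) (hδ : 0 ≤ δ)
    (hδδ : δ ≤ δ₀ * lam ^ 4) (hδ₀0 : 0 < δ₀) (hδ₀1 : δ₀ ≤ 1) (hδ₀2 : 64 * C2 * δ₀ ≤ 1 / 128)
    (hB : 0 ≤ B) (hP : 0 ≤ P) (hX0 : 0 ≤ X) (hY0 : 0 ≤ Y)
    (hZb : lam * B ≤ KU * (X + Real.sqrt (lam * Y)) + δ * P)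
    (hN : N = P + X + B + Real.sqrt Y)
    (hL : 8 * C1 + 2 + 27 * (8 * C1 + 1) * KU ^ 4 ≤ L)
    (hl₀ : lam₀ = 1 / (1 + 128 * (27 * (8 * C1 + 1) * KU ^ 4))) :
    X ^ 4 + Y ^ 2 / 64 - (27 * (8 * C1 + 1) + 64 * C2) * δ * P ^ 4
      ≤ L * X ^ 4 + 3 / 64 * Y ^ 2 - C1 * (X + lam * B) ^ 4 - C2 * δ * N ^ 4 := by
  have hsY2 : Real.sqrt Y ^ 2 = Y := Real.sq_sqrt hY0
  obtain ⟨V, hV⟩ : ∃ V, V = 27 * (8 * C1 + 1) * KU ^ 4 := ⟨_, rfl⟩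
  rw [← hV] at hL hl₀
  have hV0 : 0 ≤ V := by rw [hV]; positivity
  obtain ⟨Z, hZd⟩ : ∃ Z, Z = lam * B := ⟨_, rfl⟩
  rw [← hZd] at hZb ⊢
  have hZ0 : 0 ≤ Z := by rw [hZd]; positivity
  have s1 : (X + Z) ^ 4 ≤ 8 * (X ^ 4 + Z ^ 4) := two_pow X Z
  have hlY : Real.sqrt (lam * Y) ^ 4 = lam ^ 2 * Y ^ 2 := by
    have : Real.sqrt (lam * Y) ^ 2 = lam * Y := Real.sq_sqrt (by positivity)
    calc Real.sqrt (lam * Y) ^ 4 = (Real.sqrt (lam * Y) ^ 2) ^ 2 := by ring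
      _ = _ := by rw [this]; ring
  have s2 : Z ^ 4 ≤ 27 * (KU ^ 4 * X ^ 4 + KU ^ 4 * (lam ^ 2 * Y ^ 2) + δ ^ 4 * P ^ 4) := by
    calc Z ^ 4 ≤ (KU * X + KU * Real.sqrt (lam * Y) + δ * P) ^ 4 := by
          have : Z ≤ KU * X + KU * Real.sqrt (lam * Y) + δ * P := by linarith
          gcongr
      _ ≤ 27 * ((KU * X) ^ 4 + (KU * Real.sqrt (lam * Y)) ^ 4 + (δ * P) ^ 4) := three_pow
      _ = _ := by rw [mul_pow, mul_pow, mul_pow, hlY]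
  have s3 : N ^ 4 ≤ 64 * (P ^ 4 + X ^ 4 + B ^ 4 + Y ^ 2) := by
    calc N ^ 4 ≤ 64 * (P ^ 4 + X ^ 4 + B ^ 4 + Real.sqrt Y ^ 4) := by rw [hN]; exact four_pow _ _ _ _
      _ = _ := by
        rw [show Real.sqrt Y ^ 4 = (Real.sqrt Y ^ 2) ^ 2 by ring, hsY2]
  have hlam4 : lam ^ 4 ≤ 1 := pow_le_one₀ hlam.le hlam1
  have hδ1 : δ ≤ δ₀ := hδδ.trans (by
    calc δ₀ * lam ^ 4 ≤ δ₀ * 1 := by gcongr
      _ = δ₀ := mul_one _)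
  have hδle1 : δ ≤ 1 := hδ1.trans hδ₀1
  have s4 : δ * B ^ 4 ≤ δ₀ * Z ^ 4 := by
    calc δ * B ^ 4 ≤ (δ₀ * lam ^ 4) * B ^ 4 := by gcongr
      _ = _ := by rw [hZd]; ring
  have s5 : δ ^ 4 ≤ δ := by
    calc δ ^ 4 = δ ^ 3 * δ := by ring
      _ ≤ 1 * δ := by
        have : δ ^ 3 ≤ 1 := pow_le_one₀ hδ hδle1
        gcongr
      _ = δ := one_mul _
  have s6 : C2 * δ * N ^ 4 ≤ 64 * C2 * δ * P ^ 4 + X ^ 4 / 128 + Z ^ 4 / 128 + Y ^ 2 / 128 := by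
    calc C2 * δ * N ^ 4 ≤ C2 * δ * (64 * (P ^ 4 + X ^ 4 + B ^ 4 + Y ^ 2)) := by gcongr
      _ = 64 * C2 * δ * P ^ 4 + 64 * C2 * δ * X ^ 4 + 64 * C2 * (δ * B ^ 4)
          + 64 * C2 * δ * Y ^ 2 := by ring
      _ ≤ 64 * C2 * δ * P ^ 4 + 64 * C2 * δ₀ * X ^ 4 + 64 * C2 * (δ₀ * Z ^ 4)
          + 64 * C2 * δ₀ * Y ^ 2 := by gcongr
      _ = 64 * C2 * δ * P ^ 4 + 64 * C2 * δ₀ * X ^ 4 + 64 * C2 * δ₀ * Z ^ 4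
          + 64 * C2 * δ₀ * Y ^ 2 := by ring
      _ ≤ 64 * C2 * δ * P ^ 4 + 1 / 128 * X ^ 4 + 1 / 128 * Z ^ 4
          + 1 / 128 * Y ^ 2 := by gcongr
      _ = _ := by ring
  have s7 : V * lam ^ 2 ≤ 1 / 128 := by
    have h1 : lam ^ 2 ≤ lam₀ := by
      calc lam ^ 2 = lam * lam := by ring
        _ ≤ 1 * lam₀ := by gcongr
        _ = _ := one_mul _
    calc V * lam ^ 2 ≤ V * lam₀ := by gcongr
      _ = V / (1 + 128 * V) := by rw [hl₀]; ring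
      _ ≤ 1 / 128 := by
        rw [div_le_div_iff₀ (by positivity) (by norm_num)]; linarith
  have s8 : (8 * C1 + 1) * Z ^ 4 ≤ V * X ^ 4 + Y ^ 2 / 128 + 27 * (8 * C1 + 1) * δ * P ^ 4 := by
    calc (8 * C1 + 1) * Z ^ 4
        ≤ (8 * C1 + 1) * (27 * (KU ^ 4 * X ^ 4 + KU ^ 4 * (lam ^ 2 * Y ^ 2) + δ ^ 4 * P ^ 4)) := by
          gcongr
      _ = V * X ^ 4 + (V * lam ^ 2) * Y ^ 2 + 27 * (8 * C1 + 1) * δ ^ 4 * P ^ 4 := by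
          rw [hV]; ring
      _ ≤ V * X ^ 4 + 1 / 128 * Y ^ 2 + 27 * (8 * C1 + 1) * δ * P ^ 4 := by gcongr
      _ = _ := by ring
  have s9 : C1 * (X + Z) ^ 4 ≤ 8 * C1 * X ^ 4 + 8 * C1 * Z ^ 4 := by
    calc C1 * (X + Z) ^ 4 ≤ C1 * (8 * (X ^ 4 + Z ^ 4)) := by gcongr
      _ = _ := by ring
  have hX4 : 0 ≤ X ^ 4 := by positivity
  have hZ4 : 0 ≤ Z ^ 4 := by positivity
  have hY2 : 0 ≤ Y ^ 2 := by positivity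
  have s10 : (8 * C1 + 2 + V) * X ^ 4 ≤ L * X ^ 4 := by gcongr
  linarith [s6, s8, s9, s10]

end A2aux

open A2aux in
/-- Case A2: exactly `m` deep coordinates, all others within `M₁ lam`, `u` only bounded. -/
theorem caseA2 {p : ℕ} (hp2 : 2 ≤ p) {K KU M₁ : ℝ} (hK : 0 ≤ K) (hKU : 0 ≤ KU) (hM₁ : 1 ≤ M₁) :
    ∃ L₂ : ℝ, 1 ≤ L₂ ∧
    ∀ {n m : ℕ}, p + m = 2 * n + 1 → ∀ (kk : ℕ) (ca Ca L L' R r₀ : ℝ) (W : (Fin p → ℝ) → ℝ),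
      IsModel p kk ca Ca L' R W → NearV p K L R r₀ W → L₂ ≤ L →
    ∃ C lam₀ δ₀ : ℝ, 0 ≤ C ∧ 0 < lam₀ ∧ 0 < δ₀ ∧
    ∀ (lam δ B P X Y h Qu : ℝ) (k : ℂ) (t : Fin (2 * n + 1) → ℝ) (τ σ : Fin (2 * n + 1) → ℂ)
      (D : Finset (Fin (2 * n + 1))) (i₀ : Fin (2 * n + 1)),
      0 < lam → lam ≤ lam₀ → 0 ≤ δ → δ ≤ δ₀ * lam ^ 4 → 0 ≤ B → 0 ≤ P → (∀ i, 0 ≤ t i) →
      D.card = m → i₀ ∉ D →
      (∀ i ∈ D, Real.exp (-(t i / (2 * R))) ≤ δ ∧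
        Real.exp (-(t i / (8 * R))) * ‖τ i‖ ≤ P ∧ Real.exp (-(t i / (4 * R))) * ‖σ i‖ ≤ P ^ 2) →
      (∀ i, i ∉ D → t i ≤ M₁ * lam) → M₁ * lam ≤ r₀ →
      (∀ i, i ∉ D → ‖τ i - τ i₀‖ ≤ X ∧ ‖σ i - σ i₀‖ ≤ Y) →
      (∃ i, i ∉ D ∧ ‖τ i - τ i₀‖ = X) → (∃ i, i ∉ D ∧ ‖σ i - σ i₀‖ = Y) →
      ‖τ i₀‖ ≤ lam * B → ‖σ i₀‖ ≤ lam * B ^ 2 → |h| ≤ lam * B ^ 2 → ‖k‖ ≤ lam * B ^ 3 →
      |Qu| ≤ lam * B ^ 4 → lam * B ≤ KU * (X + Real.sqrt (lam * Y)) + δ * P →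
        X ^ 4 + Y ^ 2 / 64 - C * δ * P ^ 4 ≤ QG p R W t τ σ h k Qu := by
  set Q := (p : ℝ) ^ 3 * K * M₁ ^ 3 with hQd
  have hQ0 : 0 ≤ Q := by positivity
  set C1 := 18 * Q + 576 * Q ^ 2 with hC1
  have hC10 : 0 ≤ C1 := by positivity
  set V := 27 * (8 * C1 + 1) * KU ^ 4 with hV
  have hV0 : 0 ≤ V := by positivity
  refine ⟨8 * C1 + 2 + V, by linarith, ?_⟩
  intro n m hpm kk ca Ca L L' R r₀ W hM hN hL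
  obtain ⟨Ch, hCh0, hCh⟩ := A12.hit_bound hM
  have hR := hM.hR
  have hR0 : 0 < R := by positivity
  set C2 : ℝ := m * (R + 8) + (Fintype.card (Fin p ↪ Fin (2 * n + 1))) * Ch with hC2
  have hC20 : 0 ≤ C2 := by positivity
  set lam₀ : ℝ := 1 / (1 + 128 * V) with hl₀
  have hl₀0 : 0 < lam₀ := by positivity
  have hl₀1 : lam₀ ≤ 1 := by
    rw [hl₀, div_le_one (by positivity)]; linarith
  set δ₀ : ℝ := 1 / (8192 * (1 + C2)) with hδ₀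
  have hδ₀0 : 0 < δ₀ := by positivity
  have hδ₀2 : 64 * C2 * δ₀ ≤ 1 / 128 := by
    rw [hδ₀, mul_one_div, div_le_div_iff₀ (by positivity) (by norm_num)]
    linarith
  have hδ₀1 : δ₀ ≤ 1 := by
    rw [hδ₀, div_le_one (by positivity)]; linarith
  refine ⟨27 * (8 * C1 + 1) + 64 * C2, lam₀, δ₀, by positivity, hl₀0, hδ₀0, ?_⟩
  intro lam δ B P X Y h Qu k t τ σ D i₀ hlam hlam₀ hδ hδδ hB hP ht hD hi₀ hDb htM hMr hXY hXe hYe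
    hτ₀ hσ₀ hh hk hQ hZb
  have hlam1 : lam ≤ 1 := hlam₀.trans hl₀1
  obtain ⟨iX, hiX, hiXe⟩ := hXe
  obtain ⟨iY, hiY, hiYe⟩ := hYe
  have hX0 : 0 ≤ X := by rw [← hiXe]; exact norm_nonneg _
  have hY0 : 0 ≤ Y := by rw [← hiYe]; exact norm_nonneg _
  set Z := lam * B with hZd
  have hZ0 : 0 ≤ Z := by positivity
  have hZB : Z ≤ B := mul_le_of_le_one_left hB hlam1
  set N := P + X + B + Real.sqrt Y with hNd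
  have hsY : 0 ≤ Real.sqrt Y := Real.sqrt_nonneg _
  have hsY2 : Real.sqrt Y ^ 2 = Y := Real.sq_sqrt hY0
  have hN0 : 0 ≤ N := by positivity
  have hPN : P ≤ N := by linarith
  have hBN : B ≤ N := by linarith
  have hXBN : X + B ≤ N := by linarith
  have hYB : Y + B ^ 2 ≤ N ^ 2 := by
    calc Y + B ^ 2 = Real.sqrt Y ^ 2 + B ^ 2 := by rw [hsY2]
      _ ≤ (Real.sqrt Y + B) ^ 2 := by nlinarith
      _ ≤ N ^ 2 := by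
        have : Real.sqrt Y + B ≤ N := by linarith
        gcongr
  have hhN : |h| ≤ N ^ 2 := by
    calc |h| ≤ lam * B ^ 2 := hh
      _ ≤ 1 * N ^ 2 := by gcongr
      _ = _ := one_mul _
  have hkN : ‖k‖ ≤ N ^ 3 := by
    calc ‖k‖ ≤ lam * B ^ 3 := hk
      _ ≤ 1 * N ^ 3 := by gcongr
      _ = _ := one_mul _
  have hQN : |Qu| ≤ N ^ 4 := by
    calc |Qu| ≤ lam * B ^ 4 := hQ
      _ ≤ 1 * N ^ 4 := by gcongr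
      _ = _ := one_mul _
  -- bounds of all coordinates
  have hall : ∀ i, Real.exp (-(t i / (8 * R))) * ‖τ i‖ ≤ N ∧
      Real.exp (-(t i / (4 * R))) * ‖σ i‖ ≤ N ^ 2 := by
    intro i
    by_cases hi : i ∈ D
    · obtain ⟨-, h1, h2⟩ := hDb i hi
      refine ⟨h1.trans hPN, h2.trans ?_⟩
      gcongr
    · obtain ⟨h1, h2⟩ := hXY i hi
      have x1 : Real.exp (-(t i / (8 * R))) ≤ 1 := by
        rw [Real.exp_le_one_iff]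
        have : 0 ≤ t i / (8 * R) := div_nonneg (ht i) (by positivity)
        linarith
      have x2 : Real.exp (-(t i / (4 * R))) ≤ 1 := by
        rw [Real.exp_le_one_iff]
        have : 0 ≤ t i / (4 * R) := div_nonneg (ht i) (by positivity)
        linarith
      have y1 : ‖τ i‖ ≤ X + B := by
        calc ‖τ i‖ = ‖(τ i - τ i₀) + τ i₀‖ := by rw [sub_add_cancel]
          _ ≤ _ := (norm_add_le _ _).trans (add_le_add h1 (hτ₀.trans hZB))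
      have y2 : ‖σ i‖ ≤ Y + B ^ 2 := by
        calc ‖σ i‖ = ‖(σ i - σ i₀) + σ i₀‖ := by rw [sub_add_cancel]
          _ ≤ ‖σ i - σ i₀‖ + ‖σ i₀‖ := norm_add_le _ _
          _ ≤ Y + lam * B ^ 2 := add_le_add h2 hσ₀
          _ ≤ Y + 1 * B ^ 2 := by gcongr
          _ = _ := by ring
      constructor
      · calc Real.exp (-(t i / (8 * R))) * ‖τ i‖ ≤ 1 * (X + B) := by gcongr
          _ ≤ N := by rw [one_mul]; exact hXBN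
      · calc Real.exp (-(t i / (4 * R))) * ‖σ i‖ ≤ 1 * (Y + B ^ 2) := by gcongr
          _ ≤ N ^ 2 := by rw [one_mul]; exact hYB
  have hsm' : ∀ (e : Fin p ↪ Fin (2 * n + 1)) (l : ℕ),
      ContDiffAt ℝ l W (fun j => t (e j)) := fun e l =>
    (hM.smooth (fun j => t (e j)) (fun j => ht (e j))).of_le (by exact_mod_cast le_top)
  have hsm : ∀ e : Fin p ↪ Fin (2 * n + 1),
      ContDiffAt ℝ (5 : ℕ) W (fun j => t (e j)) := fun e => hsm' e 5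
  have hb₂ : 0 ≤ Ch * δ * N ^ 4 := mul_nonneg (mul_nonneg hCh0 hδ) (pow_nonneg hN0 4)
  have key := A12.QG_lower (p := p) (q := 2 * n + 1) (m := m) hpm hD (R := R) (W := W) (t := t)
    (τ := τ) (σ := σ) (h := h) (k := k) (Qu := Qu)
    (c := L * X ^ 4 + 3 / 64 * Y ^ 2 - C1 * (X + Z) ^ 4)
    (b₁ := (R + 8) * δ * N ^ 4) (b₂ := Ch * δ * N ^ 4) hb₂
    (fun i hi => A12.FJ_lower hR hN0 (ht i) (hDb i hi).1 (hall i).1 hhN hkN hQN)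
    (fun e he => by
      obtain ⟨j₁, hj₁⟩ := he
      exact neg_le_of_abs_le (hCh (2 * n + 1) t τ σ h k Qu δ N e j₁ hN0 ht (hDb _ hj₁).1
        (fun j => hall (e j)) hhN hkN hQN))
    (fun e he => by
      obtain ⟨j₀, hj₀⟩ := A12.exists_of_avoid hpm hD he hi₀
      obtain ⟨jX, hjX⟩ := A12.exists_of_avoid hpm hD he hiX
      obtain ⟨jY, hjY⟩ := A12.exists_of_avoid hpm hD he hiY
      refine core_A2 hR hN hK hM₁ (hsm e)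
        hlam hlam1 hMr (fun j => ht (e j)) (fun j => htM _ (he j)) hB j₀ ?_ ?_ ?_ ?_ hh hk hQ
        jX jY ?_ ?_
      · intro j; simp only [hj₀]; exact (hXY _ (he j)).1
      · intro j; simp only [hj₀]; exact (hXY _ (he j)).2
      · simp only [hj₀]; exact hτ₀
      · simp only [hj₀]; exact hσ₀
      · simp only [hj₀, hjX]; exact hiXe
      · simp only [hj₀, hjY]; exact hiYe)
  refine le_trans ?_ key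
  have fin := num_A2 hC10 hC20 hKU hlam hlam1 hlam₀ hδ hδδ hδ₀0 hδ₀1 hδ₀2 hB hP hX0 hY0 hZb
    (hNd : N = P + X + B + Real.sqrt Y) hL hl₀
  have e1 : (m : ℝ) * ((R + 8) * δ * N ^ 4)
      + (Fintype.card (Fin p ↪ Fin (2 * n + 1))) * (Ch * δ * N ^ 4) = C2 * δ * N ^ 4 := by
    rw [hC2]; ring
  rw [sub_sub, e1]
  exact fin

end

end Pool.Agent.H789.HSC
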