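import Pool.Agent.H789.HSC.StepDefs0

/-! HSC C3 (helper292 for helper789): recursion step, case B. -/

open scoped BigOperators ContDiff ComplexConjugate

namespace Pool.Agent.H789.HSC

noncomputable section

namespace C3aux

/-! ### the one variable functions -/

theorem exp_two (R t : ℝ) : Real.exp (-(2 * t / R)) = Real.exp (-(t / R)) ^ 2 := by
  rw [← Real.exp_nat_mul]; congr 1; push_cast; ring

theorem exp_le_one' {R t : ℝ} (hR : 1 ≤ R) (ht : 0 ≤ t) : Real.exp (-(t / R)) ≤ 1 := by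
  rw [Real.exp_le_one_iff]
  have : 0 ≤ t / R := div_nonneg ht (by linarith)
  linarith

theorem F1_zero (R : ℝ) : F1 R 0 = -(3 * R / 8) := by
  unfold F1; simp; ring

theorem F1_lower {R t : ℝ} (hR : 1 ≤ R) (ht : 0 ≤ t) :
    -(3 * R / 8) * Real.exp (-(t / R)) ≤ F1 R t := by
  unfold F1
  rw [exp_two]
  have h1 := exp_le_one' hR ht
  have h0 := Real.exp_pos (-(t / R))
  set e := Real.exp (-(t / R))
  have h2 : e ^ 2 ≤ e := by nlinarith
  nlinarith [mul_nonneg (by linarith : (0 : ℝ) ≤ R) (sub_nonneg.2 h2)]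

theorem F1_ge_zero {R t : ℝ} (hR : 1 ≤ R) (ht : 0 ≤ t) : F1 R 0 ≤ F1 R t := by
  have h := F1_lower hR ht
  rw [F1_zero]
  have h1 := exp_le_one' hR ht
  nlinarith

theorem F2_nonneg (R t : ℝ) : 0 ≤ F2 R t := by unfold F2; positivity

theorem F2_le {R t : ℝ} (hR : 1 ≤ R) (ht : 0 ≤ t) : F2 R t ≤ Real.exp (-(t / R)) / 2 := by
  unfold F2
  rw [exp_two]
  have h1 := exp_le_one' hR ht
  have h0 := Real.exp_pos (-(t / R))
  nlinarith

theorem F3_abs {R t : ℝ} (hR : 1 ≤ R) (ht : 0 ≤ t) :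
    |F3 R t| ≤ 3 / 4 * Real.exp (-(t / R)) := by
  unfold F3
  rw [exp_two]
  have h1 := exp_le_one' hR ht
  have h0 := Real.exp_pos (-(t / R))
  set e := Real.exp (-(t / R))
  have h2 : e ^ 2 ≤ e := by nlinarith
  have hR0 : 0 < 4 * R := by linarith
  rw [neg_div, abs_neg, abs_of_nonneg (by positivity), div_le_iff₀ hR0]
  nlinarith

theorem QF_lower {R t : ℝ} (hR : 1 ≤ R) (ht : 0 ≤ t) (τ σ : ℂ) :
    1 / (32 * R ^ 2) * (Real.exp (-(2 * t / R)) * (‖τ‖ ^ 4 + ‖σ‖ ^ 2)) ≤ QF R t τ σ := by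
  unfold QF F4 F3 F2
  rw [exp_two]
  have h1 := exp_le_one' hR ht
  have h0 := Real.exp_pos (-(t / R))
  set e := Real.exp (-(t / R))
  have h2 : e ^ 2 ≤ e := by nlinarith
  have hR0 : 0 < R := by linarith
  set s := ‖σ‖
  set y := ‖τ‖ ^ 2 / R with hy
  have hs : 0 ≤ s := norm_nonneg _
  have hy0 : 0 ≤ y := by positivity
  have hr : ((conj τ) ^ 2 * σ).re ≤ R * (y * s) := by
    refine (Complex.re_le_norm _).trans (le_of_eq ?_)
    rw [norm_mul, norm_pow, Complex.norm_conj, hy]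
    have hR1 : R ≠ 0 := hR0.ne'
    change ‖τ‖ ^ 2 * s = R * (‖τ‖ ^ 2 / R * s)
    field_simp
  set r := ((conj τ) ^ 2 * σ).re
  have ha : ‖τ‖ ^ 4 = R ^ 2 * y ^ 2 := by rw [hy]; field_simp
  rw [ha]
  have e1 : (e + 4 * e ^ 2) / (4 * R ^ 2) * (R ^ 2 * y ^ 2) = (e + 4 * e ^ 2) / 4 * y ^ 2 := by
    field_simp
  have e2 : 2 * (-(e + 2 * e ^ 2) / (4 * R)) * r = -(e + 2 * e ^ 2) / 2 * (r / R) := by
    field_simp; ring
  rw [e1, e2]
  have hr' : r / R ≤ y * s := by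
    rw [div_le_iff₀ hR0]; linarith
  have h3 : (e + 4 * e ^ 2) / 4 * y ^ 2 + -(e + 2 * e ^ 2) / 2 * (y * s) + (e + e ^ 2) / 4 * s ^ 2
      ≤ (e + 4 * e ^ 2) / 4 * y ^ 2 + -(e + 2 * e ^ 2) / 2 * (r / R) + (e + e ^ 2) / 4 * s ^ 2 := by
    nlinarith [mul_nonneg (by positivity : (0 : ℝ) ≤ e + 2 * e ^ 2) (sub_nonneg.2 hr')]
  refine le_trans ?_ h3
  have h4 : 1 / (32 * R ^ 2) * (e ^ 2 * (R ^ 2 * y ^ 2 + s ^ 2)) ≤
      1 / 32 * (e ^ 2 * (y ^ 2 + s ^ 2)) := by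
    have h5 : 1 / (32 * R ^ 2) * (e ^ 2 * (R ^ 2 * y ^ 2 + s ^ 2)) =
        1 / 32 * (e ^ 2 * (y ^ 2 + s ^ 2 / R ^ 2)) := by field_simp
    rw [h5]
    have h6 : s ^ 2 / R ^ 2 ≤ s ^ 2 := div_le_self (by positivity) (one_le_pow₀ hR)
    gcongr
  refine h4.trans ?_
  have h7 : (e + 4 * e ^ 2) / 4 * y ^ 2 + -(e + 2 * e ^ 2) / 2 * (y * s) + (e + e ^ 2) / 4 * s ^ 2 =
      (e - e ^ 2) / 4 * (s - y) ^ 2 + e ^ 2 / 4 * ((s - y) ^ 2 + (s - 2 * y) ^ 2) := by ring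
  rw [h7]
  have h8 : 0 ≤ (e - e ^ 2) / 4 * (s - y) ^ 2 :=
    mul_nonneg (by linarith) (sq_nonneg _)
  have h9 : 1 / 8 * (y ^ 2 + s ^ 2) ≤ (s - y) ^ 2 + (s - 2 * y) ^ 2 := by
    nlinarith [sq_nonneg (15 * s - 24 * y)]
  nlinarith [mul_le_mul_of_nonneg_left h9 (by positivity : (0 : ℝ) ≤ e ^ 2 / 4)]

theorem QF_zero (R t : ℝ) : QF R t 0 0 = 0 := by
  unfold QF; simp

theorem QF_nonneg {R t : ℝ} (hR : 1 ≤ R) (ht : 0 ≤ t) (τ σ : ℂ) : 0 ≤ QF R t τ σ :=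
  le_trans (by positivity) (QF_lower hR ht τ σ)

/-! ### multilinear bounds -/

variable {p : ℕ}

/-- bounds of the partial derivatives at the point `x` -/
structure Bnd (W : (Fin p → ℝ) → ℝ) (x α : Fin p → ℝ) (K : ℝ) : Prop where
  K0 : 0 ≤ K
  α0 : ∀ i, 0 ≤ α i
  α1 : ∀ i, α i ≤ 1
  d1 : ∀ i, |pd W i x| ≤ K
  d2 : ∀ i j, |pd (pd W i) j x| ≤ K * (α i ^ 2 * α j ^ 2)
  d3 : ∀ i j l, |pd (pd (pd W i) j) l x| ≤ K * (α i ^ 2 * α j * α l)
  d4 : ∀ i j l m, |pd (pd (pd (pd W i) j) l) m x| ≤ K * (α i * α j * α l * α m)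

variable {W : (Fin p → ℝ) → ℝ} {x α : Fin p → ℝ} {K : ℝ}

theorem D1_le (h : Bnd W x α K) : |∑ i, pd W i x| ≤ p * K := by
  refine (Finset.abs_sum_le_sum_abs _ _).trans ?_
  refine (Finset.sum_le_sum fun i _ => h.d1 i).trans ?_
  simp

theorem D2_le (h : Bnd W x α K) {u v : Fin p → ℂ} {X Y : ℝ}
    (hu : ∀ i, α i ^ 2 * ‖u i‖ ≤ X) (hv : ∀ i, α i ^ 2 * ‖v i‖ ≤ Y) (hX : 0 ≤ X) :
    ‖D2 W x u v‖ ≤ (p : ℝ) ^ 2 * (K * (X * Y)) := by
  unfold D2
  refine (norm_sum_le _ _).trans ?_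
  have h1 : ∀ i ∈ (Finset.univ : Finset (Fin p)),
      ‖∑ j, (pd (pd W i) j x : ℂ) * u i * v j‖ ≤ p * (K * (X * Y)) := by
    intro i _
    refine (norm_sum_le _ _).trans ?_
    have h2 : ∀ j ∈ (Finset.univ : Finset (Fin p)),
        ‖(pd (pd W i) j x : ℂ) * u i * v j‖ ≤ K * (X * Y) := by
      intro j _
      rw [norm_mul, norm_mul, Complex.norm_real, Real.norm_eq_abs]
      have h3 := h.d2 i j
      have hi := h.α0 i
      have hj := h.α0 j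
      calc |pd (pd W i) j x| * ‖u i‖ * ‖v j‖ ≤ K * (α i ^ 2 * α j ^ 2) * ‖u i‖ * ‖v j‖ := by gcongr
        _ = K * ((α i ^ 2 * ‖u i‖) * (α j ^ 2 * ‖v j‖)) := by ring
        _ ≤ K * (X * Y) := by
          have := h.K0
          have := hu i
          have := hv j
          gcongr
    refine (Finset.sum_le_sum h2).trans ?_
    simp
  refine (Finset.sum_le_sum h1).trans (le_of_eq ?_)
  simp; ring

theorem D3_le (h : Bnd W x α K) {u v w : Fin p → ℂ} {X Y Z : ℝ}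
    (hu : ∀ i, α i ^ 2 * ‖u i‖ ≤ X) (hv : ∀ i, α i * ‖v i‖ ≤ Y) (hw : ∀ i, α i * ‖w i‖ ≤ Z)
    (hX : 0 ≤ X) (hY : 0 ≤ Y) :
    ‖D3 W x u v w‖ ≤ (p : ℝ) ^ 3 * (K * (X * Y * Z)) := by
  unfold D3
  refine (norm_sum_le _ _).trans ?_
  have h1 : ∀ i ∈ (Finset.univ : Finset (Fin p)),
      ‖∑ j, ∑ l, (pd (pd (pd W i) j) l x : ℂ) * u i * v j * w l‖ ≤ (p : ℝ) ^ 2 * (K * (X * Y * Z)) := by
    intro i _
    refine (norm_sum_le _ _).trans ?_
    have h2 : ∀ j ∈ (Finset.univ : Finset (Fin p)),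
        ‖∑ l, (pd (pd (pd W i) j) l x : ℂ) * u i * v j * w l‖ ≤ p * (K * (X * Y * Z)) := by
      intro j _
      refine (norm_sum_le _ _).trans ?_
      have h3 : ∀ l ∈ (Finset.univ : Finset (Fin p)),
          ‖(pd (pd (pd W i) j) l x : ℂ) * u i * v j * w l‖ ≤ K * (X * Y * Z) := by
        intro l _
        rw [norm_mul, norm_mul, norm_mul, Complex.norm_real, Real.norm_eq_abs]
        have h3 := h.d3 i j l
        have hi := h.α0 i
        have hj := h.α0 j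
        have hl := h.α0 l
        calc |pd (pd (pd W i) j) l x| * ‖u i‖ * ‖v j‖ * ‖w l‖
            ≤ K * (α i ^ 2 * α j * α l) * ‖u i‖ * ‖v j‖ * ‖w l‖ := by gcongr
          _ = K * ((α i ^ 2 * ‖u i‖) * (α j * ‖v j‖) * (α l * ‖w l‖)) := by ring
          _ ≤ K * (X * Y * Z) := by
            have := h.K0
            have := hu i
            have := hv j
            have := hw l
            gcongr
      refine (Finset.sum_le_sum h3).trans ?_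
      simp
    refine (Finset.sum_le_sum h2).trans (le_of_eq ?_)
    simp; ring
  refine (Finset.sum_le_sum h1).trans (le_of_eq ?_)
  simp; ring

theorem D4_le (h : Bnd W x α K) {u v w y : Fin p → ℂ} {X Y Z V : ℝ}
    (hu : ∀ i, α i * ‖u i‖ ≤ X) (hv : ∀ i, α i * ‖v i‖ ≤ Y) (hw : ∀ i, α i * ‖w i‖ ≤ Z)
    (hy : ∀ i, α i * ‖y i‖ ≤ V) (hX : 0 ≤ X) (hY : 0 ≤ Y) (hZ : 0 ≤ Z) :
    ‖D4 W x u v w y‖ ≤ (p : ℝ) ^ 4 * (K * (X * Y * Z * V)) := by
  unfold D4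
  refine (norm_sum_le _ _).trans ?_
  have h1 : ∀ i ∈ (Finset.univ : Finset (Fin p)),
      ‖∑ j, ∑ l, ∑ m, (pd (pd (pd (pd W i) j) l) m x : ℂ) * u i * v j * w l * y m‖ ≤
        (p : ℝ) ^ 3 * (K * (X * Y * Z * V)) := by
    intro i _
    refine (norm_sum_le _ _).trans ?_
    have h2 : ∀ j ∈ (Finset.univ : Finset (Fin p)),
        ‖∑ l, ∑ m, (pd (pd (pd (pd W i) j) l) m x : ℂ) * u i * v j * w l * y m‖ ≤
          (p : ℝ) ^ 2 * (K * (X * Y * Z * V)) := by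
      intro j _
      refine (norm_sum_le _ _).trans ?_
      have h3 : ∀ l ∈ (Finset.univ : Finset (Fin p)),
          ‖∑ m, (pd (pd (pd (pd W i) j) l) m x : ℂ) * u i * v j * w l * y m‖ ≤
            p * (K * (X * Y * Z * V)) := by
        intro l _
        refine (norm_sum_le _ _).trans ?_
        have h4 : ∀ m ∈ (Finset.univ : Finset (Fin p)),
            ‖(pd (pd (pd (pd W i) j) l) m x : ℂ) * u i * v j * w l * y m‖ ≤
              K * (X * Y * Z * V) := by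
          intro m _
          rw [norm_mul, norm_mul, norm_mul, norm_mul, Complex.norm_real, Real.norm_eq_abs]
          have h3 := h.d4 i j l m
          have hi := h.α0 i
          have hj := h.α0 j
          have hl := h.α0 l
          have hm := h.α0 m
          calc |pd (pd (pd (pd W i) j) l) m x| * ‖u i‖ * ‖v j‖ * ‖w l‖ * ‖y m‖
              ≤ K * (α i * α j * α l * α m) * ‖u i‖ * ‖v j‖ * ‖w l‖ * ‖y m‖ := by gcongr
            _ = K * ((α i * ‖u i‖) * (α j * ‖v j‖) * (α l * ‖w l‖) * (α m * ‖y m‖)) := by ring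
            _ ≤ K * (X * Y * Z * V) := by
              have := h.K0
              have := hu i
              have := hv j
              have := hw l
              have := hy m
              gcongr
        refine (Finset.sum_le_sum h4).trans ?_
        simp
      refine (Finset.sum_le_sum h3).trans (le_of_eq ?_)
      simp; ring
    refine (Finset.sum_le_sum h2).trans (le_of_eq ?_)
    simp; ring
  refine (Finset.sum_le_sum h1).trans (le_of_eq ?_)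
  simp; ring

/-! multilinearity -/

theorem D2_diff (u v u' v' : Fin p → ℂ) :
    D2 W x u v - D2 W x u' v' = D2 W x (u - u') v + D2 W x u' (v - v') := by
  simp only [D2, Pi.sub_apply, ← Finset.sum_sub_distrib, ← Finset.sum_add_distrib]
  refine Finset.sum_congr rfl fun i _ => Finset.sum_congr rfl fun j _ => ?_
  ring

theorem D3_diff (u v w u' v' w' : Fin p → ℂ) :
    D3 W x u v w - D3 W x u' v' w' =
      D3 W x (u - u') v w + D3 W x u' (v - v') w + D3 W x u' v' (w - w') := by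
  simp only [D3, Pi.sub_apply, ← Finset.sum_sub_distrib, ← Finset.sum_add_distrib]
  refine Finset.sum_congr rfl fun i _ => Finset.sum_congr rfl fun j _ =>
    Finset.sum_congr rfl fun l _ => ?_
  ring

theorem D4_diff (u v w y u' v' w' y' : Fin p → ℂ) :
    D4 W x u v w y - D4 W x u' v' w' y' =
      D4 W x (u - u') v w y + D4 W x u' (v - v') w y + D4 W x u' v' (w - w') y
        + D4 W x u' v' w' (y - y') := by
  simp only [D4, Pi.sub_apply, ← Finset.sum_sub_distrib, ← Finset.sum_add_distrib]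
  refine Finset.sum_congr rfl fun i _ => Finset.sum_congr rfl fun j _ =>
    Finset.sum_congr rfl fun l _ => Finset.sum_congr rfl fun m _ => ?_
  ring

/-! ### bounds from the model -/

theorem bnd_of_model {kk : ℕ} {ca Ca L R : ℝ} (hM : IsModel p kk ca Ca L R W) :
    ∃ Cw : ℝ, 0 ≤ Cw ∧ ∀ x : Fin p → ℝ, (∀ i, 0 ≤ x i) →
      Bnd W x (fun i => Real.exp (-(x i / (8 * R))))
        (Cw * Real.exp (-(3 * (∑ i, x i) / (2 * R)))) := by
  obtain ⟨C, hC⟩ := hM.bound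
  refine ⟨|C|, abs_nonneg C, fun x hx => ?_⟩
  have hR := hM.hR
  have hR0 : 0 < R := by linarith
  set S := ∑ i, x i with hS
  set E := Real.exp (-(S / (8 * R))) with hE
  have hE0 : 0 ≤ E := (Real.exp_pos _).le
  have hEi : ∀ i, E ≤ Real.exp (-(x i / (8 * R))) := by
    intro i
    rw [hE, Real.exp_le_exp]
    have h1 : x i ≤ S := Finset.single_le_sum (f := x) (fun i _ => hx i) (Finset.mem_univ i)
    have h2 : x i / (8 * R) ≤ S / (8 * R) := by gcongr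
    linarith
  have hα1 : ∀ i, Real.exp (-(x i / (8 * R))) ≤ 1 := by
    intro i
    rw [Real.exp_le_one_iff]
    have : 0 ≤ x i / (8 * R) := div_nonneg (hx i) (by linarith)
    linarith
  have hα0 : ∀ i, 0 ≤ Real.exp (-(x i / (8 * R))) := fun i => (Real.exp_pos _).le
  have hE1 : E ≤ 1 := by
    rw [hE, Real.exp_le_one_iff]
    have h3 : 0 ≤ S := Finset.sum_nonneg fun i _ => hx i
    have : 0 ≤ S / (8 * R) := div_nonneg h3 (by linarith)
    linarith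
  have hsplit : Real.exp (-(2 * S / R)) = Real.exp (-(3 * S / (2 * R))) * E ^ 4 := by
    rw [hE, ← Real.exp_nat_mul, ← Real.exp_add]
    congr 1
    push_cast
    field_simp
    ring
  have hG := Real.exp_pos (-(3 * S / (2 * R)))
  have key : ∀ (m : ℕ), m ≤ 4 → ∀ (v y : ℝ), |v| ≤ ‖iteratedFDeriv ℝ m W x‖ → E ^ 4 ≤ y →
      |v| ≤ |C| * Real.exp (-(3 * S / (2 * R))) * y := by
    intro m hm v y hv hy
    refine hv.trans ((hC x hx m hm).trans ?_)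
    rw [← hS, hsplit]
    calc C * (Real.exp (-(3 * S / (2 * R))) * E ^ 4)
        ≤ |C| * (Real.exp (-(3 * S / (2 * R))) * E ^ 4) := by
          gcongr
          exact le_abs_self C
      _ ≤ |C| * (Real.exp (-(3 * S / (2 * R))) * y) := by gcongr
      _ = _ := by ring
  have hcd : ∀ m : ℕ, m ≤ 4 → ContDiffAt ℝ (m : ℕ) W x := fun m _ =>
    (hM.smooth x hx).of_le (by exact_mod_cast le_top)
  refine ⟨by positivity, hα0, hα1, ?_, ?_, ?_, ?_⟩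
  · intro i
    have := key 1 (by norm_num) (pd W i x) 1 (abs_pd1_le (by exact_mod_cast hcd 1 (by norm_num)) i)
      (pow_le_one₀ hE0 hE1)
    rwa [mul_one] at this
  · intro i j
    refine key 2 (by norm_num) _ _ (abs_pd2_le (by exact_mod_cast hcd 2 (by norm_num)) i j) ?_
    have h1 := hEi i
    have h2 := hEi j
    calc E ^ 4 = E ^ 2 * E ^ 2 := by ring
      _ ≤ _ := by gcongr
  · intro i j l
    refine key 3 (by norm_num) _ _ (abs_pd3_le (by exact_mod_cast hcd 3 (by norm_num)) i j l) ?_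
    have h1 := hEi i
    have h2 := hEi j
    have h3 := hEi l
    calc E ^ 4 = E ^ 2 * E * E := by ring
      _ ≤ _ := by gcongr
  · intro i j l m
    refine key 4 (by norm_num) _ _ (abs_pd4_le (by exact_mod_cast hcd 4 (by norm_num)) i j l m) ?_
    have h1 := hEi i
    have h2 := hEi j
    have h3 := hEi l
    have h4 := hEi m
    calc E ^ 4 = E * E * E * E := by ring
      _ ≤ _ := by gcongr

/-! ### expansion of the `Q` components -/

/-- the error term -/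
def Err (lam δ B P : ℝ) : ℝ :=
  lam * (P ^ 3 * B + P ^ 2 * B ^ 2 + P * B ^ 3) + lam ^ 2 * B ^ 4 + δ * P ^ 4

/-- the lower order terms of the multi jet -/
def Low (W : (Fin p → ℝ) → ℝ) (x : Fin p → ℝ) (a : Fin p → ℂ) (h : ℝ) (k : ℂ) : ℝ :=
  4 * (D3 W x a (fun j => conj (a j)) (fun _ => (h : ℂ))).re
    + 2 * (D2 W x (fun _ => (h : ℂ)) (fun _ => (h : ℂ))).re
    + 4 * (D2 W x (fun _ => k) (fun j => conj (a j))).re

theorem multiQ {q : ℕ} (W : (Fin p → ℝ) → ℝ) (t : Fin q → ℝ) (τ σ : Fin q → ℂ) (h : ℝ) (k : ℂ)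
    (Qu : ℝ) (e : Fin p → Fin q) :
    (multiJet W (fun j => TJ t τ σ h k Qu (e j))).Q =
      holQ W (fun j => t (e j)) (fun j => τ (e j)) (fun j => σ (e j))
      + Low W (fun j => t (e j)) (fun j => τ (e j)) h k
      + (∑ i, pd W i (fun j => t (e j))) * Qu := by
  simp only [multiJet, TJ, holQ, Low, Finset.sum_mul]
  ring

theorem FQ (R : ℝ) (t : ℝ) (τ σ : ℂ) (h : ℝ) (k : ℂ) (Qu : ℝ) :
    (Jet.comp (F0 R t) (F1 R t) (F2 R t) (F3 R t) (F4 R t) ⟨t, h, Qu, τ, σ, k⟩).Q =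
      F1 R t * Qu + QF R t τ σ + (2 * F2 R t * h ^ 2 + 4 * F2 R t * (τ * conj k).re
        + 4 * F3 R t * ‖τ‖ ^ 2 * h) := by
  simp only [Jet.comp, QF]
  ring

/-! ### estimates for the `Q` components -/

theorem Flow_ge {R t : ℝ} (hR : 1 ≤ R) (ht : 0 ≤ t) {τ k : ℂ} {h H K P : ℝ}
    (hP : 0 ≤ P) (hτ : Real.exp (-(t / (8 * R))) * ‖τ‖ ≤ P) (hh : |h| ≤ H) (hk : ‖k‖ ≤ K) :
    -(2 * P * K) - 3 * P ^ 2 * H ≤
      2 * F2 R t * h ^ 2 + 4 * F2 R t * (τ * conj k).re + 4 * F3 R t * ‖τ‖ ^ 2 * h := by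
  have hR0 : 0 < R := by linarith
  set E := Real.exp (-(t / (8 * R))) with hE
  have hE0 : 0 < E := Real.exp_pos _
  have hE1 : E ≤ 1 := by
    rw [hE, Real.exp_le_one_iff]
    have : 0 ≤ t / (8 * R) := div_nonneg ht (by linarith)
    linarith
  have he : Real.exp (-(t / R)) = E ^ 8 := by
    rw [hE, ← Real.exp_nat_mul]
    congr 1
    push_cast
    field_simp
  have h2 := F2_nonneg R t
  have h2' := F2_le hR ht
  have h3 := F3_abs hR ht
  rw [he] at h2' h3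
  have e2 : E ^ 8 ≤ E ^ 2 := pow_le_pow_of_le_one hE0.le hE1 (by norm_num)
  have e1 : E ^ 8 ≤ E := by simpa using pow_le_pow_of_le_one hE0.le hE1 (by norm_num : 1 ≤ 8)
  have hK : 0 ≤ K := (norm_nonneg _).trans hk
  have hH : 0 ≤ H := (abs_nonneg _).trans hh
  have t1 : 0 ≤ 2 * F2 R t * h ^ 2 := by positivity
  have t2 : |4 * F2 R t * (τ * conj k).re| ≤ 2 * P * K := by
    rw [abs_mul, abs_of_nonneg (by positivity : 0 ≤ 4 * F2 R t)]
    have h4 : |(τ * conj k).re| ≤ ‖τ‖ * ‖k‖ := by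
      refine (Complex.abs_re_le_norm _).trans ?_
      rw [norm_mul, Complex.norm_conj]
    calc 4 * F2 R t * |(τ * conj k).re| ≤ 4 * (E / 2) * (‖τ‖ * ‖k‖) := by
          have : F2 R t ≤ E / 2 := by linarith
          gcongr
      _ = 2 * (E * ‖τ‖) * ‖k‖ := by ring
      _ ≤ 2 * P * K := by gcongr
  have t3 : |4 * F3 R t * ‖τ‖ ^ 2 * h| ≤ 3 * P ^ 2 * H := by
    rw [abs_mul, abs_mul, abs_mul, abs_of_nonneg (by norm_num : (0 : ℝ) ≤ 4),
      abs_of_nonneg (by positivity : 0 ≤ ‖τ‖ ^ 2)]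
    calc 4 * |F3 R t| * ‖τ‖ ^ 2 * |h| ≤ 4 * (3 / 4 * E ^ 2) * ‖τ‖ ^ 2 * H := by
          have : |F3 R t| ≤ 3 / 4 * E ^ 2 := by linarith
          gcongr
      _ = 3 * (E * ‖τ‖) ^ 2 * H := by ring
      _ ≤ 3 * P ^ 2 * H := by gcongr
  have t2' := neg_le_of_abs_le t2
  have t3' := neg_le_of_abs_le t3
  linarith

theorem Low_abs (hb : Bnd W x α K) {a : Fin p → ℂ} {h H K' P : ℝ} {k : ℂ} (hp : 1 ≤ (p : ℝ))
    (hP : 0 ≤ P) (ha : ∀ i, α i * ‖a i‖ ≤ P) (hh : |h| ≤ H) (hk : ‖k‖ ≤ K') :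
    |Low W x a h k| ≤ (p : ℝ) ^ 4 * (K * (4 * (P ^ 2 * H) + 2 * H ^ 2 + 4 * (K' * P))) := by
  have hK' : 0 ≤ K' := (norm_nonneg _).trans hk
  have hH : 0 ≤ H := (abs_nonneg _).trans hh
  have hα2 : ∀ i, α i ^ 2 ≤ α i := fun i => by
    have h0 := hb.α0 i
    have h1 := hb.α1 i
    nlinarith
  have ha2 : ∀ i, α i ^ 2 * ‖a i‖ ≤ P := fun i =>
    (mul_le_mul_of_nonneg_right (hα2 i) (norm_nonneg _)).trans (ha i)
  have hac : ∀ i, α i * ‖(fun j => conj (a j)) i‖ ≤ P := fun i => by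
    simpa [Complex.norm_conj] using ha i
  have hac2 : ∀ i, α i ^ 2 * ‖(fun j => conj (a j)) i‖ ≤ P := fun i => by
    simpa [Complex.norm_conj] using ha2 i
  have hh1 : ∀ i, α i * ‖(fun _ : Fin p => (h : ℂ)) i‖ ≤ H := fun i => by
    simp only [Complex.norm_real, Real.norm_eq_abs]
    have h1 := hb.α1 i
    have h0 := hb.α0 i
    calc α i * |h| ≤ 1 * H := by gcongr
      _ = H := one_mul H
  have hh2 : ∀ i, α i ^ 2 * ‖(fun _ : Fin p => (h : ℂ)) i‖ ≤ H := fun i =>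
    (mul_le_mul_of_nonneg_right (hα2 i) (norm_nonneg _)).trans (hh1 i)
  have hk2 : ∀ i, α i ^ 2 * ‖(fun _ : Fin p => k) i‖ ≤ K' := fun i => by
    have h1 := hb.α1 i
    have h0 := hb.α0 i
    have h2 : α i ^ 2 ≤ 1 := (hα2 i).trans h1
    calc α i ^ 2 * ‖k‖ ≤ 1 * K' := by gcongr
      _ = K' := one_mul K'
  have b1 := D3_le hb ha2 hac hh1 hP hP
  have b2 := D2_le hb hh2 hh2 hH
  have b3 := D2_le hb hk2 hac2 hK'
  have c1 := (Complex.abs_re_le_norm _).trans b1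
  have c2 := (Complex.abs_re_le_norm _).trans b2
  have c3 := (Complex.abs_re_le_norm _).trans b3
  have p3 : (p : ℝ) ^ 3 ≤ (p : ℝ) ^ 4 := pow_le_pow_right₀ hp (by norm_num)
  have p2 : (p : ℝ) ^ 2 ≤ (p : ℝ) ^ 4 := pow_le_pow_right₀ hp (by norm_num)
  have hK := hb.K0
  have d1 : (p : ℝ) ^ 3 * (K * (P * P * H)) ≤ (p : ℝ) ^ 4 * (K * (P * P * H)) := by gcongr
  have d2 : (p : ℝ) ^ 2 * (K * (H * H)) ≤ (p : ℝ) ^ 4 * (K * (H * H)) := by gcongr
  have d3 : (p : ℝ) ^ 2 * (K * (K' * P)) ≤ (p : ℝ) ^ 4 * (K * (K' * P)) := by gcongr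
  unfold Low
  have g1 := c1.trans d1
  have g2 := c2.trans d2
  have g3 := c3.trans d3
  refine (abs_add_three _ _ _).trans ?_
  rw [abs_mul, abs_mul, abs_mul, abs_of_nonneg (by norm_num : (0 : ℝ) ≤ 4),
    abs_of_nonneg (by norm_num : (0 : ℝ) ≤ 2)]
  have : (p : ℝ) ^ 4 * (K * (4 * (P ^ 2 * H) + 2 * H ^ 2 + 4 * (K' * P))) =
      4 * ((p : ℝ) ^ 4 * (K * (P * P * H))) + 2 * ((p : ℝ) ^ 4 * (K * (H * H)))
        + 4 * ((p : ℝ) ^ 4 * (K * (K' * P))) := by ring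
  rw [this]
  gcongr

theorem holQ_abs (hb : Bnd W x α K) {a b : Fin p → ℂ} {P : ℝ} (hp : 1 ≤ (p : ℝ))
    (hP : 0 ≤ P) (ha : ∀ i, α i * ‖a i‖ ≤ P) (hbb : ∀ i, α i ^ 2 * ‖b i‖ ≤ P ^ 2) :
    |holQ W x a b| ≤ (p : ℝ) ^ 4 * (K * (4 * P ^ 4)) := by
  have hac : ∀ i, α i * ‖(fun j => conj (a j)) i‖ ≤ P := fun i => by
    simpa [Complex.norm_conj] using ha i
  have hbc : ∀ i, α i ^ 2 * ‖(fun j => conj (b j)) i‖ ≤ P ^ 2 := fun i => by
    simpa [Complex.norm_conj] using hbb i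
  have b1 := D4_le hb ha ha hac hac hP hP hP
  have b2 := D3_le hb hbb hac hac (by positivity) hP
  have b3 := D2_le hb hbb hbc (by positivity)
  have c1 := (Complex.abs_re_le_norm _).trans b1
  have c2 := (Complex.abs_re_le_norm _).trans b2
  have c3 := (Complex.abs_re_le_norm _).trans b3
  have p3 : (p : ℝ) ^ 3 ≤ (p : ℝ) ^ 4 := pow_le_pow_right₀ hp (by norm_num)
  have p2 : (p : ℝ) ^ 2 ≤ (p : ℝ) ^ 4 := pow_le_pow_right₀ hp (by norm_num)
  have hK := hb.K0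
  have d2 : (p : ℝ) ^ 3 * (K * (P ^ 2 * P * P)) ≤ (p : ℝ) ^ 4 * (K * (P ^ 2 * P * P)) := by gcongr
  have d3 : (p : ℝ) ^ 2 * (K * (P ^ 2 * P ^ 2)) ≤ (p : ℝ) ^ 4 * (K * (P ^ 2 * P ^ 2)) := by gcongr
  unfold holQ
  have g2 := c2.trans d2
  have g3 := c3.trans d3
  refine (abs_add_three _ _ _).trans ?_
  rw [abs_mul, abs_of_nonneg (by norm_num : (0 : ℝ) ≤ 2)]
  have : (p : ℝ) ^ 4 * (K * (4 * P ^ 4)) =
      (p : ℝ) ^ 4 * (K * (P * P * P * P)) + 2 * ((p : ℝ) ^ 4 * (K * (P ^ 2 * P * P)))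
        + (p : ℝ) ^ 4 * (K * (P ^ 2 * P ^ 2)) := by ring
  rw [this]
  gcongr

theorem holQ_diff (hb : Bnd W x α K) {a b a₁ b₁ : Fin p → ℂ} {P X Y : ℝ} (hp : 1 ≤ (p : ℝ))
    (hP : 0 ≤ P) (ha : ∀ i, α i * ‖a i‖ ≤ P) (hbb : ∀ i, α i ^ 2 * ‖b i‖ ≤ P ^ 2)
    (ha₁ : ∀ i, α i * ‖a₁ i‖ ≤ P) (hb₁ : ∀ i, α i ^ 2 * ‖b₁ i‖ ≤ P ^ 2)
    (hX : ∀ i, ‖a i - a₁ i‖ ≤ X) (hY : ∀ i, ‖b i - b₁ i‖ ≤ Y) :
    |holQ W x a b - holQ W x a₁ b₁| ≤
      (p : ℝ) ^ 4 * (K * (8 * (X * P ^ 3) + 4 * (Y * P ^ 2))) := by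
  have hp0 : 0 < p := by
    have : (0 : ℝ) < p := by linarith
    exact_mod_cast this
  have hX0 : 0 ≤ X := (norm_nonneg _).trans (hX ⟨0, hp0⟩)
  have hY0 : 0 ≤ Y := (norm_nonneg _).trans (hY ⟨0, hp0⟩)
  have hac : ∀ i, α i * ‖(fun j => conj (a j)) i‖ ≤ P := fun i => by
    simpa [Complex.norm_conj] using ha i
  have hbc : ∀ i, α i ^ 2 * ‖(fun j => conj (b j)) i‖ ≤ P ^ 2 := fun i => by
    simpa [Complex.norm_conj] using hbb i
  have hac₁ : ∀ i, α i * ‖(fun j => conj (a₁ j)) i‖ ≤ P := fun i => by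
    simpa [Complex.norm_conj] using ha₁ i
  have hbc₁ : ∀ i, α i ^ 2 * ‖(fun j => conj (b₁ j)) i‖ ≤ P ^ 2 := fun i => by
    simpa [Complex.norm_conj] using hb₁ i
  have hα2 : ∀ i, α i ^ 2 ≤ 1 := fun i => pow_le_one₀ (hb.α0 i) (hb.α1 i)
  have hd : ∀ i, α i * ‖(a - a₁) i‖ ≤ X := fun i => by
    have h1 := hb.α1 i
    have h0 := hb.α0 i
    have h2 : ‖(a - a₁) i‖ ≤ X := hX i
    calc α i * ‖(a - a₁) i‖ ≤ 1 * X := by gcongr
      _ = X := one_mul X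
  have hdc : ∀ i, α i * ‖((fun j => conj (a j)) - (fun j => conj (a₁ j))) i‖ ≤ X := fun i => by
    have h3 : ((fun j => conj (a j)) - (fun j => conj (a₁ j))) i = conj ((a - a₁) i) := by
      simp
    rw [h3, Complex.norm_conj]
    exact hd i
  have he : ∀ i, α i ^ 2 * ‖(b - b₁) i‖ ≤ Y := fun i => by
    have h1 := hα2 i
    have h0 := hb.α0 i
    have h2 : ‖(b - b₁) i‖ ≤ Y := hY i
    calc α i ^ 2 * ‖(b - b₁) i‖ ≤ 1 * Y := by gcongr
      _ = Y := one_mul Y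
  have hec : ∀ i, α i ^ 2 * ‖((fun j => conj (b j)) - (fun j => conj (b₁ j))) i‖ ≤ Y := fun i => by
    have h3 : ((fun j => conj (b j)) - (fun j => conj (b₁ j))) i = conj ((b - b₁) i) := by
      simp
    rw [h3, Complex.norm_conj]
    exact he i
  have p3 : (p : ℝ) ^ 3 ≤ (p : ℝ) ^ 4 := pow_le_pow_right₀ hp (by norm_num)
  have p2 : (p : ℝ) ^ 2 ≤ (p : ℝ) ^ 4 := pow_le_pow_right₀ hp (by norm_num)
  have hK := hb.K0
  -- fourth order part
  have f4 : ‖D4 W x a a (fun j => conj (a j)) (fun j => conj (a j))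
      - D4 W x a₁ a₁ (fun j => conj (a₁ j)) (fun j => conj (a₁ j))‖ ≤
        (p : ℝ) ^ 4 * (K * (4 * (X * P ^ 3))) := by
    rw [D4_diff]
    have g1 := D4_le hb hd ha hac hac hX0 hP hP
    have g2 := D4_le hb ha₁ hd hac hac hP hX0 hP
    have g3 := D4_le hb ha₁ ha₁ hdc hac hP hP hX0
    have g4 := D4_le hb ha₁ ha₁ hac₁ hdc hP hP hP
    have : (p : ℝ) ^ 4 * (K * (4 * (X * P ^ 3))) =
        (p : ℝ) ^ 4 * (K * (X * P * P * P)) + (p : ℝ) ^ 4 * (K * (P * X * P * P))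
        + (p : ℝ) ^ 4 * (K * (P * P * X * P)) + (p : ℝ) ^ 4 * (K * (P * P * P * X)) := by ring
    rw [this]
    refine (norm_add_le _ _).trans (add_le_add ?_ g4)
    refine (norm_add_le _ _).trans (add_le_add ?_ g3)
    exact (norm_add_le _ _).trans (add_le_add g1 g2)
  have f3 : ‖D3 W x b (fun j => conj (a j)) (fun j => conj (a j))
      - D3 W x b₁ (fun j => conj (a₁ j)) (fun j => conj (a₁ j))‖ ≤
        (p : ℝ) ^ 4 * (K * (Y * P ^ 2 + 2 * (X * P ^ 3))) := by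
    rw [D3_diff]
    have g1 := D3_le hb he hac hac hY0 hP
    have g2 := D3_le hb hb₁ hdc hac (by positivity) hX0
    have g3 := D3_le hb hb₁ hac₁ hdc (by positivity) hP
    have : (p : ℝ) ^ 4 * (K * (Y * P ^ 2 + 2 * (X * P ^ 3))) =
        (p : ℝ) ^ 4 * (K * (Y * P * P)) + (p : ℝ) ^ 4 * (K * (P ^ 2 * X * P))
        + (p : ℝ) ^ 4 * (K * (P ^ 2 * P * X)) := by ring
    rw [this]
    refine (norm_add_le _ _).trans (add_le_add ?_ (g3.trans (by gcongr)))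
    exact (norm_add_le _ _).trans (add_le_add (g1.trans (by gcongr)) (g2.trans (by gcongr)))
  have f2 : ‖D2 W x b (fun j => conj (b j)) - D2 W x b₁ (fun j => conj (b₁ j))‖ ≤
        (p : ℝ) ^ 4 * (K * (2 * (Y * P ^ 2))) := by
    rw [D2_diff]
    have g1 := D2_le hb he hbc hY0
    have g2 := D2_le hb hb₁ hec (by positivity)
    have : (p : ℝ) ^ 4 * (K * (2 * (Y * P ^ 2))) =
        (p : ℝ) ^ 4 * (K * (Y * P ^ 2)) + (p : ℝ) ^ 4 * (K * (P ^ 2 * Y)) := by ring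
    rw [this]
    exact (norm_add_le _ _).trans (add_le_add (g1.trans (by gcongr)) (g2.trans (by gcongr)))
  have r4 := (Complex.abs_re_le_norm _).trans f4
  have r3 := (Complex.abs_re_le_norm _).trans f3
  have r2 := (Complex.abs_re_le_norm _).trans f2
  rw [Complex.sub_re] at r4 r3 r2
  have hrew : holQ W x a b - holQ W x a₁ b₁ =
      ((D4 W x a a (fun j => conj (a j)) (fun j => conj (a j))).re
        - (D4 W x a₁ a₁ (fun j => conj (a₁ j)) (fun j => conj (a₁ j))).re)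
      + 2 * ((D3 W x b (fun j => conj (a j)) (fun j => conj (a j))).re
        - (D3 W x b₁ (fun j => conj (a₁ j)) (fun j => conj (a₁ j))).re)
      + ((D2 W x b (fun j => conj (b j))).re - (D2 W x b₁ (fun j => conj (b₁ j))).re) := by
    simp only [holQ]; ring
  rw [hrew]
  refine (abs_add_three _ _ _).trans ?_
  rw [abs_mul, abs_of_nonneg (by norm_num : (0 : ℝ) ≤ 2)]
  have : (p : ℝ) ^ 4 * (K * (8 * (X * P ^ 3) + 4 * (Y * P ^ 2))) =
      (p : ℝ) ^ 4 * (K * (4 * (X * P ^ 3))) + 2 * ((p : ℝ) ^ 4 * (K * (Y * P ^ 2 + 2 * (X * P ^ 3))))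
        + (p : ℝ) ^ 4 * (K * (2 * (Y * P ^ 2))) := by ring
  rw [this]
  gcongr

theorem Err_nonneg {lam δ B P : ℝ} (h1 : 0 ≤ lam) (h2 : 0 ≤ δ) (h3 : 0 ≤ B) (h4 : 0 ≤ P) :
    0 ≤ Err lam δ B P := by unfold Err; positivity

theorem hit_ge (hb : Bnd W x α K) {a b : Fin p → ℂ} {lam δ B P h Qu Cw : ℝ} {k : ℂ}
    (hp : 1 ≤ (p : ℝ)) (hlam : 0 ≤ lam) (hδ : 0 ≤ δ) (hδ1 : δ ≤ 1) (hB : 0 ≤ B) (hP : 0 ≤ P)
    (hCw : 0 ≤ Cw) (hKC : K ≤ Cw * δ)
    (ha : ∀ i, α i * ‖a i‖ ≤ P) (hbb : ∀ i, α i ^ 2 * ‖b i‖ ≤ P ^ 2) (hh : |h| ≤ lam * B ^ 2)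
    (hk : ‖k‖ ≤ lam * B ^ 3) (hQ : 0 ≤ Qu) :
    -(8 * ((p : ℝ) ^ 4 * Cw) * Err lam δ B P) - (p : ℝ) ^ 4 * Cw * δ * Qu ≤
      holQ W x a b + Low W x a h k + (∑ i, pd W i x) * Qu := by
  have hK := hb.K0
  have r1 := neg_le_of_abs_le (holQ_abs hb hp hP ha hbb)
  have r2 := neg_le_of_abs_le (Low_abs hb hp hP ha hh hk)
  have r3 := neg_le_of_abs_le (D1_le hb)
  have p4 : (p : ℝ) ≤ (p : ℝ) ^ 4 := by
    simpa using pow_le_pow_right₀ hp (by norm_num : 1 ≤ 4)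
  have s1 : (p : ℝ) ^ 4 * (K * (4 * P ^ 4)) ≤ (p : ℝ) ^ 4 * (Cw * δ * (4 * P ^ 4)) := by gcongr
  have hKC1 : K ≤ Cw := hKC.trans (by nlinarith)
  have s2 : (p : ℝ) ^ 4 * (K * (4 * (P ^ 2 * (lam * B ^ 2)) + 2 * (lam * B ^ 2) ^ 2
      + 4 * (lam * B ^ 3 * P))) ≤ (p : ℝ) ^ 4 * (Cw * (4 * (P ^ 2 * (lam * B ^ 2))
      + 2 * (lam * B ^ 2) ^ 2 + 4 * (lam * B ^ 3 * P))) := by gcongr
  have s3 : (p : ℝ) * K * Qu ≤ (p : ℝ) ^ 4 * (Cw * δ) * Qu := by gcongr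
  have s4 : -(p * K) * Qu ≤ (∑ i, pd W i x) * Qu := mul_le_mul_of_nonneg_right r3 hQ
  have s5 : 0 ≤ (p : ℝ) ^ 4 * Cw * (8 * Err lam δ B P - (δ * (4 * P ^ 4)
      + (4 * (P ^ 2 * (lam * B ^ 2)) + 2 * (lam * B ^ 2) ^ 2 + 4 * (lam * B ^ 3 * P)))) := by
    apply mul_nonneg (by positivity)
    unfold Err
    have : 8 * (lam * (P ^ 3 * B + P ^ 2 * B ^ 2 + P * B ^ 3) + lam ^ 2 * B ^ 4 + δ * P ^ 4)
      - (δ * (4 * P ^ 4)
      + (4 * (P ^ 2 * (lam * B ^ 2)) + 2 * (lam * B ^ 2) ^ 2 + 4 * (lam * B ^ 3 * P))) =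
      8 * (lam * (P ^ 3 * B)) + 4 * (lam * (P ^ 2 * B ^ 2)) + 4 * (lam * (P * B ^ 3))
        + 6 * (lam ^ 2 * B ^ 4) + 4 * (δ * P ^ 4) := by ring
    rw [this]
    positivity
  nlinarith [s1, s2, s3, s4, s5, r1, r2]

theorem avoid_ge (hb : Bnd W x α K) {a b a₁ b₁ : Fin p → ℂ} {lam δ B P h Qu Cw : ℝ} {k : ℂ}
    (hp : 1 ≤ (p : ℝ)) (hlam : 0 ≤ lam) (hδ : 0 ≤ δ) (hB : 0 ≤ B) (hP : 0 ≤ P)
    (hCw : 0 ≤ Cw) (hKC : K ≤ Cw)
    (ha : ∀ i, α i * ‖a i‖ ≤ P) (hbb : ∀ i, α i ^ 2 * ‖b i‖ ≤ P ^ 2)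
    (ha₁ : ∀ i, α i * ‖a₁ i‖ ≤ P) (hb₁ : ∀ i, α i ^ 2 * ‖b₁ i‖ ≤ P ^ 2)
    (hX : ∀ i, ‖a i - a₁ i‖ ≤ lam * B) (hY : ∀ i, ‖b i - b₁ i‖ ≤ lam * B ^ 2)
    (hh : |h| ≤ lam * B ^ 2) (hk : ‖k‖ ≤ lam * B ^ 3) :
    holQ W x a₁ b₁ + (∑ i, pd W i x) * Qu - 8 * ((p : ℝ) ^ 4 * Cw) * Err lam δ B P ≤
      holQ W x a b + Low W x a h k + (∑ i, pd W i x) * Qu := by
  have hK := hb.K0
  have r1 := neg_le_of_abs_le (holQ_diff hb hp hP ha hbb ha₁ hb₁ hX hY)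
  have r2 := neg_le_of_abs_le (Low_abs hb hp hP ha hh hk)
  have s1 : (p : ℝ) ^ 4 * (K * (8 * (lam * B * P ^ 3) + 4 * (lam * B ^ 2 * P ^ 2))) ≤
      (p : ℝ) ^ 4 * (Cw * (8 * (lam * B * P ^ 3) + 4 * (lam * B ^ 2 * P ^ 2))) := by gcongr
  have s2 : (p : ℝ) ^ 4 * (K * (4 * (P ^ 2 * (lam * B ^ 2)) + 2 * (lam * B ^ 2) ^ 2
      + 4 * (lam * B ^ 3 * P))) ≤ (p : ℝ) ^ 4 * (Cw * (4 * (P ^ 2 * (lam * B ^ 2))
      + 2 * (lam * B ^ 2) ^ 2 + 4 * (lam * B ^ 3 * P))) := by gcongr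
  have s5 : 0 ≤ (p : ℝ) ^ 4 * Cw * (8 * Err lam δ B P
      - ((8 * (lam * B * P ^ 3) + 4 * (lam * B ^ 2 * P ^ 2))
      + (4 * (P ^ 2 * (lam * B ^ 2)) + 2 * (lam * B ^ 2) ^ 2 + 4 * (lam * B ^ 3 * P)))) := by
    apply mul_nonneg (by positivity)
    unfold Err
    have : 8 * (lam * (P ^ 3 * B + P ^ 2 * B ^ 2 + P * B ^ 3) + lam ^ 2 * B ^ 4 + δ * P ^ 4)
      - ((8 * (lam * B * P ^ 3) + 4 * (lam * B ^ 2 * P ^ 2))
      + (4 * (P ^ 2 * (lam * B ^ 2)) + 2 * (lam * B ^ 2) ^ 2 + 4 * (lam * B ^ 3 * P))) =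
      4 * (lam * (P * B ^ 3)) + 6 * (lam ^ 2 * B ^ 4) + 8 * (δ * P ^ 4) := by ring
    rw [this]
    positivity
  nlinarith [s1, s2, s5, r1, r2]

/-! ### combinatorics -/

section comb
variable {q : ℕ} {D : Finset (Fin q)}

theorem card_avoid (hD : Dᶜ.card = p) :
    ((Finset.univ : Finset (Fin p ↪ Fin q)).filter fun e => ∀ j, e j ∉ D).card = p.factorial := by
  classical
  have h1 : Fintype.card (Fin p ↪ {i // i ∈ Dᶜ}) = p.factorial := by
    rw [Fintype.card_embedding_eq, Fintype.card_coe, hD, Fintype.card_fin, Nat.descFactorial_self]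
  rw [← h1, ← Fintype.card_subtype]
  refine Fintype.card_congr ?_
  refine
    { toFun := fun e => ⟨fun j => ⟨e.1 j, Finset.mem_compl.2 (e.2 j)⟩, fun i j hij =>
        e.1.injective (by simpa using hij)⟩
      invFun := fun f => ⟨f.trans (Function.Embedding.subtype _), fun j =>
        Finset.mem_compl.1 (f j).2⟩
      left_inv := fun e => by
        apply Subtype.ext
        ext j
        rfl
      right_inv := fun f => by
        ext j
        rfl }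

theorem map_avoid (hD : Dᶜ.card = p) {e : Fin p ↪ Fin q} (he : ∀ j, e j ∉ D) :
    Finset.univ.map e = Dᶜ := by
  apply Finset.eq_of_subset_of_card_le
  · intro i hi
    rw [Finset.mem_map] at hi
    obtain ⟨j, _, rfl⟩ := hi
    exact Finset.mem_compl.2 (he j)
  · rw [hD, Finset.card_map, Finset.card_univ, Fintype.card_fin]

theorem sum_avoid (hD : Dᶜ.card = p) {e : Fin p ↪ Fin q} (he : ∀ j, e j ∉ D) (φ : Fin q → ℝ) :
    ∑ j, φ (e j) = ∑ i ∈ Dᶜ, φ i := by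
  rw [← map_avoid hD he, Finset.sum_map]

end comb

/-! ### assembly -/

section assembly
variable {q : ℕ} {R lam δ B P h Qu : ℝ} {k : ℂ} {t : Fin q → ℝ} {τ σ : Fin q → ℂ}
  {D I : Finset (Fin q)}

theorem Fsum_ge (hR : 1 ≤ R) (hlam : 0 ≤ lam) (hδ : 0 ≤ δ) (hB : 0 ≤ B) (hP : 0 ≤ P)
    (ht : ∀ i, 0 ≤ t i) (hτ : ∀ i, Real.exp (-(t i / (8 * R))) * ‖τ i‖ ≤ P)
    (hh : |h| ≤ lam * B ^ 2) (hk : ‖k‖ ≤ lam * B ^ 3) :
    (∑ i, F1 R (t i)) * Qu + ∑ i, QF R (t i) (τ i) (σ i) - 3 * q * Err lam δ B P ≤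
      ∑ i, (FJ R (TJ t τ σ h k Qu i)).Q := by
  have h1 : ∀ i ∈ (Finset.univ : Finset (Fin q)),
      F1 R (t i) * Qu + QF R (t i) (τ i) (σ i) - 3 * Err lam δ B P ≤
        (FJ R (TJ t τ σ h k Qu i)).Q := by
    intro i _
    have h2 : (FJ R (TJ t τ σ h k Qu i)).Q = F1 R (t i) * Qu + QF R (t i) (τ i) (σ i)
        + (2 * F2 R (t i) * h ^ 2 + 4 * F2 R (t i) * (τ i * conj k).re
        + 4 * F3 R (t i) * ‖τ i‖ ^ 2 * h) := FQ R (t i) (τ i) (σ i) h k Qu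
    rw [h2]
    have h3 := Flow_ge hR (ht i) hP (hτ i) hh hk
    have h4 : 0 ≤ 3 * Err lam δ B P - (2 * P * (lam * B ^ 3)) - 3 * P ^ 2 * (lam * B ^ 2) := by
      unfold Err
      have : 3 * (lam * (P ^ 3 * B + P ^ 2 * B ^ 2 + P * B ^ 3) + lam ^ 2 * B ^ 4 + δ * P ^ 4)
        - (2 * P * (lam * B ^ 3)) - 3 * P ^ 2 * (lam * B ^ 2) =
        3 * (lam * (P ^ 3 * B)) + lam * (P * B ^ 3) + 3 * (lam ^ 2 * B ^ 4) + 3 * (δ * P ^ 4) := by
        ring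
      rw [this]; positivity
    linarith
  refine le_trans (le_of_eq ?_) (Finset.sum_le_sum h1)
  rw [Finset.sum_sub_distrib, Finset.sum_add_distrib, Finset.sum_mul]
  simp
  ring

/-- truncation to the coordinates outside `I` -/
def tr (I : Finset (Fin q)) (τ : Fin q → ℂ) (i : Fin q) : ℂ := if i ∈ I then 0 else τ i

/-- the main part of an embedding -/
def Te (W : (Fin p → ℝ) → ℝ) (t : Fin q → ℝ) (τ σ : Fin q → ℂ) (Qu : ℝ) (I : Finset (Fin q))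
    (e : Fin p ↪ Fin q) : ℝ :=
  holQ W (fun j => t (e j)) (fun j => tr I τ (e j)) (fun j => tr I σ (e j))
    + (∑ i, pd W i (fun j => t (e j))) * Qu

theorem norm_tr_le (I : Finset (Fin q)) (τ : Fin q → ℂ) (i : Fin q) : ‖tr I τ i‖ ≤ ‖τ i‖ := by
  unfold tr; split_ifs <;> simp

theorem exp_sq8 (R s : ℝ) : Real.exp (-(s / (8 * R))) ^ 2 = Real.exp (-(s / (4 * R))) := by
  rw [← Real.exp_nat_mul]
  congr 1
  push_cast
  rcases eq_or_ne R 0 with rfl | hR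
  · simp
  · field_simp; ring

theorem term_ge {Cw : ℝ} (hp : 1 ≤ (p : ℝ)) (hR : 1 ≤ R) (hlam : 0 ≤ lam) (hδ : 0 ≤ δ)
    (hδ1 : δ ≤ 1) (hB : 0 ≤ B) (hP : 0 ≤ P) (ht : ∀ i, 0 ≤ t i)
    (hCw : 0 ≤ Cw) (hbnd : ∀ x : Fin p → ℝ, (∀ i, 0 ≤ x i) →
      Bnd W x (fun i => Real.exp (-(x i / (8 * R))))
        (Cw * Real.exp (-(3 * (∑ i, x i) / (2 * R)))))
    (hD : ∀ i ∈ D, Real.exp (-(t i / (2 * R))) ≤ δ)
    (hI : ∀ i ∈ I, ‖τ i‖ ≤ lam * B ∧ ‖σ i‖ ≤ lam * B ^ 2)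
    (hτ : ∀ i, Real.exp (-(t i / (8 * R))) * ‖τ i‖ ≤ P ∧
        Real.exp (-(t i / (4 * R))) * ‖σ i‖ ≤ P ^ 2)
    (hh : |h| ≤ lam * B ^ 2) (hk : ‖k‖ ≤ lam * B ^ 3) (hQ : 0 ≤ Qu) (e : Fin p ↪ Fin q) :
    (if ∀ j, e j ∉ D then Te W t τ σ Qu I e else 0)
        - (8 * ((p : ℝ) ^ 4 * Cw) * Err lam δ B P + (p : ℝ) ^ 4 * Cw * δ * Qu) ≤
      (multiJet W (fun j => TJ t τ σ h k Qu (e j))).Q := by
  rw [multiQ W t τ σ h k Qu e]
  have hx : ∀ j, 0 ≤ (fun j => t (e j)) j := fun j => ht (e j)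
  have hb := hbnd (fun j => t (e j)) hx
  have hS0 : 0 ≤ ∑ j, t (e j) := Finset.sum_nonneg fun j _ => ht (e j)
  have hR0 : 0 < R := by linarith
  have hE1 : Real.exp (-(3 * (∑ j, t (e j)) / (2 * R))) ≤ 1 := by
    rw [Real.exp_le_one_iff]
    have : 0 ≤ 3 * (∑ j, t (e j)) / (2 * R) := by positivity
    linarith
  have ha : ∀ j, Real.exp (-(t (e j) / (8 * R))) * ‖τ (e j)‖ ≤ P := fun j => (hτ (e j)).1
  have hbb : ∀ j, Real.exp (-(t (e j) / (8 * R))) ^ 2 * ‖σ (e j)‖ ≤ P ^ 2 := fun j => by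
    rw [exp_sq8]; exact (hτ (e j)).2
  by_cases hav : ∀ j, e j ∉ D
  · rw [if_pos hav]
    have hCK : Cw * Real.exp (-(3 * (∑ j, t (e j)) / (2 * R))) ≤ Cw := by
      calc Cw * Real.exp (-(3 * (∑ j, t (e j)) / (2 * R))) ≤ Cw * 1 := by gcongr
        _ = Cw := mul_one _
    have ha₁ : ∀ j, Real.exp (-(t (e j) / (8 * R))) * ‖tr I τ (e j)‖ ≤ P := fun j =>
      (mul_le_mul_of_nonneg_left (norm_tr_le I τ (e j)) (Real.exp_pos _).le).trans (ha j)
    have hb₁ : ∀ j, Real.exp (-(t (e j) / (8 * R))) ^ 2 * ‖tr I σ (e j)‖ ≤ P ^ 2 := fun j =>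
      (mul_le_mul_of_nonneg_left (norm_tr_le I σ (e j)) (by positivity)).trans (hbb j)
    have hX : ∀ j, ‖τ (e j) - tr I τ (e j)‖ ≤ lam * B := fun j => by
      unfold tr
      split_ifs with h1
      · simpa using (hI _ h1).1
      · simp; positivity
    have hY : ∀ j, ‖σ (e j) - tr I σ (e j)‖ ≤ lam * B ^ 2 := fun j => by
      unfold tr
      split_ifs with h1
      · simpa using (hI _ h1).2
      · simp; positivity
    have := avoid_ge (Qu := Qu) hb hp hlam hδ hB hP hCw hCK ha hbb ha₁ hb₁ hX hY hh hk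
    unfold Te
    have h0 : 0 ≤ (p : ℝ) ^ 4 * Cw * δ * Qu := by positivity
    linarith
  · rw [if_neg hav]
    push Not at hav
    obtain ⟨j, hj⟩ := hav
    have hCK : Cw * Real.exp (-(3 * (∑ j, t (e j)) / (2 * R))) ≤ Cw * δ := by
      refine mul_le_mul_of_nonneg_left (le_trans ?_ (hD _ hj)) hCw
      rw [Real.exp_le_exp]
      have h1 : t (e j) ≤ ∑ j, t (e j) :=
        Finset.single_le_sum (f := fun j => t (e j)) (fun i _ => ht (e i)) (Finset.mem_univ j)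
      have h2 : t (e j) / (2 * R) ≤ 3 * (∑ j, t (e j)) / (2 * R) := by
        gcongr
        linarith
      linarith
    have := hit_ge hb hp hlam hδ hδ1 hB hP hCw hCK ha hbb hh hk hQ
    linarith

/-- weights -/
def wt (R : ℝ) (t : Fin q → ℝ) (τ σ : Fin q → ℂ) (i : Fin q) : ℝ :=
  Real.exp (-(2 * t i / R)) * (‖τ i‖ ^ 4 + ‖σ i‖ ^ 2)

theorem wt_nonneg (R : ℝ) (t : Fin q → ℝ) (τ σ : Fin q → ℂ) (i : Fin q) : 0 ≤ wt R t τ σ i := by
  unfold wt; positivity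

theorem QFi_ge (hR : 1 ≤ R) (ht : ∀ i, 0 ≤ t i) (i : Fin q) :
    1 / (32 * R ^ 2) * wt R t τ σ i ≤ QF R (t i) (τ i) (σ i) :=
  QF_lower hR (ht i) (τ i) (σ i)

/-- the case of exactly `m` deep coordinates -/
theorem main_ge_two {kk : ℕ} {ca Ca L r₀ cs ε : ℝ} (hca : 0 < ca)
    (hM : IsModel p kk ca Ca L R W) (hr₀ : 0 < r₀)
    (hcone : ∀ t : Fin p → ℝ, (∀ i, 0 ≤ t i) →
    ∀ J : Finset (Fin p), J.card ≤ kk → (∀ i, i ∉ J → t i ≤ ε) →
    ∀ τ σ : Fin p → ℂ, (∀ i, i ∉ J → τ i = 0 ∧ σ i = 0) →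
      cs * ∑ i ∈ J, Real.exp (-(2 * t i / R)) * (‖τ i‖ ^ 4 + ‖σ i‖ ^ 2)
        ≤ ∑ i, QF R (t i) (τ i) (σ i) + holQ W t τ σ)
    (hδ : 0 ≤ δ) (ht : ∀ i, 0 ≤ t i) (hDc : Dᶜ.card = p)
    (hIc : (D ∪ I)ᶜ.card ≤ kk) (hD : ∀ i ∈ D, Real.exp (-(t i / (2 * R))) ≤ δ)
    (hI : ∀ i ∈ I, t i ≤ ε) (hQ : 0 ≤ Qu) {i₁ : Fin q} (hi₁ : i₁ ∉ D) (hti₁ : r₀ ≤ t i₁) :
    (ca * min 1 r₀ ^ 3 - q * (3 * R / 8) * δ) * Qu
        + min cs (1 / (32 * R ^ 2)) * ∑ i ∈ Iᶜ, wt R t τ σ i ≤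
      -(p * F1 R 0) * Qu + (∑ i, F1 R (t i)) * Qu + ∑ i, QF R (t i) (τ i) (σ i)
        + 1 / (p.factorial : ℝ) *
          ∑ e ∈ (Finset.univ : Finset (Fin p ↪ Fin q)).filter (fun e => ∀ j, e j ∉ D),
            Te W t τ σ Qu I e := by
  classical
  have hR := hM.hR
  have hR0 : 0 < R := by linarith
  set Av := (Finset.univ : Finset (Fin p ↪ Fin q)).filter (fun e => ∀ j, e j ∉ D) with hAv
  have hcard : (Av.card : ℝ) = (p.factorial : ℝ) := by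
    rw [hAv]; exact_mod_cast card_avoid hDc
  have hpf : (0 : ℝ) < (p.factorial : ℝ) := by exact_mod_cast p.factorial_pos
  -- the key inequality for an avoiding embedding
  set G := (∑ i ∈ Dᶜ, (F1 R (t i) - F1 R 0)) * Qu
    + ∑ i ∈ Dᶜ, QF R (t i) (tr I τ i) (tr I σ i) with hG
  set Lw := ca * min 1 r₀ ^ 3 * Qu + cs * ∑ i ∈ Dᶜ, (if i ∈ I then 0 else wt R t τ σ i) with hLw
  have key : ∀ e ∈ Av, Lw - G ≤ Te W t τ σ Qu I e := by
    intro e he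
    have he' : ∀ j, e j ∉ D := (Finset.mem_filter.1 he).2
    have hx : ∀ j, 0 ≤ (fun j => t (e j)) j := fun j => ht (e j)
    -- the u-coefficient
    have h1 : ca * min 1 r₀ ^ 3 ≤ ∑ i ∈ Dᶜ, (F1 R (t i) - F1 R 0)
        + ∑ i, pd W i (fun j => t (e j)) := by
      have hmem : i₁ ∈ Finset.univ.map e := by
        rw [map_avoid hDc he']; exact Finset.mem_compl.2 hi₁
      obtain ⟨j₁, _, hj₁⟩ := Finset.mem_map.1 hmem
      have h2 := hM.mono (fun j => t (e j)) hx j₁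
      have h3 : t (e j₁) = t i₁ := by rw [hj₁]
      simp only [h3] at h2
      have h4 : aV R W (fun j => t (e j)) = ∑ i ∈ Dᶜ, (F1 R (t i) - F1 R 0)
          + ∑ i, pd W i (fun j => t (e j)) := by
        unfold aV
        rw [← sum_avoid hDc he' (fun i => F1 R (t i) - F1 R 0)]
      rw [h4] at h2
      refine le_trans ?_ h2
      have h5 : min 1 r₀ ≤ min 1 (t i₁) := min_le_min le_rfl hti₁
      have h6 : 0 ≤ min 1 r₀ := le_min zero_le_one hr₀.le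
      gcongr
    -- the cone part
    have h2 : cs * ∑ i ∈ Dᶜ, (if i ∈ I then 0 else wt R t τ σ i) ≤
        ∑ i ∈ Dᶜ, QF R (t i) (tr I τ i) (tr I σ i)
        + holQ W (fun j => t (e j)) (fun j => tr I τ (e j)) (fun j => tr I σ (e j)) := by
      set J := (Finset.univ : Finset (Fin p)).filter (fun j => e j ∉ I) with hJ
      have hJc : J.card ≤ kk := by
        refine le_trans ?_ hIc
        rw [← Finset.card_map e]
        apply Finset.card_le_card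
        intro i hi
        obtain ⟨j, hj, rfl⟩ := Finset.mem_map.1 hi
        have := (Finset.mem_filter.1 hj).2
        rw [Finset.mem_compl, Finset.mem_union, not_or]
        exact ⟨he' j, this⟩
      have h3 := hcone (fun j => t (e j)) hx J hJc
        (fun j hj => by
          have : e j ∈ I := by
            by_contra hc
            exact hj (Finset.mem_filter.2 ⟨Finset.mem_univ _, hc⟩)
          exact hI _ this)
        (fun j => tr I τ (e j)) (fun j => tr I σ (e j))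
        (fun j hj => by
          have : e j ∈ I := by
            by_contra hc
            exact hj (Finset.mem_filter.2 ⟨Finset.mem_univ _, hc⟩)
          simp [tr, this])
      rw [← sum_avoid hDc he' (fun i => QF R (t i) (tr I τ i) (tr I σ i)),
        ← sum_avoid hDc he' (fun i => if i ∈ I then 0 else wt R t τ σ i)]
      refine le_trans (le_of_eq ?_) h3
      congr 1
      rw [hJ, Finset.sum_filter]
      refine Finset.sum_congr rfl fun j _ => ?_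
      by_cases hji : e j ∈ I
      · simp [hji]
      · simp [hji, tr, wt]
    have h3 := mul_le_mul_of_nonneg_right h1 hQ
    rw [hLw, hG]
    unfold Te
    nlinarith [h2, h3]
  have hsum : Lw - G ≤ 1 / (p.factorial : ℝ) * ∑ e ∈ Av, Te W t τ σ Qu I e := by
    have h1 : (p.factorial : ℝ) * (Lw - G) ≤ ∑ e ∈ Av, Te W t τ σ Qu I e := by
      rw [← hcard, ← nsmul_eq_mul, ← Finset.sum_const]
      exact Finset.sum_le_sum key
    rw [one_div, inv_mul_eq_div, le_div_iff₀ hpf]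
    linarith
  -- splitting
  have s1 : ∑ i, F1 R (t i) = ∑ i ∈ D, F1 R (t i) + ∑ i ∈ Dᶜ, F1 R (t i) :=
    (Finset.sum_add_sum_compl D _).symm
  have s2 : ∑ i, QF R (t i) (τ i) (σ i) = ∑ i ∈ D, QF R (t i) (τ i) (σ i)
      + ∑ i ∈ Dᶜ, QF R (t i) (τ i) (σ i) := (Finset.sum_add_sum_compl D _).symm
  have s3 : ∑ i ∈ Iᶜ, wt R t τ σ i = ∑ i ∈ D, (if i ∈ I then 0 else wt R t τ σ i)
      + ∑ i ∈ Dᶜ, (if i ∈ I then 0 else wt R t τ σ i) := by
    rw [Finset.sum_add_sum_compl D]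
    rw [← Finset.sum_filter_add_sum_filter_not Finset.univ (fun i => i ∈ I)]
    rw [Finset.sum_filter, Finset.sum_filter]
    rw [← Finset.sum_add_distrib]
    rw [← Finset.sum_filter_add_sum_filter_not Finset.univ (fun i => i ∈ I)]
    have e1 : ∑ x ∈ Finset.univ.filter (fun i => i ∈ I),
        ((if x ∈ I then if x ∈ I then 0 else wt R t τ σ x else 0)
          + if ¬x ∈ I then if x ∈ I then 0 else wt R t τ σ x else 0) = 0 := by
      apply Finset.sum_eq_zero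
      intro x hx
      have := (Finset.mem_filter.1 hx).2
      simp [this]
    rw [e1, zero_add]
    have e2 : Iᶜ = Finset.univ.filter (fun i => ¬ i ∈ I) := by
      ext i; simp
    rw [e2]
    refine Finset.sum_congr rfl fun x hx => ?_
    have := (Finset.mem_filter.1 hx).2
    simp [this]
  have s4 : ∑ i ∈ Dᶜ, (F1 R (t i) - F1 R 0) = ∑ i ∈ Dᶜ, F1 R (t i) - p * F1 R 0 := by
    rw [Finset.sum_sub_distrib, Finset.sum_const, hDc, nsmul_eq_mul]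
  have g1 : -(q * (3 * R / 8) * δ) ≤ ∑ i ∈ D, F1 R (t i) := by
    have h1 : ∀ i ∈ D, -(3 * R / 8 * δ) ≤ F1 R (t i) := by
      intro i hi
      refine le_trans ?_ (F1_lower hR (ht i))
      have h2 : Real.exp (-(t i / R)) ≤ δ := by
        refine le_trans ?_ (hD i hi)
        rw [Real.exp_le_exp]
        have h3 : t i / (2 * R) ≤ t i / R := by
          apply div_le_div_of_nonneg_left (ht i) hR0
          linarith
        linarith
      nlinarith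
    have h2 := Finset.sum_le_sum h1
    rw [Finset.sum_const, nsmul_eq_mul] at h2
    refine le_trans ?_ h2
    have h3 : (D.card : ℝ) ≤ q := by
      have := Finset.card_le_univ D
      rw [Fintype.card_fin] at this
      exact_mod_cast this
    have h4 : 0 ≤ 3 * R / 8 * δ := by positivity
    nlinarith
  have g2 : ∑ i ∈ Dᶜ, QF R (t i) (tr I τ i) (tr I σ i) ≤ ∑ i ∈ Dᶜ, QF R (t i) (τ i) (σ i) := by
    apply Finset.sum_le_sum
    intro i _
    unfold tr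
    split_ifs
    · rw [QF_zero]; exact QF_nonneg hR (ht i) _ _
    · exact le_rfl
  have g3 : 1 / (32 * R ^ 2) * ∑ i ∈ D, (if i ∈ I then 0 else wt R t τ σ i) ≤
      ∑ i ∈ D, QF R (t i) (τ i) (σ i) := by
    rw [Finset.mul_sum]
    apply Finset.sum_le_sum
    intro i _
    refine le_trans ?_ (QFi_ge hR ht i)
    have := wt_nonneg R t τ σ i
    split_ifs
    · simp; positivity
    · exact le_rfl
  have g4 : 0 ≤ ∑ i ∈ D, (if i ∈ I then 0 else wt R t τ σ i) := by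
    apply Finset.sum_nonneg
    intro i _
    have := wt_nonneg R t τ σ i
    split_ifs <;> linarith
  have g5 : 0 ≤ ∑ i ∈ Dᶜ, (if i ∈ I then 0 else wt R t τ σ i) := by
    apply Finset.sum_nonneg
    intro i _
    have := wt_nonneg R t τ σ i
    split_ifs <;> linarith
  have g6 : min cs (1 / (32 * R ^ 2)) * ∑ i ∈ Iᶜ, wt R t τ σ i ≤
      cs * ∑ i ∈ Dᶜ, (if i ∈ I then 0 else wt R t τ σ i) + ∑ i ∈ D, QF R (t i) (τ i) (σ i) := by
    rw [s3, mul_add]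
    have h1 := mul_le_mul_of_nonneg_right (min_le_left cs (1 / (32 * R ^ 2))) g5
    have h2 := mul_le_mul_of_nonneg_right (min_le_right cs (1 / (32 * R ^ 2))) g4
    linarith
  have g7 := mul_le_mul_of_nonneg_right g1 hQ
  rw [hLw, hG, s4] at hsum
  rw [s1, s2]
  linear_combination hsum + g6 + g7 + g2

/-- the case of more than `m` deep coordinates -/
theorem main_ge_one {cs : ℝ} (hR : 1 ≤ R)
    (hδ : 0 ≤ δ) (ht : ∀ i, 0 ≤ t i) (hDc : Dᶜ.card + 1 ≤ p)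
    (hD : ∀ i ∈ D, Real.exp (-(t i / (2 * R))) ≤ δ) (hQ : 0 ≤ Qu) :
    (3 * R / 8 - q * (3 * R / 8) * δ) * Qu
        + min cs (1 / (32 * R ^ 2)) * ∑ i ∈ Iᶜ, wt R t τ σ i ≤
      -(p * F1 R 0) * Qu + (∑ i, F1 R (t i)) * Qu + ∑ i, QF R (t i) (τ i) (σ i)
        + 1 / (p.factorial : ℝ) *
          ∑ e ∈ (Finset.univ : Finset (Fin p ↪ Fin q)).filter (fun e => ∀ j, e j ∉ D),
            Te W t τ σ Qu I e := by
  classical
  have hR0 : 0 < R := by linarith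
  have hemp : (Finset.univ : Finset (Fin p ↪ Fin q)).filter (fun e => ∀ j, e j ∉ D) = ∅ := by
    rw [Finset.filter_eq_empty_iff]
    intro e _ he
    have h1 : (Finset.univ.map e).card ≤ Dᶜ.card := by
      apply Finset.card_le_card
      intro i hi
      obtain ⟨j, _, rfl⟩ := Finset.mem_map.1 hi
      exact Finset.mem_compl.2 (he j)
    rw [Finset.card_map, Finset.card_univ, Fintype.card_fin] at h1
    omega
  rw [hemp, Finset.sum_empty, mul_zero, add_zero]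
  have s1 : ∑ i, F1 R (t i) = ∑ i ∈ D, F1 R (t i) + ∑ i ∈ Dᶜ, F1 R (t i) :=
    (Finset.sum_add_sum_compl D _).symm
  have g1 : -(q * (3 * R / 8) * δ) ≤ ∑ i ∈ D, F1 R (t i) := by
    have h1 : ∀ i ∈ D, -(3 * R / 8 * δ) ≤ F1 R (t i) := by
      intro i hi
      refine le_trans ?_ (F1_lower hR (ht i))
      have h2 : Real.exp (-(t i / R)) ≤ δ := by
        refine le_trans ?_ (hD i hi)
        rw [Real.exp_le_exp]
        have h3 : t i / (2 * R) ≤ t i / R := by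
          apply div_le_div_of_nonneg_left (ht i) hR0
          linarith
        linarith
      nlinarith
    have h2 := Finset.sum_le_sum h1
    rw [Finset.sum_const, nsmul_eq_mul] at h2
    refine le_trans ?_ h2
    have h3 : (D.card : ℝ) ≤ q := by
      have := Finset.card_le_univ D
      rw [Fintype.card_fin] at this
      exact_mod_cast this
    have h4 : 0 ≤ 3 * R / 8 * δ := by positivity
    nlinarith
  have g2 : -((Dᶜ.card : ℝ) * (3 * R / 8)) ≤ ∑ i ∈ Dᶜ, F1 R (t i) := by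
    have h1 : ∀ i ∈ Dᶜ, -(3 * R / 8) ≤ F1 R (t i) := fun i _ => by
      rw [← F1_zero]; exact F1_ge_zero hR (ht i)
    have h2 := Finset.sum_le_sum h1
    rw [Finset.sum_const, nsmul_eq_mul] at h2
    linarith
  have hc : (Dᶜ.card : ℝ) + 1 ≤ p := by exact_mod_cast hDc
  have g3 : 3 * R / 8 - q * (3 * R / 8) * δ ≤ -(p * F1 R 0) + ∑ i, F1 R (t i) := by
    rw [s1, F1_zero]
    nlinarith
  have g4 := mul_le_mul_of_nonneg_right g3 hQ
  have g5 : 0 ≤ ∑ i ∈ Iᶜ, wt R t τ σ i := Finset.sum_nonneg fun i _ => wt_nonneg R t τ σ i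
  have g6 := mul_le_mul_of_nonneg_right (min_le_right cs (1 / (32 * R ^ 2))) g5
  have g7 : 1 / (32 * R ^ 2) * ∑ i ∈ Iᶜ, wt R t τ σ i ≤ ∑ i, QF R (t i) (τ i) (σ i) := by
    calc 1 / (32 * R ^ 2) * ∑ i ∈ Iᶜ, wt R t τ σ i ≤ ∑ i ∈ Iᶜ, QF R (t i) (τ i) (σ i) := by
          rw [Finset.mul_sum]
          exact Finset.sum_le_sum fun i _ => QFi_ge hR ht i
      _ ≤ ∑ i, QF R (t i) (τ i) (σ i) :=
          Finset.sum_le_sum_of_subset_of_nonneg (Finset.subset_univ _)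
            (fun i _ _ => QF_nonneg hR (ht i) _ _)
  linear_combination g4 + g6 + g7

end assembly

end C3aux

variable {q p : ℕ}

/-- Case B: either more than `m` deep coordinates, or some other coordinate is at distance
at least `r₀` from the vertex.  `I` = top coordinates, `D` = deep coordinates. -/
theorem caseB {n m p : ℕ} (hn : 1 ≤ n) (hm : m ≤ n) (hp : p + m = 2 * n + 1)
    {ca Ca L R : ℝ} (hca : 0 < ca) {W : (Fin p → ℝ) → ℝ} (hM : IsModel p (n - m) ca Ca L R W)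
    {r₀ κ : ℝ} (hr₀ : 0 < r₀) (hκ : 0 < κ) :
    ∃ c C ε δ₀ : ℝ, 0 < c ∧ 0 < ε ∧ 0 < δ₀ ∧
    ∀ (lam δ B P h Qu : ℝ) (k : ℂ) (t : Fin (2 * n + 1) → ℝ) (τ σ : Fin (2 * n + 1) → ℂ)
      (D I : Finset (Fin (2 * n + 1))),
      0 < lam → lam ≤ 1 → 0 ≤ δ → δ ≤ δ₀ → 0 ≤ B → 0 ≤ P → (∀ i, 0 ≤ t i) →
      m ≤ D.card → n + 1 ≤ I.card → Disjoint D I →
      (∀ i ∈ D, Real.exp (-(t i / (2 * R))) ≤ δ) →
      (∀ i ∈ I, t i ≤ ε ∧ ‖τ i‖ ≤ lam * B ∧ ‖σ i‖ ≤ lam * B ^ 2) →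
      |h| ≤ lam * B ^ 2 → ‖k‖ ≤ lam * B ^ 3 → κ * lam * B ^ 4 ≤ Qu →
      (∀ i, Real.exp (-(t i / (8 * R))) * ‖τ i‖ ≤ P ∧
        Real.exp (-(t i / (4 * R))) * ‖σ i‖ ≤ P ^ 2) →
      (m + 1 ≤ D.card ∨ ∃ i, i ∉ D ∧ r₀ ≤ t i) →
      c * lam * B ^ 4
          + c * ∑ i ∈ Iᶜ, Real.exp (-(2 * t i / R)) * (‖τ i‖ ^ 4 + ‖σ i‖ ^ 2)
          - C * (lam * (P ^ 3 * B + P ^ 2 * B ^ 2 + P * B ^ 3) + lam ^ 2 * B ^ 4 + δ * P ^ 4)
        ≤ QG p R W t τ σ h k Qu := by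
  classical
  obtain ⟨cs, hcs, ε, hε, hcone⟩ := hM.cone
  obtain ⟨Cw, hCw, hbnd⟩ := C3aux.bnd_of_model hM
  have hR := hM.hR
  have hR0 : 0 < R := by linarith
  have hp1 : 1 ≤ (p : ℝ) := by
    have : 1 ≤ p := by omega
    exact_mod_cast this
  have hpf : (0 : ℝ) < (p.factorial : ℝ) := by exact_mod_cast p.factorial_pos
  set N : ℝ := (Fintype.card (Fin p ↪ Fin (2 * n + 1)) : ℝ) with hN
  have hN0 : 0 ≤ N := by rw [hN]; positivity
  set A : ℝ := 1 / (p.factorial : ℝ) * N with hA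
  have hA0 : 0 ≤ A := by rw [hA]; positivity
  set K1 : ℝ := (p : ℝ) ^ 4 * Cw with hK1
  have hK10 : 0 ≤ K1 := by rw [hK1]; positivity
  set M : ℝ := ((2 * n + 1 : ℕ) : ℝ) * (3 * R / 8) + A * K1 with hMdef
  have hM0 : 0 ≤ M := by rw [hMdef]; positivity
  have hmr : 0 < min 1 r₀ := lt_min one_pos hr₀
  set c0 : ℝ := min (3 * R / 8) (ca * min 1 r₀ ^ 3) with hc0
  have hc0pos : 0 < c0 := lt_min (by positivity) (by positivity)
  have hcm : 0 < min cs (1 / (32 * R ^ 2)) := lt_min hcs (by positivity)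
  set c : ℝ := min (c0 / 2 * κ) (min cs (1 / (32 * R ^ 2))) with hc
  refine ⟨c, 3 * ((2 * n + 1 : ℕ) : ℝ) + 8 * A * K1, ε, min 1 (c0 / (2 * (M + 1))),
    lt_min (by positivity) hcm, hε, lt_min one_pos (by positivity), ?_⟩
  intro lam δ B P h Qu k t τ σ D I hlam hlam1 hδ hδ₀ hB hP ht hmD hnI hDI hD hI hh hk hQu hw hcase
  have hδ1 : δ ≤ 1 := hδ₀.trans (min_le_left _ _)
  have hMδ : M * δ ≤ c0 / 2 := by
    have h1 : δ ≤ c0 / (2 * (M + 1)) := hδ₀.trans (min_le_right _ _)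
    rw [le_div_iff₀ (by positivity)] at h1
    nlinarith
  have hQ : 0 ≤ Qu := le_trans (by positivity) hQu
  have hE := C3aux.Err_nonneg hlam.le hδ hB hP
  -- `F` part
  have hF := C3aux.Fsum_ge (Qu := Qu) (σ := σ) hR hlam.le hδ hB hP ht (fun i => (hw i).1) hh hk
  -- `W` part
  have hterm : ∀ e ∈ (Finset.univ : Finset (Fin p ↪ Fin (2 * n + 1))),
      (if ∀ j, e j ∉ D then C3aux.Te W t τ σ Qu I e else 0)
        - (8 * K1 * C3aux.Err lam δ B P + K1 * δ * Qu) ≤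
      (multiJet W (fun j => TJ t τ σ h k Qu (e j))).Q := fun e _ =>
    C3aux.term_ge hp1 hR hlam.le hδ hδ1 hB hP ht hCw hbnd hD (fun i hi => (hI i hi).2) hw hh hk hQ e
  have hsum := Finset.sum_le_sum hterm
  rw [Finset.sum_sub_distrib, Finset.sum_const, Finset.card_univ, nsmul_eq_mul, ← hN,
    ← Finset.sum_filter] at hsum
  have hsum' := mul_le_mul_of_nonneg_left hsum (by positivity : 0 ≤ 1 / (p.factorial : ℝ))
  -- main part
  have hmain : (c0 - ((2 * n + 1 : ℕ) : ℝ) * (3 * R / 8) * δ) * Qu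
        + min cs (1 / (32 * R ^ 2)) * ∑ i ∈ Iᶜ, C3aux.wt R t τ σ i ≤
      -(p * F1 R 0) * Qu + (∑ i, F1 R (t i)) * Qu + ∑ i, QF R (t i) (τ i) (σ i)
        + 1 / (p.factorial : ℝ) *
          ∑ e ∈ (Finset.univ : Finset (Fin p ↪ Fin (2 * n + 1))).filter (fun e => ∀ j, e j ∉ D),
            C3aux.Te W t τ σ Qu I e := by
    have hcardD : Dᶜ.card = 2 * n + 1 - D.card := by
      rw [Finset.card_compl, Fintype.card_fin]
    have hDle : D.card ≤ 2 * n + 1 := by simpa using Finset.card_le_univ D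
    by_cases hDm : m + 1 ≤ D.card
    · have h1 := C3aux.main_ge_one (W := W) (I := I) (cs := cs) (τ := τ) (σ := σ) (p := p) hR hδ ht
        (by omega) hD hQ
      refine le_trans ?_ h1
      have h2 : c0 ≤ 3 * R / 8 := min_le_left _ _
      have h3 := mul_le_mul_of_nonneg_right h2 hQ
      linear_combination h3
    · obtain ⟨i₁, hi₁, hti₁⟩ := hcase.resolve_left hDm
      have hDIc : (D ∪ I)ᶜ.card ≤ n - m := by
        rw [Finset.card_compl, Fintype.card_fin, Finset.card_union_of_disjoint hDI]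
        omega
      have h1 := C3aux.main_ge_two hca hM hr₀ hcone hδ ht (by omega) hDIc hD
        (fun i hi => (hI i hi).1) hQ hi₁ hti₁ (τ := τ) (σ := σ)
      refine le_trans ?_ h1
      have h2 : c0 ≤ ca * min 1 r₀ ^ 3 := min_le_right _ _
      have h3 := mul_le_mul_of_nonneg_right h2 hQ
      linear_combination h3
  -- conclusion
  have hwt0 : 0 ≤ ∑ i ∈ Iᶜ, C3aux.wt R t τ σ i :=
    Finset.sum_nonneg fun i _ => C3aux.wt_nonneg R t τ σ i
  have f1 : c * lam * B ^ 4 ≤ c0 / 2 * Qu := by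
    have h1 : c ≤ c0 / 2 * κ := min_le_left _ _
    have h2 : 0 ≤ lam * B ^ 4 := by positivity
    calc c * lam * B ^ 4 = c * (lam * B ^ 4) := by ring
      _ ≤ c0 / 2 * κ * (lam * B ^ 4) := by gcongr
      _ = c0 / 2 * (κ * lam * B ^ 4) := by ring
      _ ≤ c0 / 2 * Qu := by gcongr
  have f2 : c * ∑ i ∈ Iᶜ, C3aux.wt R t τ σ i ≤
      min cs (1 / (32 * R ^ 2)) * ∑ i ∈ Iᶜ, C3aux.wt R t τ σ i :=
    mul_le_mul_of_nonneg_right (min_le_right _ _) hwt0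
  have f3 := mul_le_mul_of_nonneg_right hMδ hQ
  change c * lam * B ^ 4 + c * ∑ i ∈ Iᶜ, C3aux.wt R t τ σ i
    - (3 * ((2 * n + 1 : ℕ) : ℝ) + 8 * A * K1) * C3aux.Err lam δ B P ≤ _
  unfold QG
  have hA' : 1 / (p.factorial : ℝ) * (∑ e ∈ (Finset.univ : Finset (Fin p ↪ Fin (2 * n + 1))).filter
      (fun e => ∀ j, e j ∉ D), C3aux.Te W t τ σ Qu I e
      - N * (8 * K1 * C3aux.Err lam δ B P + K1 * δ * Qu)) =
      1 / (p.factorial : ℝ) * ∑ e ∈ (Finset.univ : Finset (Fin p ↪ Fin (2 * n + 1))).filter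
      (fun e => ∀ j, e j ∉ D), C3aux.Te W t τ σ Qu I e
      - A * (8 * K1 * C3aux.Err lam δ B P + K1 * δ * Qu) := by
    rw [hA]; ring
  rw [hA'] at hsum'
  rw [hMdef] at f3
  linear_combination hsum' + hmain + hF + f1 + f2 + f3

end

end Pool.Agent.H789.HSC
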