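import Pool.Agent.H789.HSC.Model

open scoped BigOperators ContDiff ComplexConjugate

namespace Pool.Agent.H789.HSC

noncomputable section

variable {p : ℕ}

/-- `t ≥ 0`, `t_i ≤ ε` outside `J`, `|J| ≤ k`, `τ` supported on `J` -/
def ConeDir (k : ℕ) (ε : ℝ) (t : Fin p → ℝ) (J : Finset (Fin p)) (τ : Fin p → ℂ) : Prop :=
  (∀ i, 0 ≤ t i) ∧ J.card ≤ k ∧ (∀ i, i ∉ J → t i ≤ ε) ∧ (∀ i, i ∉ J → τ i = 0)

/-- size function: `min 1 (√(2^N / (1 + x)) / N)` -/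
def gN (N : ℕ) (x : ℝ) : ℝ := min 1 (Real.sqrt (2 ^ N / (1 + x)) / N)

end

end Pool.Agent.H789.HSC
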