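import Mathlib

/-!
Common definitions for MP_7c31d9_gt (Kaehler metrics of negative holomorphic sectional curvature
on complements of 2n+1 hyperplanes).

* `dz`, `dzb` : Wirtinger derivatives of functions `ℂ → ℂ` (real differentiable).
* `Jet`, `HasJet φ J` : the numbers `φ, φ_ζ, φ_ζζ, φ_ζζ̄, φ_ζζζ̄, φ_ζζζ̄ζ̄` at `ζ = 0` of a real
  function `φ : ℂ → ℝ`.
* `pd W i` : i-th partial derivative of `W : (ι → ℝ) → ℝ`.
* `D1 .. D4` : complexified derivative tensors.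
* `multiJet W T` : jet of the composition `W (t ζ)` when `t_i` has jet `T i`.
* `hpath s ξ η ζ` : the pluriharmonic path `s + 2 Re (ζ ξ + ζ² η / 2)`.
* `holQ W t τ σ` : the `Q`-component of the jet of `W` along `hpath t τ σ`.
-/

open scoped BigOperators ContDiff ComplexConjugate

namespace Pool.Agent.H789.HSC

noncomputable section

/-- `∂/∂ζ` -/
def dz (f : ℂ → ℂ) (z : ℂ) : ℂ := (fderiv ℝ f z 1 - Complex.I * fderiv ℝ f z Complex.I) / 2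

/-- `∂/∂ζ̄` -/
def dzb (f : ℂ → ℂ) (z : ℂ) : ℂ := (fderiv ℝ f z 1 + Complex.I * fderiv ℝ f z Complex.I) / 2

@[ext] structure Jet where
  /-- value -/
  v : ℝ
  /-- `φ_ζζ̄` -/
  h : ℝ
  /-- `φ_ζζζ̄ζ̄` -/
  Q : ℝ
  /-- `φ_ζ` -/
  a : ℂ
  /-- `φ_ζζ` -/
  b : ℂ
  /-- `φ_ζζζ̄` -/
  k : ℂ

/-- `J` is the jet at `0` of the real function `φ` (which is `C^4` near `0`). -/
def HasJet (φ : ℂ → ℝ) (J : Jet) : Prop :=
  ContDiffAt ℝ 4 φ 0 ∧ φ 0 = J.v ∧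
  dz (fun z => (φ z : ℂ)) 0 = J.a ∧
  dz (dz fun z => (φ z : ℂ)) 0 = J.b ∧
  dzb (dz fun z => (φ z : ℂ)) 0 = (J.h : ℂ) ∧
  dzb (dz (dz fun z => (φ z : ℂ))) 0 = J.k ∧
  dzb (dzb (dz (dz fun z => (φ z : ℂ)))) 0 = (J.Q : ℂ)

namespace Jet

/-- jet of a constant -/
def const (c : ℝ) : Jet := ⟨c, 0, 0, 0, 0, 0⟩

/-- jet of a pluriharmonic function -/
def hol (c : ℝ) (ξ η : ℂ) : Jet := ⟨c, 0, 0, ξ, η, 0⟩

def add (J K : Jet) : Jet := ⟨J.v + K.v, J.h + K.h, J.Q + K.Q, J.a + K.a, J.b + K.b, J.k + K.k⟩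

def smul (c : ℝ) (J : Jet) : Jet := ⟨c * J.v, c * J.h, c * J.Q, c * J.a, c * J.b, c * J.k⟩

/-- product rule -/
def mul (J K : Jet) : Jet where
  v := J.v * K.v
  a := J.v * K.a + K.v * J.a
  b := J.v * K.b + 2 * J.a * K.a + K.v * J.b
  h := J.v * K.h + 2 * (J.a * conj K.a).re + K.v * J.h
  k := J.v * K.k + 2 * J.a * K.h + J.b * conj K.a + conj J.a * K.b + 2 * J.h * K.a + K.v * J.k
  Q := J.v * K.Q + J.Q * K.v + 4 * (J.a * conj K.k).re + 4 * (J.k * conj K.a).re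
        + 2 * (J.b * conj K.b).re + 4 * J.h * K.h

/-- chain rule for a function of one variable with derivatives `F1, F2, F3, F4` at the point -/
def comp (F0 F1 F2 F3 F4 : ℝ) (J : Jet) : Jet where
  v := F0
  a := F1 * J.a
  b := F2 * J.a ^ 2 + F1 * J.b
  h := F2 * ‖J.a‖ ^ 2 + F1 * J.h
  k := F3 * ‖J.a‖ ^ 2 * J.a + 2 * F2 * J.a * J.h + F2 * conj J.a * J.b + F1 * J.k
  Q := F1 * J.Q + F2 * (2 * J.h ^ 2 + ‖J.b‖ ^ 2 + 4 * (J.a * conj J.k).re)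
        + F3 * (4 * ‖J.a‖ ^ 2 * J.h + 2 * ((conj J.a) ^ 2 * J.b).re) + F4 * ‖J.a‖ ^ 4

end Jet

section multi
variable {ι : Type*} [Fintype ι] [DecidableEq ι]

/-- partial derivative -/
def pd (W : (ι → ℝ) → ℝ) (i : ι) : (ι → ℝ) → ℝ := fun t => fderiv ℝ W t (Pi.single i 1)

def D1 (W : (ι → ℝ) → ℝ) (t : ι → ℝ) (u : ι → ℂ) : ℂ := ∑ i, (pd W i t : ℂ) * u i

def D2 (W : (ι → ℝ) → ℝ) (t : ι → ℝ) (u v : ι → ℂ) : ℂ :=
  ∑ i, ∑ j, (pd (pd W i) j t : ℂ) * u i * v j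

def D3 (W : (ι → ℝ) → ℝ) (t : ι → ℝ) (u v w : ι → ℂ) : ℂ :=
  ∑ i, ∑ j, ∑ l, (pd (pd (pd W i) j) l t : ℂ) * u i * v j * w l

def D4 (W : (ι → ℝ) → ℝ) (t : ι → ℝ) (u v w y : ι → ℂ) : ℂ :=
  ∑ i, ∑ j, ∑ l, ∑ m, (pd (pd (pd (pd W i) j) l) m t : ℂ) * u i * v j * w l * y m

/-- jet of `W (t ζ)` if `t i` has jet `T i` -/
def multiJet (W : (ι → ℝ) → ℝ) (T : ι → Jet) : Jet :=
  let x : ι → ℝ := fun i => (T i).v
  let a : ι → ℂ := fun i => (T i).a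
  let a' : ι → ℂ := fun i => conj (T i).a
  let b : ι → ℂ := fun i => (T i).b
  let b' : ι → ℂ := fun i => conj (T i).b
  let h : ι → ℂ := fun i => ((T i).h : ℂ)
  let k : ι → ℂ := fun i => (T i).k
  { v := W x
    a := D1 W x a
    b := D2 W x a a + D1 W x b
    h := (D2 W x a a').re + ∑ i, pd W i x * (T i).h
    k := D3 W x a a a' + D2 W x b a' + 2 * D2 W x a h + D1 W x k
    Q := (D4 W x a a a' a').re + 2 * (D3 W x b a' a').re + 4 * (D3 W x a a' h).re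
          + (D2 W x b b').re + 2 * (D2 W x h h).re + 4 * (D2 W x k a').re
          + ∑ i, pd W i x * (T i).Q }

/-- the pluriharmonic path -/
def hpath (s : ι → ℝ) (ξ η : ι → ℂ) (ζ : ℂ) : ι → ℝ :=
  fun i => s i + 2 * (ζ * ξ i + ζ ^ 2 * η i / 2).re

/-- the `Q`-component along a pluriharmonic path:
`D⁴W(τ,τ,τ̄,τ̄) + 2 Re D³W(σ,τ̄,τ̄) + D²W(σ,σ̄)` -/
def holQ (W : (ι → ℝ) → ℝ) (t : ι → ℝ) (τ σ : ι → ℂ) : ℝ :=
  (D4 W t τ τ (fun i => conj (τ i)) (fun i => conj (τ i))).re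
    + 2 * (D3 W t σ (fun i => conj (τ i)) (fun i => conj (τ i))).re
    + (D2 W t σ (fun i => conj (σ i))).re

end multi

end

end Pool.Agent.H789.HSC
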