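import Pool.Agent.H789.HSC.JetCalc1

/-! Jet calculus in several variables (task T2). -/

open scoped BigOperators ContDiff ComplexConjugate Topology

set_option linter.unusedSectionVars false

namespace Pool.Agent.H789.HSC

noncomputable section

namespace T2aux

/-- generic first order operator: `c = -I` gives `dz`, `c = I` gives `dzb` -/
def dd (c : ℂ) (f : ℂ → ℂ) (z : ℂ) : ℂ := (fderiv ℝ f z 1 + c * fderiv ℝ f z Complex.I) / 2

lemma dz_eq (f : ℂ → ℂ) : dz f = dd (-Complex.I) f := by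
  funext z; simp only [dz, dd]; ring

lemma dzb_eq (f : ℂ → ℂ) : dzb f = dd Complex.I f := rfl

lemma dd_congr {c : ℂ} {f g : ℂ → ℂ} {z : ℂ} (h : f =ᶠ[𝓝 z] g) : dd c f z = dd c g z := by
  simp only [dd, h.fderiv_eq]

lemma dd_add {c : ℂ} {f g : ℂ → ℂ} {z : ℂ} (hf : DifferentiableAt ℝ f z) (hg : DifferentiableAt ℝ g z) :
    dd c (fun z => f z + g z) z = dd c f z + dd c g z := by
  simp only [dd, fderiv_fun_add hf hg, add_apply]
  ring

lemma dd_mul {c : ℂ} {f g : ℂ → ℂ} {z : ℂ} (hf : DifferentiableAt ℝ f z) (hg : DifferentiableAt ℝ g z) :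
    dd c (fun z => f z * g z) z = dd c f z * g z + f z * dd c g z := by
  simp only [dd, fderiv_fun_mul hf hg, add_apply, smul_apply,
    smul_eq_mul]
  ring

lemma dd_sum {κ : Type*} (s : Finset κ) {c : ℂ} {f : κ → ℂ → ℂ} {z : ℂ}
    (hf : ∀ i ∈ s, DifferentiableAt ℝ (f i) z) :
    dd c (fun z => ∑ i ∈ s, f i z) z = ∑ i ∈ s, dd c (f i) z := by
  simp only [dd, fderiv_fun_sum hf, sum_apply, Finset.mul_sum,
    ← Finset.sum_add_distrib, Finset.sum_div]

lemma dd_contDiffAt {c : ℂ} {f : ℂ → ℂ} {z : ℂ} {n : ℕ} (hf : ContDiffAt ℝ (n + 1 : ℕ) f z) :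
    ContDiffAt ℝ n (dd c f) z := by
  have h1 : ContDiffAt ℝ n (fderiv ℝ f) z := hf.fderiv_right (m := n) (by push_cast; rfl)
  unfold dd
  have h2 : ∀ v : ℂ, ContDiffAt ℝ n (fun z => fderiv ℝ f z v) z := fun v =>
    h1.clm_apply contDiffAt_const
  exact ((h2 1).add (contDiffAt_const.mul (h2 Complex.I))).div_const 2

lemma dd_comm {c c' : ℂ} {f : ℂ → ℂ} {z : ℂ} (hf : ContDiffAt ℝ 2 f z) :
    dd c (dd c' f) z = dd c' (dd c f) z := by
  have h1 : ContDiffAt ℝ 1 (fderiv ℝ f) z := hf.fderiv_right (m := 1) (by norm_num)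
  have h1' : HasFDerivAt (fderiv ℝ f) (fderiv ℝ (fderiv ℝ f) z) z :=
    (h1.differentiableAt (by norm_num)).hasFDerivAt
  have hs : IsSymmSndFDerivAt ℝ f z := hf.isSymmSndFDerivAt (by simp)
  have hA : ∀ v : ℂ, HasFDerivAt (fun z => fderiv ℝ f z v)
      ((ContinuousLinearMap.apply ℝ ℂ v).comp (fderiv ℝ (fderiv ℝ f) z)) z := fun v =>
    (ContinuousLinearMap.apply ℝ ℂ v).hasFDerivAt.comp z h1'
  have key : ∀ a w : ℂ, fderiv ℝ (dd a f) z w =
      (fderiv ℝ (fderiv ℝ f) z w 1 + a * fderiv ℝ (fderiv ℝ f) z w Complex.I) / 2 := by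
    intro a w
    have e : dd a f = fun z => (2 : ℂ)⁻¹ * (fderiv ℝ f z 1 + a * fderiv ℝ f z Complex.I) := by
      funext z; simp only [dd]; ring
    rw [e]
    have h3 := (((hA 1).add ((hA Complex.I).const_mul a)).const_mul ((2 : ℂ)⁻¹)).fderiv
    have h4 : (fun z => (2 : ℂ)⁻¹ * (fderiv ℝ f z 1 + a * fderiv ℝ f z Complex.I)) =
      fun z => (2 : ℂ)⁻¹ * ((fun z => fderiv ℝ f z 1) + fun z => a * fderiv ℝ f z Complex.I) z := rfl
    rw [h4, h3]
    simp only [smul_apply, add_apply, ContinuousLinearMap.comp_apply,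
      ContinuousLinearMap.apply_apply, smul_eq_mul]
    ring
  have e1 : ∀ a : ℂ, ∀ g : ℂ → ℂ, dd a g z = (fderiv ℝ g z 1 + a * fderiv ℝ g z Complex.I) / 2 :=
    fun _ _ => rfl
  rw [e1, e1, key, key, key, key, hs 1 Complex.I]
  ring

lemma hasFDerivAt_ofReal {r : ℂ → ℝ} {z : ℂ} (hr : DifferentiableAt ℝ r z) :
    HasFDerivAt (fun z => (r z : ℂ)) (Complex.ofRealCLM.comp (fderiv ℝ r z)) z :=
  Complex.ofRealCLM.hasFDerivAt.comp z hr.hasFDerivAt

lemma dd_ofReal {c : ℂ} {r : ℂ → ℝ} {z : ℂ} (hr : DifferentiableAt ℝ r z) :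
    dd c (fun z => (r z : ℂ)) z = ((fderiv ℝ r z 1 : ℝ) + c * (fderiv ℝ r z Complex.I : ℝ)) / 2 := by
  simp only [dd, (hasFDerivAt_ofReal hr).fderiv, ContinuousLinearMap.comp_apply,
    Complex.ofRealCLM_apply]

lemma dd_ofReal_conj {c : ℂ} {r : ℂ → ℝ} {z : ℂ} (hr : DifferentiableAt ℝ r z) :
    dd (conj c) (fun z => (r z : ℂ)) z = conj (dd c (fun z => (r z : ℂ)) z) := by
  rw [dd_ofReal hr, dd_ofReal hr]
  simp [map_ofNat]

lemma dd_conj {c : ℂ} {f : ℂ → ℂ} {z : ℂ} (hf : DifferentiableAt ℝ f z) :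
    dd (conj c) (fun z => conj (f z)) z = conj (dd c f z) := by
  have h : HasFDerivAt (fun z => conj (f z))
      ((Complex.conjCLE : ℂ →L[ℝ] ℂ).comp (fderiv ℝ f z)) z :=
    (Complex.conjCLE : ℂ →L[ℝ] ℂ).hasFDerivAt.comp z hf.hasFDerivAt
  simp only [dd, h.fderiv, ContinuousLinearMap.comp_apply]
  simp [map_ofNat]

section multi
variable {ι : Type*} [Fintype ι] [DecidableEq ι]

/-- chain rule of first order -/
lemma dd_comp {c : ℂ} {V : (ι → ℝ) → ℝ} {t : ℂ → ι → ℝ} {z : ℂ} (hV : DifferentiableAt ℝ V (t z))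
    (ht : ∀ i, DifferentiableAt ℝ (fun z => t z i) z) :
    dd c (fun z => (V (t z) : ℂ)) z = ∑ i, (pd V i (t z) : ℂ) * dd c (fun z => (t z i : ℂ)) z := by
  have ht' : HasFDerivAt t (ContinuousLinearMap.pi fun i => fderiv ℝ (fun z => t z i) z) z :=
    hasFDerivAt_pi.2 fun i => (ht i).hasFDerivAt
  have h1 : HasFDerivAt (fun z => V (t z)) ((fderiv ℝ V (t z)).comp
      (ContinuousLinearMap.pi fun i => fderiv ℝ (fun z => t z i) z)) z :=
    hV.hasFDerivAt.comp z ht'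
  have h2 : ∀ v : ℂ, fderiv ℝ (fun z => V (t z)) z v =
      ∑ i, pd V i (t z) * fderiv ℝ (fun z => t z i) z v := by
    intro v
    rw [h1.fderiv, ContinuousLinearMap.comp_apply]
    have h3 : (ContinuousLinearMap.pi fun i => fderiv ℝ (fun z => t z i) z) v =
        ∑ i, (fderiv ℝ (fun z => t z i) z v) • (Pi.single i (1 : ℝ) : ι → ℝ) := by
      funext j
      simp [Finset.sum_apply, Pi.single_apply]
    rw [h3, map_sum]
    refine Finset.sum_congr rfl fun i _ => ?_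
    rw [map_smul, smul_eq_mul, mul_comm]
    rfl
  rw [dd_ofReal h1.differentiableAt, h2, h2]
  simp only [dd_ofReal (ht _)]
  push_cast
  rw [Finset.mul_sum, ← Finset.sum_add_distrib, Finset.sum_div]
  refine Finset.sum_congr rfl fun i _ => ?_
  ring

end multi

end T2aux

section multi
variable {ι : Type*} [Fintype ι] [DecidableEq ι]

/-- smoothness of the derivatives `pd` -/
theorem ContDiffAt.pd {W : (ι → ℝ) → ℝ} {t : ι → ℝ} {n : ℕ} (hW : ContDiffAt ℝ (n + 1 : ℕ) W t)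
    (i : ι) : ContDiffAt ℝ n (HSC.pd W i) t := by
  have h1 : ContDiffAt ℝ n (fderiv ℝ W) t := hW.fderiv_right (m := n) (by push_cast; rfl)
  exact h1.clm_apply contDiffAt_const

namespace T2aux

lemma pd_pd {W : (ι → ℝ) → ℝ} {t : ι → ℝ} (hW : ContDiffAt ℝ 2 W t) (i j : ι) :
    pd (pd W i) j t = fderiv ℝ (fderiv ℝ W) t (Pi.single j 1) (Pi.single i 1) := by
  have h1 : ContDiffAt ℝ 1 (fderiv ℝ W) t := hW.fderiv_right (m := 1) (by norm_num)
  have h1' : HasFDerivAt (fderiv ℝ W) (fderiv ℝ (fderiv ℝ W) t) t :=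
    (h1.differentiableAt (by norm_num)).hasFDerivAt
  have hA : HasFDerivAt (pd W i)
      ((ContinuousLinearMap.apply ℝ ℝ (Pi.single i 1 : ι → ℝ)).comp (fderiv ℝ (fderiv ℝ W) t)) t :=
    (ContinuousLinearMap.apply ℝ ℝ (Pi.single i 1 : ι → ℝ)).hasFDerivAt.comp t h1'
  show fderiv ℝ (pd W i) t (Pi.single j 1) = _
  rw [hA.fderiv]
  rfl

end T2aux

/-- symmetry of the derivatives `pd` -/
theorem pd_comm {W : (ι → ℝ) → ℝ} {t : ι → ℝ} (hW : ContDiffAt ℝ 2 W t) (i j : ι) :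
    pd (pd W i) j t = pd (pd W j) i t := by
  have hs : IsSymmSndFDerivAt ℝ W t := hW.isSymmSndFDerivAt (by simp)
  rw [T2aux.pd_pd hW, T2aux.pd_pd hW, hs]

namespace T2aux

/-- the point `z` is good: all functions are `C^4` there -/
def Good (W : (ι → ℝ) → ℝ) (t : ℂ → ι → ℝ) (z : ℂ) : Prop :=
  ContDiffAt ℝ 4 W (t z) ∧ ∀ i, ContDiffAt ℝ 4 (fun z => t z i) z

lemma Good.eventually {W : (ι → ℝ) → ℝ} {t : ℂ → ι → ℝ} {z : ℂ} (h : Good W t z) :
    ∀ᶠ y in 𝓝 z, Good W t y := by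
  have hc : ContinuousAt t z := by
    rw [continuousAt_pi]
    exact fun i => (h.2 i).continuousAt
  have h1 : ∀ᶠ x in 𝓝 (t z), ContDiffAt ℝ 4 W x := h.1.eventually (by decide)
  have h2 : ∀ᶠ y in 𝓝 z, ContDiffAt ℝ 4 W (t y) := hc.eventually h1
  have h3 : ∀ᶠ y in 𝓝 z, ∀ i, ContDiffAt ℝ 4 (fun z => t z i) y := by
    rw [Filter.eventually_all]
    exact fun i => (h.2 i).eventually (by decide)
  filter_upwards [h2, h3] with y a b using ⟨a, b⟩

lemma Good.eq_deriv {W : (ι → ℝ) → ℝ} {t : ℂ → ι → ℝ} {f g : ℂ → ℂ}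
    (h : ∀ y, Good W t y → f y = g y) {z : ℂ} (hz : Good W t z) (c : ℂ) : dd c f z = dd c g z :=
  dd_congr (hz.eventually.mono h)

/-- derivative of a sum of products -/
lemma dd_step {κ : Type*} [Fintype κ] {c : ℂ} (V : κ → (ι → ℝ) → ℝ) (G : κ → ℂ → ℂ) {t : ℂ → ι → ℝ}
    {z : ℂ} (hV : ∀ k, DifferentiableAt ℝ (V k) (t z))
    (ht : ∀ i, DifferentiableAt ℝ (fun z => t z i) z) (hG : ∀ k, DifferentiableAt ℝ (G k) z) :
    dd c (fun z => ∑ k, (V k (t z) : ℂ) * G k z) z =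
      ∑ p : κ × ι, (pd (V p.1) p.2 (t z) : ℂ) * (G p.1 z * dd c (fun z => (t z p.2 : ℂ)) z) +
        ∑ k, (V k (t z) : ℂ) * dd c (G k) z := by
  have ht' : DifferentiableAt ℝ t z := differentiableAt_pi.2 ht
  have hVt : ∀ k, DifferentiableAt ℝ (fun z => (V k (t z) : ℂ)) z := fun k =>
    (hasFDerivAt_ofReal ((hV k).comp z ht')).differentiableAt
  have h1 : ∀ k ∈ (Finset.univ : Finset κ), DifferentiableAt ℝ (fun z => (V k (t z) : ℂ) * G k z) z :=
    fun k _ => (hVt k).fun_mul (hG k)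
  rw [dd_sum (f := fun k z => (V k (t z) : ℂ) * G k z) _ h1, Fintype.sum_prod_type,
    ← Finset.sum_add_distrib]
  refine Finset.sum_congr rfl fun k _ => ?_
  rw [dd_mul (hVt k) (hG k), dd_comp (hV k) ht, Finset.sum_mul]
  congr 1
  refine Finset.sum_congr rfl fun l _ => ?_
  ring

lemma diffAt_step {κ : Type*} [Fintype κ] (V : κ → (ι → ℝ) → ℝ) (G : κ → ℂ → ℂ) {t : ℂ → ι → ℝ}
    {z : ℂ} (hV : ∀ k, DifferentiableAt ℝ (V k) (t z))
    (ht : ∀ i, DifferentiableAt ℝ (fun z => t z i) z) (hG : ∀ k, DifferentiableAt ℝ (G k) z) :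
    DifferentiableAt ℝ (fun z => ∑ k, (V k (t z) : ℂ) * G k z) z := by
  have ht' : DifferentiableAt ℝ t z := differentiableAt_pi.2 ht
  have hVt : ∀ k, DifferentiableAt ℝ (fun z => (V k (t z) : ℂ)) z := fun k =>
    (hasFDerivAt_ofReal ((hV k).comp z ht')).differentiableAt
  exact DifferentiableAt.fun_sum fun k _ => (hVt k).fun_mul (hG k)

/-- derivatives of the coordinates -/
def cA (t : ℂ → ι → ℝ) (i : ι) : ℂ → ℂ := dd (-Complex.I) fun z => (t z i : ℂ)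
def cA' (t : ℂ → ι → ℝ) (i : ι) : ℂ → ℂ := dd Complex.I fun z => (t z i : ℂ)
def cB (t : ℂ → ι → ℝ) (i : ι) : ℂ → ℂ := dd (-Complex.I) (cA t i)
def cH (t : ℂ → ι → ℝ) (i : ι) : ℂ → ℂ := dd Complex.I (cA t i)
def cK (t : ℂ → ι → ℝ) (i : ι) : ℂ → ℂ := dd Complex.I (cB t i)
def cQ (t : ℂ → ι → ℝ) (i : ι) : ℂ → ℂ := dd Complex.I (cK t i)

omit [Fintype ι] [DecidableEq ι] in
lemma tc_contDiffAt {t : ℂ → ι → ℝ} {z : ℂ} {n : ℕ} {i : ι} (h : ContDiffAt ℝ n (fun z => t z i) z) :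
    ContDiffAt ℝ n (fun z => (t z i : ℂ)) z :=
  Complex.ofRealCLM.contDiff.contDiffAt.comp z h

omit [Fintype ι] [DecidableEq ι] in
lemma cA_c {t : ℂ → ι → ℝ} {z : ℂ} {i : ι} (h : ContDiffAt ℝ 4 (fun z => t z i) z) :
    ContDiffAt ℝ (3 : ℕ) (cA t i) z :=
  dd_contDiffAt (n := 3) (tc_contDiffAt (n := 4) h)

omit [Fintype ι] [DecidableEq ι] in
lemma cA'_c {t : ℂ → ι → ℝ} {z : ℂ} {i : ι} (h : ContDiffAt ℝ 4 (fun z => t z i) z) :
    ContDiffAt ℝ (3 : ℕ) (cA' t i) z :=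
  dd_contDiffAt (n := 3) (tc_contDiffAt (n := 4) h)

omit [Fintype ι] [DecidableEq ι] in
lemma cB_c {t : ℂ → ι → ℝ} {z : ℂ} {i : ι} (h : ContDiffAt ℝ 4 (fun z => t z i) z) :
    ContDiffAt ℝ (2 : ℕ) (cB t i) z :=
  dd_contDiffAt (n := 2) (cA_c h)

omit [Fintype ι] [DecidableEq ι] in
lemma cH_c {t : ℂ → ι → ℝ} {z : ℂ} {i : ι} (h : ContDiffAt ℝ 4 (fun z => t z i) z) :
    ContDiffAt ℝ (2 : ℕ) (cH t i) z :=
  dd_contDiffAt (n := 2) (cA_c h)

omit [Fintype ι] [DecidableEq ι] in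
lemma cK_c {t : ℂ → ι → ℝ} {z : ℂ} {i : ι} (h : ContDiffAt ℝ 4 (fun z => t z i) z) :
    ContDiffAt ℝ (1 : ℕ) (cK t i) z :=
  dd_contDiffAt (n := 1) (cB_c h)

lemma dcd {f : ℂ → ℂ} {z : ℂ} {n : ℕ} (h : ContDiffAt ℝ (n + 1 : ℕ) f z) : DifferentiableAt ℝ f z :=
  h.differentiableAt (by simp)

lemma dcd' {f : (ι → ℝ) → ℝ} {z : ι → ℝ} {n : ℕ} (h : ContDiffAt ℝ (n + 1 : ℕ) f z) :
    DifferentiableAt ℝ f z :=
  h.differentiableAt (by simp)

section stages
variable {W : (ι → ℝ) → ℝ} {t : ℂ → ι → ℝ} {z : ℂ}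

lemma Good.dt (h : Good W t z) (i : ι) : DifferentiableAt ℝ (fun z => t z i) z :=
  (h.2 i).differentiableAt (by decide)

lemma Good.w1 (h : Good W t z) (i : ι) : ContDiffAt ℝ (3 : ℕ) (pd W i) (t z) :=
  ContDiffAt.pd (n := 3) h.1 i

lemma Good.w2 (h : Good W t z) (p : ι × ι) : ContDiffAt ℝ (2 : ℕ) (pd (pd W p.1) p.2) (t z) :=
  ContDiffAt.pd (n := 2) (h.w1 _) _

lemma Good.w3 (h : Good W t z) (p : (ι × ι) × ι) :
    ContDiffAt ℝ (1 : ℕ) (pd (pd (pd W p.1.1) p.1.2) p.2) (t z) :=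
  ContDiffAt.pd (n := 1) (h.w2 p.1) _

lemma stage1 (h : Good W t z) :
    dd (-Complex.I) (fun z => (W (t z) : ℂ)) z = ∑ i, (pd W i (t z) : ℂ) * cA t i z :=
  dd_comp (h.1.differentiableAt (by decide)) h.dt

lemma stage2 (h : Good W t z) :
    dd (-Complex.I) (dd (-Complex.I) (fun z => (W (t z) : ℂ))) z =
      ∑ p : ι × ι, (pd (pd W p.1) p.2 (t z) : ℂ) * (cA t p.1 z * cA t p.2 z) +
        ∑ i, (pd W i (t z) : ℂ) * cB t i z := by
  rw [Good.eq_deriv (fun y hy => stage1 hy) h]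
  exact dd_step (fun i => pd W i) (fun i => cA t i) (fun i => dcd' (n := 2) (h.w1 i)) h.dt
    (fun i => dcd (n := 2) (cA_c (h.2 i)))

lemma stage2' (h : Good W t z) :
    dd Complex.I (dd (-Complex.I) (fun z => (W (t z) : ℂ))) z =
      ∑ p : ι × ι, (pd (pd W p.1) p.2 (t z) : ℂ) * (cA t p.1 z * cA' t p.2 z) +
        ∑ i, (pd W i (t z) : ℂ) * cH t i z := by
  rw [Good.eq_deriv (fun y hy => stage1 hy) h]
  exact dd_step (fun i => pd W i) (fun i => cA t i) (fun i => dcd' (n := 2) (h.w1 i)) h.dt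
    (fun i => dcd (n := 2) (cA_c (h.2 i)))

lemma stage3 (h : Good W t z) :
    dd Complex.I (dd (-Complex.I) (dd (-Complex.I) (fun z => (W (t z) : ℂ)))) z =
      ∑ p : (ι × ι) × ι, (pd (pd (pd W p.1.1) p.1.2) p.2 (t z) : ℂ) *
          (cA t p.1.1 z * cA t p.1.2 z * cA' t p.2 z) +
      ∑ p : ι × ι, (pd (pd W p.1) p.2 (t z) : ℂ) *
          (cH t p.1 z * cA t p.2 z + cA t p.1 z * cH t p.2 z + cB t p.1 z * cA' t p.2 z) +
      ∑ i, (pd W i (t z) : ℂ) * cK t i z := by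
  have hA : ∀ i, DifferentiableAt ℝ (cA t i) z := fun i => dcd (n := 2) (cA_c (h.2 i))
  have hB : ∀ i, DifferentiableAt ℝ (cB t i) z := fun i => dcd (n := 1) (cB_c (h.2 i))
  rw [Good.eq_deriv (fun y hy => stage2 hy) h]
  have e1 := dd_step (c := Complex.I) (fun p : ι × ι => pd (pd W p.1) p.2)
    (fun p z => cA t p.1 z * cA t p.2 z) (fun p => dcd' (n := 1) (h.w2 p)) h.dt
    (fun p => (hA p.1).fun_mul (hA p.2))
  have d1 := diffAt_step (fun p : ι × ι => pd (pd W p.1) p.2)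
    (fun p z => cA t p.1 z * cA t p.2 z) (fun p => dcd' (n := 1) (h.w2 p)) h.dt
    (fun p => (hA p.1).fun_mul (hA p.2))
  have e2 := dd_step (c := Complex.I) (fun i => pd W i) (fun i => cB t i)
    (fun i => dcd' (n := 2) (h.w1 i)) h.dt hB
  have d2 := diffAt_step (fun i => pd W i) (fun i => cB t i)
    (fun i => dcd' (n := 2) (h.w1 i)) h.dt hB
  rw [dd_add d1 d2, e1, e2]
  have e3 : ∀ p : ι × ι, dd Complex.I (fun z => cA t p.1 z * cA t p.2 z) z =
      cH t p.1 z * cA t p.2 z + cA t p.1 z * cH t p.2 z := fun p => dd_mul (hA p.1) (hA p.2)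
  simp only [e3, mul_add, Finset.sum_add_distrib]
  simp only [cA', cK]
  ring

/-- the first part of stage 4 -/
lemma stage4 (h : Good W t z) :
    dd Complex.I (dd Complex.I (dd (-Complex.I) (dd (-Complex.I) (fun z => (W (t z) : ℂ))))) z =
      ∑ p : ((ι × ι) × ι) × ι, (pd (pd (pd (pd W p.1.1.1) p.1.1.2) p.1.2) p.2 (t z) : ℂ) *
          (cA t p.1.1.1 z * cA t p.1.1.2 z * cA' t p.1.2 z * cA' t p.2 z) +
      ∑ p : (ι × ι) × ι, (pd (pd (pd W p.1.1) p.1.2) p.2 (t z) : ℂ) *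
          ((cH t p.1.1 z * cA t p.1.2 z + cA t p.1.1 z * cH t p.1.2 z) * cA' t p.2 z +
            cA t p.1.1 z * cA t p.1.2 z * dd Complex.I (cA' t p.2) z +
          (cH t p.1.1 z * cA t p.1.2 z + cA t p.1.1 z * cH t p.1.2 z +
            cB t p.1.1 z * cA' t p.1.2 z) * cA' t p.2 z) +
      ∑ p : ι × ι, (pd (pd W p.1) p.2 (t z) : ℂ) *
          (dd Complex.I (cH t p.1) z * cA t p.2 z + cH t p.1 z * cH t p.2 z +
            (cH t p.1 z * cH t p.2 z + cA t p.1 z * dd Complex.I (cH t p.2) z) +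
            (cK t p.1 z * cA' t p.2 z + cB t p.1 z * dd Complex.I (cA' t p.2) z) +
            cK t p.1 z * cA' t p.2 z) +
      ∑ i, (pd W i (t z) : ℂ) * cQ t i z := by
  have hA : ∀ i, DifferentiableAt ℝ (cA t i) z := fun i => dcd (n := 2) (cA_c (h.2 i))
  have hA' : ∀ i, DifferentiableAt ℝ (cA' t i) z := fun i => dcd (n := 2) (cA'_c (h.2 i))
  have hB : ∀ i, DifferentiableAt ℝ (cB t i) z := fun i => dcd (n := 1) (cB_c (h.2 i))
  have hH : ∀ i, DifferentiableAt ℝ (cH t i) z := fun i => dcd (n := 1) (cH_c (h.2 i))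
  have hK : ∀ i, DifferentiableAt ℝ (cK t i) z := fun i => dcd (n := 0) (cK_c (h.2 i))
  rw [Good.eq_deriv (fun y hy => stage3 hy) h]
  have g1 : ∀ p : (ι × ι) × ι, DifferentiableAt ℝ
      (fun z => cA t p.1.1 z * cA t p.1.2 z * cA' t p.2 z) z :=
    fun p => ((hA p.1.1).fun_mul (hA p.1.2)).fun_mul (hA' p.2)
  have g2 : ∀ p : ι × ι, DifferentiableAt ℝ
      (fun z => cH t p.1 z * cA t p.2 z + cA t p.1 z * cH t p.2 z + cB t p.1 z * cA' t p.2 z) z :=
    fun p => (((hH p.1).fun_mul (hA p.2)).fun_add ((hA p.1).fun_mul (hH p.2))).fun_add ((hB p.1).fun_mul (hA' p.2))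
  have e1 := dd_step (c := Complex.I) (fun p : (ι × ι) × ι => pd (pd (pd W p.1.1) p.1.2) p.2)
    (fun p z => cA t p.1.1 z * cA t p.1.2 z * cA' t p.2 z) (fun p => dcd' (n := 0) (h.w3 p)) h.dt g1
  have d1 := diffAt_step (fun p : (ι × ι) × ι => pd (pd (pd W p.1.1) p.1.2) p.2)
    (fun p z => cA t p.1.1 z * cA t p.1.2 z * cA' t p.2 z) (fun p => dcd' (n := 0) (h.w3 p)) h.dt g1
  have e2 := dd_step (c := Complex.I) (fun p : ι × ι => pd (pd W p.1) p.2)
    (fun p z => cH t p.1 z * cA t p.2 z + cA t p.1 z * cH t p.2 z + cB t p.1 z * cA' t p.2 z)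
    (fun p => dcd' (n := 1) (h.w2 p)) h.dt g2
  have d2 := diffAt_step (fun p : ι × ι => pd (pd W p.1) p.2)
    (fun p z => cH t p.1 z * cA t p.2 z + cA t p.1 z * cH t p.2 z + cB t p.1 z * cA' t p.2 z)
    (fun p => dcd' (n := 1) (h.w2 p)) h.dt g2
  have e3 := dd_step (c := Complex.I) (fun i => pd W i) (fun i => cK t i)
    (fun i => dcd' (n := 2) (h.w1 i)) h.dt hK
  have d3 := diffAt_step (fun i => pd W i) (fun i => cK t i)
    (fun i => dcd' (n := 2) (h.w1 i)) h.dt hK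
  rw [dd_add (d1.fun_add d2) d3, dd_add d1 d2, e1, e2, e3]
  have f1 : ∀ p : (ι × ι) × ι, dd Complex.I (fun z => cA t p.1.1 z * cA t p.1.2 z * cA' t p.2 z) z =
      (cH t p.1.1 z * cA t p.1.2 z + cA t p.1.1 z * cH t p.1.2 z) * cA' t p.2 z +
            cA t p.1.1 z * cA t p.1.2 z * dd Complex.I (cA' t p.2) z := by
    intro p
    rw [dd_mul ((hA p.1.1).fun_mul (hA p.1.2)) (hA' p.2)]
    have := dd_mul (c := Complex.I) (hA p.1.1) (hA p.1.2)
    rw [this]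
    rfl
  have f2 : ∀ p : ι × ι, dd Complex.I (fun z => cH t p.1 z * cA t p.2 z + cA t p.1 z * cH t p.2 z +
      cB t p.1 z * cA' t p.2 z) z = dd Complex.I (cH t p.1) z * cA t p.2 z + cH t p.1 z * cH t p.2 z +
            (cH t p.1 z * cH t p.2 z + cA t p.1 z * dd Complex.I (cH t p.2) z) +
            (cK t p.1 z * cA' t p.2 z + cB t p.1 z * dd Complex.I (cA' t p.2) z) := by
    intro p
    rw [dd_add (((hH p.1).fun_mul (hA p.2)).fun_add ((hA p.1).fun_mul (hH p.2))) ((hB p.1).fun_mul (hA' p.2)),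
      dd_add ((hH p.1).fun_mul (hA p.2)) ((hA p.1).fun_mul (hH p.2)), dd_mul (hH p.1) (hA p.2),
      dd_mul (hA p.1) (hH p.2), dd_mul (hB p.1) (hA' p.2)]
    rfl
  simp only [f1, f2]
  simp only [mul_add, Finset.sum_add_distrib, cQ, cA']
  simp only [add_mul, mul_add, Finset.sum_add_distrib]
  ring

end stages

/-! ### symmetry of the derivative tensors -/

lemma pd_congr {f g : (ι → ℝ) → ℝ} {x : ι → ℝ} (h : f =ᶠ[𝓝 x] g) (i : ι) :
    pd f i =ᶠ[𝓝 x] pd g i := by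
  filter_upwards [Filter.EventuallyEq.fderiv (𝕜 := ℝ) h] with y hy
  simp only [pd, hy]

lemma pd_comm_ev {W : (ι → ℝ) → ℝ} {x : ι → ℝ} (hW : ContDiffAt ℝ 2 W x) (i j : ι) :
    pd (pd W i) j =ᶠ[𝓝 x] pd (pd W j) i :=
  (hW.eventually (by decide)).mono fun _ hy => pd_comm hy i j

section sym
variable {W : (ι → ℝ) → ℝ} {x : ι → ℝ}

lemma pd3_12 (hW : ContDiffAt ℝ 4 W x) (i j l : ι) :
    pd (pd (pd W i) j) l x = pd (pd (pd W j) i) l x :=
  (pd_congr (pd_comm_ev (W := W) (hW.of_le (by norm_cast)) i j) l).self_of_nhds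

lemma pd3_23 (hW : ContDiffAt ℝ 4 W x) (i j l : ι) :
    pd (pd (pd W i) j) l x = pd (pd (pd W i) l) j x :=
  pd_comm ((ContDiffAt.pd (n := 3) hW i).of_le (by norm_cast)) j l

lemma pd4_12 (hW : ContDiffAt ℝ 4 W x) (i j l m : ι) :
    pd (pd (pd (pd W i) j) l) m x = pd (pd (pd (pd W j) i) l) m x :=
  (pd_congr (pd_congr (pd_comm_ev (W := W) (hW.of_le (by norm_cast)) i j) l) m).self_of_nhds

lemma pd4_23 (hW : ContDiffAt ℝ 4 W x) (i j l m : ι) :
    pd (pd (pd (pd W i) j) l) m x = pd (pd (pd (pd W i) l) j) m x :=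
  (pd_congr (pd_comm_ev ((ContDiffAt.pd (n := 3) hW i).of_le (by norm_cast)) j l) m).self_of_nhds

lemma pd4_34 (hW : ContDiffAt ℝ 4 W x) (i j l m : ι) :
    pd (pd (pd (pd W i) j) l) m x = pd (pd (pd (pd W i) j) m) l x :=
  pd_comm (ContDiffAt.pd (n := 2) (ContDiffAt.pd (n := 3) hW i) j) l m

lemma D2_comm (hW : ContDiffAt ℝ 4 W x) (u v : ι → ℂ) : D2 W x u v = D2 W x v u := by
  unfold D2
  rw [Finset.sum_comm]
  refine Finset.sum_congr rfl fun i _ => Finset.sum_congr rfl fun j _ => ?_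
  rw [pd_comm (hW.of_le (by norm_cast)) j i]
  ring

lemma D3_12 (hW : ContDiffAt ℝ 4 W x) (u v w : ι → ℂ) : D3 W x u v w = D3 W x v u w := by
  unfold D3
  rw [Finset.sum_comm]
  refine Finset.sum_congr rfl fun i _ => Finset.sum_congr rfl fun j _ =>
    Finset.sum_congr rfl fun l _ => ?_
  rw [pd3_12 hW j i l]
  ring

lemma D3_23 (hW : ContDiffAt ℝ 4 W x) (u v w : ι → ℂ) : D3 W x u v w = D3 W x u w v := by
  unfold D3
  refine Finset.sum_congr rfl fun i _ => ?_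
  rw [Finset.sum_comm]
  refine Finset.sum_congr rfl fun j _ =>
    Finset.sum_congr rfl fun l _ => ?_
  rw [pd3_23 hW i l j]
  ring

lemma D4_12 (hW : ContDiffAt ℝ 4 W x) (u v w y : ι → ℂ) : D4 W x u v w y = D4 W x v u w y := by
  unfold D4
  rw [Finset.sum_comm]
  refine Finset.sum_congr rfl fun i _ => Finset.sum_congr rfl fun j _ =>
    Finset.sum_congr rfl fun l _ => Finset.sum_congr rfl fun m _ => ?_
  rw [pd4_12 hW j i l m]
  ring

lemma D4_23 (hW : ContDiffAt ℝ 4 W x) (u v w y : ι → ℂ) : D4 W x u v w y = D4 W x u w v y := by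
  unfold D4
  refine Finset.sum_congr rfl fun i _ => ?_
  rw [Finset.sum_comm]
  refine Finset.sum_congr rfl fun j _ =>
    Finset.sum_congr rfl fun l _ => Finset.sum_congr rfl fun m _ => ?_
  rw [pd4_23 hW i l j m]
  ring

lemma D4_34 (hW : ContDiffAt ℝ 4 W x) (u v w y : ι → ℂ) : D4 W x u v w y = D4 W x u v y w := by
  unfold D4
  refine Finset.sum_congr rfl fun i _ => Finset.sum_congr rfl fun j _ => ?_
  rw [Finset.sum_comm]
  refine Finset.sum_congr rfl fun l _ => Finset.sum_congr rfl fun m _ => ?_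
  rw [pd4_34 hW i j m l]
  ring

lemma D1_conj (u : ι → ℂ) : conj (D1 W x u) = D1 W x (fun i => conj (u i)) := by
  simp [D1, map_sum]

lemma D2_conj (u v : ι → ℂ) :
    conj (D2 W x u v) = D2 W x (fun i => conj (u i)) (fun i => conj (v i)) := by
  simp [D2, map_sum]

lemma D3_conj (u v w : ι → ℂ) :
    conj (D3 W x u v w) = D3 W x (fun i => conj (u i)) (fun i => conj (v i)) (fun i => conj (w i)) := by
  simp [D3, map_sum]

lemma D4_conj (u v w y : ι → ℂ) :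
    conj (D4 W x u v w y) = D4 W x (fun i => conj (u i)) (fun i => conj (v i)) (fun i => conj (w i))
      (fun i => conj (y i)) := by
  simp [D4, map_sum]

lemma sum_D1 (u : ι → ℂ) : ∑ i, (pd W i x : ℂ) * u i = D1 W x u := rfl

lemma sum_D2 (u v : ι → ℂ) :
    ∑ p : ι × ι, (pd (pd W p.1) p.2 x : ℂ) * (u p.1 * v p.2) = D2 W x u v := by
  rw [Fintype.sum_prod_type]
  simp only [D2, mul_assoc]

lemma sum_D3 (u v w : ι → ℂ) :
    ∑ p : (ι × ι) × ι, (pd (pd (pd W p.1.1) p.1.2) p.2 x : ℂ) * (u p.1.1 * v p.1.2 * w p.2) =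
      D3 W x u v w := by
  rw [Fintype.sum_prod_type, Fintype.sum_prod_type]
  simp only [D3, mul_assoc]

lemma sum_D4 (u v w y : ι → ℂ) :
    ∑ p : ((ι × ι) × ι) × ι, (pd (pd (pd (pd W p.1.1.1) p.1.1.2) p.1.2) p.2 x : ℂ) *
      (u p.1.1.1 * v p.1.1.2 * w p.1.2 * y p.2) = D4 W x u v w y := by
  rw [Fintype.sum_prod_type, Fintype.sum_prod_type, Fintype.sum_prod_type]
  simp only [D4, mul_assoc]

end sym

/-! ### values of the derivatives of the coordinates -/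

section vals
variable {t : ℂ → ι → ℝ} {T : ι → Jet}

lemma cA'_eq {z : ℂ} {i : ι} (h : ContDiffAt ℝ 4 (fun z => t z i) z) :
    cA' t i z = conj (cA t i z) := by
  have := dd_ofReal_conj (c := -Complex.I) (h.differentiableAt (by decide))
  rw [map_neg, Complex.conj_I, neg_neg] at this
  exact this

lemma cA'_ev {z : ℂ} {i : ι} (h : ContDiffAt ℝ 4 (fun z => t z i) z) :
    cA' t i =ᶠ[𝓝 z] fun z => conj (cA t i z) :=
  (h.eventually (by decide)).mono fun _ hy => cA'_eq hy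

lemma ddcA' {z : ℂ} {i : ι} (h : ContDiffAt ℝ 4 (fun z => t z i) z) :
    dd Complex.I (cA' t i) z = conj (cB t i z) := by
  rw [dd_congr (cA'_ev h)]
  have := dd_conj (c := -Complex.I) (dcd (n := 2) (cA_c h))
  rw [map_neg, Complex.conj_I, neg_neg] at this
  exact this

lemma cH_real {z : ℂ} {i : ι} (h : ContDiffAt ℝ 4 (fun z => t z i) z) :
    cH t i z = conj (cH t i z) := by
  have h1 : cH t i z = dd (-Complex.I) (cA' t i) z :=
    dd_comm ((tc_contDiffAt (n := 4) h).of_le (by norm_cast))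
  have h2 : dd (-Complex.I) (cA' t i) z = conj (dd Complex.I (cA t i) z) := by
    rw [dd_congr (cA'_ev h)]
    have := dd_conj (c := Complex.I) (dcd (n := 2) (cA_c h))
    rw [Complex.conj_I] at this
    exact this
  rw [h2] at h1
  exact h1

lemma ddcH {z : ℂ} {i : ι} (h : ContDiffAt ℝ 4 (fun z => t z i) z) :
    dd Complex.I (cH t i) z = conj (cK t i z) := by
  have h1 : cH t i =ᶠ[𝓝 z] fun z => conj (cH t i z) :=
    (h.eventually (by decide)).mono fun _ hy => cH_real hy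
  rw [dd_congr h1]
  have h2 := dd_conj (c := -Complex.I) (dcd (n := 1) (cH_c h))
  rw [map_neg, Complex.conj_I, neg_neg] at h2
  rw [h2]
  congr 1
  exact dd_comm ((cA_c h).of_le (by norm_cast))

end vals

end T2aux

/-- chain rule, several variables -/
theorem HasJet.multi {W : (ι → ℝ) → ℝ} {t : ℂ → ι → ℝ} {T : ι → Jet}
    (hT : ∀ i, HasJet (fun ζ => t ζ i) (T i))
    (hW : ContDiffAt ℝ 4 W (fun i => (T i).v)) :
    HasJet (fun ζ => W (t ζ)) (multiJet W T) := by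
  have ht0 : t 0 = fun i => (T i).v := funext fun i => (hT i).2.1
  have hW0 : ContDiffAt ℝ 4 W (t 0) := by rw [ht0]; exact hW
  have hg : T2aux.Good W t 0 := ⟨hW0, fun i => (hT i).1⟩
  have hA : ∀ i, T2aux.cA t i 0 = (T i).a := by
    intro i
    have := (hT i).2.2.1
    rwa [T2aux.dz_eq] at this
  have hB : ∀ i, T2aux.cB t i 0 = (T i).b := by
    intro i
    have := (hT i).2.2.2.1
    rwa [T2aux.dz_eq, T2aux.dz_eq] at this
  have hH : ∀ i, T2aux.cH t i 0 = ((T i).h : ℂ) := by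
    intro i
    have := (hT i).2.2.2.2.1
    rwa [T2aux.dz_eq, T2aux.dzb_eq] at this
  have hK : ∀ i, T2aux.cK t i 0 = (T i).k := by
    intro i
    have := (hT i).2.2.2.2.2.1
    rwa [T2aux.dz_eq, T2aux.dz_eq, T2aux.dzb_eq] at this
  have hQ : ∀ i, T2aux.cQ t i 0 = ((T i).Q : ℂ) := by
    intro i
    have := (hT i).2.2.2.2.2.2
    rwa [T2aux.dz_eq, T2aux.dz_eq, T2aux.dzb_eq, T2aux.dzb_eq] at this
  have hA' : ∀ i, T2aux.cA' t i 0 = conj (T i).a := fun i => by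
    rw [T2aux.cA'_eq (hT i).1, hA]
  have hdA' : ∀ i, T2aux.dd Complex.I (T2aux.cA' t i) 0 = conj (T i).b := fun i => by
    rw [T2aux.ddcA' (hT i).1, hB]
  have hdH : ∀ i, T2aux.dd Complex.I (T2aux.cH t i) 0 = conj (T i).k := fun i => by
    rw [T2aux.ddcH (hT i).1, hK]
  have hcd : ContDiffAt ℝ 4 t 0 := contDiffAt_pi.2 fun i => (hT i).1
  refine ⟨hW0.comp (0 : ℂ) hcd, ?_, ?_, ?_, ?_, ?_, ?_⟩
  · show W (t 0) = W _
    rw [ht0]
  · rw [T2aux.dz_eq, T2aux.stage1 hg]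
    simp only [hA, ht0]
    rfl
  · rw [T2aux.dz_eq, T2aux.dz_eq, T2aux.stage2 hg]
    simp only [hA, hB, ht0]
    rw [T2aux.sum_D2 (fun i => (T i).a) (fun i => (T i).a), T2aux.sum_D1 (fun i => (T i).b)]
    rfl
  · rw [T2aux.dz_eq, T2aux.dzb_eq, T2aux.stage2' hg]
    simp only [hA, hA', hH, ht0]
    rw [T2aux.sum_D2 (fun i => (T i).a) (fun i => conj (T i).a)]
    have r1 : conj (D2 W (fun i => (T i).v) (fun i => (T i).a) (fun i => conj (T i).a)) =
        D2 W (fun i => (T i).v) (fun i => (T i).a) (fun i => conj (T i).a) := by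
      rw [T2aux.D2_conj, T2aux.D2_comm hW]
      simp only [Complex.conj_conj]
    rw [← Complex.conj_eq_iff_re.1 r1]
    simp only [multiJet]
    push_cast
    rfl
  · rw [T2aux.dz_eq, T2aux.dz_eq, T2aux.dzb_eq, T2aux.stage3 hg]
    simp only [hA, hA', hH, hB, hK, ht0]
    simp only [mul_add, Finset.sum_add_distrib]
    rw [T2aux.sum_D3 (fun i => (T i).a) (fun i => (T i).a) (fun i => conj (T i).a),
      T2aux.sum_D2 (fun i => ((T i).h : ℂ)) (fun i => (T i).a),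
      T2aux.sum_D2 (fun i => (T i).a) (fun i => ((T i).h : ℂ)),
      T2aux.sum_D2 (fun i => (T i).b) (fun i => conj (T i).a), T2aux.sum_D1 (fun i => (T i).k),
      T2aux.D2_comm hW (fun i => ((T i).h : ℂ)) (fun i => (T i).a)]
    simp only [multiJet]
    ring
  · rw [T2aux.dz_eq, T2aux.dz_eq, T2aux.dzb_eq, T2aux.dzb_eq, T2aux.stage4 hg]
    simp only [hA, hA', hH, hB, hK, hQ, hdA', hdH, ht0]
    simp only [add_mul, mul_add, Finset.sum_add_distrib]
    set x : ι → ℝ := fun i => (T i).v with hx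
    set a : ι → ℂ := fun i => (T i).a with ha
    set a' : ι → ℂ := fun i => conj (T i).a with ha'
    set b : ι → ℂ := fun i => (T i).b with hb
    set b' : ι → ℂ := fun i => conj (T i).b with hb'
    set h : ι → ℂ := fun i => ((T i).h : ℂ) with hh
    set k : ι → ℂ := fun i => (T i).k with hk
    set k' : ι → ℂ := fun i => conj (T i).k with hk'
    have ca : (fun i => conj (a i)) = a' := rfl
    have ca' : (fun i => conj (a' i)) = a := by funext i; simp [ha, ha']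
    have cb : (fun i => conj (b i)) = b' := rfl
    have cb' : (fun i => conj (b' i)) = b := by funext i; simp [hb, hb']
    have ch : (fun i => conj (h i)) = h := by funext i; simp [hh]
    have ck : (fun i => conj (k i)) = k' := rfl
    have r1 : conj (D4 W x a a a' a') = D4 W x a a a' a' := by
      rw [T2aux.D4_conj, ca, ca', T2aux.D4_23 hW, T2aux.D4_12 hW, T2aux.D4_34 hW, T2aux.D4_23 hW]
    have r2 : D3 W x a a b' = conj (D3 W x b a' a') := by
      rw [T2aux.D3_conj, cb, ca', T2aux.D3_12 hW b', T2aux.D3_23 hW a b']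
    have r3 : conj (D3 W x a a' h) = D3 W x a a' h := by
      rw [T2aux.D3_conj, ca, ca', ch, T2aux.D3_12 hW]
    have r4 : D3 W x h a a' = D3 W x a a' h := by
      rw [T2aux.D3_12 hW, T2aux.D3_23 hW]
    have r5 : D3 W x a h a' = D3 W x a a' h := by
      rw [T2aux.D3_23 hW]
    have r6 : conj (D2 W x b b') = D2 W x b b' := by
      rw [T2aux.D2_conj, cb, cb', T2aux.D2_comm hW]
    have r7 : conj (D2 W x h h) = D2 W x h h := by
      rw [T2aux.D2_conj, ch]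
    have r8 : D2 W x k' a = conj (D2 W x k a') := by
      rw [T2aux.D2_conj, ck, ca']
    have r9 : D2 W x a k' = conj (D2 W x k a') := by
      rw [T2aux.D2_conj, ck, ca', T2aux.D2_comm hW]
    have s1 := T2aux.sum_D4 (W := W) (x := x) a a a' a'
    have s2 := T2aux.sum_D3 (W := W) (x := x) h a a'
    have s3 := T2aux.sum_D3 (W := W) (x := x) a h a'
    have s4 := T2aux.sum_D3 (W := W) (x := x) a a b'
    have s5 := T2aux.sum_D3 (W := W) (x := x) b a' a'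
    have s6 := T2aux.sum_D2 (W := W) (x := x) k' a
    have s7 := T2aux.sum_D2 (W := W) (x := x) h h
    have s8 := T2aux.sum_D2 (W := W) (x := x) a k'
    have s9 := T2aux.sum_D2 (W := W) (x := x) k a'
    have s10 := T2aux.sum_D2 (W := W) (x := x) b b'
    simp only [ha, ha', hb, hb', hh, hk, hk'] at s1 s2 s3 s4 s5 s6 s7 s8 s9 s10
    rw [s1, s2, s3, s4, s5, s6, s7, s8, s9, s10]
    simp only [← ha, ← ha', ← hb, ← hb', ← hh, ← hk, ← hk']
    rw [r2, r4, r5, r8, r9, ← Complex.conj_eq_iff_re.1 r1, ← Complex.conj_eq_iff_re.1 r3,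
      ← Complex.conj_eq_iff_re.1 r6, ← Complex.conj_eq_iff_re.1 r7]
    have q1 := Complex.add_conj (D3 W x b a' a')
    have q2 := Complex.add_conj (D2 W x k a')
    simp only [multiJet]
    push_cast at q1 q2 ⊢
    linear_combination q1 + 2 * q2

theorem holQ_eq_multiJet (W : (ι → ℝ) → ℝ) (t : ι → ℝ) (τ σ : ι → ℂ) :
    (multiJet W (fun i => Jet.hol (t i) (τ i) (σ i))).Q = holQ W t τ σ := by
  have z1 : D3 W t τ (fun i => conj (τ i)) (fun _ => (0 : ℂ)) = 0 := by simp [D3]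
  have z2 : D2 W t (fun _ => (0 : ℂ)) (fun _ => (0 : ℂ)) = 0 := by simp [D2]
  have z3 : D2 W t (fun _ => (0 : ℂ)) (fun i => conj (τ i)) = 0 := by simp [D2]
  simp only [multiJet, Jet.hol, holQ, Complex.ofReal_zero, z1, z2, z3, Complex.zero_re, mul_zero,
    Finset.sum_const_zero, add_zero]

/-- if `W` along the pluriharmonic path has jet `J`, then `holQ = J.Q` etc. -/
theorem holQ_eq_of_hasJet {W : (ι → ℝ) → ℝ} {t : ι → ℝ} {τ σ : ι → ℂ} {J : Jet}
    (hW : ContDiffAt ℝ 4 W t) (h : HasJet (fun ζ => W (hpath t τ σ ζ)) J) :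
    holQ W t τ σ = J.Q ∧
      (D2 W t τ (fun i => conj (τ i))).re = J.h ∧ D1 W t τ = J.a ∧ W t = J.v := by
  have h1 : HasJet (fun ζ => W (hpath t τ σ ζ))
      (multiJet W (fun i => Jet.hol (t i) (τ i) (σ i))) :=
    HasJet.multi (t := hpath t τ σ) (fun i => hasJet_hpath t τ σ i) hW
  have h2 := h1.unique h
  rw [← h2]
  refine ⟨(holQ_eq_multiJet W t τ σ).symm, ?_, rfl, rfl⟩
  simp [multiJet, Jet.hol]

namespace T2aux

lemma norm_e (i : ι) : ‖(Pi.single i 1 : ι → ℝ)‖ = 1 := by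
  rw [Pi.norm_single, norm_one]

/-- one more derivative -/
lemma it_succ {W : (ι → ℝ) → ℝ} {t : ι → ℝ} {n : ℕ} (hW : ContDiffAt ℝ (n + 1 : ℕ) W t)
    (v : Fin n → ι → ℝ) (w : ι → ℝ) :
    fderiv ℝ (fun s => iteratedFDeriv ℝ n W s v) t w =
      iteratedFDeriv ℝ (n + 1) W t (Fin.cons w v : Fin (n + 1) → ι → ℝ) := by
  have h1 : HasFDerivAt (iteratedFDeriv ℝ n W) (fderiv ℝ (iteratedFDeriv ℝ n W) t) t :=
    (hW.differentiableAt_iteratedFDeriv (m := n) (by exact_mod_cast n.lt_succ_self)).hasFDerivAt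
  have h2 : HasFDerivAt (fun s => iteratedFDeriv ℝ n W s v)
      ((ContinuousMultilinearMap.apply ℝ (fun _ : Fin n => ι → ℝ) ℝ v).comp
        (fderiv ℝ (iteratedFDeriv ℝ n W) t)) t :=
    (ContinuousMultilinearMap.apply ℝ (fun _ : Fin n => ι → ℝ) ℝ v).hasFDerivAt.comp t h1
  rw [h2.fderiv, iteratedFDeriv_succ_apply_left, Fin.cons_zero, Fin.tail_cons]
  rfl

lemma pd_it {f W : (ι → ℝ) → ℝ} {t : ι → ℝ} {n : ℕ} {v : Fin n → ι → ℝ}
    (hW : ContDiffAt ℝ (n + 1 : ℕ) W t)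
    (hf : ∀ s, ContDiffAt ℝ n W s → f s = iteratedFDeriv ℝ n W s v) (i : ι) :
    pd f i t = iteratedFDeriv ℝ (n + 1) W t (Fin.cons (Pi.single i 1) v : Fin (n + 1) → ι → ℝ) := by
  rw [← it_succ hW v]
  have h1 : f =ᶠ[𝓝 t] fun s => iteratedFDeriv ℝ n W s v := by
    have h2 : ∀ᶠ s in 𝓝 t, ContDiffAt ℝ n W s :=
      (hW.of_le (m := n) (by exact_mod_cast n.le_succ)).eventually (by simp)
    exact h2.mono hf
  show fderiv ℝ f t _ = _
  rw [h1.fderiv_eq]

/-- the unit vectors -/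
def ev (i : ι) : ι → ℝ := Pi.single i 1

lemma p1 {W : (ι → ℝ) → ℝ} {t : ι → ℝ} (hW : ContDiffAt ℝ (1 : ℕ) W t) (i : ι) :
    pd W i t = iteratedFDeriv ℝ 1 W t ![ev i] := by
  rw [iteratedFDeriv_one_apply]
  rfl

lemma p2 {W : (ι → ℝ) → ℝ} {t : ι → ℝ} (hW : ContDiffAt ℝ (2 : ℕ) W t) (i j : ι) :
    pd (pd W i) j t = iteratedFDeriv ℝ 2 W t ![ev j, ev i] :=
  pd_it (n := 1) (v := ![ev i]) hW (fun _ hs => p1 hs i) j

lemma p3 {W : (ι → ℝ) → ℝ} {t : ι → ℝ} (hW : ContDiffAt ℝ (3 : ℕ) W t) (i j l : ι) :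
    pd (pd (pd W i) j) l t = iteratedFDeriv ℝ 3 W t ![ev l, ev j, ev i] :=
  pd_it (n := 2) (v := ![ev j, ev i]) hW (fun _ hs => p2 hs i j) l

lemma p4 {W : (ι → ℝ) → ℝ} {t : ι → ℝ} (hW : ContDiffAt ℝ (4 : ℕ) W t) (i j l m : ι) :
    pd (pd (pd (pd W i) j) l) m t = iteratedFDeriv ℝ 4 W t ![ev m, ev l, ev j, ev i] :=
  pd_it (n := 3) (v := ![ev l, ev j, ev i]) hW (fun _ hs => p3 hs i j l) m

lemma norm_it_le {W : (ι → ℝ) → ℝ} {t : ι → ℝ} {n : ℕ} {v : Fin n → ι → ℝ} (hv : ∀ a, ‖v a‖ = 1) :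
    |iteratedFDeriv ℝ n W t v| ≤ ‖iteratedFDeriv ℝ n W t‖ := by
  have := (iteratedFDeriv ℝ n W t).le_opNorm v
  simp only [hv, Finset.prod_const_one, mul_one] at this
  exact this

end T2aux

/-- the derivatives `pd` are bounded by the norms of the iterated Frechet derivatives -/
theorem abs_pd1_le {W : (ι → ℝ) → ℝ} {t : ι → ℝ} (hW : ContDiffAt ℝ 1 W t) (i : ι) :
    |pd W i t| ≤ ‖iteratedFDeriv ℝ 1 W t‖ := by
  rw [T2aux.p1 hW]
  exact T2aux.norm_it_le fun a => by fin_cases a; exact T2aux.norm_e _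

theorem abs_pd2_le {W : (ι → ℝ) → ℝ} {t : ι → ℝ} (hW : ContDiffAt ℝ 2 W t) (i j : ι) :
    |pd (pd W i) j t| ≤ ‖iteratedFDeriv ℝ 2 W t‖ := by
  rw [T2aux.p2 hW]
  exact T2aux.norm_it_le fun a => by fin_cases a <;> exact T2aux.norm_e _

theorem abs_pd3_le {W : (ι → ℝ) → ℝ} {t : ι → ℝ} (hW : ContDiffAt ℝ 3 W t) (i j l : ι) :
    |pd (pd (pd W i) j) l t| ≤ ‖iteratedFDeriv ℝ 3 W t‖ := by
  rw [T2aux.p3 hW]
  exact T2aux.norm_it_le fun a => by fin_cases a <;> exact T2aux.norm_e _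

theorem abs_pd4_le {W : (ι → ℝ) → ℝ} {t : ι → ℝ} (hW : ContDiffAt ℝ 4 W t) (i j l m : ι) :
    |pd (pd (pd (pd W i) j) l) m t| ≤ ‖iteratedFDeriv ℝ 4 W t‖ := by
  rw [T2aux.p4 hW]
  exact T2aux.norm_it_le fun a => by fin_cases a <;> exact T2aux.norm_e _

end multi

end

end Pool.Agent.H789.HSC
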