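import Pool.Agent.H789.HSC.JetCalc1
import Pool.Agent.H789.HSC.JetCalc2

/-! Jet calculus (see `JetCalc1`, `JetCalc2`). -/
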