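import Pool.Agent.H789.HSC.ConeDefs

/-! T10 (helper225 for helper789): bounds for the auxiliary functions `wq` and `S0`. -/

set_option autoImplicit false

open scoped BigOperators ContDiff ComplexConjugate Topology

namespace Pool.Agent.H789.HSC

noncomputable section

variable {p : ℕ}

namespace T10aux

/-! ### directional derivatives of complex valued functions -/

/-- `F` is differentiable at `t` with complexified directional derivative `d` in direction `v` -/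
def HasD (F : (Fin p → ℝ) → ℂ) (t : Fin p → ℝ) (v : Fin p → ℂ) (d : ℂ) : Prop :=
  DifferentiableAt ℝ F t ∧ ∑ i, fderiv ℝ F t (Pi.single i 1) * v i = d

lemma HasD.const (c : ℂ) (t : Fin p → ℝ) (v : Fin p → ℂ) : HasD (fun _ => c) t v 0 := by
  refine ⟨differentiableAt_const c, ?_⟩
  simp

lemma HasD.mul {F G : (Fin p → ℝ) → ℂ} {t : Fin p → ℝ} {v : Fin p → ℂ} {a b : ℂ}
    (h1 : HasD F t v a) (h2 : HasD G t v b) :
    HasD (fun s => F s * G s) t v (a * G t + F t * b) := by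
  refine ⟨h1.1.mul h2.1, ?_⟩
  rw [← h1.2, ← h2.2, fderiv_fun_mul h1.1 h2.1, Finset.sum_mul, Finset.mul_sum,
    ← Finset.sum_add_distrib]
  refine Finset.sum_congr rfl fun i _ => ?_
  simp only [add_apply, smul_apply, smul_eq_mul]
  ring

lemma HasD.const_mul {F : (Fin p → ℝ) → ℂ} {t : Fin p → ℝ} {v : Fin p → ℂ} {a : ℂ}
    (h1 : HasD F t v a) (c : ℂ) : HasD (fun s => c * F s) t v (c * a) := by
  have := (HasD.const c t v).mul h1
  simpa using this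

lemma HasD.add {F G : (Fin p → ℝ) → ℂ} {t : Fin p → ℝ} {v : Fin p → ℂ} {a b : ℂ}
    (h1 : HasD F t v a) (h2 : HasD G t v b) :
    HasD (fun s => F s + G s) t v (a + b) := by
  refine ⟨h1.1.add h2.1, ?_⟩
  rw [← h1.2, ← h2.2, fderiv_fun_add h1.1 h2.1, ← Finset.sum_add_distrib]
  refine Finset.sum_congr rfl fun i _ => ?_
  simp only [add_apply]
  ring

lemma HasD.sum {κ : Type*} (S : Finset κ) {F : κ → (Fin p → ℝ) → ℂ} {t : Fin p → ℝ}
    {v : Fin p → ℂ} {a : κ → ℂ} (h : ∀ j ∈ S, HasD (F j) t v (a j)) :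
    HasD (fun s => ∑ j ∈ S, F j s) t v (∑ j ∈ S, a j) := by
  classical
  induction S using Finset.induction_on with
  | empty => simpa using HasD.const 0 t v
  | insert j S hj ih =>
    have h1 := (h j (Finset.mem_insert_self j S)).add
      (ih fun i hi => h i (Finset.mem_insert_of_mem hi))
    simpa [Finset.sum_insert hj] using h1

lemma HasD.cexp {F : (Fin p → ℝ) → ℂ} {t : Fin p → ℝ} {v : Fin p → ℂ} {a : ℂ}
    (h1 : HasD F t v a) : HasD (fun s => Complex.exp (F s)) t v (Complex.exp (F t) * a) := by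
  have h := h1.1.hasFDerivAt.cexp
  refine ⟨h.differentiableAt, ?_⟩
  rw [← h1.2, h.fderiv, Finset.mul_sum]
  refine Finset.sum_congr rfl fun i _ => ?_
  simp only [smul_apply, smul_eq_mul]
  ring

/-! ### relation with `D1 .. D4` -/

lemma contDiff_pd {W : (Fin p → ℝ) → ℝ} (hW : ContDiff ℝ ∞ W) (i : Fin p) :
    ContDiff ℝ ∞ (pd W i) := by
  unfold pd
  exact (hW.fderiv_right (m := ∞) (by simp)).clm_apply contDiff_const

lemma hasD_ofReal {W : (Fin p → ℝ) → ℝ} {t : Fin p → ℝ} (hW : DifferentiableAt ℝ W t)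
    (v : Fin p → ℂ) : HasD (fun s => (W s : ℂ)) t v (∑ i, (pd W i t : ℂ) * v i) := by
  have h : HasFDerivAt (fun s => (W s : ℂ)) (Complex.ofRealCLM.comp (fderiv ℝ W t)) t :=
    Complex.ofRealCLM.hasFDerivAt.comp t hW.hasFDerivAt
  refine ⟨h.differentiableAt, ?_⟩
  rw [h.fderiv]
  rfl

lemma D1_eq {W : (Fin p → ℝ) → ℝ} {t : Fin p → ℝ} (hW : DifferentiableAt ℝ W t)
    {u : Fin p → ℂ} {d : ℂ} (h : HasD (fun s => (W s : ℂ)) t u d) : D1 W t u = d := by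
  rw [← h.2]
  exact (hasD_ofReal hW u).2.symm

lemma D2_eq {W : (Fin p → ℝ) → ℝ} {t : Fin p → ℝ} (hW : ContDiff ℝ ∞ W)
    {u v : Fin p → ℂ} {d : ℂ} (h : HasD (fun s => D1 W s u) t v d) : D2 W t u v = d := by
  have h1 : HasD (fun s => D1 W s u) t v (∑ i, (∑ j, (pd (pd W i) j t : ℂ) * v j) * u i) := by
    unfold D1
    refine HasD.sum _ fun i _ => ?_
    have h2 := (hasD_ofReal ((contDiff_pd hW i).differentiable (by simp) t) v).mul
      (HasD.const (u i) t v)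
    simpa using h2
  rw [← h.2, h1.2]
  unfold D2
  refine Finset.sum_congr rfl fun i _ => ?_
  rw [Finset.sum_mul]
  refine Finset.sum_congr rfl fun j _ => ?_
  ring

lemma D3_eq {W : (Fin p → ℝ) → ℝ} {t : Fin p → ℝ} (hW : ContDiff ℝ ∞ W)
    {u v w : Fin p → ℂ} {d : ℂ} (h : HasD (fun s => D2 W s u v) t w d) : D3 W t u v w = d := by
  have h1 : HasD (fun s => D2 W s u v) t w
      (∑ i, ∑ j, (∑ l, (pd (pd (pd W i) j) l t : ℂ) * w l) * u i * v j) := by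
    unfold D2
    refine HasD.sum _ fun i _ => HasD.sum _ fun j _ => ?_
    have h2 := ((hasD_ofReal ((contDiff_pd (contDiff_pd hW i) j).differentiable (by simp) t) w).mul
      (HasD.const (u i) t w)).mul (HasD.const (v j) t w)
    simpa using h2
  rw [← h.2, h1.2]
  unfold D3
  refine Finset.sum_congr rfl fun i _ => Finset.sum_congr rfl fun j _ => ?_
  rw [Finset.sum_mul, Finset.sum_mul]
  refine Finset.sum_congr rfl fun l _ => ?_
  ring

lemma D4_eq {W : (Fin p → ℝ) → ℝ} {t : Fin p → ℝ} (hW : ContDiff ℝ ∞ W)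
    {u v w y : Fin p → ℂ} {d : ℂ} (h : HasD (fun s => D3 W s u v w) t y d) :
    D4 W t u v w y = d := by
  have h1 : HasD (fun s => D3 W s u v w) t y
      (∑ i, ∑ j, ∑ l, (∑ m, (pd (pd (pd (pd W i) j) l) m t : ℂ) * y m) * u i * v j * w l) := by
    unfold D3
    refine HasD.sum _ fun i _ => HasD.sum _ fun j _ => HasD.sum _ fun l _ => ?_
    have h2 := (((hasD_ofReal ((contDiff_pd (contDiff_pd (contDiff_pd hW i) j) l).differentiable
      (by simp) t) y).mul (HasD.const (u i) t y)).mul (HasD.const (v j) t y)).mul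
      (HasD.const (w l) t y)
    simpa using h2
  rw [← h.2, h1.2]
  unfold D4
  refine Finset.sum_congr rfl fun i _ => Finset.sum_congr rfl fun j _ =>
    Finset.sum_congr rfl fun l _ => ?_
  rw [Finset.sum_mul, Finset.sum_mul, Finset.sum_mul]
  refine Finset.sum_congr rfl fun m _ => ?_
  ring

/-! ### the linear and bilinear forms -/

/-- `L(t, u) = ∑ (t_i - x) u_i` -/
def LL (t : Fin p → ℝ) (u : Fin p → ℂ) : ℂ := ∑ i, ((t i - xav t : ℝ) : ℂ) * u i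

/-- `B(u, v)` -/
def BB (u v : Fin p → ℂ) : ℂ := ∑ j, (u j - (∑ i, u i) / p) * v j

lemma hasFDerivAt_xav (t : Fin p → ℝ) :
    HasFDerivAt (xav : (Fin p → ℝ) → ℝ)
      ((1 / (p : ℝ)) • ∑ i : Fin p, (ContinuousLinearMap.proj i : (Fin p → ℝ) →L[ℝ] ℝ)) t := by
  have h : (xav : (Fin p → ℝ) → ℝ) =
      fun t => ((1 / (p : ℝ)) • ∑ i : Fin p, (ContinuousLinearMap.proj i : (Fin p → ℝ) →L[ℝ] ℝ)) t := by
    funext t
    simp [xav, div_eq_inv_mul]
  rw [h]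
  exact ContinuousLinearMap.hasFDerivAt _

lemma xav_single (i : Fin p) :
    ((1 / (p : ℝ)) • ∑ i : Fin p, (ContinuousLinearMap.proj i : (Fin p → ℝ) →L[ℝ] ℝ))
      (Pi.single i 1) = 1 / p := by
  simp [Finset.sum_pi_single']

lemma hasD_xav (t : Fin p → ℝ) (v : Fin p → ℂ) :
    HasD (fun s => ((xav s : ℝ) : ℂ)) t v ((∑ i, v i) / p) := by
  have h := hasD_ofReal (hasFDerivAt_xav t).differentiableAt v
  have e : (∑ i, (pd xav i t : ℂ) * v i) = (∑ i, v i) / p := by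
    rw [Finset.sum_div]
    refine Finset.sum_congr rfl fun i _ => ?_
    have : pd xav i t = 1 / p := by
      unfold pd
      rw [(hasFDerivAt_xav t).fderiv, xav_single]
    rw [this]
    push_cast
    ring
  rwa [e] at h

lemma hasD_coord (t : Fin p → ℝ) (v : Fin p → ℂ) (i : Fin p) :
    HasD (fun s => ((s i : ℝ) : ℂ)) t v (v i) := by
  have h0 : HasFDerivAt (fun s : Fin p → ℝ => s i)
      (ContinuousLinearMap.proj i : (Fin p → ℝ) →L[ℝ] ℝ) t :=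
    (ContinuousLinearMap.proj i : (Fin p → ℝ) →L[ℝ] ℝ).hasFDerivAt
  have h := hasD_ofReal h0.differentiableAt v
  have e : (∑ j, (pd (fun s : Fin p → ℝ => s i) j t : ℂ) * v j) = v i := by
    rw [Finset.sum_eq_single i]
    · have : pd (fun s : Fin p → ℝ => s i) i t = 1 := by
        unfold pd
        rw [h0.fderiv]
        simp
      rw [this]
      simp
    · intro j _ hj
      have : pd (fun s : Fin p → ℝ => s i) j t = 0 := by
        unfold pd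
        rw [h0.fderiv]
        simp [hj.symm]
      rw [this]
      simp
    · simp
  rwa [e] at h

lemma hasD_LL (t : Fin p → ℝ) (u v : Fin p → ℂ) : HasD (fun s => LL s u) t v (BB u v) := by
  have h1 : HasD (fun s => LL s u) t v (∑ i, (v i + (-1) * ((∑ j, v j) / p)) * u i) := by
    unfold LL
    refine HasD.sum _ fun i _ => ?_
    have h2 := (((hasD_coord t v i).add ((hasD_xav t v).const_mul (-1))).mul
      (HasD.const (u i) t v))
    have e : (fun s : Fin p → ℝ => ((s i - xav s : ℝ) : ℂ) * u i) =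
        fun s => (((s i : ℝ) : ℂ) + -1 * ((xav s : ℝ) : ℂ)) * u i := by
      funext s
      push_cast
      ring
    rw [e]
    simpa using h2
  have e : BB u v = ∑ i, (v i + (-1) * ((∑ j, v j) / p)) * u i := by
    unfold BB
    have e1 : ∑ j, (u j - (∑ i, u i) / p) * v j = ∑ j, u j * v j - (∑ i, u i) / p * ∑ j, v j := by
      rw [Finset.mul_sum, ← Finset.sum_sub_distrib]
      exact Finset.sum_congr rfl fun j _ => by ring
    have e2 : ∑ i, (v i + (-1) * ((∑ j, v j) / p)) * u i =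
        ∑ j, u j * v j - (∑ j, v j) / p * ∑ i, u i := by
      rw [Finset.mul_sum, ← Finset.sum_sub_distrib]
      exact Finset.sum_congr rfl fun j _ => by ring
    rw [e1, e2]
    ring
  rw [e]
  exact h1

lemma sum_eq_xav (hp : 0 < p) (t : Fin p → ℝ) : ∑ i, t i = p * xav t := by
  have : (p : ℝ) ≠ 0 := by exact_mod_cast hp.ne'
  unfold xav
  field_simp

lemma hasD_qhat (hp : 0 < p) (t : Fin p → ℝ) (v : Fin p → ℂ) :
    HasD (fun s => ((qhat s : ℝ) : ℂ)) t v (2 * LL t v) := by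
  have hp' : (p : ℂ) ≠ 0 := by exact_mod_cast hp.ne'
  have h1 : HasD (fun s => ∑ i, ((s i : ℝ) : ℂ) * ((s i : ℝ) : ℂ)) t v
      (∑ i, (v i * ((t i : ℝ) : ℂ) + ((t i : ℝ) : ℂ) * v i)) :=
    HasD.sum _ fun i _ => (hasD_coord t v i).mul (hasD_coord t v i)
  have h2 := h1.add (((hasD_xav t v).mul (hasD_xav t v)).const_mul (-(p : ℂ)))
  have e : (fun s : Fin p → ℝ => ((qhat s : ℝ) : ℂ)) = fun s =>
      ∑ i, ((s i : ℝ) : ℂ) * ((s i : ℝ) : ℂ) + (-(p : ℂ)) * (((xav s : ℝ) : ℂ) * ((xav s : ℝ) : ℂ)) := by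
    funext s
    unfold qhat
    push_cast
    have : ∀ i, ((s i : ℝ) : ℂ) ^ 2 = ((s i : ℝ) : ℂ) * ((s i : ℝ) : ℂ) := fun i => sq _
    rw [Finset.sum_congr rfl fun i _ => this i]
    ring
  rw [e]
  have e2 : 2 * LL t v = ∑ i, (v i * ((t i : ℝ) : ℂ) + ((t i : ℝ) : ℂ) * v i) +
      (-(p : ℂ)) * ((∑ i, v i) / p * ((xav t : ℝ) : ℂ) + ((xav t : ℝ) : ℂ) * ((∑ i, v i) / p)) := by
    unfold LL
    have e3 : ∑ i, ((t i - xav t : ℝ) : ℂ) * v i = ∑ i, ((t i : ℝ) : ℂ) * v i -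
        ((xav t : ℝ) : ℂ) * ∑ i, v i := by
      rw [Finset.mul_sum, ← Finset.sum_sub_distrib]
      refine Finset.sum_congr rfl fun i _ => ?_
      push_cast
      ring
    have e4 : ∑ i, (v i * ((t i : ℝ) : ℂ) + ((t i : ℝ) : ℂ) * v i) =
        2 * ∑ i, ((t i : ℝ) : ℂ) * v i := by
      rw [Finset.mul_sum]
      exact Finset.sum_congr rfl fun i _ => by ring
    rw [e3, e4]
    field_simp
    ring
  rw [e2]
  exact h2

/-- `G_c(t) = exp(-c q(t))` -/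
def GG (c : ℝ) (t : Fin p → ℝ) : ℂ := Complex.exp (-(c : ℂ) * ((qhat t : ℝ) : ℂ))

lemma hasD_GG (hp : 0 < p) (c : ℝ) (t : Fin p → ℝ) (v : Fin p → ℂ) :
    HasD (fun s => GG c s) t v (-(2 * c) * LL t v * GG c t) := by
  have h := ((hasD_qhat hp t v).const_mul (-(c : ℂ))).cexp
  have e : Complex.exp (-(c : ℂ) * ((qhat t : ℝ) : ℂ)) * (-(c : ℂ) * (2 * LL t v)) =
      -(2 * c) * LL t v * GG c t := by
    unfold GG
    ring
  rw [e] at h
  exact h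

lemma contDiff_xav : ContDiff ℝ ∞ (xav : (Fin p → ℝ) → ℝ) := by
  unfold xav
  fun_prop

lemma contDiff_qhat : ContDiff ℝ ∞ (qhat : (Fin p → ℝ) → ℝ) := by
  unfold qhat
  have := contDiff_xav (p := p)
  fun_prop

lemma contDiff_S0 (M : ℕ) : ContDiff ℝ ∞ (S0 M : (Fin p → ℝ) → ℝ) := by
  unfold S0
  have := contDiff_qhat (p := p)
  fun_prop

lemma S0_coe (M : ℕ) (t : Fin p → ℝ) : ((S0 M t : ℝ) : ℂ) =
    ∑ j ∈ Finset.range M, (1 / 16 : ℂ) ^ j * GG (4 ^ j) t := by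
  unfold S0 GG
  push_cast
  refine Finset.sum_congr rfl fun j _ => ?_
  rw [neg_mul]

lemma D1_S0 (hp : 0 < p) (M : ℕ) (t : Fin p → ℝ) (u : Fin p → ℂ) : D1 (S0 M) t u =
    ∑ j ∈ Finset.range M, (1 / 16 : ℂ) ^ j *
      ((-(2 * ((4 ^ j : ℝ) : ℂ)) * LL t u) * GG (4 ^ j) t) := by
  apply D1_eq ((contDiff_S0 M).differentiable (by simp) t)
  have e : (fun s : Fin p → ℝ => ((S0 M s : ℝ) : ℂ)) =
      fun s => ∑ j ∈ Finset.range M, (1 / 16 : ℂ) ^ j * GG (4 ^ j) s := by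
    funext s
    exact S0_coe M s
  rw [e]
  exact HasD.sum _ fun j _ => (hasD_GG hp (4 ^ j) t u).const_mul _

lemma D2_S0 (hp : 0 < p) (M : ℕ) (t : Fin p → ℝ) (u v : Fin p → ℂ) : D2 (S0 M) t u v =
    ∑ j ∈ Finset.range M, (1 / 16 : ℂ) ^ j *
      ((4 * ((4 ^ j : ℝ) : ℂ) ^ 2 * (LL t u * LL t v) - 2 * ((4 ^ j : ℝ) : ℂ) * BB u v)
        * GG (4 ^ j) t) := by
  apply D2_eq (contDiff_S0 M)
  have e : (fun s : Fin p → ℝ => D1 (S0 M) s u) = _ := funext fun s => D1_S0 hp M s u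
  rw [e]
  refine HasD.sum _ fun j _ => HasD.const_mul ?_ _
  have h := (((hasD_LL t u v).const_mul (-(2 * ((4 ^ j : ℝ) : ℂ)))).mul
    (hasD_GG hp (4 ^ j) t v))
  convert h using 1
  push_cast
  ring

lemma D3_S0 (hp : 0 < p) (M : ℕ) (t : Fin p → ℝ) (u v w : Fin p → ℂ) : D3 (S0 M) t u v w =
    ∑ j ∈ Finset.range M, (1 / 16 : ℂ) ^ j *
      ((4 * ((4 ^ j : ℝ) : ℂ) ^ 2 * (BB u v * LL t w + BB u w * LL t v + BB v w * LL t u)
        - 8 * ((4 ^ j : ℝ) : ℂ) ^ 3 * (LL t u * LL t v * LL t w)) * GG (4 ^ j) t) := by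
  apply D3_eq (contDiff_S0 M)
  have e : (fun s : Fin p → ℝ => D2 (S0 M) s u v) = _ := funext fun s => D2_S0 hp M s u v
  rw [e]
  refine HasD.sum _ fun j _ => HasD.const_mul ?_ _
  have h := ((((hasD_LL t u w).mul (hasD_LL t v w)).const_mul (4 * ((4 ^ j : ℝ) : ℂ) ^ 2)).add
    (HasD.const (-(2 * ((4 ^ j : ℝ) : ℂ) * BB u v)) t w)).mul (hasD_GG hp (4 ^ j) t w)
  have e2 : (fun s : Fin p → ℝ => (4 * ((4 ^ j : ℝ) : ℂ) ^ 2 * (LL s u * LL s v) -
      2 * ((4 ^ j : ℝ) : ℂ) * BB u v) * GG (4 ^ j) s) = fun s =>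
      (4 * ((4 ^ j : ℝ) : ℂ) ^ 2 * (LL s u * LL s v) +
      -(2 * ((4 ^ j : ℝ) : ℂ) * BB u v)) * GG (4 ^ j) s := by
    funext s
    ring
  rw [e2]
  convert h using 1
  push_cast
  ring

lemma D4_S0 (hp : 0 < p) (M : ℕ) (t : Fin p → ℝ) (u v w y : Fin p → ℂ) : D4 (S0 M) t u v w y =
    ∑ j ∈ Finset.range M, (1 / 16 : ℂ) ^ j *
      ((4 * ((4 ^ j : ℝ) : ℂ) ^ 2 * (BB u v * BB w y + BB u w * BB v y + BB v w * BB u y)
        - 8 * ((4 ^ j : ℝ) : ℂ) ^ 3 * (BB u v * (LL t w * LL t y) + BB u w * (LL t v * LL t y) +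
          BB v w * (LL t u * LL t y) + BB u y * (LL t v * LL t w) + BB v y * (LL t u * LL t w) +
          BB w y * (LL t u * LL t v))
        + 16 * ((4 ^ j : ℝ) : ℂ) ^ 4 * (LL t u * LL t v * (LL t w * LL t y))) * GG (4 ^ j) t) := by
  apply D4_eq (contDiff_S0 M)
  have e : (fun s : Fin p → ℝ => D3 (S0 M) s u v w) = _ := funext fun s => D3_S0 hp M s u v w
  rw [e]
  refine HasD.sum _ fun j _ => HasD.const_mul ?_ _
  have h := (((((hasD_LL t w y).const_mul (BB u v)).add ((hasD_LL t v y).const_mul (BB u w))).add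
    ((hasD_LL t u y).const_mul (BB v w))).const_mul (4 * ((4 ^ j : ℝ) : ℂ) ^ 2)).add
    ((((hasD_LL t u y).mul (hasD_LL t v y)).mul (hasD_LL t w y)).const_mul
      (-(8 * ((4 ^ j : ℝ) : ℂ) ^ 3)))
  have h' := h.mul (hasD_GG hp (4 ^ j) t y)
  have e2 : (fun s : Fin p → ℝ => (4 * ((4 ^ j : ℝ) : ℂ) ^ 2 *
      (BB u v * LL s w + BB u w * LL s v + BB v w * LL s u)
        - 8 * ((4 ^ j : ℝ) : ℂ) ^ 3 * (LL s u * LL s v * LL s w)) * GG (4 ^ j) s) = fun s =>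
      (4 * ((4 ^ j : ℝ) : ℂ) ^ 2 *
      (BB u v * LL s w + BB u w * LL s v + BB v w * LL s u)
        + -(8 * ((4 ^ j : ℝ) : ℂ) ^ 3) * (LL s u * LL s v * LL s w)) * GG (4 ^ j) s := by
    funext s
    ring
  rw [e2]
  convert h' using 1
  push_cast
  ring

/-! ### estimates -/

lemma qhat_eq (hp : 0 < p) (t : Fin p → ℝ) : qhat t = ∑ i, (t i - xav t) ^ 2 := by
  have h := sum_eq_xav hp t
  have e : ∑ i, (t i - xav t) ^ 2 = ∑ i, t i ^ 2 - 2 * xav t * ∑ i, t i + p * xav t ^ 2 := by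
    rw [Finset.mul_sum, ← Finset.sum_sub_distrib]
    have : (p : ℝ) * xav t ^ 2 = ∑ _i : Fin p, xav t ^ 2 := by simp
    rw [this, ← Finset.sum_add_distrib]
    exact Finset.sum_congr rfl fun i _ => by ring
  rw [e, h]
  unfold qhat
  ring

lemma qhat_nonneg (hp : 0 < p) (t : Fin p → ℝ) : 0 ≤ qhat t := by
  rw [qhat_eq hp]
  exact Finset.sum_nonneg fun i _ => sq_nonneg _

lemma norm_sum_le_mul (u : Fin p → ℂ) : ‖∑ i, u i‖ ≤ p * ‖u‖ := by
  calc ‖∑ i, u i‖ ≤ ∑ i, ‖u i‖ := norm_sum_le _ _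
    _ ≤ ∑ _i : Fin p, ‖u‖ := Finset.sum_le_sum fun i _ => norm_le_pi_norm u i
    _ = p * ‖u‖ := by simp

lemma norm_LL_le (hp : 0 < p) (t : Fin p → ℝ) (u : Fin p → ℂ) :
    ‖LL t u‖ ≤ p * √(qhat t) * ‖u‖ := by
  unfold LL
  calc ‖∑ i, ((t i - xav t : ℝ) : ℂ) * u i‖ ≤ ∑ i, ‖((t i - xav t : ℝ) : ℂ) * u i‖ :=
        norm_sum_le _ _
    _ ≤ ∑ _i : Fin p, √(qhat t) * ‖u‖ := by
        refine Finset.sum_le_sum fun i _ => ?_
        rw [norm_mul, Complex.norm_real]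
        refine mul_le_mul ?_ (norm_le_pi_norm u i) (norm_nonneg _) (Real.sqrt_nonneg _)
        rw [Real.norm_eq_abs]
        apply Real.abs_le_sqrt
        rw [qhat_eq hp]
        exact Finset.single_le_sum (f := fun i => (t i - xav t) ^ 2)
          (fun i _ => sq_nonneg _) (Finset.mem_univ i)
    _ = p * √(qhat t) * ‖u‖ := by simp [mul_assoc]

lemma norm_BB_le (hp : 0 < p) (u v : Fin p → ℂ) : ‖BB u v‖ ≤ 2 * p * (‖u‖ * ‖v‖) := by
  unfold BB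
  have hp' : (0 : ℝ) < p := by exact_mod_cast hp
  have hu : ‖(∑ i, u i) / (p : ℂ)‖ ≤ ‖u‖ := by
    rw [norm_div, Complex.norm_natCast, div_le_iff₀ hp', mul_comm]
    exact norm_sum_le_mul u
  calc ‖∑ j, (u j - (∑ i, u i) / p) * v j‖ ≤ ∑ j, ‖(u j - (∑ i, u i) / p) * v j‖ :=
        norm_sum_le _ _
    _ ≤ ∑ _j : Fin p, (2 * ‖u‖) * ‖v‖ := by
        refine Finset.sum_le_sum fun j _ => ?_
        rw [norm_mul]
        refine mul_le_mul ?_ (norm_le_pi_norm v j) (norm_nonneg _) (by positivity)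
        calc ‖u j - (∑ i, u i) / (p : ℂ)‖ ≤ ‖u j‖ + ‖(∑ i, u i) / (p : ℂ)‖ := norm_sub_le _ _
          _ ≤ ‖u‖ + ‖u‖ := add_le_add (norm_le_pi_norm u j) hu
          _ = 2 * ‖u‖ := by ring
    _ = 2 * p * (‖u‖ * ‖v‖) := by simp; ring

lemma norm_conj_pi (u : Fin p → ℂ) : ‖(fun i => conj (u i))‖ = ‖u‖ := by
  apply le_antisymm
  · rw [pi_norm_le_iff_of_nonneg (norm_nonneg _)]
    intro i
    rw [Complex.norm_conj]
    exact norm_le_pi_norm u i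
  · rw [pi_norm_le_iff_of_nonneg (norm_nonneg _)]
    intro i
    have := norm_le_pi_norm (fun i => conj (u i)) i
    simpa using this

lemma norm_GG (c : ℝ) (t : Fin p → ℝ) : ‖GG c t‖ = Real.exp (-(c * qhat t)) := by
  unfold GG
  rw [Complex.norm_exp]
  congr 1
  simp

lemma GG_real (c : ℝ) (t : Fin p → ℝ) : GG c t = ((Real.exp (-(c * qhat t)) : ℝ) : ℂ) := by
  unfold GG
  push_cast
  congr 1
  ring

/-- `r^m e^{-r²} ≤ 9 e^{-r²/2}` for `m ≤ 4` -/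
lemma pow_mul_exp_le (r : ℝ) (hr : 0 ≤ r) (m : ℕ) (hm : m ≤ 4) :
    r ^ m * Real.exp (-r ^ 2) ≤ 9 * Real.exp (-(r ^ 2 / 2)) := by
  have h1 : r ^ m ≤ 1 + r ^ 4 := by
    rcases le_total r 1 with h | h
    · have := pow_le_one₀ (n := m) hr h
      have : 0 ≤ r ^ 4 := by positivity
      linarith
    · have := pow_le_pow_right₀ h hm
      linarith
  have h2 : (r ^ 2 / 2) ^ 2 / 2 ≤ Real.exp (r ^ 2 / 2) := by
    have := Real.quadratic_le_exp_of_nonneg (x := r ^ 2 / 2) (by positivity)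
    have h3 : 0 ≤ r ^ 2 / 2 := by positivity
    linarith
  have h3 : 1 ≤ Real.exp (r ^ 2 / 2) := Real.one_le_exp (by positivity)
  have h4 : r ^ m ≤ 9 * Real.exp (r ^ 2 / 2) := by nlinarith
  calc r ^ m * Real.exp (-r ^ 2) ≤ 9 * Real.exp (r ^ 2 / 2) * Real.exp (-r ^ 2) :=
        mul_le_mul_of_nonneg_right h4 (Real.exp_pos _).le
    _ = 9 * Real.exp (-(r ^ 2 / 2)) := by
        rw [mul_assoc, ← Real.exp_add]
        congr 2
        ring

lemma sqrt_four_pow (q : ℝ) (hq : 0 ≤ q) (j : ℕ) : (2 ^ j * √q) ^ 2 = 4 ^ j * q := by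
  rw [mul_pow, Real.sq_sqrt hq, ← pow_mul, mul_comm j 2, pow_mul]
  norm_num

/-- the basic term bound -/
lemma term_bound (q : ℝ) (hq : 0 ≤ q) (j m : ℕ) (hm : m ≤ 4) :
    (2 ^ j * √q) ^ m * Real.exp (-(4 ^ j * q)) ≤ 9 * Real.exp (-(q / 4)) := by
  have h1 := pow_mul_exp_le (2 ^ j * √q) (by positivity) m hm
  rw [sqrt_four_pow q hq j] at h1
  refine h1.trans ?_
  have h2 : (1 : ℝ) ≤ 4 ^ j := one_le_pow₀ (by norm_num)
  have h3 : -(4 ^ j * q / 2) ≤ -(q / 4) := by nlinarith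
  have := Real.exp_le_exp.mpr h3
  linarith

/-- `∑ 4^j q e^{-4^j q} ≤ (4/3) e^{-q/4}` -/
lemma sum_tele (q : ℝ) (hq : 0 ≤ q) (M : ℕ) :
    ∑ j ∈ Finset.range M, (4 ^ j * q) * Real.exp (-(4 ^ j * q)) ≤ 4 / 3 * Real.exp (-(q / 4)) := by
  have key : ∀ j : ℕ, (4 ^ j * q) * Real.exp (-(4 ^ j * q)) ≤
      4 / 3 * (Real.exp (-(4 ^ j * q / 4)) - Real.exp (-(4 ^ (j + 1) * q / 4))) := by
    intro j
    set s : ℝ := 4 ^ j * q with hs
    have hs0 : 0 ≤ s := by positivity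
    have e1 : (4 : ℝ) ^ (j + 1) * q / 4 = s := by rw [pow_succ]; ring
    rw [e1]
    have e2 : Real.exp (-(s / 4)) = Real.exp (-s) * Real.exp (3 * s / 4) := by
      rw [← Real.exp_add]
      congr 1
      ring
    have e3 : 3 * s / 4 + 1 ≤ Real.exp (3 * s / 4) := Real.add_one_le_exp _
    have e4 := Real.exp_pos (-s)
    rw [e2]
    nlinarith
  have h2 : ∀ M : ℕ, ∑ j ∈ Finset.range M, (4 ^ j * q) * Real.exp (-(4 ^ j * q)) ≤
      4 / 3 * (Real.exp (-(q / 4)) - Real.exp (-(4 ^ M * q / 4))) := by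
    intro M
    induction M with
    | zero => simp
    | succ M ih =>
      rw [Finset.sum_range_succ]
      have := key M
      linarith
  have := h2 M
  have h3 := Real.exp_pos (-(4 ^ M * q / 4))
  linarith

/-- decay in a cone direction -/
lemma exp_qhat_le {k : ℕ} (hk : 2 * k + 1 ≤ p) {t : Fin p → ℝ} {J : Finset (Fin p)}
    {τ : Fin p → ℂ} (h : ConeDir k 1 t J τ) :
    Real.exp (-(qhat t / 4)) ≤ 96 / (1 + xav t) ^ 2 := by
  obtain ⟨h0, hJ, h1, -⟩ := h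
  have hp : 0 < p := by omega
  have hp' : (0 : ℝ) < p := by exact_mod_cast hp
  have hx : 0 ≤ xav t := by
    unfold xav
    exact div_nonneg (Finset.sum_nonneg fun i _ => h0 i) hp'.le
  obtain ⟨i, hi⟩ : ∃ i, i ∉ J := by
    by_contra hcon
    push Not at hcon
    have : J = Finset.univ := Finset.eq_univ_iff_forall.mpr hcon
    rw [this, Finset.card_univ, Fintype.card_fin] at hJ
    omega
  have hq : xav t ^ 2 / 4 - 1 ≤ qhat t := by
    have h2 : (t i - xav t) ^ 2 ≤ qhat t := by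
      rw [qhat_eq hp]
      exact Finset.single_le_sum (f := fun i => (t i - xav t) ^ 2)
          (fun i _ => sq_nonneg _) (Finset.mem_univ i)
    have h3 := h1 i hi
    rcases le_total (xav t) 2 with h4 | h4
    · have := qhat_nonneg hp t
      nlinarith
    · nlinarith
  have h5 : (1 + xav t) ^ 2 ≤ 32 * Real.exp (xav t ^ 2 / 16) := by
    have := Real.add_one_le_exp (xav t ^ 2 / 16)
    nlinarith [sq_nonneg (1 - xav t)]
  have h6 : Real.exp (1 / 4) ≤ 3 := by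
    have h7 : Real.exp (1 / 4) ≤ Real.exp 1 := Real.exp_le_exp.mpr (by norm_num)
    have := Real.exp_one_lt_d9
    linarith
  rw [le_div_iff₀ (by positivity)]
  calc Real.exp (-(qhat t / 4)) * (1 + xav t) ^ 2
      ≤ Real.exp (1 / 4 - xav t ^ 2 / 16) * (32 * Real.exp (xav t ^ 2 / 16)) := by
        refine mul_le_mul (Real.exp_le_exp.mpr (by linarith)) h5 (by positivity)
          (Real.exp_pos _).le
    _ = 32 * Real.exp (1 / 4) := by
        rw [show Real.exp (1 / 4 - xav t ^ 2 / 16) * (32 * Real.exp (xav t ^ 2 / 16)) =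
          32 * (Real.exp (1 / 4 - xav t ^ 2 / 16) * Real.exp (xav t ^ 2 / 16)) by ring,
          ← Real.exp_add]
        congr 2
        ring
    _ ≤ 96 := by linarith

/-- general scheme: norm of a sum with geometric weights -/
lemma norm_sum_geom (M : ℕ) (F : ℕ → ℂ) (K : ℝ) (hK : 0 ≤ K)
    (h : ∀ j, ‖F j‖ ≤ (1 / 2) ^ j * K) : ‖∑ j ∈ Finset.range M, F j‖ ≤ 2 * K := by
  calc ‖∑ j ∈ Finset.range M, F j‖ ≤ ∑ j ∈ Finset.range M, ‖F j‖ := norm_sum_le _ _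
    _ ≤ ∑ j ∈ Finset.range M, (1 / 2) ^ j * K := Finset.sum_le_sum fun j _ => h j
    _ = (∑ j ∈ Finset.range M, (1 / 2 : ℝ) ^ j) * K := by rw [Finset.sum_mul]
    _ ≤ 2 * K := mul_le_mul_of_nonneg_right (sum_geometric_two_le M) hK

lemma pow_facts (j : ℕ) : (0 : ℝ) < 2 ^ j ∧ (4 : ℝ) ^ j = 2 ^ j * 2 ^ j ∧
    (1 / 16 : ℝ) ^ j * (2 ^ j * 2 ^ j * (2 ^ j * 2 ^ j)) = 1 ∧ (1 / 2 : ℝ) ^ j * 2 ^ j = 1 := by
  refine ⟨by positivity, ?_, ?_, ?_⟩
  · rw [← mul_pow]; norm_num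
  · rw [← mul_pow, ← mul_pow, ← mul_pow]; norm_num
  · rw [← mul_pow]; norm_num

lemma norm_four (j : ℕ) : ‖((4 ^ j : ℝ) : ℂ)‖ = 4 ^ j := by
  rw [Complex.norm_real, Real.norm_of_nonneg (by positivity)]

lemma norm_sixteen (j : ℕ) : ‖(1 / 16 : ℂ) ^ j‖ = (1 / 16) ^ j := by
  rw [norm_pow]
  norm_num

lemma D1_bound (hp : 0 < p) (M : ℕ) (t : Fin p → ℝ) (u : Fin p → ℂ) :
    ‖D1 (S0 M) t u‖ ≤ 36 * p * ‖u‖ * Real.exp (-(qhat t / 4)) := by
  have hq := qhat_nonneg hp t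
  rw [D1_S0 hp]
  refine (norm_sum_geom M _ (2 * p * ‖u‖ * (9 * Real.exp (-(qhat t / 4)))) (by positivity)
    fun j => ?_).trans (le_of_eq (by ring))
  rw [norm_mul, norm_mul, norm_mul, norm_neg, norm_mul, norm_four, norm_sixteen, norm_GG]
  have hL := norm_LL_le hp t u
  have hT := term_bound (qhat t) hq j 1 (by norm_num)
  obtain ⟨h1, h2, h3, h4⟩ := pow_facts j
  rw [pow_one] at hT
  have e0 : ‖(2 : ℂ)‖ = 2 := by norm_num
  rw [e0]
  have e1 : (0 : ℝ) ≤ (1 / 16) ^ j := by positivity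
  have e5 : (1 / 16 : ℝ) ^ j * 4 ^ j * √(qhat t) ≤ (1 / 2) ^ j * (2 ^ j * √(qhat t)) := by
    have e6 : (1 / 16 : ℝ) ^ j * 4 ^ j ≤ 1 := by
      rw [← mul_pow]
      exact pow_le_one₀ (by norm_num) (by norm_num)
    have e7 : 0 ≤ √(qhat t) := Real.sqrt_nonneg _
    rw [← mul_assoc, h4, one_mul]
    nlinarith
  calc (1 / 16 : ℝ) ^ j * (2 * 4 ^ j * ‖LL t u‖ * Real.exp (-(4 ^ j * qhat t)))
      ≤ (1 / 16 : ℝ) ^ j * (2 * 4 ^ j * (p * √(qhat t) * ‖u‖) * Real.exp (-(4 ^ j * qhat t))) := by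
        gcongr
    _ = 2 * p * ‖u‖ * (((1 / 16 : ℝ) ^ j * 4 ^ j * √(qhat t)) * Real.exp (-(4 ^ j * qhat t))) := by
        ring
    _ ≤ 2 * p * ‖u‖ * (((1 / 2) ^ j * (2 ^ j * √(qhat t))) * Real.exp (-(4 ^ j * qhat t))) := by
        gcongr
    _ = (1 / 2) ^ j * (2 * p * ‖u‖ * ((2 ^ j * √(qhat t)) * Real.exp (-(4 ^ j * qhat t)))) := by
        ring
    _ ≤ (1 / 2) ^ j * (2 * p * ‖u‖ * (9 * Real.exp (-(qhat t / 4)))) := by
        gcongr

lemma D2_bound (hp : 0 < p) (M : ℕ) (t : Fin p → ℝ) (u v : Fin p → ℂ) :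
    ‖D2 (S0 M) t u v‖ ≤ (72 * p ^ 2 + 72 * p) * (‖u‖ * ‖v‖) * Real.exp (-(qhat t / 4)) := by
  have hq := qhat_nonneg hp t
  rw [D2_S0 hp]
  refine (norm_sum_geom M _ ((4 * p ^ 2 + 4 * p) * (‖u‖ * ‖v‖) *
    (9 * Real.exp (-(qhat t / 4)))) (by positivity) fun j => ?_).trans (le_of_eq (by ring))
  rw [norm_mul, norm_mul, norm_sixteen, norm_GG]
  have hLu := norm_LL_le hp t u
  have hLv := norm_LL_le hp t v
  have hB := norm_BB_le hp u v
  have hT2 := term_bound (qhat t) hq j 2 (by norm_num)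
  have hT0 := term_bound (qhat t) hq j 0 (by norm_num)
  obtain ⟨h1, h2, h3, h4⟩ := pow_facts j
  set ρ := √(qhat t)
  set E := Real.exp (-(4 ^ j * qhat t)) with hE
  have hE0 : 0 ≤ E := (Real.exp_pos _).le
  have hρ : 0 ≤ ρ := Real.sqrt_nonneg _
  have hH0 : (0 : ℝ) ≤ (1 / 2) ^ j := by positivity
  have hH1 : ((1 : ℝ) / 2) ^ j ≤ 1 := pow_le_one₀ (by norm_num) (by norm_num)
  have hA : (1 / 16 : ℝ) ^ j = (1 / 2) ^ j * (1 / 2) ^ j * ((1 / 2) ^ j * (1 / 2) ^ j) := by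
    rw [← mul_pow, ← mul_pow]; norm_num
  have hX : ‖4 * ((4 ^ j : ℝ) : ℂ) ^ 2 * (LL t u * LL t v) - 2 * ((4 ^ j : ℝ) : ℂ) * BB u v‖ ≤
      4 * (4 ^ j) ^ 2 * ((p * ρ * ‖u‖) * (p * ρ * ‖v‖)) + 2 * 4 ^ j * (2 * p * (‖u‖ * ‖v‖)) := by
    refine (norm_sub_le _ _).trans ?_
    simp only [norm_mul, norm_pow, norm_four]
    have e2 : ‖(2 : ℂ)‖ = 2 := by norm_num
    have e4 : ‖(4 : ℂ)‖ = 4 := by norm_num
    rw [e2, e4]
    gcongr
  calc (1 / 16 : ℝ) ^ j * (‖4 * ((4 ^ j : ℝ) : ℂ) ^ 2 * (LL t u * LL t v) -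
        2 * ((4 ^ j : ℝ) : ℂ) * BB u v‖ * E)
      ≤ (1 / 16 : ℝ) ^ j * ((4 * (4 ^ j) ^ 2 * ((p * ρ * ‖u‖) * (p * ρ * ‖v‖)) +
          2 * 4 ^ j * (2 * p * (‖u‖ * ‖v‖))) * E) := by gcongr
    _ = (1 / 2) ^ j * ((1 / 2) ^ j * (4 * p ^ 2 * (‖u‖ * ‖v‖) * ((2 ^ j * ρ) ^ 2 * E) +
          4 * p * (‖u‖ * ‖v‖) * ((2 ^ j * ρ) ^ 0 * E))) := by
        rw [hA, h2]
        have e : (1 / 2 : ℝ) ^ j * 2 ^ j = 1 := h4
        generalize ((1 : ℝ) / 2) ^ j = H at e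
        generalize (2 : ℝ) ^ j = P at e
        linear_combination (4 * p ^ 2 * (‖u‖ * ‖v‖) * ρ ^ 2 * P ^ 2 * E * H ^ 2 * (H * P + 1) +
          4 * p * (‖u‖ * ‖v‖) * E * H ^ 2 * (H * P + 1)) * e
    _ ≤ (1 / 2) ^ j * (1 * (4 * p ^ 2 * (‖u‖ * ‖v‖) * (9 * Real.exp (-(qhat t / 4))) +
          4 * p * (‖u‖ * ‖v‖) * (9 * Real.exp (-(qhat t / 4))))) := by gcongr
    _ = (1 / 2) ^ j * ((4 * p ^ 2 + 4 * p) * (‖u‖ * ‖v‖) *
          (9 * Real.exp (-(qhat t / 4)))) := by ring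

lemma D3_bound (hp : 0 < p) (M : ℕ) (t : Fin p → ℝ) (u v w : Fin p → ℂ) :
    ‖D3 (S0 M) t u v w‖ ≤ (144 * p ^ 3 + 432 * p ^ 2) * (‖u‖ * ‖v‖ * ‖w‖) *
      Real.exp (-(qhat t / 4)) := by
  have hq := qhat_nonneg hp t
  rw [D3_S0 hp]
  refine (norm_sum_geom M _ ((8 * p ^ 3 + 24 * p ^ 2) * (‖u‖ * ‖v‖ * ‖w‖) *
    (9 * Real.exp (-(qhat t / 4)))) (by positivity) fun j => ?_).trans (le_of_eq (by ring))
  rw [norm_mul, norm_mul, norm_sixteen, norm_GG]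
  have hLu := norm_LL_le hp t u
  have hLv := norm_LL_le hp t v
  have hLw := norm_LL_le hp t w
  have hBuv := norm_BB_le hp u v
  have hBuw := norm_BB_le hp u w
  have hBvw := norm_BB_le hp v w
  have hT3 := term_bound (qhat t) hq j 3 (by norm_num)
  have hT1 := term_bound (qhat t) hq j 1 (by norm_num)
  obtain ⟨h1, h2, h3, h4⟩ := pow_facts j
  set ρ := √(qhat t)
  set E := Real.exp (-(4 ^ j * qhat t)) with hE
  have hE0 : 0 ≤ E := (Real.exp_pos _).le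
  have hρ : 0 ≤ ρ := Real.sqrt_nonneg _
  have hH0 : (0 : ℝ) ≤ (1 / 2) ^ j := by positivity
  have hH1 : ((1 : ℝ) / 2) ^ j ≤ 1 := pow_le_one₀ (by norm_num) (by norm_num)
  have hA : (1 / 16 : ℝ) ^ j = (1 / 2) ^ j * (1 / 2) ^ j * ((1 / 2) ^ j * (1 / 2) ^ j) := by
    rw [← mul_pow, ← mul_pow]; norm_num
  have hX : ‖4 * ((4 ^ j : ℝ) : ℂ) ^ 2 * (BB u v * LL t w + BB u w * LL t v + BB v w * LL t u)
        - 8 * ((4 ^ j : ℝ) : ℂ) ^ 3 * (LL t u * LL t v * LL t w)‖ ≤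
      4 * (4 ^ j) ^ 2 * ((2 * p * (‖u‖ * ‖v‖)) * (p * ρ * ‖w‖) +
        (2 * p * (‖u‖ * ‖w‖)) * (p * ρ * ‖v‖) + (2 * p * (‖v‖ * ‖w‖)) * (p * ρ * ‖u‖)) +
      8 * (4 ^ j) ^ 3 * ((p * ρ * ‖u‖) * (p * ρ * ‖v‖) * (p * ρ * ‖w‖)) := by
    refine (norm_sub_le _ _).trans ?_
    have e8 : ‖(8 : ℂ)‖ = 8 := by norm_num
    have e4 : ‖(4 : ℂ)‖ = 4 := by norm_num
    have e5 : ‖BB u v * LL t w + BB u w * LL t v + BB v w * LL t u‖ ≤
        ‖BB u v‖ * ‖LL t w‖ + ‖BB u w‖ * ‖LL t v‖ + ‖BB v w‖ * ‖LL t u‖ := by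
      refine (norm_add₃_le).trans ?_
      simp only [norm_mul]
      exact le_refl _
    rw [norm_mul, norm_mul (4 : ℂ), norm_mul (8 * ((4 ^ j : ℝ) : ℂ) ^ 3), norm_mul (8 : ℂ),
      norm_pow, norm_pow, norm_four, e8, e4, norm_mul, norm_mul]
    refine add_le_add ?_ ?_
    · refine mul_le_mul_of_nonneg_left (e5.trans ?_) (by positivity)
      gcongr
    · gcongr
  calc (1 / 16 : ℝ) ^ j * (‖4 * ((4 ^ j : ℝ) : ℂ) ^ 2 *
        (BB u v * LL t w + BB u w * LL t v + BB v w * LL t u)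
        - 8 * ((4 ^ j : ℝ) : ℂ) ^ 3 * (LL t u * LL t v * LL t w)‖ * E)
      ≤ (1 / 16 : ℝ) ^ j * ((4 * (4 ^ j) ^ 2 * ((2 * p * (‖u‖ * ‖v‖)) * (p * ρ * ‖w‖) +
        (2 * p * (‖u‖ * ‖w‖)) * (p * ρ * ‖v‖) + (2 * p * (‖v‖ * ‖w‖)) * (p * ρ * ‖u‖)) +
      8 * (4 ^ j) ^ 3 * ((p * ρ * ‖u‖) * (p * ρ * ‖v‖) * (p * ρ * ‖w‖))) * E) := by gcongr
    _ = (1 / 2) ^ j * (8 * p ^ 3 * (‖u‖ * ‖v‖ * ‖w‖) * ((2 ^ j * ρ) ^ 3 * E) +
          24 * p ^ 2 * (‖u‖ * ‖v‖ * ‖w‖) * ((2 ^ j * ρ) ^ 1 * E)) := by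
        rw [hA, h2]
        have e : (1 / 2 : ℝ) ^ j * 2 ^ j = 1 := h4
        generalize ((1 : ℝ) / 2) ^ j = H at e
        generalize (2 : ℝ) ^ j = P at e
        linear_combination (8 * p ^ 3 * (‖u‖ * ‖v‖ * ‖w‖) * ρ ^ 3 * P ^ 3 * E * H *
          ((H * P) ^ 2 + H * P + 1) +
          24 * p ^ 2 * (‖u‖ * ‖v‖ * ‖w‖) * ρ * P * E * H * ((H * P) ^ 2 + H * P + 1)) * e
    _ ≤ (1 / 2) ^ j * (8 * p ^ 3 * (‖u‖ * ‖v‖ * ‖w‖) * (9 * Real.exp (-(qhat t / 4))) +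
          24 * p ^ 2 * (‖u‖ * ‖v‖ * ‖w‖) * (9 * Real.exp (-(qhat t / 4)))) := by gcongr
    _ = (1 / 2) ^ j * ((8 * p ^ 3 + 24 * p ^ 2) * (‖u‖ * ‖v‖ * ‖w‖) *
          (9 * Real.exp (-(qhat t / 4)))) := by ring

lemma LL_conj (t : Fin p → ℝ) (u : Fin p → ℂ) : LL t (fun i => conj (u i)) = conj (LL t u) := by
  unfold LL
  rw [map_sum]
  refine Finset.sum_congr rfl fun i _ => ?_
  rw [map_mul, Complex.conj_ofReal]

lemma BB_conj (u v : Fin p → ℂ) :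
    BB (fun i => conj (u i)) (fun i => conj (v i)) = conj (BB u v) := by
  unfold BB
  rw [map_sum]
  refine Finset.sum_congr rfl fun i _ => ?_
  rw [map_mul, map_sub, map_div₀, map_sum, Complex.conj_natCast]

lemma BB_comm (u v : Fin p → ℂ) : BB u v = BB v u := by
  unfold BB
  have e : ∀ u v : Fin p → ℂ, ∑ j, (u j - (∑ i, u i) / p) * v j =
      ∑ j, u j * v j - (∑ i, u i) * (∑ j, v j) / p := by
    intro u v
    have : (∑ i, u i) * (∑ j, v j) / (p : ℂ) = ∑ j, (∑ i, u i) / p * v j := by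
      rw [← Finset.mul_sum]
      ring
    rw [this, ← Finset.sum_sub_distrib]
    exact Finset.sum_congr rfl fun j _ => by ring
  rw [e, e]
  congr 1
  · exact Finset.sum_congr rfl fun j _ => by ring
  · ring

lemma BB_self_conj (u : Fin p → ℂ) : (BB u (fun i => conj (u i))).im = 0 := by
  have h : conj (BB u (fun i => conj (u i))) = BB u (fun i => conj (u i)) := by
    rw [← BB_conj, BB_comm]
    congr 1
    funext i
    simp
  exact Complex.conj_eq_iff_im.mp h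

lemma D4_bound (hp : 0 < p) (M : ℕ) (t : Fin p → ℝ) (τ : Fin p → ℂ) :
    -(128 * p ^ 3 * ‖τ‖ ^ 4 * Real.exp (-(qhat t / 4))) ≤
      (D4 (S0 M) t τ τ (fun i => conj (τ i)) (fun i => conj (τ i))).re := by
  have hq := qhat_nonneg hp t
  rw [D4_S0 hp, Complex.re_sum]
  have key : ∀ j ∈ Finset.range M, -(96 * p ^ 3 * ‖τ‖ ^ 4) *
      ((4 ^ j * qhat t) * Real.exp (-(4 ^ j * qhat t))) ≤
      ((1 / 16 : ℂ) ^ j *
      ((4 * ((4 ^ j : ℝ) : ℂ) ^ 2 * (BB τ τ * BB (fun i => conj (τ i)) (fun i => conj (τ i)) +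
          BB τ (fun i => conj (τ i)) * BB τ (fun i => conj (τ i)) +
          BB τ (fun i => conj (τ i)) * BB τ (fun i => conj (τ i)))
        - 8 * ((4 ^ j : ℝ) : ℂ) ^ 3 * (BB τ τ * (LL t (fun i => conj (τ i)) *
            LL t (fun i => conj (τ i))) + BB τ (fun i => conj (τ i)) *
            (LL t τ * LL t (fun i => conj (τ i))) +
          BB τ (fun i => conj (τ i)) * (LL t τ * LL t (fun i => conj (τ i))) +
          BB τ (fun i => conj (τ i)) * (LL t τ * LL t (fun i => conj (τ i))) +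
          BB τ (fun i => conj (τ i)) * (LL t τ * LL t (fun i => conj (τ i))) +
          BB (fun i => conj (τ i)) (fun i => conj (τ i)) * (LL t τ * LL t τ))
        + 16 * ((4 ^ j : ℝ) : ℂ) ^ 4 * (LL t τ * LL t τ * (LL t (fun i => conj (τ i)) *
          LL t (fun i => conj (τ i))))) * GG (4 ^ j) t)).re := by
    intro j _
    have hLu := norm_LL_le hp t τ
    have hB1 := norm_BB_le hp τ τ
    have hB2 := norm_BB_le hp τ (fun i => conj (τ i))
    rw [norm_conj_pi] at hB2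
    have him := BB_self_conj τ
    rw [LL_conj, BB_conj]
    obtain ⟨h1, h2, h3, h4⟩ := pow_facts j
    set L := LL t τ
    set B := BB τ τ
    set T := BB τ (fun i => conj (τ i))
    rw [GG_real]
    set E := Real.exp (-(4 ^ j * qhat t)) with hE
    have hE0 : 0 ≤ E := (Real.exp_pos _).le
    set ρ := √(qhat t) with hρdef
    have hρ : 0 ≤ ρ := Real.sqrt_nonneg _
    have hρ2 : ρ ^ 2 = qhat t := Real.sq_sqrt hq
    have eA : (1 / 16 : ℂ) ^ j = (((1 / 16 : ℝ) ^ j : ℝ) : ℂ) := by push_cast; rfl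
    have eT : T = ((T.re : ℝ) : ℂ) := by
      apply Complex.ext
      · simp
      · simp [him]
    set Y : ℂ := B * (conj L * conj L) + T * (L * conj L) + T * (L * conj L) +
      T * (L * conj L) + T * (L * conj L) + conj B * (L * L) with hY
    have hYn : ‖Y‖ ≤ 12 * p ^ 3 * ρ ^ 2 * ‖τ‖ ^ 4 := by
      have e1 : ‖Y‖ ≤ ‖B‖ * (‖L‖ * ‖L‖) + ‖T‖ * (‖L‖ * ‖L‖) + ‖T‖ * (‖L‖ * ‖L‖) +
          ‖T‖ * (‖L‖ * ‖L‖) + ‖T‖ * (‖L‖ * ‖L‖) + ‖B‖ * (‖L‖ * ‖L‖) := by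
        rw [hY]
        refine (norm_add_le _ _).trans (add_le_add ((norm_add_le _ _).trans (add_le_add
          ((norm_add_le _ _).trans (add_le_add ((norm_add_le _ _).trans (add_le_add
          ((norm_add_le _ _).trans (add_le_add ?_ ?_)) ?_)) ?_)) ?_)) ?_) <;>
        simp
      calc ‖Y‖ ≤ _ := e1
        _ ≤ (2 * p * (‖τ‖ * ‖τ‖)) * ((p * ρ * ‖τ‖) * (p * ρ * ‖τ‖)) +
            (2 * p * (‖τ‖ * ‖τ‖)) * ((p * ρ * ‖τ‖) * (p * ρ * ‖τ‖)) +
            (2 * p * (‖τ‖ * ‖τ‖)) * ((p * ρ * ‖τ‖) * (p * ρ * ‖τ‖)) +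
            (2 * p * (‖τ‖ * ‖τ‖)) * ((p * ρ * ‖τ‖) * (p * ρ * ‖τ‖)) +
            (2 * p * (‖τ‖ * ‖τ‖)) * ((p * ρ * ‖τ‖) * (p * ρ * ‖τ‖)) +
            (2 * p * (‖τ‖ * ‖τ‖)) * ((p * ρ * ‖τ‖) * (p * ρ * ‖τ‖)) := by gcongr
        _ = 12 * p ^ 3 * ρ ^ 2 * ‖τ‖ ^ 4 := by ring
    have e2 : (1 / 16 : ℂ) ^ j *
        ((4 * ((4 ^ j : ℝ) : ℂ) ^ 2 * (B * conj B + T * T + T * T)
        - 8 * ((4 ^ j : ℝ) : ℂ) ^ 3 * Y
        + 16 * ((4 ^ j : ℝ) : ℂ) ^ 4 * (L * L * (conj L * conj L))) * (E : ℂ)) =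
        (((1 / 16 : ℝ) ^ j * E * (4 * (4 ^ j) ^ 2 * (‖B‖ ^ 2 + 2 * T.re ^ 2) +
          16 * (4 ^ j) ^ 4 * ‖L‖ ^ 4) : ℝ) : ℂ) -
        (((1 / 16 : ℝ) ^ j * E * (8 * (4 ^ j) ^ 3) : ℝ) : ℂ) * Y := by
      have e3 : B * conj B = ((‖B‖ ^ 2 : ℝ) : ℂ) := by
        rw [Complex.mul_conj, Complex.normSq_eq_norm_sq]
      have e4 : L * L * (conj L * conj L) = ((‖L‖ ^ 4 : ℝ) : ℂ) := by
        have : L * L * (conj L * conj L) = (L * conj L) * (L * conj L) := by ring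
        rw [this, Complex.mul_conj, Complex.normSq_eq_norm_sq]
        push_cast
        ring
      have e5 : T * T = ((T.re ^ 2 : ℝ) : ℂ) := by
        conv_lhs => rw [eT]
        push_cast
        ring
      rw [e3, e4, e5, eA]
      push_cast
      ring
    rw [e2, Complex.sub_re, Complex.ofReal_re, Complex.re_ofReal_mul]
    have e6 : Y.re ≤ 12 * p ^ 3 * ρ ^ 2 * ‖τ‖ ^ 4 := (Complex.re_le_norm Y).trans hYn
    have e7 : 0 ≤ (1 / 16 : ℝ) ^ j * E * (4 * (4 ^ j) ^ 2 * (‖B‖ ^ 2 + 2 * T.re ^ 2) +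
          16 * (4 ^ j) ^ 4 * ‖L‖ ^ 4) := by positivity
    have e8 : (1 / 16 : ℝ) ^ j * E * (8 * (4 ^ j) ^ 3) * Y.re ≤
        (1 / 16 : ℝ) ^ j * E * (8 * (4 ^ j) ^ 3) * (12 * p ^ 3 * ρ ^ 2 * ‖τ‖ ^ 4) :=
      mul_le_mul_of_nonneg_left e6 (by positivity)
    have e9 : (1 / 16 : ℝ) ^ j * E * (8 * (4 ^ j) ^ 3) * (12 * p ^ 3 * ρ ^ 2 * ‖τ‖ ^ 4) =
        (96 * p ^ 3 * ‖τ‖ ^ 4) * ((4 ^ j * qhat t) * E) := by
      rw [hρ2]
      have e10 : (1 / 16 : ℝ) ^ j * (4 ^ j) ^ 3 = 4 ^ j := by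
        rw [h2]
        linear_combination (2 ^ j * 2 ^ j) * h3
      linear_combination (96 * p ^ 3 * ‖τ‖ ^ 4 * E * qhat t) * e10
    linarith
  refine le_trans ?_ (Finset.sum_le_sum key)
  rw [← Finset.mul_sum]
  have hs := sum_tele (qhat t) hq M
  have h5 : 0 ≤ 96 * (p : ℝ) ^ 3 * ‖τ‖ ^ 4 := by positivity
  nlinarith

lemma S0_bound (hp : 0 < p) (M : ℕ) (t : Fin p → ℝ) :
    |S0 M t| ≤ 2 * Real.exp (-(qhat t / 4)) := by
  have hq := qhat_nonneg hp t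
  unfold S0
  rw [abs_of_nonneg (Finset.sum_nonneg fun j _ => by positivity)]
  calc ∑ j ∈ Finset.range M, (1 / 16 : ℝ) ^ j * Real.exp (-(4 ^ j * qhat t))
      ≤ ∑ j ∈ Finset.range M, (1 / 2 : ℝ) ^ j * Real.exp (-(qhat t / 4)) := by
        refine Finset.sum_le_sum fun j _ => ?_
        have h1 : (1 / 16 : ℝ) ^ j ≤ (1 / 2) ^ j := pow_le_pow_left₀ (by norm_num) (by norm_num) j
        have h2 : (1 : ℝ) ≤ 4 ^ j := one_le_pow₀ (by norm_num)
        have h3 : Real.exp (-(4 ^ j * qhat t)) ≤ Real.exp (-(qhat t / 4)) :=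
          Real.exp_le_exp.mpr (by nlinarith)
        exact mul_le_mul h1 h3 (Real.exp_pos _).le (by positivity)
    _ = (∑ j ∈ Finset.range M, (1 / 2 : ℝ) ^ j) * Real.exp (-(qhat t / 4)) := by
        rw [Finset.sum_mul]
    _ ≤ 2 * Real.exp (-(qhat t / 4)) :=
        mul_le_mul_of_nonneg_right (sum_geometric_two_le M) (Real.exp_pos _).le

end T10aux

open T10aux in
/-- bounds uniform in `M`; the bound of `D4` is only one sided. -/
theorem S0_bounds (hp : 2 ≤ p) {k : ℕ} (hk : 2 * k + 1 ≤ p) :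
    ∃ C : ℝ, ∀ M : ℕ, ∀ (t : Fin p → ℝ) (J : Finset (Fin p)) (τ σ : Fin p → ℂ),
      ConeDir k 1 t J τ → ConeDir k 1 t J σ →
      |S0 M t| ≤ C / (1 + xav t) ^ 2 ∧
      ‖D1 (S0 M) t τ‖ ≤ C * ‖τ‖ / (1 + xav t) ^ 2 ∧
      ‖D1 (S0 M) t σ‖ ≤ C * ‖σ‖ / (1 + xav t) ^ 2 ∧
      ‖D2 (S0 M) t τ τ‖ ≤ C * ‖τ‖ ^ 2 / (1 + xav t) ^ 2 ∧
      ‖D2 (S0 M) t τ (fun i => conj (τ i))‖ ≤ C * ‖τ‖ ^ 2 / (1 + xav t) ^ 2 ∧
      ‖D2 (S0 M) t σ (fun i => conj (τ i))‖ ≤ C * (‖σ‖ * ‖τ‖) / (1 + xav t) ^ 2 ∧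
      ‖D2 (S0 M) t σ (fun i => conj (σ i))‖ ≤ C * ‖σ‖ ^ 2 / (1 + xav t) ^ 2 ∧
      ‖D3 (S0 M) t τ τ (fun i => conj (τ i))‖ ≤ C * ‖τ‖ ^ 3 / (1 + xav t) ^ 2 ∧
      ‖D3 (S0 M) t σ (fun i => conj (τ i)) (fun i => conj (τ i))‖
        ≤ C * (‖σ‖ * ‖τ‖ ^ 2) / (1 + xav t) ^ 2 ∧
      -(C * ‖τ‖ ^ 4 / (1 + xav t) ^ 2)
        ≤ (D4 (S0 M) t τ τ (fun i => conj (τ i)) (fun i => conj (τ i))).re := by
  have hp0 : 0 < p := by omega
  have hp1 : (1 : ℝ) ≤ p := by exact_mod_cast hp0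
  set K : ℝ := 2 + 36 * p + (72 * p ^ 2 + 72 * p) + (144 * p ^ 3 + 432 * p ^ 2) + 128 * p ^ 3
    with hK
  refine ⟨K * 96, fun M t J τ σ hτ hσ => ?_⟩
  have hx : 0 ≤ xav t := by
    unfold xav
    exact div_nonneg (Finset.sum_nonneg fun i _ => hτ.1 i) (by positivity)
  have hE := exp_qhat_le hk hτ
  set E := Real.exp (-(qhat t / 4))
  have hE0 : 0 ≤ E := (Real.exp_pos _).le
  -- a general step
  have step : ∀ (c n : ℝ), 0 ≤ n → 0 ≤ c → c ≤ K → c * n * E ≤ K * 96 * n / (1 + xav t) ^ 2 := by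
    intro c n hn hc hcK
    calc c * n * E ≤ K * n * (96 / (1 + xav t) ^ 2) := by gcongr
      _ = K * 96 * n / (1 + xav t) ^ 2 := by ring
  have q1 : (0 : ℝ) ≤ p := by positivity
  have q2 : (0 : ℝ) ≤ (p : ℝ) ^ 2 := by positivity
  have q3 : (0 : ℝ) ≤ (p : ℝ) ^ 3 := by positivity
  refine ⟨?_, ?_, ?_, ?_, ?_, ?_, ?_, ?_, ?_, ?_⟩
  · have h := step 2 1 (by norm_num) (by norm_num) (by rw [hK]; linarith)
    rw [mul_one, mul_one] at h
    exact (S0_bound hp0 M t).trans h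
  · exact (D1_bound hp0 M t τ).trans (step (36 * p) ‖τ‖ (norm_nonneg _) (by positivity)
      (by rw [hK]; linarith))
  · exact (D1_bound hp0 M t σ).trans (step (36 * p) ‖σ‖ (norm_nonneg _) (by positivity)
      (by rw [hK]; linarith))
  · have := (D2_bound hp0 M t τ τ).trans (step (72 * p ^ 2 + 72 * p) (‖τ‖ * ‖τ‖) (by positivity)
      (by positivity) (by rw [hK]; linarith))
    rwa [← sq] at this
  · have h := D2_bound hp0 M t τ (fun i => conj (τ i))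
    rw [norm_conj_pi] at h
    have := h.trans (step (72 * p ^ 2 + 72 * p) (‖τ‖ * ‖τ‖) (by positivity)
      (by positivity) (by rw [hK]; linarith))
    rwa [← sq] at this
  · have h := D2_bound hp0 M t σ (fun i => conj (τ i))
    rw [norm_conj_pi] at h
    exact h.trans (step (72 * p ^ 2 + 72 * p) (‖σ‖ * ‖τ‖) (by positivity)
      (by positivity) (by rw [hK]; linarith))
  · have h := D2_bound hp0 M t σ (fun i => conj (σ i))
    rw [norm_conj_pi] at h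
    have := h.trans (step (72 * p ^ 2 + 72 * p) (‖σ‖ * ‖σ‖) (by positivity)
      (by positivity) (by rw [hK]; linarith))
    rwa [← sq] at this
  · have h := D3_bound hp0 M t τ τ (fun i => conj (τ i))
    rw [norm_conj_pi] at h
    have := h.trans (step (144 * p ^ 3 + 432 * p ^ 2) (‖τ‖ * ‖τ‖ * ‖τ‖) (by positivity)
      (by positivity) (by rw [hK]; linarith))
    have e : ‖τ‖ * ‖τ‖ * ‖τ‖ = ‖τ‖ ^ 3 := by ring
    rwa [e] at this
  · have h := D3_bound hp0 M t σ (fun i => conj (τ i)) (fun i => conj (τ i))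
    rw [norm_conj_pi] at h
    have := h.trans (step (144 * p ^ 3 + 432 * p ^ 2) (‖σ‖ * ‖τ‖ * ‖τ‖) (by positivity)
      (by positivity) (by rw [hK]; linarith))
    have e : ‖σ‖ * ‖τ‖ * ‖τ‖ = ‖σ‖ * ‖τ‖ ^ 2 := by ring
    rwa [e] at this
  · have h := D4_bound hp0 M t τ
    have := step (128 * p ^ 3) (‖τ‖ ^ 4) (by positivity) (by positivity) (by rw [hK]; linarith)
    linarith


namespace T10aux

/-! ### the function `wq` -/

/-- the open set where `1 + x > 0` -/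
lemma pd_congr_on {W V : (Fin p → ℝ) → ℝ} (h : ∀ s : Fin p → ℝ, -1 < xav s → W s = V s)
    (i : Fin p) (t : Fin p → ℝ) (ht : -1 < xav t) : pd W i t = pd V i t := by
  unfold pd
  have h1 : ∀ᶠ s in 𝓝 t, -1 < xav s :=
    (contDiff_xav (p := p)).continuous.continuousAt.eventually (lt_mem_nhds ht)
  have h2 : W =ᶠ[𝓝 t] V := h1.mono fun s hs => h s hs
  rw [h2.fderiv_eq]

lemma pd_comp_xav {f f1 : ℝ → ℝ} (hf : ∀ x : ℝ, -1 < x → HasDerivAt f (f1 x) x) (i : Fin p)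
    (t : Fin p → ℝ) (ht : -1 < xav t) : pd (fun s => f (xav s)) i t = f1 (xav t) / p := by
  unfold pd
  have h := (hf (xav t) ht).comp_hasFDerivAt t (hasFDerivAt_xav t)
  have h' : HasFDerivAt (fun s => f (xav s)) (f1 (xav t) • ((1 / (p : ℝ)) •
      ∑ i : Fin p, (ContinuousLinearMap.proj i : (Fin p → ℝ) →L[ℝ] ℝ))) t := h
  rw [h'.fderiv, smul_apply, xav_single, smul_eq_mul]
  ring

/-- `wq = f ∘ x` and derivatives -/
def w0 (x : ℝ) : ℝ := x ^ 4 / (1 + x) ^ 2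
def w1 (x : ℝ) : ℝ := x ^ 3 * (4 + 2 * x) / (1 + x) ^ 3
def w2 (x : ℝ) : ℝ := 2 - 8 / (1 + x) ^ 3 + 6 / (1 + x) ^ 4
def w3 (x : ℝ) : ℝ := 24 * x / (1 + x) ^ 5
def w4 (x : ℝ) : ℝ := (24 - 96 * x) / (1 + x) ^ 6

lemma hpow (x : ℝ) (n : ℕ) : HasDerivAt (fun x : ℝ => (1 + x) ^ (n + 1)) ((n + 1) * (1 + x) ^ n) x := by
  simpa using ((hasDerivAt_id x).const_add 1).fun_pow (n + 1)

lemma hw0 (x : ℝ) (hx : -1 < x) : HasDerivAt w0 (w1 x) x := by
  have h : (1 + x) ≠ 0 := by linarith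
  have h1 : HasDerivAt (fun x : ℝ => x ^ 4) (4 * x ^ 3) x := by simpa using hasDerivAt_pow 4 x
  refine (h1.fun_div (hpow x 1) (by positivity)).congr_deriv ?_
  unfold w1
  field_simp
  push_cast
  ring

lemma hw1 (x : ℝ) (hx : -1 < x) : HasDerivAt w1 (w2 x) x := by
  have h : (1 + x) ≠ 0 := by linarith
  have h1 : HasDerivAt (fun x : ℝ => x ^ 3 * (4 + 2 * x)) (3 * x ^ 2 * (4 + 2 * x) + x ^ 3 * 2) x := by
    have a : HasDerivAt (fun x : ℝ => x ^ 3) (3 * x ^ 2) x := by simpa using hasDerivAt_pow 3 x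
    have b : HasDerivAt (fun x : ℝ => 4 + 2 * x) 2 x := by
      simpa using ((hasDerivAt_id x).const_mul 2).const_add 4
    exact a.fun_mul b
  refine (h1.fun_div (hpow x 2) (by positivity)).congr_deriv ?_
  unfold w2
  field_simp
  push_cast
  ring

lemma hw2 (x : ℝ) (hx : -1 < x) : HasDerivAt w2 (w3 x) x := by
  have h : (1 + x) ≠ 0 := by linarith
  have a := (hasDerivAt_const x (8 : ℝ)).fun_div (hpow x 2) (by positivity)
  have b := (hasDerivAt_const x (6 : ℝ)).fun_div (hpow x 3) (by positivity)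
  refine (((hasDerivAt_const x (2 : ℝ)).fun_sub a).fun_add b).congr_deriv ?_
  unfold w3
  field_simp
  push_cast
  ring

lemma hw3 (x : ℝ) (hx : -1 < x) : HasDerivAt w3 (w4 x) x := by
  have h : (1 + x) ≠ 0 := by linarith
  have h1 : HasDerivAt (fun x : ℝ => 24 * x) 24 x := by
    simpa using (hasDerivAt_id x).const_mul 24
  refine (h1.fun_div (hpow x 4) (by positivity)).congr_deriv ?_
  unfold w4
  field_simp
  push_cast
  ring

lemma pd1_wq (i : Fin p) (t : Fin p → ℝ) (ht : -1 < xav t) : pd wq i t = w1 (xav t) / p :=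
  pd_comp_xav (f := w0) hw0 i t ht

lemma pd2_wq (i j : Fin p) (t : Fin p → ℝ) (ht : -1 < xav t) :
    pd (pd wq i) j t = w2 (xav t) / p / p := by
  rw [pd_congr_on (V := fun s => (fun x => w1 x / p) (xav s)) (fun s hs => pd1_wq i s hs) j t ht]
  exact pd_comp_xav (f := fun x => w1 x / p) (f1 := fun x => w2 x / p)
    (fun x hx => (hw1 x hx).div_const _) j t ht

lemma pd3_wq (i j l : Fin p) (t : Fin p → ℝ) (ht : -1 < xav t) :
    pd (pd (pd wq i) j) l t = w3 (xav t) / p / p / p := by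
  rw [pd_congr_on (V := fun s => (fun x => w2 x / p / p) (xav s))
    (fun s hs => pd2_wq i j s hs) l t ht]
  exact pd_comp_xav (f := fun x => w2 x / p / p) (f1 := fun x => w3 x / p / p)
    (fun x hx => ((hw2 x hx).div_const _).div_const _) l t ht

lemma pd4_wq (i j l m : Fin p) (t : Fin p → ℝ) (ht : -1 < xav t) :
    pd (pd (pd (pd wq i) j) l) m t = w4 (xav t) / p / p / p / p := by
  rw [pd_congr_on (V := fun s => (fun x => w3 x / p / p / p) (xav s))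
    (fun s hs => pd3_wq i j l s hs) m t ht]
  exact pd_comp_xav (f := fun x => w3 x / p / p / p) (f1 := fun x => w4 x / p / p / p)
    (fun x hx => (((hw3 x hx).div_const _).div_const _).div_const _) m t ht

lemma norm_mean_le (hp : 0 < p) (u : Fin p → ℂ) : ‖(∑ i, u i) / (p : ℂ)‖ ≤ ‖u‖ := by
  have hp' : (0 : ℝ) < p := by exact_mod_cast hp
  rw [norm_div, Complex.norm_natCast, div_le_iff₀ hp', mul_comm]
  exact norm_sum_le_mul u

end T10aux

open T10aux in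
theorem wq_upper (hp : 2 ≤ p) : ∃ C : ℝ, ∀ (t : Fin p → ℝ), (∀ i, 0 ≤ t i) →
    |wq t| ≤ C * xav t ^ 2 ∧
    (∀ u : Fin p → ℂ, ‖D1 wq t u‖ ≤ C * xav t * ‖u‖) ∧
    (∀ u v : Fin p → ℂ, ‖D2 wq t u v‖ ≤ C * (‖u‖ * ‖v‖)) ∧
    (∀ u v w : Fin p → ℂ, ‖D3 wq t u v w‖ ≤ C * (‖u‖ * ‖v‖ * ‖w‖) / (1 + xav t)) ∧
    (∀ u v w y : Fin p → ℂ, ‖D4 wq t u v w y‖ ≤ C * (‖u‖ * ‖v‖ * ‖w‖ * ‖y‖) / (1 + xav t) ^ 2) := by
  have hp0 : 0 < p := by omega
  refine ⟨120, fun t ht => ?_⟩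
  have hx : 0 ≤ xav t := by
    unfold xav
    exact div_nonneg (Finset.sum_nonneg fun i _ => ht i) (by positivity)
  have hx1 : -1 < xav t := by linarith
  have e1 : ∀ u : Fin p → ℂ, D1 wq t u = (w1 (xav t) : ℂ) * ((∑ i, u i) / p) := by
    intro u
    unfold D1
    simp only [fun i => pd1_wq i t hx1]
    rw [← Finset.mul_sum]
    push_cast
    ring
  have e2 : ∀ u v : Fin p → ℂ, D2 wq t u v =
      (w2 (xav t) : ℂ) * ((∑ i, u i) / p) * ((∑ i, v i) / p) := by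
    intro u v
    unfold D2
    simp only [fun i j => pd2_wq i j t hx1]
    simp only [← Finset.mul_sum, ← Finset.sum_mul]
    push_cast
    ring
  have e3 : ∀ u v w : Fin p → ℂ, D3 wq t u v w =
      (w3 (xav t) : ℂ) * ((∑ i, u i) / p) * ((∑ i, v i) / p) * ((∑ i, w i) / p) := by
    intro u v w
    unfold D3
    simp only [fun i j l => pd3_wq i j l t hx1]
    simp only [← Finset.mul_sum, ← Finset.sum_mul]
    push_cast
    ring
  have e4 : ∀ u v w y : Fin p → ℂ, D4 wq t u v w y =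
      (w4 (xav t) : ℂ) * ((∑ i, u i) / p) * ((∑ i, v i) / p) * ((∑ i, w i) / p) *
        ((∑ i, y i) / p) := by
    intro u v w y
    unfold D4
    simp only [fun i j l m => pd4_wq i j l m t hx1]
    simp only [← Finset.mul_sum, ← Finset.sum_mul]
    push_cast
    ring
  have hm := norm_mean_le hp0
  have e0 : wq t = w0 (xav t) := rfl
  rw [e0]
  generalize xav t = x at *
  have h1x : 0 < 1 + x := by linarith
  have b1 : |w1 x| ≤ 120 * x := by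
    unfold w1
    rw [abs_of_nonneg (by positivity), div_le_iff₀ (by positivity)]
    nlinarith [pow_nonneg hx 2, pow_nonneg hx 3, pow_nonneg hx 4]
  have b2 : |w2 x| ≤ 120 := by
    unfold w2
    have c1 : 0 < 1 / (1 + x) ^ 3 := by positivity
    have c2 : 0 < 1 / (1 + x) ^ 4 := by positivity
    have c3 : 1 / (1 + x) ^ 3 ≤ 1 := by
      rw [div_le_one (by positivity)]
      exact one_le_pow₀ (by linarith)
    have c4 : 1 / (1 + x) ^ 4 ≤ 1 := by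
      rw [div_le_one (by positivity)]
      exact one_le_pow₀ (by linarith)
    have c5 : (8 : ℝ) / (1 + x) ^ 3 = 8 * (1 / (1 + x) ^ 3) := by ring
    have c6 : (6 : ℝ) / (1 + x) ^ 4 = 6 * (1 / (1 + x) ^ 4) := by ring
    rw [c5, c6, abs_le]
    constructor <;> linarith
  have b3 : |w3 x| ≤ 120 / (1 + x) := by
    unfold w3
    rw [abs_of_nonneg (by positivity), div_le_div_iff₀ (by positivity) (by positivity)]
    have : (1 + x) ^ 5 = (1 + x) * (1 + x) ^ 4 := by ring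
    have h1 : (1 : ℝ) ≤ (1 + x) ^ 4 := one_le_pow₀ (by linarith)
    have h2 : (1 + x) ^ 5 ≥ (1 + x) ^ 2 := pow_le_pow_right₀ (by linarith) (by norm_num)
    nlinarith
  have b4 : |w4 x| ≤ 120 / (1 + x) ^ 2 := by
    unfold w4
    rw [abs_div, abs_of_pos (by positivity : 0 < (1 + x) ^ 6),
      div_le_div_iff₀ (by positivity) (by positivity)]
    have h1 : |24 - 96 * x| ≤ 120 * (1 + x) := by
      rw [abs_le]
      constructor <;> linarith
    have h2 : (1 + x) ^ 3 ≤ (1 + x) ^ 6 := pow_le_pow_right₀ (by linarith) (by norm_num)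
    calc |24 - 96 * x| * (1 + x) ^ 2 ≤ 120 * (1 + x) * (1 + x) ^ 2 := by gcongr
      _ = 120 * (1 + x) ^ 3 := by ring
      _ ≤ 120 * (1 + x) ^ 6 := by gcongr
  refine ⟨?_, ?_, ?_, ?_, ?_⟩
  · unfold w0
    rw [abs_of_nonneg (by positivity), div_le_iff₀ (by positivity)]
    have h1 : x ^ 2 ≤ (1 + x) ^ 2 := by nlinarith
    have h2 : 0 ≤ x ^ 2 := by positivity
    nlinarith
  · intro u
    rw [e1, norm_mul, Complex.norm_real, Real.norm_eq_abs]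
    exact mul_le_mul b1 (hm u) (norm_nonneg _) (by positivity)
  · intro u v
    rw [e2, norm_mul, norm_mul, Complex.norm_real, Real.norm_eq_abs, mul_assoc]
    exact mul_le_mul b2 (mul_le_mul (hm u) (hm v) (norm_nonneg _) (norm_nonneg _))
      (by positivity) (by norm_num)
  · intro u v w
    rw [e3, norm_mul, norm_mul, norm_mul, Complex.norm_real, Real.norm_eq_abs]
    calc |w3 x| * ‖(∑ i, u i) / (p : ℂ)‖ * ‖(∑ i, v i) / (p : ℂ)‖ * ‖(∑ i, w i) / (p : ℂ)‖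
        ≤ 120 / (1 + x) * ‖u‖ * ‖v‖ * ‖w‖ := by
          have := hm u
          have := hm v
          have := hm w
          gcongr
      _ = 120 * (‖u‖ * ‖v‖ * ‖w‖) / (1 + x) := by ring
  · intro u v w y
    rw [e4, norm_mul, norm_mul, norm_mul, norm_mul, Complex.norm_real, Real.norm_eq_abs]
    calc |w4 x| * ‖(∑ i, u i) / (p : ℂ)‖ * ‖(∑ i, v i) / (p : ℂ)‖ * ‖(∑ i, w i) / (p : ℂ)‖ *
          ‖(∑ i, y i) / (p : ℂ)‖
        ≤ 120 / (1 + x) ^ 2 * ‖u‖ * ‖v‖ * ‖w‖ * ‖y‖ := by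
          have := hm u
          have := hm v
          have := hm w
          have := hm y
          gcongr
      _ = 120 * (‖u‖ * ‖v‖ * ‖w‖ * ‖y‖) / (1 + x) ^ 2 := by ring

end

end Pool.Agent.H789.HSC
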