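import Mathlib

set_option linter.unusedVariables false

open scoped BigOperators ContDiff ComplexConjugate Topology

namespace Pool.Agent.H789.HSC.T11aux

noncomputable section

/-- the error polynomial -/
def Err (α G κ x y X Y : ℝ) : ℝ :=
  (α ^ 2 * Y ^ 2 + 2 * α ^ 3 * (X ^ 2 * Y) + α ^ 4 * X ^ 4) * (G * x ^ 2 + κ / y ^ 2)
  + 4 * ((α * X) * (3 * κ * X ^ 3 / y + G * (X * Y)))
  + 4 * ((α ^ 3 * X ^ 3 + α ^ 2 * (X * Y)) * ((G * x + κ / y ^ 2) * X))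
  + 2 * ((α ^ 2 * X ^ 2 + α * Y) * (G * X ^ 2 + (G * x + κ / y ^ 2) * Y))
  + 4 * ((α ^ 2 * X ^ 2) * (G * X ^ 2))


/-- `(1+z)^2 e^{-z} ≤ 4 e^{-z/4}` -/
theorem poly_exp {z : ℝ} (hz : 0 ≤ z) : (1 + z) ^ 2 * Real.exp (-z) ≤ 4 * Real.exp (-(z / 4)) := by
  have h1 := Real.quadratic_le_exp_of_nonneg (x := 3 * z / 4) (by positivity)
  have h2 : (1 + z) ^ 2 ≤ 4 * Real.exp (3 * z / 4) := by nlinarith
  have h3 : Real.exp (3 * z / 4) * Real.exp (-z) = Real.exp (-(z / 4)) := by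
    rw [← Real.exp_add]; ring_nf
  calc (1 + z) ^ 2 * Real.exp (-z) ≤ 4 * Real.exp (3 * z / 4) * Real.exp (-z) := by gcongr
    _ = 4 * (Real.exp (3 * z / 4) * Real.exp (-z)) := by ring
    _ = _ := by rw [h3]


end

end Pool.Agent.H789.HSC.T11aux
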