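import Pool.Agent.H789.HSC.Model

/-! HSC T6 (helper292 for helper789): the model function `Wm` is smooth on `t ≥ 0`, with
exponentially decaying derivatives. -/

open scoped BigOperators ContDiff ComplexConjugate

namespace Pool.Agent.H789.HSC

noncomputable section

variable {p : ℕ}

namespace T6aux

/-- the open set on which everything is smooth -/
def U (p : ℕ) : Set (Fin p → ℝ) := {t | ∀ i, -(1 / 4 : ℝ) < t i}

theorem isOpen_U : IsOpen (U p) := by
  have : U p = ⋂ i, {t : Fin p → ℝ | -(1 / 4 : ℝ) < t i} := by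
    ext t; simp [U]
  rw [this]
  exact isOpen_iInter_of_finite fun i => isOpen_lt continuous_const (continuous_apply i)

theorem uU : UniqueDiffOn ℝ (U p) := isOpen_U.uniqueDiffOn

theorem mem_U {t : Fin p → ℝ} (ht : ∀ i, 0 ≤ t i) : t ∈ U p := by
  intro i
  have := ht i
  norm_num
  linarith

/-- bound of all derivatives of order at most `4` at the point `t` -/
def Bd (f : (Fin p → ℝ) → ℝ) (t : Fin p → ℝ) (a : ℝ) : Prop :=
  ∀ m : ℕ, m ≤ 4 → ‖iteratedFDerivWithin ℝ m f (U p) t‖ ≤ a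

theorem Bd.mono {f : (Fin p → ℝ) → ℝ} {t : Fin p → ℝ} {a b : ℝ} (h : Bd f t a) (hab : a ≤ b) :
    Bd f t b := fun m hm => (h m hm).trans hab

theorem Bd.nonneg {f : (Fin p → ℝ) → ℝ} {t : Fin p → ℝ} {a : ℝ} (h : Bd f t a) : 0 ≤ a :=
  (norm_nonneg _).trans (h 0 (by norm_num))

theorem Bd.add {f g : (Fin p → ℝ) → ℝ} {t : Fin p → ℝ} {a b : ℝ}
    (hf : ContDiffOn ℝ ∞ f (U p)) (hg : ContDiffOn ℝ ∞ g (U p)) (ht : t ∈ U p)
    (h1 : Bd f t a) (h2 : Bd g t b) : Bd (fun x => f x + g x) t (a + b) := by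
  intro m hm
  have h := iteratedFDerivWithin_add_apply (𝕜 := ℝ) (i := m)
    ((hf t ht).of_le (by exact_mod_cast le_top)) ((hg t ht).of_le (by exact_mod_cast le_top)) uU ht
  have e : (fun x => f x + g x) = f + g := rfl
  rw [e, h]
  exact (norm_add_le _ _).trans (add_le_add (h1 m hm) (h2 m hm))

theorem Bd.mul {f g : (Fin p → ℝ) → ℝ} {t : Fin p → ℝ} {a b : ℝ}
    (hf : ContDiffOn ℝ ∞ f (U p)) (hg : ContDiffOn ℝ ∞ g (U p)) (ht : t ∈ U p)
    (h1 : Bd f t a) (h2 : Bd g t b) : Bd (fun x => f x * g x) t (16 * (a * b)) := by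
  intro m hm
  have ha := h1.nonneg
  have hb := h2.nonneg
  have h := norm_iteratedFDerivWithin_mul_le hf hg uU ht (n := m) (by exact_mod_cast le_top)
  refine h.trans ?_
  calc ∑ i ∈ Finset.range (m + 1), (m.choose i : ℝ) * ‖iteratedFDerivWithin ℝ i f (U p) t‖ *
        ‖iteratedFDerivWithin ℝ (m - i) g (U p) t‖
      ≤ ∑ i ∈ Finset.range (m + 1), (m.choose i : ℝ) * (a * b) := by
        refine Finset.sum_le_sum fun i hi => ?_
        rw [Finset.mem_range] at hi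
        rw [mul_assoc]
        refine mul_le_mul_of_nonneg_left ?_ (by positivity)
        exact mul_le_mul (h1 i (by omega)) (h2 (m - i) (by omega)) (norm_nonneg _) ha
    _ = (2 : ℝ) ^ m * (a * b) := by
        rw [← Finset.sum_mul]
        congr 1
        exact_mod_cast Nat.sum_range_choose m
    _ ≤ 16 * (a * b) := by
        refine mul_le_mul_of_nonneg_right ?_ (by positivity)
        calc (2 : ℝ) ^ m ≤ 2 ^ 4 := pow_le_pow_right₀ (by norm_num) hm
          _ = 16 := by norm_num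

theorem Bd.comp {g : ℝ → ℝ} {f : (Fin p → ℝ) → ℝ} {T : Set ℝ} {t : Fin p → ℝ} {a b : ℝ}
    (hT : IsOpen T) (hg : ContDiffOn ℝ ∞ g T) (hf : ContDiffOn ℝ ∞ f (U p))
    (hm : Set.MapsTo f (U p) T) (ht : t ∈ U p)
    (h1 : ∀ m : ℕ, m ≤ 4 → |iteratedDeriv m g (f t)| ≤ a) (h2 : Bd f t b) (hb : 1 ≤ b) :
    Bd (fun x => g (f x)) t (24 * (a * b ^ 4)) := by
  intro m hm4
  have ha : 0 ≤ a := (abs_nonneg _).trans (h1 0 (by norm_num))
  have h := norm_iteratedFDerivWithin_comp_le (𝕜 := ℝ) (g := g) (f := f) (n := m) (C := a) (D := b)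
    hg hf (by exact_mod_cast le_top) hT.uniqueDiffOn uU hm ht (fun i hi => ?_) (fun i hi1 hi => ?_)
  · refine h.trans ?_
    have h3 : (m.factorial : ℝ) ≤ 24 := by
      have : m.factorial ≤ Nat.factorial 4 := Nat.factorial_le hm4
      have h4 : Nat.factorial 4 = 24 := by decide
      rw [h4] at this
      exact_mod_cast this
    have h4 : b ^ m ≤ b ^ 4 := pow_le_pow_right₀ hb hm4
    calc (m.factorial : ℝ) * a * b ^ m ≤ 24 * a * b ^ 4 := by gcongr
      _ = 24 * (a * b ^ 4) := by ring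
  · rw [iteratedFDerivWithin_of_isOpen i hT (hm ht), norm_iteratedFDeriv_eq_norm_iteratedDeriv]
    exact h1 i (hi.trans hm4)
  · refine (h2 i (hi.trans hm4)).trans ?_
    calc b = b ^ 1 := (pow_one b).symm
      _ ≤ b ^ i := pow_le_pow_right₀ hb hi1

theorem Bd.const (c : ℝ) (t : Fin p → ℝ) : Bd (fun _ : Fin p → ℝ => c) t |c| := by
  intro m _
  rcases m with _ | m
  · rw [norm_iteratedFDerivWithin_zero]; rfl
  · rw [iteratedFDerivWithin_succ_const]; simp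

theorem Bd.proj {t : Fin p → ℝ} (ht : ∀ i, 0 ≤ t i) (i : Fin p) :
    Bd (fun x : Fin p → ℝ => x i) t (1 + ∑ j, t j) := by
  intro m _
  have hS : 0 ≤ ∑ j, t j := Finset.sum_nonneg fun j _ => ht j
  have hi : t i ≤ ∑ j, t j := Finset.single_le_sum (f := t) (fun j _ => ht j) (Finset.mem_univ i)
  rcases m with _ | m
  · rw [norm_iteratedFDerivWithin_zero, Real.norm_eq_abs, abs_of_nonneg (ht i)]
    linarith
  · rw [iteratedFDerivWithin_of_isOpen _ isOpen_U (mem_U ht), ← norm_iteratedFDeriv_fderiv]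
    have e : (fun x : Fin p → ℝ => x i) = (ContinuousLinearMap.proj (R := ℝ) (φ := fun _ => ℝ) i) := rfl
    have e2 : fderiv ℝ (fun x : Fin p → ℝ => x i) =
        fun _ => (ContinuousLinearMap.proj (R := ℝ) (φ := fun _ : Fin p => ℝ) i) := by
      ext1 x
      rw [e]
      exact ContinuousLinearMap.fderiv _
    rw [e2]
    rcases m with _ | m
    · rw [norm_iteratedFDeriv_zero]
      have : ‖(ContinuousLinearMap.proj (R := ℝ) (φ := fun _ : Fin p => ℝ) i)‖ ≤ 1 := by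
        refine ContinuousLinearMap.opNorm_le_bound _ zero_le_one fun x => ?_
        rw [one_mul]
        exact norm_le_pi_norm x i
      linarith
    · rw [iteratedFDeriv_const_of_ne (by omega)]
      simp
      linarith

/-- polynomially bounded functions -/
def PB (f : (Fin p → ℝ) → ℝ) : Prop :=
  ContDiffOn ℝ ∞ f (U p) ∧ ∃ C : ℝ, 1 ≤ C ∧ ∃ D : ℕ, ∀ t : Fin p → ℝ, (∀ i, 0 ≤ t i) →
    Bd f t (C * (1 + ∑ i, t i) ^ D)

theorem one_le_S {t : Fin p → ℝ} (ht : ∀ i, 0 ≤ t i) : 1 ≤ 1 + ∑ i, t i := by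
  have hS : 0 ≤ ∑ j, t j := Finset.sum_nonneg fun j _ => ht j
  linarith

theorem PB.const (c : ℝ) : PB (fun _ : Fin p → ℝ => c) := by
  refine ⟨contDiffOn_const, |c| + 1, by linarith [abs_nonneg c], 0, fun t ht => ?_⟩
  exact (Bd.const c t).mono (by simp)

theorem PB.proj (i : Fin p) : PB (fun t : Fin p → ℝ => t i) := by
  refine ⟨(contDiff_apply ℝ ℝ i).contDiffOn, 1, le_rfl, 1, fun t ht => ?_⟩
  exact (Bd.proj ht i).mono (by simp)

theorem PB.add {f g : (Fin p → ℝ) → ℝ} (hf : PB f) (hg : PB g) : PB (fun x => f x + g x) := by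
  obtain ⟨f1, C, hC, D, hD⟩ := hf
  obtain ⟨g1, C', hC', D', hD'⟩ := hg
  refine ⟨f1.add g1, C + C', by linarith, D + D', fun t ht => ?_⟩
  refine ((hD t ht).add f1 g1 (mem_U ht) (hD' t ht)).mono ?_
  have h1 := one_le_S ht
  have h2 : (1 + ∑ i, t i) ^ D ≤ (1 + ∑ i, t i) ^ (D + D') := pow_le_pow_right₀ h1 (by omega)
  have h3 : (1 + ∑ i, t i) ^ D' ≤ (1 + ∑ i, t i) ^ (D + D') := pow_le_pow_right₀ h1 (by omega)
  nlinarith

theorem PB.mul {f g : (Fin p → ℝ) → ℝ} (hf : PB f) (hg : PB g) : PB (fun x => f x * g x) := by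
  obtain ⟨f1, C, hC, D, hD⟩ := hf
  obtain ⟨g1, C', hC', D', hD'⟩ := hg
  refine ⟨f1.mul g1, 16 * (C * C'), by nlinarith, D + D', fun t ht => ?_⟩
  refine ((hD t ht).mul f1 g1 (mem_U ht) (hD' t ht)).mono (le_of_eq ?_)
  rw [pow_add]; ring

theorem PB.cmul {f : (Fin p → ℝ) → ℝ} (c : ℝ) (hf : PB f) : PB (fun x => c * f x) :=
  (PB.const c).mul hf

theorem PB.pow {f : (Fin p → ℝ) → ℝ} (hf : PB f) (n : ℕ) : PB (fun x => f x ^ n) := by
  induction n with
  | zero => simpa using PB.const (p := p) 1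
  | succ n ih => simpa [pow_succ] using ih.mul hf

theorem PB.sub {f g : (Fin p → ℝ) → ℝ} (hf : PB f) (hg : PB g) : PB (fun x => f x - g x) := by
  have := hf.add (hg.cmul (-1))
  simpa [sub_eq_add_neg] using this

theorem PB.sum {ι : Type*} (s : Finset ι) {f : ι → (Fin p → ℝ) → ℝ} (hf : ∀ i ∈ s, PB (f i)) :
    PB (fun x => ∑ i ∈ s, f i x) := by
  classical
  induction s using Finset.induction with
  | empty => simpa using PB.const (p := p) 0
  | insert a s ha ih =>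
    simp only [Finset.sum_insert ha]
    exact (hf a (Finset.mem_insert_self a s)).add
      (ih fun i hi => hf i (Finset.mem_insert_of_mem hi))

theorem PB.comp {g : ℝ → ℝ} {f : (Fin p → ℝ) → ℝ} {T : Set ℝ} (hT : IsOpen T)
    (hg : ContDiffOn ℝ ∞ g T) (hf : PB f) (hm : Set.MapsTo f (U p) T) {a : ℝ}
    (h1 : ∀ t : Fin p → ℝ, (∀ i, 0 ≤ t i) → ∀ m : ℕ, m ≤ 4 → |iteratedDeriv m g (f t)| ≤ a) :
    PB (fun x => g (f x)) := by
  obtain ⟨f1, C, hC, D, hD⟩ := hf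
  have ha : 0 ≤ a := by
    refine (abs_nonneg _).trans (h1 (fun _ => 0) (fun _ => le_rfl) 0 (by norm_num))
  have hC4 : 0 ≤ a * C ^ 4 := mul_nonneg ha (pow_nonneg (by linarith) 4)
  refine ⟨hg.comp f1 hm, 24 * (a * C ^ 4) + 1, by linarith, D * 4, fun t ht => ?_⟩
  have hS := one_le_S ht
  have hb : 1 ≤ C * (1 + ∑ i, t i) ^ D := by
    have := one_le_pow₀ hS (n := D)
    nlinarith
  refine (Bd.comp hT hg f1 hm (mem_U ht) (h1 t ht) (hD t ht) hb).mono ?_
  have h4 : 0 ≤ (1 + ∑ i, t i) ^ (D * 4) := by positivity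
  calc 24 * (a * (C * (1 + ∑ i, t i) ^ D) ^ 4) = 24 * (a * C ^ 4) * (1 + ∑ i, t i) ^ (D * 4) := by
        rw [mul_pow, pow_mul]; ring
    _ ≤ (24 * (a * C ^ 4) + 1) * (1 + ∑ i, t i) ^ (D * 4) := by nlinarith

/-- exponentially decaying functions -/
def EB (c : ℝ) (f : (Fin p → ℝ) → ℝ) : Prop :=
  ContDiffOn ℝ ∞ f (U p) ∧ ∃ C : ℝ, 0 ≤ C ∧ ∀ t : Fin p → ℝ, (∀ i, 0 ≤ t i) →
    Bd f t (C * Real.exp (-(c * ∑ i, t i)))

theorem EB.add {c : ℝ} {f g : (Fin p → ℝ) → ℝ} (hf : EB c f) (hg : EB c g) :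
    EB c (fun x => f x + g x) := by
  obtain ⟨f1, C, hC, hD⟩ := hf
  obtain ⟨g1, C', hC', hD'⟩ := hg
  refine ⟨f1.add g1, C + C', by linarith, fun t ht => ?_⟩
  refine ((hD t ht).add f1 g1 (mem_U ht) (hD' t ht)).mono (le_of_eq (by ring))

theorem EB.mul {c c' : ℝ} {f g : (Fin p → ℝ) → ℝ} (hf : EB c f) (hg : EB c' g) :
    EB (c + c') (fun x => f x * g x) := by
  obtain ⟨f1, C, hC, hD⟩ := hf
  obtain ⟨g1, C', hC', hD'⟩ := hg
  refine ⟨f1.mul g1, 16 * (C * C'), by positivity, fun t ht => ?_⟩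
  refine ((hD t ht).mul f1 g1 (mem_U ht) (hD' t ht)).mono (le_of_eq ?_)
  rw [add_mul, neg_add, Real.exp_add]; ring

theorem EB.mono {c c' : ℝ} {f : (Fin p → ℝ) → ℝ} (hf : EB c f) (h : c' ≤ c) : EB c' f := by
  obtain ⟨f1, C, hC, hD⟩ := hf
  refine ⟨f1, C, hC, fun t ht => (hD t ht).mono ?_⟩
  have hS : 0 ≤ ∑ j, t j := Finset.sum_nonneg fun j _ => ht j
  gcongr

/-- a polynomially bounded function is in all classes `EB c`, `c < 0` -/
theorem PB.eb {f : (Fin p → ℝ) → ℝ} (hf : PB f) {c : ℝ} (hc : 0 < c) : EB (-c) f := by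
  obtain ⟨f1, C, hC, D, hD⟩ := hf
  refine ⟨f1, C * (((D.factorial : ℝ) / c ^ D) * Real.exp c), by positivity,
    fun t ht => (hD t ht).mono ?_⟩
  have hS : 0 ≤ ∑ j, t j := Finset.sum_nonneg fun j _ => ht j
  set S := ∑ j, t j with hSdef
  have h1 : (c * (1 + S)) ^ D / (D.factorial : ℝ) ≤ Real.exp (c * (1 + S)) :=
    Real.pow_div_factorial_le_exp _ (by positivity) D
  have hf : (0 : ℝ) < D.factorial := by positivity
  have hcD : 0 < c ^ D := by positivity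
  have h2 : (1 + S) ^ D ≤ (D.factorial : ℝ) / c ^ D * Real.exp (c * (1 + S)) := by
    rw [div_le_iff₀ hf, mul_pow] at h1
    rw [div_mul_eq_mul_div, le_div_iff₀ hcD]
    linarith
  have h3 : Real.exp (c * (1 + S)) = Real.exp c * Real.exp (-(-c * S)) := by
    rw [← Real.exp_add]; congr 1; ring
  rw [h3] at h2
  calc C * (1 + S) ^ D ≤ C * ((D.factorial : ℝ) / c ^ D * (Real.exp c * Real.exp (-(-c * S)))) := by
        gcongr
    _ = _ := by ring

/-- `exp (-(c S))` -/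
theorem EB.exp {c : ℝ} (f : (Fin p → ℝ) → ℝ) (hf : PB f)
    (he : ∀ t, f t = -(c * ∑ i, t i)) (hb : ∃ b : ℝ, ∀ t : Fin p → ℝ, (∀ i, 0 ≤ t i) →
      ∀ m : ℕ, 1 ≤ m → m ≤ 4 → ‖iteratedFDerivWithin ℝ m f (U p) t‖ ≤ b) :
    EB c (fun x => Real.exp (f x)) := by
  obtain ⟨b, hb⟩ := hb
  refine ⟨Real.contDiff_exp.comp_contDiffOn hf.1, 24 * (max b 1) ^ 4, by positivity, fun t ht => ?_⟩
  intro m hm4
  have hD1 : 1 ≤ max b 1 := le_max_right _ _
  have h := norm_iteratedFDerivWithin_comp_le (𝕜 := ℝ) (g := Real.exp) (f := f) (n := m)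
    (s := U p) (t := Set.univ) (x := t) (N := (∞ : ℕ∞ω))
    (C := Real.exp (f t)) (D := max b 1)
    Real.contDiff_exp.contDiffOn hf.1 (by exact_mod_cast le_top) uniqueDiffOn_univ uU
    (Set.mapsTo_univ _ _) (mem_U ht) (fun i hi => ?_) (fun i hi1 hi => ?_)
  · have e : (fun x => Real.exp (f x)) = Real.exp ∘ f := rfl
    rw [e]
    refine h.trans ?_
    have h3 : (m.factorial : ℝ) ≤ 24 := by
      have : m.factorial ≤ Nat.factorial 4 := Nat.factorial_le hm4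
      have h4 : Nat.factorial 4 = 24 := by decide
      rw [h4] at this
      exact_mod_cast this
    have h4 : (max b 1) ^ m ≤ (max b 1) ^ 4 := pow_le_pow_right₀ hD1 hm4
    rw [he t]
    calc (m.factorial : ℝ) * Real.exp (-(c * ∑ i, t i)) * (max b 1) ^ m
        ≤ 24 * Real.exp (-(c * ∑ i, t i)) * (max b 1) ^ 4 := by gcongr
      _ = 24 * (max b 1) ^ 4 * Real.exp (-(c * ∑ i, t i)) := by ring
  · rw [iteratedFDerivWithin_univ, norm_iteratedFDeriv_eq_norm_iteratedDeriv,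
      iteratedDeriv_eq_iterate, Real.iter_deriv_exp, Real.norm_eq_abs, abs_of_pos (Real.exp_pos _)]
  · refine (hb t ht i hi1 (hi.trans hm4)).trans ?_
    calc b ≤ (max b 1) ^ 1 := by rw [pow_one]; exact le_max_left _ _
      _ ≤ (max b 1) ^ i := pow_le_pow_right₀ hD1 hi1

/-- `exp (-(c S))` -/
theorem EB.exp' (c : ℝ) : EB c (fun x : Fin p → ℝ => Real.exp (-(c * ∑ i, x i))) := by
  have hPB : PB (fun x : Fin p → ℝ => -(c * ∑ i, x i)) := by
    have h1 : PB (fun x : Fin p → ℝ => ∑ i, x i) := PB.sum _ fun i _ => PB.proj i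
    have := h1.cmul (-c)
    simpa using this
  refine EB.exp _ hPB (fun _ => rfl) ?_
  let Lm : (Fin p → ℝ) →L[ℝ] ℝ :=
    (-c) • ∑ i, (ContinuousLinearMap.proj (R := ℝ) (φ := fun _ : Fin p => ℝ) i)
  have e : (fun x : Fin p → ℝ => -(c * ∑ i, x i)) = Lm := by
    ext x
    simp [Lm]
  refine ⟨‖Lm‖, fun t ht m hm1 _ => ?_⟩
  rw [iteratedFDerivWithin_of_isOpen _ isOpen_U (mem_U ht), e]
  obtain ⟨n, rfl⟩ : ∃ n, m = n + 1 := ⟨m - 1, by omega⟩
  rw [← norm_iteratedFDeriv_fderiv]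
  have e2 : fderiv ℝ (Lm : (Fin p → ℝ) → ℝ) = fun _ => Lm := by
    ext1 x
    exact ContinuousLinearMap.fderiv _
  rw [e2]
  rcases n with _ | n
  · rw [norm_iteratedFDeriv_zero]
  · rw [iteratedFDeriv_const_of_ne (by omega)]
    simp

/-! ### the pieces of `Wm` -/

theorem pb_sum : PB (fun t : Fin p → ℝ => ∑ i, t i) := PB.sum _ fun i _ => PB.proj i

theorem pb_xav : PB (fun t : Fin p → ℝ => xav t) := by
  have := (pb_sum (p := p)).cmul ((p : ℝ)⁻¹)
  simpa [xav, div_eq_inv_mul] using this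

theorem xav_gt {t : Fin p → ℝ} (ht : t ∈ U p) : -(1 / 4 : ℝ) ≤ xav t := by
  unfold xav
  rcases Nat.eq_zero_or_pos p with hp | hp
  · subst hp; simp
  · have hp' : (0 : ℝ) < p := by exact_mod_cast hp
    rw [le_div_iff₀ hp']
    have h : ∑ _i : Fin p, -(1 / 4 : ℝ) ≤ ∑ i, t i := Finset.sum_le_sum fun i _ => (ht i).le
    simpa [mul_comm] using h

theorem xav_nonneg {t : Fin p → ℝ} (ht : ∀ i, 0 ≤ t i) : 0 ≤ xav t :=
  div_nonneg (Finset.sum_nonneg fun i _ => ht i) (Nat.cast_nonneg _)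

/-- the reciprocal of a polynomially bounded function which is positive on `U` and at least `1`
for `t ≥ 0` -/
theorem PB.inv {f : (Fin p → ℝ) → ℝ} (hf : PB f) (h0 : ∀ t ∈ U p, 0 < f t)
    (h1 : ∀ t : Fin p → ℝ, (∀ i, 0 ≤ t i) → 1 ≤ f t) : PB (fun t => (f t)⁻¹) := by
  refine PB.comp (g := fun x : ℝ => x⁻¹) (T := Set.Ioi 0) isOpen_Ioi
    (fun x hx => (contDiffAt_inv ℝ (ne_of_gt hx)).contDiffWithinAt) hf (fun t ht => h0 t ht)
    (a := 24) ?_
  intro t ht m hm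
  have h := iter_deriv_inv (𝕜 := ℝ) m (f t)
  rw [iteratedDeriv_eq_iterate]
  have e : (fun x : ℝ => x⁻¹) = Inv.inv := rfl
  rw [e, h, abs_mul, abs_mul, abs_pow, abs_neg, abs_one, one_pow, one_mul, Nat.abs_cast]
  have hx := h1 t ht
  have h3 : (m.factorial : ℝ) ≤ 24 := by
    have : m.factorial ≤ Nat.factorial 4 := Nat.factorial_le hm
    have h4 : Nat.factorial 4 = 24 := by decide
    rw [h4] at this
    exact_mod_cast this
  have h5 : |(f t) ^ (-1 - (m : ℤ))| ≤ 1 := by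
    rw [abs_of_nonneg (zpow_nonneg (by linarith) _)]
    have : (-1 - (m : ℤ)) = -((m + 1 : ℕ) : ℤ) := by push_cast; ring
    rw [this, zpow_neg, zpow_natCast]
    exact inv_le_one_of_one_le₀ (one_le_pow₀ hx)
  calc (m.factorial : ℝ) * |(f t) ^ (-1 - (m : ℤ))| ≤ 24 * 1 := by gcongr
    _ = 24 := by norm_num

theorem pb_blk {ρ : ℝ} (hρ : 1 ≤ ρ) : PB (fun t : Fin p → ℝ => blk ρ t) := by
  have h1 : ∀ i : Fin p, PB (fun t : Fin p → ℝ => (t i - 2 * xav t) ^ 2 / (ρ + t i + xav t)) := by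
    intro i
    have h2 : PB (fun t : Fin p → ℝ => (t i - 2 * xav t) ^ 2) :=
      ((PB.proj i).sub (pb_xav.cmul 2)).pow 2
    have h3 : PB (fun t : Fin p → ℝ => (ρ + t i + xav t)⁻¹) := by
      refine PB.inv (((PB.const ρ).add (PB.proj i)).add pb_xav) (fun t ht => ?_) (fun t ht => ?_)
      · have := ht i
        have := xav_gt ht
        linarith
      · have := ht i
        have := xav_nonneg ht
        linarith
    simpa [div_eq_mul_inv] using h2.mul h3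
  have h4 : PB (fun t : Fin p → ℝ => 2 * p * xav t ^ 2 / (ρ + xav t)) := by
    have h3 : PB (fun t : Fin p → ℝ => (ρ + xav t)⁻¹) := by
      refine PB.inv ((PB.const ρ).add pb_xav) (fun t ht => ?_) (fun t ht => ?_)
      · have := xav_gt ht
        linarith
      · have := xav_nonneg ht
        linarith
    simpa [div_eq_mul_inv] using ((pb_xav.pow 2).cmul (2 * p)).mul h3
  exact ((PB.sum Finset.univ fun i _ => h1 i).sub h4).cmul ρ

theorem pb_E0 (N : ℕ) : PB (fun t : Fin p → ℝ => E0 N t) :=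
  (PB.sum (Finset.range N) fun m _ => pb_blk (one_le_pow₀ (by norm_num : (1 : ℝ) ≤ 2))).cmul _

theorem pb_wq : PB (fun t : Fin p → ℝ => wq t) := by
  have h3 : PB (fun t : Fin p → ℝ => ((1 + xav t) ^ 2)⁻¹) := by
    refine PB.inv (((PB.const 1).add pb_xav).pow 2) (fun t ht => ?_) (fun t ht => ?_)
    · have := xav_gt ht
      have : 0 < 1 + xav t := by linarith
      positivity
    · have := xav_nonneg ht
      exact one_le_pow₀ (by linarith)
  simpa [wq, div_eq_mul_inv] using (pb_xav.pow 4).mul h3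

theorem qhat_nonneg (t : Fin p → ℝ) : 0 ≤ qhat t := by
  unfold qhat xav
  rcases Nat.eq_zero_or_pos p with hp | hp
  · subst hp; simp
  · have hp' : (0 : ℝ) < p := by exact_mod_cast hp
    have h := Finset.sum_mul_sq_le_sq_mul_sq Finset.univ t (fun _ => (1 : ℝ))
    simp only [mul_one, one_pow, Finset.sum_const, Finset.card_univ, Fintype.card_fin,
      nsmul_eq_mul] at h
    have e : (p : ℝ) * ((∑ i, t i) / p) ^ 2 = (∑ i, t i) ^ 2 / p := by
      field_simp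
    rw [e, sub_nonneg, div_le_iff₀ hp']
    exact h

theorem pb_qhat : PB (fun t : Fin p → ℝ => qhat t) :=
  (PB.sum Finset.univ fun i _ => (PB.proj i).pow 2).sub ((pb_xav.pow 2).cmul _)

theorem pb_expq (c : ℝ) (hc : 0 ≤ c) : PB (fun t : Fin p → ℝ => Real.exp (-(c * qhat t))) := by
  have h : PB (fun t : Fin p → ℝ => (fun x : ℝ => Real.exp ((-c) * x)) (qhat t)) := by
    refine PB.comp (g := fun x : ℝ => Real.exp ((-c) * x)) (T := Set.univ) (a := (max c 1) ^ 4)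
      isOpen_univ ?_ pb_qhat
      (Set.mapsTo_univ _ _) ?_
    · exact (Real.contDiff_exp.comp (contDiff_const.mul contDiff_id)).contDiffOn
    · intro t _ m hm
      rw [iteratedDeriv_exp_const_mul]
      rw [abs_mul, abs_pow, abs_neg, abs_of_nonneg hc, abs_of_pos (Real.exp_pos _)]
      have h1 : Real.exp ((-c) * qhat t) ≤ 1 := by
        rw [Real.exp_le_one_iff]
        have := mul_nonneg hc (qhat_nonneg t)
        linarith
      calc c ^ m * Real.exp (-c * qhat t) ≤ (max c 1) ^ m * 1 := by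
            gcongr
            exact le_max_left _ _
        _ ≤ (max c 1) ^ 4 := by
            rw [mul_one]
            exact pow_le_pow_right₀ (le_max_right _ _) hm
  simpa using h

theorem pb_S0 (M : ℕ) : PB (fun t : Fin p → ℝ => S0 M t) :=
  PB.sum (Finset.range M) fun j _ => (pb_expq (4 ^ j) (by positivity)).cmul _

theorem eb_mcut (hp : 1 ≤ p) {R : ℝ} (hR : 0 < R) :
    EB (8 / R) (fun t : Fin p → ℝ => mcut p R (xav t)) := by
  have hp' : (0 : ℝ) < p := by exact_mod_cast hp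
  have hE : EB (8 / R) (fun t : Fin p → ℝ => Real.exp (-(8 / R * ∑ i, t i))) := EB.exp' _
  have e : (fun t : Fin p → ℝ => mcut p R (xav t)) = fun t =>
      (((4 * Real.exp (-(8 / R * ∑ i, t i)) + (-6) * (Real.exp (-(8 / R * ∑ i, t i)) *
        Real.exp (-(8 / R * ∑ i, t i)))) + 4 * (Real.exp (-(8 / R * ∑ i, t i)) *
        Real.exp (-(8 / R * ∑ i, t i)) * Real.exp (-(8 / R * ∑ i, t i)))) +
        (-1) * (Real.exp (-(8 / R * ∑ i, t i)) *
        Real.exp (-(8 / R * ∑ i, t i)) * Real.exp (-(8 / R * ∑ i, t i)) *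
        Real.exp (-(8 / R * ∑ i, t i)))) := by
    ext t
    unfold mcut
    have : 8 * (p : ℝ) * xav t / R = 8 / R * ∑ i, t i := by
      unfold xav; field_simp
    rw [this]
    ring
  rw [e]
  have h8 : 0 < 8 / R := by positivity
  have hc : ∀ (k c : ℝ) (f : (Fin p → ℝ) → ℝ), EB c f → EB c (fun t => k * f t) := by
    intro k c f hf
    obtain ⟨f1, C, hC, hD⟩ := hf
    refine ⟨contDiffOn_const.mul f1, 16 * (|k| * C), by positivity, fun t ht => ?_⟩
    refine ((Bd.const k t).mul contDiffOn_const f1 (mem_U ht) (hD t ht)).mono (le_of_eq (by ring))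
  have h2 : EB (8 / R) _ := (hE.mul hE).mono (by linarith)
  have h3 : EB (8 / R) _ := (h2.mul hE).mono (by linarith)
  have h4 : EB (8 / R) _ := (h3.mul hE).mono (by linarith)
  exact (((hc 4 _ _ hE).add (hc (-6) _ _ h2)).add (hc 4 _ _ h3)).add (hc (-1) _ _ h4)

theorem eb_expx (hp : 1 ≤ p) : EB (1 / p : ℝ) (fun t : Fin p → ℝ => Real.exp (-xav t)) := by
  have h := EB.exp' (p := p) (1 / p : ℝ)
  have e : (fun t : Fin p → ℝ => Real.exp (-xav t)) =
      fun t => Real.exp (-((1 / p : ℝ) * ∑ i, t i)) := by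
    ext t; unfold xav; congr 2; ring
  rw [e]; exact h

theorem EB.mul_pb {c c' : ℝ} {f g : (Fin p → ℝ) → ℝ} (hf : EB c f) (hg : PB g) (h : c' < c) :
    EB c' (fun x => f x * g x) := by
  have := hf.mul (hg.eb (sub_pos.2 h))
  exact this.mono (by linarith)

theorem eb_Wm (hp : 1 ≤ p) {N : ℕ} (hN : 4 * p < 2 ^ N) (M : ℕ) (ε₁ δ : ℝ) :
    EB (2 / 2 ^ N : ℝ) (fun t : Fin p → ℝ => Wm N M ε₁ δ t) := by
  have hp' : (0 : ℝ) < p := by exact_mod_cast hp
  have hN' : 4 * (p : ℝ) < 2 ^ N := by exact_mod_cast hN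
  have hR : (0 : ℝ) < 2 ^ N := by positivity
  have h1 : EB (2 / 2 ^ N : ℝ)
      (fun t : Fin p → ℝ => Real.exp (-xav t) * ((∑ i, t i ^ 3) / (8 * 2 ^ N))) := by
    refine EB.mul_pb (eb_expx hp) ?_ ?_
    · have := (PB.sum Finset.univ fun (i : Fin p) _ => (PB.proj i).pow 3).cmul ((8 * 2 ^ N : ℝ)⁻¹)
      simpa [div_eq_inv_mul] using this
    · rw [div_lt_div_iff₀ hR hp']
      linarith
  have h2 : EB (2 / 2 ^ N : ℝ) (fun t : Fin p → ℝ =>
      mcut p (2 ^ N) (xav t) * (E0 N t + ε₁ / N * wq t + δ / N * S0 M t)) := by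
    refine EB.mul_pb (eb_mcut hp hR) (((pb_E0 N).add (pb_wq.cmul _)).add ((pb_S0 M).cmul _)) ?_
    gcongr
    norm_num
  have h3 := h1.add h2
  simpa [Wm, mul_div_assoc] using h3

end T6aux

theorem Wm_smooth (hp : 1 ≤ p) (N M : ℕ) (ε₁ δ : ℝ) (t : Fin p → ℝ) (ht : ∀ i, 0 ≤ t i) :
    ContDiffAt ℝ ∞ (Wm N M ε₁ δ) t := by
  have h1 : ContDiffOn ℝ ∞ (fun t : Fin p → ℝ => Real.exp (-xav t) * (∑ i, t i ^ 3) /
      (8 * 2 ^ N)) (T6aux.U p) := by
    have ha : ContDiffOn ℝ ∞ (fun t : Fin p → ℝ => Real.exp (-xav t)) (T6aux.U p) :=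
      Real.contDiff_exp.comp_contDiffOn T6aux.pb_xav.1.neg
    have hb : ContDiffOn ℝ ∞ (fun t : Fin p → ℝ => ∑ i, t i ^ 3) (T6aux.U p) :=
      (T6aux.PB.sum Finset.univ fun (i : Fin p) _ => (T6aux.PB.proj i).pow 3).1
    exact (ha.mul hb).div_const _
  have h2 : ContDiffOn ℝ ∞ (fun t : Fin p → ℝ => mcut p (2 ^ N) (xav t)) (T6aux.U p) := by
    have hx : ContDiffOn ℝ ∞ (fun t : Fin p → ℝ => xav t) (T6aux.U p) := T6aux.pb_xav.1
    have hc : ContDiff ℝ ∞ (fun x : ℝ => mcut p (2 ^ N) x) := by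
      unfold mcut
      exact contDiff_const.sub ((contDiff_const.sub (Real.contDiff_exp.comp
        (((contDiff_const.mul contDiff_id).div_const _).neg))).pow 4)
    exact hc.comp_contDiffOn hx
  have h3 : ContDiffOn ℝ ∞ (fun t : Fin p → ℝ => E0 N t + ε₁ / N * wq t + δ / N * S0 M t)
      (T6aux.U p) :=
    (((T6aux.pb_E0 N).add (T6aux.pb_wq.cmul _)).add ((T6aux.pb_S0 M).cmul _)).1
  have h4 : ContDiffOn ℝ ∞ (Wm N M ε₁ δ) (T6aux.U p) := h1.add (h2.mul h3)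
  exact h4.contDiffAt (T6aux.isOpen_U.mem_nhds (T6aux.mem_U ht))

theorem Wm_bound (hp : 2 ≤ p) {N : ℕ} (hN : 4 * p < 2 ^ N) (M : ℕ) (ε₁ δ : ℝ) :
    ∃ C : ℝ, ∀ t : Fin p → ℝ, (∀ i, 0 ≤ t i) → ∀ m : ℕ, m ≤ 4 →
      ‖iteratedFDeriv ℝ m (Wm N M ε₁ δ) t‖ ≤ C * Real.exp (-(2 * (∑ i, t i) / 2 ^ N)) := by
  obtain ⟨_, C, _, hC⟩ := T6aux.eb_Wm (by omega : 1 ≤ p) hN M ε₁ δ
  refine ⟨C, fun t ht m hm => ?_⟩
  have h := hC t ht m hm
  rw [iteratedFDerivWithin_of_isOpen _ T6aux.isOpen_U (T6aux.mem_U ht)] at h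
  have e : 2 * (∑ i, t i) / (2 : ℝ) ^ N = 2 / 2 ^ N * ∑ i, t i := by ring
  rw [e]
  exact h

end

end Pool.Agent.H789.HSC
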