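import Pool.Agent.H789.HSC.ConeDefs

/-! HSC task T9 (helper549): the block functions; D2, D3, D4 of `E0` in cone directions.
Theorems: `E0_upper`, `E0_D2_lower`, `E0_D3`, `E0_D4`. -/

set_option linter.unusedSectionVars false
set_option linter.deprecated false
set_option linter.unusedVariables false

open scoped BigOperators ContDiff ComplexConjugate Topology

/-! ### part T9a -/

namespace Pool.Agent.H789.HSC

noncomputable section

namespace T9aux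

section calculus
variable {ι : Type*} [Fintype ι] [DecidableEq ι]

/-- differentiable at `t` with partial derivatives `g'` -/
structure HP (g : (ι → ℝ) → ℝ) (g' : ι → ℝ) (t : ι → ℝ) : Prop where
  diff : DifferentiableAt ℝ g t
  val : ∀ i, pd g i t = g' i

theorem HP.congr_val {g : (ι → ℝ) → ℝ} {g' h' : ι → ℝ} {t : ι → ℝ} (h : HP g g' t)
    (e : ∀ i, g' i = h' i) : HP g h' t := ⟨h.diff, fun i => (h.val i).trans (e i)⟩

theorem pd_congr {g h : (ι → ℝ) → ℝ} {t : ι → ℝ} (e : g =ᶠ[𝓝 t] h) (i : ι) :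
    pd g i t = pd h i t := by
  unfold pd
  rw [e.fderiv_eq]

theorem HP.const (c : ℝ) (t : ι → ℝ) : HP (fun _ => c) (fun _ => 0) t :=
  ⟨differentiableAt_const c, fun i => by unfold pd; simp⟩

theorem HP.add {g h : (ι → ℝ) → ℝ} {g' h' : ι → ℝ} {t : ι → ℝ} (hg : HP g g' t) (hh : HP h h' t) :
    HP (fun s => g s + h s) (fun i => g' i + h' i) t := by
  refine ⟨hg.diff.add hh.diff, fun i => ?_⟩
  unfold pd
  rw [fderiv_fun_add hg.diff hh.diff]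
  exact congrArg₂ (· + ·) (hg.val i) (hh.val i)

theorem HP.mul {g h : (ι → ℝ) → ℝ} {g' h' : ι → ℝ} {t : ι → ℝ} (hg : HP g g' t) (hh : HP h h' t) :
    HP (fun s => g s * h s) (fun i => g t * h' i + h t * g' i) t := by
  refine ⟨hg.diff.mul hh.diff, fun i => ?_⟩
  unfold pd
  rw [fderiv_fun_mul hg.diff hh.diff]
  simp only [ContinuousLinearMap.add_apply, ContinuousLinearMap.smul_apply, smul_eq_mul]
  have e1 := hg.val i
  have e2 := hh.val i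
  unfold pd at e1 e2
  rw [e1, e2]

theorem HP.const_mul {g : (ι → ℝ) → ℝ} {g' : ι → ℝ} {t : ι → ℝ} (c : ℝ) (hg : HP g g' t) :
    HP (fun s => c * g s) (fun i => c * g' i) t :=
  ((HP.const c t).mul hg).congr_val fun i => by ring

theorem HP.sum {σ : Type*} {A : Finset σ} {g : σ → (ι → ℝ) → ℝ} {g' : σ → ι → ℝ} {t : ι → ℝ}
    (h : ∀ s ∈ A, HP (g s) (g' s) t) :
    HP (fun x => ∑ s ∈ A, g s x) (fun i => ∑ s ∈ A, g' s i) t := by
  classical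
  induction A using Finset.induction_on with
  | empty => simpa using HP.const 0 t
  | insert a A ha ih =>
    have h1 := ih fun s hs => h s (Finset.mem_insert_of_mem hs)
    have h2 := (h a (Finset.mem_insert_self a A)).add h1
    simpa only [Finset.sum_insert ha] using h2

/-- a linear form -/
def lin (a : ι → ℝ) (t : ι → ℝ) : ℝ := ∑ i, a i * t i

theorem HP.lin (a : ι → ℝ) (t : ι → ℝ) : HP (T9aux.lin a) a t := by
  have h1 : ∀ j : ι, HP (fun s : ι → ℝ => s j) (fun i => if i = j then 1 else 0) t := by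
    intro j
    refine ⟨by fun_prop, fun i => ?_⟩
    unfold pd
    have : HasFDerivAt (fun s : ι → ℝ => s j) (ContinuousLinearMap.proj (R := ℝ) (φ := fun _ : ι => ℝ) j) t :=
      (ContinuousLinearMap.proj (R := ℝ) (φ := fun _ : ι => ℝ) j).hasFDerivAt
    rw [this.fderiv]
    simp only [ContinuousLinearMap.proj_apply, Pi.single_apply]
    by_cases hij : i = j
    · simp [hij]
    · simp [hij, Ne.symm hij]
  have h2 := HP.sum (A := (Finset.univ : Finset ι)) (g := fun j s => a j * s j)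
    (g' := fun j i => a j * (if i = j then 1 else 0)) (t := t) fun j _ => (h1 j).const_mul (a j)
  refine h2.congr_val fun i => ?_
  simp

theorem HP.inv {w : (ι → ℝ) → ℝ} {w' : ι → ℝ} {t : ι → ℝ} (hw : HP w w' t) (h0 : w t ≠ 0) :
    HP (fun s => (w s)⁻¹) (fun i => -(w' i) * (w t)⁻¹ ^ 2) t := by
  have h1 : HasFDerivAt w (fderiv ℝ w t) t := hw.diff.hasFDerivAt
  have h2 := (hasDerivAt_inv h0).comp_hasFDerivAt t h1
  refine ⟨h2.differentiableAt, fun i => ?_⟩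
  unfold pd
  have h3 : fderiv ℝ (fun s => (w s)⁻¹) t = (-(w t ^ 2)⁻¹) • fderiv ℝ w t := h2.fderiv
  rw [h3]
  simp only [ContinuousLinearMap.smul_apply, smul_eq_mul]
  have e1 := hw.val i
  unfold pd at e1
  rw [e1]
  rw [inv_pow]
  ring

/-! ### one term `z² / w` -/

/-- `z = lin a`, `w = lin b + w0` -/
structure Dat (ι : Type*) where
  c : ℝ
  a : ι → ℝ
  b : ι → ℝ
  w0 : ℝ

namespace Dat
variable (d : Dat ι)

def z (t : ι → ℝ) : ℝ := lin d.a t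
def w (t : ι → ℝ) : ℝ := d.w0 + lin d.b t
def v (t : ι → ℝ) : ℝ := d.z t * (d.w t)⁻¹
/-- `θ_i = a_i - v b_i` -/
def th (i : ι) (t : ι → ℝ) : ℝ := d.a i - d.v t * d.b i
def T0 (t : ι → ℝ) : ℝ := d.c * (d.z t ^ 2 * (d.w t)⁻¹)
def T1 (i : ι) (t : ι → ℝ) : ℝ := d.c * (2 * d.v t * d.a i - d.v t ^ 2 * d.b i)
def T2 (i j : ι) (t : ι → ℝ) : ℝ := d.c * (2 * (d.w t)⁻¹ * (d.th i t * d.th j t))
def T3 (i j l : ι) (t : ι → ℝ) : ℝ :=
  d.c * (-2 * (d.w t)⁻¹ ^ 2 * (d.th i t * d.th j t * d.b l + d.th i t * d.b j * d.th l t +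
    d.b i * d.th j t * d.th l t))
def T4 (i j l m : ι) (t : ι → ℝ) : ℝ :=
  d.c * (4 * (d.w t)⁻¹ ^ 3 * (d.th i t * d.th j t * d.b l * d.b m +
    d.th i t * d.b j * d.th l t * d.b m + d.b i * d.th j t * d.th l t * d.b m +
    d.th i t * d.b j * d.b l * d.th m t + d.b i * d.th j t * d.b l * d.th m t +
    d.b i * d.b j * d.th l t * d.th m t))

variable {d}

variable (d) in
theorem hp_z (t : ι → ℝ) : HP d.z d.a t := HP.lin d.a t

variable (d) in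
theorem hp_w (t : ι → ℝ) : HP d.w d.b t :=
  ((HP.const d.w0 t).add (HP.lin d.b t)).congr_val fun i => by ring

theorem hp_winv {t : ι → ℝ} (h : d.w t ≠ 0) :
    HP (fun s => (d.w s)⁻¹) (fun i => -(d.b i) * (d.w t)⁻¹ ^ 2) t := (hp_w d t).inv h

theorem hp_v {t : ι → ℝ} (h : d.w t ≠ 0) : HP d.v (fun i => (d.w t)⁻¹ * d.th i t) t := by
  refine ((hp_z d t).mul (hp_winv h)).congr_val fun i => ?_
  unfold th v
  ring

theorem hp_th (i : ι) {t : ι → ℝ} (h : d.w t ≠ 0) :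
    HP (d.th i) (fun j => -(d.b i) * ((d.w t)⁻¹ * d.th j t)) t := by
  have h1 := (HP.const (d.a i) t).add ((hp_v h).const_mul (-(d.b i)))
  have e : d.th i = fun s => d.a i + -(d.b i) * d.v s := by
    funext s; unfold th; ring
  rw [e]
  exact h1.congr_val fun j => by ring

theorem hp_T0 {t : ι → ℝ} (h : d.w t ≠ 0) : HP d.T0 (fun i => d.T1 i t) t := by
  have h1 := (((hp_z d t).mul (hp_z d t)).mul (hp_winv h)).const_mul d.c
  have e : d.T0 = fun s => d.c * (d.z s * d.z s * (d.w s)⁻¹) := by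
    funext s; unfold T0; ring
  rw [e]
  refine h1.congr_val fun i => ?_
  unfold T1 v
  ring

theorem hp_T1 (i : ι) {t : ι → ℝ} (h : d.w t ≠ 0) : HP (d.T1 i) (fun j => d.T2 i j t) t := by
  have h1 := (((hp_v h).const_mul (2 * d.a i)).add
    (((hp_v h).mul (hp_v h)).const_mul (-(d.b i)))).const_mul d.c
  have e : d.T1 i = fun s => d.c * (2 * d.a i * d.v s + -(d.b i) * (d.v s * d.v s)) := by
    funext s; unfold T1; ring
  rw [e]
  refine h1.congr_val fun j => ?_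
  unfold T2
  have : d.th i t = d.a i - d.v t * d.b i := rfl
  rw [this]
  ring

theorem hp_T2 (i j : ι) {t : ι → ℝ} (h : d.w t ≠ 0) :
    HP (d.T2 i j) (fun l => d.T3 i j l t) t := by
  have h1 := (((hp_winv h).const_mul 2).mul ((hp_th i h).mul (hp_th j h))).const_mul d.c
  refine h1.congr_val fun l => ?_
  unfold T3
  ring

theorem hp_T3 (i j l : ι) {t : ι → ℝ} (h : d.w t ≠ 0) :
    HP (d.T3 i j l) (fun m => d.T4 i j l m t) t := by
  have k1 := ((hp_th i h).mul (hp_th j h)).const_mul (d.b l)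
  have k2 := ((hp_th i h).mul (hp_th l h)).const_mul (d.b j)
  have k3 := ((hp_th j h).mul (hp_th l h)).const_mul (d.b i)
  have h1 := ((((hp_winv h).mul (hp_winv h)).const_mul (-2)).mul ((k1.add k2).add k3)).const_mul d.c
  have e : d.T3 i j l = fun s => d.c * (-2 * ((d.w s)⁻¹ * (d.w s)⁻¹) *
      (d.b l * (d.th i s * d.th j s) + d.b j * (d.th i s * d.th l s) +
        d.b i * (d.th j s * d.th l s))) := by
    funext s; unfold T3; ring
  rw [e]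
  refine h1.congr_val fun m => ?_
  unfold T4
  ring

end Dat

/-! ### sums of such terms -/

section sums
variable {σ : Type*} (A : Finset σ) (d : σ → Dat ι)

def F0 (t : ι → ℝ) : ℝ := ∑ s ∈ A, (d s).T0 t
def F1 (i : ι) (t : ι → ℝ) : ℝ := ∑ s ∈ A, (d s).T1 i t
def F2 (i j : ι) (t : ι → ℝ) : ℝ := ∑ s ∈ A, (d s).T2 i j t
def F3 (i j l : ι) (t : ι → ℝ) : ℝ := ∑ s ∈ A, (d s).T3 i j l t
def F4 (i j l m : ι) (t : ι → ℝ) : ℝ := ∑ s ∈ A, (d s).T4 i j l m t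

def Om : Set (ι → ℝ) := {t | ∀ s ∈ A, (d s).w t ≠ 0}

theorem isOpen_Om : IsOpen (Om A d) := by
  have : Om A d = ⋂ s ∈ A, {t | (d s).w t ≠ 0} := by
    ext t; simp [Om]
  rw [this]
  refine isOpen_biInter_finset fun s _ => ?_
  have hc : Continuous (d s).w := by
    unfold Dat.w lin; fun_prop
  exact isOpen_ne_fun hc continuous_const

variable {A d}

theorem hp_F0 {t : ι → ℝ} (h : t ∈ Om A d) : HP (F0 A d) (fun i => F1 A d i t) t :=
  HP.sum fun s hs => Dat.hp_T0 (h s hs)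
theorem hp_F1 (i : ι) {t : ι → ℝ} (h : t ∈ Om A d) : HP (F1 A d i) (fun j => F2 A d i j t) t :=
  HP.sum fun s hs => Dat.hp_T1 i (h s hs)
theorem hp_F2 (i j : ι) {t : ι → ℝ} (h : t ∈ Om A d) :
    HP (F2 A d i j) (fun l => F3 A d i j l t) t :=
  HP.sum fun s hs => Dat.hp_T2 i j (h s hs)
theorem hp_F3 (i j l : ι) {t : ι → ℝ} (h : t ∈ Om A d) :
    HP (F3 A d i j l) (fun m => F4 A d i j l m t) t :=
  HP.sum fun s hs => Dat.hp_T3 i j l (h s hs)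

theorem pd1 {t : ι → ℝ} (h : t ∈ Om A d) (i : ι) : pd (F0 A d) i t = F1 A d i t :=
  (hp_F0 h).val i

theorem pd2 {t : ι → ℝ} (h : t ∈ Om A d) (i j : ι) : pd (pd (F0 A d) i) j t = F2 A d i j t := by
  have e : pd (F0 A d) i =ᶠ[𝓝 t] F1 A d i :=
    Filter.eventually_of_mem ((isOpen_Om A d).mem_nhds h) fun s hs => pd1 hs i
  rw [pd_congr e]
  exact (hp_F1 i h).val j

theorem pd3 {t : ι → ℝ} (h : t ∈ Om A d) (i j l : ι) :
    pd (pd (pd (F0 A d) i) j) l t = F3 A d i j l t := by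
  have e : pd (pd (F0 A d) i) j =ᶠ[𝓝 t] F2 A d i j :=
    Filter.eventually_of_mem ((isOpen_Om A d).mem_nhds h) fun s hs => pd2 hs i j
  rw [pd_congr e]
  exact (hp_F2 i j h).val l

theorem pd4 {t : ι → ℝ} (h : t ∈ Om A d) (i j l m : ι) :
    pd (pd (pd (pd (F0 A d) i) j) l) m t = F4 A d i j l m t := by
  have e : pd (pd (pd (F0 A d) i) j) l =ᶠ[𝓝 t] F3 A d i j l :=
    Filter.eventually_of_mem ((isOpen_Om A d).mem_nhds h) fun s hs => pd3 hs i j l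
  rw [pd_congr e]
  exact (hp_F3 i j l h).val m

end sums

/-! ### tensors -/

def t1 (G : ι → ℝ) (u : ι → ℂ) : ℂ := ∑ i, (G i : ℂ) * u i
def t2 (G : ι → ι → ℝ) (u v : ι → ℂ) : ℂ := ∑ i, ∑ j, (G i j : ℂ) * u i * v j
def t3 (G : ι → ι → ι → ℝ) (u v w : ι → ℂ) : ℂ :=
  ∑ i, ∑ j, ∑ l, (G i j l : ℂ) * u i * v j * w l
def t4 (G : ι → ι → ι → ι → ℝ) (u v w y : ι → ℂ) : ℂ :=
  ∑ i, ∑ j, ∑ l, ∑ m, (G i j l m : ℂ) * u i * v j * w l * y m

variable {σ : Type*} {A : Finset σ} {d : σ → Dat ι}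

theorem t1_sum (G : σ → ι → ℝ) (u : ι → ℂ) :
    t1 (fun i => ∑ s ∈ A, G s i) u = ∑ s ∈ A, t1 (G s) u := by
  unfold t1
  conv_rhs => rw [Finset.sum_comm]
  refine Finset.sum_congr rfl fun i _ => ?_
  push_cast
  rw [Finset.sum_mul]

theorem t2_sum (G : σ → ι → ι → ℝ) (u v : ι → ℂ) :
    t2 (fun i j => ∑ s ∈ A, G s i j) u v = ∑ s ∈ A, t2 (G s) u v := by
  unfold t2
  conv_rhs => rw [Finset.sum_comm]
  refine Finset.sum_congr rfl fun i _ => ?_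
  conv_rhs => rw [Finset.sum_comm]
  refine Finset.sum_congr rfl fun j _ => ?_
  push_cast
  rw [Finset.sum_mul, Finset.sum_mul]

theorem t3_sum (G : σ → ι → ι → ι → ℝ) (u v w : ι → ℂ) :
    t3 (fun i j l => ∑ s ∈ A, G s i j l) u v w = ∑ s ∈ A, t3 (G s) u v w := by
  unfold t3
  conv_rhs => rw [Finset.sum_comm]
  refine Finset.sum_congr rfl fun i _ => ?_
  conv_rhs => rw [Finset.sum_comm]
  refine Finset.sum_congr rfl fun j _ => ?_
  conv_rhs => rw [Finset.sum_comm]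
  refine Finset.sum_congr rfl fun l _ => ?_
  push_cast
  rw [Finset.sum_mul, Finset.sum_mul, Finset.sum_mul]

theorem t4_sum (G : σ → ι → ι → ι → ι → ℝ) (u v w y : ι → ℂ) :
    t4 (fun i j l m => ∑ s ∈ A, G s i j l m) u v w y = ∑ s ∈ A, t4 (G s) u v w y := by
  unfold t4
  conv_rhs => rw [Finset.sum_comm]
  refine Finset.sum_congr rfl fun i _ => ?_
  conv_rhs => rw [Finset.sum_comm]
  refine Finset.sum_congr rfl fun j _ => ?_
  conv_rhs => rw [Finset.sum_comm]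
  refine Finset.sum_congr rfl fun l _ => ?_
  conv_rhs => rw [Finset.sum_comm]
  refine Finset.sum_congr rfl fun m _ => ?_
  push_cast
  rw [Finset.sum_mul, Finset.sum_mul, Finset.sum_mul, Finset.sum_mul]

theorem t2_add (G H : ι → ι → ℝ) (u v : ι → ℂ) :
    t2 (fun i j => G i j + H i j) u v = t2 G u v + t2 H u v := by
  unfold t2
  simp only [Complex.ofReal_add, add_mul, Finset.sum_add_distrib]

theorem t3_add (G H : ι → ι → ι → ℝ) (u v w : ι → ℂ) :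
    t3 (fun i j l => G i j l + H i j l) u v w = t3 G u v w + t3 H u v w := by
  unfold t3
  simp only [Complex.ofReal_add, add_mul, Finset.sum_add_distrib]

theorem t4_add (G H : ι → ι → ι → ι → ℝ) (u v w y : ι → ℂ) :
    t4 (fun i j l m => G i j l m + H i j l m) u v w y = t4 G u v w y + t4 H u v w y := by
  unfold t4
  simp only [Complex.ofReal_add, add_mul, Finset.sum_add_distrib]

theorem t2_smul (c : ℝ) (G : ι → ι → ℝ) (u v : ι → ℂ) :
    t2 (fun i j => c * G i j) u v = c * t2 G u v := by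
  unfold t2
  simp only [Complex.ofReal_mul, Finset.mul_sum, mul_assoc]

theorem t3_smul (c : ℝ) (G : ι → ι → ι → ℝ) (u v w : ι → ℂ) :
    t3 (fun i j l => c * G i j l) u v w = c * t3 G u v w := by
  unfold t3
  simp only [Complex.ofReal_mul, Finset.mul_sum, mul_assoc]

theorem t4_smul (c : ℝ) (G : ι → ι → ι → ι → ℝ) (u v w y : ι → ℂ) :
    t4 (fun i j l m => c * G i j l m) u v w y = c * t4 G u v w y := by
  unfold t4
  simp only [Complex.ofReal_mul, Finset.mul_sum, mul_assoc]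

theorem t2_rank (f g : ι → ℝ) (u v : ι → ℂ) :
    t2 (fun i j => f i * g j) u v = t1 f u * t1 g v := by
  unfold t2 t1
  rw [Finset.sum_mul_sum]
  refine Finset.sum_congr rfl fun i _ => Finset.sum_congr rfl fun j _ => ?_
  push_cast; ring

theorem t3_rank (f g h : ι → ℝ) (u v w : ι → ℂ) :
    t3 (fun i j l => f i * g j * h l) u v w = t1 f u * t1 g v * t1 h w := by
  unfold t3 t1
  rw [Finset.sum_mul_sum, Finset.sum_mul]
  refine Finset.sum_congr rfl fun i _ => ?_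
  rw [Finset.sum_mul_sum]
  refine Finset.sum_congr rfl fun j _ => Finset.sum_congr rfl fun l _ => ?_
  push_cast; ring

theorem t4_rank (f g h k : ι → ℝ) (u v w y : ι → ℂ) :
    t4 (fun i j l m => f i * g j * h l * k m) u v w y = t1 f u * t1 g v * t1 h w * t1 k y := by
  unfold t4 t1
  rw [Finset.sum_mul_sum, Finset.sum_mul, Finset.sum_mul]
  refine Finset.sum_congr rfl fun i _ => ?_
  rw [Finset.sum_mul_sum, Finset.sum_mul]
  refine Finset.sum_congr rfl fun j _ => ?_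
  rw [Finset.sum_mul_sum]
  refine Finset.sum_congr rfl fun l _ => Finset.sum_congr rfl fun m _ => ?_
  push_cast; ring

/-! ### the derivative tensors of `F0` -/

namespace Dat
variable (d : Dat ι)

/-- `θ(u)` and `dw(u)` -/
def Th (t : ι → ℝ) (u : ι → ℂ) : ℂ := t1 (fun i => d.th i t) u
def Be (u : ι → ℂ) : ℂ := t1 d.b u
def Al (u : ι → ℂ) : ℂ := t1 d.a u

theorem Th_eq (t : ι → ℝ) (u : ι → ℂ) : d.Th t u = d.Al u - d.v t * d.Be u := by
  unfold Th Al Be t1 th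
  rw [Finset.mul_sum, ← Finset.sum_sub_distrib]
  refine Finset.sum_congr rfl fun i _ => ?_
  push_cast; ring

end Dat

theorem D1_eq {t : ι → ℝ} (h : t ∈ Om A d) (u : ι → ℂ) :
    D1 (F0 A d) t u = ∑ s ∈ A, ((d s).c : ℂ) *
      (2 * (d s).v t * (d s).Al u - ((d s).v t : ℂ) ^ 2 * (d s).Be u) := by
  have e1 : D1 (F0 A d) t u = t1 (fun i => F1 A d i t) u := by
    unfold D1 t1
    simp only [pd1 h]
  rw [e1]
  unfold F1
  rw [t1_sum]
  refine Finset.sum_congr rfl fun s _ => ?_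
  unfold Dat.T1 Dat.Al Dat.Be t1
  rw [Finset.mul_sum, Finset.mul_sum, ← Finset.sum_sub_distrib, Finset.mul_sum]
  refine Finset.sum_congr rfl fun i _ => ?_
  push_cast; ring

theorem D2_eq {t : ι → ℝ} (h : t ∈ Om A d) (u v : ι → ℂ) :
    D2 (F0 A d) t u v = ∑ s ∈ A, ((d s).c : ℂ) *
      (2 * (((d s).w t)⁻¹ : ℝ) * ((d s).Th t u * (d s).Th t v)) := by
  have e1 : D2 (F0 A d) t u v = t2 (fun i j => F2 A d i j t) u v := by
    unfold D2 t2
    simp only [pd2 h]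
  rw [e1]
  unfold F2
  rw [t2_sum]
  refine Finset.sum_congr rfl fun s _ => ?_
  unfold Dat.T2 Dat.Th
  rw [t2_smul, t2_smul, t2_rank]
  push_cast
  ring

theorem D3_eq {t : ι → ℝ} (h : t ∈ Om A d) (u v w : ι → ℂ) :
    D3 (F0 A d) t u v w = ∑ s ∈ A, ((d s).c : ℂ) *
      (-2 * (((d s).w t)⁻¹ ^ 2 : ℝ) * ((d s).Th t u * (d s).Th t v * (d s).Be w +
        (d s).Th t u * (d s).Be v * (d s).Th t w + (d s).Be u * (d s).Th t v * (d s).Th t w)) := by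
  have e1 : D3 (F0 A d) t u v w = t3 (fun i j l => F3 A d i j l t) u v w := by
    unfold D3 t3
    simp only [pd3 h]
  rw [e1]
  unfold F3
  rw [t3_sum]
  refine Finset.sum_congr rfl fun s _ => ?_
  unfold Dat.T3 Dat.Th Dat.Be
  rw [t3_smul, t3_smul, t3_add, t3_add, t3_rank, t3_rank, t3_rank]
  push_cast
  ring

theorem D4_eq {t : ι → ℝ} (h : t ∈ Om A d) (u v w y : ι → ℂ) :
    D4 (F0 A d) t u v w y = ∑ s ∈ A, ((d s).c : ℂ) *
      (4 * (((d s).w t)⁻¹ ^ 3 : ℝ) * (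
        (d s).Th t u * (d s).Th t v * (d s).Be w * (d s).Be y +
        (d s).Th t u * (d s).Be v * (d s).Th t w * (d s).Be y +
        (d s).Be u * (d s).Th t v * (d s).Th t w * (d s).Be y +
        (d s).Th t u * (d s).Be v * (d s).Be w * (d s).Th t y +
        (d s).Be u * (d s).Th t v * (d s).Be w * (d s).Th t y +
        (d s).Be u * (d s).Be v * (d s).Th t w * (d s).Th t y)) := by
  have e1 : D4 (F0 A d) t u v w y = t4 (fun i j l m => F4 A d i j l m t) u v w y := by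
    unfold D4 t4
    simp only [pd4 h]
  rw [e1]
  unfold F4
  rw [t4_sum]
  refine Finset.sum_congr rfl fun s _ => ?_
  unfold Dat.T4 Dat.Th Dat.Be
  rw [t4_smul, t4_smul, t4_add, t4_add, t4_add, t4_add, t4_add, t4_rank, t4_rank, t4_rank,
    t4_rank, t4_rank, t4_rank]
  push_cast
  ring

end calculus

end T9aux

end

end Pool.Agent.H789.HSC


/-! ### part T9b -/

namespace Pool.Agent.H789.HSC

noncomputable section

namespace T9aux

variable {p : ℕ}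

/-- complex mean value -/
def xC (u : Fin p → ℂ) : ℂ := (∑ i, u i) / p

/-- the data of `E0` -/
def dat (p N : ℕ) : ℕ × Option (Fin p) → Dat (Fin p)
  | (m, none) => ⟨2 ^ m / (4 * N) * (-(2 * p)), fun _ => 1 / p, fun _ => 1 / p, 2 ^ m⟩
  | (m, some i) => ⟨2 ^ m / (4 * N), fun j => (if j = i then 1 else 0) - 2 / p,
      fun j => (if j = i then 1 else 0) + 1 / p, 2 ^ m⟩

def AA (p N : ℕ) : Finset (ℕ × Option (Fin p)) := Finset.range N ×ˢ Finset.univ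

theorem sum_AA {β : Type*} [AddCommMonoid β] (N : ℕ) (f : ℕ × Option (Fin p) → β) :
    ∑ s ∈ AA p N, f s = ∑ m ∈ Finset.range N, (f (m, none) + ∑ i, f (m, some i)) := by
  unfold AA
  rw [Finset.sum_product]
  refine Finset.sum_congr rfl fun m _ => ?_
  rw [Fintype.sum_option]

theorem lin_avg (t : Fin p → ℝ) (c : ℝ) : lin (fun _ => c / p) t = c * xav t := by
  unfold lin xav
  rw [← Finset.mul_sum]; ring

theorem lin_single (t : Fin p → ℝ) (i : Fin p) (c : ℝ) :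
    lin (fun j => (if j = i then 1 else 0) + c / p) t = t i + c * xav t := by
  unfold lin xav
  simp only [add_mul, Finset.sum_add_distrib, ite_mul, one_mul, zero_mul, Finset.sum_ite_eq',
    Finset.mem_univ, if_true]
  rw [← Finset.mul_sum]; ring

theorem t1_avg (u : Fin p → ℂ) (c : ℝ) : t1 (fun _ => c / p) u = c * xC u := by
  unfold t1 xC
  rw [← Finset.mul_sum]; push_cast; ring

theorem t1_single (u : Fin p → ℂ) (i : Fin p) (c : ℝ) :
    t1 (fun j => (if j = i then 1 else 0) + c / p) u = u i + c * xC u := by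
  unfold t1 xC
  simp only [Complex.ofReal_add, add_mul, Finset.sum_add_distrib]
  have h1 : ∑ j, (((if j = i then (1:ℝ) else 0) : ℝ) : ℂ) * u j = u i := by
    rw [Finset.sum_eq_single i]
    · simp
    · intro j _ hj; simp [hj]
    · intro h; exact absurd (Finset.mem_univ i) h
  rw [h1, ← Finset.mul_sum]; push_cast; ring

section vals
variable (N m : ℕ) (i : Fin p) (t : Fin p → ℝ) (u : Fin p → ℂ)

theorem z_none : (dat p N (m, none)).z t = xav t := by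
  have := lin_avg t 1
  rw [one_mul] at this
  exact this
theorem z_some : (dat p N (m, some i)).z t = t i - 2 * xav t := by
  have h := lin_single t i (-2)
  have e : (fun j : Fin p => (if j = i then (1:ℝ) else 0) + -2 / p) =
    fun j : Fin p => (if j = i then (1:ℝ) else 0) - 2 / p := by funext j; ring
  rw [e] at h
  unfold Dat.z dat
  simp only
  rw [h]; ring
theorem w_none : (dat p N (m, none)).w t = 2 ^ m + xav t := by
  have := lin_avg t 1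
  rw [one_mul] at this
  unfold Dat.w dat
  simp only
  rw [this]
theorem w_some : (dat p N (m, some i)).w t = 2 ^ m + t i + xav t := by
  have h := lin_single t i 1
  unfold Dat.w dat
  simp only
  rw [h]; ring
theorem Al_none : (dat p N (m, none)).Al u = xC u := by
  have := t1_avg u 1
  unfold Dat.Al dat
  simp only
  rw [this]; push_cast; ring
theorem Be_none : (dat p N (m, none)).Be u = xC u := by
  have := t1_avg u 1
  unfold Dat.Be dat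
  simp only
  rw [this]; push_cast; ring
theorem Al_some : (dat p N (m, some i)).Al u = u i - 2 * xC u := by
  have h := t1_single u i (-2)
  have e : (fun j : Fin p => (if j = i then (1:ℝ) else 0) + -2 / p) =
    fun j : Fin p => (if j = i then (1:ℝ) else 0) - 2 / p := by funext j; ring
  rw [e] at h
  unfold Dat.Al dat
  simp only
  rw [h]; push_cast; ring
theorem Be_some : (dat p N (m, some i)).Be u = u i + xC u := by
  have h := t1_single u i 1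
  unfold Dat.Be dat
  simp only
  rw [h]; push_cast; ring

end vals

theorem E0_eq (N : ℕ) : (E0 N : (Fin p → ℝ) → ℝ) = F0 (AA p N) (dat p N) := by
  funext t
  unfold F0 E0
  rw [sum_AA, Finset.mul_sum]
  refine Finset.sum_congr rfl fun m _ => ?_
  unfold Dat.T0
  rw [z_none, w_none]
  simp only [z_some, w_some]
  unfold dat blk
  simp only
  rw [← Finset.mul_sum]
  simp only [div_eq_mul_inv]
  ring

/-! ### the block tensors -/

def vI (ρ : ℝ) (t : Fin p → ℝ) (i : Fin p) : ℝ := (t i - 2 * xav t) * (ρ + t i + xav t)⁻¹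
def vX (ρ : ℝ) (t : Fin p → ℝ) : ℝ := xav t * (ρ + xav t)⁻¹
def thI (ρ : ℝ) (t : Fin p → ℝ) (i : Fin p) (u : Fin p → ℂ) : ℂ :=
  (u i - 2 * xC u) - vI ρ t i * (u i + xC u)
def thX (ρ : ℝ) (t : Fin p → ℝ) (u : Fin p → ℂ) : ℂ := xC u - vX ρ t * xC u

/-- the bracket of level 4 -/
def q4 (θ₁ θ₂ θ₃ θ₄ β₁ β₂ β₃ β₄ : ℂ) : ℂ :=
  θ₁ * θ₂ * β₃ * β₄ + θ₁ * β₂ * θ₃ * β₄ + β₁ * θ₂ * θ₃ * β₄ + θ₁ * β₂ * β₃ * θ₄ +
    β₁ * θ₂ * β₃ * θ₄ + β₁ * β₂ * θ₃ * θ₄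

def q3 (θ₁ θ₂ θ₃ β₁ β₂ β₃ : ℂ) : ℂ := θ₁ * θ₂ * β₃ + θ₁ * β₂ * θ₃ + β₁ * θ₂ * θ₃

def k1 (ρ : ℝ) (t : Fin p → ℝ) (u : Fin p → ℂ) : ℂ :=
  -(2 * p) * (2 * vX ρ t * xC u - (vX ρ t : ℂ) ^ 2 * xC u) +
    ∑ i, (2 * vI ρ t i * (u i - 2 * xC u) - (vI ρ t i : ℂ) ^ 2 * (u i + xC u))

def k2 (ρ : ℝ) (t : Fin p → ℝ) (u v : Fin p → ℂ) : ℂ :=
  -(2 * p) * (2 * ((ρ + xav t)⁻¹ : ℝ) * (thX ρ t u * thX ρ t v)) +
    ∑ i, 2 * ((ρ + t i + xav t)⁻¹ : ℝ) * (thI ρ t i u * thI ρ t i v)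

def k3 (ρ : ℝ) (t : Fin p → ℝ) (u v w : Fin p → ℂ) : ℂ :=
  -(2 * p) * (-2 * ((ρ + xav t)⁻¹ ^ 2 : ℝ) *
      q3 (thX ρ t u) (thX ρ t v) (thX ρ t w) (xC u) (xC v) (xC w)) +
    ∑ i, -2 * ((ρ + t i + xav t)⁻¹ ^ 2 : ℝ) *
      q3 (thI ρ t i u) (thI ρ t i v) (thI ρ t i w) (u i + xC u) (v i + xC v) (w i + xC w)

def k4 (ρ : ℝ) (t : Fin p → ℝ) (u v w y : Fin p → ℂ) : ℂ :=
  -(2 * p) * (4 * ((ρ + xav t)⁻¹ ^ 3 : ℝ) *
      q4 (thX ρ t u) (thX ρ t v) (thX ρ t w) (thX ρ t y) (xC u) (xC v) (xC w) (xC y)) +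
    ∑ i, 4 * ((ρ + t i + xav t)⁻¹ ^ 3 : ℝ) *
      q4 (thI ρ t i u) (thI ρ t i v) (thI ρ t i w) (thI ρ t i y)
        (u i + xC u) (v i + xC v) (w i + xC w) (y i + xC y)

theorem v_none (N m : ℕ) (t : Fin p → ℝ) : (dat p N (m, none)).v t = vX (2 ^ m) t := by
  unfold Dat.v vX; rw [z_none, w_none]
theorem v_some (N m : ℕ) (i : Fin p) (t : Fin p → ℝ) :
    (dat p N (m, some i)).v t = vI (2 ^ m) t i := by
  unfold Dat.v vI; rw [z_some, w_some]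
theorem Th_none (N m : ℕ) (t : Fin p → ℝ) (u : Fin p → ℂ) :
    (dat p N (m, none)).Th t u = thX (2 ^ m) t u := by
  rw [Dat.Th_eq, v_none, Al_none, Be_none]; rfl
theorem Th_some (N m : ℕ) (i : Fin p) (t : Fin p → ℝ) (u : Fin p → ℂ) :
    (dat p N (m, some i)).Th t u = thI (2 ^ m) t i u := by
  rw [Dat.Th_eq, v_some, Al_some, Be_some]; rfl
theorem c_none (N m : ℕ) : (dat p N (m, none)).c = 2 ^ m / (4 * N) * (-(2 * p)) := rfl
theorem c_some (N m : ℕ) (i : Fin p) : (dat p N (m, some i)).c = 2 ^ m / (4 * N) := rfl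

theorem xav_nonneg {t : Fin p → ℝ} (ht : ∀ i, 0 ≤ t i) : 0 ≤ xav t := by
  unfold xav
  exact div_nonneg (Finset.sum_nonneg fun i _ => ht i) (Nat.cast_nonneg p)

theorem mem_Om {N : ℕ} {t : Fin p → ℝ} (ht : ∀ i, 0 ≤ t i) : t ∈ Om (AA p N) (dat p N) := by
  rintro ⟨m, o⟩ _
  have hx := xav_nonneg ht
  have h2 : (0:ℝ) < 2 ^ m := by positivity
  cases o with
  | none => rw [w_none]; positivity
  | some i => rw [w_some]; have := ht i; positivity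

theorem D1_E0 {N : ℕ} {t : Fin p → ℝ} (ht : ∀ i, 0 ≤ t i) (u : Fin p → ℂ) :
    D1 (E0 N) t u = ∑ m ∈ Finset.range N, ((2 ^ m / (4 * N) : ℝ) : ℂ) * k1 (2 ^ m) t u := by
  rw [E0_eq, D1_eq (mem_Om ht), sum_AA]
  refine Finset.sum_congr rfl fun m _ => ?_
  simp only [c_none, c_some, v_none, v_some, Al_none, Al_some, Be_none, Be_some]
  unfold k1
  rw [← Finset.mul_sum]
  push_cast
  ring

theorem D2_E0 {N : ℕ} {t : Fin p → ℝ} (ht : ∀ i, 0 ≤ t i) (u v : Fin p → ℂ) :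
    D2 (E0 N) t u v = ∑ m ∈ Finset.range N, ((2 ^ m / (4 * N) : ℝ) : ℂ) * k2 (2 ^ m) t u v := by
  rw [E0_eq, D2_eq (mem_Om ht), sum_AA]
  refine Finset.sum_congr rfl fun m _ => ?_
  simp only [c_none, c_some, w_none, w_some, Th_none, Th_some]
  unfold k2
  rw [← Finset.mul_sum]
  push_cast
  ring

theorem D3_E0 {N : ℕ} {t : Fin p → ℝ} (ht : ∀ i, 0 ≤ t i) (u v w : Fin p → ℂ) :
    D3 (E0 N) t u v w =
      ∑ m ∈ Finset.range N, ((2 ^ m / (4 * N) : ℝ) : ℂ) * k3 (2 ^ m) t u v w := by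
  rw [E0_eq, D3_eq (mem_Om ht), sum_AA]
  refine Finset.sum_congr rfl fun m _ => ?_
  simp only [c_none, c_some, w_none, w_some, Th_none, Th_some, Be_none, Be_some]
  unfold k3 q3
  rw [← Finset.mul_sum]
  push_cast
  ring

theorem D4_E0 {N : ℕ} {t : Fin p → ℝ} (ht : ∀ i, 0 ≤ t i) (u v w y : Fin p → ℂ) :
    D4 (E0 N) t u v w y =
      ∑ m ∈ Finset.range N, ((2 ^ m / (4 * N) : ℝ) : ℂ) * k4 (2 ^ m) t u v w y := by
  rw [E0_eq, D4_eq (mem_Om ht), sum_AA]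
  refine Finset.sum_congr rfl fun m _ => ?_
  simp only [c_none, c_some, w_none, w_some, Th_none, Th_some, Be_none, Be_some]
  unfold k4 q4
  rw [← Finset.mul_sum]
  push_cast
  ring

end T9aux

end

end Pool.Agent.H789.HSC


/-! ### part T9c -/

namespace Pool.Agent.H789.HSC

noncomputable section

namespace T9aux

variable {p : ℕ}

theorem norm_sum_fin {f : Fin p → ℂ} {B : ℝ} (h : ∀ i, ‖f i‖ ≤ B) : ‖∑ i, f i‖ ≤ p * B := by
  refine (norm_sum_le _ _).trans ?_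
  refine (Finset.sum_le_sum fun i _ => h i).trans ?_
  simp

theorem norm_xC (u : Fin p → ℂ) : ‖xC u‖ ≤ ‖u‖ := by
  unfold xC
  rcases Nat.eq_zero_or_pos p with hp | hp
  · subst hp; simp
  · rw [norm_div, Complex.norm_natCast, div_le_iff₀ (by exact_mod_cast hp), mul_comm]
    exact norm_sum_fin fun i => norm_le_pi_norm u i

theorem sum_eq_xC (hp : 0 < p) (u : Fin p → ℂ) : ∑ i, u i = p * xC u := by
  unfold xC
  have : (p : ℂ) ≠ 0 := by exact_mod_cast hp.ne'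
  field_simp

theorem sum_eq_xav (hp : 0 < p) (t : Fin p → ℝ) : ∑ i, t i = p * xav t := by
  unfold xav
  have : (p : ℝ) ≠ 0 := by exact_mod_cast hp.ne'
  field_simp

theorem ti_le (hp : 0 < p) {t : Fin p → ℝ} (ht : ∀ i, 0 ≤ t i) (i : Fin p) : t i ≤ p * xav t := by
  rw [← sum_eq_xav hp]
  exact Finset.single_le_sum (f := t) (fun j _ => ht j) (Finset.mem_univ i)

section
variable {ρ : ℝ} {t : Fin p → ℝ} (hρ : 0 < ρ) (ht : ∀ i, 0 ≤ t i)
include hρ ht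

theorem X_pos : 0 < ρ + xav t := by have := xav_nonneg ht; linarith

theorem w_pos (i : Fin p) : 0 < ρ + t i + xav t := by
  have := xav_nonneg ht; have := ht i; linarith

theorem winv_le (i : Fin p) : (ρ + t i + xav t)⁻¹ ≤ (ρ + xav t)⁻¹ :=
  inv_anti₀ (X_pos hρ ht) (by have := ht i; linarith)

theorem vI_abs (i : Fin p) : |vI ρ t i| ≤ 2 := by
  have hx := xav_nonneg ht
  have hw := w_pos hρ ht i
  have h1 := ht i
  unfold vI
  rw [← div_eq_mul_inv, abs_div, abs_of_pos hw, div_le_iff₀ hw, abs_le]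
  constructor <;> linarith

theorem vI_abs' (hp : 0 < p) (i : Fin p) : |vI ρ t i| ≤ (p + 2) * (xav t * (ρ + xav t)⁻¹) := by
  have hx := xav_nonneg ht
  have hw := w_pos hρ ht i
  have h1 := ht i
  have h2 := ti_le hp ht i
  have h3 := winv_le hρ ht i
  have h4 : 0 ≤ (ρ + t i + xav t)⁻¹ := (inv_pos.2 hw).le
  unfold vI
  rw [abs_mul, abs_of_nonneg h4]
  have h5 : |t i - 2 * xav t| ≤ (p + 2) * xav t := by
    rw [abs_le]
    have : 0 ≤ (p : ℝ) * xav t := by positivity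
    constructor <;> linarith
  calc |t i - 2 * xav t| * (ρ + t i + xav t)⁻¹ ≤ ((p + 2) * xav t) * (ρ + xav t)⁻¹ :=
        mul_le_mul h5 h3 h4 (by positivity)
    _ = _ := by ring

theorem vX_nonneg : 0 ≤ vX ρ t := by
  unfold vX
  exact mul_nonneg (xav_nonneg ht) (inv_pos.2 (X_pos hρ ht)).le

theorem vX_le : vX ρ t ≤ 1 := by
  unfold vX
  rw [← div_eq_mul_inv, div_le_one (X_pos hρ ht)]
  linarith

theorem norm_thI (i : Fin p) (u : Fin p → ℂ) : ‖thI ρ t i u‖ ≤ 7 * ‖u‖ := by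
  have h1 := norm_xC u
  have h2 := norm_le_pi_norm u i
  have h3 := vI_abs hρ ht i
  unfold thI
  have e1 : ‖u i - 2 * xC u‖ ≤ 3 * ‖u‖ := by
    refine (norm_sub_le _ _).trans ?_
    rw [norm_mul, Complex.norm_ofNat]; linarith
  have e2 : ‖u i + xC u‖ ≤ 2 * ‖u‖ := by
    refine (norm_add_le _ _).trans ?_
    linarith
  have e3 : ‖(vI ρ t i : ℂ) * (u i + xC u)‖ ≤ 4 * ‖u‖ := by
    rw [norm_mul, Complex.norm_real, Real.norm_eq_abs]
    calc |vI ρ t i| * ‖u i + xC u‖ ≤ 2 * (2 * ‖u‖) :=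
          mul_le_mul h3 e2 (norm_nonneg _) (by norm_num)
      _ = 4 * ‖u‖ := by ring
  refine (norm_sub_le _ _).trans ?_
  linarith

theorem thX_eq (u : Fin p → ℂ) : thX ρ t u = ((ρ * (ρ + xav t)⁻¹ : ℝ) : ℂ) * xC u := by
  have hX := X_pos hρ ht
  unfold thX vX
  have : (ρ * (ρ + xav t)⁻¹ : ℝ) = 1 - xav t * (ρ + xav t)⁻¹ := by
    field_simp; ring
  rw [this]; push_cast; ring

theorem norm_thX (u : Fin p → ℂ) : ‖thX ρ t u‖ ≤ ‖u‖ := by
  have hX := X_pos hρ ht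
  have hx := xav_nonneg ht
  rw [thX_eq hρ ht, norm_mul, Complex.norm_real, Real.norm_eq_abs]
  have h1 : |ρ * (ρ + xav t)⁻¹| ≤ 1 := by
    rw [abs_of_nonneg (by positivity), ← div_eq_mul_inv, div_le_one hX]
    linarith
  calc |ρ * (ρ + xav t)⁻¹| * ‖xC u‖ ≤ 1 * ‖u‖ := mul_le_mul h1 (norm_xC u) (norm_nonneg _) (by norm_num)
    _ = ‖u‖ := one_mul _

theorem norm_be (i : Fin p) (u : Fin p → ℂ) : ‖u i + xC u‖ ≤ 2 * ‖u‖ := by
  refine (norm_add_le _ _).trans ?_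
  have h1 := norm_xC u
  have h2 := norm_le_pi_norm u i
  linarith

/-! ### upper bounds -/

theorem norm_k1 (hp : 0 < p) (u : Fin p → ℂ) :
    ‖k1 ρ t u‖ ≤ (6 * p + 10 * p * (p + 2)) * (xav t * (ρ + xav t)⁻¹) * ‖u‖ := by
  have hx := xav_nonneg ht
  have hX := X_pos hρ ht
  have hP : (0:ℝ) < p := by exact_mod_cast hp
  set y := xav t * (ρ + xav t)⁻¹ with hy
  have hy0 : 0 ≤ y := by positivity
  have hU := norm_nonneg u
  have e1 : ‖-(2 * (p:ℂ)) * (2 * vX ρ t * xC u - (vX ρ t : ℂ) ^ 2 * xC u)‖ ≤ 2 * p * (3 * y * ‖u‖) := by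
    rw [norm_mul]
    have a1 : ‖-(2 * (p:ℂ))‖ = 2 * p := by
      rw [norm_neg, norm_mul, Complex.norm_ofNat, Complex.norm_natCast]
    rw [a1]
    refine mul_le_mul_of_nonneg_left ?_ (by positivity)
    have h0 := vX_nonneg hρ ht
    have h1 := vX_le hρ ht
    have hvy : vX ρ t = y := rfl
    refine (norm_sub_le _ _).trans ?_
    rw [norm_mul, norm_mul, norm_mul, norm_pow, Complex.norm_ofNat, Complex.norm_real,
      Real.norm_of_nonneg h0]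
    have h2 : vX ρ t ^ 2 ≤ vX ρ t := by nlinarith
    have h3 := norm_xC u
    have h4 := norm_nonneg (xC u)
    rw [← hvy]
    nlinarith [mul_le_mul_of_nonneg_left h3 h0, mul_le_mul_of_nonneg_right h2 h4]
  have e2 : ‖∑ i, (2 * (vI ρ t i : ℂ) * (u i - 2 * xC u) - (vI ρ t i : ℂ) ^ 2 * (u i + xC u))‖ ≤
      p * (10 * ((p + 2) * y) * ‖u‖) := by
    refine norm_sum_fin fun i => ?_
    have h1 := vI_abs hρ ht i
    have h2 := vI_abs' hρ ht hp i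
    rw [← hy] at h2
    have h0 := abs_nonneg (vI ρ t i)
    have b1 : ‖u i - 2 * xC u‖ ≤ 3 * ‖u‖ := by
      refine (norm_sub_le _ _).trans ?_
      rw [norm_mul, Complex.norm_ofNat]
      have h1 := norm_xC u
      have h2 := norm_le_pi_norm u i
      linarith
    have b2 := norm_be hρ ht i u
    refine (norm_sub_le _ _).trans ?_
    rw [norm_mul, norm_mul, norm_mul, norm_pow, Complex.norm_ofNat, Complex.norm_real,
      Real.norm_eq_abs]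
    have c1 : 2 * |vI ρ t i| * ‖u i - 2 * xC u‖ ≤ 2 * |vI ρ t i| * (3 * ‖u‖) :=
      mul_le_mul_of_nonneg_left b1 (by positivity)
    have c2 : |vI ρ t i| ^ 2 * ‖u i + xC u‖ ≤ (2 * |vI ρ t i|) * (2 * ‖u‖) :=
      mul_le_mul (by nlinarith) b2 (norm_nonneg _) (by positivity)
    have c3 : |vI ρ t i| * ‖u‖ ≤ ((p + 2) * y) * ‖u‖ := mul_le_mul_of_nonneg_right h2 hU
    nlinarith
  unfold k1
  refine (norm_add_le _ _).trans ?_
  refine (add_le_add e1 e2).trans (le_of_eq ?_)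
  ring

theorem norm_k2 (u v : Fin p → ℂ) :
    ‖k2 ρ t u v‖ ≤ 102 * p * (ρ + xav t)⁻¹ * (‖u‖ * ‖v‖) := by
  have hX := X_pos hρ ht
  have hi : 0 ≤ (ρ + xav t)⁻¹ := (inv_pos.2 hX).le
  have hU := norm_nonneg u
  have hV := norm_nonneg v
  have e1 : ‖-(2 * (p:ℂ)) * (2 * ((ρ + xav t)⁻¹ : ℝ) * (thX ρ t u * thX ρ t v))‖ ≤
      2 * p * (2 * (ρ + xav t)⁻¹ * (‖u‖ * ‖v‖)) := by
    rw [norm_mul]
    have a1 : ‖-(2 * (p:ℂ))‖ = 2 * p := by
      rw [norm_neg, norm_mul, Complex.norm_ofNat, Complex.norm_natCast]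
    rw [a1]
    refine mul_le_mul_of_nonneg_left ?_ (by positivity)
    rw [norm_mul, norm_mul, norm_mul, Complex.norm_ofNat, Complex.norm_real, Real.norm_of_nonneg hi]
    exact mul_le_mul_of_nonneg_left (mul_le_mul (norm_thX hρ ht u) (norm_thX hρ ht v)
      (norm_nonneg _) hU) (by positivity)
  have e2 : ‖∑ i, 2 * (((ρ + t i + xav t)⁻¹ : ℝ) : ℂ) * (thI ρ t i u * thI ρ t i v)‖ ≤
      p * (98 * (ρ + xav t)⁻¹ * (‖u‖ * ‖v‖)) := by
    refine norm_sum_fin fun i => ?_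
    have hwi : 0 ≤ (ρ + t i + xav t)⁻¹ := (inv_pos.2 (w_pos hρ ht i)).le
    rw [norm_mul, norm_mul, norm_mul, Complex.norm_ofNat, Complex.norm_real, Real.norm_of_nonneg hwi]
    calc 2 * (ρ + t i + xav t)⁻¹ * (‖thI ρ t i u‖ * ‖thI ρ t i v‖)
        ≤ 2 * (ρ + xav t)⁻¹ * ((7 * ‖u‖) * (7 * ‖v‖)) :=
          mul_le_mul (mul_le_mul_of_nonneg_left (winv_le hρ ht i) (by norm_num))
            (mul_le_mul (norm_thI hρ ht i u) (norm_thI hρ ht i v) (norm_nonneg _) (by positivity))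
            (by positivity) (by positivity)
      _ = _ := by ring
  unfold k2
  refine (norm_add_le _ _).trans ?_
  refine (add_le_add e1 e2).trans (le_of_eq ?_)
  ring

theorem norm_q3 {θ₁ θ₂ θ₃ β₁ β₂ β₃ : ℂ} {a b U V W : ℝ} (ha : 0 ≤ a) (hb : 0 ≤ b)
    (hU : 0 ≤ U) (hV : 0 ≤ V) (hW : 0 ≤ W)
    (h1 : ‖θ₁‖ ≤ a * U) (h2 : ‖θ₂‖ ≤ a * V) (h3 : ‖θ₃‖ ≤ a * W)
    (g1 : ‖β₁‖ ≤ b * U) (g2 : ‖β₂‖ ≤ b * V) (g3 : ‖β₃‖ ≤ b * W) :
    ‖q3 θ₁ θ₂ θ₃ β₁ β₂ β₃‖ ≤ 3 * (a ^ 2 * b) * (U * V * W) := by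
  have key : ∀ {x y z : ℂ} {X Y Z : ℝ}, ‖x‖ ≤ X → ‖y‖ ≤ Y → ‖z‖ ≤ Z → ‖x * y * z‖ ≤ X * Y * Z := by
    intro x y z X Y Z hx hy hz
    rw [norm_mul, norm_mul]
    have hX := (norm_nonneg x).trans hx
    have hY := (norm_nonneg y).trans hy
    exact mul_le_mul (mul_le_mul hx hy (norm_nonneg _) hX) hz (norm_nonneg _) (mul_nonneg hX hY)
  have m1 := key h1 h2 g3
  have m2 := key h1 g2 h3
  have m3 := key g1 h2 h3
  unfold q3
  refine (norm_add_le _ _).trans ?_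
  refine (add_le_add ((norm_add_le _ _).trans (add_le_add m1 m2)) m3).trans (le_of_eq ?_)
  ring

theorem norm_k3 (u v w : Fin p → ℂ) :
    ‖k3 ρ t u v w‖ ≤ 600 * p * (ρ + xav t)⁻¹ ^ 2 * (‖u‖ * ‖v‖ * ‖w‖) := by
  have hX := X_pos hρ ht
  have hi : 0 ≤ (ρ + xav t)⁻¹ := (inv_pos.2 hX).le
  have hU := norm_nonneg u
  have hV := norm_nonneg v
  have hW := norm_nonneg w
  have e1 : ‖-(2 * (p:ℂ)) * (-2 * ((ρ + xav t)⁻¹ ^ 2 : ℝ) *
      q3 (thX ρ t u) (thX ρ t v) (thX ρ t w) (xC u) (xC v) (xC w))‖ ≤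
      2 * p * (2 * (ρ + xav t)⁻¹ ^ 2 * (3 * (‖u‖ * ‖v‖ * ‖w‖))) := by
    rw [norm_mul]
    have a1 : ‖-(2 * (p:ℂ))‖ = 2 * p := by
      rw [norm_neg, norm_mul, Complex.norm_ofNat, Complex.norm_natCast]
    rw [a1]
    refine mul_le_mul_of_nonneg_left ?_ (by positivity)
    rw [norm_mul, norm_mul, norm_neg, Complex.norm_ofNat, Complex.norm_real,
      Real.norm_of_nonneg (by positivity)]
    refine mul_le_mul_of_nonneg_left ?_ (by positivity)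
    have := norm_q3 hρ ht (a := 1) (b := 1) (U := ‖u‖) (V := ‖v‖) (W := ‖w‖) (by norm_num) (by norm_num)
      hU hV hW (θ₁ := thX ρ t u) (θ₂ := thX ρ t v) (θ₃ := thX ρ t w) (β₁ := xC u) (β₂ := xC v)
      (β₃ := xC w) (by simpa using norm_thX hρ ht u) (by simpa using norm_thX hρ ht v)
      (by simpa using norm_thX hρ ht w) (by simpa using norm_xC u) (by simpa using norm_xC v)
      (by simpa using norm_xC w)
    linarith
  have e2 : ‖∑ i, -2 * (((ρ + t i + xav t)⁻¹ ^ 2 : ℝ) : ℂ) *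
      q3 (thI ρ t i u) (thI ρ t i v) (thI ρ t i w) (u i + xC u) (v i + xC v) (w i + xC w)‖ ≤
      p * (2 * (ρ + xav t)⁻¹ ^ 2 * (294 * (‖u‖ * ‖v‖ * ‖w‖))) := by
    refine norm_sum_fin fun i => ?_
    have hwi : 0 ≤ (ρ + t i + xav t)⁻¹ := (inv_pos.2 (w_pos hρ ht i)).le
    rw [norm_mul, norm_mul, norm_neg, Complex.norm_ofNat, Complex.norm_real,
      Real.norm_of_nonneg (by positivity)]
    have := norm_q3 hρ ht (a := 7) (b := 2) (U := ‖u‖) (V := ‖v‖) (W := ‖w‖) (by norm_num) (by norm_num)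
      hU hV hW (norm_thI hρ ht i u) (norm_thI hρ ht i v) (norm_thI hρ ht i w) (norm_be hρ ht i u)
      (norm_be hρ ht i v) (norm_be hρ ht i w)
    refine mul_le_mul (mul_le_mul_of_nonneg_left
      (pow_le_pow_left₀ hwi (winv_le hρ ht i) 2) (by norm_num)) (by linarith) (norm_nonneg _)
      (by positivity)
  unfold k3
  refine (norm_add_le _ _).trans ?_
  refine (add_le_add e1 e2).trans (le_of_eq ?_)
  ring

theorem abs_blk (hp : 0 < p) :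
    |blk ρ t| ≤ (p * (p + 2) ^ 2 + 2 * p) * (ρ * (ρ + xav t)⁻¹) * xav t ^ 2 := by
  have hx := xav_nonneg ht
  have hX := X_pos hρ ht
  have hi : 0 ≤ (ρ + xav t)⁻¹ := (inv_pos.2 hX).le
  have hP : (0:ℝ) < p := by exact_mod_cast hp
  unfold blk
  rw [abs_mul, abs_of_pos hρ]
  have e1 : |∑ i, (t i - 2 * xav t) ^ 2 / (ρ + t i + xav t)| ≤
      p * ((p + 2) ^ 2 * xav t ^ 2 * (ρ + xav t)⁻¹) := by
    refine (Finset.abs_sum_le_sum_abs _ _).trans ?_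
    refine (Finset.sum_le_sum (g := fun _ => (p + 2) ^ 2 * xav t ^ 2 * (ρ + xav t)⁻¹)
      fun i _ => ?_).trans (by simp)
    have hw := w_pos hρ ht i
    rw [abs_div, abs_of_pos hw, abs_of_nonneg (sq_nonneg _), div_eq_mul_inv]
    have h1 := ht i
    have h2 := ti_le hp ht i
    have h5 : |t i - 2 * xav t| ≤ (p + 2) * xav t := by
      rw [abs_le]
      have : 0 ≤ (p : ℝ) * xav t := by positivity
      constructor <;> linarith
    have h6 : (t i - 2 * xav t) ^ 2 ≤ (p + 2) ^ 2 * xav t ^ 2 := by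
      rw [← sq_abs, ← mul_pow]
      exact pow_le_pow_left₀ (abs_nonneg _) h5 2
    exact mul_le_mul h6 (winv_le hρ ht i) (inv_pos.2 hw).le (by positivity)
  have e2 : |2 * (p:ℝ) * xav t ^ 2 / (ρ + xav t)| = 2 * p * xav t ^ 2 * (ρ + xav t)⁻¹ := by
    rw [div_eq_mul_inv, abs_of_nonneg (by positivity)]
  have e3 : |∑ i, (t i - 2 * xav t) ^ 2 / (ρ + t i + xav t) -
      2 * (p:ℝ) * xav t ^ 2 / (ρ + xav t)| ≤
      p * ((p + 2) ^ 2 * xav t ^ 2 * (ρ + xav t)⁻¹) + 2 * p * xav t ^ 2 * (ρ + xav t)⁻¹ := by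
    refine (abs_sub _ _).trans ?_
    rw [e2]
    linarith
  refine (mul_le_mul_of_nonneg_left e3 hρ.le).trans (le_of_eq ?_)
  ring

end

/-! ### sums over the blocks -/

theorem sum_inv_sq (N : ℕ) {x : ℝ} (hx : 0 ≤ x) :
    ∑ m ∈ Finset.range N, (2:ℝ) ^ m * ((2 ^ m + x)⁻¹ ^ 2) ≤ 2 * (1 + x)⁻¹ := by
  have key : ∀ m : ℕ, (2:ℝ) ^ m * ((2 ^ m + x)⁻¹ ^ 2) ≤
      2 * ((2 ^ m + x)⁻¹) - 2 * ((2 ^ (m + 1) + x)⁻¹) := by
    intro m
    have h2 : (0:ℝ) < 2 ^ m := by positivity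
    have hA : (0:ℝ) < 2 ^ m + x := by positivity
    have hB : (0:ℝ) < 2 ^ (m + 1) + x := by positivity
    have e1 : 2 * ((2:ℝ) ^ m + x)⁻¹ - 2 * ((2 ^ (m + 1) + x)⁻¹) =
        2 ^ m * (2 * ((2 ^ m + x) * (2 ^ (m + 1) + x))⁻¹) := by
      rw [pow_succ] at hB ⊢
      field_simp
      ring
    rw [e1]
    refine mul_le_mul_of_nonneg_left ?_ h2.le
    rw [inv_pow, ← div_eq_mul_inv, inv_eq_one_div, div_le_div_iff₀ (by positivity) (by positivity)]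
    rw [pow_succ]
    nlinarith
  have h1 : ∑ m ∈ Finset.range N, (2 * (((2:ℝ) ^ m + x)⁻¹) - 2 * ((2 ^ (m + 1) + x)⁻¹)) =
      2 * (((2:ℝ) ^ 0 + x)⁻¹) - 2 * ((2 ^ N + x)⁻¹) :=
    Finset.sum_range_sub' (fun m => 2 * (((2:ℝ) ^ m + x)⁻¹)) N
  refine (Finset.sum_le_sum fun m _ => key m).trans ?_
  rw [h1, pow_zero]
  have : (0:ℝ) ≤ 2 * ((2 ^ N + x)⁻¹) := by positivity
  linarith

theorem sum_inv_one (N : ℕ) {x : ℝ} (hx : 0 ≤ x) :
    ∑ m ∈ Finset.range N, (2:ℝ) ^ m * (2 ^ m + x)⁻¹ ≤ N := by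
  have key : ∀ m ∈ Finset.range N, (2:ℝ) ^ m * (2 ^ m + x)⁻¹ ≤ 1 := by
    intro m _
    have hA : (0:ℝ) < 2 ^ m + x := by positivity
    rw [← div_eq_mul_inv, div_le_one hA]
    linarith
  refine (Finset.sum_le_sum key).trans ?_
  simp

theorem sum_inv_sqrt (N : ℕ) {x : ℝ} (hx : 0 ≤ x) :
    ∑ m ∈ Finset.range N, (2:ℝ) ^ m * (2 ^ m + x)⁻¹ ≤ 3 * Real.sqrt (2 ^ N / (1 + x)) := by
  have key : ∀ m : ℕ, (2:ℝ) ^ m * (2 ^ m + x)⁻¹ ≤ Real.sqrt (2 ^ m / (1 + x)) := by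
    intro m
    have h1 : (1:ℝ) ≤ 2 ^ m := one_le_pow₀ (by norm_num)
    apply Real.le_sqrt_of_sq_le
    rw [← div_eq_mul_inv, div_pow, div_le_div_iff₀ (by positivity) (by positivity)]
    nlinarith [mul_nonneg (by positivity : (0:ℝ) ≤ 2 ^ m) hx,
      mul_nonneg (mul_nonneg (by positivity : (0:ℝ) ≤ 2 ^ m) (by positivity : (0:ℝ) ≤ 2 ^ m)) hx,
      mul_nonneg (by positivity : (0:ℝ) ≤ 2 ^ m) (sq_nonneg x),
      mul_le_mul_of_nonneg_left h1 (by positivity : (0:ℝ) ≤ 2 ^ m * 2 ^ m)]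
  have h2 : ∀ N : ℕ, ∑ m ∈ Finset.range N, Real.sqrt (2 ^ m / (1 + x)) ≤
      3 * Real.sqrt (2 ^ N / (1 + x)) := by
    intro N
    induction N with
    | zero => simp
    | succ N ih =>
      rw [Finset.sum_range_succ]
      have e : Real.sqrt (2 ^ (N + 1) / (1 + x)) = Real.sqrt 2 * Real.sqrt (2 ^ N / (1 + x)) := by
        rw [← Real.sqrt_mul (by norm_num)]
        congr 1
        rw [pow_succ]; ring
      rw [e]
      have h3 : (4:ℝ) / 3 ≤ Real.sqrt 2 := by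
        apply Real.le_sqrt_of_sq_le; norm_num
      nlinarith [Real.sqrt_nonneg (2 ^ N / (1 + x))]
  exact (Finset.sum_le_sum fun m _ => key m).trans (h2 N)

end T9aux

end

end Pool.Agent.H789.HSC


/-! ### part T9d -/

namespace Pool.Agent.H789.HSC

noncomputable section

variable {p : ℕ}

namespace T9aux

theorem norm_wsum (N : ℕ) {f : ℕ → ℂ} {g : ℕ → ℝ} {B : ℝ} (hB : 0 ≤ B)
    (h : ∀ m, ‖f m‖ ≤ g m * B) :
    ‖∑ m ∈ Finset.range N, ((2 ^ m / (4 * N) : ℝ) : ℂ) * f m‖ ≤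
      (1 / (4 * N)) * (∑ m ∈ Finset.range N, 2 ^ m * g m) * B := by
  refine (norm_sum_le _ _).trans ?_
  have : ∀ m ∈ Finset.range N, ‖((2 ^ m / (4 * N) : ℝ) : ℂ) * f m‖ ≤
      (1 / (4 * N)) * (2 ^ m * g m) * B := by
    intro m _
    rw [norm_mul, Complex.norm_real, Real.norm_of_nonneg (by positivity)]
    refine (mul_le_mul_of_nonneg_left (h m) (by positivity)).trans (le_of_eq ?_)
    ring
  refine (Finset.sum_le_sum this).trans (le_of_eq ?_)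
  rw [← Finset.sum_mul, ← Finset.mul_sum]

theorem sum_gN {N : ℕ} (hN : 1 ≤ N) {x : ℝ} (hx : 0 ≤ x) :
    (1 / (4 * N)) * (∑ m ∈ Finset.range N, (2:ℝ) ^ m * (2 ^ m + x)⁻¹) ≤ gN N x := by
  have hN' : (0:ℝ) < N := by exact_mod_cast hN
  have h1 := sum_inv_one N hx
  have h2 := sum_inv_sqrt N hx
  unfold gN
  refine le_min ?_ ?_
  · rw [one_div, inv_mul_le_iff₀ (by positivity)]
    linarith
  · rw [one_div, inv_mul_le_iff₀ (by positivity)]
    have e : 4 * (N:ℝ) * (Real.sqrt (2 ^ N / (1 + x)) / N) = 4 * Real.sqrt (2 ^ N / (1 + x)) := by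
      field_simp
    rw [e]
    have := Real.sqrt_nonneg (2 ^ N / (1 + x))
    linarith

end T9aux

open T9aux

theorem E0_D3 (hp : 2 ≤ p) : ∃ C : ℝ, ∀ N : ℕ, 1 ≤ N → ∀ (t : Fin p → ℝ), (∀ i, 0 ≤ t i) →
    ∀ u v w : Fin p → ℂ, ‖D3 (E0 N) t u v w‖ ≤ C / N * (‖u‖ * ‖v‖ * ‖w‖) / (1 + xav t) := by
  refine ⟨300 * p, fun N hN t ht u v w => ?_⟩
  have hN' : (0:ℝ) < N := by exact_mod_cast hN
  have hx := xav_nonneg ht
  rw [D3_E0 ht]
  have h1 := norm_wsum N (f := fun m => k3 (2 ^ m) t u v w)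
    (g := fun m => ((2 ^ m + xav t)⁻¹ ^ 2)) (B := 600 * p * (‖u‖ * ‖v‖ * ‖w‖)) (by positivity)
    fun m => (norm_k3 (by positivity) ht u v w).trans (le_of_eq (by ring))
  refine h1.trans ?_
  have h2 := sum_inv_sq N hx
  have h3 : 1 / (4 * (N:ℝ)) * (∑ m ∈ Finset.range N, (2:ℝ) ^ m * ((2 ^ m + xav t)⁻¹ ^ 2)) ≤
      1 / (4 * N) * (2 * (1 + xav t)⁻¹) := mul_le_mul_of_nonneg_left h2 (by positivity)
  refine (mul_le_mul_of_nonneg_right h3 (by positivity)).trans (le_of_eq ?_)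
  field_simp
  ring

theorem E0_upper (hp : 2 ≤ p) : ∃ C : ℝ, ∀ N : ℕ, 1 ≤ N → ∀ (t : Fin p → ℝ), (∀ i, 0 ≤ t i) →
    |E0 N t| ≤ C * gN N (xav t) * xav t ^ 2 ∧
    (∀ u : Fin p → ℂ, ‖D1 (E0 N) t u‖ ≤ C * gN N (xav t) * xav t * ‖u‖) ∧
    (∀ u v : Fin p → ℂ, ‖D2 (E0 N) t u v‖ ≤ C * gN N (xav t) * (‖u‖ * ‖v‖)) := by
  have hp0 : 0 < p := by omega
  refine ⟨(p * (p + 2) ^ 2 + 2 * p) + (6 * p + 10 * p * (p + 2)) + 102 * p,
    fun N hN t ht => ?_⟩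
  have hx := xav_nonneg ht
  have hg := sum_gN hN hx
  have hg0 : 0 ≤ gN N (xav t) := le_trans (by positivity) hg
  have hP : (0:ℝ) ≤ p := Nat.cast_nonneg p
  have hK : ∀ {K : ℝ}, K ≤ ((p:ℝ) * (p + 2) ^ 2 + 2 * p) + (6 * p + 10 * p * (p + 2)) + 102 * p →
      ∀ B : ℝ, 0 ≤ B → 0 ≤ K → 1 / (4 * (N:ℝ)) *
        (∑ m ∈ Finset.range N, (2:ℝ) ^ m * (2 ^ m + xav t)⁻¹) * (K * B) ≤
      (((p:ℝ) * (p + 2) ^ 2 + 2 * p) + (6 * p + 10 * p * (p + 2)) + 102 * p) *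
        gN N (xav t) * B := by
    intro K hK B hB hK0
    have h1 : 1 / (4 * (N:ℝ)) * (∑ m ∈ Finset.range N, (2:ℝ) ^ m * (2 ^ m + xav t)⁻¹) * (K * B) ≤
        gN N (xav t) * (K * B) := mul_le_mul_of_nonneg_right hg (by positivity)
    refine h1.trans ?_
    have h2 : K * (gN N (xav t) * B) ≤
        (((p:ℝ) * (p + 2) ^ 2 + 2 * p) + (6 * p + 10 * p * (p + 2)) + 102 * p) *
          (gN N (xav t) * B) := mul_le_mul_of_nonneg_right hK (by positivity)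
    linarith
  refine ⟨?_, fun u => ?_, fun u v => ?_⟩
  · have h1 : |E0 N t| ≤ 1 / (4 * (N:ℝ)) * (∑ m ∈ Finset.range N, (2:ℝ) ^ m * (2 ^ m + xav t)⁻¹) *
        ((p * (p + 2) ^ 2 + 2 * p) * xav t ^ 2) := by
      unfold E0
      rw [abs_mul, abs_of_nonneg (by positivity : (0:ℝ) ≤ 1 / (4 * N)), mul_assoc]
      refine mul_le_mul_of_nonneg_left ?_ (by positivity)
      refine (Finset.abs_sum_le_sum_abs _ _).trans ?_
      rw [Finset.sum_mul]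
      refine Finset.sum_le_sum fun m _ => ?_
      refine (abs_blk (by positivity) ht hp0).trans (le_of_eq ?_)
      ring
    exact h1.trans (hK (by nlinarith [mul_nonneg hP hP]) _ (by positivity) (by positivity))
  · rw [D1_E0 ht]
    have h1 := norm_wsum N (f := fun m => k1 (2 ^ m) t u)
      (g := fun m => (2 ^ m + xav t)⁻¹) (B := (6 * p + 10 * p * (p + 2)) * (xav t * ‖u‖))
      (by positivity) fun m => (norm_k1 (by positivity) ht hp0 u).trans (le_of_eq (by ring))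
    refine h1.trans ((hK (by nlinarith [mul_nonneg hP hP, mul_nonneg hP (sq_nonneg ((p:ℝ) + 2))]) _
      (by positivity) (by positivity)).trans (le_of_eq ?_))
    ring
  · rw [D2_E0 ht]
    have h1 := norm_wsum N (f := fun m => k2 (2 ^ m) t u v)
      (g := fun m => (2 ^ m + xav t)⁻¹) (B := (102 * p) * (‖u‖ * ‖v‖))
      (by positivity) fun m => (norm_k2 (by positivity) ht u v).trans (le_of_eq (by ring))
    exact h1.trans (hK (by nlinarith [mul_nonneg hP hP, mul_nonneg hP (sq_nonneg ((p:ℝ) + 2))]) _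
      (by positivity) (by positivity))

/-! ### lower bound of the second derivative -/

namespace T9aux

theorem normSq_sub' (a b : ℂ) : ‖a - b‖ ^ 2 = ‖a‖ ^ 2 - 2 * (a * conj b).re + ‖b‖ ^ 2 := by
  rw [← Complex.normSq_eq_norm_sq, ← Complex.normSq_eq_norm_sq, ← Complex.normSq_eq_norm_sq,
    Complex.normSq_sub]
  ring

theorem sum_norm_z (hp : 0 < p) (σ : Fin p → ℂ) :
    ∑ i, ‖σ i - 2 * xC σ‖ ^ 2 = ∑ i, ‖σ i‖ ^ 2 := by
  have h1 : ∀ i, ‖σ i - 2 * xC σ‖ ^ 2 =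
      ‖σ i‖ ^ 2 - 4 * (σ i * conj (xC σ)).re + 4 * ‖xC σ‖ ^ 2 := by
    intro i
    rw [normSq_sub', norm_mul, Complex.norm_ofNat]
    have : (σ i * conj (2 * xC σ)).re = 2 * (σ i * conj (xC σ)).re := by
      rw [map_mul, Complex.conj_ofNat]
      have : σ i * (2 * conj (xC σ)) = (2:ℝ) * (σ i * conj (xC σ)) := by push_cast; ring
      rw [this, Complex.re_ofReal_mul]
    rw [this]; ring
  simp only [h1]
  rw [Finset.sum_add_distrib, Finset.sum_sub_distrib, ← Finset.mul_sum, ← Complex.re_sum,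
    ← Finset.sum_mul, sum_eq_xC hp, Finset.sum_const, Finset.card_univ, Fintype.card_fin,
    nsmul_eq_mul]
  have : ((p:ℂ) * xC σ * conj (xC σ)).re = p * ‖xC σ‖ ^ 2 := by
    rw [mul_assoc, Complex.mul_conj, Complex.normSq_eq_norm_sq]
    rw [← Complex.ofReal_natCast, ← Complex.ofReal_mul, Complex.ofReal_re]
  rw [this]; ring

theorem xC_cone {k : ℕ} (hp : 0 < p) (hk : 2 * k ≤ p) {J : Finset (Fin p)} (hJ : J.card ≤ k)
    {σ : Fin p → ℂ} (hσ : ∀ i, i ∉ J → σ i = 0) :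
    2 * p * ‖xC σ‖ ^ 2 ≤ ∑ i, ‖σ i‖ ^ 2 := by
  have hP : (0:ℝ) < p := by exact_mod_cast hp
  have h1 : ∑ i, σ i = ∑ i ∈ J, σ i :=
    (Finset.sum_subset (Finset.subset_univ J) fun i _ hi => hσ i hi).symm
  have h2 : ‖∑ i, σ i‖ ^ 2 ≤ k * ∑ i, ‖σ i‖ ^ 2 := by
    rw [h1]
    calc ‖∑ i ∈ J, σ i‖ ^ 2 ≤ (∑ i ∈ J, ‖σ i‖) ^ 2 :=
          pow_le_pow_left₀ (norm_nonneg _) (norm_sum_le _ _) 2
      _ ≤ J.card * ∑ i ∈ J, ‖σ i‖ ^ 2 := sq_sum_le_card_mul_sum_sq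
      _ ≤ k * ∑ i, ‖σ i‖ ^ 2 := by
          refine mul_le_mul (by exact_mod_cast hJ) ?_ (Finset.sum_nonneg fun i _ => sq_nonneg _)
            (by positivity)
          exact Finset.sum_le_sum_of_subset_of_nonneg (Finset.subset_univ J)
            fun i _ _ => sq_nonneg _
  have h3 : ‖∑ i, σ i‖ ^ 2 = p ^ 2 * ‖xC σ‖ ^ 2 := by
    rw [sum_eq_xC hp, norm_mul, Complex.norm_natCast, mul_pow]
  rw [h3] at h2
  have h4 : (2:ℝ) * k ≤ p := by exact_mod_cast hk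
  have h5 : 0 ≤ ∑ i, ‖σ i‖ ^ 2 := Finset.sum_nonneg fun i _ => sq_nonneg _
  have h6 : p * (2 * p * ‖xC σ‖ ^ 2) ≤ p * ∑ i, ‖σ i‖ ^ 2 := by nlinarith
  exact le_of_mul_le_mul_left h6 hP

theorem xC_conj (u : Fin p → ℂ) : xC (fun i => conj (u i)) = conj (xC u) := by
  unfold xC
  rw [map_div₀, map_sum, Complex.conj_natCast]

theorem thI_conj (ρ : ℝ) (t : Fin p → ℝ) (i : Fin p) (u : Fin p → ℂ) :
    thI ρ t i (fun i => conj (u i)) = conj (thI ρ t i u) := by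
  unfold thI
  rw [xC_conj]
  simp only [map_sub, map_mul, map_add, Complex.conj_ofReal, Complex.conj_ofNat]

theorem thX_conj (ρ : ℝ) (t : Fin p → ℝ) (u : Fin p → ℂ) :
    thX ρ t (fun i => conj (u i)) = conj (thX ρ t u) := by
  unfold thX
  rw [xC_conj]
  simp only [map_sub, map_mul, Complex.conj_ofReal]

theorem k2_re {ρ : ℝ} {t : Fin p → ℝ} (σ : Fin p → ℂ) :
    (k2 ρ t σ (fun i => conj (σ i))).re = -(4 * p) * (ρ + xav t)⁻¹ * ‖thX ρ t σ‖ ^ 2 +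
      ∑ i, 2 * (ρ + t i + xav t)⁻¹ * ‖thI ρ t i σ‖ ^ 2 := by
  unfold k2
  rw [thX_conj]
  simp only [thI_conj, Complex.mul_conj, Complex.normSq_eq_norm_sq]
  rw [Complex.add_re, Complex.re_sum]
  congr 1
  · have : -(2 * (p:ℂ)) * (2 * ((ρ + xav t)⁻¹ : ℝ) * ((‖thX ρ t σ‖ ^ 2 : ℝ) : ℂ)) =
      ((-(4 * p) * (ρ + xav t)⁻¹ * ‖thX ρ t σ‖ ^ 2 : ℝ) : ℂ) := by push_cast; ring
    rw [this, Complex.ofReal_re]
  · refine Finset.sum_congr rfl fun i _ => ?_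
    have : 2 * (((ρ + t i + xav t)⁻¹ : ℝ) : ℂ) * ((‖thI ρ t i σ‖ ^ 2 : ℝ) : ℂ) =
      ((2 * (ρ + t i + xav t)⁻¹ * ‖thI ρ t i σ‖ ^ 2 : ℝ) : ℂ) := by push_cast; ring
    rw [this, Complex.ofReal_re]

theorem k2_lower {ρ : ℝ} {t : Fin p → ℝ} (hρ : 0 < ρ) (ht : ∀ i, 0 ≤ t i) {k : ℕ} (hp : 0 < p)
    (hk : 2 * k ≤ p) {J : Finset (Fin p)} (hJ : J.card ≤ k)
    {σ : Fin p → ℂ} (hσ : ∀ i, i ∉ J → σ i = 0) :
    -(p * (42 * p + 48) * (xav t * (ρ + xav t)⁻¹ ^ 2) * ‖σ‖ ^ 2) ≤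
      (k2 ρ t σ (fun i => conj (σ i))).re := by
  have hx := xav_nonneg ht
  have hX := X_pos hρ ht
  set r : ℝ := (ρ + xav t)⁻¹ with hr
  have hr0 : 0 ≤ r := (inv_pos.2 hX).le
  have hP : (0:ℝ) < p := by exact_mod_cast hp
  have hU := norm_nonneg σ
  rw [k2_re, ← hr]
  have e1 : ‖thX ρ t σ‖ ^ 2 ≤ ‖xC σ‖ ^ 2 := by
    refine pow_le_pow_left₀ (norm_nonneg _) ?_ 2
    rw [thX_eq hρ ht, norm_mul, Complex.norm_real, Real.norm_eq_abs]
    have h1 : |ρ * (ρ + xav t)⁻¹| ≤ 1 := by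
      rw [abs_of_nonneg (by positivity), ← div_eq_mul_inv, div_le_one hX]
      linarith
    calc |ρ * (ρ + xav t)⁻¹| * ‖xC σ‖ ≤ 1 * ‖xC σ‖ :=
          mul_le_mul_of_nonneg_right h1 (norm_nonneg _)
      _ = ‖xC σ‖ := one_mul _
  have e2 : ∀ i, 2 * r * ‖σ i - 2 * xC σ‖ ^ 2 - (42 * p + 48) * (xav t * r ^ 2) * ‖σ‖ ^ 2 ≤
      2 * (ρ + t i + xav t)⁻¹ * ‖thI ρ t i σ‖ ^ 2 := by
    intro i
    have hw := w_pos hρ ht i
    set s : ℝ := (ρ + t i + xav t)⁻¹ with hs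
    have hs0 : 0 ≤ s := (inv_pos.2 hw).le
    have hsr : s ≤ r := winv_le hρ ht i
    have hv := vI_abs' hρ ht hp i
    rw [← hr] at hv
    set z := σ i - 2 * xC σ with hz
    have hz3 : ‖z‖ ≤ 3 * ‖σ‖ := by
      refine (norm_sub_le _ _).trans ?_
      rw [norm_mul, Complex.norm_ofNat]
      have h1 := norm_xC σ
      have h2 := norm_le_pi_norm σ i
      linarith
    have hb := norm_be hρ ht i σ
    have h1 : ‖thI ρ t i σ‖ ≥ ‖z‖ - |vI ρ t i| * ‖σ i + xC σ‖ := by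
      unfold thI
      have := norm_sub_norm_le z ((vI ρ t i : ℂ) * (σ i + xC σ))
      rw [norm_mul, Complex.norm_real, Real.norm_eq_abs] at this
      exact this
    have hvb : |vI ρ t i| * ‖σ i + xC σ‖ ≤ (p + 2) * (xav t * r) * (2 * ‖σ‖) :=
      mul_le_mul hv hb (norm_nonneg _) (by positivity)
    have h2 : ‖z‖ ^ 2 - 12 * (p + 2) * (xav t * r) * ‖σ‖ ^ 2 ≤ ‖thI ρ t i σ‖ ^ 2 := by
      set β := |vI ρ t i| * ‖σ i + xC σ‖ with hβ
      have hβ0 : 0 ≤ β := by positivity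
      have hz0 := norm_nonneg z
      have h3 : ‖z‖ ^ 2 - 2 * (‖z‖ * β) ≤ ‖thI ρ t i σ‖ ^ 2 := by
        rcases le_total β ‖z‖ with hc | hc
        · have : (‖z‖ - β) ^ 2 ≤ ‖thI ρ t i σ‖ ^ 2 :=
            pow_le_pow_left₀ (by linarith) h1 2
          nlinarith [sq_nonneg β]
        · nlinarith [sq_nonneg ‖thI ρ t i σ‖]
      have h4 : ‖z‖ * β ≤ (3 * ‖σ‖) * ((p + 2) * (xav t * r) * (2 * ‖σ‖)) :=
        mul_le_mul hz3 hvb hβ0 (by positivity)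
      nlinarith
    have h5 : r - s ≤ p * xav t * r ^ 2 := by
      have h6 : r - s = t i * (r * s) := by
        rw [hr, hs]; field_simp; ring
      rw [h6]
      have h7 := ti_le hp ht i
      calc t i * (r * s) ≤ (p * xav t) * (r * r) :=
            mul_le_mul h7 (mul_le_mul_of_nonneg_left hsr hr0) (by positivity) (by positivity)
        _ = p * xav t * r ^ 2 := by ring
    have hz9 : ‖z‖ ^ 2 ≤ 9 * ‖σ‖ ^ 2 := by
      have := pow_le_pow_left₀ (norm_nonneg _) hz3 2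
      nlinarith
    have h8 : 2 * s * (‖z‖ ^ 2 - 12 * (p + 2) * (xav t * r) * ‖σ‖ ^ 2) ≤
        2 * s * ‖thI ρ t i σ‖ ^ 2 := mul_le_mul_of_nonneg_left h2 (by positivity)
    have h9 : s * ((p + 2) * (xav t * r) * ‖σ‖ ^ 2) ≤ r * ((p + 2) * (xav t * r) * ‖σ‖ ^ 2) :=
      mul_le_mul_of_nonneg_right hsr (by positivity)
    have h10 : (r - s) * ‖z‖ ^ 2 ≤ (p * xav t * r ^ 2) * (9 * ‖σ‖ ^ 2) :=
      mul_le_mul h5 hz9 (sq_nonneg _) (by positivity)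
    nlinarith
  have e3 : ∑ i, (2 * r * ‖σ i - 2 * xC σ‖ ^ 2 - (42 * p + 48) * (xav t * r ^ 2) * ‖σ‖ ^ 2) =
      2 * r * ∑ i, ‖σ i‖ ^ 2 - p * ((42 * p + 48) * (xav t * r ^ 2) * ‖σ‖ ^ 2) := by
    rw [Finset.sum_sub_distrib, ← Finset.mul_sum, sum_norm_z hp, Finset.sum_const,
      Finset.card_univ, Fintype.card_fin, nsmul_eq_mul]
  have e4 := Finset.sum_le_sum fun i (_ : i ∈ Finset.univ) => e2 i
  rw [e3] at e4
  have e5 := xC_cone hp hk hJ hσ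
  have e6 : 4 * p * r * ‖thX ρ t σ‖ ^ 2 ≤ 4 * p * r * ‖xC σ‖ ^ 2 :=
    mul_le_mul_of_nonneg_left e1 (by positivity)
  have e7 : 2 * r * (2 * p * ‖xC σ‖ ^ 2) ≤ 2 * r * ∑ i, ‖σ i‖ ^ 2 :=
    mul_le_mul_of_nonneg_left e5 (by positivity)
  linarith

end T9aux

theorem E0_D2_lower (hp : 2 ≤ p) {k : ℕ} (hk : 2 * k + 1 ≤ p) :
    ∃ C : ℝ, ∃ ε : ℝ, 0 < ε ∧ ∀ N : ℕ, 1 ≤ N → ∀ (t : Fin p → ℝ) (J : Finset (Fin p))
      (σ : Fin p → ℂ), ConeDir k ε t J σ →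
      -(C / N) * ‖σ‖ ^ 2 ≤ (D2 (E0 N) t σ (fun i => conj (σ i))).re := by
  refine ⟨p * (42 * p + 48), 1, one_pos, fun N hN t J σ h => ?_⟩
  obtain ⟨ht, hJ, -, hσ⟩ := h
  have hN' : (0:ℝ) < N := by exact_mod_cast hN
  have hx := xav_nonneg ht
  rw [D2_E0 ht, Complex.re_sum]
  have h1 : ∀ m ∈ Finset.range N,
      -(1 / (4 * N) * (p * (42 * p + 48) * ‖σ‖ ^ 2 * xav t) * (2 ^ m * ((2 ^ m + xav t)⁻¹ ^ 2))) ≤
      (((2 ^ m / (4 * N) : ℝ) : ℂ) * k2 (2 ^ m) t σ (fun i => conj (σ i))).re := by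
    intro m _
    rw [Complex.re_ofReal_mul]
    have h2 := k2_lower (ρ := 2 ^ m) (by positivity) ht (k := k) (by omega) (by omega) hJ hσ
    have h3 := mul_le_mul_of_nonneg_left h2 (by positivity : (0:ℝ) ≤ 2 ^ m / (4 * N))
    refine le_trans (le_of_eq ?_) h3
    ring
  refine le_trans ?_ (Finset.sum_le_sum h1)
  rw [Finset.sum_neg_distrib, ← Finset.mul_sum]
  have h4 := sum_inv_sq N hx
  have h5 : xav t * (2 * (1 + xav t)⁻¹) ≤ 2 := by
    have : (1 + xav t)⁻¹ * (1 + xav t) = 1 := inv_mul_cancel₀ (by positivity)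
    have h6 : 0 < (1 + xav t)⁻¹ := by positivity
    nlinarith
  have h6 : xav t * (∑ m ∈ Finset.range N, (2:ℝ) ^ m * ((2 ^ m + xav t)⁻¹ ^ 2)) ≤ 2 :=
    (mul_le_mul_of_nonneg_left h4 hx).trans h5
  have h7 : 1 / (4 * (N:ℝ)) * (p * (42 * p + 48) * ‖σ‖ ^ 2 * xav t) *
      (∑ m ∈ Finset.range N, (2:ℝ) ^ m * ((2 ^ m + xav t)⁻¹ ^ 2)) ≤
      1 / (4 * (N:ℝ)) * (p * (42 * p + 48) * ‖σ‖ ^ 2) * 2 := by
    have := mul_le_mul_of_nonneg_left h6
      (by positivity : (0:ℝ) ≤ 1 / (4 * (N:ℝ)) * (p * (42 * p + 48) * ‖σ‖ ^ 2))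
    refine le_trans (le_of_eq ?_) this
    ring
  have h8 : 1 / (4 * (N:ℝ)) * (p * (42 * p + 48) * ‖σ‖ ^ 2) * 2 ≤
      (p * (42 * p + 48)) / N * ‖σ‖ ^ 2 := by
    have e : 1 / (4 * (N:ℝ)) * (p * (42 * p + 48) * ‖σ‖ ^ 2) * 2 =
        ((p * (42 * p + 48)) / N * ‖σ‖ ^ 2) / 2 := by field_simp; ring
    rw [e]
    have : (0:ℝ) ≤ (p * (42 * p + 48)) / N * ‖σ‖ ^ 2 := by positivity
    linarith
  linarith

end

end Pool.Agent.H789.HSC


/-! ### part T9e -/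

namespace Pool.Agent.H789.HSC

noncomputable section

variable {p : ℕ}

namespace T9aux

theorem q4_ge (θ β : ℂ) : 2 * (‖θ‖ ^ 2 * ‖β‖ ^ 2) ≤
    (q4 θ θ (conj θ) (conj θ) β β (conj β) (conj β)).re := by
  have h : q4 θ θ (conj θ) (conj θ) β β (conj β) (conj β) =
      (θ * conj β) ^ 2 + conj ((θ * conj β) ^ 2) + 4 * ((θ * conj θ) * (β * conj β)) := by
    unfold q4
    simp only [map_pow, map_mul, Complex.conj_conj]
    ring
  rw [h, Complex.mul_conj, Complex.mul_conj, Complex.normSq_eq_norm_sq, Complex.normSq_eq_norm_sq]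
  set g := θ * conj β with hg
  have hg2 : ‖g‖ ^ 2 = ‖θ‖ ^ 2 * ‖β‖ ^ 2 := by
    rw [hg, norm_mul, Complex.norm_conj, mul_pow]
  have h1 : (g ^ 2 + conj (g ^ 2) + 4 * (((‖θ‖ ^ 2 : ℝ) : ℂ) * ((‖β‖ ^ 2 : ℝ) : ℂ))).re =
      2 * (g ^ 2).re + 4 * (‖θ‖ ^ 2 * ‖β‖ ^ 2) := by
    rw [Complex.add_re, Complex.add_re, Complex.conj_re]
    have : (4 * (((‖θ‖ ^ 2 : ℝ) : ℂ) * ((‖β‖ ^ 2 : ℝ) : ℂ))) =
      ((4 * (‖θ‖ ^ 2 * ‖β‖ ^ 2) : ℝ) : ℂ) := by push_cast; ring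
    rw [this, Complex.ofReal_re]; ring
  rw [h1]
  have h2 : -(‖g‖ ^ 2) ≤ (g ^ 2).re := by
    have := Complex.abs_re_le_norm (g ^ 2)
    rw [norm_pow] at this
    exact (abs_le.1 this).1
  rw [hg2] at h2
  linarith

theorem q4_real (s : ℝ) (β : ℂ) :
    q4 (s * β) (s * β) (conj (s * β)) (conj (s * β)) β β (conj β) (conj β) =
      ((6 * s ^ 2 * ‖β‖ ^ 4 : ℝ) : ℂ) := by
  have h1 : β * conj β = ((‖β‖ ^ 2 : ℝ) : ℂ) := by
    rw [Complex.mul_conj, Complex.normSq_eq_norm_sq]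
  have h2 : q4 (s * β) (s * β) (conj (s * β)) (conj (s * β)) β β (conj β) (conj β) =
      6 * (s : ℂ) ^ 2 * (β * conj β) ^ 2 := by
    unfold q4
    simp only [map_mul, Complex.conj_ofReal]
    ring
  rw [h2, h1]; push_cast; ring

theorem pow5 {ε : ℝ} (h : 0 ≤ ε) : (1 + ε) ^ 5 * (1 - 5 * ε) ≤ 1 := by
  have : 1 - (1 + ε) ^ 5 * (1 - 5 * ε) = 15 * ε ^ 2 + 40 * ε ^ 3 + 45 * ε ^ 4 + 24 * ε ^ 5 + 5 * ε ^ 6 := by
    ring
  have h2 : 0 ≤ 15 * ε ^ 2 + 40 * ε ^ 3 + 45 * ε ^ 4 + 24 * ε ^ 5 + 5 * ε ^ 6 := by positivity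
  linarith

theorem k4_re {ρ : ℝ} {t : Fin p → ℝ} (τ : Fin p → ℂ) :
    (k4 ρ t τ τ (fun i => conj (τ i)) (fun i => conj (τ i))).re =
      -(8 * p) * (ρ + xav t)⁻¹ ^ 3 *
        (q4 (thX ρ t τ) (thX ρ t τ) (conj (thX ρ t τ)) (conj (thX ρ t τ)) (xC τ) (xC τ)
          (conj (xC τ)) (conj (xC τ))).re +
      ∑ i, 4 * (ρ + t i + xav t)⁻¹ ^ 3 *
        (q4 (thI ρ t i τ) (thI ρ t i τ) (conj (thI ρ t i τ)) (conj (thI ρ t i τ))
          (τ i + xC τ) (τ i + xC τ) (conj (τ i + xC τ)) (conj (τ i + xC τ))).re := by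
  unfold k4
  rw [thX_conj, xC_conj]
  simp only [thI_conj]
  rw [Complex.add_re, Complex.re_sum]
  congr 1
  · set Q := q4 (thX ρ t τ) (thX ρ t τ) (conj (thX ρ t τ)) (conj (thX ρ t τ)) (xC τ) (xC τ)
      (conj (xC τ)) (conj (xC τ))
    have : -(2 * (p:ℂ)) * (4 * ((ρ + xav t)⁻¹ ^ 3 : ℝ) * Q) =
      ((-(8 * p) * (ρ + xav t)⁻¹ ^ 3 : ℝ) : ℂ) * Q := by push_cast; ring
    rw [this, Complex.re_ofReal_mul]
  · refine Finset.sum_congr rfl fun i _ => ?_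
    rw [map_add]
    set Q := q4 (thI ρ t i τ) (thI ρ t i τ) (conj (thI ρ t i τ)) (conj (thI ρ t i τ))
      (τ i + xC τ) (τ i + xC τ) (conj (τ i) + conj (xC τ)) (conj (τ i) + conj (xC τ))
    have : 4 * (((ρ + t i + xav t)⁻¹ ^ 3 : ℝ) : ℂ) * Q =
      ((4 * (ρ + t i + xav t)⁻¹ ^ 3 : ℝ) : ℂ) * Q := by push_cast; ring
    rw [this, Complex.re_ofReal_mul]

theorem k4_lower {ρ : ℝ} {t : Fin p → ℝ} (hρ : 1 ≤ ρ) {k : ℕ} (hp : 2 ≤ p)
    (hk : 2 * k + 1 ≤ p) {J : Finset (Fin p)} {τ : Fin p → ℂ}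
    (hc : ConeDir k (1 / (20 * p)) t J τ) :
    24 * ρ ^ 2 * (ρ + xav t)⁻¹ ^ 5 * ‖xC τ‖ ^ 4 +
      ∑ i ∈ J, 8 * (ρ + t i + xav t)⁻¹ ^ 3 * (‖thI ρ t i τ‖ ^ 2 * ‖τ i + xC τ‖ ^ 2) ≤
    (k4 ρ t τ τ (fun i => conj (τ i)) (fun i => conj (τ i))).re := by
  obtain ⟨ht, hJ, hε, hτ⟩ := hc
  have hρ0 : 0 < ρ := by linarith
  have hx := xav_nonneg ht
  have hX := X_pos hρ0 ht
  set X : ℝ := ρ + xav t with hXd
  set r : ℝ := X⁻¹ with hr
  have hr0 : 0 ≤ r := (inv_pos.2 hX).le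
  have hP2 : (2:ℝ) ≤ p := by exact_mod_cast hp
  have hP : (0:ℝ) < p := by linarith
  set ε : ℝ := 1 / (20 * p) with hεd
  have hε0 : 0 < ε := by positivity
  have hT := norm_nonneg (xC τ)
  rw [k4_re]
  -- the x-term
  have e1 : (q4 (thX ρ t τ) (thX ρ t τ) (conj (thX ρ t τ)) (conj (thX ρ t τ)) (xC τ) (xC τ)
          (conj (xC τ)) (conj (xC τ))).re = 6 * (ρ * r) ^ 2 * ‖xC τ‖ ^ 4 := by
    rw [thX_eq hρ0 ht, q4_real, Complex.ofReal_re]
  rw [e1]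
  -- split the sum
  rw [← Finset.sum_add_sum_compl J]
  have e2 : ∑ i ∈ J, 8 * (ρ + t i + xav t)⁻¹ ^ 3 * (‖thI ρ t i τ‖ ^ 2 * ‖τ i + xC τ‖ ^ 2) ≤
      ∑ i ∈ J, 4 * (ρ + t i + xav t)⁻¹ ^ 3 *
        (q4 (thI ρ t i τ) (thI ρ t i τ) (conj (thI ρ t i τ)) (conj (thI ρ t i τ))
          (τ i + xC τ) (τ i + xC τ) (conj (τ i + xC τ)) (conj (τ i + xC τ))).re := by
    refine Finset.sum_le_sum fun i _ => ?_
    have hw := w_pos hρ0 ht i
    have h1 := q4_ge (thI ρ t i τ) (τ i + xC τ)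
    have h2 := mul_le_mul_of_nonneg_left h1
      (by positivity : (0:ℝ) ≤ 4 * (ρ + t i + xav t)⁻¹ ^ 3)
    refine le_trans (le_of_eq ?_) h2
    ring
  have e3 : (p - k : ℝ) * (96 * ρ ^ 2 * (r ^ 5 * (1 - 5 * ε)) * ‖xC τ‖ ^ 4) ≤
      ∑ i ∈ Jᶜ, 4 * (ρ + t i + xav t)⁻¹ ^ 3 *
        (q4 (thI ρ t i τ) (thI ρ t i τ) (conj (thI ρ t i τ)) (conj (thI ρ t i τ))
          (τ i + xC τ) (τ i + xC τ) (conj (τ i + xC τ)) (conj (τ i + xC τ))).re := by
    have hterm : ∀ i ∈ Jᶜ, 96 * ρ ^ 2 * (r ^ 5 * (1 - 5 * ε)) * ‖xC τ‖ ^ 4 ≤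
        4 * (ρ + t i + xav t)⁻¹ ^ 3 *
        (q4 (thI ρ t i τ) (thI ρ t i τ) (conj (thI ρ t i τ)) (conj (thI ρ t i τ))
          (τ i + xC τ) (τ i + xC τ) (conj (τ i + xC τ)) (conj (τ i + xC τ))).re := by
      intro i hi
      have hi' : i ∉ J := Finset.mem_compl.1 hi
      have h0 := hτ i hi'
      have hti := ht i
      have hte := hε i hi'
      have hw := w_pos hρ0 ht i
      have hth : thI ρ t i τ = ((-(2 * ρ + 3 * t i) * (ρ + t i + xav t)⁻¹ : ℝ) : ℂ) * xC τ := by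
        unfold thI vI
        rw [h0]
        have : (-(2 * ρ + 3 * t i) * (ρ + t i + xav t)⁻¹ : ℝ) =
            -2 - (t i - 2 * xav t) * (ρ + t i + xav t)⁻¹ := by
          field_simp; ring
        rw [this]; push_cast; ring
      have hbe : τ i + xC τ = xC τ := by rw [h0, zero_add]
      rw [hbe, hth, q4_real, Complex.ofReal_re]
      set w : ℝ := ρ + t i + xav t with hwd
      have hwX : w ≤ (1 + ε) * X := by
        have : ε ≤ ε * X := by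
          have : 1 ≤ X := by linarith
          nlinarith
        have : w = X + t i := by rw [hwd, hXd]; ring
        nlinarith
      have hs5 : r ^ 5 * (1 - 5 * ε) ≤ w⁻¹ ^ 5 := by
        have h1 : w ^ 5 ≤ (1 + ε) ^ 5 * X ^ 5 := by
          rw [← mul_pow]
          exact pow_le_pow_left₀ hw.le hwX 5
        have h2 := pow5 hε0.le
        rw [hr, inv_pow, inv_pow, inv_mul_le_iff₀ (by positivity), ← div_eq_mul_inv,
          le_div_iff₀ (by positivity)]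
        have h5 : 0 ≤ 1 - 5 * ε := by
          have : 5 * ε ≤ 1 := by
            rw [hεd]
            rw [← mul_div_assoc, div_le_one (by positivity)]
            linarith
          linarith
        calc (1 - 5 * ε) * w ^ 5 ≤ (1 - 5 * ε) * ((1 + ε) ^ 5 * X ^ 5) :=
              mul_le_mul_of_nonneg_left h1 h5
          _ = ((1 + ε) ^ 5 * (1 - 5 * ε)) * X ^ 5 := by ring
          _ ≤ 1 * X ^ 5 := mul_le_mul_of_nonneg_right h2 (by positivity)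
          _ = X ^ 5 := one_mul _
      have h4 : 4 * ρ ^ 2 ≤ (2 * ρ + 3 * t i) ^ 2 := by nlinarith
      have e4 : 4 * w⁻¹ ^ 3 * (6 * (-(2 * ρ + 3 * t i) * w⁻¹) ^ 2 * ‖xC τ‖ ^ 4) =
          24 * ((2 * ρ + 3 * t i) ^ 2 * w⁻¹ ^ 5) * ‖xC τ‖ ^ 4 := by ring
      rw [e4]
      have h6 : 4 * ρ ^ 2 * (r ^ 5 * (1 - 5 * ε)) ≤ (2 * ρ + 3 * t i) ^ 2 * w⁻¹ ^ 5 := by
        calc 4 * ρ ^ 2 * (r ^ 5 * (1 - 5 * ε)) ≤ 4 * ρ ^ 2 * w⁻¹ ^ 5 :=
              mul_le_mul_of_nonneg_left hs5 (by positivity)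
          _ ≤ (2 * ρ + 3 * t i) ^ 2 * w⁻¹ ^ 5 := mul_le_mul_of_nonneg_right h4 (by positivity)
      have h7 := mul_le_mul_of_nonneg_right h6 (by positivity : (0:ℝ) ≤ 24 * ‖xC τ‖ ^ 4)
      linarith
    have h8 := Finset.card_nsmul_le_sum Jᶜ _ _ hterm
    refine le_trans ?_ h8
    rw [nsmul_eq_mul]
    refine mul_le_mul_of_nonneg_right ?_ ?_
    · rw [Finset.card_compl, Fintype.card_fin, Nat.cast_sub (by
        have := J.card_le_univ; rwa [Fintype.card_fin] at this)]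
      have : (J.card : ℝ) ≤ k := by exact_mod_cast hJ
      linarith
    · have : 5 * ε ≤ 1 := by
        rw [hεd, ← mul_div_assoc, div_le_one (by positivity)]
        linarith
      have h5 : 0 ≤ 1 - 5 * ε := by linarith
      positivity
  have e5 : 24 * ρ ^ 2 * r ^ 5 * ‖xC τ‖ ^ 4 ≤
      -(8 * p) * r ^ 3 * (6 * (ρ * r) ^ 2 * ‖xC τ‖ ^ 4) +
      (p - k : ℝ) * (96 * ρ ^ 2 * (r ^ 5 * (1 - 5 * ε)) * ‖xC τ‖ ^ 4) := by
    have hk' : (2:ℝ) * k + 1 ≤ p := by exact_mod_cast hk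
    have h1 : 1 ≤ 4 * (p - k : ℝ) * (1 - 5 * ε) - 2 * p := by
      have h2 : (2 * p + 2 : ℝ) ≤ 4 * (p - k) := by linarith
      have h3 : (1:ℝ) - 5 * ε = 1 - 1 / (4 * p) := by rw [hεd]; field_simp; ring
      rw [h3]
      have h4 : 0 ≤ 1 - 1 / (4 * (p:ℝ)) := by
        have : 1 / (4 * (p:ℝ)) ≤ 1 := by
          rw [div_le_one (by positivity)]; linarith
        linarith
      have h5 : (2 * p + 2 : ℝ) * (1 - 1 / (4 * p)) ≤ 4 * (p - k) * (1 - 1 / (4 * p)) :=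
        mul_le_mul_of_nonneg_right h2 h4
      have h6 : (2 * p + 2 : ℝ) * (1 - 1 / (4 * p)) = 2 * p + 2 - (1 / 2 + 1 / (2 * p)) := by
        field_simp; ring
      have h7 : 1 / (2 * (p:ℝ)) ≤ 1 / 4 := by
        rw [div_le_div_iff₀ (by positivity) (by norm_num)]; linarith
      linarith
    have h2 := mul_le_mul_of_nonneg_right h1
      (by positivity : (0:ℝ) ≤ 24 * ρ ^ 2 * r ^ 5 * ‖xC τ‖ ^ 4)
    rw [one_mul] at h2
    refine h2.trans (le_of_eq ?_)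
    ring
  linarith

theorem exists_scale {N : ℕ} (hN : 1 ≤ N) {y : ℝ} (h1 : 1 ≤ y) (h2 : y ≤ 2 ^ N) :
    ∃ m : ℕ, m < N ∧ (2:ℝ) ^ m ≤ y ∧ y ≤ 2 ^ (m + 1) := by
  classical
  have hex : ∃ m : ℕ, y ≤ 2 ^ (m + 1) := ⟨N - 1, by
    have : N - 1 + 1 = N := by omega
    rwa [this]⟩
  refine ⟨Nat.find hex, ?_, ?_, Nat.find_spec hex⟩
  · have : Nat.find hex ≤ N - 1 := Nat.find_min' hex (by
      have : N - 1 + 1 = N := by omega
      rwa [this])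
    omega
  · rcases Nat.eq_zero_or_pos (Nat.find hex) with h | h
    · rw [h, pow_zero]; exact h1
    · have h3 := Nat.find_min hex (m := Nat.find hex - 1) (by omega)
      have h4 : Nat.find hex - 1 + 1 = Nat.find hex := by omega
      rw [h4] at h3
      exact (not_le.1 h3).le

theorem exists_norm_eq (hp : 0 < p) (τ : Fin p → ℂ) : ∃ j, ‖τ j‖ = ‖τ‖ := by
  have : Nonempty (Fin p) := ⟨⟨0, hp⟩⟩
  obtain ⟨j, hj⟩ := Finite.exists_max fun i => ‖τ i‖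
  exact ⟨j, le_antisymm (norm_le_pi_norm τ j) ((pi_norm_le_iff_of_nonneg (norm_nonneg _)).2 hj)⟩

/-- the block at the right scale -/
theorem k4_scale {ρ : ℝ} {t : Fin p → ℝ} (hρ : 1 ≤ ρ) {k : ℕ} (hp : 2 ≤ p)
    (hk : 2 * k + 1 ≤ p) {J : Finset (Fin p)} {τ : Fin p → ℂ}
    (hc : ConeDir k (1 / (20 * p)) t J τ) (h1 : ρ ≤ 1 + xav t) (h2 : 1 + xav t ≤ 2 * ρ) {d : ℝ}
    (hd : d = 1 / (16 * (p + 2))) :
    d ^ 5 * ‖τ‖ ^ 4 / (1 + xav t) ^ 2 ≤
      ρ * (k4 ρ t τ τ (fun i => conj (τ i)) (fun i => conj (τ i))).re := by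
  have hlow := k4_lower hρ hp hk hc
  obtain ⟨ht, hJ, hε, hτ⟩ := hc
  have hρ0 : 0 < ρ := by linarith
  have hx := xav_nonneg ht
  have hX := X_pos hρ0 ht
  have hP2 : (2:ℝ) ≤ p := by exact_mod_cast hp
  have hd0 : 0 < d := by rw [hd]; positivity
  have hd1 : d ≤ 1 / 64 := by
    rw [hd]
    rw [div_le_div_iff₀ (by positivity) (by norm_num)]; linarith
  set Y : ℝ := 1 + xav t with hY
  have hY0 : 0 < Y := by linarith
  have hsum0 : 0 ≤ ∑ i ∈ J, 8 * (ρ + t i + xav t)⁻¹ ^ 3 * (‖thI ρ t i τ‖ ^ 2 * ‖τ i + xC τ‖ ^ 2) :=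
    Finset.sum_nonneg fun i _ => by
      have := w_pos hρ0 ht i
      positivity
  have hfirst0 : 0 ≤ 24 * ρ ^ 2 * (ρ + xav t)⁻¹ ^ 5 * ‖xC τ‖ ^ 4 := by positivity
  have hU := norm_nonneg τ
  rcases le_or_gt (d * ‖τ‖) ‖xC τ‖ with hcase | hcase
  · -- case A
    have hr : 1 / (2 * Y) ≤ (ρ + xav t)⁻¹ := by
      rw [inv_eq_one_div]
      exact one_div_le_one_div_of_le hX (by linarith)
    have h3 : d ^ 4 * ‖τ‖ ^ 4 ≤ ‖xC τ‖ ^ 4 := by
      rw [← mul_pow]; exact pow_le_pow_left₀ (by positivity) hcase 4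
    have h4 : (1 / (2 * Y)) ^ 5 ≤ (ρ + xav t)⁻¹ ^ 5 := pow_le_pow_left₀ (by positivity) hr 5
    have h5 : (Y / 2) ^ 3 ≤ ρ ^ 3 := pow_le_pow_left₀ (by positivity) (by linarith) 3
    have h6 : 24 * ((Y / 2) ^ 3 * (1 / (2 * Y)) ^ 5) * (d ^ 4 * ‖τ‖ ^ 4) ≤
        24 * (ρ ^ 3 * (ρ + xav t)⁻¹ ^ 5) * ‖xC τ‖ ^ 4 := by
      refine mul_le_mul (mul_le_mul_of_nonneg_left (mul_le_mul h5 h4 (by positivity) (by positivity))
        (by norm_num)) h3 (by positivity) (by positivity)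
    have h7 : d ^ 5 * ‖τ‖ ^ 4 / Y ^ 2 ≤ 24 * ((Y / 2) ^ 3 * (1 / (2 * Y)) ^ 5) * (d ^ 4 * ‖τ‖ ^ 4) := by
      have e : 24 * ((Y / 2) ^ 3 * (1 / (2 * Y)) ^ 5) * (d ^ 4 * ‖τ‖ ^ 4) =
          (24 / 256) * (d ^ 4 * ‖τ‖ ^ 4 / Y ^ 2) := by field_simp; ring
      have e' : d ^ 5 * ‖τ‖ ^ 4 / Y ^ 2 = d * (d ^ 4 * ‖τ‖ ^ 4 / Y ^ 2) := by ring
      rw [e, e']
      exact mul_le_mul_of_nonneg_right (by linarith) (by positivity)
    have h8 : 24 * (ρ ^ 3 * (ρ + xav t)⁻¹ ^ 5) * ‖xC τ‖ ^ 4 =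
        ρ * (24 * ρ ^ 2 * (ρ + xav t)⁻¹ ^ 5 * ‖xC τ‖ ^ 4) := by ring
    have h9 : ρ * (24 * ρ ^ 2 * (ρ + xav t)⁻¹ ^ 5 * ‖xC τ‖ ^ 4) ≤
        ρ * (k4 ρ t τ τ (fun i => conj (τ i)) (fun i => conj (τ i))).re :=
      mul_le_mul_of_nonneg_left (by linarith) hρ0.le
    linarith
  · -- case B
    obtain ⟨j, hj⟩ := exists_norm_eq (by omega : 0 < p) τ
    have hτ0 : 0 < ‖τ‖ := by
      rcases hU.lt_or_eq with h | h
      · exact h
      · rw [← h, mul_zero] at hcase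
        exact absurd hcase (not_lt.2 (norm_nonneg _))
    have hjJ : j ∈ J := by
      by_contra hcon
      have := hτ j hcon
      rw [this, norm_zero] at hj
      linarith
    have hw := w_pos hρ0 ht j
    have htj := ti_le (by omega : 0 < p) ht j
    have htj0 := ht j
    set w : ℝ := ρ + t j + xav t with hwd
    have hwle : w ≤ (p + 2) * Y := by
      rw [hwd, hY]
      nlinarith
    have hp2 : 1 / ((p:ℝ) + 2) = 16 * d := by rw [hd]; field_simp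
    have hs : 16 * d / Y ≤ w⁻¹ := by
      rw [← hp2, div_div, inv_eq_one_div]
      exact one_div_le_one_div_of_le hw hwle
    have hv := vI_abs hρ0 ht j
    have hv1 : 8 * d ≤ 1 - vI ρ t j := by
      have e : 1 - vI ρ t j = (ρ + 3 * xav t) * w⁻¹ := by
        unfold vI
        rw [← hwd]
        have : w ≠ 0 := hw.ne'
        field_simp
        rw [hwd]; ring
      rw [e]
      have h3 : Y / 2 ≤ ρ + 3 * xav t := by linarith
      calc 8 * d = (Y / 2) * (16 * d / Y) := by field_simp; ring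
        _ ≤ (ρ + 3 * xav t) * w⁻¹ := mul_le_mul h3 hs (by positivity) (by positivity)
    have hth : 4 * d * ‖τ‖ ≤ ‖thI ρ t j τ‖ := by
      have e : thI ρ t j τ = ((1 - vI ρ t j : ℝ) : ℂ) * τ j - ((2 + vI ρ t j : ℝ) : ℂ) * xC τ := by
        unfold thI; push_cast; ring
      have h3 := norm_sub_norm_le (((1 - vI ρ t j : ℝ) : ℂ) * τ j) (((2 + vI ρ t j : ℝ) : ℂ) * xC τ)
      rw [← e, norm_mul, norm_mul, Complex.norm_real, Complex.norm_real,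
        Real.norm_of_nonneg (by linarith : 0 ≤ 1 - vI ρ t j), hj, Real.norm_eq_abs] at h3
      have h4 : |2 + vI ρ t j| ≤ 4 := by
        rw [abs_le] at hv ⊢
        constructor <;> linarith [hv.1, hv.2]
      have h5 : |2 + vI ρ t j| * ‖xC τ‖ ≤ 4 * (d * ‖τ‖) :=
        mul_le_mul h4 hcase.le (norm_nonneg _) (by norm_num)
      have h6 : 8 * d * ‖τ‖ ≤ (1 - vI ρ t j) * ‖τ‖ := mul_le_mul_of_nonneg_right hv1 hU
      linarith
    have hbe : ‖τ‖ / 2 ≤ ‖τ j + xC τ‖ := by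
      have h3 := norm_sub_norm_le (τ j) (-(xC τ))
      rw [sub_neg_eq_add, norm_neg, hj] at h3
      nlinarith
    have h3 : (16 * d / Y) ^ 3 ≤ w⁻¹ ^ 3 := pow_le_pow_left₀ (by positivity) hs 3
    have h4 : (4 * d * ‖τ‖) ^ 2 ≤ ‖thI ρ t j τ‖ ^ 2 := pow_le_pow_left₀ (by positivity) hth 2
    have h5 : (‖τ‖ / 2) ^ 2 ≤ ‖τ j + xC τ‖ ^ 2 := pow_le_pow_left₀ (by positivity) hbe 2
    have h6 : 8 * (16 * d / Y) ^ 3 * ((4 * d * ‖τ‖) ^ 2 * (‖τ‖ / 2) ^ 2) ≤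
        8 * w⁻¹ ^ 3 * (‖thI ρ t j τ‖ ^ 2 * ‖τ j + xC τ‖ ^ 2) := by
      refine mul_le_mul (mul_le_mul_of_nonneg_left h3 (by norm_num))
        (mul_le_mul h4 h5 (by positivity) (by positivity)) (by positivity) (by positivity)
    have h7 : 8 * w⁻¹ ^ 3 * (‖thI ρ t j τ‖ ^ 2 * ‖τ j + xC τ‖ ^ 2) ≤
        ∑ i ∈ J, 8 * (ρ + t i + xav t)⁻¹ ^ 3 * (‖thI ρ t i τ‖ ^ 2 * ‖τ i + xC τ‖ ^ 2) :=
      Finset.single_le_sum (f := fun i => 8 * (ρ + t i + xav t)⁻¹ ^ 3 *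
        (‖thI ρ t i τ‖ ^ 2 * ‖τ i + xC τ‖ ^ 2)) (fun i _ => by
          have := w_pos hρ0 ht i
          positivity) hjJ
    have h8 : 8 * (16 * d / Y) ^ 3 * ((4 * d * ‖τ‖) ^ 2 * (‖τ‖ / 2) ^ 2) ≤
        (k4 ρ t τ τ (fun i => conj (τ i)) (fun i => conj (τ i))).re := by linarith
    have h9 : (Y / 2) * (8 * (16 * d / Y) ^ 3 * ((4 * d * ‖τ‖) ^ 2 * (‖τ‖ / 2) ^ 2)) ≤
        ρ * (k4 ρ t τ τ (fun i => conj (τ i)) (fun i => conj (τ i))).re :=
      mul_le_mul (by linarith) h8 (by positivity) hρ0.le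
    refine le_trans ?_ h9
    have e : (Y / 2) * (8 * (16 * d / Y) ^ 3 * ((4 * d * ‖τ‖) ^ 2 * (‖τ‖ / 2) ^ 2)) =
        65536 * (d ^ 5 * ‖τ‖ ^ 4 / Y ^ 2) := by field_simp; ring
    rw [e]
    have : 0 ≤ d ^ 5 * ‖τ‖ ^ 4 / Y ^ 2 := by positivity
    linarith

end T9aux

open T9aux

theorem E0_D4 (hp : 2 ≤ p) {k : ℕ} (hk : 2 * k + 1 ≤ p) :
    ∃ c : ℝ, 0 < c ∧ ∃ ε : ℝ, 0 < ε ∧ ∀ N : ℕ, 1 ≤ N → ∀ (t : Fin p → ℝ) (J : Finset (Fin p))
      (τ : Fin p → ℂ), ConeDir k ε t J τ →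
      0 ≤ (D4 (E0 N) t τ τ (fun i => conj (τ i)) (fun i => conj (τ i))).re ∧
      (1 + xav t ≤ 2 ^ N → c / N * ‖τ‖ ^ 4 / (1 + xav t) ^ 2
        ≤ (D4 (E0 N) t τ τ (fun i => conj (τ i)) (fun i => conj (τ i))).re) := by
  have hP2 : (2:ℝ) ≤ p := by exact_mod_cast hp
  obtain ⟨d, hd⟩ : ∃ d : ℝ, d = 1 / (16 * (p + 2)) := ⟨_, rfl⟩
  have hd0 : 0 < d := by rw [hd]; positivity
  refine ⟨d ^ 5 / 4, by positivity, 1 / (20 * p), by positivity, fun N hN t J τ hc => ?_⟩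
  have ht := hc.1
  have hN' : (0:ℝ) < N := by exact_mod_cast hN
  have hx := xav_nonneg ht
  have hterm : ∀ m ∈ Finset.range N, 0 ≤ (((2 ^ m / (4 * N) : ℝ) : ℂ) *
      k4 (2 ^ m) t τ τ (fun i => conj (τ i)) (fun i => conj (τ i))).re := by
    intro m _
    rw [Complex.re_ofReal_mul]
    have h1 := k4_lower (ρ := 2 ^ m) (one_le_pow₀ (by norm_num)) hp hk hc
    have h2 : 0 ≤ ∑ i ∈ J, 8 * ((2:ℝ) ^ m + t i + xav t)⁻¹ ^ 3 *
        (‖thI (2 ^ m) t i τ‖ ^ 2 * ‖τ i + xC τ‖ ^ 2) :=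
      Finset.sum_nonneg fun i _ => by
        have := w_pos (by positivity : (0:ℝ) < 2 ^ m) ht i
        positivity
    have h3 : 0 ≤ 24 * ((2:ℝ) ^ m) ^ 2 * (2 ^ m + xav t)⁻¹ ^ 5 * ‖xC τ‖ ^ 4 := by positivity
    exact mul_nonneg (by positivity) (by linarith)
  rw [D4_E0 ht, Complex.re_sum]
  refine ⟨Finset.sum_nonneg hterm, fun hle => ?_⟩
  obtain ⟨m, hm, h1, h2⟩ := exists_scale hN (by linarith : 1 ≤ 1 + xav t) hle
  have h3 := Finset.single_le_sum hterm (Finset.mem_range.2 hm)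
  refine le_trans ?_ h3
  rw [Complex.re_ofReal_mul]
  have h4 := k4_scale (ρ := 2 ^ m) (one_le_pow₀ (by norm_num)) hp hk hc h1
    (by rw [pow_succ] at h2; linarith) hd
  have h5 := mul_le_mul_of_nonneg_left h4 (by positivity : (0:ℝ) ≤ 1 / (4 * N))
  refine le_trans (le_of_eq ?_) (h5.trans (le_of_eq ?_))
  · field_simp
  · ring

end

end Pool.Agent.H789.HSC

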