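import Pool.Agent.H789.HSC.ConeDefs
import Pool.Agent.H789.HSC.JetCalc
import Pool.Agent.H789.HSC.T6
import Pool.Agent.H789.HSC.T9
import Pool.Agent.H789.HSC.T10
import Pool.Agent.H789.HSC.T11z

set_option linter.unusedVariables false

open scoped BigOperators ContDiff ComplexConjugate Topology


namespace Pool.Agent.H789.HSC.T11aux

noncomputable section

/-! ### derivatives of the cut off -/

def M0 (a x : ℝ) : ℝ := 4 * Real.exp (-(a * x)) - 6 * Real.exp (-(a * x)) ^ 2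
  + 4 * Real.exp (-(a * x)) ^ 3 - Real.exp (-(a * x)) ^ 4
def M1 (a x : ℝ) : ℝ := -(a * (4 * Real.exp (-(a * x)) - 12 * Real.exp (-(a * x)) ^ 2
  + 12 * Real.exp (-(a * x)) ^ 3 - 4 * Real.exp (-(a * x)) ^ 4))
def M2 (a x : ℝ) : ℝ := a ^ 2 * (4 * Real.exp (-(a * x)) - 24 * Real.exp (-(a * x)) ^ 2
  + 36 * Real.exp (-(a * x)) ^ 3 - 16 * Real.exp (-(a * x)) ^ 4)
def M3 (a x : ℝ) : ℝ := -(a ^ 3 * (4 * Real.exp (-(a * x)) - 48 * Real.exp (-(a * x)) ^ 2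
  + 108 * Real.exp (-(a * x)) ^ 3 - 64 * Real.exp (-(a * x)) ^ 4))
def M4 (a x : ℝ) : ℝ := a ^ 4 * (4 * Real.exp (-(a * x)) - 96 * Real.exp (-(a * x)) ^ 2
  + 324 * Real.exp (-(a * x)) ^ 3 - 256 * Real.exp (-(a * x)) ^ 4)

theorem HasDerivAt.cast {f g : ℝ → ℝ} {f' g' x : ℝ} (h : HasDerivAt f f' x)
    (hf : ∀ y, f y = g y) (hf' : f' = g') : HasDerivAt g g' x := by
  have : f = g := funext hf
  subst this; subst hf'; exact h

theorem hasDerivAt_E (a x : ℝ) :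
    HasDerivAt (fun x : ℝ => Real.exp (-(a * x))) (-a * Real.exp (-(a * x))) x := by
  have h : HasDerivAt (fun x : ℝ => -(a * x)) (-a) x :=
    HasDerivAt.cast ((hasDerivAt_id x).const_mul (-a)) (fun y => by simp) (by simp)
  exact HasDerivAt.cast h.exp (fun y => rfl) (by ring)

theorem hasDerivAt_comb (a c1 c2 c3 c4 x : ℝ) :
    HasDerivAt (fun x : ℝ => c1 * Real.exp (-(a * x)) + c2 * Real.exp (-(a * x)) ^ 2
      + c3 * Real.exp (-(a * x)) ^ 3 + c4 * Real.exp (-(a * x)) ^ 4)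
      (-a * (c1 * Real.exp (-(a * x)) + 2 * c2 * Real.exp (-(a * x)) ^ 2
      + 3 * c3 * Real.exp (-(a * x)) ^ 3 + 4 * c4 * Real.exp (-(a * x)) ^ 4)) x := by
  have h := hasDerivAt_E a x
  have h2 := h.pow 2
  have h3 := h.pow 3
  have h4 := h.pow 4
  refine HasDerivAt.cast ((((h.const_mul c1).add (h2.const_mul c2)).add (h3.const_mul c3)).add
    (h4.const_mul c4)) (fun y => by simp) ?_
  push_cast
  ring

theorem hasDerivAt_M0 (a x : ℝ) : HasDerivAt (M0 a) (M1 a x) x :=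
  HasDerivAt.cast (hasDerivAt_comb a 4 (-6) 4 (-1) x) (fun y => by simp only [M0]; ring)
    (by simp only [M1]; ring)

theorem hasDerivAt_M1 (a x : ℝ) : HasDerivAt (M1 a) (M2 a x) x :=
  HasDerivAt.cast ((hasDerivAt_comb a 4 (-12) 12 (-4) x).const_mul (-a))
    (fun y => by simp only [M1]; ring) (by simp only [M2]; ring)

theorem hasDerivAt_M2 (a x : ℝ) : HasDerivAt (M2 a) (M3 a x) x :=
  HasDerivAt.cast ((hasDerivAt_comb a 4 (-24) 36 (-16) x).const_mul (a ^ 2))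
    (fun y => by simp only [M2]; ring) (by simp only [M3]; ring)

theorem hasDerivAt_M3 (a x : ℝ) : HasDerivAt (M3 a) (M4 a x) x :=
  HasDerivAt.cast ((hasDerivAt_comb a 4 (-48) 108 (-64) x).const_mul (-a ^ 3))
    (fun y => by simp only [M3]; ring) (by simp only [M4]; ring)

theorem continuous_M4 (a : ℝ) : Continuous (M4 a) := by
  unfold M4; fun_prop

theorem mcut_eq (p : ℕ) (R x : ℝ) : mcut p R x = M0 (8 * p / R) x := by
  unfold mcut M0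
  have : 8 * (p : ℝ) * x / R = 8 * p / R * x := by ring
  rw [this]; ring

section bounds
variable {a x : ℝ} (ha : 0 ≤ a) (hx : 0 ≤ x)
include ha hx

theorem E_pos_le : 0 < Real.exp (-(a * x)) ∧ Real.exp (-(a * x)) ≤ 1 :=
  ⟨Real.exp_pos _, Real.exp_le_one_iff.2 (by nlinarith [mul_nonneg ha hx])⟩

theorem comb_bound (c1 c2 c3 c4 : ℝ) :
    |c1 * Real.exp (-(a * x)) + c2 * Real.exp (-(a * x)) ^ 2
      + c3 * Real.exp (-(a * x)) ^ 3 + c4 * Real.exp (-(a * x)) ^ 4| ≤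
      (|c1| + |c2| + |c3| + |c4|) * Real.exp (-(a * x)) := by
  obtain ⟨h0, h1⟩ := E_pos_le ha hx
  set e := Real.exp (-(a * x))
  have e2 : e ^ 2 ≤ e := by nlinarith
  have e3 : e ^ 3 ≤ e := by nlinarith [pow_nonneg h0.le 2, mul_nonneg h0.le h0.le]
  have e4 : e ^ 4 ≤ e := by nlinarith [pow_nonneg h0.le 3, pow_nonneg h0.le 2]
  calc _ ≤ |c1 * e| + |c2 * e ^ 2| + |c3 * e ^ 3| + |c4 * e ^ 4| := by
        refine (abs_add_le _ _).trans (add_le_add ((abs_add_le _ _).trans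
          (add_le_add (abs_add_le _ _) le_rfl)) le_rfl)
    _ = |c1| * e + |c2| * e ^ 2 + |c3| * e ^ 3 + |c4| * e ^ 4 := by
        rw [abs_mul, abs_mul, abs_mul, abs_mul, abs_of_pos h0, abs_of_pos (pow_pos h0 2),
          abs_of_pos (pow_pos h0 3), abs_of_pos (pow_pos h0 4)]
    _ ≤ |c1| * e + |c2| * e + |c3| * e + |c4| * e := by
        gcongr
    _ = _ := by ring

theorem comb_bound' (c1 c2 c3 c4 : ℝ) (hc : |c1| + |c2| + |c3| + |c4| ≤ 680) :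
    |c1 * Real.exp (-(a * x)) + c2 * Real.exp (-(a * x)) ^ 2
      + c3 * Real.exp (-(a * x)) ^ 3 + c4 * Real.exp (-(a * x)) ^ 4| ≤
      680 * Real.exp (-(a * x)) :=
  (comb_bound ha hx c1 c2 c3 c4).trans (mul_le_mul_of_nonneg_right hc (Real.exp_pos _).le)

theorem abs_M1_le : |M1 a x| ≤ 680 * Real.exp (-(a * x)) * a := by
  have := comb_bound' ha hx 4 (-12) 12 (-4) (by norm_num)
  have e : M1 a x = -a * (4 * Real.exp (-(a * x)) + -12 * Real.exp (-(a * x)) ^ 2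
      + 12 * Real.exp (-(a * x)) ^ 3 + -4 * Real.exp (-(a * x)) ^ 4) := by simp only [M1]; ring
  rw [e, abs_mul, abs_neg, abs_of_nonneg ha, mul_comm]
  exact mul_le_mul_of_nonneg_right this ha

theorem abs_M2_le : |M2 a x| ≤ 680 * Real.exp (-(a * x)) * a ^ 2 := by
  have := comb_bound' ha hx 4 (-24) 36 (-16) (by norm_num)
  have e : M2 a x = a ^ 2 * (4 * Real.exp (-(a * x)) + -24 * Real.exp (-(a * x)) ^ 2
      + 36 * Real.exp (-(a * x)) ^ 3 + -16 * Real.exp (-(a * x)) ^ 4) := by simp only [M2]; ring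
  rw [e, abs_mul, abs_of_nonneg (pow_nonneg ha 2), mul_comm]
  exact mul_le_mul_of_nonneg_right this (pow_nonneg ha 2)

theorem abs_M3_le : |M3 a x| ≤ 680 * Real.exp (-(a * x)) * a ^ 3 := by
  have := comb_bound' ha hx 4 (-48) 108 (-64) (by norm_num)
  have e : M3 a x = -a ^ 3 * (4 * Real.exp (-(a * x)) + -48 * Real.exp (-(a * x)) ^ 2
      + 108 * Real.exp (-(a * x)) ^ 3 + -64 * Real.exp (-(a * x)) ^ 4) := by simp only [M3]; ring
  rw [e, abs_mul, abs_neg, abs_of_nonneg (pow_nonneg ha 3), mul_comm]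
  exact mul_le_mul_of_nonneg_right this (pow_nonneg ha 3)

theorem abs_M4_le : |M4 a x| ≤ 680 * Real.exp (-(a * x)) * a ^ 4 := by
  have := comb_bound' ha hx 4 (-96) 324 (-256) (by norm_num)
  have e : M4 a x = a ^ 4 * (4 * Real.exp (-(a * x)) + -96 * Real.exp (-(a * x)) ^ 2
      + 324 * Real.exp (-(a * x)) ^ 3 + -256 * Real.exp (-(a * x)) ^ 4) := by simp only [M4]; ring
  rw [e, abs_mul, abs_of_nonneg (pow_nonneg ha 4), mul_comm]
  exact mul_le_mul_of_nonneg_right this (pow_nonneg ha 4)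

theorem M0_bounds : Real.exp (-(a * x)) ≤ M0 a x ∧ M0 a x ≤ 4 * Real.exp (-(a * x)) ∧
    M0 a x ≤ 1 := by
  obtain ⟨h0, h1⟩ := E_pos_le ha hx
  unfold M0
  set e := Real.exp (-(a * x))
  refine ⟨?_, ?_, ?_⟩
  · have : 0 ≤ (1 - e) * (1 - (1 - e) ^ 3) := by
      have h2 : 0 ≤ 1 - e := by linarith
      have h3 : (1 - e) ^ 3 ≤ 1 := pow_le_one₀ h2 (by linarith)
      exact mul_nonneg h2 (by linarith)
    nlinarith [this]
  · nlinarith [sq_nonneg (e * (1 - e)), sq_nonneg e, mul_nonneg h0.le h0.le,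
      mul_nonneg (mul_nonneg h0.le h0.le) (sub_nonneg.2 h1), pow_nonneg h0.le 4]
  · have : 0 ≤ (1 - e) ^ 4 := by positivity
    nlinarith [this]

end bounds

end

end Pool.Agent.H789.HSC.T11aux


namespace Pool.Agent.H789.HSC.T11aux

noncomputable section

/-! ### jets -/

variable {p : ℕ}

/-- average of a complex vector -/
def txav (τ : Fin p → ℂ) : ℂ := (∑ i, τ i) / p

theorem norm_txav_le (τ : Fin p → ℂ) : ‖txav τ‖ ≤ ‖τ‖ := by
  unfold txav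
  rcases Nat.eq_zero_or_pos p with h | h
  · subst h; simp
  have hp : (0 : ℝ) < p := by exact_mod_cast h
  rw [norm_div, Complex.norm_natCast, div_le_iff₀ hp]
  calc ‖∑ i, τ i‖ ≤ ∑ i, ‖τ i‖ := norm_sum_le _ _
    _ ≤ ∑ _i : Fin p, ‖τ‖ := Finset.sum_le_sum fun i _ => norm_le_pi_norm τ i
    _ = ‖τ‖ * p := by simp [mul_comm]

theorem hasJet_xav (t : Fin p → ℝ) (τ σ : Fin p → ℂ) :
    HasJet (fun ζ => xav (hpath t τ σ ζ)) (Jet.hol (xav t) (txav τ) (txav σ)) := by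
  have h := hasJet_hpath (ι := Unit) (fun _ => xav t) (fun _ => txav τ) (fun _ => txav σ) ()
  have e : (fun ζ => xav (hpath t τ σ ζ)) =
      fun ζ => hpath (fun _ : Unit => xav t) (fun _ => txav τ) (fun _ => txav σ) ζ () := by
    funext ζ
    simp only [hpath, xav, txav]
    rw [Finset.sum_add_distrib, add_div]
    congr 1
    rw [← Finset.mul_sum, ← Complex.re_sum]
    have : ζ * ((∑ i, τ i) / (p : ℂ)) + ζ ^ 2 * ((∑ i, σ i) / (p : ℂ)) / 2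
        = (∑ i, (ζ * τ i + ζ ^ 2 * σ i / 2)) / (p : ℂ) := by
      rw [Finset.sum_add_distrib, ← Finset.mul_sum, ← Finset.sum_div, ← Finset.mul_sum]
      ring
    rw [this, mul_div_assoc]
    congr 1
    rw [Complex.div_natCast_re]
  rw [e]; exact h

/-- jet of the cut off -/
def Jm (p : ℕ) (R x : ℝ) (u v : ℂ) : Jet :=
  Jet.comp (M0 (8 * p / R) x) (M1 (8 * p / R) x) (M2 (8 * p / R) x) (M3 (8 * p / R) x)
    (M4 (8 * p / R) x) (Jet.hol x u v)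

theorem hasJet_mcut (R : ℝ) (t : Fin p → ℝ) (τ σ : Fin p → ℂ) :
    HasJet (fun ζ => mcut p R (xav (hpath t τ σ ζ))) (Jm p R (xav t) (txav τ) (txav σ)) := by
  have h := (hasJet_xav t τ σ).comp (F := M0 (8 * p / R)) (F1 := M1 (8 * p / R))
    (F2 := M2 (8 * p / R)) (F3 := M3 (8 * p / R)) (F4 := M4 (8 * p / R))
    (Filter.Eventually.of_forall fun x => hasDerivAt_M0 _ x)
    (Filter.Eventually.of_forall fun x => hasDerivAt_M1 _ x)
    (Filter.Eventually.of_forall fun x => hasDerivAt_M2 _ x)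
    (Filter.Eventually.of_forall fun x => hasDerivAt_M3 _ x)
    (Filter.Eventually.of_forall fun x => (continuous_M4 _).continuousAt)
  have e : (fun ζ => mcut p R (xav (hpath t τ σ ζ))) =
      fun ζ => M0 (8 * p / R) (xav (hpath t τ σ ζ)) := by
    funext ζ; rw [mcut_eq]
  rw [e]; exact h

/-! ### size of a jet -/

structure JB (c A : ℝ) (J : Jet) : Prop where
  v : |J.v| ≤ c
  a : ‖J.a‖ ≤ c * A
  b : ‖J.b‖ ≤ c * A ^ 2
  h : |J.h| ≤ c * A ^ 2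
  k : ‖J.k‖ ≤ c * A ^ 3
  Q : |J.Q| ≤ c * A ^ 4

theorem JB.nonneg {c A : ℝ} {J : Jet} (h : JB c A J) : 0 ≤ c := (abs_nonneg _).trans h.v

theorem JB.zero (A : ℝ) : JB 0 A (Jet.const 0) := by
  constructor <;> simp [Jet.const]

theorem JB.add {c d A : ℝ} {J K : Jet} (h : JB c A J) (h' : JB d A K) :
    JB (c + d) A (J.add K) where
  v := (abs_add_le _ _).trans (add_le_add h.v h'.v)
  a := ((norm_add_le _ _).trans (add_le_add h.a h'.a)).trans_eq (by ring)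
  b := ((norm_add_le _ _).trans (add_le_add h.b h'.b)).trans_eq (by ring)
  h := ((abs_add_le _ _).trans (add_le_add h.h h'.h)).trans_eq (by ring)
  k := ((norm_add_le _ _).trans (add_le_add h.k h'.k)).trans_eq (by ring)
  Q := ((abs_add_le _ _).trans (add_le_add h.Q h'.Q)).trans_eq (by ring)

theorem abs_re_conj_mul_le (z w : ℂ) : |(z * conj w).re| ≤ ‖z‖ * ‖w‖ := by
  refine (Complex.abs_re_le_norm _).trans ?_
  rw [norm_mul, RCLike.norm_conj]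

theorem JB.mulQ {c d A : ℝ} (hA : 0 ≤ A) {J K : Jet} (h : JB c A J) (h' : JB d A K) :
    |(J.mul K).Q| ≤ 16 * c * d * A ^ 4 := by
  have hc := h.nonneg
  have hd := h'.nonneg
  have e1 : |J.v * K.Q| ≤ c * (d * A ^ 4) := by
    rw [abs_mul]; exact mul_le_mul h.v h'.Q (abs_nonneg _) hc
  have e2 : |J.Q * K.v| ≤ c * A ^ 4 * d := by
    rw [abs_mul]; exact mul_le_mul h.Q h'.v (abs_nonneg _) (by positivity)
  have e3 : |(J.a * conj K.k).re| ≤ c * A * (d * A ^ 3) :=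
    (abs_re_conj_mul_le _ _).trans (mul_le_mul h.a h'.k (norm_nonneg _) (by positivity))
  have e4 : |(J.k * conj K.a).re| ≤ c * A ^ 3 * (d * A) :=
    (abs_re_conj_mul_le _ _).trans (mul_le_mul h.k h'.a (norm_nonneg _) (by positivity))
  have e5 : |(J.b * conj K.b).re| ≤ c * A ^ 2 * (d * A ^ 2) :=
    (abs_re_conj_mul_le _ _).trans (mul_le_mul h.b h'.b (norm_nonneg _) (by positivity))
  have e6 : |J.h * K.h| ≤ c * A ^ 2 * (d * A ^ 2) := by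
    rw [abs_mul]; exact mul_le_mul h.h h'.h (abs_nonneg _) (by positivity)
  have e : (J.mul K).Q = J.v * K.Q + J.Q * K.v + 4 * (J.a * conj K.k).re
      + 4 * (J.k * conj K.a).re + 2 * (J.b * conj K.b).re + 4 * (J.h * K.h) := by
    simp only [Jet.mul]; ring
  rw [e]
  rw [abs_le] at *
  constructor <;> nlinarith [e1.1, e1.2, e2.1, e2.2, e3.1, e3.2, e4.1, e4.2, e5.1, e5.2, e6.1, e6.2]

theorem JB.compHol {c A x : ℝ} (hA : 0 ≤ A) {u v : ℂ} (hu : ‖u‖ ≤ A) (hv : ‖v‖ ≤ A ^ 2)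
    {f0 f1 f2 f3 f4 : ℝ} (h0 : |f0| ≤ c) (h1 : |f1| ≤ c) (h2 : |f2| ≤ c) (h3 : |f3| ≤ c)
    (h4 : |f4| ≤ c) : JB (4 * c) A (Jet.comp f0 f1 f2 f3 f4 (Jet.hol x u v)) := by
  have hc : 0 ≤ c := (abs_nonneg _).trans h0
  have hu2 : ‖u‖ ^ 2 ≤ A ^ 2 := by gcongr
  have hu4 : ‖u‖ ^ 4 ≤ A ^ 4 := by gcongr
  have n1 : ‖(f1 : ℂ)‖ ≤ c := by rwa [Complex.norm_real]
  have n2 : ‖(f2 : ℂ)‖ ≤ c := by rwa [Complex.norm_real]
  have n3 : ‖(f3 : ℂ)‖ ≤ c := by rwa [Complex.norm_real]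
  have hA2 : 0 ≤ A ^ 2 := by positivity
  have hA3 : 0 ≤ A ^ 3 := by positivity
  have hA4 : 0 ≤ A ^ 4 := by positivity
  refine ⟨?_, ?_, ?_, ?_, ?_, ?_⟩
  · simp only [Jet.comp]; linarith
  · simp only [Jet.comp, Jet.hol, norm_mul]
    have := mul_le_mul n1 hu (norm_nonneg _) hc
    nlinarith [mul_nonneg hc hA]
  · simp only [Jet.comp, Jet.hol]
    have a1 : ‖(f2 : ℂ) * u ^ 2‖ ≤ c * A ^ 2 := by
      rw [norm_mul, norm_pow]; exact mul_le_mul n2 hu2 (by positivity) hc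
    have a2 : ‖(f1 : ℂ) * v‖ ≤ c * A ^ 2 := by
      rw [norm_mul]; exact mul_le_mul n1 hv (by positivity) hc
    have := norm_add_le ((f2 : ℂ) * u ^ 2) ((f1 : ℂ) * v)
    nlinarith [mul_nonneg hc hA2]
  · simp only [Jet.comp, Jet.hol]
    have a1 : |f2 * ‖u‖ ^ 2| ≤ c * A ^ 2 := by
      rw [abs_mul, abs_of_nonneg (by positivity : (0:ℝ) ≤ ‖u‖ ^ 2)]
      exact mul_le_mul h2 hu2 (by positivity) hc
    have e : f2 * ‖u‖ ^ 2 + f1 * 0 = f2 * ‖u‖ ^ 2 := by ring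
    rw [e]
    nlinarith [mul_nonneg hc hA2]
  · simp only [Jet.comp, Jet.hol]
    have a1 : ‖(f3 : ℂ) * (‖u‖ : ℂ) ^ 2 * u‖ ≤ c * A ^ 2 * A := by
      rw [norm_mul, norm_mul, norm_pow, Complex.norm_real ‖u‖, norm_norm]
      exact mul_le_mul (mul_le_mul n3 hu2 (by positivity) hc) hu (by positivity) (by positivity)
    have a2 : ‖(f2 : ℂ) * conj u * v‖ ≤ c * A * A ^ 2 := by
      rw [norm_mul, norm_mul, RCLike.norm_conj]
      exact mul_le_mul (mul_le_mul n2 hu (by positivity) hc) hv (by positivity) (by positivity)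
    have e : (f3 : ℂ) * (‖u‖ : ℂ) ^ 2 * u + 2 * (f2 : ℂ) * u * ((0 : ℝ) : ℂ)
        + (f2 : ℂ) * conj u * v + (f1 : ℂ) * 0
        = (f3 : ℂ) * (‖u‖ : ℂ) ^ 2 * u + (f2 : ℂ) * conj u * v := by
      push_cast; ring
    rw [e]
    have := norm_add_le ((f3 : ℂ) * (‖u‖ : ℂ) ^ 2 * u) ((f2 : ℂ) * conj u * v)
    nlinarith [mul_nonneg hc hA3]
  · simp only [Jet.comp, Jet.hol]
    have a1 : |f2 * ‖v‖ ^ 2| ≤ c * A ^ 4 := by
      rw [abs_mul, abs_of_nonneg (by positivity : (0:ℝ) ≤ ‖v‖ ^ 2)]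
      have : ‖v‖ ^ 2 ≤ A ^ 4 := by
        calc ‖v‖ ^ 2 ≤ (A ^ 2) ^ 2 := by gcongr
          _ = A ^ 4 := by ring
      exact mul_le_mul h2 this (by positivity) hc
    have a2 : |f3 * ((conj u) ^ 2 * v).re| ≤ c * A ^ 4 := by
      rw [abs_mul]
      refine mul_le_mul h3 ?_ (abs_nonneg _) hc
      refine (Complex.abs_re_le_norm _).trans ?_
      rw [norm_mul, norm_pow, RCLike.norm_conj]
      calc ‖u‖ ^ 2 * ‖v‖ ≤ A ^ 2 * A ^ 2 := mul_le_mul hu2 hv (by positivity) hA2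
        _ = A ^ 4 := by ring
    have a3 : |f4 * ‖u‖ ^ 4| ≤ c * A ^ 4 := by
      rw [abs_mul, abs_of_nonneg (by positivity : (0:ℝ) ≤ ‖u‖ ^ 4)]
      exact mul_le_mul h4 hu4 (by positivity) hc
    have e : f1 * 0 + f2 * (2 * 0 ^ 2 + ‖v‖ ^ 2 + 4 * (u * conj (0 : ℂ)).re)
        + f3 * (4 * ‖u‖ ^ 2 * 0 + 2 * ((conj u) ^ 2 * v).re) + f4 * ‖u‖ ^ 4
        = f2 * ‖v‖ ^ 2 + 2 * (f3 * ((conj u) ^ 2 * v).re) + f4 * ‖u‖ ^ 4 := by
      simp; ring
    rw [e]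
    rw [abs_le] at *
    constructor <;> nlinarith [a1.1, a1.2, a2.1, a2.2, a3.1, a3.2]

theorem exists_sum_jet {ι : Type*} (s : Finset ι) (f : ι → ℂ → ℝ) (c A : ℝ)
    (h : ∀ i ∈ s, ∃ J, HasJet (f i) J ∧ JB c A J) :
    ∃ J, HasJet (fun ζ => ∑ i ∈ s, f i ζ) J ∧ JB (s.card * c) A J := by
  classical
  induction s using Finset.induction_on with
  | empty =>
    refine ⟨Jet.const 0, ?_, ?_⟩
    · simpa using hasJet_const 0
    · simpa using JB.zero A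
  | insert i s his ih =>
    obtain ⟨J, h1, h2⟩ := ih fun j hj => h j (Finset.mem_insert_of_mem hj)
    obtain ⟨K, h3, h4⟩ := h i (Finset.mem_insert_self _ _)
    refine ⟨K.add J, ?_, ?_⟩
    · have := h3.add h1
      refine this.congr (Filter.Eventually.of_forall fun ζ => ?_)
      simp only [Finset.sum_insert his]
    · have := h4.add h2
      rw [Finset.card_insert_of_notMem his]
      convert this using 1
      push_cast; ring

end

end Pool.Agent.H789.HSC.T11aux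


namespace Pool.Agent.H789.HSC.T11aux

noncomputable section

variable {p : ℕ}

theorem xav_nonneg {t : Fin p → ℝ} (ht : ∀ i, 0 ≤ t i) : 0 ≤ xav t := by
  unfold xav
  exact div_nonneg (Finset.sum_nonneg fun i _ => ht i) (Nat.cast_nonneg _)

theorem le_xav {t : Fin p → ℝ} (ht : ∀ i, 0 ≤ t i) (i : Fin p) : t i ≤ p * xav t := by
  unfold xav
  have hp : (0 : ℝ) < p := by exact_mod_cast (Fin.pos i)
  rw [mul_div_cancel₀ _ hp.ne']
  exact Finset.single_le_sum (fun j _ => ht j) (Finset.mem_univ i)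

theorem contDiff_xav {n : WithTop ℕ∞} : ContDiff ℝ n (xav (p := p)) := by
  unfold xav
  exact (ContDiff.sum fun i _ => contDiff_apply ℝ ℝ i).div_const _

theorem contDiffAt_wq {n : WithTop ℕ∞} {t : Fin p → ℝ} (ht : ∀ i, 0 ≤ t i) :
    ContDiffAt ℝ n (wq (p := p)) t := by
  unfold wq
  have hx := xav_nonneg ht
  refine ContDiffAt.div (contDiff_xav.contDiffAt.pow 4)
    ((contDiffAt_const.add contDiff_xav.contDiffAt).pow 2) ?_
  positivity

theorem contDiff_qhat {n : WithTop ℕ∞} : ContDiff ℝ n (qhat (p := p)) := by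
  unfold qhat
  exact (ContDiff.sum fun i _ => (contDiff_apply ℝ ℝ i).pow 2).sub
    (contDiff_const.mul (contDiff_xav.pow 2))

theorem contDiff_S0 {n : WithTop ℕ∞} (M : ℕ) : ContDiff ℝ n (S0 (p := p) M) := by
  unfold S0
  exact ContDiff.sum fun j _ => contDiff_const.mul (contDiff_const.mul contDiff_qhat).neg.exp

theorem contDiffAt_blk {n : WithTop ℕ∞} {t : Fin p → ℝ} (ht : ∀ i, 0 ≤ t i) {ρ : ℝ} (hρ : 0 < ρ) :
    ContDiffAt ℝ n (blk (p := p) ρ) t := by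
  unfold blk
  have hx := xav_nonneg ht
  refine contDiffAt_const.mul ((ContDiffAt.sum fun i _ => ?_).sub ?_)
  · refine ContDiffAt.div (((contDiff_apply ℝ ℝ i).contDiffAt.sub
      (contDiffAt_const.mul contDiff_xav.contDiffAt)).pow 2)
      ((contDiffAt_const.add (contDiff_apply ℝ ℝ i).contDiffAt).add contDiff_xav.contDiffAt) ?_
    have := ht i
    positivity
  · refine ContDiffAt.div (contDiffAt_const.mul (contDiff_xav.contDiffAt.pow 2))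
      (contDiffAt_const.add contDiff_xav.contDiffAt) ?_
    positivity

theorem contDiffAt_E0 {n : WithTop ℕ∞} (N : ℕ) {t : Fin p → ℝ} (ht : ∀ i, 0 ≤ t i) :
    ContDiffAt ℝ n (E0 (p := p) N) t := by
  unfold E0
  exact contDiffAt_const.mul (ContDiffAt.sum fun m _ => contDiffAt_blk ht (by positivity))

/-! jet of a function along a pluriharmonic path -/

theorem hasJet_path {W : (Fin p → ℝ) → ℝ} {t : Fin p → ℝ} (hW : ContDiffAt ℝ 4 W t)
    (τ σ : Fin p → ℂ) :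
    HasJet (fun ζ => W (hpath t τ σ ζ)) (multiJet W (fun i => Jet.hol (t i) (τ i) (σ i))) :=
  HasJet.multi (t := fun ζ => hpath t τ σ ζ) (fun i => hasJet_hpath t τ σ i) hW

/-- jet of `K` -/
def JK (N M : ℕ) (ε₁ δ : ℝ) (t : Fin p → ℝ) (τ σ : Fin p → ℂ) : Jet :=
  ((multiJet (E0 N) (fun i => Jet.hol (t i) (τ i) (σ i))).add
    (Jet.smul (ε₁ / N) (multiJet wq (fun i => Jet.hol (t i) (τ i) (σ i))))).add
    (Jet.smul (δ / N) (multiJet (S0 M) (fun i => Jet.hol (t i) (τ i) (σ i))))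

theorem hasJet_K (N M : ℕ) (ε₁ δ : ℝ) {t : Fin p → ℝ} (ht : ∀ i, 0 ≤ t i) (τ σ : Fin p → ℂ) :
    HasJet (fun ζ => E0 N (hpath t τ σ ζ) + ε₁ / N * wq (hpath t τ σ ζ)
      + δ / N * S0 M (hpath t τ σ ζ)) (JK N M ε₁ δ t τ σ) :=
  ((hasJet_path (contDiffAt_E0 N ht) τ σ).add
    ((hasJet_path (contDiffAt_wq ht) τ σ).smul (ε₁ / N))).add
    ((hasJet_path (contDiff_S0 M).contDiffAt τ σ).smul (δ / N))

/-! the exponentially small part -/

theorem hasDerivAt_expneg (c x : ℝ) :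
    HasDerivAt (fun x : ℝ => c * Real.exp (-x)) (-c * Real.exp (-x)) x := by
  have h : HasDerivAt (fun x : ℝ => -x) (-1) x := hasDerivAt_neg x
  exact HasDerivAt.cast (h.exp.const_mul c) (fun y => rfl) (by ring)

theorem exists_jet_exp (t : Fin p → ℝ) (τ σ : Fin p → ℂ) {A : ℝ} (hA : 0 ≤ A) (hτ : ‖τ‖ ≤ A)
    (hσ : ‖σ‖ ≤ A ^ 2) :
    ∃ J, HasJet (fun ζ => Real.exp (-xav (hpath t τ σ ζ))) J ∧ JB (4 * Real.exp (-xav t)) A J := by
  have h := (hasJet_xav t τ σ).comp (F := fun x => 1 * Real.exp (-x))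
    (F1 := fun x => -1 * Real.exp (-x)) (F2 := fun x => 1 * Real.exp (-x))
    (F3 := fun x => -1 * Real.exp (-x)) (F4 := fun x => 1 * Real.exp (-x))
    (Filter.Eventually.of_forall fun x => hasDerivAt_expneg _ x)
    (Filter.Eventually.of_forall fun x =>
      HasDerivAt.cast (hasDerivAt_expneg (-1) x) (fun y => rfl) (by ring))
    (Filter.Eventually.of_forall fun x => hasDerivAt_expneg _ x)
    (Filter.Eventually.of_forall fun x =>
      HasDerivAt.cast (hasDerivAt_expneg (-1) x) (fun y => rfl) (by ring))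
    (Filter.Eventually.of_forall fun x => by fun_prop)
  refine ⟨_, h.congr (Filter.Eventually.of_forall fun ζ => one_mul _), ?_⟩
  have e : ∀ c : ℝ, |c| = 1 → |c * Real.exp (-xav t)| ≤ Real.exp (-xav t) := by
    intro c hc; rw [abs_mul, hc, one_mul, abs_of_pos (Real.exp_pos _)]
  have v : (Jet.hol (xav t) (txav τ) (txav σ)).v = xav t := rfl
  rw [v]
  exact JB.compHol hA ((norm_txav_le τ).trans hτ) ((norm_txav_le σ).trans hσ)
    (e 1 (by simp)) (e (-1) (by simp)) (e 1 (by simp)) (e (-1) (by simp)) (e 1 (by simp))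

theorem exists_jet_cube {t : Fin p → ℝ} (ht : ∀ i, 0 ≤ t i) (τ σ : Fin p → ℂ) {A : ℝ}
    (hA : 0 ≤ A) (hτ : ‖τ‖ ≤ A) (hσ : ‖σ‖ ≤ A ^ 2) :
    ∃ J, HasJet (fun ζ => ∑ i, hpath t τ σ ζ i ^ 3) J ∧
      JB (p * (24 * (1 + p * xav t) ^ 3)) A J := by
  have := exists_sum_jet (Finset.univ : Finset (Fin p)) (fun i ζ => hpath t τ σ ζ i ^ 3)
    (24 * (1 + p * xav t) ^ 3) A ?_
  · simpa using this
  intro i _
  have h := (hasJet_hpath t τ σ i).comp (F := fun x => x ^ 3)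
    (F1 := fun x => 3 * x ^ 2) (F2 := fun x => 6 * x)
    (F3 := fun _ => 6) (F4 := fun _ => 0)
    (Filter.Eventually.of_forall fun x =>
      HasDerivAt.cast ((hasDerivAt_id x).pow 3) (fun y => rfl) (by simp))
    (Filter.Eventually.of_forall fun x =>
      HasDerivAt.cast (((hasDerivAt_id x).pow 2).const_mul 3) (fun y => rfl) (by simp; ring))
    (Filter.Eventually.of_forall fun x =>
      HasDerivAt.cast ((hasDerivAt_id x).const_mul 6) (fun y => rfl) (by simp))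
    (Filter.Eventually.of_forall fun x => hasDerivAt_const x 6)
    (Filter.Eventually.of_forall fun x => continuousAt_const)
  refine ⟨_, h, ?_⟩
  have h0 := ht i
  have hx := xav_nonneg ht
  have hl := le_xav ht i
  have v : (Jet.hol (t i) (τ i) (σ i)).v = t i := rfl
  rw [v]
  have e : 24 * (1 + p * xav t) ^ 3 = 4 * (6 * (1 + p * xav t) ^ 3) := by ring
  rw [e]
  have hb : 1 + t i ≤ 1 + p * xav t := by linarith
  have hb1 : 1 ≤ 1 + p * xav t := by linarith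
  have hpow : (1 + t i) ^ 3 ≤ (1 + p * xav t) ^ 3 := by gcongr
  have h3 : t i ^ 3 ≤ (1 + t i) ^ 3 := by gcongr; linarith
  have h2 : 3 * t i ^ 2 ≤ 6 * (1 + t i) ^ 3 := by nlinarith [pow_nonneg h0 3, pow_nonneg h0 2]
  have h1 : t i ≤ (1 + t i) ^ 3 := by nlinarith [pow_nonneg h0 3, pow_nonneg h0 2]
  have h4 : 1 ≤ (1 + t i) ^ 3 := one_le_pow₀ (by linarith)
  have hp3 : 0 ≤ (1 + t i) ^ 3 := by positivity
  refine JB.compHol hA ((norm_le_pi_norm τ i).trans hτ) ((norm_le_pi_norm σ i).trans hσ)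
    ?_ ?_ ?_ ?_ ?_
  · rw [abs_of_nonneg (by positivity)]; linarith
  · rw [abs_of_nonneg (by positivity)]; linarith
  · rw [abs_of_nonneg (by positivity)]; linarith
  · rw [abs_of_nonneg (by positivity)]; linarith
  · rw [abs_zero]; positivity

/-- `(1+px)^3 e^{-x} ≤ 96 p^3 e^{-x/2}` -/
theorem cube_exp_le {x : ℝ} (hx : 0 ≤ x) (hp : 1 ≤ p) :
    (1 + p * x) ^ 3 * Real.exp (-x) ≤ 96 * p ^ 3 * Real.exp (-(x / 2)) := by
  have hp' : (1 : ℝ) ≤ p := by exact_mod_cast hp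
  have h1 : (1 + p * x) ^ 3 ≤ p ^ 3 * (1 + x) ^ 3 := by
    rw [← mul_pow]
    gcongr
    nlinarith
  have h2 : (1 + x) ^ 3 ≤ 96 * Real.exp (x / 2) := by
    have h3 := Real.pow_div_factorial_le_exp ((1 + x) / 2) (by positivity) 3
    have h4 : Real.exp ((1 + x) / 2) = Real.exp (1 / 2) * Real.exp (x / 2) := by
      rw [← Real.exp_add]; ring_nf
    have h5 : Real.exp (1 / 2) ≤ 2 := by
      have h6 : Real.exp (1 / 2) ^ 2 = Real.exp 1 := by
        rw [← Real.exp_nat_mul]; norm_num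
      have h7 := Real.exp_one_lt_d9
      have h8 : 0 < Real.exp (1 / 2 : ℝ) := Real.exp_pos _
      nlinarith
    have h6 : (3 : ℕ).factorial = 6 := rfl
    rw [h6, h4] at h3
    have h7 : (1 + x) ^ 3 = 48 * (((1 + x) / 2) ^ 3 / (6 : ℕ)) := by push_cast; ring
    rw [h7]
    nlinarith [Real.exp_pos (x / 2)]
  have h3 : Real.exp (-x) = Real.exp (-(x / 2)) * Real.exp (-(x / 2)) := by
    rw [← Real.exp_add]; ring_nf
  have h4 : Real.exp (x / 2) * Real.exp (-(x / 2)) = 1 := by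
    rw [← Real.exp_add]; simp
  have e0 := Real.exp_pos (-(x / 2))
  calc (1 + p * x) ^ 3 * Real.exp (-x) ≤ (p ^ 3 * (1 + x) ^ 3) * Real.exp (-x) := by gcongr
    _ ≤ (p ^ 3 * (96 * Real.exp (x / 2))) * Real.exp (-x) := by gcongr
    _ = 96 * p ^ 3 * (Real.exp (x / 2) * Real.exp (-(x / 2))) * Real.exp (-(x / 2)) := by
      rw [h3]; ring
    _ = _ := by rw [h4]; ring

theorem exists_jet_G (hp : 1 ≤ p) (N : ℕ) {t : Fin p → ℝ} (ht : ∀ i, 0 ≤ t i)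
    (τ σ : Fin p → ℂ) :
    ∃ J, HasJet (fun ζ => Real.exp (-xav (hpath t τ σ ζ)) * (∑ i, hpath t τ σ ζ i ^ 3)
        / (8 * 2 ^ N)) J ∧
      |J.Q| ≤ 18432 * (p : ℝ) ^ 4 / 2 ^ N * Real.exp (-(xav t / 2)) * (‖τ‖ ^ 4 + ‖σ‖ ^ 2) := by
  set A : ℝ := max ‖τ‖ (Real.sqrt ‖σ‖) with hAdef
  have hA : 0 ≤ A := (norm_nonneg _).trans (le_max_left _ _)
  have hτ : ‖τ‖ ≤ A := le_max_left _ _
  have hσ : ‖σ‖ ≤ A ^ 2 := by
    calc ‖σ‖ = Real.sqrt ‖σ‖ ^ 2 := (Real.sq_sqrt (norm_nonneg _)).symm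
      _ ≤ A ^ 2 := by gcongr; exact le_max_right _ _
  have hA4 : A ^ 4 ≤ ‖τ‖ ^ 4 + ‖σ‖ ^ 2 := by
    rcases le_total ‖τ‖ (Real.sqrt ‖σ‖) with h | h
    · rw [hAdef, max_eq_right h]
      have : Real.sqrt ‖σ‖ ^ 4 = ‖σ‖ ^ 2 := by
        rw [show (4 : ℕ) = 2 * 2 from rfl, pow_mul, Real.sq_sqrt (norm_nonneg _)]
      rw [this]; nlinarith [pow_nonneg (norm_nonneg τ) 4]
    · rw [hAdef, max_eq_left h]
      nlinarith [pow_nonneg (norm_nonneg σ) 2]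
  obtain ⟨J1, h1, b1⟩ := exists_jet_exp t τ σ hA hτ hσ
  obtain ⟨J2, h2, b2⟩ := exists_jet_cube ht τ σ hA hτ hσ
  refine ⟨Jet.smul (1 / (8 * 2 ^ N)) (J1.mul J2), ?_, ?_⟩
  · refine ((h1.mul h2).smul (1 / (8 * 2 ^ N))).congr (Filter.Eventually.of_forall fun ζ => ?_)
    simp only; ring
  · have h3 := b1.mulQ hA b2
    have hx := xav_nonneg ht
    have h4 := cube_exp_le hx hp
    have h5 : (Jet.smul (1 / (8 * 2 ^ N)) (J1.mul J2)).Q = 1 / (8 * 2 ^ N) * (J1.mul J2).Q := rfl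
    rw [h5, abs_mul, abs_of_nonneg (by positivity : (0:ℝ) ≤ 1 / (8 * 2 ^ N))]
    have hp' : (0 : ℝ) ≤ p := Nat.cast_nonneg _
    calc 1 / (8 * 2 ^ N) * |(J1.mul J2).Q|
        ≤ 1 / (8 * 2 ^ N) * (16 * (4 * Real.exp (-xav t)) * (p * (24 * (1 + p * xav t) ^ 3))
          * A ^ 4) := by gcongr
      _ = 192 / 2 ^ N * p * ((1 + p * xav t) ^ 3 * Real.exp (-xav t)) * A ^ 4 := by ring
      _ ≤ 192 / 2 ^ N * p * (96 * p ^ 3 * Real.exp (-(xav t / 2))) * (‖τ‖ ^ 4 + ‖σ‖ ^ 2) := by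
        gcongr
      _ = _ := by ring

theorem holQ_Wm (hp : 1 ≤ p) (N M : ℕ) (ε₁ δ : ℝ) {t : Fin p → ℝ} (ht : ∀ i, 0 ≤ t i)
    (τ σ : Fin p → ℂ) :
    -(18432 * (p : ℝ) ^ 4 / 2 ^ N * Real.exp (-(xav t / 2)) * (‖τ‖ ^ 4 + ‖σ‖ ^ 2))
      + ((Jm p (2 ^ N) (xav t) (txav τ) (txav σ)).mul (JK N M ε₁ δ t τ σ)).Q
      ≤ holQ (Wm N M ε₁ δ) t τ σ := by
  obtain ⟨J, h1, h2⟩ := exists_jet_G hp N ht τ σ
  have h3 := (hasJet_mcut (2 ^ N) t τ σ).mul (hasJet_K N M ε₁ δ ht τ σ)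
  have h4 := h1.add h3
  have h5 := (holQ_eq_of_hasJet (W := Wm N M ε₁ δ) (t := t) (τ := τ) (σ := σ)
    ((Wm_smooth hp N M ε₁ δ t ht).of_le (WithTop.coe_le_coe.2 le_top)) h4).1
  rw [h5]
  have h6 : (J.add ((Jm p (2 ^ N) (xav t) (txav τ) (txav σ)).mul (JK N M ε₁ δ t τ σ))).Q =
    J.Q + ((Jm p (2 ^ N) (xav t) (txav τ) (txav σ)).mul (JK N M ε₁ δ t τ σ)).Q := rfl
  rw [h6]
  have := (abs_le.1 h2).1
  linarith

end

end Pool.Agent.H789.HSC.T11aux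


namespace Pool.Agent.H789.HSC.T11aux

noncomputable section

variable {p : ℕ}

/-! components of the jets -/

section comps
variable (W : (Fin p → ℝ) → ℝ) (t : Fin p → ℝ) (τ σ : Fin p → ℂ)

theorem mj_v : (multiJet W (fun i => Jet.hol (t i) (τ i) (σ i))).v = W t := rfl
theorem mj_a : (multiJet W (fun i => Jet.hol (t i) (τ i) (σ i))).a = D1 W t τ := rfl
theorem mj_b : (multiJet W (fun i => Jet.hol (t i) (τ i) (σ i))).b = D2 W t τ τ + D1 W t σ := rfl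
theorem mj_h : (multiJet W (fun i => Jet.hol (t i) (τ i) (σ i))).h =
    (D2 W t τ (fun i => conj (τ i))).re := by
  simp [multiJet, Jet.hol]
theorem mj_k : (multiJet W (fun i => Jet.hol (t i) (τ i) (σ i))).k =
    D3 W t τ τ (fun i => conj (τ i)) + D2 W t σ (fun i => conj (τ i)) := by
  simp [multiJet, Jet.hol, D2, D1]
end comps

section JKcomps
variable (N M : ℕ) (ε₁ δ : ℝ) (t : Fin p → ℝ) (τ σ : Fin p → ℂ)

theorem JK_v : (JK N M ε₁ δ t τ σ).v = E0 N t + ε₁ / N * wq t + δ / N * S0 M t := rfl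
theorem JK_a : (JK N M ε₁ δ t τ σ).a = D1 (E0 N) t τ + ((ε₁ / N : ℝ) : ℂ) * D1 wq t τ
    + ((δ / N : ℝ) : ℂ) * D1 (S0 M) t τ := rfl
theorem JK_b : (JK N M ε₁ δ t τ σ).b = (D2 (E0 N) t τ τ + D1 (E0 N) t σ)
    + ((ε₁ / N : ℝ) : ℂ) * (D2 wq t τ τ + D1 wq t σ)
    + ((δ / N : ℝ) : ℂ) * (D2 (S0 M) t τ τ + D1 (S0 M) t σ) := rfl
theorem JK_h : (JK N M ε₁ δ t τ σ).h = (D2 (E0 N) t τ (fun i => conj (τ i))).re
    + ε₁ / N * (D2 wq t τ (fun i => conj (τ i))).re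
    + δ / N * (D2 (S0 M) t τ (fun i => conj (τ i))).re := by
  rw [← mj_h, ← mj_h wq, ← mj_h (S0 M)]; rfl
theorem JK_k : (JK N M ε₁ δ t τ σ).k =
    (D3 (E0 N) t τ τ (fun i => conj (τ i)) + D2 (E0 N) t σ (fun i => conj (τ i)))
    + ((ε₁ / N : ℝ) : ℂ) * (D3 wq t τ τ (fun i => conj (τ i)) + D2 wq t σ (fun i => conj (τ i)))
    + ((δ / N : ℝ) : ℂ) *
      (D3 (S0 M) t τ τ (fun i => conj (τ i)) + D2 (S0 M) t σ (fun i => conj (τ i))) := by
  rw [← mj_k, ← mj_k wq, ← mj_k (S0 M)]; rfl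
theorem JK_Q : (JK N M ε₁ δ t τ σ).Q = holQ (E0 N) t τ σ + ε₁ / N * holQ wq t τ σ
    + δ / N * holQ (S0 M) t τ σ := by
  rw [← holQ_eq_multiJet, ← holQ_eq_multiJet wq, ← holQ_eq_multiJet (S0 M)]; rfl

end JKcomps

/-! size structures -/

structure KBd (C G κ x y X Y : ℝ) (J : Jet) : Prop where
  v : |J.v| ≤ C * (G * x ^ 2 + κ / y ^ 2)
  a : ‖J.a‖ ≤ C * ((G * x + κ / y ^ 2) * X)
  b : ‖J.b‖ ≤ C * (G * X ^ 2 + (G * x + κ / y ^ 2) * Y)
  h : |J.h| ≤ C * (G * X ^ 2)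
  k : ‖J.k‖ ≤ C * (3 * κ * X ^ 3 / y + G * (X * Y))

structure MBd (D α X Y : ℝ) (J : Jet) : Prop where
  a : ‖J.a‖ ≤ D * (α * X)
  b : ‖J.b‖ ≤ D * (α ^ 2 * X ^ 2 + α * Y)
  h : |J.h| ≤ D * (α ^ 2 * X ^ 2)
  k : ‖J.k‖ ≤ D * (α ^ 3 * X ^ 3 + α ^ 2 * (X * Y))
  Q : |J.Q| ≤ D * (α ^ 2 * Y ^ 2 + 2 * α ^ 3 * (X ^ 2 * Y) + α ^ 4 * X ^ 4)

theorem MBd_Jm {R x X Y : ℝ} (hR : 0 < R) (hx : 0 ≤ x) {u v : ℂ} (hu : ‖u‖ ≤ X) (hv : ‖v‖ ≤ Y) :
    MBd (680 * Real.exp (-(8 * p / R * x))) (8 * p / R) X Y (Jm p R x u v) := by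
  have ha : 0 ≤ 8 * (p : ℝ) / R := by positivity
  set α : ℝ := 8 * (p : ℝ) / R with hα
  have h1 := abs_M1_le ha hx
  have h2 := abs_M2_le ha hx
  have h3 := abs_M3_le ha hx
  have h4 := abs_M4_le ha hx
  set D : ℝ := 680 * Real.exp (-(α * x)) with hD
  have hD0 : 0 ≤ D := by positivity
  have hX : 0 ≤ X := (norm_nonneg _).trans hu
  have hY : 0 ≤ Y := (norm_nonneg _).trans hv
  have n1 : ‖(M1 α x : ℂ)‖ ≤ D * α := by rwa [Complex.norm_real]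
  have n2 : ‖(M2 α x : ℂ)‖ ≤ D * α ^ 2 := by rwa [Complex.norm_real]
  have n3 : ‖(M3 α x : ℂ)‖ ≤ D * α ^ 3 := by rwa [Complex.norm_real]
  have hu2 : ‖u‖ ^ 2 ≤ X ^ 2 := by gcongr
  have hu4 : ‖u‖ ^ 4 ≤ X ^ 4 := by gcongr
  have hv2 : ‖v‖ ^ 2 ≤ Y ^ 2 := by gcongr
  refine ⟨?_, ?_, ?_, ?_, ?_⟩
  · simp only [Jm, Jet.comp, Jet.hol, norm_mul]
    calc _ ≤ D * α * X := mul_le_mul n1 hu (norm_nonneg _) (by positivity)
      _ = _ := by ring
  · simp only [Jm, Jet.comp, Jet.hol]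
    have a1 : ‖(M2 α x : ℂ) * u ^ 2‖ ≤ D * α ^ 2 * X ^ 2 := by
      rw [norm_mul, norm_pow]; exact mul_le_mul n2 hu2 (by positivity) (by positivity)
    have a2 : ‖(M1 α x : ℂ) * v‖ ≤ D * α * Y := by
      rw [norm_mul]; exact mul_le_mul n1 hv (by positivity) (by positivity)
    calc _ ≤ D * α ^ 2 * X ^ 2 + D * α * Y := (norm_add_le _ _).trans (add_le_add a1 a2)
      _ = _ := by ring
  · simp only [Jm, Jet.comp, Jet.hol]
    have a1 : |M2 α x * ‖u‖ ^ 2| ≤ D * α ^ 2 * X ^ 2 := by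
      rw [abs_mul, abs_of_nonneg (by positivity : (0:ℝ) ≤ ‖u‖ ^ 2)]
      exact mul_le_mul h2 hu2 (by positivity) (by positivity)
    have e : M2 α x * ‖u‖ ^ 2 + M1 α x * 0 = M2 α x * ‖u‖ ^ 2 := by ring
    rw [e]
    calc _ ≤ D * α ^ 2 * X ^ 2 := a1
      _ = _ := by ring
  · simp only [Jm, Jet.comp, Jet.hol]
    have a1 : ‖(M3 α x : ℂ) * (‖u‖ : ℂ) ^ 2 * u‖ ≤ D * α ^ 3 * X ^ 2 * X := by
      rw [norm_mul, norm_mul, norm_pow, Complex.norm_real ‖u‖, norm_norm]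
      exact mul_le_mul (mul_le_mul n3 hu2 (by positivity) (by positivity)) hu (by positivity)
        (by positivity)
    have a2 : ‖(M2 α x : ℂ) * conj u * v‖ ≤ D * α ^ 2 * X * Y := by
      rw [norm_mul, norm_mul, RCLike.norm_conj]
      exact mul_le_mul (mul_le_mul n2 hu (by positivity) (by positivity)) hv (by positivity)
        (by positivity)
    have e : (M3 α x : ℂ) * (‖u‖ : ℂ) ^ 2 * u + 2 * (M2 α x : ℂ) * u * ((0 : ℝ) : ℂ)
        + (M2 α x : ℂ) * conj u * v + (M1 α x : ℂ) * 0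
        = (M3 α x : ℂ) * (‖u‖ : ℂ) ^ 2 * u + (M2 α x : ℂ) * conj u * v := by
      push_cast; ring
    rw [e]
    calc _ ≤ D * α ^ 3 * X ^ 2 * X + D * α ^ 2 * X * Y := (norm_add_le _ _).trans (add_le_add a1 a2)
      _ = _ := by ring
  · simp only [Jm, Jet.comp, Jet.hol]
    have a1 : |M2 α x * ‖v‖ ^ 2| ≤ D * α ^ 2 * Y ^ 2 := by
      rw [abs_mul, abs_of_nonneg (by positivity : (0:ℝ) ≤ ‖v‖ ^ 2)]
      exact mul_le_mul h2 hv2 (by positivity) (by positivity)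
    have a2 : |M3 α x * ((conj u) ^ 2 * v).re| ≤ D * α ^ 3 * (X ^ 2 * Y) := by
      rw [abs_mul]
      refine mul_le_mul h3 ?_ (abs_nonneg _) (by positivity)
      refine (Complex.abs_re_le_norm _).trans ?_
      rw [norm_mul, norm_pow, RCLike.norm_conj]
      exact mul_le_mul hu2 hv (by positivity) (by positivity)
    have a3 : |M4 α x * ‖u‖ ^ 4| ≤ D * α ^ 4 * X ^ 4 := by
      rw [abs_mul, abs_of_nonneg (by positivity : (0:ℝ) ≤ ‖u‖ ^ 4)]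
      exact mul_le_mul h4 hu4 (by positivity) (by positivity)
    have e : M1 α x * 0 + M2 α x * (2 * 0 ^ 2 + ‖v‖ ^ 2 + 4 * (u * conj (0 : ℂ)).re)
        + M3 α x * (4 * ‖u‖ ^ 2 * 0 + 2 * ((conj u) ^ 2 * v).re) + M4 α x * ‖u‖ ^ 4
        = M2 α x * ‖v‖ ^ 2 + 2 * (M3 α x * ((conj u) ^ 2 * v).re) + M4 α x * ‖u‖ ^ 4 := by
      simp; ring
    rw [e]
    rw [abs_le] at *
    constructor <;> nlinarith [a1.1, a1.2, a2.1, a2.2, a3.1, a3.2]


theorem mul_lower {C D α G κ x y X Y : ℝ} (hC : 0 ≤ C) (hD : 0 ≤ D) (hα : 0 ≤ α) (hG : 0 ≤ G)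
    (hκ : 0 ≤ κ) (hx : 0 ≤ x) (hy : 0 < y) (hX : 0 ≤ X) (hY : 0 ≤ Y) {J K : Jet}
    (h : MBd D α X Y J) (h' : KBd C G κ x y X Y K) :
    J.v * K.Q - D * C * Err α G κ x y X Y ≤ (J.mul K).Q := by
  have e2 : |J.Q * K.v| ≤ (D * (α ^ 2 * Y ^ 2 + 2 * α ^ 3 * (X ^ 2 * Y) + α ^ 4 * X ^ 4)) *
      (C * (G * x ^ 2 + κ / y ^ 2)) := by
    rw [abs_mul]; exact mul_le_mul h.Q h'.v (abs_nonneg _) (by positivity)
  have e3 : |(J.a * conj K.k).re| ≤ (D * (α * X)) * (C * (3 * κ * X ^ 3 / y + G * (X * Y))) :=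
    (abs_re_conj_mul_le _ _).trans (mul_le_mul h.a h'.k (norm_nonneg _) (by positivity))
  have e4 : |(J.k * conj K.a).re| ≤ (D * (α ^ 3 * X ^ 3 + α ^ 2 * (X * Y))) *
      (C * ((G * x + κ / y ^ 2) * X)) :=
    (abs_re_conj_mul_le _ _).trans (mul_le_mul h.k h'.a (norm_nonneg _) (by positivity))
  have e5 : |(J.b * conj K.b).re| ≤ (D * (α ^ 2 * X ^ 2 + α * Y)) *
      (C * (G * X ^ 2 + (G * x + κ / y ^ 2) * Y)) :=
    (abs_re_conj_mul_le _ _).trans (mul_le_mul h.b h'.b (norm_nonneg _) (by positivity))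
  have e6 : |J.h * K.h| ≤ (D * (α ^ 2 * X ^ 2)) * (C * (G * X ^ 2)) := by
    rw [abs_mul]; exact mul_le_mul h.h h'.h (abs_nonneg _) (by positivity)
  have e : (J.mul K).Q = J.v * K.Q + (J.Q * K.v + 4 * (J.a * conj K.k).re
      + 4 * (J.k * conj K.a).re + 2 * (J.b * conj K.b).re + 4 * (J.h * K.h)) := by
    simp only [Jet.mul]; ring
  have e' : D * C * Err α G κ x y X Y =
      (D * (α ^ 2 * Y ^ 2 + 2 * α ^ 3 * (X ^ 2 * Y) + α ^ 4 * X ^ 4)) *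
      (C * (G * x ^ 2 + κ / y ^ 2))
      + 4 * ((D * (α * X)) * (C * (3 * κ * X ^ 3 / y + G * (X * Y))))
      + 4 * ((D * (α ^ 3 * X ^ 3 + α ^ 2 * (X * Y))) * (C * ((G * x + κ / y ^ 2) * X)))
      + 2 * ((D * (α ^ 2 * X ^ 2 + α * Y)) * (C * (G * X ^ 2 + (G * x + κ / y ^ 2) * Y)))
      + 4 * ((D * (α ^ 2 * X ^ 2)) * (C * (G * X ^ 2))) := by
    unfold Err; ring
  rw [e, e']
  have f2 := (abs_le.1 e2).1
  have f3 := (abs_le.1 e3).1
  have f4 := (abs_le.1 e4).1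
  have f5 := (abs_le.1 e5).1
  have f6 := (abs_le.1 e6).1
  linarith

end

end Pool.Agent.H789.HSC.T11aux
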