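import Pool.Agent.H789.HSC.ConeDefs
import Pool.Agent.H789.HSC.JetCalc
import Pool.Agent.H789.HSC.T6
import Pool.Agent.H789.HSC.T9
import Pool.Agent.H789.HSC.T10
import Pool.Agent.H789.HSC.T11a

set_option linter.unusedVariables false

open scoped BigOperators ContDiff ComplexConjugate Topology

namespace Pool.Agent.H789.HSC.T11aux

noncomputable section

variable {p : ℕ}

/-! ### the F part -/

theorem QF_lower {R t : ℝ} (hR : 0 < R) (ht : 0 ≤ t) (τ σ : ℂ) :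
    Real.exp (-(2 * t / R)) / 32 * (‖σ‖ ^ 2 + ‖τ‖ ^ 4 / R ^ 2) ≤ QF R t τ σ := by
  set r : ℝ := ((conj τ) ^ 2 * σ).re / R with hr
  have hr2 : |r| ≤ ‖τ‖ ^ 2 / R * ‖σ‖ := by
    rw [hr, abs_div, abs_of_pos hR]
    have : |((conj τ) ^ 2 * σ).re| ≤ ‖τ‖ ^ 2 * ‖σ‖ := by
      refine (Complex.abs_re_le_norm _).trans ?_
      rw [norm_mul, norm_pow, RCLike.norm_conj]
    calc _ ≤ ‖τ‖ ^ 2 * ‖σ‖ / R := by gcongr
      _ = _ := by ring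
  have e2 : Real.exp (-(2 * t / R)) = Real.exp (-(t / R)) ^ 2 := by
    rw [← Real.exp_nat_mul]; congr 1; push_cast; ring
  have hE : Real.exp (-(t / R)) ≤ 1 := Real.exp_le_one_iff.2 (by
    have : 0 ≤ t / R := by positivity
    linarith)
  have hE0 := Real.exp_pos (-(t / R))
  have hQ : QF R t τ σ = (Real.exp (-(t / R)) * (‖σ‖ ^ 2 - 2 * r + (‖τ‖ ^ 2 / R) ^ 2)
      + Real.exp (-(t / R)) ^ 2 * (‖σ‖ ^ 2 - 4 * r + 4 * (‖τ‖ ^ 2 / R) ^ 2)) / 4 := by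
    unfold QF F4 F3 F2
    rw [e2, hr]
    field_simp
    ring
  rw [hQ, e2]
  have h4 : ‖τ‖ ^ 4 / R ^ 2 = (‖τ‖ ^ 2 / R) ^ 2 := by rw [div_pow]; ring
  rw [h4]
  set u : ℝ := ‖τ‖ ^ 2 / R
  set w : ℝ := ‖σ‖
  have hu : 0 ≤ u := by positivity
  have hw : 0 ≤ w := norm_nonneg _
  set e := Real.exp (-(t / R))
  have hr3 := abs_le.1 hr2
  have h1 : 0 ≤ w ^ 2 - 2 * r + u ^ 2 := by nlinarith [sq_nonneg (w - u)]
  have h2 : 0 ≤ w ^ 2 - 4 * r + 4 * u ^ 2 := by nlinarith [sq_nonneg (w - 2 * u)]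
  have h5 : e ^ 2 * (w ^ 2 - 2 * r + u ^ 2) ≤ e * (w ^ 2 - 2 * r + u ^ 2) := by
    have : e ^ 2 ≤ e := by nlinarith
    gcongr
  have h6 : (w ^ 2 + u ^ 2) / 8 ≤ (w ^ 2 - 2 * r + u ^ 2) + (w ^ 2 - 4 * r + 4 * u ^ 2) := by
    nlinarith [sq_nonneg (w - 8 / 5 * u)]
  have h7 := mul_le_mul_of_nonneg_left h6 (sq_nonneg e)
  nlinarith [h7, h5]

theorem exists_norm_eq (hp : 1 ≤ p) (τ : Fin p → ℂ) : ∃ i, ‖τ‖ ≤ ‖τ i‖ := by
  haveI : Nonempty (Fin p) := ⟨⟨0, hp⟩⟩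
  obtain ⟨i, hi⟩ := Finite.exists_max (fun i => ‖τ i‖)
  exact ⟨i, (pi_norm_le_iff_of_nonneg (norm_nonneg _)).2 hi⟩

theorem F_lower (hp : 1 ≤ p) {R : ℝ} (hR : 1 ≤ R) {t : Fin p → ℝ} (ht : ∀ i, 0 ≤ t i)
    {J : Finset (Fin p)} {τ σ : Fin p → ℂ} (hJ : ∀ i, i ∉ J → τ i = 0 ∧ σ i = 0) :
    1 / (64 * R ^ 2) * ∑ i ∈ J, Real.exp (-(2 * t i / R)) * (‖τ i‖ ^ 4 + ‖σ i‖ ^ 2)
      + 1 / 64 * Real.exp (-(8 * p / R * xav t / 4)) * (‖τ‖ ^ 4 / R ^ 2 + ‖σ‖ ^ 2)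
      ≤ ∑ i, QF R (t i) (τ i) (σ i) := by
  have hR0 : 0 < R := by linarith
  have h1 : ∑ i, Real.exp (-(2 * t i / R)) / 32 * (‖σ i‖ ^ 2 + ‖τ i‖ ^ 4 / R ^ 2) ≤
      ∑ i, QF R (t i) (τ i) (σ i) := Finset.sum_le_sum fun i _ => QF_lower hR0 (ht i) _ _
  refine le_trans ?_ h1
  have h2 : ∑ i, Real.exp (-(2 * t i / R)) / 32 * (‖σ i‖ ^ 2 + ‖τ i‖ ^ 4 / R ^ 2)
      = ∑ i, Real.exp (-(2 * t i / R)) / 64 * (‖σ i‖ ^ 2 + ‖τ i‖ ^ 4 / R ^ 2)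
      + ∑ i, Real.exp (-(2 * t i / R)) / 64 * (‖σ i‖ ^ 2 + ‖τ i‖ ^ 4 / R ^ 2) := by
    rw [← Finset.sum_add_distrib]
    refine Finset.sum_congr rfl fun i _ => ?_
    ring
  rw [h2]
  refine add_le_add ?_ ?_
  · have h3 : ∑ i ∈ J, Real.exp (-(2 * t i / R)) / 64 * (‖σ i‖ ^ 2 + ‖τ i‖ ^ 4 / R ^ 2) ≤
        ∑ i, Real.exp (-(2 * t i / R)) / 64 * (‖σ i‖ ^ 2 + ‖τ i‖ ^ 4 / R ^ 2) :=
      Finset.sum_le_sum_of_subset_of_nonneg (Finset.subset_univ _) fun i _ _ => by positivity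
    refine le_trans ?_ h3
    rw [Finset.mul_sum]
    refine Finset.sum_le_sum fun i _ => ?_
    have h4 : ‖σ i‖ ^ 2 / R ^ 2 ≤ ‖σ i‖ ^ 2 := div_le_self (by positivity) (one_le_pow₀ hR)
    have h5 : 1 / (64 * R ^ 2) * (Real.exp (-(2 * t i / R)) * (‖τ i‖ ^ 4 + ‖σ i‖ ^ 2))
        = Real.exp (-(2 * t i / R)) / 64 * (‖σ i‖ ^ 2 / R ^ 2 + ‖τ i‖ ^ 4 / R ^ 2) := by
      field_simp; ring
    rw [h5]
    gcongr
  · have hexp : ∀ i, Real.exp (-(8 * p / R * xav t / 4)) ≤ Real.exp (-(2 * t i / R)) := by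
      intro i
      apply Real.exp_le_exp.2
      have h3 : 8 * p / R * xav t / 4 = 2 * (p * xav t) / R := by ring
      rw [h3]
      have := le_xav ht i
      have : 2 * t i / R ≤ 2 * (p * xav t) / R := by gcongr
      linarith
    obtain ⟨i, hi⟩ := exists_norm_eq hp τ
    obtain ⟨j, hj⟩ := exists_norm_eq hp σ
    have hsum : ‖σ‖ ^ 2 + ‖τ‖ ^ 4 / R ^ 2 ≤ ∑ i, (‖σ i‖ ^ 2 + ‖τ i‖ ^ 4 / R ^ 2) := by
      rw [Finset.sum_add_distrib]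
      refine add_le_add ?_ ?_
      · calc ‖σ‖ ^ 2 ≤ ‖σ j‖ ^ 2 := by gcongr
          _ ≤ _ := Finset.single_le_sum (f := fun i => ‖σ i‖ ^ 2) (fun i _ => by positivity)
            (Finset.mem_univ j)
      · calc ‖τ‖ ^ 4 / R ^ 2 ≤ ‖τ i‖ ^ 4 / R ^ 2 := by gcongr
          _ ≤ _ := Finset.single_le_sum (f := fun i => ‖τ i‖ ^ 4 / R ^ 2)
            (fun i _ => by positivity) (Finset.mem_univ i)
    calc 1 / 64 * Real.exp (-(8 * p / R * xav t / 4)) * (‖τ‖ ^ 4 / R ^ 2 + ‖σ‖ ^ 2)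
        = Real.exp (-(8 * p / R * xav t / 4)) / 64 * (‖σ‖ ^ 2 + ‖τ‖ ^ 4 / R ^ 2) := by ring
      _ ≤ Real.exp (-(8 * p / R * xav t / 4)) / 64 * ∑ i, (‖σ i‖ ^ 2 + ‖τ i‖ ^ 4 / R ^ 2) := by
        gcongr
      _ = ∑ i, Real.exp (-(8 * p / R * xav t / 4)) / 64 * (‖σ i‖ ^ 2 + ‖τ i‖ ^ 4 / R ^ 2) :=
        Finset.mul_sum _ _ _
      _ ≤ _ := by
        refine Finset.sum_le_sum fun i _ => ?_
        have := hexp i
        gcongr

/-! ### bounds of the jet of `K` -/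

theorem norm_conj_vec (τ : Fin p → ℂ) : ‖(fun i => conj (τ i))‖ = ‖τ‖ := by
  apply le_antisymm
  · refine (pi_norm_le_iff_of_nonneg (norm_nonneg _)).2 fun i => ?_
    rw [RCLike.norm_conj]; exact norm_le_pi_norm τ i
  · refine (pi_norm_le_iff_of_nonneg (norm_nonneg _)).2 fun i => ?_
    have := norm_le_pi_norm (fun i => conj (τ i)) i
    rwa [RCLike.norm_conj] at this

theorem coef_norm_le {a κ : ℝ} (h0 : 0 ≤ a) (h1 : a ≤ κ) (z : ℂ) {b : ℝ} (h : ‖z‖ ≤ b) :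
    ‖((a : ℝ) : ℂ) * z‖ ≤ κ * b := by
  rw [norm_mul, Complex.norm_real, Real.norm_eq_abs, abs_of_nonneg h0]
  exact mul_le_mul h1 h (norm_nonneg _) (h0.trans h1)

theorem coef_abs_le {a κ : ℝ} (h0 : 0 ≤ a) (h1 : a ≤ κ) (z : ℝ) {b : ℝ} (h : |z| ≤ b) :
    |a * z| ≤ κ * b := by
  rw [abs_mul, abs_of_nonneg h0]
  exact mul_le_mul h1 h (abs_nonneg _) (h0.trans h1)

theorem exists_const (hp : 2 ≤ p) {k : ℕ} (hk : 2 * k + 1 ≤ p) :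
    ∃ c₀ : ℝ, 0 < c₀ ∧ ∃ C : ℝ, 1 ≤ C ∧ ∃ ε : ℝ, 0 < ε ∧ ∀ N : ℕ, 1 ≤ N → ∀ M : ℕ,
      ∀ ε₁ : ℝ, 0 ≤ ε₁ → ε₁ ≤ 1 → ∀ δ : ℝ, 0 ≤ δ → δ ≤ 1 → ∀ t : Fin p → ℝ, (∀ i, 0 ≤ t i) →
      ∀ J : Finset (Fin p), J.card ≤ k → (∀ i, i ∉ J → t i ≤ ε) →
      ∀ τ σ : Fin p → ℂ, (∀ i, i ∉ J → τ i = 0 ∧ σ i = 0) →
      KBd C (gN N (xav t) + 2 * (1 / N)) (1 / N) (xav t) (1 + xav t) ‖τ‖ ‖σ‖
        (JK N M ε₁ δ t τ σ) ∧
      -(C * (1 / N) * ((ε₁ + δ) * ‖τ‖ ^ 4 / (1 + xav t) ^ 2 + 6 * (‖τ‖ ^ 2 * ‖σ‖) / (1 + xav t)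
        + 3 * ‖σ‖ ^ 2)) ≤ (JK N M ε₁ δ t τ σ).Q ∧
      (1 + xav t ≤ 2 ^ N →
        c₀ * (1 / N) * ‖τ‖ ^ 4 / (1 + xav t) ^ 2 - C * (1 / N) * ((ε₁ + δ) * ‖τ‖ ^ 4
        / (1 + xav t) ^ 2 + 6 * (‖τ‖ ^ 2 * ‖σ‖) / (1 + xav t)
        + 3 * ‖σ‖ ^ 2) ≤ (JK N M ε₁ δ t τ σ).Q) := by
  obtain ⟨c₀, hc₀, εa, hεa, H4⟩ := E0_D4 hp hk
  obtain ⟨C3, H3⟩ := E0_D3 (p := p) hp
  obtain ⟨C2, εb, hεb, H2⟩ := E0_D2_lower hp hk
  obtain ⟨CE, HE⟩ := E0_upper (p := p) hp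
  obtain ⟨Cw, Hw⟩ := wq_upper (p := p) hp
  obtain ⟨CS, HS⟩ := S0_bounds hp hk
  set C : ℝ := |C3| + |C2| + |CE| + |Cw| + |CS| + 1 with hC
  have hC1 : 1 ≤ C := by rw [hC]; linarith [abs_nonneg C3, abs_nonneg C2, abs_nonneg CE, abs_nonneg Cw, abs_nonneg CS]
  have hC3 : C3 ≤ C := by rw [hC]; linarith [abs_nonneg C3, abs_nonneg C2, abs_nonneg CE, abs_nonneg Cw, abs_nonneg CS, le_abs_self C3]
  have hC2 : C2 ≤ C := by rw [hC]; linarith [abs_nonneg C3, abs_nonneg C2, abs_nonneg CE, abs_nonneg Cw, abs_nonneg CS, le_abs_self C2]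
  have hCE : CE ≤ C := by rw [hC]; linarith [abs_nonneg C3, abs_nonneg C2, abs_nonneg CE, abs_nonneg Cw, abs_nonneg CS, le_abs_self CE]
  have hCw : Cw ≤ C := by rw [hC]; linarith [abs_nonneg C3, abs_nonneg C2, abs_nonneg CE, abs_nonneg Cw, abs_nonneg CS, le_abs_self Cw]
  have hCS : CS ≤ C := by rw [hC]; linarith [abs_nonneg C3, abs_nonneg C2, abs_nonneg CE, abs_nonneg Cw, abs_nonneg CS, le_abs_self CS]
  refine ⟨c₀, hc₀, C, hC1, min (min εa εb) 1, by positivity, ?_⟩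
  intro N hN M ε₁ hε0 hε1 δ hδ0 hδ1 t ht J hJ htJ τ σ hτσ
  have hNr : (1 : ℝ) ≤ N := by exact_mod_cast hN
  have hN0 : (0 : ℝ) < N := by linarith
  have hCda : ConeDir k εa t J τ := ⟨ht, hJ, fun i hi => (htJ i hi).trans ((min_le_left _ _).trans (min_le_left _ _)), fun i hi => (hτσ i hi).1⟩
  have hCdb : ConeDir k εb t J σ := ⟨ht, hJ, fun i hi => (htJ i hi).trans ((min_le_left _ _).trans (min_le_right _ _)), fun i hi => (hτσ i hi).2⟩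
  have hCd1 : ConeDir k 1 t J τ := ⟨ht, hJ, fun i hi => (htJ i hi).trans (min_le_right _ _), fun i hi => (hτσ i hi).1⟩
  have hCd2 : ConeDir k 1 t J σ := ⟨ht, hJ, fun i hi => (htJ i hi).trans (min_le_right _ _), fun i hi => (hτσ i hi).2⟩
  obtain ⟨H4a, H4b⟩ := H4 N hN t J τ hCda
  have H3' := H3 N hN t ht
  have H2' := H2 N hN t J σ hCdb
  obtain ⟨HEv, HE1, HE2⟩ := HE N hN t ht
  obtain ⟨Hwv, Hw1, Hw2, Hw3, Hw4⟩ := Hw t ht
  obtain ⟨HSv, HS1, HS1', HS2, HS2', HS2'', HS2''', HS3, HS3', HS4⟩ := HS M t J τ σ hCd1 hCd2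
  have hx := xav_nonneg ht
  set x : ℝ := xav t with hxdef
  set X : ℝ := ‖τ‖ with hX
  set Y : ℝ := ‖σ‖ with hY
  have hX0 : 0 ≤ X := norm_nonneg _
  have hY0 : 0 ≤ Y := norm_nonneg _
  have hcτ : ‖(fun i => conj (τ i))‖ = X := norm_conj_vec τ
  have hcσ : ‖(fun i => conj (σ i))‖ = Y := norm_conj_vec σ
  have hg : 0 ≤ gN N x := le_min zero_le_one (by positivity)
  set g : ℝ := gN N x with hgdef
  have hy : 0 < 1 + x := by linarith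
  have hy1 : 1 ≤ 1 + x := by linarith
  set y : ℝ := 1 + x with hydef
  have hy2 : (1 : ℝ) ≤ y ^ 2 := one_le_pow₀ hy1
  have hyy : y ≤ y ^ 2 := by nlinarith
  set κ : ℝ := 1 / (N : ℝ) with hκ
  have hκ0 : 0 ≤ κ := by positivity
  have hκ1 : κ ≤ 1 := by rw [hκ]; exact (div_le_one hN0).2 hNr
  have hεκ : ε₁ / N ≤ κ := by rw [hκ]; gcongr
  have hδκ : δ / N ≤ κ := by rw [hκ]; gcongr
  have hεκ0 : 0 ≤ ε₁ / N := by positivity
  have hδκ0 : 0 ≤ δ / N := by positivity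
  -- uniformised bounds
  have A0 : |E0 N t| ≤ C * g * x ^ 2 := HEv.trans (by gcongr)
  have A1 : ∀ u : Fin p → ℂ, ‖D1 (E0 N) t u‖ ≤ C * g * x * ‖u‖ := fun u => (HE1 u).trans (by gcongr)
  have A2 : ∀ u v : Fin p → ℂ, ‖D2 (E0 N) t u v‖ ≤ C * g * (‖u‖ * ‖v‖) :=
    fun u v => (HE2 u v).trans (by gcongr)
  have A3 : ∀ u v w : Fin p → ℂ, ‖D3 (E0 N) t u v w‖ ≤ C * κ * (‖u‖ * ‖v‖ * ‖w‖) / y := by
    intro u v w
    refine (H3' u v w).trans ?_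
    have : C3 / N ≤ C * κ := by rw [hκ, mul_one_div]; gcongr
    gcongr
  have B0 : |wq t| ≤ C * x ^ 2 := Hwv.trans (by gcongr)
  have B1 : ∀ u : Fin p → ℂ, ‖D1 wq t u‖ ≤ C * x * ‖u‖ := fun u => (Hw1 u).trans (by gcongr)
  have B2 : ∀ u v : Fin p → ℂ, ‖D2 wq t u v‖ ≤ C * (‖u‖ * ‖v‖) :=
    fun u v => (Hw2 u v).trans (by gcongr)
  have B3 : ∀ u v w : Fin p → ℂ, ‖D3 wq t u v w‖ ≤ C * (‖u‖ * ‖v‖ * ‖w‖) / y :=
    fun u v w => (Hw3 u v w).trans (by gcongr)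
  have B4 : ∀ u v w z : Fin p → ℂ, ‖D4 wq t u v w z‖ ≤ C * (‖u‖ * ‖v‖ * ‖w‖ * ‖z‖) / y ^ 2 :=
    fun u v w z => (Hw4 u v w z).trans (by gcongr)
  have S0' : |S0 M t| ≤ C / y ^ 2 := HSv.trans (by gcongr)
  have S1 : ‖D1 (S0 M) t τ‖ ≤ C * X / y ^ 2 := HS1.trans (by gcongr)
  have S1' : ‖D1 (S0 M) t σ‖ ≤ C * Y / y ^ 2 := HS1'.trans (by gcongr)
  have S2 : ‖D2 (S0 M) t τ τ‖ ≤ C * X ^ 2 := by
    refine HS2.trans ?_
    calc CS * X ^ 2 / y ^ 2 ≤ C * X ^ 2 / y ^ 2 := by gcongr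
      _ ≤ C * X ^ 2 := div_le_self (by positivity) hy2
  have S2' : ‖D2 (S0 M) t τ (fun i => conj (τ i))‖ ≤ C * X ^ 2 := by
    refine HS2'.trans ?_
    calc CS * X ^ 2 / y ^ 2 ≤ C * X ^ 2 / y ^ 2 := by gcongr
      _ ≤ C * X ^ 2 := div_le_self (by positivity) hy2
  have S2'' : ‖D2 (S0 M) t σ (fun i => conj (τ i))‖ ≤ C * (Y * X) := by
    refine HS2''.trans ?_
    calc CS * (Y * X) / y ^ 2 ≤ C * (Y * X) / y ^ 2 := by gcongr
      _ ≤ C * (Y * X) := div_le_self (by positivity) hy2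
  have S2''' : ‖D2 (S0 M) t σ (fun i => conj (σ i))‖ ≤ C * Y ^ 2 := by
    refine HS2'''.trans ?_
    calc CS * Y ^ 2 / y ^ 2 ≤ C * Y ^ 2 / y ^ 2 := by gcongr
      _ ≤ C * Y ^ 2 := div_le_self (by positivity) hy2
  have S3 : ‖D3 (S0 M) t τ τ (fun i => conj (τ i))‖ ≤ C * X ^ 3 / y := by
    refine HS3.trans ?_
    calc CS * X ^ 3 / y ^ 2 ≤ C * X ^ 3 / y ^ 2 := by gcongr
      _ ≤ C * X ^ 3 / y := by gcongr
  have S3' : ‖D3 (S0 M) t σ (fun i => conj (τ i)) (fun i => conj (τ i))‖ ≤ C * (Y * X ^ 2) / y := by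
    refine HS3'.trans ?_
    calc CS * (Y * X ^ 2) / y ^ 2 ≤ C * (Y * X ^ 2) / y ^ 2 := by gcongr
      _ ≤ C * (Y * X ^ 2) / y := by gcongr
  have S4 : -(C * X ^ 4 / y ^ 2) ≤
      (D4 (S0 M) t τ τ (fun i => conj (τ i)) (fun i => conj (τ i))).re := by
    refine le_trans ?_ HS4
    have : CS * X ^ 4 / y ^ 2 ≤ C * X ^ 4 / y ^ 2 := by gcongr
    linarith
  have D2l : -(C * κ * Y ^ 2) ≤ (D2 (E0 N) t σ (fun i => conj (σ i))).re := by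
    refine le_trans ?_ H2'
    have h1 : C2 / N ≤ C * κ := by rw [hκ, mul_one_div]; gcongr
    have h2 : C2 / N * Y ^ 2 ≤ C * κ * Y ^ 2 := by gcongr
    linarith
  have hcommon : -(C * κ * ((ε₁ + δ) * X ^ 4 / y ^ 2 + 6 * (X ^ 2 * Y) / y + 3 * Y ^ 2)) +
      (D4 (E0 N) t τ τ (fun i => conj (τ i)) (fun i => conj (τ i))).re ≤
      (JK N M ε₁ δ t τ σ).Q := by
    rw [JK_Q]
    unfold holQ
    have q1 := (abs_le.1 ((Complex.abs_re_le_norm _).trans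
      (A3 σ (fun i => conj (τ i)) (fun i => conj (τ i))))).1
    have q2 := (abs_le.1 ((Complex.abs_re_le_norm _).trans
      (B3 σ (fun i => conj (τ i)) (fun i => conj (τ i))))).1
    have q3 := (abs_le.1 ((Complex.abs_re_le_norm _).trans S3')).1
    have q4 := (abs_le.1 ((Complex.abs_re_le_norm _).trans
      (B4 τ τ (fun i => conj (τ i)) (fun i => conj (τ i))))).1
    have q5 := (abs_le.1 ((Complex.abs_re_le_norm _).trans (B2 σ (fun i => conj (σ i))))).1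
    have q6 := (abs_le.1 ((Complex.abs_re_le_norm _).trans S2''')).1
    rw [hcτ] at q1 q2 q4
    rw [hcσ] at q5
    have r1 : ε₁ / N * (-(C * (X * X * X * X) / y ^ 2)) ≤ ε₁ / N *
      (D4 wq t τ τ (fun i => conj (τ i)) (fun i => conj (τ i))).re :=
      mul_le_mul_of_nonneg_left q4 hεκ0
    have r2 : δ / N * (-(C * X ^ 4 / y ^ 2)) ≤ δ / N *
      (D4 (S0 M) t τ τ (fun i => conj (τ i)) (fun i => conj (τ i))).re :=
      mul_le_mul_of_nonneg_left S4 hδκ0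
    have r3 : -(κ * (C * (Y * X * X) / y)) ≤ ε₁ / N *
      (D3 wq t σ (fun i => conj (τ i)) (fun i => conj (τ i))).re := by
      have h := (abs_le.1 (coef_abs_le hεκ0 hεκ _ (abs_le.2 ⟨q2, (abs_le.1
        ((Complex.abs_re_le_norm _).trans (by
          have := B3 σ (fun i => conj (τ i)) (fun i => conj (τ i))
          rwa [hcτ] at this))).2⟩))).1
      exact h
    have r4 : -(κ * (C * (Y * X ^ 2) / y)) ≤ δ / N *
      (D3 (S0 M) t σ (fun i => conj (τ i)) (fun i => conj (τ i))).re :=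
      (abs_le.1 (coef_abs_le hδκ0 hδκ _ ((Complex.abs_re_le_norm _).trans S3'))).1
    have r5 : -(κ * (C * (Y * Y))) ≤ ε₁ / N * (D2 wq t σ (fun i => conj (σ i))).re := by
      have h := B2 σ (fun i => conj (σ i))
      rw [hcσ] at h
      exact (abs_le.1 (coef_abs_le hεκ0 hεκ _ ((Complex.abs_re_le_norm _).trans h))).1
    have r6 : -(κ * (C * Y ^ 2)) ≤ δ / N * (D2 (S0 M) t σ (fun i => conj (σ i))).re :=
      (abs_le.1 (coef_abs_le hδκ0 hδκ _ ((Complex.abs_re_le_norm _).trans S2'''))).1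
    have s1 : ε₁ / N * (-(C * (X * X * X * X) / y ^ 2)) + δ / N * (-(C * X ^ 4 / y ^ 2))
        = -(C * κ * ((ε₁ + δ) * X ^ 4 / y ^ 2)) := by rw [hκ]; ring
    have s2 : C * κ * (Y * X * X) / y = C * κ * ((X ^ 2 * Y) / y) := by ring
    have s3 : κ * (C * (Y * X * X) / y) = C * κ * ((X ^ 2 * Y) / y) := by ring
    have s4 : κ * (C * (Y * X ^ 2) / y) = C * κ * ((X ^ 2 * Y) / y) := by ring
    have s5 : κ * (C * (Y * Y)) = C * κ * Y ^ 2 := by ring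
    have s6 : κ * (C * Y ^ 2) = C * κ * Y ^ 2 := by ring
    have s7 : -(C * κ * ((ε₁ + δ) * X ^ 4 / y ^ 2 + 6 * (X ^ 2 * Y) / y + 3 * Y ^ 2)) =
      -(C * κ * ((ε₁ + δ) * X ^ 4 / y ^ 2)) - 6 * (C * κ * ((X ^ 2 * Y) / y))
      - 3 * (C * κ * Y ^ 2) := by ring
    rw [s7]
    rw [s2] at q1
    rw [s3] at r3
    rw [s4] at r4
    rw [s5] at r5
    rw [s6] at r6
    linarith
  refine ⟨⟨?_, ?_, ?_, ?_, ?_⟩, ?_, ?_⟩
  · rw [JK_v]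
    have h1 := coef_abs_le hεκ0 hεκ _ B0
    have h2 := coef_abs_le hδκ0 hδκ _ S0'
    calc _ ≤ C * g * x ^ 2 + κ * (C * x ^ 2) + κ * (C / y ^ 2) :=
          (abs_add_le _ _).trans (add_le_add ((abs_add_le _ _).trans (add_le_add A0 h1)) h2)
      _ ≤ C * g * x ^ 2 + κ * (C * x ^ 2) + κ * (C / y ^ 2) + κ * (C * x ^ 2) :=
          le_add_of_nonneg_right (by positivity)
      _ = _ := by ring
  · rw [JK_a]
    have h1 := coef_norm_le hεκ0 hεκ _ (B1 τ)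
    have h2 := coef_norm_le hδκ0 hδκ _ S1
    calc _ ≤ C * g * x * X + κ * (C * x * X) + κ * (C * X / y ^ 2) :=
          (norm_add_le _ _).trans (add_le_add ((norm_add_le _ _).trans (add_le_add (A1 τ) h1)) h2)
      _ ≤ C * g * x * X + κ * (C * x * X) + κ * (C * X / y ^ 2) + κ * (C * x * X) :=
          le_add_of_nonneg_right (by positivity)
      _ = _ := by ring
  · rw [JK_b]
    have h0 := (norm_add_le _ _).trans (add_le_add (A2 τ τ) (A1 σ))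
    have h1 := coef_norm_le hεκ0 hεκ _ ((norm_add_le _ _).trans (add_le_add (B2 τ τ) (B1 σ)))
    have h2 := coef_norm_le hδκ0 hδκ _ ((norm_add_le _ _).trans (add_le_add S2 S1'))
    calc _ ≤ (C * g * (X * X) + C * g * x * Y) + κ * (C * (X * X) + C * x * Y)
            + κ * (C * X ^ 2 + C * Y / y ^ 2) :=
          (norm_add_le _ _).trans (add_le_add ((norm_add_le _ _).trans (add_le_add h0 h1)) h2)
      _ ≤ (C * g * (X * X) + C * g * x * Y) + κ * (C * (X * X) + C * x * Y)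
            + κ * (C * X ^ 2 + C * Y / y ^ 2) + κ * (C * x * Y) :=
          le_add_of_nonneg_right (by positivity)
      _ = _ := by ring
  · rw [JK_h]
    have h0 := A2 τ (fun i => conj (τ i))
    have h1 := B2 τ (fun i => conj (τ i))
    rw [hcτ] at h0 h1
    have h0 := (Complex.abs_re_le_norm _).trans h0
    have h1 := coef_abs_le hεκ0 hεκ _ ((Complex.abs_re_le_norm _).trans h1)
    have h2 := coef_abs_le hδκ0 hδκ _ ((Complex.abs_re_le_norm _).trans S2')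
    calc _ ≤ C * g * (X * X) + κ * (C * (X * X)) + κ * (C * X ^ 2) :=
          (abs_add_le _ _).trans (add_le_add ((abs_add_le _ _).trans (add_le_add h0 h1)) h2)
      _ = _ := by ring
  · rw [JK_k]
    have g0 := A3 τ τ (fun i => conj (τ i))
    have g1 := B3 τ τ (fun i => conj (τ i))
    have h0 := A2 σ (fun i => conj (τ i))
    have h1 := B2 σ (fun i => conj (τ i))
    rw [hcτ] at h0 h1 g0 g1
    have h0 := (norm_add_le _ _).trans (add_le_add g0 h0)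
    have h1 := coef_norm_le hεκ0 hεκ _ ((norm_add_le _ _).trans (add_le_add g1 h1))
    have h2 := coef_norm_le hδκ0 hδκ _ ((norm_add_le _ _).trans (add_le_add S3 S2''))
    calc _ ≤ (C * κ * (X * X * X) / y + C * g * (Y * X)) + κ * (C * (X * X * X) / y + C * (Y * X))
            + κ * (C * X ^ 3 / y + C * (Y * X)) :=
          (norm_add_le _ _).trans (add_le_add ((norm_add_le _ _).trans (add_le_add h0 h1)) h2)
      _ = _ := by ring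
  · linarith
  · intro hle
    have h4 := H4b hle
    have : c₀ * κ * X ^ 4 / y ^ 2 = c₀ / N * X ^ 4 / y ^ 2 := by rw [hκ]; ring
    rw [this]
    linarith

end

end Pool.Agent.H789.HSC.T11aux
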