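import Pool.Agent.H789.HSC.T11z

set_option linter.unusedVariables false

open scoped BigOperators ContDiff ComplexConjugate Topology

namespace Pool.Agent.H789.HSC.T11aux

noncomputable section

/-- expansion of `Err` in terms of `z = α x` -/
theorem Err_eq (α G κ x y X Y : ℝ) (hy : y ≠ 0) : Err α G κ x y X Y =
    X ^ 4 * (α ^ 2 * G * (α * x) ^ 2 + α ^ 4 * κ / y ^ 2 + 12 * α * κ / y
      + 4 * α ^ 2 * G * (α * x) + 4 * α ^ 3 * κ / y ^ 2 + 6 * α ^ 2 * G)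
    + X ^ 2 * Y * (2 * α * G * (α * x) ^ 2 + 2 * α ^ 3 * κ / y ^ 2 + 6 * α * G
      + 6 * α * G * (α * x) + 6 * α ^ 2 * κ / y ^ 2)
    + Y ^ 2 * (G * (α * x) ^ 2 + α ^ 2 * κ / y ^ 2 + 2 * G * (α * x) + 2 * α * κ / y ^ 2) := by
  unfold Err
  field_simp
  ring

/-- near region -/
theorem Err_near {s α G κ x y X Y : ℝ} (hs0 : 0 ≤ s) (hs1 : s ≤ 1) (hα : 0 ≤ α) (hG : 0 ≤ G)
    (hG3 : G ≤ 3) (hκ : 0 ≤ κ) (hκ1 : κ ≤ 1) (hx : 0 ≤ x) (hy : 1 ≤ y) (hX : 0 ≤ X) (hY : 0 ≤ Y)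
    (h1 : α * x ≤ s) (h2 : α * y ≤ s) (h3 : α * G ≤ s * κ / y) :
    Err α G κ x y X Y ≤ 40 * s * (κ * X ^ 4 / y ^ 2 + Y ^ 2) := by
  have hy0 : 0 < y := by linarith
  have hz0 : 0 ≤ α * x := by positivity
  have hz1 : α * x ≤ 1 := h1.trans hs1
  have hz2 : (α * x) ^ 2 ≤ α * x := by nlinarith
  have hα1 : α ≤ s := by nlinarith
  have hα2 : α ≤ 1 := hα1.trans hs1
  have hαy : α ≤ s / y := by rw [le_div_iff₀ hy0]; exact h2
  -- basic quantities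
  have hy2 : 1 ≤ y ^ 2 := one_le_pow₀ hy
  set q : ℝ := κ / y ^ 2 with hq
  have hq0 : 0 ≤ q := by positivity
  have hqκ : q ≤ κ / y := by
    rw [hq]; gcongr; nlinarith
  have hqκ' : q ≤ κ := div_le_self hκ hy2
  have e1 : α ^ 2 * G ≤ s * q := by
    have : α ^ 2 * G = α * (α * G) := by ring
    rw [this]
    calc α * (α * G) ≤ s / y * (s * κ / y) := mul_le_mul hαy h3 (by positivity) (by positivity)
      _ = s * (s * q) := by rw [hq]; field_simp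
      _ ≤ 1 * (s * q) := by gcongr
      _ = _ := one_mul _
  have e2 : α * κ / y ≤ s * q := by
    have : α * κ / y = (α * y) * q := by rw [hq]; field_simp
    rw [this]; gcongr
  have e3 : α * G ≤ s * (κ / y) := by rw [← mul_div_assoc]; exact h3
  have e4 : α ^ 2 ≤ s := by nlinarith
  have e5 : α ^ 3 ≤ s := by nlinarith [pow_nonneg hα 2]
  have e6 : α ^ 4 ≤ s := by nlinarith [pow_nonneg hα 3, pow_nonneg hα 2]
  have c1 : α ^ 2 * G * (α * x) ^ 2 + α ^ 4 * κ / y ^ 2 + 12 * α * κ / y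
      + 4 * α ^ 2 * G * (α * x) + 4 * α ^ 3 * κ / y ^ 2 + 6 * α ^ 2 * G ≤ 28 * s * q := by
    have a1 : α ^ 2 * G * (α * x) ^ 2 ≤ s * q := by
      calc α ^ 2 * G * (α * x) ^ 2 ≤ α ^ 2 * G * 1 := by gcongr; linarith
        _ ≤ s * q := by linarith
    have a2 : α ^ 4 * κ / y ^ 2 ≤ s * q := by rw [mul_div_assoc, ← hq]; gcongr
    have a3 : 12 * α * κ / y ≤ 12 * (s * q) := by
      have : 12 * α * κ / y = 12 * (α * κ / y) := by ring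
      rw [this]; gcongr
    have a4 : 4 * α ^ 2 * G * (α * x) ≤ 4 * (s * q) := by
      calc 4 * α ^ 2 * G * (α * x) ≤ 4 * α ^ 2 * G * 1 := by gcongr
        _ = 4 * (α ^ 2 * G) := by ring
        _ ≤ _ := by gcongr
    have a5 : 4 * α ^ 3 * κ / y ^ 2 ≤ 4 * (s * q) := by
      have : 4 * α ^ 3 * κ / y ^ 2 = 4 * (α ^ 3 * q) := by rw [hq]; ring
      rw [this]; gcongr
    linarith
  have c2 : 2 * α * G * (α * x) ^ 2 + 2 * α ^ 3 * κ / y ^ 2 + 6 * α * G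
      + 6 * α * G * (α * x) + 6 * α ^ 2 * κ / y ^ 2 ≤ 22 * s * (κ / y) := by
    have a1 : 2 * α * G * (α * x) ^ 2 ≤ 2 * (s * (κ / y)) := by
      calc 2 * α * G * (α * x) ^ 2 ≤ 2 * α * G * 1 := by gcongr; linarith
        _ = 2 * (α * G) := by ring
        _ ≤ _ := by gcongr
    have a2 : 2 * α ^ 3 * κ / y ^ 2 ≤ 2 * (s * (κ / y)) := by
      have : 2 * α ^ 3 * κ / y ^ 2 = 2 * (α ^ 3 * q) := by rw [hq]; ring
      rw [this]; gcongr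
    have a4 : 6 * α * G * (α * x) ≤ 6 * (s * (κ / y)) := by
      calc 6 * α * G * (α * x) ≤ 6 * α * G * 1 := by gcongr
        _ = 6 * (α * G) := by ring
        _ ≤ _ := by gcongr
    have a5 : 6 * α ^ 2 * κ / y ^ 2 ≤ 6 * (s * (κ / y)) := by
      have : 6 * α ^ 2 * κ / y ^ 2 = 6 * (α ^ 2 * q) := by rw [hq]; ring
      rw [this]; gcongr
    linarith
  have c3 : G * (α * x) ^ 2 + α ^ 2 * κ / y ^ 2 + 2 * G * (α * x) + 2 * α * κ / y ^ 2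
      ≤ 12 * s := by
    have a1 : G * (α * x) ^ 2 ≤ 3 * s := by
      have : (α * x) ^ 2 ≤ s := hz2.trans h1
      exact mul_le_mul hG3 this (by positivity) (by norm_num)
    have a2 : α ^ 2 * κ / y ^ 2 ≤ s := by
      rw [mul_div_assoc, ← hq]
      calc α ^ 2 * q ≤ s * 1 := mul_le_mul e4 (hqκ'.trans hκ1) hq0 hs0
        _ = s := mul_one _
    have a3 : 2 * G * (α * x) ≤ 6 * s := by
      calc 2 * G * (α * x) ≤ 2 * 3 * s := by gcongr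
        _ = _ := by ring
    have a4 : 2 * α * κ / y ^ 2 ≤ 2 * s := by
      have : 2 * α * κ / y ^ 2 = 2 * (α * q) := by rw [hq]; ring
      rw [this]
      calc 2 * (α * q) ≤ 2 * (s * 1) := by
            gcongr
            exact hqκ'.trans hκ1
        _ = _ := by ring
    linarith
  rw [Err_eq _ _ _ _ _ _ _ hy0.ne']
  have f1 := mul_le_mul_of_nonneg_left c1 (pow_nonneg hX 4)
  have f2 := mul_le_mul_of_nonneg_left c2 (mul_nonneg (pow_nonneg hX 2) hY)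
  have f3 := mul_le_mul_of_nonneg_left c3 (pow_nonneg hY 2)
  -- Young
  have f4 : X ^ 2 * Y * (κ / y) ≤ (X ^ 4 * q + Y ^ 2) / 2 := by
    have g1 : X ^ 2 * Y * (κ / y) = κ * ((X ^ 2 / y) * Y) := by ring
    have g2 : (X ^ 2 / y) * Y ≤ ((X ^ 2 / y) ^ 2 + Y ^ 2) / 2 := by
      nlinarith [sq_nonneg (X ^ 2 / y - Y)]
    have g3 : X ^ 4 * q = κ * (X ^ 2 / y) ^ 2 := by rw [hq]; field_simp
    rw [g1, g3]
    calc κ * ((X ^ 2 / y) * Y) ≤ κ * (((X ^ 2 / y) ^ 2 + Y ^ 2) / 2) := by gcongr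
      _ = (κ * (X ^ 2 / y) ^ 2 + κ * Y ^ 2) / 2 := by ring
      _ ≤ (κ * (X ^ 2 / y) ^ 2 + 1 * Y ^ 2) / 2 := by gcongr
      _ = _ := by ring
  have f5 : 22 * s * (X ^ 2 * Y * (κ / y)) ≤ 22 * s * ((X ^ 4 * q + Y ^ 2) / 2) := by gcongr
  have f6 : κ * X ^ 4 / y ^ 2 = X ^ 4 * q := by rw [hq]; ring
  rw [f6]
  have f7 : 0 ≤ s * (X ^ 4 * q) := by positivity
  have f8 : 0 ≤ s * Y ^ 2 := by positivity
  nlinarith [f1, f2, f3, f5, f7, f8]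

/-- far region -/
theorem Err_far {B R α G κ x y X Y : ℝ} (hB : 1 ≤ B) (hR : 1 ≤ R) (hα : 0 ≤ α) (hα1 : α ≤ B / R)
    (hG : 0 ≤ G) (hG1 : G ≤ B * κ) (hκ : 0 ≤ κ) (hx : 0 ≤ x) (hy : 0 < y) (hy1 : 1 / y ≤ B / R)
    (hX : 0 ≤ X) (hY : 0 ≤ Y) :
    Err α G κ x y X Y ≤ 42 * B ^ 6 * κ * (1 + α * x) ^ 2 * (X ^ 4 / R ^ 2 + Y ^ 2) := by
  have hR0 : 0 < R := by linarith
  have hz0 : 0 ≤ α * x := by positivity
  set z : ℝ := α * x with hz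
  have hB0 : 0 ≤ B := by linarith
  have hiy : 0 ≤ 1 / y := by positivity
  have hiR : 1 / R ≤ 1 := by rw [div_le_one hR0]; exact hR
  have hiR0 : 0 ≤ 1 / R := by positivity
  set r : ℝ := 1 / R with hr
  set w : ℝ := 1 / y with hw
  have hα2 : α ≤ B * r := by rw [hr, mul_one_div]; exact hα1
  have hw2 : w ≤ B * r := by rw [hr, mul_one_div]; exact hy1
  have Bp : ∀ n : ℕ, n ≤ 6 → B ^ n ≤ B ^ 6 := fun n hn => pow_le_pow_right₀ hB hn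
  have rp : ∀ n m : ℕ, m ≤ n → r ^ n ≤ r ^ m := fun n m h => pow_le_pow_of_le_one hiR0 hiR h
  have key : ∀ n m m' : ℕ, n ≤ 6 → m' ≤ m → B ^ n * κ * r ^ m ≤ B ^ 6 * κ * r ^ m' :=
    fun n m m' h1 h2 => mul_le_mul (mul_le_mul_of_nonneg_right (Bp n h1) hκ) (rp m m' h2)
      (by positivity) (by positivity)
  -- monomials
  have m1 : α ^ 2 * G ≤ B ^ 6 * κ * r ^ 2 := by
    calc α ^ 2 * G ≤ (B * r) ^ 2 * (B * κ) := by gcongr
      _ = B ^ 3 * κ * r ^ 2 := by ring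
      _ ≤ _ := key 3 2 2 (by norm_num) (by norm_num)
  have m2 : α ^ 4 * κ / y ^ 2 ≤ B ^ 6 * κ * r ^ 2 := by
    have : α ^ 4 * κ / y ^ 2 = α ^ 4 * κ * w ^ 2 := by rw [hw]; ring
    rw [this]
    calc α ^ 4 * κ * w ^ 2 ≤ (B * r) ^ 4 * κ * (B * r) ^ 2 := by gcongr
      _ = B ^ 6 * κ * r ^ 6 := by ring
      _ ≤ _ := key 6 6 2 (by norm_num) (by norm_num)
  have m3 : α * κ / y ≤ B ^ 6 * κ * r ^ 2 := by
    have : α * κ / y = α * κ * w := by rw [hw]; ring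
    rw [this]
    calc α * κ * w ≤ (B * r) * κ * (B * r) := by gcongr
      _ = B ^ 2 * κ * r ^ 2 := by ring
      _ ≤ _ := key 2 2 2 (by norm_num) (by norm_num)
  have m4 : α ^ 3 * κ / y ^ 2 ≤ B ^ 6 * κ * r ^ 2 := by
    have : α ^ 3 * κ / y ^ 2 = α ^ 3 * κ * w ^ 2 := by rw [hw]; ring
    rw [this]
    calc α ^ 3 * κ * w ^ 2 ≤ (B * r) ^ 3 * κ * (B * r) ^ 2 := by gcongr
      _ = B ^ 5 * κ * r ^ 5 := by ring
      _ ≤ B ^ 6 * κ * r ^ 2 := key 5 5 2 (by norm_num) (by norm_num)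
  have n1 : α * G ≤ B ^ 6 * κ * r := by
    calc α * G ≤ (B * r) * (B * κ) := by gcongr
      _ = B ^ 2 * κ * r ^ 1 := by ring
      _ ≤ B ^ 6 * κ * r ^ 1 := key 2 1 1 (by norm_num) (by norm_num)
      _ = _ := by ring
  have n2 : α ^ 3 * κ / y ^ 2 ≤ B ^ 6 * κ * r := by
    refine m4.trans ?_
    have := rp 2 1 (by norm_num)
    rw [pow_one] at this
    gcongr
  have n3 : α ^ 2 * κ / y ^ 2 ≤ B ^ 6 * κ * r := by
    have : α ^ 2 * κ / y ^ 2 = α ^ 2 * κ * w ^ 2 := by rw [hw]; ring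
    rw [this]
    calc α ^ 2 * κ * w ^ 2 ≤ (B * r) ^ 2 * κ * (B * r) ^ 2 := by gcongr
      _ = B ^ 4 * κ * r ^ 4 := by ring
      _ ≤ B ^ 6 * κ * r ^ 1 := key 4 4 1 (by norm_num) (by norm_num)
      _ = _ := by ring
  have l1 : G ≤ B ^ 6 * κ := by
    calc G ≤ B ^ 1 * κ * r ^ 0 := by rw [pow_one, pow_zero, mul_one]; exact hG1
      _ ≤ B ^ 6 * κ * r ^ 0 := key 1 0 0 (by norm_num) (by norm_num)
      _ = _ := by ring
  have l2 : α ^ 2 * κ / y ^ 2 ≤ B ^ 6 * κ := n3.trans (mul_le_of_le_one_right (by positivity) hiR)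
  have l3 : α * κ / y ^ 2 ≤ B ^ 6 * κ := by
    have : α * κ / y ^ 2 = α * κ * w ^ 2 := by rw [hw]; ring
    rw [this]
    calc α * κ * w ^ 2 ≤ (B * r) * κ * (B * r) ^ 2 := by gcongr
      _ = B ^ 3 * κ * r ^ 3 := by ring
      _ ≤ B ^ 6 * κ * r ^ 0 := key 3 3 0 (by norm_num) (by norm_num)
      _ = _ := by ring
  set T : ℝ := B ^ 6 * κ with hT
  have hT0 : 0 ≤ T := by positivity
  have c1 : α ^ 2 * G * z ^ 2 + α ^ 4 * κ / y ^ 2 + 12 * α * κ / y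
      + 4 * α ^ 2 * G * z + 4 * α ^ 3 * κ / y ^ 2 + 6 * α ^ 2 * G ≤ 23 * T * r ^ 2 * (1 + z) ^ 2 := by
    have a1 : α ^ 2 * G * z ^ 2 ≤ T * r ^ 2 * z ^ 2 := by gcongr
    have a3 : 12 * α * κ / y = 12 * (α * κ / y) := by ring
    have a4 : 4 * α ^ 2 * G * z ≤ 4 * (T * r ^ 2) * z := by
      have : 4 * α ^ 2 * G * z = 4 * (α ^ 2 * G) * z := by ring
      rw [this]; gcongr
    have a5 : 4 * α ^ 3 * κ / y ^ 2 = 4 * (α ^ 3 * κ / y ^ 2) := by ring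
    rw [a3, a5]
    have : 0 ≤ T * r ^ 2 * z := by positivity
    have : 0 ≤ T * r ^ 2 * z ^ 2 := by positivity
    nlinarith
  have c2 : 2 * α * G * z ^ 2 + 2 * α ^ 3 * κ / y ^ 2 + 6 * α * G
      + 6 * α * G * z + 6 * α ^ 2 * κ / y ^ 2 ≤ 14 * T * r * (1 + z) ^ 2 := by
    have a1 : 2 * α * G * z ^ 2 ≤ 2 * (T * r) * z ^ 2 := by
      have : 2 * α * G * z ^ 2 = 2 * (α * G) * z ^ 2 := by ring
      rw [this]; gcongr
    have a2 : 2 * α ^ 3 * κ / y ^ 2 = 2 * (α ^ 3 * κ / y ^ 2) := by ring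
    have a4 : 6 * α * G * z ≤ 6 * (T * r) * z := by
      have : 6 * α * G * z = 6 * (α * G) * z := by ring
      rw [this]; gcongr
    have a5 : 6 * α ^ 2 * κ / y ^ 2 = 6 * (α ^ 2 * κ / y ^ 2) := by ring
    rw [a2, a5]
    have : 0 ≤ T * r * z := by positivity
    have : 0 ≤ T * r * z ^ 2 := by positivity
    nlinarith
  have c3 : G * z ^ 2 + α ^ 2 * κ / y ^ 2 + 2 * G * z + 2 * α * κ / y ^ 2
      ≤ 3 * T * (1 + z) ^ 2 := by
    have a1 : G * z ^ 2 ≤ T * z ^ 2 := by gcongr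
    have a3 : 2 * G * z ≤ 2 * T * z := by gcongr
    have a4 : 2 * α * κ / y ^ 2 = 2 * (α * κ / y ^ 2) := by ring
    rw [a4]
    have : 0 ≤ T * z := by positivity
    have : 0 ≤ T * z ^ 2 := by positivity
    nlinarith
  rw [Err_eq _ _ _ _ _ _ _ hy.ne', ← hz]
  have f1 := mul_le_mul_of_nonneg_left c1 (pow_nonneg hX 4)
  have f2 := mul_le_mul_of_nonneg_left c2 (mul_nonneg (pow_nonneg hX 2) hY)
  have f3 := mul_le_mul_of_nonneg_left c3 (pow_nonneg hY 2)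
  have f4 : X ^ 2 * Y * r ≤ (X ^ 4 * r ^ 2 + Y ^ 2) / 2 := by
    nlinarith [sq_nonneg (X ^ 2 * r - Y)]
  have f5 : X ^ 4 / R ^ 2 = X ^ 4 * r ^ 2 := by rw [hr]; ring
  rw [f5]
  set P : ℝ := (1 + z) ^ 2 with hP
  have hP0 : 0 ≤ P := by positivity
  have f6 : 14 * (T * P) * (X ^ 2 * Y * r) ≤ 14 * (T * P) * ((X ^ 4 * r ^ 2 + Y ^ 2) / 2) := by
    gcongr
  have f7 : 0 ≤ T * P * (X ^ 4 * r ^ 2) := by positivity
  have f8 : 0 ≤ T * P * Y ^ 2 := by positivity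
  have f9 : 42 * B ^ 6 * κ * P * (X ^ 4 * r ^ 2 + Y ^ 2) =
    42 * (T * P * (X ^ 4 * r ^ 2)) + 42 * (T * P * Y ^ 2) := by rw [hT]; ring
  rw [f9]
  have g1 : X ^ 4 * (23 * T * r ^ 2 * P) = 23 * (T * P * (X ^ 4 * r ^ 2)) := by ring
  have g2 : X ^ 2 * Y * (14 * T * r * P) = 14 * (T * P) * (X ^ 2 * Y * r) := by ring
  have g3 : Y ^ 2 * (3 * T * P) = 3 * (T * P * Y ^ 2) := by ring
  rw [g1] at f1
  rw [g2] at f2
  rw [g3] at f3
  have g4 : 14 * (T * P) * ((X ^ 4 * r ^ 2 + Y ^ 2) / 2) =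
    7 * (T * P * (X ^ 4 * r ^ 2)) + 7 * (T * P * Y ^ 2) := by ring
  rw [g4] at f6
  linarith

end

end Pool.Agent.H789.HSC.T11aux
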