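import Pool.Agent.H789.HSC.T11z

set_option linter.unusedVariables false

open scoped BigOperators ContDiff ComplexConjugate Topology

namespace Pool.Agent.H789.HSC.T11aux

noncomputable section

theorem near_final {c₀ C s κ R y X Y m e ex ez x2 CG QK E : ℝ} (hc₀ : 0 < c₀) (hC : 1 ≤ C)
    (hs : 0 ≤ s) (hκ : 0 ≤ κ) (hR : 0 < R) (hy : 1 ≤ y) (hY : 0 ≤ Y) (hX : 0 ≤ X)
    (hm1 : 1 / 2 ≤ m) (hm2 : m ≤ 1) (he : C * e ≤ c₀ / 4)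
    (hQ : c₀ * κ * X ^ 4 / y ^ 2 - C * κ * (e * X ^ 4 / y ^ 2 + 6 * (X ^ 2 * Y) / y + 3 * Y ^ 2)
      ≤ QK)
    (hE : E ≤ 40 * s * (κ * X ^ 4 / y ^ 2 + Y ^ 2)) (hex0 : 0 ≤ ex) (hex : ex ≤ 1)
    (hez : 1 / 2 ≤ ez) (hx20 : 0 ≤ x2) (hx2 : x2 ≤ 96 / y ^ 2) (hCG : 0 ≤ CG)
    (k1 : 27200 * C * s ≤ c₀ / 8) (k2 : 27200 * C * s ≤ 1 / 512)
    (k3 : κ * (36 * C ^ 2 / c₀ + 3 * C) ≤ 1 / 512) (k4 : 96 * CG / R ≤ c₀ / 8 * κ)
    (k5 : 96 * CG / R ≤ 1 / 512) :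
    0 ≤ 1 / 64 * ez * (X ^ 4 / R ^ 2 + Y ^ 2) - CG / R * x2 * (X ^ 4 + Y ^ 2) + m * QK
      - 680 * ex * C * E := by
  have hy0 : 0 < y := by linarith
  set a : ℝ := X ^ 2 / y with ha
  have ha0 : 0 ≤ a := by positivity
  have hU : X ^ 4 / y ^ 2 = a ^ 2 := by rw [ha]; field_simp
  have hC0 : 0 < C := by linarith
  -- Young
  have y1 : 6 * C * (a * Y) ≤ c₀ / 4 * a ^ 2 + 36 * C ^ 2 / c₀ * Y ^ 2 := by
    have h1 : 0 ≤ (c₀ / 2 * a - 6 * C * Y) ^ 2 / c₀ := by positivity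
    have h2 : (c₀ / 2 * a - 6 * C * Y) ^ 2 / c₀ =
      c₀ / 4 * a ^ 2 - 6 * C * (a * Y) + 36 * C ^ 2 / c₀ * Y ^ 2 := by field_simp; ring
    linarith
  have q1 : κ * (c₀ / 2 * a ^ 2 - (36 * C ^ 2 / c₀ + 3 * C) * Y ^ 2) ≤ QK := by
    refine le_trans ?_ hQ
    have e1 : c₀ * κ * X ^ 4 / y ^ 2 - C * κ * (e * X ^ 4 / y ^ 2 + 6 * (X ^ 2 * Y) / y + 3 * Y ^ 2)
      = κ * (c₀ * a ^ 2 - (C * e) * a ^ 2 - 6 * C * (a * Y) - 3 * C * Y ^ 2) := by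
      rw [← hU, ha]; field_simp; ring
    rw [e1]
    apply mul_le_mul_of_nonneg_left _ hκ
    have : (C * e) * a ^ 2 ≤ c₀ / 4 * a ^ 2 := by gcongr
    nlinarith
  have q2 : κ * (c₀ / 4) * a ^ 2 - 1 / 512 * Y ^ 2 ≤ m * QK := by
    have hm0 : 0 ≤ m := by linarith
    have h1 := mul_le_mul_of_nonneg_left q1 hm0
    refine le_trans ?_ h1
    have h2 : κ * (36 * C ^ 2 / c₀ + 3 * C) * Y ^ 2 ≤ 1 / 512 * Y ^ 2 := by gcongr
    have h3 : 0 ≤ κ * (36 * C ^ 2 / c₀ + 3 * C) * Y ^ 2 := by positivity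
    have h4 : m * (κ * (36 * C ^ 2 / c₀ + 3 * C) * Y ^ 2) ≤
      1 * (κ * (36 * C ^ 2 / c₀ + 3 * C) * Y ^ 2) := by gcongr
    have h5 : 1 / 2 * (κ * (c₀ / 2 * a ^ 2)) ≤ m * (κ * (c₀ / 2 * a ^ 2)) := by gcongr
    nlinarith
  -- error
  have e1 : 680 * ex * C * E ≤ 27200 * C * s * (κ * a ^ 2 + Y ^ 2) := by
    have e2 : κ * X ^ 4 / y ^ 2 = κ * a ^ 2 := by rw [mul_div_assoc, hU]
    rw [e2] at hE
    have h0 : 0 ≤ 40 * s * (κ * a ^ 2 + Y ^ 2) := by positivity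
    calc 680 * ex * C * E ≤ 680 * ex * C * (40 * s * (κ * a ^ 2 + Y ^ 2)) := by gcongr
      _ ≤ 680 * 1 * C * (40 * s * (κ * a ^ 2 + Y ^ 2)) := by gcongr
      _ = _ := by ring
  have e3 : 27200 * C * s * (κ * a ^ 2 + Y ^ 2) ≤ c₀ / 8 * (κ * a ^ 2) + 1 / 512 * Y ^ 2 := by
    have h1 : 27200 * C * s * (κ * a ^ 2) ≤ c₀ / 8 * (κ * a ^ 2) := by gcongr
    have h2 : 27200 * C * s * Y ^ 2 ≤ 1 / 512 * Y ^ 2 := by gcongr
    linarith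
  -- G part
  have g1 : CG / R * x2 * (X ^ 4 + Y ^ 2) ≤ c₀ / 8 * κ * a ^ 2 + 1 / 512 * Y ^ 2 := by
    have hy2 : (1 : ℝ) ≤ y ^ 2 := one_le_pow₀ hy
    have h1 : CG / R * x2 * X ^ 4 ≤ 96 * CG / R * a ^ 2 := by
      calc CG / R * x2 * X ^ 4 ≤ CG / R * (96 / y ^ 2) * X ^ 4 := by gcongr
        _ = 96 * CG / R * (X ^ 4 / y ^ 2) := by ring
        _ = _ := by rw [hU]
    have h2 : CG / R * x2 * Y ^ 2 ≤ 96 * CG / R * Y ^ 2 := by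
      have h3 : x2 ≤ 96 := hx2.trans (div_le_self (by norm_num) hy2)
      calc CG / R * x2 * Y ^ 2 ≤ CG / R * 96 * Y ^ 2 := by gcongr
        _ = _ := by ring
    have h3 : 96 * CG / R * a ^ 2 ≤ c₀ / 8 * κ * a ^ 2 := by gcongr
    have h4 : 96 * CG / R * Y ^ 2 ≤ 1 / 512 * Y ^ 2 := by gcongr
    nlinarith
  -- F part
  have f1 : 1 / 128 * Y ^ 2 ≤ 1 / 64 * ez * (X ^ 4 / R ^ 2 + Y ^ 2) := by
    have h1 : 0 ≤ X ^ 4 / R ^ 2 := by positivity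
    have h2 : 1 / 64 * ez * (X ^ 4 / R ^ 2 + Y ^ 2) ≥ 1 / 64 * (1 / 2) * (0 + Y ^ 2) := by
      gcongr
    linarith
  nlinarith [sq_nonneg Y, sq_nonneg a]

theorem far_final {C B κ R x y y0 X Y z m e CG QK E : ℝ} (hC : 1 ≤ C) (hB : 1 ≤ B)
    (hκ : 0 ≤ κ) (hR : 1 ≤ R) (hy0 : 0 < y0) (hxR : y0 * R ≤ x) (hy : 0 < y) (hyB : 1 / y ≤ B / R)
    (hX : 0 ≤ X) (hY : 0 ≤ Y) (hz : 0 ≤ z) (hzx : z ≤ x)
    (hm0 : 0 ≤ m) (hm1 : m ≤ 4 * Real.exp (-z)) (he : e ≤ 2)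
    (hQ : -(C * κ * (e * X ^ 4 / y ^ 2 + 6 * (X ^ 2 * Y) / y + 3 * Y ^ 2)) ≤ QK)
    (hE : E ≤ 42 * B ^ 6 * κ * (1 + z) ^ 2 * (X ^ 4 / R ^ 2 + Y ^ 2)) (hCG : 0 ≤ CG)
    (k1 : 32 * CG / (y0 ^ 2 * R) ≤ 1 / 512)
    (k2 : κ * (24 * C * B ^ 2 + 114240 * C * B ^ 6) ≤ 1 / 512) :
    0 ≤ 1 / 64 * Real.exp (-(z / 4)) * (X ^ 4 / R ^ 2 + Y ^ 2)
      - CG / R * Real.exp (-(x / 2)) * (X ^ 4 + Y ^ 2) + m * QK
      - 680 * Real.exp (-z) * C * E := by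
  have hR0 : 0 < R := by linarith
  set u : ℝ := X ^ 2 / R with hu
  have hu0 : 0 ≤ u := by positivity
  have hU : X ^ 4 / R ^ 2 = u ^ 2 := by rw [hu]; field_simp
  rw [hU] at hE ⊢
  set S : ℝ := u ^ 2 + Y ^ 2 with hS
  have hS0 : 0 ≤ S := by positivity
  set g : ℝ := Real.exp (-(z / 4)) with hg
  have hg0 : 0 < g := Real.exp_pos _
  have hC0 : 0 < C := by linarith
  have hezg : Real.exp (-z) ≤ g := Real.exp_le_exp.2 (by linarith)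
  have hXu : X ^ 2 = R * u := by rw [hu]; field_simp
  have hB0 : 0 < B := by linarith
  have hw : R / y ≤ B := by
    have : R / y = R * (1 / y) := by ring
    rw [this]
    calc R * (1 / y) ≤ R * (B / R) := by gcongr
      _ = B := by field_simp
  have hw0 : 0 ≤ R / y := by positivity
  -- Q part
  have q1 : -(6 * C * κ * B ^ 2 * S) ≤ QK := by
    refine le_trans ?_ hQ
    have h1 : e * X ^ 4 / y ^ 2 + 6 * (X ^ 2 * Y) / y + 3 * Y ^ 2 =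
      e * ((R / y) ^ 2 * u ^ 2) + 6 * ((R / y) * (u * Y)) + 3 * Y ^ 2 := by
      have : X ^ 4 = (R * u) ^ 2 := by rw [← hXu]; ring
      rw [this, hXu]; field_simp
    rw [h1]
    have h2 : e * ((R / y) ^ 2 * u ^ 2) ≤ 2 * (B ^ 2 * u ^ 2) := by
      calc e * ((R / y) ^ 2 * u ^ 2) ≤ 2 * ((R / y) ^ 2 * u ^ 2) := by gcongr
        _ ≤ _ := by gcongr
    have h3 : 6 * ((R / y) * (u * Y)) ≤ 6 * (B ^ 2 * ((u ^ 2 + Y ^ 2) / 2)) := by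
      have h4 : u * Y ≤ (u ^ 2 + Y ^ 2) / 2 := by nlinarith [sq_nonneg (u - Y)]
      have h5 : R / y ≤ B ^ 2 := hw.trans (by nlinarith)
      gcongr
    have h4 : 3 * Y ^ 2 ≤ 3 * (B ^ 2 * Y ^ 2) := by
      have : (1:ℝ) ≤ B ^ 2 := one_le_pow₀ hB
      nlinarith [sq_nonneg Y]
    have h5 : e * ((R / y) ^ 2 * u ^ 2) + 6 * ((R / y) * (u * Y)) + 3 * Y ^ 2 ≤ 6 * (B ^ 2 * S) := by
      rw [hS]
      nlinarith [mul_nonneg (sq_nonneg B) (sq_nonneg u)]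
    have h6 : C * κ * (e * ((R / y) ^ 2 * u ^ 2) + 6 * ((R / y) * (u * Y)) + 3 * Y ^ 2) ≤
      C * κ * (6 * (B ^ 2 * S)) := by gcongr
    nlinarith
  have q2 : -(24 * C * B ^ 2 * κ * (g * S)) ≤ m * QK := by
    have h1 := mul_le_mul_of_nonneg_left q1 hm0
    refine le_trans ?_ h1
    have h2 : m * (6 * C * κ * B ^ 2 * S) ≤ 4 * g * (6 * C * κ * B ^ 2 * S) := by
      have : m ≤ 4 * g := hm1.trans (by linarith)
      gcongr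
    nlinarith
  -- error
  have e1 : 680 * Real.exp (-z) * C * E ≤ 114240 * C * B ^ 6 * κ * (g * S) := by
    have h1 := poly_exp hz
    calc 680 * Real.exp (-z) * C * E
        ≤ 680 * Real.exp (-z) * C * (42 * B ^ 6 * κ * (1 + z) ^ 2 * S) := by gcongr
      _ = 28560 * C * B ^ 6 * κ * ((1 + z) ^ 2 * Real.exp (-z)) * S := by ring
      _ ≤ 28560 * C * B ^ 6 * κ * (4 * g) * S := by gcongr
      _ = _ := by ring
  -- G part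
  have g1 : CG / R * Real.exp (-(x / 2)) * (X ^ 4 + Y ^ 2) ≤ 1 / 512 * (g * S) := by
    have h1 : X ^ 4 + Y ^ 2 ≤ R ^ 2 * S := by
      have : X ^ 4 = R ^ 2 * u ^ 2 := by rw [hu]; field_simp
      rw [this, hS]
      have h2 : (1:ℝ) ≤ R ^ 2 := one_le_pow₀ hR
      nlinarith [sq_nonneg Y]
    have h2 : Real.exp (-(x / 2)) = Real.exp (-(x / 4)) * Real.exp (-(x / 4)) := by
      rw [← Real.exp_add]; ring_nf
    have h3 : Real.exp (-(x / 4)) ≤ g := Real.exp_le_exp.2 (by linarith)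
    have h4 : Real.exp (-(x / 4)) ≤ 32 / (y0 * R) ^ 2 := by
      have h5 : Real.exp (-(x / 4)) ≤ Real.exp (-(y0 * R / 4)) := Real.exp_le_exp.2 (by linarith)
      refine h5.trans ?_
      have h6 := Real.pow_div_factorial_le_exp (y0 * R / 4) (by positivity) 2
      have h7 : (2 : ℕ).factorial = 2 := rfl
      rw [h7] at h6
      rw [Real.exp_neg, inv_eq_one_div, div_le_div_iff₀ (Real.exp_pos _) (by positivity)]
      have h8 : (y0 * R / 4) ^ 2 / ((2 : ℕ) : ℝ) = (y0 * R) ^ 2 / 32 := by push_cast; ring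
      rw [h8] at h6
      linarith
    calc CG / R * Real.exp (-(x / 2)) * (X ^ 4 + Y ^ 2)
        ≤ CG / R * (32 / (y0 * R) ^ 2 * g) * (R ^ 2 * S) := by
          rw [h2]
          have := mul_le_mul h4 h3 (Real.exp_pos _).le (by positivity)
          gcongr
      _ = 32 * CG / (y0 ^ 2 * R) * (g * S) := by field_simp
      _ ≤ 1 / 512 * (g * S) := by gcongr
  have hgS : 0 ≤ g * S := by positivity
  have k3 : κ * (24 * C * B ^ 2 + 114240 * C * B ^ 6) * (g * S) ≤ 1 / 512 * (g * S) := by gcongr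
  nlinarith

/-- growth: `Λ ≤ N` and `Λ N ≤ 2^N` for large `N` -/
theorem exists_large (Λ : ℝ) : ∃ N₀ : ℕ, ∀ N : ℕ, N₀ ≤ N → Λ ≤ N ∧ Λ * N ≤ 2 ^ N := by
  have h1 : Filter.Tendsto (fun n : ℕ => (n : ℝ) ^ 1 / 2 ^ n) Filter.atTop (𝓝 0) :=
    tendsto_pow_const_div_const_pow_of_one_lt 1 (by norm_num)
  have h2 : ∀ᶠ n : ℕ in Filter.atTop, (n : ℝ) ^ 1 / 2 ^ n < 1 / (|Λ| + 1) :=
    h1.eventually (gt_mem_nhds (by positivity))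
  have h3 : ∀ᶠ n : ℕ in Filter.atTop, Λ ≤ n :=
    tendsto_natCast_atTop_atTop.eventually (Filter.eventually_ge_atTop Λ)
  obtain ⟨N₀, hN₀⟩ := Filter.eventually_atTop.1 (h2.and h3)
  refine ⟨N₀, fun N hN => ?_⟩
  obtain ⟨h4, h5⟩ := hN₀ N hN
  refine ⟨h5, ?_⟩
  rw [pow_one, div_lt_div_iff₀ (by positivity) (by positivity)] at h4
  have h6 : Λ ≤ |Λ| + 1 := by linarith [le_abs_self Λ]
  have h7 : (0:ℝ) ≤ N := Nat.cast_nonneg _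
  nlinarith

end

end Pool.Agent.H789.HSC.T11aux
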