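import Pool.Agent.H789.HSC.ConeDefs
import Pool.Agent.H789.HSC.JetCalc
import Pool.Agent.H789.HSC.T6
import Pool.Agent.H789.HSC.T9
import Pool.Agent.H789.HSC.T10
import Pool.Agent.H789.HSC.T11a
import Pool.Agent.H789.HSC.T11b
import Pool.Agent.H789.HSC.T11c
import Pool.Agent.H789.HSC.T11d

set_option linter.unusedVariables false

open scoped BigOperators ContDiff ComplexConjugate Topology

namespace Pool.Agent.H789.HSC

noncomputable section

variable {p : ℕ}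

open T11aux in
theorem Wm_cone (hp : 2 ≤ p) {k : ℕ} (hk : 2 * k + 1 ≤ p) :
    ∃ ε₁ : ℝ, 0 < ε₁ ∧ ε₁ ≤ 1 ∧ ∃ δ₀ : ℝ, 0 < δ₀ ∧ ∃ N₀ : ℕ, ∀ N : ℕ, N₀ ≤ N →
      ∀ δ : ℝ, 0 ≤ δ → δ ≤ δ₀ → ∀ M : ℕ,
      ∃ cs : ℝ, 0 < cs ∧ ∃ ε : ℝ, 0 < ε ∧ ∀ t : Fin p → ℝ, (∀ i, 0 ≤ t i) →
      ∀ J : Finset (Fin p), J.card ≤ k → (∀ i, i ∉ J → t i ≤ ε) →
      ∀ τ σ : Fin p → ℂ, (∀ i, i ∉ J → τ i = 0 ∧ σ i = 0) →
        cs * ∑ i ∈ J, Real.exp (-(2 * t i / 2 ^ N)) * (‖τ i‖ ^ 4 + ‖σ i‖ ^ 2)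
          ≤ ∑ i, QF (2 ^ N) (t i) (τ i) (σ i) + holQ (Wm N M ε₁ δ) t τ σ := by
  obtain ⟨c₀, hc₀, C, hC, ε, hε, H⟩ := exists_const hp hk
  have hp1 : 1 ≤ p := by omega
  have hpr : (2 : ℝ) ≤ p := by exact_mod_cast hp
  have hp0 : (0 : ℝ) < p := by linarith
  have hC0 : 0 < C := by linarith
  set CG : ℝ := 18432 * (p : ℝ) ^ 4 with hCG
  have hCG0 : 0 ≤ CG := by positivity
  -- s
  set s : ℝ := min (min (c₀ / 8) (1 / 512) / (27200 * C)) (1 / 2) with hs
  have hs0 : 0 < s := by positivity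
  have hs1 : s ≤ 1 / 2 := min_le_right _ _
  have hsC : 27200 * C * s ≤ min (c₀ / 8) (1 / 512) := by
    have : s ≤ min (c₀ / 8) (1 / 512) / (27200 * C) := min_le_left _ _
    rw [le_div_iff₀ (by positivity)] at this
    linarith
  have k1 : 27200 * C * s ≤ c₀ / 8 := hsC.trans (min_le_left _ _)
  have k2 : 27200 * C * s ≤ 1 / 512 := hsC.trans (min_le_right _ _)
  -- y0
  set y0 : ℝ := (s / (24 * p)) ^ 2 / 2 with hy0def
  have hy0 : 0 < y0 := by positivity
  have hsp : s / (24 * p) ≤ s := div_le_self hs0.le (by linarith)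
  have hsp0 : 0 < s / (24 * p) := by positivity
  have hy01 : y0 ≤ 1 / 4 := by
    rw [hy0def]
    have h1 : s / (24 * p) ≤ 1 / 2 := hsp.trans hs1
    have h2 : (s / (24 * p)) ^ 2 ≤ (1 / 2) ^ 2 := pow_le_pow_left₀ hsp0.le h1 2
    linarith
  have h16 : 16 * p * y0 ≤ s := by
    have : 16 * p * y0 = s / 3 * (s / (24 * p)) := by
      rw [hy0def]; field_simp; ring
    rw [this]
    have h1 : s / (24 * p) ≤ 1 / 2 := hsp.trans hs1
    calc s / 3 * (s / (24 * p)) ≤ s / 3 * (1 / 2) := mul_le_mul_of_nonneg_left h1 (by positivity)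
      _ ≤ s := by linarith
  have h24 : 24 * p * Real.sqrt (2 * y0) = s := by
    have : 2 * y0 = (s / (24 * p)) ^ 2 := by rw [hy0def]; ring
    rw [this, Real.sqrt_sq hsp0.le]
    field_simp
  -- B
  set B : ℝ := 8 * p + 1 / y0 + 2 with hBdef
  have hiy0 : 0 < 1 / y0 := by positivity
  have hB1 : 1 ≤ B := by rw [hBdef]; linarith
  have hB0 : 0 < B := by linarith
  -- Λ
  set Λ : ℝ := 1 + 1 / y0 + 8 * p + 512 * (36 * C ^ 2 / c₀ + 3 * C) + 768 * CG / c₀
    + 96 * 512 * CG + 32 * 512 * CG / y0 ^ 2 + 512 * (24 * C * B ^ 2 + 114240 * C * B ^ 6) with hΛ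
  have l0 : 0 < 1 / y0 := hiy0
  have l1 : 0 < 8 * (p : ℝ) := by positivity
  have l2 : 0 < 512 * (36 * C ^ 2 / c₀ + 3 * C) := by positivity
  have l3 : 0 ≤ 768 * CG / c₀ := by positivity
  have l4 : 0 ≤ 96 * 512 * CG := by positivity
  have l5 : 0 ≤ 32 * 512 * CG / y0 ^ 2 := by positivity
  have l6 : 0 ≤ 512 * (24 * C * B ^ 2 + 114240 * C * B ^ 6) := by positivity
  have hΛ1 : 1 ≤ Λ := by rw [hΛ]; linarith
  have m0 : 1 / y0 ≤ Λ := by rw [hΛ]; linarith
  have m1 : 8 * (p : ℝ) ≤ Λ := by rw [hΛ]; linarith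
  have m2 : 512 * (36 * C ^ 2 / c₀ + 3 * C) ≤ Λ := by rw [hΛ]; linarith
  have m3 : 768 * CG / c₀ ≤ Λ := by rw [hΛ]; linarith
  have m4 : 96 * 512 * CG ≤ Λ := by rw [hΛ]; linarith
  have m5 : 32 * 512 * CG / y0 ^ 2 ≤ Λ := by rw [hΛ]; linarith
  have m6 : 512 * (24 * C * B ^ 2 + 114240 * C * B ^ 6) ≤ Λ := by rw [hΛ]; linarith
  clear_value Λ
  have hΛ0 : 0 < Λ := by linarith
  obtain ⟨N₀, hN₀⟩ := exists_large Λ
  -- ε₁
  set e₁ : ℝ := min 1 (c₀ / (8 * C)) with he₁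
  have he₁0 : 0 < e₁ := by positivity
  have he₁1 : e₁ ≤ 1 := min_le_left _ _
  have he₁C : C * e₁ ≤ c₀ / 8 := by
    have : e₁ ≤ c₀ / (8 * C) := min_le_right _ _
    rw [le_div_iff₀ (by positivity)] at this
    linarith
  refine ⟨e₁, he₁0, he₁1, e₁, he₁0, max N₀ 1, ?_⟩
  intro N hN δ hδ0 hδ1 M
  have hN1 : 1 ≤ N := (le_max_right _ _).trans hN
  obtain ⟨hΛN, hΛR⟩ := hN₀ N ((le_max_left _ _).trans hN)
  have hNr : (1 : ℝ) ≤ N := by exact_mod_cast hN1
  have hNr0 : (0 : ℝ) < N := by linarith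
  refine ⟨1 / (64 * (2 ^ N) ^ 2), by positivity, ε, hε, ?_⟩
  intro t ht J hJ htJ τ σ hτσ
  obtain ⟨HK, HQ1, HQ2⟩ := H N hN1 M e₁ he₁0.le he₁1 δ hδ0 (hδ1.trans he₁1) t ht J hJ htJ τ σ hτσ
  have hR1 : (1 : ℝ) ≤ 2 ^ N := one_le_pow₀ (by norm_num)
  have hF := F_lower hp1 hR1 ht hτσ
  have hW := holQ_Wm hp1 N M e₁ δ ht τ σ
  have hx := xav_nonneg ht
  set x : ℝ := xav t with hxdef
  set R : ℝ := 2 ^ N with hRdef
  have hR0 : 0 < R := by linarith
  set X : ℝ := ‖τ‖ with hX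
  set Y : ℝ := ‖σ‖ with hY
  have hX0 : 0 ≤ X := norm_nonneg _
  have hY0 : 0 ≤ Y := norm_nonneg _
  set κ : ℝ := 1 / (N : ℝ) with hκ
  have hκ0 : 0 < κ := by positivity
  have hκ1 : κ ≤ 1 := by rw [hκ]; exact (div_le_one hNr0).2 hNr
  have hκΛ : κ * Λ ≤ 1 := by
    rw [hκ, one_div_mul_eq_div, div_le_one hNr0]; exact hΛN
  have hRκ : Λ ≤ κ * R := by
    rw [hκ, one_div_mul_eq_div, le_div_iff₀ hNr0]; exact hΛR
  have hRΛ : Λ ≤ R := hRκ.trans (mul_le_of_le_one_left hR0.le hκ1)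
  set α : ℝ := 8 * p / R with hα
  have hα0 : 0 ≤ α := by positivity
  set y : ℝ := 1 + x with hy
  have hy1 : 1 ≤ y := by linarith
  have hyp : 0 < y := by linarith
  set g : ℝ := gN N x with hg
  have hg0 : 0 ≤ g := le_min zero_le_one (by positivity)
  have hg1 : g ≤ 1 := min_le_left _ _
  have hg2 : g ≤ κ * Real.sqrt (R / y) := by
    have : g ≤ Real.sqrt (2 ^ N / (1 + x)) / N := min_le_right _ _
    rw [hκ, one_div_mul_eq_div]; exact this
  have hz : 0 ≤ α * x := by positivity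
  have hMB := MBd_Jm (p := p) (R := R) (x := x) hR0 hx (norm_txav_le τ) (norm_txav_le σ)
  have hlow := mul_lower (by linarith : 0 ≤ C) (by positivity : 0 ≤ 680 * Real.exp (-(α * x)))
    hα0 (by positivity : 0 ≤ g + 2 * κ) hκ0.le hx hyp hX0 hY0 hMB HK
  have hmv : (Jm p R x (txav τ) (txav σ)).v = M0 α x := rfl
  rw [hmv] at hlow
  obtain ⟨b1, b2, b3⟩ := M0_bounds hα0 hx
  have hm0 : 0 ≤ M0 α x := (Real.exp_pos _).le.trans b1
  have heC : C * (e₁ + δ) ≤ c₀ / 4 := by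
    have : C * δ ≤ C * e₁ := by gcongr
    linarith
  have he2 : e₁ + δ ≤ 2 := by linarith
  -- it is enough to prove the main inequality
  suffices main : 0 ≤ 1 / 64 * Real.exp (-(α * x / 4)) * (X ^ 4 / R ^ 2 + Y ^ 2)
      - CG / R * Real.exp (-(x / 2)) * (X ^ 4 + Y ^ 2) + M0 α x * (JK N M e₁ δ t τ σ).Q
      - 680 * Real.exp (-(α * x)) * C * Err α (g + 2 * κ) κ x y X Y by
    linarith
  rcases le_or_gt x (y0 * R) with hcase | hcase
  · -- near region
    have hy2 : y ≤ 2 * y0 * R := by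
      have : 1 ≤ y0 * R := by
        have h1 : 1 / y0 ≤ R := m0.trans hRΛ
        rw [div_le_iff₀ hy0] at h1
        linarith
      linarith
    have hyR : y ≤ R := by
      refine hy2.trans ?_
      calc 2 * y0 * R ≤ 1 * R := by
            apply mul_le_mul_of_nonneg_right _ hR0.le
            linarith
        _ = R := one_mul _
    have hyR' : y / R ≤ 2 * y0 := by rw [div_le_iff₀ hR0]; exact hy2
    have a1 : α * y ≤ s := by
      calc α * y = 8 * p * (y / R) := by rw [hα]; ring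
        _ ≤ 8 * p * (2 * y0) := by gcongr
        _ = 16 * p * y0 := by ring
        _ ≤ s := h16
    have a2 : α * x ≤ s := le_trans (by gcongr; linarith) a1
    have hsq1 : 1 ≤ Real.sqrt (R / y) := by
      rw [Real.one_le_sqrt, le_div_iff₀ hyp]; linarith
    have hG : g + 2 * κ ≤ 3 * κ * Real.sqrt (R / y) := by
      have h1 : κ * 1 ≤ κ * Real.sqrt (R / y) := mul_le_mul_of_nonneg_left hsq1 hκ0.le
      linarith
    have hG3 : g + 2 * κ ≤ 3 := by linarith
    have a3 : α * (g + 2 * κ) ≤ s * κ / y := by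
      have h1 : Real.sqrt (R / y) * (y / R) = Real.sqrt (y / R) := by
        have h2 : y / R = Real.sqrt (y / R) * Real.sqrt (y / R) :=
          (Real.mul_self_sqrt (by positivity)).symm
        have h3 : Real.sqrt (R / y) * Real.sqrt (y / R) = 1 := by
          rw [← Real.sqrt_mul (by positivity)]
          have : R / y * (y / R) = 1 := by field_simp
          rw [this, Real.sqrt_one]
        calc Real.sqrt (R / y) * (y / R) = Real.sqrt (R / y) * (Real.sqrt (y / R) * Real.sqrt (y / R)) := by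
              rw [← h2]
          _ = (Real.sqrt (R / y) * Real.sqrt (y / R)) * Real.sqrt (y / R) := by ring
          _ = _ := by rw [h3, one_mul]
      have h2 : Real.sqrt (y / R) ≤ Real.sqrt (2 * y0) := Real.sqrt_le_sqrt hyR'
      calc α * (g + 2 * κ) ≤ α * (3 * κ * Real.sqrt (R / y)) := by gcongr
        _ = 24 * p * κ * (Real.sqrt (R / y) * (y / R)) / y := by
          rw [hα]; field_simp; ring
        _ = 24 * p * κ * Real.sqrt (y / R) / y := by rw [h1]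
        _ ≤ 24 * p * κ * Real.sqrt (2 * y0) / y := by gcongr
        _ = (24 * p * Real.sqrt (2 * y0)) * κ / y := by ring
        _ = _ := by rw [h24]
    have hE := Err_near hs0.le (hs1.trans (by norm_num)) hα0 (by positivity : 0 ≤ g + 2 * κ) hG3
      hκ0.le hκ1 hx hy1 hX0 hY0 a2 a1 a3
    have hexp1 : Real.exp (-(α * x)) ≤ 1 := Real.exp_le_one_iff.2 (by linarith)
    have hexp2 : 1 / 2 ≤ Real.exp (-(α * x)) := by
      have := Real.add_one_le_exp (-(α * x))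
      linarith
    have hexp3 : 1 / 2 ≤ Real.exp (-(α * x / 4)) := by
      have := Real.add_one_le_exp (-(α * x / 4))
      linarith
    have hx2 : Real.exp (-(x / 2)) ≤ 96 / y ^ 2 := by
      have h1 := cube_exp_le (p := 1) hx le_rfl
      have h3 : Real.exp (-x) = Real.exp (-(x / 2)) * Real.exp (-(x / 2)) := by
        rw [← Real.exp_add]; ring_nf
      have h4 : 0 < Real.exp (-(x / 2)) := Real.exp_pos _
      rw [h3] at h1
      push_cast at h1
      have h5 : (1 + x) ^ 3 * Real.exp (-(x / 2)) ≤ 96 := by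
        have : (1 + x) ^ 3 * Real.exp (-(x / 2)) * Real.exp (-(x / 2)) ≤
          96 * Real.exp (-(x / 2)) := by
          calc _ = (1 + 1 * x) ^ 3 * (Real.exp (-(x / 2)) * Real.exp (-(x / 2))) := by ring
            _ ≤ _ := h1
            _ = _ := by ring
        exact le_of_mul_le_mul_right this h4
      rw [le_div_iff₀ (by positivity)]
      have h6 : y ^ 2 ≤ (1 + x) ^ 3 := pow_le_pow_right₀ hy1 (by norm_num)
      calc Real.exp (-(x / 2)) * y ^ 2 ≤ Real.exp (-(x / 2)) * (1 + x) ^ 3 := by gcongr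
        _ ≤ 96 := by linarith
    refine near_final hc₀ hC hs0.le hκ0.le hR0 hy1 hY0 hX0 (hexp2.trans b1) b3 heC (HQ2 hyR) hE
      (Real.exp_pos _).le hexp1 hexp3 (Real.exp_pos _).le hx2 hCG0 k1 k2 ?_ ?_ ?_
    · have : κ * (512 * (36 * C ^ 2 / c₀ + 3 * C)) ≤ κ * Λ := by gcongr
      linarith
    · -- 96 CG / R ≤ c₀ / 8 κ
      rw [div_le_iff₀ hR0]
      have h1 : 768 * CG / c₀ ≤ κ * R := m3.trans hRκ
      rw [div_le_iff₀ hc₀] at h1
      linarith
    · rw [div_le_iff₀ hR0]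
      have h1 : 96 * 512 * CG ≤ R := m4.trans hRΛ
      linarith
  · -- far region
    have hiy : 1 / y ≤ B / R := by
      rw [div_le_div_iff₀ hyp hR0]
      have h1 : y0 * R ≤ y := by linarith
      have h2 : 1 / y0 ≤ B := by rw [hBdef]; linarith
      calc 1 * R = 1 / y0 * (y0 * R) := by field_simp
        _ ≤ B * y := by gcongr
    have hαB : α ≤ B / R := by
      rw [hα]; gcongr; rw [hBdef]; linarith
    have hGB : g + 2 * κ ≤ B * κ := by
      have h1 : R / y ≤ 1 / y0 := by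
        rw [div_le_div_iff₀ hyp hy0]; linarith
      have h2 : Real.sqrt (R / y) ≤ 1 / y0 := by
        have h3 : (1:ℝ) ≤ 1 / y0 := by rw [le_div_iff₀ hy0]; linarith
        calc Real.sqrt (R / y) ≤ Real.sqrt (1 / y0) := Real.sqrt_le_sqrt h1
          _ ≤ Real.sqrt ((1 / y0) ^ 2) := Real.sqrt_le_sqrt (le_self_pow₀ h3 (by norm_num))
          _ = 1 / y0 := Real.sqrt_sq hiy0.le
      have h4 : κ * Real.sqrt (R / y) ≤ κ * (1 / y0) := by gcongr
      have h5 : κ * (1 / y0) + 2 * κ ≤ B * κ := by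
        have : (1 / y0 + 2) * κ ≤ B * κ := by
          gcongr; rw [hBdef]; linarith
        linarith
      linarith
    have hE := Err_far hB1 hR1 hα0 hαB (by positivity : 0 ≤ g + 2 * κ) hGB hκ0.le hx hyp hiy hX0 hY0
    have hzx : α * x ≤ x := by
      have h1 : α ≤ 1 := by rw [hα, div_le_one hR0]; exact m1.trans hRΛ
      exact mul_le_of_le_one_left hx h1
    refine far_final hC hB1 hκ0.le hR1 hy0 hcase.le hyp hiy hX0 hY0 hz hzx hm0 b2 he2 HQ1 hE hCG0
      ?_ ?_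
    · rw [div_le_iff₀ (by positivity)]
      have h1 : 32 * 512 * CG / y0 ^ 2 ≤ R := m5.trans hRΛ
      rw [div_le_iff₀ (by positivity)] at h1
      linarith
    · have : κ * (512 * (24 * C * B ^ 2 + 114240 * C * B ^ 6)) ≤ κ * Λ := by gcongr
      linarith

end

end Pool.Agent.H789.HSC


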