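import Pool.Agent.H789.HSC.Model

/-! # HSC T7 (by helper784): monotonicity of the model function, cubic vanishing at 0 -/

set_option autoImplicit false
set_option linter.unusedVariables false
set_option linter.unusedSectionVars false

open scoped BigOperators ContDiff ComplexConjugate Topology

namespace Pool.Agent.H789.HSC

noncomputable section

namespace T7aux

variable {p : ℕ}

/-! ### the derivative in the direction of the diagonal -/

theorem sum_pd (W : (Fin p → ℝ) → ℝ) (t : Fin p → ℝ) (v : ℝ) (hW : DifferentiableAt ℝ W t)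
    (h : HasDerivAt (fun s : ℝ => W (fun i => t i + s)) v 0) : ∑ i, pd W i t = v := by
  have h1 : HasDerivAt (fun s : ℝ => (fun i => t i + s : Fin p → ℝ)) (fun _ => (1 : ℝ)) 0 := by
    rw [hasDerivAt_pi]
    intro i
    exact (hasDerivAt_id (0 : ℝ)).const_add (t i)
  have h2 : HasFDerivAt W (fderiv ℝ W t) ((fun s : ℝ => (fun i => t i + s : Fin p → ℝ)) 0) := by
    have : (fun i => t i + 0 : Fin p → ℝ) = t := by funext i; simp
    simp only [this]
    exact hW.hasFDerivAt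
  have h3 := h2.comp_hasDerivAt (0 : ℝ) h1
  have h4 : fderiv ℝ W t (fun _ => (1 : ℝ)) = ∑ i, pd W i t := by
    unfold pd
    rw [← map_sum]
    congr 1
    funext j
    simp [Finset.sum_apply, Pi.single_apply]
  rw [← h4]
  exact h3.unique h

theorem xav_add (hp : 1 ≤ p) (t : Fin p → ℝ) (s : ℝ) :
    xav (fun i => t i + s) = xav t + s := by
  unfold xav
  rw [Finset.sum_add_distrib, Finset.sum_const, Finset.card_univ, Fintype.card_fin, nsmul_eq_mul]
  have : (p : ℝ) ≠ 0 := by positivity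
  field_simp

theorem sum_eq (hp : 1 ≤ p) (t : Fin p → ℝ) : ∑ i, t i = p * xav t := by
  unfold xav
  have : (p : ℝ) ≠ 0 := by positivity
  field_simp

theorem qhat_add (hp : 1 ≤ p) (t : Fin p → ℝ) (s : ℝ) :
    qhat (fun i => t i + s) = qhat t := by
  unfold qhat
  rw [xav_add hp]
  have h1 : ∑ i, (t i + s) ^ 2 = ∑ i, t i ^ 2 + 2 * s * ∑ i, t i + p * s ^ 2 := by
    have : ∀ i, (t i + s) ^ 2 = t i ^ 2 + 2 * s * t i + s ^ 2 := fun i => by ring
    simp only [this]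
    rw [Finset.sum_add_distrib, Finset.sum_add_distrib, ← Finset.mul_sum, Finset.sum_const,
      Finset.card_univ, Fintype.card_fin, nsmul_eq_mul]
  rw [h1, sum_eq hp t]
  ring

/-- derivative of `blk ρ` along the diagonal -/
def dblk (ρ : ℝ) (t : Fin p → ℝ) : ℝ :=
  ρ * (∑ i, (-2 * ((t i - 2 * xav t) / (ρ + t i + xav t)) -
      2 * ((t i - 2 * xav t) / (ρ + t i + xav t)) ^ 2) -
    2 * p * (2 * (xav t / (ρ + xav t)) - (xav t / (ρ + xav t)) ^ 2))

/-- all denominators are positive -/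
def Reg (t : Fin p → ℝ) : Prop := (∀ i, 0 < 1 + t i + xav t) ∧ 0 < 1 + xav t

theorem hd_blk (hp : 1 ≤ p) {t : Fin p → ℝ} (ht : Reg t) {ρ : ℝ} (hρ : 1 ≤ ρ) :
    HasDerivAt (fun s : ℝ => blk ρ (fun i => t i + s)) (dblk ρ t) 0 := by
  unfold blk dblk
  simp only [xav_add hp]
  apply HasDerivAt.const_mul
  apply HasDerivAt.sub
  · apply HasDerivAt.fun_sum
    intro i _
    have h1 : HasDerivAt (fun s : ℝ => (t i + s - 2 * (xav t + s)) ^ 2)
        (2 * (t i + 0 - 2 * (xav t + 0)) * (1 - 2)) 0 := by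
      have h2 : HasDerivAt (fun s : ℝ => t i + s - 2 * (xav t + s)) (1 - 2 * 1) 0 :=
        ((hasDerivAt_id (0 : ℝ)).const_add (t i)).sub
          (((hasDerivAt_id (0 : ℝ)).const_add (xav t)).const_mul 2)
      refine (h2.fun_pow 2).congr_deriv ?_
      push_cast
      ring
    have h4 : HasDerivAt (fun s : ℝ => ρ + (t i + s) + (xav t + s)) (1 + 1) 0 :=
      (((hasDerivAt_id (0 : ℝ)).const_add (t i)).const_add ρ).add
        ((hasDerivAt_id (0 : ℝ)).const_add (xav t))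
    have hne : ρ + (t i + 0) + (xav t + 0) ≠ 0 := by
      have := ht.1 i
      have : 0 < ρ + (t i + 0) + (xav t + 0) := by linarith
      exact this.ne'
    have h5 := h1.div h4 hne
    have hne' : ρ + t i + xav t ≠ 0 := by simpa using hne
    have e : (2 * (t i + 0 - 2 * (xav t + 0)) * (1 - 2) * (ρ + (t i + 0) + (xav t + 0)) -
        (t i + 0 - 2 * (xav t + 0)) ^ 2 * (1 + 1)) / (ρ + (t i + 0) + (xav t + 0)) ^ 2 =
        -2 * ((t i - 2 * xav t) / (ρ + t i + xav t)) -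
      2 * ((t i - 2 * xav t) / (ρ + t i + xav t)) ^ 2 := by
      simp only [add_zero]
      field_simp
      ring
    rw [← e]
    exact h5
  · have h1 : HasDerivAt (fun s : ℝ => 2 * (p : ℝ) * (xav t + s) ^ 2)
        (2 * (p : ℝ) * (2 * (xav t + 0))) 0 := by
      refine ((((hasDerivAt_id (0 : ℝ)).const_add (xav t)).fun_pow 2).const_mul
        (2 * (p : ℝ))).congr_deriv ?_
      simp
    have h4 : HasDerivAt (fun s : ℝ => ρ + (xav t + s)) 1 0 :=
      ((hasDerivAt_id (0 : ℝ)).const_add (xav t)).const_add ρ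
    have hpos : 0 < ρ + xav t := by
      have := ht.2
      linarith
    have hne : ρ + (xav t + 0) ≠ 0 := by
      rw [add_zero]
      exact hpos.ne'
    have h5 := h1.div h4 hne
    have hne' := hpos.ne'
    have e : (2 * (p : ℝ) * (2 * (xav t + 0)) * (ρ + (xav t + 0)) -
        2 * (p : ℝ) * (xav t + 0) ^ 2 * 1) / (ρ + (xav t + 0)) ^ 2 =
        2 * p * (2 * (xav t / (ρ + xav t)) - (xav t / (ρ + xav t)) ^ 2) := by
      simp only [add_zero]
      field_simp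
    rw [← e]
    exact h5

/-- the function `K` -/
def KK (N M : ℕ) (ε₁ δ : ℝ) (t : Fin p → ℝ) : ℝ :=
  E0 N t + ε₁ / N * wq t + δ / N * S0 M t

/-- derivative of `K` along the diagonal -/
def dKK (N : ℕ) (ε₁ : ℝ) (t : Fin p → ℝ) : ℝ :=
  (1 / (4 * N)) * ∑ m ∈ Finset.range N, dblk (2 ^ m) t +
    ε₁ / N * (xav t ^ 3 * (4 + 2 * xav t) / (1 + xav t) ^ 3)

theorem hd_KK (hp : 1 ≤ p) {t : Fin p → ℝ} (ht : Reg t) (N M : ℕ) (ε₁ δ : ℝ) :
    HasDerivAt (fun s : ℝ => KK N M ε₁ δ (fun i => t i + s)) (dKK N ε₁ t) 0 := by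
  unfold KK dKK
  have h1 : HasDerivAt (fun s : ℝ => E0 N (fun i => t i + s))
      ((1 / (4 * N)) * ∑ m ∈ Finset.range N, dblk (2 ^ m) t) 0 := by
    unfold E0
    apply HasDerivAt.const_mul
    apply HasDerivAt.fun_sum
    intro m _
    exact hd_blk hp ht (one_le_pow₀ (by norm_num))
  have h2 : HasDerivAt (fun s : ℝ => wq (fun i => t i + s))
      (xav t ^ 3 * (4 + 2 * xav t) / (1 + xav t) ^ 3) 0 := by
    unfold wq
    simp only [xav_add hp]
    have h3 := ((hasDerivAt_id (0 : ℝ)).const_add (xav t)).fun_pow 4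
    have h4 := (((hasDerivAt_id (0 : ℝ)).const_add (xav t)).const_add 1).fun_pow 2
    have hpos := ht.2
    have hne : (1 + (xav t + id 0)) ^ 2 ≠ 0 := by
      simp only [id, add_zero]
      positivity
    refine (h3.div h4 hne).congr_deriv ?_
    simp only [id, add_zero]
    have := hpos.ne'
    field_simp
    ring
  have h3 : HasDerivAt (fun s : ℝ => S0 M (fun i => t i + s)) 0 0 := by
    unfold S0
    simp only [qhat_add hp]
    exact hasDerivAt_const _ _
  have h6 := (h1.add (h2.const_mul (ε₁ / N))).add (h3.const_mul (δ / N))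
  rw [mul_zero, add_zero] at h6
  exact h6

/-- derivative of `Wm` along the diagonal -/
def dW (N M : ℕ) (ε₁ δ : ℝ) (t : Fin p → ℝ) : ℝ :=
  Real.exp (-xav t) * (3 * ∑ i, t i ^ 2 - ∑ i, t i ^ 3) / (8 * 2 ^ N) +
    (-(4 * (8 * p / 2 ^ N)) * (1 - Real.exp (-(8 * p * xav t / 2 ^ N))) ^ 3 *
      Real.exp (-(8 * p * xav t / 2 ^ N)) * KK N M ε₁ δ t +
    mcut p (2 ^ N) (xav t) * dKK N ε₁ t)

theorem hd_W (hp : 1 ≤ p) {t : Fin p → ℝ} (ht : Reg t) (N M : ℕ) (ε₁ δ : ℝ) :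
    HasDerivAt (fun s : ℝ => Wm N M ε₁ δ (fun i => t i + s)) (dW N M ε₁ δ t) 0 := by
  have hK := hd_KK hp ht N M ε₁ δ
  have h1 : HasDerivAt (fun s : ℝ => Real.exp (-(xav t + s)) * (∑ i, (t i + s) ^ 3) / (8 * 2 ^ N))
      (Real.exp (-xav t) * (3 * ∑ i, t i ^ 2 - ∑ i, t i ^ 3) / (8 * 2 ^ N)) 0 := by
    have a1 := (((hasDerivAt_id (0 : ℝ)).const_add (xav t)).neg).exp
    have a2 : HasDerivAt (fun s : ℝ => ∑ i, (t i + s) ^ 3) (∑ i, 3 * t i ^ 2) 0 := by
      apply HasDerivAt.fun_sum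
      intro i _
      refine (((hasDerivAt_id (0 : ℝ)).const_add (t i)).fun_pow 3).congr_deriv ?_
      simp
    refine ((a1.mul a2).div_const (8 * 2 ^ N)).congr_deriv ?_
    simp only [Pi.neg_apply, id, add_zero, mul_neg, mul_one]
    rw [← Finset.mul_sum]
    ring
  have h2 : HasDerivAt (fun s : ℝ => mcut p (2 ^ N) (xav t + s))
      (-(4 * (8 * p / 2 ^ N)) * (1 - Real.exp (-(8 * p * xav t / 2 ^ N))) ^ 3 *
      Real.exp (-(8 * p * xav t / 2 ^ N))) 0 := by
    unfold mcut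
    have a1 := (((((hasDerivAt_id (0 : ℝ)).const_add (xav t)).const_mul (8 * (p : ℝ))).div_const
      (2 ^ N)).neg).exp
    refine (((a1.const_sub 1).fun_pow 4).const_sub 1).congr_deriv ?_
    simp only [Pi.neg_apply, id, add_zero]
    push_cast
    ring
  have h3 := h1.add (h2.mul hK)
  have e1 : (fun s : ℝ => Wm N M ε₁ δ (fun i => t i + s)) = fun s : ℝ =>
      Real.exp (-(xav t + s)) * (∑ i, (t i + s) ^ 3) / (8 * 2 ^ N) +
        mcut p (2 ^ N) (xav t + s) * KK N M ε₁ δ (fun i => t i + s) := by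
    funext s
    unfold Wm KK
    rw [xav_add hp]
  rw [e1]
  refine h3.congr_deriv ?_
  unfold dW
  simp only [add_zero]

/-! ### differentiability -/

theorem diff_xav (t : Fin p → ℝ) : DifferentiableAt ℝ (fun t : Fin p → ℝ => xav t) t := by
  unfold xav
  fun_prop

theorem diff_blk {t : Fin p → ℝ} (ht : Reg t) {ρ : ℝ} (hρ : 1 ≤ ρ) :
    DifferentiableAt ℝ (fun t : Fin p → ℝ => blk ρ t) t := by
  have hx := diff_xav t
  unfold blk
  apply DifferentiableAt.const_mul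
  apply DifferentiableAt.sub
  · apply DifferentiableAt.fun_sum
    intro i _
    have hne : ρ + t i + xav t ≠ 0 := by
      have := ht.1 i
      have : 0 < ρ + t i + xav t := by linarith
      exact this.ne'
    simp only [div_eq_mul_inv]
    apply DifferentiableAt.mul
    · fun_prop
    · apply DifferentiableAt.inv
      · fun_prop
      · exact hne
  · have hne : ρ + xav t ≠ 0 := by
      have := ht.2
      have : 0 < ρ + xav t := by linarith
      exact this.ne'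
    simp only [div_eq_mul_inv]
    apply DifferentiableAt.mul
    · fun_prop
    · apply DifferentiableAt.inv
      · fun_prop
      · exact hne

theorem diff_W {t : Fin p → ℝ} (ht : Reg t) (N M : ℕ) (ε₁ δ : ℝ) :
    DifferentiableAt ℝ (Wm N M ε₁ δ) t := by
  have hx := diff_xav t
  have h1 : DifferentiableAt ℝ (fun t : Fin p → ℝ => E0 N t) t := by
    unfold E0
    apply DifferentiableAt.const_mul
    apply DifferentiableAt.fun_sum
    intro m _
    exact diff_blk ht (one_le_pow₀ (by norm_num))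
  have h2 : DifferentiableAt ℝ (fun t : Fin p → ℝ => wq t) t := by
    unfold wq
    have hne : (1 + xav t) ^ 2 ≠ 0 := by
      have := ht.2
      positivity
    simp only [div_eq_mul_inv]
    apply DifferentiableAt.mul
    · fun_prop
    · apply DifferentiableAt.inv
      · fun_prop
      · exact hne
  have h3 : DifferentiableAt ℝ (fun t : Fin p → ℝ => S0 M t) t := by
    unfold S0 qhat
    fun_prop
  have h4 : DifferentiableAt ℝ (fun t : Fin p → ℝ => mcut p (2 ^ N) (xav t)) t := by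
    unfold mcut
    fun_prop
  have e : Wm N M ε₁ δ = fun t : Fin p → ℝ => Real.exp (-xav t) * (∑ i, t i ^ 3) / (8 * 2 ^ N)
    + mcut p (2 ^ N) (xav t) * (E0 N t + ε₁ / N * wq t + δ / N * S0 M t) := by
    funext t
    rfl
  rw [e]
  fun_prop

theorem aV_eq (hp : 1 ≤ p) {t : Fin p → ℝ} (ht : Reg t) (N M : ℕ) (ε₁ δ : ℝ) :
    aV (2 ^ N) (Wm N M ε₁ δ) t = ∑ i, (F1 (2 ^ N) (t i) - F1 (2 ^ N) 0) + dW N M ε₁ δ t := by
  unfold aV
  rw [sum_pd _ t _ (diff_W ht N M ε₁ δ) (hd_W hp ht N M ε₁ δ)]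

/-! ### the key identity -/

/-- the quadratic -/
def Qk (ρ x t : ℝ) : ℝ := (ρ ^ 2 - ρ * x + x ^ 2) * t ^ 2 + (2 * x ^ 3 - 6 * x * ρ ^ 2) * t +
  (9 * x ^ 2 * ρ ^ 2 + 10 * x ^ 3 * ρ + x ^ 4)

theorem Qk_nonneg {ρ x t : ℝ} (hρ : 0 < ρ) (hx : 0 ≤ x) : 0 ≤ Qk ρ x t := by
  have ha : 0 < ρ ^ 2 - ρ * x + x ^ 2 := by nlinarith [sq_nonneg (ρ - x), sq_nonneg (ρ - 2 * x)]
  have h1 : (ρ ^ 2 - ρ * x + x ^ 2) * Qk ρ x t =
      ((ρ ^ 2 - ρ * x + x ^ 2) * t + (x ^ 3 - 3 * x * ρ ^ 2)) ^ 2 +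
        x ^ 3 * ρ * (ρ + 3 * x) ^ 2 := by
    unfold Qk
    ring
  have h2 : 0 ≤ (ρ ^ 2 - ρ * x + x ^ 2) * Qk ρ x t := by
    rw [h1]
    positivity
  by_contra hcon
  push Not at hcon
  nlinarith [mul_pos ha (neg_pos.2 hcon)]

theorem key (hp : 1 ≤ p) {t : Fin p → ℝ} (ht : Reg t) {ρ : ℝ} (hρ : 1 ≤ ρ) :
    2 * (p * xav t) + dblk ρ t = ∑ i, 2 * t i * Qk ρ (xav t) (t i) /
      ((ρ + xav t) ^ 2 * (ρ + t i + xav t) ^ 2) := by
  have h2 : 0 < ρ + xav t := by have := ht.2; linarith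
  have hterm : ∀ i, 2 * t i * Qk ρ (xav t) (t i) / ((ρ + xav t) ^ 2 * (ρ + t i + xav t) ^ 2) =
      2 * t i + ρ * (-2 * ((t i - 2 * xav t) / (ρ + t i + xav t)) -
      2 * ((t i - 2 * xav t) / (ρ + t i + xav t)) ^ 2) -
      (2 * ρ * (2 * (xav t / (ρ + xav t)) - (xav t / (ρ + xav t)) ^ 2) -
        6 * xav t * ρ / (ρ + xav t) ^ 2 * xav t) - 6 * xav t * ρ / (ρ + xav t) ^ 2 * t i := by
    intro i
    have h1 : 0 < ρ + t i + xav t := by have := ht.1 i; linarith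
    unfold Qk
    have h1' := h1.ne'
    have h2' := h2.ne'
    generalize xav t = x at *
    field_simp
    ring
  simp only [hterm]
  rw [Finset.sum_sub_distrib, Finset.sum_sub_distrib, Finset.sum_add_distrib, ← Finset.mul_sum,
    ← Finset.mul_sum, ← Finset.mul_sum, Finset.sum_const, Finset.card_univ, Fintype.card_fin,
    nsmul_eq_mul, sum_eq hp t]
  unfold dblk
  ring

/-! ### elementary bounds for `t ≥ 0` -/

section pos

variable {t : Fin p → ℝ} (h0 : ∀ i, 0 ≤ t i)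

include h0

theorem xav_nonneg : 0 ≤ xav t := by
  unfold xav
  exact div_nonneg (Finset.sum_nonneg fun i _ => h0 i) (by positivity)

theorem reg_of_nonneg : Reg t := by
  have hx := xav_nonneg h0
  exact ⟨fun i => by have := h0 i; linarith, by linarith⟩

theorem le_sum (hp : 1 ≤ p) (i : Fin p) : t i ≤ p * xav t := by
  rw [← sum_eq hp t]
  exact Finset.single_le_sum (fun j _ => h0 j) (Finset.mem_univ i)

theorem sum_sq_le (hp : 1 ≤ p) : ∑ i, t i ^ 2 ≤ (p * xav t) ^ 2 := by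
  calc ∑ i, t i ^ 2 ≤ ∑ i, t i * (p * xav t) := by
        apply Finset.sum_le_sum
        intro i _
        rw [pow_two]
        exact mul_le_mul_of_nonneg_left (le_sum h0 hp i) (h0 i)
    _ = (p * xav t) ^ 2 := by rw [← Finset.sum_mul, sum_eq hp t]; ring

theorem sum_cube_le (hp : 1 ≤ p) : ∑ i, t i ^ 3 ≤ (p * xav t) ^ 3 := by
  calc ∑ i, t i ^ 3 ≤ ∑ i, t i * (p * xav t) ^ 2 := by
        apply Finset.sum_le_sum
        intro i _
        have e : t i ^ 3 = t i * t i ^ 2 := by ring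
        rw [e]
        exact mul_le_mul_of_nonneg_left (pow_le_pow_left₀ (h0 i) (le_sum h0 hp i) 2) (h0 i)
    _ = (p * xav t) ^ 3 := by rw [← Finset.sum_mul, sum_eq hp t]; ring

theorem dblk_ge (hp : 1 ≤ p) {ρ : ℝ} (hρ : 1 ≤ ρ) : -(2 * (p * xav t)) ≤ dblk ρ t := by
  have h := key hp (reg_of_nonneg h0) hρ
  have h1 : 0 ≤ ∑ i, 2 * t i * Qk ρ (xav t) (t i) /
      ((ρ + xav t) ^ 2 * (ρ + t i + xav t) ^ 2) := by
    apply Finset.sum_nonneg
    intro i _
    have := Qk_nonneg (ρ := ρ) (x := xav t) (t := t i) (by linarith) (xav_nonneg h0)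
    have := h0 i
    positivity
  linarith

theorem dblk_ge2 (hp : 1 ≤ p) {ρ : ℝ} (hρ : 1 ≤ ρ) :
    -(12 * p * (xav t * (ρ / (ρ + xav t)))) ≤ dblk ρ t := by
  have hx := xav_nonneg h0
  have hs : 0 < ρ + xav t := by linarith
  have h1 : ∀ i, -(2 * (2 * t i + 2 * xav t) / (ρ + xav t)) ≤
      -2 * ((t i - 2 * xav t) / (ρ + t i + xav t)) -
      2 * ((t i - 2 * xav t) / (ρ + t i + xav t)) ^ 2 := by
    intro i
    have hti := h0 i
    generalize xav t = x at *
    generalize t i = u at *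
    have hD : 0 < ρ + u + x := by linarith
    have e : -2 * ((u - 2 * x) / (ρ + u + x)) - 2 * ((u - 2 * x) / (ρ + u + x)) ^ 2 +
        2 * (2 * u + 2 * x) / (ρ + x) =
        2 * (u * (ρ + x) ^ 2 + 2 * u ^ 2 * (ρ + x) + 2 * u ^ 3 + 10 * x * u * (ρ + x) +
          2 * x * u ^ 2 + 4 * x * (ρ + x) * ρ) / ((ρ + x) * (ρ + u + x) ^ 2) := by
      field_simp
      ring
    have e2 : 0 ≤ 2 * (u * (ρ + x) ^ 2 + 2 * u ^ 2 * (ρ + x) + 2 * u ^ 3 + 10 * x * u * (ρ + x) +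
          2 * x * u ^ 2 + 4 * x * (ρ + x) * ρ) / ((ρ + x) * (ρ + u + x) ^ 2) := by
      positivity
    linarith
  have h2 : -(8 * p * xav t / (ρ + xav t)) ≤
      ∑ i, (-2 * ((t i - 2 * xav t) / (ρ + t i + xav t)) -
      2 * ((t i - 2 * xav t) / (ρ + t i + xav t)) ^ 2) := by
    refine le_trans (le_of_eq ?_) (Finset.sum_le_sum fun i _ => h1 i)
    have e : ∀ i, -(2 * (2 * t i + 2 * xav t) / (ρ + xav t)) =
        -(4 / (ρ + xav t)) * t i + -(4 * xav t / (ρ + xav t)) := fun i => by ring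
    simp only [e]
    rw [Finset.sum_add_distrib, ← Finset.mul_sum, Finset.sum_const, Finset.card_univ,
      Fintype.card_fin, nsmul_eq_mul, sum_eq hp t]
    ring
  have h3 : 2 * (xav t / (ρ + xav t)) - (xav t / (ρ + xav t)) ^ 2 ≤ 2 * (xav t / (ρ + xav t)) := by
    have := sq_nonneg (xav t / (ρ + xav t))
    linarith
  have h4 : 2 * (p : ℝ) * (2 * (xav t / (ρ + xav t)) - (xav t / (ρ + xav t)) ^ 2) ≤
      2 * (p : ℝ) * (2 * (xav t / (ρ + xav t))) := mul_le_mul_of_nonneg_left h3 (by positivity)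
  unfold dblk
  have h5 : -(12 * p * (xav t * (ρ / (ρ + xav t)))) =
      ρ * (-(8 * p * xav t / (ρ + xav t)) - 2 * (p : ℝ) * (2 * (xav t / (ρ + xav t)))) := by
    ring
  rw [h5]
  apply mul_le_mul_of_nonneg_left _ (by linarith)
  linarith

theorem blk_le (hp : 1 ≤ p) {ρ : ℝ} (hρ : 1 ≤ ρ) :
    blk ρ t ≤ (p * xav t) ^ 2 * (ρ / (ρ + xav t)) := by
  have hx := xav_nonneg h0
  have hs : 0 < ρ + xav t := by linarith
  have h1 : ∑ i, (t i - 2 * xav t) ^ 2 / (ρ + t i + xav t) ≤ (p * xav t) ^ 2 / (ρ + xav t) := by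
    calc ∑ i, (t i - 2 * xav t) ^ 2 / (ρ + t i + xav t) ≤
        ∑ i, (t i - 2 * xav t) ^ 2 / (ρ + xav t) := by
          apply Finset.sum_le_sum
          intro i _
          apply div_le_div_of_nonneg_left (sq_nonneg _) hs
          have := h0 i
          linarith
      _ = (∑ i, (t i - 2 * xav t) ^ 2) / (ρ + xav t) := by rw [Finset.sum_div]
      _ = (∑ i, t i ^ 2) / (ρ + xav t) := by
          congr 1
          have e : ∀ i, (t i - 2 * xav t) ^ 2 = t i ^ 2 - 4 * xav t * t i + 4 * xav t ^ 2 :=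
            fun i => by ring
          simp only [e]
          rw [Finset.sum_add_distrib, Finset.sum_sub_distrib, ← Finset.mul_sum, Finset.sum_const,
            Finset.card_univ, Fintype.card_fin, nsmul_eq_mul, sum_eq hp t]
          ring
      _ ≤ (p * xav t) ^ 2 / (ρ + xav t) :=
          div_le_div_of_nonneg_right (sum_sq_le h0 hp) hs.le
  unfold blk
  have h2 : 0 ≤ 2 * (p : ℝ) * xav t ^ 2 / (ρ + xav t) := by positivity
  calc ρ * (∑ i, (t i - 2 * xav t) ^ 2 / (ρ + t i + xav t) - 2 * p * xav t ^ 2 / (ρ + xav t)) ≤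
      ρ * ((p * xav t) ^ 2 / (ρ + xav t)) := by
        apply mul_le_mul_of_nonneg_left _ (by linarith)
        linarith
    _ = _ := by ring

theorem qhat_nonneg (hp : 1 ≤ p) : 0 ≤ qhat t := by
  have h : qhat t = ∑ i, (t i - xav t) ^ 2 := by
    unfold qhat
    have e : ∀ i, (t i - xav t) ^ 2 = t i ^ 2 - 2 * xav t * t i + xav t ^ 2 := fun i => by ring
    simp only [e]
    rw [Finset.sum_add_distrib, Finset.sum_sub_distrib, ← Finset.mul_sum, Finset.sum_const,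
      Finset.card_univ, Fintype.card_fin, nsmul_eq_mul, sum_eq hp t]
    ring
  rw [h]
  exact Finset.sum_nonneg fun i _ => sq_nonneg _

omit h0 in
theorem geom16 (M : ℕ) : ∑ j ∈ Finset.range M, (1 / 16 : ℝ) ^ j ≤ 2 := by
  rw [geom_sum_eq (by norm_num)]
  rw [div_le_iff_of_neg (by norm_num)]
  have : 0 < (1 / 16 : ℝ) ^ M := by positivity
  linarith

theorem S0_le (hp : 1 ≤ p) (M : ℕ) : S0 M t ≤ 2 := by
  have hq := qhat_nonneg h0 hp
  unfold S0
  refine le_trans (Finset.sum_le_sum fun j _ => ?_) (geom16 M)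
  have h1 : Real.exp (-(4 ^ j * qhat t)) ≤ 1 := by
    rw [Real.exp_le_one_iff]
    have : 0 ≤ (4 : ℝ) ^ j * qhat t := by positivity
    linarith
  have h2 : 0 < (1 / 16 : ℝ) ^ j := by positivity
  nlinarith

end pos

theorem S0_nonneg (t : Fin p → ℝ) (M : ℕ) : 0 ≤ S0 M t := by
  unfold S0
  exact Finset.sum_nonneg fun j _ => by positivity

/-- the sum over the scales -/
def GS (N : ℕ) (x : ℝ) : ℝ := ∑ m ∈ Finset.range N, (2 : ℝ) ^ m / (2 ^ m + x)

theorem GS_le_N (N : ℕ) {x : ℝ} (hx : 0 ≤ x) : GS N x ≤ N := by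
  unfold GS
  calc ∑ m ∈ Finset.range N, (2 : ℝ) ^ m / (2 ^ m + x) ≤ ∑ m ∈ Finset.range N, (1 : ℝ) := by
        apply Finset.sum_le_sum
        intro m _
        rw [div_le_one (by positivity)]
        linarith
    _ = N := by simp

theorem GS_nonneg (N : ℕ) {x : ℝ} (hx : 0 ≤ x) : 0 ≤ GS N x :=
  Finset.sum_nonneg fun m _ => by positivity

theorem GS_le (N : ℕ) {x : ℝ} (hx : 0 < x) : x * GS N x ≤ 3 / 2 * √(2 ^ N * x) := by
  induction N with
  | zero =>
    unfold GS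
    simp only [Finset.range_zero, Finset.sum_empty, mul_zero]
    positivity
  | succ N ih =>
    have h1 : GS (N + 1) x = GS N x + 2 ^ N / (2 ^ N + x) := by
      unfold GS
      rw [Finset.sum_range_succ]
    rw [h1, mul_add]
    set r : ℝ := √(2 ^ N * x) with hr
    have hr0 : 0 < r := Real.sqrt_pos.2 (by positivity)
    have hr2 : r ^ 2 = 2 ^ N * x := Real.sq_sqrt (by positivity)
    have h2 : x * (2 ^ N / (2 ^ N + x)) ≤ r / 2 := by
      have h3 : 2 * r ≤ 2 ^ N + x := by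
        have : (2 * r) ^ 2 ≤ (2 ^ N + x) ^ 2 := by
          rw [mul_pow, hr2]
          nlinarith [sq_nonneg ((2 : ℝ) ^ N - x)]
        exact (pow_le_pow_iff_left₀ (by positivity) (by positivity) two_ne_zero).1 this
      rw [mul_div_assoc', div_le_div_iff₀ (by positivity) two_pos]
      have h4 : x * 2 ^ N * 2 = r * (2 * r) := by
        have : r * (2 * r) = 2 * r ^ 2 := by ring
        rw [this, hr2]
        ring
      rw [h4]
      exact mul_le_mul_of_nonneg_left h3 hr0.le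
    have h5 : 4 / 3 * r ≤ √(2 ^ (N + 1) * x) := by
      apply Real.le_sqrt_of_sq_le
      have e1 : (4 / 3 * r) ^ 2 = 16 / 9 * (2 ^ N * x) := by rw [← hr2]; ring
      have e2 : (2 : ℝ) ^ (N + 1) * x = 2 * (2 ^ N * x) := by ring
      rw [e1, e2]
      have : 0 < (2 : ℝ) ^ N * x := by positivity
      linarith
    linarith


/-! ### bounds of the pieces -/

theorem exp_neg_le {s : ℝ} (hs : 0 ≤ s) : Real.exp (-s) ≤ 1 - s + s ^ 2 / 2 := by
  have h1 := Real.quadratic_le_exp_of_nonneg hs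
  have h2 : 0 < Real.exp s := Real.exp_pos s
  have h3 : Real.exp (-s) * Real.exp s = 1 := by rw [← Real.exp_add]; simp
  have h4 : 0 < 1 - s + s ^ 2 / 2 := by nlinarith [sq_nonneg (s - 1)]
  have h5 : 1 ≤ (1 - s + s ^ 2 / 2) * Real.exp s := by
    calc (1:ℝ) ≤ (1 - s + s ^ 2 / 2) * (1 + s + s ^ 2 / 2) := by nlinarith [sq_nonneg (s^2)]
      _ ≤ _ := mul_le_mul_of_nonneg_left h1 h4.le
  by_contra hcon
  push Not at hcon
  have := mul_lt_mul_of_pos_right hcon h2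
  linarith

theorem F1_diff (R t : ℝ) : F1 R t - F1 R 0 =
    R / 4 * ((1 - Real.exp (-(t / R))) + (1 - Real.exp (-(2 * t / R))) / 2) := by
  unfold F1
  simp only [zero_div, mul_zero, neg_zero, Real.exp_zero]
  ring

theorem F1_ge1 {R t : ℝ} (hR : 0 < R) (ht : 0 ≤ t) :
    t / 2 - 3 * t ^ 2 / (8 * R) ≤ F1 R t - F1 R 0 := by
  rw [F1_diff]
  have h1 := exp_neg_le (s := t / R) (by positivity)
  have h2 := exp_neg_le (s := 2 * t / R) (by positivity)
  have e : t / 2 - 3 * t ^ 2 / (8 * R) =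
      R / 4 * ((t / R - (t / R) ^ 2 / 2) + (2 * t / R - (2 * t / R) ^ 2 / 2) / 2) := by
    field_simp
    ring
  rw [e]
  apply mul_le_mul_of_nonneg_left _ (by positivity)
  linarith

theorem F1_ge2 {R t : ℝ} (hR : 0 < R) (ht : 0 ≤ t) :
    R / 4 * (1 - Real.exp (-(t / R))) ≤ F1 R t - F1 R 0 := by
  rw [F1_diff]
  apply mul_le_mul_of_nonneg_left _ (by positivity)
  have : Real.exp (-(2 * t / R)) ≤ 1 := Real.exp_le_one_iff.2 (by
    have : 0 ≤ 2 * t / R := by positivity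
    linarith)
  linarith

theorem one_sub_exp_le {x : ℝ} (hx : 0 ≤ x) : (1 - Real.exp (-x)) * (1 + x) ≤ 2 * x := by
  have h1 : 1 - Real.exp (-x) ≤ x := by have := Real.add_one_le_exp (-x); linarith
  have h2 : 1 - Real.exp (-x) ≤ 1 := by have := Real.exp_pos (-x); linarith
  nlinarith

theorem exp_neg_le_inv {x : ℝ} (hx : 0 ≤ x) : Real.exp (-x) * (1 + x) ≤ 1 := by
  have h1 : 1 + x ≤ Real.exp x := by have := Real.add_one_le_exp x; linarith
  calc Real.exp (-x) * (1 + x) ≤ Real.exp (-x) * Real.exp x :=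
        mul_le_mul_of_nonneg_left h1 (Real.exp_pos _).le
    _ = 1 := by rw [← Real.exp_add]; simp

section pos2

variable {t : Fin p → ℝ} (h0 : ∀ i, 0 ≤ t i)

include h0

theorem wq_le : wq t ≤ xav t ^ 2 := by
  have hx := xav_nonneg h0
  unfold wq
  rw [div_le_iff₀ (by positivity)]
  generalize xav t = x at *
  nlinarith [pow_nonneg hx 2, pow_nonneg hx 3]

theorem E0_le (hp : 1 ≤ p) (N : ℕ) :
    E0 N t ≤ (p * xav t) ^ 2 * GS N (xav t) / (4 * N) := by
  unfold E0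
  have h1 : ∑ m ∈ Finset.range N, blk (2 ^ m) t ≤ (p * xav t) ^ 2 * GS N (xav t) := by
    unfold GS
    rw [Finset.mul_sum]
    exact Finset.sum_le_sum fun m _ => blk_le h0 hp (one_le_pow₀ (by norm_num))
  calc 1 / (4 * (N : ℝ)) * ∑ m ∈ Finset.range N, blk (2 ^ m) t ≤
      1 / (4 * (N : ℝ)) * ((p * xav t) ^ 2 * GS N (xav t)) :=
        mul_le_mul_of_nonneg_left h1 (by positivity)
    _ = _ := by ring

theorem KK_le (hp : 1 ≤ p) (N M : ℕ) {ε₁ δ : ℝ} (he0 : 0 ≤ ε₁) (he1 : ε₁ ≤ 1) (hd0 : 0 ≤ δ)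
    (hd1 : δ ≤ 1) :
    KK N M ε₁ δ t ≤ (p * xav t) ^ 2 * GS N (xav t) / (4 * N) + xav t ^ 2 / N + 2 / N := by
  have h1 := E0_le h0 hp N
  have h2 : ε₁ / N * wq t ≤ xav t ^ 2 / N := by
    have hw := wq_le h0
    have hw0 : 0 ≤ wq t := by
      unfold wq
      positivity
    calc ε₁ / N * wq t = (ε₁ * wq t) / N := by ring
      _ ≤ (1 * xav t ^ 2) / N := by
          apply div_le_div_of_nonneg_right _ (by positivity)
          exact mul_le_mul he1 hw hw0 zero_le_one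
      _ = _ := by ring
  have h3 : δ / N * S0 M t ≤ 2 / N := by
    have hs := S0_le h0 hp M
    have hs0 := S0_nonneg t M
    calc δ / N * S0 M t = (δ * S0 M t) / N := by ring
      _ ≤ (1 * 2) / N := by
          apply div_le_div_of_nonneg_right _ (by positivity)
          exact mul_le_mul hd1 hs hs0 zero_le_one
      _ = _ := by ring
  unfold KK
  linarith

theorem dKK_ge (hp : 1 ≤ p) {N : ℕ} (hN : 1 ≤ N) (ε₁ : ℝ) :
    -(p * xav t / 2) + ε₁ / N * (xav t ^ 3 * (4 + 2 * xav t) / (1 + xav t) ^ 3) ≤ dKK N ε₁ t := by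
  unfold dKK
  have h1 : -(2 * (p * xav t)) * N ≤ ∑ m ∈ Finset.range N, dblk (2 ^ m) t := by
    calc -(2 * (p * xav t)) * N = ∑ m ∈ Finset.range N, -(2 * (p * xav t)) := by
          rw [Finset.sum_const, Finset.card_range, nsmul_eq_mul]; ring
      _ ≤ _ := Finset.sum_le_sum fun m _ => dblk_ge h0 hp (one_le_pow₀ (by norm_num))
  have hNp : (0 : ℝ) < N := by exact_mod_cast hN
  have h2 : 1 / (4 * (N : ℝ)) * (-(2 * (p * xav t)) * N) ≤
      1 / (4 * (N : ℝ)) * ∑ m ∈ Finset.range N, dblk (2 ^ m) t :=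
    mul_le_mul_of_nonneg_left h1 (by positivity)
  have h3 : 1 / (4 * (N : ℝ)) * (-(2 * (p * xav t)) * N) = -(p * xav t / 2) := by
    field_simp
    ring
  linarith

theorem dKK_ge2 (hp : 1 ≤ p) {N : ℕ} (hN : 1 ≤ N) {ε₁ : ℝ} (he0 : 0 ≤ ε₁) :
    -(3 * p / N * (xav t * GS N (xav t))) ≤ dKK N ε₁ t := by
  have hx := xav_nonneg h0
  unfold dKK
  have h1 : -(12 * p * (xav t * GS N (xav t))) ≤ ∑ m ∈ Finset.range N, dblk (2 ^ m) t := by
    calc -(12 * p * (xav t * GS N (xav t))) =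
          ∑ m ∈ Finset.range N, -(12 * p * (xav t * (2 ^ m / (2 ^ m + xav t)))) := by
          unfold GS
          rw [Finset.sum_neg_distrib, ← Finset.mul_sum, ← Finset.mul_sum]
      _ ≤ _ := Finset.sum_le_sum fun m _ => dblk_ge2 h0 hp (one_le_pow₀ (by norm_num))
  have hNp : (0 : ℝ) < N := by exact_mod_cast hN
  have h2 : 1 / (4 * (N : ℝ)) * (-(12 * p * (xav t * GS N (xav t)))) ≤
      1 / (4 * (N : ℝ)) * ∑ m ∈ Finset.range N, dblk (2 ^ m) t :=
    mul_le_mul_of_nonneg_left h1 (by positivity)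
  have h3 : 1 / (4 * (N : ℝ)) * (-(12 * p * (xav t * GS N (xav t)))) =
      -(3 * p / N * (xav t * GS N (xav t))) := by
    field_simp
    ring
  have h4 : 0 ≤ ε₁ / N * (xav t ^ 3 * (4 + 2 * xav t) / (1 + xav t) ^ 3) := by positivity
  linarith

/-- lower bound in the region `x ≲ R / N` -/
theorem regionA (hp : 2 ≤ p) {N : ℕ} (hN : 2 ≤ N) {ε₁ δ : ℝ} (he0 : 0 < ε₁) (he1 : ε₁ ≤ 1)
    (hd0 : 0 ≤ δ) (hd1 : δ ≤ 1) (M : ℕ)
    (hA : 1 + xav t ≤ ε₁ * 2 ^ N / (4 * p ^ 3 * N)) :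
    ε₁ / (2 * N) * (xav t ^ 3 / (1 + xav t) ^ 2) ≤ aV (2 ^ N) (Wm N M ε₁ δ) t := by
  have hp1 : 1 ≤ p := by omega
  rw [aV_eq hp1 (reg_of_nonneg h0)]
  have hx := xav_nonneg h0
  have hS2 := sum_sq_le h0 hp1
  have hS3 := sum_cube_le h0 hp1
  have hS20 : 0 ≤ ∑ i, t i ^ 2 := Finset.sum_nonneg fun i _ => sq_nonneg _
  have hS30 : 0 ≤ ∑ i, t i ^ 3 := Finset.sum_nonneg fun i _ => pow_nonneg (h0 i) 3
  have hsum := sum_eq hp1 t
  have hK := KK_le h0 hp1 N M he0.le he1 hd0 hd1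
  have hdK := dKK_ge h0 hp1 (by omega : 1 ≤ N) ε₁
  have hGS := GS_le_N N hx
  have hGS0 := GS_nonneg N hx
  have hP : (2 : ℝ) ≤ p := by exact_mod_cast hp
  have hNR : (2 : ℝ) ≤ N := by exact_mod_cast hN
  have hR : (0 : ℝ) < 2 ^ N := by positivity
  have hF : ∑ i, t i / 2 - ∑ i, 3 * t i ^ 2 / (8 * 2 ^ N) ≤ ∑ i, (F1 (2 ^ N) (t i) - F1 (2 ^ N) 0) := by
    rw [← Finset.sum_sub_distrib]
    exact Finset.sum_le_sum fun i _ => F1_ge1 hR (h0 i)
  have e1 : ∑ i, t i / 2 = p * xav t / 2 := by rw [← Finset.sum_div, hsum]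
  have e2 : ∑ i, 3 * t i ^ 2 / (8 * 2 ^ N) = 3 * (∑ i, t i ^ 2) / (8 * 2 ^ N) := by
    rw [← Finset.sum_div, ← Finset.mul_sum]
  rw [e1, e2] at hF
  have hA1 := one_sub_exp_le hx
  have hA2 := exp_neg_le_inv hx
  have hA0 := Real.exp_pos (-xav t)
  unfold dW mcut
  have hE0 := Real.exp_pos (-(8 * p * xav t / 2 ^ N))
  have hE1 : Real.exp (-(8 * p * xav t / 2 ^ N)) ≤ 1 := by
    rw [Real.exp_le_one_iff]
    have : 0 ≤ 8 * p * xav t / 2 ^ N := by positivity
    linarith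
  have ho1 : 1 - Real.exp (-(8 * p * xav t / 2 ^ N)) ≤ 8 * p / 2 ^ N * xav t := by
    have := Real.add_one_le_exp (-(8 * p * xav t / 2 ^ N))
    have e : 8 * (p : ℝ) / 2 ^ N * xav t = 8 * p * xav t / 2 ^ N := by ring
    rw [e]
    linarith
  generalize hEE : Real.exp (-(8 * p * xav t / 2 ^ N)) = E at *
  generalize hAA : Real.exp (-xav t) = A at *
  generalize hoo : 1 - E = o at *
  have ho0 : 0 ≤ o := by linarith
  generalize KK N M ε₁ δ t = K at *
  generalize dKK N ε₁ t = D at *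
  generalize ∑ i, t i ^ 2 = S2 at *
  generalize ∑ i, t i ^ 3 = S3 at *
  generalize ∑ i, (F1 (2 ^ N) (t i) - F1 (2 ^ N) 0) = FF at *
  generalize GS N (xav t) = G at *
  generalize xav t = x at *
  generalize (2 : ℝ) ^ N = R at *
  generalize (p : ℝ) = P at *
  generalize (N : ℝ) = n at *
  clear hsum e1 e2 hEE hAA
  have hx1 : 0 < 1 + x := by linarith
  have hn : 0 < n := by linarith
  have hPp : 0 < P := by linarith
  set Z : ℝ := x ^ 3 / (1 + x) ^ 2 with hZ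
  have hZ0 : 0 ≤ Z := by positivity
  set v : ℝ := ε₁ / n with hv
  have hv0 : 0 < v := by positivity
  have hv1 : v ≤ 1 / 2 := by
    rw [hv, div_le_div_iff₀ hn two_pos]
    linarith
  -- `(1 + x) / R ≤ v / (4 P^3)`
  have hA' : (1 + x) / R ≤ v / (4 * P ^ 3) := by
    rw [div_le_iff₀ hR]
    calc 1 + x ≤ ε₁ * R / (4 * P ^ 3 * n) := hA
      _ = v / (4 * P ^ 3) * R := by rw [hv]; field_simp
  -- error 1
  have g1 : (1 - A) * (3 * S2) / (8 * R) ≤ 3 * P ^ 2 / 4 * ((1 + x) / R) * Z := by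
    have : 1 - A ≤ 2 * x / (1 + x) := by rw [le_div_iff₀ hx1]; exact hA1
    have h1A : 0 ≤ 2 * x / (1 + x) := by positivity
    calc (1 - A) * (3 * S2) / (8 * R) ≤ (2 * x / (1 + x)) * (3 * (P * x) ^ 2) / (8 * R) := by
          apply div_le_div_of_nonneg_right _ (by positivity)
          exact mul_le_mul this (by linarith) (by positivity) h1A
      _ = _ := by rw [hZ]; field_simp; ring
  have g2 : A * S3 / (8 * R) ≤ P ^ 3 / 8 * ((1 + x) / R) * Z := by
    have : A ≤ 1 / (1 + x) := by rw [le_div_iff₀ hx1]; exact hA2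
    calc A * S3 / (8 * R) ≤ (1 / (1 + x)) * (P * x) ^ 3 / (8 * R) := by
          apply div_le_div_of_nonneg_right _ (by positivity)
          exact mul_le_mul this hS3 hS30 (by positivity)
      _ = _ := by rw [hZ]; field_simp
  have g12 : (1 - A) * (3 * S2) / (8 * R) + A * S3 / (8 * R) ≤ v / 8 * Z := by
    have h1 : 3 * P ^ 2 / 4 + P ^ 3 / 8 ≤ P ^ 3 / 2 := by nlinarith [sq_nonneg P]
    calc (1 - A) * (3 * S2) / (8 * R) + A * S3 / (8 * R) ≤
        (3 * P ^ 2 / 4 + P ^ 3 / 8) * ((1 + x) / R) * Z := by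
          have : (3 * P ^ 2 / 4 + P ^ 3 / 8) * ((1 + x) / R) * Z =
            3 * P ^ 2 / 4 * ((1 + x) / R) * Z + P ^ 3 / 8 * ((1 + x) / R) * Z := by ring
          rw [this]
          exact add_le_add g1 g2
      _ ≤ (P ^ 3 / 2) * (v / (4 * P ^ 3)) * Z := by
          apply mul_le_mul_of_nonneg_right _ hZ0
          exact mul_le_mul h1 hA' (by positivity) (by positivity)
      _ = _ := by field_simp; ring
  -- `u`
  set u : ℝ := 8 * P / R * (1 + x) with hu
  have hu0 : 0 ≤ u := by positivity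
  have hu1 : u ≤ 2 * v / P ^ 2 := by
    calc u = 8 * P * ((1 + x) / R) := by rw [hu]; ring
      _ ≤ 8 * P * (v / (4 * P ^ 3)) := mul_le_mul_of_nonneg_left hA' (by positivity)
      _ = _ := by field_simp; ring
  have hou : o ≤ u := by
    calc o ≤ 8 * P / R * x := ho1
      _ ≤ 8 * P / R * (1 + x) := mul_le_mul_of_nonneg_left (by linarith) (by positivity)
  have hP4 : 4 ≤ P ^ 2 := by nlinarith
  have huv : u ≤ v / 2 := by
    refine hu1.trans ?_
    rw [div_le_div_iff₀ (by positivity) two_pos]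
    nlinarith
  -- error 3
  have hK' : K ≤ P ^ 2 * (1 + x) ^ 2 := by
    have k1 : (P * x) ^ 2 * G / (4 * n) ≤ (P * x) ^ 2 / 4 := by
      rw [div_le_div_iff₀ (by positivity) (by norm_num)]
      have : (P * x) ^ 2 * G ≤ (P * x) ^ 2 * n := mul_le_mul_of_nonneg_left hGS (by positivity)
      linarith
    have k2 : x ^ 2 / n ≤ x ^ 2 / 2 := div_le_div_of_nonneg_left (by positivity) two_pos hNR
    have k3 : 2 / n ≤ 2 / 2 := div_le_div_of_nonneg_left (by positivity) two_pos hNR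
    have k4 : 4 * x ^ 2 ≤ P ^ 2 * x ^ 2 := mul_le_mul_of_nonneg_right hP4 (sq_nonneg x)
    have k5 : 0 ≤ P ^ 2 * x := by positivity
    have k6 : P ^ 2 * (1 + x) ^ 2 = P ^ 2 * x ^ 2 + 2 * (P ^ 2 * x) + P ^ 2 := by ring
    have k7 : (P * x) ^ 2 = P ^ 2 * x ^ 2 := by ring
    rw [k7] at k1 hK
    rw [k6]
    linarith [sq_nonneg x]
  have g3 : 4 * (8 * P / R) * o ^ 3 * E * K ≤ v / 8 * Z := by
    have c0 : 0 ≤ 4 * (8 * P / R) * o ^ 3 * E := by positivity
    have c1 : o ^ 3 ≤ (8 * P / R * x) ^ 3 := pow_le_pow_left₀ ho0 ho1 3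
    calc 4 * (8 * P / R) * o ^ 3 * E * K ≤ 4 * (8 * P / R) * o ^ 3 * E * (P ^ 2 * (1 + x) ^ 2) :=
          mul_le_mul_of_nonneg_left hK' c0
      _ ≤ 4 * (8 * P / R) * (8 * P / R * x) ^ 3 * 1 * (P ^ 2 * (1 + x) ^ 2) := by
          apply mul_le_mul_of_nonneg_right _ (by positivity)
          apply mul_le_mul _ hE1 hE0.le (by positivity)
          exact mul_le_mul_of_nonneg_left c1 (by positivity)
      _ = 4 * P ^ 2 * u ^ 4 * Z := by rw [hu, hZ]; field_simp
      _ ≤ 4 * P ^ 2 * (2 * v / P ^ 2) ^ 4 * Z := by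
          apply mul_le_mul_of_nonneg_right _ hZ0
          apply mul_le_mul_of_nonneg_left _ (by positivity)
          exact pow_le_pow_left₀ hu0 hu1 4
      _ = 64 / P ^ 6 * v ^ 4 * Z := by field_simp; ring
      _ ≤ 1 * (v / 8) * Z := by
          apply mul_le_mul_of_nonneg_right _ hZ0
          apply mul_le_mul _ _ (by positivity) zero_le_one
          · rw [div_le_one (by positivity)]
            calc (64 : ℝ) = 4 ^ 3 := by norm_num
              _ ≤ (P ^ 2) ^ 3 := pow_le_pow_left₀ (by norm_num) hP4 3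
              _ = P ^ 6 := by ring
          · have : v ^ 3 ≤ (1 / 2) ^ 3 := pow_le_pow_left₀ hv0.le hv1 3
            calc v ^ 4 = v ^ 3 * v := by ring
              _ ≤ (1 / 2) ^ 3 * v := mul_le_mul_of_nonneg_right this hv0.le
              _ = v / 8 := by ring
      _ = _ := by ring
  -- main term
  have ho4 : o ^ 4 ≤ 1 / 2 := by
    have : o ≤ 1 / 4 := by linarith
    have := pow_le_pow_left₀ ho0 this 4
    norm_num at this ⊢
    linarith
  have ho40 : 0 ≤ o ^ 4 := by positivity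
  have hw : 2 * Z ≤ x ^ 3 * (4 + 2 * x) / (1 + x) ^ 3 := by
    have : x ^ 3 * (4 + 2 * x) / (1 + x) ^ 3 = 2 * Z + 2 * x ^ 3 / (1 + x) ^ 3 := by
      rw [hZ]; field_simp; ring
    rw [this]
    have : 0 ≤ 2 * x ^ 3 / (1 + x) ^ 3 := by positivity
    linarith
  have g4 : v * Z - P * x / 2 ≤ (1 - o ^ 4) * D := by
    have d1 : (1 - o ^ 4) * (-(P * x / 2) + v * (2 * Z)) ≤ (1 - o ^ 4) * D := by
      apply mul_le_mul_of_nonneg_left _ (by linarith)
      refine le_trans ?_ hdK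
      have := mul_le_mul_of_nonneg_left hw hv0.le
      linarith
    have d2 : 0 ≤ o ^ 4 * (P * x / 2) := by positivity
    have d3 : (1 - o ^ 4) * (v * (2 * Z)) ≥ v * Z := by
      have : 0 ≤ v * Z := by positivity
      nlinarith
    nlinarith
  have hfin : ε₁ / (2 * n) * Z = v / 2 * Z := by rw [hv]; field_simp
  rw [hfin]
  have hvZ : 0 ≤ v * Z := by positivity
  have hsplit : A * (3 * S2 - S3) / (8 * R) =
      3 * S2 / (8 * R) - (1 - A) * (3 * S2) / (8 * R) - A * S3 / (8 * R) := by ring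
  have hneg : -(4 * (8 * P / R)) * o ^ 3 * E * K = -(4 * (8 * P / R) * o ^ 3 * E * K) := by ring
  rw [hsplit, hneg]
  linarith

end pos2


theorem exp_neg_mul_le {y : ℝ} (hy : 0 ≤ y) : y * Real.exp (-y) ≤ 1 := by
  have h := exp_neg_le_inv hy
  have := Real.exp_pos (-y)
  linarith

theorem one_sub_exp_ge {y : ℝ} (hy : 0 ≤ y) : min 1 y / 2 ≤ 1 - Real.exp (-y) := by
  rcases le_total y 1 with h | h
  · rw [min_eq_right h]
    have := exp_neg_le hy
    nlinarith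
  · rw [min_eq_left h]
    have h1 := exp_neg_le (s := 1) zero_le_one
    have h2 : Real.exp (-y) ≤ Real.exp (-1) := Real.exp_le_exp.2 (by linarith)
    norm_num at h1
    linarith

theorem cube_exp_le {x : ℝ} (hx : 0 ≤ x) : Real.exp (-x) * x ^ 3 ≤ 8 := by
  have h := Real.pow_div_factorial_le_exp x hx 3
  have h1 : x ^ 3 ≤ 6 * Real.exp x := by
    rw [div_le_iff₀ (by positivity)] at h
    have : ((3 : ℕ).factorial : ℝ) = 6 := by norm_num [Nat.factorial]
    rw [this] at h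
    linarith
  calc Real.exp (-x) * x ^ 3 ≤ Real.exp (-x) * (6 * Real.exp x) :=
        mul_le_mul_of_nonneg_left h1 (Real.exp_pos _).le
    _ = 6 * (Real.exp (-x) * Real.exp x) := by ring
    _ = 6 := by rw [← Real.exp_add]; simp
    _ ≤ 8 := by norm_num

theorem exists_ge (hp : 1 ≤ p) (t : Fin p → ℝ) : ∃ j, xav t ≤ t j := by
  by_contra hcon
  push Not at hcon
  have h1 : ∑ i, t i < ∑ i : Fin p, xav t := by
    apply Finset.sum_lt_sum_of_nonempty
    · exact ⟨⟨0, hp⟩, Finset.mem_univ _⟩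
    · intro i _
      exact hcon i
  rw [sum_eq hp t, Finset.sum_const, Finset.card_univ, Fintype.card_fin, nsmul_eq_mul] at h1
  exact lt_irrefl _ h1

/-- the abstract inequality of region B -/
theorem regionB_abs {P n R x E A S2 S3 FF G D K c : ℝ} (hP : 2 ≤ P) (hn : 1 ≤ n) (hnR : n ≤ R)
    (hx : 0 ≤ x) (hc : 0 < c) (hc1 : c ≤ 1) (hcx : c * R / n ≤ x)
    (hE : E = Real.exp (-(8 * P * x / R)))
    (hA0 : 0 ≤ A) (hA3 : A * x ^ 3 ≤ 8) (hS20 : 0 ≤ S2) (hS30 : 0 ≤ S3) (hS3 : S3 ≤ (P * x) ^ 3)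
    (hFF : R / 4 * (1 - Real.exp (-(x / R))) ≤ FF) (hG : x * G ≤ 3 / 2 * √(R * x))
    (hK : K ≤ (P * x) ^ 2 * G / (4 * n) + x ^ 2 / n + 2 / n)
    (hD : -(3 * P / n * (x * G)) ≤ D)
    (h1 : 18 * P / √(c * n) ≤ 1 / 32)
    (h2 : (32 * P * (3 * P ^ 2 / 8 + 1) + 512 * P ^ 2 + P ^ 3 / c) / n ≤ 1 / 32) :
    c / (16 * n) ≤ FF + (A * (3 * S2 - S3) / (8 * R) +
      (-(4 * (8 * P / R)) * (1 - E) ^ 3 * E * K + (1 - (1 - E) ^ 4) * D)) := by
  have hn0 : 0 < n := by linarith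
  have hR : 0 < R := by linarith
  have hP0 : 0 < P := by linarith
  have hR1 : 1 ≤ R := by linarith
  set y : ℝ := x / R with hy
  have hy0 : 0 ≤ y := by positivity
  have hxy : x = R * y := by rw [hy]; field_simp
  set μ : ℝ := min 1 y with hμ
  have hμ0 : 0 ≤ μ := le_min zero_le_one hy0
  have hcy : c / n ≤ y := by
    rw [hy, le_div_iff₀ hR]
    calc c / n * R = c * R / n := by ring
      _ ≤ x := hcx
  have hcμ : c / n ≤ μ := le_min (by rw [div_le_one hn0]; linarith) hcy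
  have hyp : 0 < y := lt_of_lt_of_le (by positivity) hcy
  have hEy : E = Real.exp (-(8 * P * y)) := by
    rw [hE, hy]; congr 1; ring
  have hE0 : 0 < E := by rw [hEy]; exact Real.exp_pos _
  have hE1 : E ≤ 1 := by
    rw [hEy, Real.exp_le_one_iff]
    have : 0 ≤ 8 * P * y := by positivity
    linarith
  set B : ℝ := Real.exp (-y) with hB
  have hB0 : 0 < B := Real.exp_pos _
  have hEB : E ≤ B ^ 2 := by
    rw [hEy, hB, ← Real.exp_nat_mul]
    apply Real.exp_le_exp.2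
    push_cast
    have := mul_le_mul_of_nonneg_right hP hy0
    linarith
  have hB1 : B ≤ 1 := by
    rw [hB, Real.exp_le_one_iff]
    linarith
  have hyB : y * B ≤ 1 := exp_neg_mul_le hy0
  have hEyy : y ^ 2 * E ≤ 1 := by
    calc y ^ 2 * E ≤ y ^ 2 * B ^ 2 := mul_le_mul_of_nonneg_left hEB (by positivity)
      _ = (y * B) ^ 2 := by ring
      _ ≤ 1 := pow_le_one₀ (by positivity) hyB
  have hEy1 : y * E ≤ 1 := by
    calc y * E ≤ y * B ^ 2 := mul_le_mul_of_nonneg_left hEB hy0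
      _ = (y * B) * B := by ring
      _ ≤ 1 := mul_le_one₀ hyB hB0.le hB1
  set o : ℝ := 1 - E with ho
  have ho0 : 0 ≤ o := by rw [ho]; linarith
  have ho1 : o ≤ 1 := by rw [ho]; linarith
  have hoy : o ≤ 8 * P * y := by
    have := Real.add_one_le_exp (-(8 * P * y))
    rw [← hEy] at this
    rw [ho]; linarith
  have hoμ : o ≤ 8 * P * μ := by
    rcases le_total y 1 with h | h
    · rw [hμ, min_eq_right h]; exact hoy
    · rw [hμ, min_eq_left h]; linarith
  set w : ℝ := √y with hw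
  have hw0 : 0 < w := Real.sqrt_pos.2 hyp
  have hw2 : w ^ 2 = y := Real.sq_sqrt hy0
  have hsq : √(R * x) = R * w := by
    rw [hxy]
    have : R * (R * y) = R ^ 2 * y := by ring
    rw [this, Real.sqrt_mul (by positivity), Real.sqrt_sq hR.le]
  rw [hsq] at hG
  -- y^2 E ≤ μ, y w E ≤ μ
  have hq1 : y ^ 2 * E ≤ μ := by
    rcases le_total y 1 with h | h
    · rw [hμ, min_eq_right h]
      calc y ^ 2 * E = y * (y * E) := by ring
        _ ≤ y * 1 := mul_le_mul_of_nonneg_left hEy1 hy0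
        _ = y := mul_one y
    · rw [hμ, min_eq_left h]; exact hEyy
  have hq2 : y * w * E ≤ μ := by
    rcases le_total y 1 with h | h
    · rw [hμ, min_eq_right h]
      have hw1 : w ≤ 1 := Real.sqrt_le_iff.2 ⟨zero_le_one, by rw [one_pow]; exact h⟩
      calc y * w * E = y * (w * E) := by ring
        _ ≤ y * 1 := mul_le_mul_of_nonneg_left (mul_le_one₀ hw1 hE0.le hE1) hy0
        _ = y := mul_one y
    · rw [hμ, min_eq_left h]
      have hw1 : w ≤ y :=
        Real.sqrt_le_iff.2 ⟨hy0, by rw [pow_two]; exact le_mul_of_one_le_left hy0 h⟩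
      calc y * w * E ≤ y * y * E := by
            apply mul_le_mul_of_nonneg_right _ hE0.le
            exact mul_le_mul_of_nonneg_left hw1 hy0
        _ = y ^ 2 * E := by ring
        _ ≤ 1 := hEyy
  -- K
  have hPxG : (P * x) ^ 2 * G / (4 * n) ≤ 3 * P ^ 2 / 8 * R ^ 2 * (y * w) / n := by
    rw [div_le_div_iff₀ (by positivity) hn0]
    have : (P * x) ^ 2 * G ≤ P ^ 2 * x * (3 / 2 * (R * w)) := by
      calc (P * x) ^ 2 * G = P ^ 2 * x * (x * G) := by ring
        _ ≤ _ := mul_le_mul_of_nonneg_left hG (by positivity)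
    calc (P * x) ^ 2 * G * n ≤ P ^ 2 * x * (3 / 2 * (R * w)) * n :=
          mul_le_mul_of_nonneg_right this hn0.le
      _ = _ := by rw [hxy]; ring
  have hK2 : K ≤ (3 * P ^ 2 / 8 * R ^ 2 * (y * w) + R ^ 2 * y ^ 2 + 2) / n := by
    have e : (3 * P ^ 2 / 8 * R ^ 2 * (y * w) + R ^ 2 * y ^ 2 + 2) / n =
        3 * P ^ 2 / 8 * R ^ 2 * (y * w) / n + x ^ 2 / n + 2 / n := by
      rw [hxy]; ring
    rw [e]
    linarith
  have ho3 : o ^ 3 ≤ 1 := pow_le_one₀ ho0 ho1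
  have ho30 : 0 ≤ o ^ 3 := by positivity
  have hT3 : 4 * (8 * P / R) * o ^ 3 * E * K ≤
      R * μ * ((32 * P * (3 * P ^ 2 / 8 + 1) + 512 * P ^ 2) / n) := by
    have c0 : 0 ≤ 4 * (8 * P / R) * o ^ 3 * E := by positivity
    have k1 : o ^ 3 * (y * w * E) ≤ μ := by
      calc o ^ 3 * (y * w * E) ≤ 1 * μ := mul_le_mul ho3 hq2 (by positivity) zero_le_one
        _ = μ := one_mul μ
    have k2 : o ^ 3 * (y ^ 2 * E) ≤ μ := by
      calc o ^ 3 * (y ^ 2 * E) ≤ 1 * μ := mul_le_mul ho3 hq1 (by positivity) zero_le_one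
        _ = μ := one_mul μ
    have k3 : o ^ 3 * E ≤ 8 * P * μ := by
      calc o ^ 3 * E ≤ o ^ 3 * 1 := mul_le_mul_of_nonneg_left hE1 ho30
        _ = o ^ 2 * o := by ring
        _ ≤ 1 * (8 * P * μ) := mul_le_mul (pow_le_one₀ ho0 ho1) hoμ ho0 zero_le_one
        _ = 8 * P * μ := one_mul _
    have k4 : 1 / R ≤ R := (div_le_self zero_le_one hR1).trans hR1
    calc 4 * (8 * P / R) * o ^ 3 * E * K ≤ 4 * (8 * P / R) * o ^ 3 * E *
          ((3 * P ^ 2 / 8 * R ^ 2 * (y * w) + R ^ 2 * y ^ 2 + 2) / n) :=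
          mul_le_mul_of_nonneg_left hK2 c0
      _ = 32 * P * (3 * P ^ 2 / 8) * R / n * (o ^ 3 * (y * w * E)) +
          32 * P * R / n * (o ^ 3 * (y ^ 2 * E)) + 64 * P * (1 / R) / n * (o ^ 3 * E) := by
          field_simp
          ring
      _ ≤ 32 * P * (3 * P ^ 2 / 8) * R / n * μ + 32 * P * R / n * μ +
          64 * P * R / n * (8 * P * μ) := by
          have i1 := mul_le_mul_of_nonneg_left k1
            (by positivity : 0 ≤ 32 * P * (3 * P ^ 2 / 8) * R / n)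
          have i2 := mul_le_mul_of_nonneg_left k2 (by positivity : 0 ≤ 32 * P * R / n)
          have i3 : 64 * P * (1 / R) / n * (o ^ 3 * E) ≤ 64 * P * R / n * (8 * P * μ) := by
            apply mul_le_mul _ k3 (by positivity) (by positivity)
            apply div_le_div_of_nonneg_right _ hn0.le
            exact mul_le_mul_of_nonneg_left k4 (by positivity)
          linarith
      _ = _ := by ring
  have hT2 : A * S3 / (8 * R) ≤ R * μ * (P ^ 3 / c / n) := by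
    have k0 : A * S3 ≤ 8 * P ^ 3 := by
      calc A * S3 ≤ A * (P * x) ^ 3 := mul_le_mul_of_nonneg_left hS3 hA0
        _ = P ^ 3 * (A * x ^ 3) := by ring
        _ ≤ P ^ 3 * 8 := mul_le_mul_of_nonneg_left hA3 (by positivity)
        _ = _ := by ring
    have k1 : A * S3 / (8 * R) ≤ P ^ 3 / R := by
      rw [div_le_div_iff₀ (by positivity) hR]
      have := mul_le_mul_of_nonneg_right k0 hR.le
      linarith
    refine k1.trans ?_
    have k2 : P ^ 3 / R ≤ R * (c / n) * (P ^ 3 / c / n) := by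
      have e : R * (c / n) * (P ^ 3 / c / n) = P ^ 3 * R / n ^ 2 := by field_simp
      rw [e, div_le_div_iff₀ hR (by positivity)]
      have : n ^ 2 ≤ R ^ 2 := pow_le_pow_left₀ hn0.le hnR 2
      have := mul_le_mul_of_nonneg_left this (by positivity : 0 ≤ P ^ 3)
      linarith
    refine k2.trans ?_
    apply mul_le_mul_of_nonneg_right _ (by positivity)
    exact mul_le_mul_of_nonneg_left hcμ hR.le
  -- the term with D
  set q : ℝ := √(c * n) with hq
  have hq0 : 0 < q := Real.sqrt_pos.2 (by positivity)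
  have hqsq : q ^ 2 = c * n := Real.sq_sqrt (by positivity)
  have hm0 : 0 ≤ 1 - o ^ 4 := by
    have := pow_le_one₀ ho0 ho1 (n := 4)
    linarith
  have hm1 : 1 - o ^ 4 ≤ 1 := by
    have : 0 ≤ o ^ 4 := by positivity
    linarith
  have hm4 : 1 - o ^ 4 ≤ 4 * E := by
    rw [ho]
    have : 1 - (1 - E) ^ 4 = 4 * E - E ^ 2 * (6 - 4 * E + E ^ 2) := by ring
    rw [this]
    have : 0 ≤ E ^ 2 * (6 - 4 * E + E ^ 2) := by
      apply mul_nonneg (by positivity)
      have := sq_nonneg E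
      linarith
    linarith
  have hmw : (1 - o ^ 4) * w * q ≤ 4 * μ * n := by
    rcases le_total y 1 with h | h
    · rw [hμ, min_eq_right h]
      have hqw : q ≤ w * n := by
        have : q ^ 2 ≤ (w * n) ^ 2 := by
          rw [hqsq, mul_pow, hw2]
          have : c ≤ y * n := by rwa [div_le_iff₀ hn0] at hcy
          calc c * n ≤ (y * n) * n := mul_le_mul_of_nonneg_right this hn0.le
            _ = y * n ^ 2 := by ring
        exact (pow_le_pow_iff_left₀ hq0.le (by positivity) two_ne_zero).1 this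
      calc (1 - o ^ 4) * w * q ≤ 1 * w * (w * n) := by
            apply mul_le_mul _ hqw hq0.le (by positivity)
            exact mul_le_mul_of_nonneg_right hm1 hw0.le
        _ = y * n := by rw [← hw2]; ring
        _ ≤ 4 * y * n := by
            have : 0 ≤ y * n := by positivity
            linarith
    · rw [hμ, min_eq_left h]
      have hw1 : w ≤ y :=
        Real.sqrt_le_iff.2 ⟨hy0, by rw [pow_two]; exact le_mul_of_one_le_left hy0 h⟩
      have hqn : q ≤ n := by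
        have : q ^ 2 ≤ n ^ 2 := by
          rw [hqsq]
          calc c * n ≤ n * n := mul_le_mul_of_nonneg_right (hc1.trans hn) hn0.le
            _ = n ^ 2 := by ring
        exact (pow_le_pow_iff_left₀ hq0.le hn0.le two_ne_zero).1 this
      have hmw1 : (1 - o ^ 4) * w ≤ 4 := by
        calc (1 - o ^ 4) * w ≤ 4 * E * y := mul_le_mul hm4 hw1 hw0.le (by positivity)
          _ = 4 * (y * E) := by ring
          _ ≤ 4 * 1 := mul_le_mul_of_nonneg_left hEy1 (by norm_num)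
          _ = 4 := by norm_num
      calc (1 - o ^ 4) * w * q ≤ 4 * n := mul_le_mul hmw1 hqn hq0.le (by norm_num)
        _ = 4 * 1 * n := by ring
  have hT4 : -(R * μ * (18 * P / q)) ≤ (1 - o ^ 4) * D := by
    have k1 : -(9 * P / (2 * n) * (R * w)) ≤ D := by
      refine le_trans ?_ hD
      have : 3 * P / n * (x * G) ≤ 3 * P / n * (3 / 2 * (R * w)) :=
        mul_le_mul_of_nonneg_left hG (by positivity)
      have e : 3 * P / n * (3 / 2 * (R * w)) = 9 * P / (2 * n) * (R * w) := by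
        field_simp
        ring
      linarith
    have k2 : (1 - o ^ 4) * (-(9 * P / (2 * n) * (R * w))) ≤ (1 - o ^ 4) * D :=
      mul_le_mul_of_nonneg_left k1 hm0
    refine le_trans ?_ k2
    have k3 : 9 * P * R / (2 * n * q) * ((1 - o ^ 4) * w * q) ≤
        9 * P * R / (2 * n * q) * (4 * μ * n) := mul_le_mul_of_nonneg_left hmw (by positivity)
    have e1 : 9 * P * R / (2 * n * q) * ((1 - o ^ 4) * w * q) =
        -((1 - o ^ 4) * (-(9 * P / (2 * n) * (R * w)))) := by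
      field_simp
    have e2 : 9 * P * R / (2 * n * q) * (4 * μ * n) = R * μ * (18 * P / q) := by
      field_simp
      ring
    linarith
  -- main
  have hmain : R * μ / 8 ≤ FF := by
    refine le_trans ?_ hFF
    have := one_sub_exp_ge hy0
    have := mul_le_mul_of_nonneg_left this (by positivity : 0 ≤ R / 4)
    rw [← hμ] at this
    linarith
  have hA2 : 0 ≤ A * (3 * S2) / (8 * R) := by positivity
  have hsplit : A * (3 * S2 - S3) / (8 * R) = A * (3 * S2) / (8 * R) - A * S3 / (8 * R) := by ring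
  have hneg : -(4 * (8 * P / R)) * o ^ 3 * E * K = -(4 * (8 * P / R) * o ^ 3 * E * K) := by ring
  rw [hsplit, hneg]
  have hRμ : 0 ≤ R * μ := by positivity
  have f1 : R * μ * (18 * P / q) ≤ R * μ * (1 / 32) := mul_le_mul_of_nonneg_left h1 hRμ
  have f2 : R * μ * ((32 * P * (3 * P ^ 2 / 8 + 1) + 512 * P ^ 2 + P ^ 3 / c) / n) ≤
      R * μ * (1 / 32) := mul_le_mul_of_nonneg_left h2 hRμ
  have f3 : R * μ * ((32 * P * (3 * P ^ 2 / 8 + 1) + 512 * P ^ 2 + P ^ 3 / c) / n) =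
      R * μ * ((32 * P * (3 * P ^ 2 / 8 + 1) + 512 * P ^ 2) / n) + R * μ * (P ^ 3 / c / n) := by
    ring
  have f4 : c / (16 * n) ≤ R * μ / 16 := by
    have : c / n ≤ R * μ := by
      calc c / n ≤ μ := hcμ
        _ = 1 * μ := (one_mul μ).symm
        _ ≤ R * μ := mul_le_mul_of_nonneg_right hR1 hμ0
    have e : c / (16 * n) = c / n / 16 := by field_simp
    rw [e]
    linarith
  linarith


section pos3

variable {t : Fin p → ℝ} (h0 : ∀ i, 0 ≤ t i)

include h0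

/-- lower bound in the region `x ≥ c R / N` -/
theorem regionB (hp : 2 ≤ p) {N : ℕ} (hN : 1 ≤ N) {ε₁ δ : ℝ} (he0 : 0 < ε₁) (he1 : ε₁ ≤ 1)
    (hd0 : 0 ≤ δ) (hd1 : δ ≤ 1) (M : ℕ) {c : ℝ} (hc : 0 < c) (hc1 : c ≤ 1)
    (hcx : c * 2 ^ N / N ≤ xav t)
    (h1 : 18 * p / √(c * N) ≤ 1 / 32)
    (h2 : (32 * p * (3 * (p : ℝ) ^ 2 / 8 + 1) + 512 * p ^ 2 + p ^ 3 / c) / N ≤ 1 / 32) :
    c / (16 * N) ≤ aV (2 ^ N) (Wm N M ε₁ δ) t := by
  have hp1 : 1 ≤ p := by omega
  rw [aV_eq hp1 (reg_of_nonneg h0)]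
  have hx := xav_nonneg h0
  have hR : (0 : ℝ) < 2 ^ N := by positivity
  have hFF : (2 : ℝ) ^ N / 4 * (1 - Real.exp (-(xav t / 2 ^ N))) ≤
      ∑ i, (F1 (2 ^ N) (t i) - F1 (2 ^ N) 0) := by
    obtain ⟨j, hj⟩ := exists_ge hp1 t
    have k1 : F1 (2 ^ N) (t j) - F1 (2 ^ N) 0 ≤ ∑ i, (F1 (2 ^ N) (t i) - F1 (2 ^ N) 0) := by
      apply Finset.single_le_sum (f := fun i => F1 (2 ^ N) (t i) - F1 (2 ^ N) 0) _
        (Finset.mem_univ j)
      intro i _
      refine le_trans ?_ (F1_ge2 hR (h0 i))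
      have : Real.exp (-(t i / 2 ^ N)) ≤ 1 := by
        rw [Real.exp_le_one_iff]
        have : 0 ≤ t i / 2 ^ N := div_nonneg (h0 i) hR.le
        linarith
      have : 0 ≤ 1 - Real.exp (-(t i / 2 ^ N)) := by linarith
      positivity
    refine le_trans ?_ k1
    refine le_trans ?_ (F1_ge2 hR (h0 j))
    apply mul_le_mul_of_nonneg_left _ (by positivity)
    have : Real.exp (-(t j / 2 ^ N)) ≤ Real.exp (-(xav t / 2 ^ N)) := by
      apply Real.exp_le_exp.2
      have := div_le_div_of_nonneg_right hj hR.le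
      linarith
    linarith
  unfold dW mcut
  refine regionB_abs (G := GS N (xav t)) (x := xav t) (by exact_mod_cast hp) (by exact_mod_cast hN)
    (by exact_mod_cast (Nat.lt_two_pow_self (n := N)).le) hx hc hc1 hcx rfl (Real.exp_pos _).le
    (cube_exp_le hx) (Finset.sum_nonneg fun i _ => sq_nonneg _)
    (Finset.sum_nonneg fun i _ => pow_nonneg (h0 i) 3) (sum_cube_le h0 hp1) hFF ?_
    (KK_le h0 hp1 N M he0.le he1 hd0 hd1) (dKK_ge2 h0 hp1 hN he0.le) h1 h2
  exact GS_le N (lt_of_lt_of_le (by positivity) hcx)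

omit h0 in
theorem cube_ge {P x s : ℝ} (hP : 1 ≤ P) (hx : 0 ≤ x) (hs : 0 ≤ s) (hsx : s ≤ P * x) :
    min 1 s ^ 3 / (4 * P ^ 3) ≤ x ^ 3 / (1 + x) ^ 2 := by
  have hP0 : 0 < P := by linarith
  have hm0 : 0 ≤ min 1 s := le_min zero_le_one hs
  rcases le_total x 1 with h | h
  · have h1 : min 1 s ^ 3 ≤ (P * x) ^ 3 := pow_le_pow_left₀ hm0 ((min_le_right _ _).trans hsx) 3
    calc min 1 s ^ 3 / (4 * P ^ 3) ≤ (P * x) ^ 3 / (4 * P ^ 3) :=
          div_le_div_of_nonneg_right h1 (by positivity)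
      _ = x ^ 3 / 4 := by field_simp
      _ ≤ x ^ 3 / (1 + x) ^ 2 := by
          apply div_le_div_of_nonneg_left (by positivity) (by positivity)
          nlinarith
  · have h1 : min 1 s ^ 3 ≤ 1 := pow_le_one₀ hm0 (min_le_left _ _)
    calc min 1 s ^ 3 / (4 * P ^ 3) ≤ 1 / (4 * 1) := by
          apply div_le_div₀ zero_le_one h1 (by norm_num)
          have : 1 ≤ P ^ 3 := one_le_pow₀ hP
          linarith
      _ ≤ x ^ 3 / (1 + x) ^ 2 := by
          rw [div_le_div_iff₀ (by norm_num) (by positivity)]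
          have h3 : x ^ 2 ≤ x ^ 3 := by
            calc x ^ 2 = x ^ 2 * 1 := by ring
              _ ≤ x ^ 2 * x := mul_le_mul_of_nonneg_left h (by positivity)
              _ = x ^ 3 := by ring
          nlinarith

end pos3

theorem sq_le_two_pow {N : ℕ} (hN : 4 ≤ N) : N ^ 2 ≤ 2 ^ N := by
  induction N, hN using Nat.le_induction with
  | base => norm_num
  | succ n hn ih =>
    rw [pow_succ 2 n]
    nlinarith

/-! ### the quantities near zero -/

theorem qhat_nonneg' (hp : 1 ≤ p) (t : Fin p → ℝ) : 0 ≤ qhat t := by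
  have h : qhat t = ∑ i, (t i - xav t) ^ 2 := by
    unfold qhat
    have e : ∀ i, (t i - xav t) ^ 2 = t i ^ 2 - 2 * xav t * t i + xav t ^ 2 := fun i => by ring
    simp only [e]
    rw [Finset.sum_add_distrib, Finset.sum_sub_distrib, ← Finset.mul_sum, Finset.sum_const,
      Finset.card_univ, Fintype.card_fin, nsmul_eq_mul, sum_eq hp t]
    ring
  rw [h]
  exact Finset.sum_nonneg fun i _ => sq_nonneg _

theorem S0_le' (hp : 1 ≤ p) (M : ℕ) (t : Fin p → ℝ) : S0 M t ≤ 2 := by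
  have hq := qhat_nonneg' hp t
  unfold S0
  refine le_trans (Finset.sum_le_sum fun j _ => ?_) (geom16 M)
  have h1 : Real.exp (-(4 ^ j * qhat t)) ≤ 1 := by
    rw [Real.exp_le_one_iff]
    have : 0 ≤ (4 : ℝ) ^ j * qhat t := by positivity
    linarith
  have h2 : 0 < (1 / 16 : ℝ) ^ j := by positivity
  nlinarith

theorem exp3 {u : ℝ} (hu : |u| ≤ 1) :
    |Real.exp (-u) - (1 - u + u ^ 2 / 2)| ≤ |u| ^ 3 * (2 / 9) := by
  have h := Real.exp_bound (x := -u) (by rwa [abs_neg]) (n := 3) (by norm_num)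
  rw [abs_neg] at h
  have e : ∑ m ∈ Finset.range 3, (-u) ^ m / (m.factorial : ℝ) = 1 - u + u ^ 2 / 2 := by
    simp only [Finset.sum_range_succ, Finset.sum_range_zero]
    norm_num [Nat.factorial]
    ring
  rw [e] at h
  refine h.trans (le_of_eq ?_)
  norm_num [Nat.factorial]

theorem F1_taylor {R t : ℝ} (hR : 1 ≤ R) (ht : |t| ≤ 1 / 2) :
    |F1 R t - F1 R 0 - (t / 2 - 3 * t ^ 2 / (8 * R))| ≤ |t| ^ 3 := by
  have hR0 : 0 < R := by linarith
  rw [F1_diff]
  have ha : |t / R| ≤ |t| := by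
    rw [abs_div, abs_of_pos hR0]
    exact div_le_self (abs_nonneg _) hR
  have h1 := exp3 (u := t / R) (by linarith)
  have hb : |2 * t / R| = 2 * |t / R| := by
    rw [mul_div_assoc, abs_mul, abs_two]
  have h2 := exp3 (u := 2 * t / R) (by rw [hb]; linarith)
  rw [hb] at h2
  set a : ℝ := Real.exp (-(t / R)) - (1 - t / R + (t / R) ^ 2 / 2) with haa
  set b : ℝ := Real.exp (-(2 * t / R)) - (1 - 2 * t / R + (2 * t / R) ^ 2 / 2) with hbb
  have e : R / 4 * (1 - Real.exp (-(t / R)) + (1 - Real.exp (-(2 * t / R))) / 2) -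
      (t / 2 - 3 * t ^ 2 / (8 * R)) = -(R / 4) * (a + b / 2) := by
    rw [haa, hbb]
    field_simp
    ring
  rw [e, abs_mul, abs_neg, abs_of_pos (by positivity : 0 < R / 4)]
  have h3 : |a + b / 2| ≤ |t / R| ^ 3 * (10 / 9) := by
    calc |a + b / 2| ≤ |a| + |b / 2| := abs_add_le _ _
      _ = |a| + |b| / 2 := by rw [abs_div, abs_two]
      _ ≤ |t / R| ^ 3 * (2 / 9) + (2 * |t / R|) ^ 3 * (2 / 9) / 2 := by
          have := div_le_div_of_nonneg_right h2 (by norm_num : (0 : ℝ) ≤ 2)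
          linarith
      _ = _ := by ring
  calc R / 4 * |a + b / 2| ≤ R / 4 * (|t / R| ^ 3 * (10 / 9)) :=
        mul_le_mul_of_nonneg_left h3 (by positivity)
    _ = 10 / 36 * |t| ^ 3 / R ^ 2 := by
        rw [abs_div, abs_of_pos hR0]
        field_simp
        ring
    _ ≤ |t| ^ 3 := by
        rw [div_le_iff₀ (by positivity)]
        have : 1 ≤ R ^ 2 := one_le_pow₀ hR
        have h4 : 0 ≤ |t| ^ 3 := by positivity
        nlinarith

section near

variable {t : Fin p → ℝ} {s : ℝ} (hp : 1 ≤ p) (hs0 : 0 ≤ s) (hs : s ≤ 1 / (16 * p))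
  (ht : ∀ i, |t i| ≤ s)

include hp hs0 hs ht

theorem s_le : s ≤ 1 / 16 := by
  refine hs.trans ?_
  have : (1 : ℝ) ≤ p := by exact_mod_cast hp
  apply div_le_div_of_nonneg_left zero_le_one (by norm_num)
  linarith

theorem xav_abs : |xav t| ≤ s := by
  have hP : (0 : ℝ) < p := by exact_mod_cast hp
  unfold xav
  rw [abs_div, abs_of_pos hP, div_le_iff₀ hP]
  calc |∑ i, t i| ≤ ∑ i, |t i| := Finset.abs_sum_le_sum_abs _ _
    _ ≤ ∑ i : Fin p, s := Finset.sum_le_sum fun i _ => ht i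
    _ = s * p := by
        rw [Finset.sum_const, Finset.card_univ, Fintype.card_fin, nsmul_eq_mul]; ring

theorem den_ge {ρ : ℝ} (hρ : 1 ≤ ρ) (i : Fin p) : ρ / 2 ≤ ρ + t i + xav t := by
  have h1 := s_le hp hs0 hs ht
  have h2 := abs_le.1 (xav_abs hp hs0 hs ht)
  have h3 := abs_le.1 (ht i)
  linarith [h2.1, h3.1]

theorem den_ge' {ρ : ℝ} (hρ : 1 ≤ ρ) : ρ / 2 ≤ ρ + xav t := by
  have h1 := s_le hp hs0 hs ht
  have h2 := abs_le.1 (xav_abs hp hs0 hs ht)
  linarith [h2.1]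

theorem reg_near : Reg t := by
  refine ⟨fun i => ?_, ?_⟩
  · have := den_ge hp hs0 hs ht le_rfl i
    linarith
  · have := den_ge' hp hs0 hs ht le_rfl
    linarith

omit hp hs0 hs ht in
theorem Qk_abs {ρ x u r : ℝ} (hρ : 1 ≤ ρ) (hr1 : r ≤ 1) (hx : |x| ≤ r) (hu : |u| ≤ r) :
    |Qk ρ x u| ≤ 31 * ρ ^ 2 * r ^ 2 := by
  have hr0 : 0 ≤ r := (abs_nonneg x).trans hx
  have hρ0 : 0 < ρ := by linarith
  unfold Qk
  have hx1 : |x| ≤ 1 := hx.trans hr1
  have hx2 : x ^ 2 ≤ r ^ 2 := by rw [← sq_abs]; exact pow_le_pow_left₀ (abs_nonneg _) hx 2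
  have hu2 : u ^ 2 ≤ r ^ 2 := by rw [← sq_abs]; exact pow_le_pow_left₀ (abs_nonneg _) hu 2
  have hxu : |x * u| ≤ r ^ 2 := by
    rw [abs_mul, pow_two]
    exact mul_le_mul hx hu (abs_nonneg _) hr0
  have a1 : |(ρ ^ 2 - ρ * x + x ^ 2) * u ^ 2| ≤ (3 * ρ ^ 2) * r ^ 2 := by
    rw [abs_mul]
    have : |ρ ^ 2 - ρ * x + x ^ 2| ≤ 3 * ρ ^ 2 := by
      rw [abs_le]
      have := abs_le.1 hx1
      constructor <;> nlinarith
    have h3 : |u ^ 2| ≤ r ^ 2 := by rw [abs_of_nonneg (sq_nonneg _)]; exact hu2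
    exact mul_le_mul this h3 (abs_nonneg _) (by positivity)
  have a2 : |(2 * x ^ 3 - 6 * x * ρ ^ 2) * u| ≤ (8 * ρ ^ 2) * r ^ 2 := by
    have e : (2 * x ^ 3 - 6 * x * ρ ^ 2) * u = (2 * x ^ 2 - 6 * ρ ^ 2) * (x * u) := by ring
    rw [e, abs_mul]
    have : |2 * x ^ 2 - 6 * ρ ^ 2| ≤ 8 * ρ ^ 2 := by
      have h4 : x ^ 2 ≤ 1 := by
        rw [← sq_abs]; exact pow_le_one₀ (abs_nonneg _) hx1
      rw [abs_le]
      constructor <;> nlinarith
    exact mul_le_mul this hxu (abs_nonneg _) (by positivity)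
  have a3 : |9 * x ^ 2 * ρ ^ 2 + 10 * x ^ 3 * ρ + x ^ 4| ≤ (20 * ρ ^ 2) * r ^ 2 := by
    have e : 9 * x ^ 2 * ρ ^ 2 + 10 * x ^ 3 * ρ + x ^ 4 =
        (9 * ρ ^ 2 + 10 * x * ρ + x ^ 2) * x ^ 2 := by ring
    rw [e, abs_mul]
    have : |9 * ρ ^ 2 + 10 * x * ρ + x ^ 2| ≤ 20 * ρ ^ 2 := by
      have := abs_le.1 hx1
      have h4 : x ^ 2 ≤ 1 := by
        rw [← sq_abs]; exact pow_le_one₀ (abs_nonneg _) hx1
      rw [abs_le]
      constructor <;> nlinarith
    have h3 : |x ^ 2| ≤ r ^ 2 := by rw [abs_of_nonneg (sq_nonneg _)]; exact hx2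
    exact mul_le_mul this h3 (abs_nonneg _) (by positivity)
  calc |(ρ ^ 2 - ρ * x + x ^ 2) * u ^ 2 + (2 * x ^ 3 - 6 * x * ρ ^ 2) * u +
        (9 * x ^ 2 * ρ ^ 2 + 10 * x ^ 3 * ρ + x ^ 4)| ≤
        |(ρ ^ 2 - ρ * x + x ^ 2) * u ^ 2| + |(2 * x ^ 3 - 6 * x * ρ ^ 2) * u| +
        |9 * x ^ 2 * ρ ^ 2 + 10 * x ^ 3 * ρ + x ^ 4| := abs_add_three _ _ _
    _ ≤ (3 * ρ ^ 2) * r ^ 2 + (8 * ρ ^ 2) * r ^ 2 + (20 * ρ ^ 2) * r ^ 2 := by linarith
    _ = _ := by ring

theorem dblk_near {ρ : ℝ} (hρ : 1 ≤ ρ) : |2 * (p * xav t) + dblk ρ t| ≤ 992 * p * s ^ 3 := by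
  rw [key hp (reg_near hp hs0 hs ht) hρ]
  have hs16 := s_le hp hs0 hs ht
  have hterm : ∀ i, |2 * t i * Qk ρ (xav t) (t i) /
      ((ρ + xav t) ^ 2 * (ρ + t i + xav t) ^ 2)| ≤ 992 * s ^ 3 := by
    intro i
    have d1 := den_ge hp hs0 hs ht hρ i
    have d2 := den_ge' hp hs0 hs ht hρ
    have q := Qk_abs hρ (by linarith) (xav_abs hp hs0 hs ht) (ht i)
    have hρ0 : 0 < ρ := by linarith
    rw [abs_div, abs_mul, abs_mul, abs_two]
    have hden : (ρ / 2) ^ 2 * (ρ / 2) ^ 2 ≤ |(ρ + xav t) ^ 2 * (ρ + t i + xav t) ^ 2| := by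
      rw [abs_of_nonneg (by positivity)]
      apply mul_le_mul
      · exact pow_le_pow_left₀ (by positivity) d2 2
      · exact pow_le_pow_left₀ (by positivity) d1 2
      · positivity
      · positivity
    have hnum : 2 * |t i| * |Qk ρ (xav t) (t i)| ≤ 2 * s * (31 * ρ ^ 2 * s ^ 2) := by
      apply mul_le_mul _ q (abs_nonneg _) (by positivity)
      exact mul_le_mul_of_nonneg_left (ht i) two_pos.le
    calc 2 * |t i| * |Qk ρ (xav t) (t i)| / |(ρ + xav t) ^ 2 * (ρ + t i + xav t) ^ 2| ≤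
        2 * s * (31 * ρ ^ 2 * s ^ 2) / ((ρ / 2) ^ 2 * (ρ / 2) ^ 2) :=
          div_le_div₀ (by positivity) hnum (by positivity) hden
      _ = 992 * s ^ 3 / ρ ^ 2 := by field_simp; ring
      _ ≤ 992 * s ^ 3 := by
          apply div_le_self (by positivity)
          exact one_le_pow₀ hρ
  calc |∑ i, 2 * t i * Qk ρ (xav t) (t i) / ((ρ + xav t) ^ 2 * (ρ + t i + xav t) ^ 2)| ≤
      ∑ i, |2 * t i * Qk ρ (xav t) (t i) / ((ρ + xav t) ^ 2 * (ρ + t i + xav t) ^ 2)| :=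
        Finset.abs_sum_le_sum_abs _ _
    _ ≤ ∑ i : Fin p, 992 * s ^ 3 := Finset.sum_le_sum fun i _ => hterm i
    _ = _ := by
        rw [Finset.sum_const, Finset.card_univ, Fintype.card_fin, nsmul_eq_mul]; ring

theorem dKK_near {N : ℕ} (hN : 1 ≤ N) (ε₁ : ℝ) :
    |p * xav t / 2 + dKK N ε₁ t| ≤ (248 * p + 48 * |ε₁|) * s ^ 3 := by
  have hNp : (0 : ℝ) < N := by exact_mod_cast hN
  have hN1 : (1 : ℝ) ≤ N := by exact_mod_cast hN
  have hs16 := s_le hp hs0 hs ht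
  have e : p * xav t / 2 + dKK N ε₁ t =
      1 / (4 * N) * ∑ m ∈ Finset.range N, (2 * (p * xav t) + dblk (2 ^ m) t) +
      ε₁ / N * (xav t ^ 3 * (4 + 2 * xav t) / (1 + xav t) ^ 3) := by
    unfold dKK
    rw [Finset.sum_add_distrib, Finset.sum_const, Finset.card_range, nsmul_eq_mul]
    field_simp
    ring
  rw [e]
  have h1 : |1 / (4 * (N : ℝ)) * ∑ m ∈ Finset.range N, (2 * (p * xav t) + dblk (2 ^ m) t)| ≤
      248 * p * s ^ 3 := by
    rw [abs_mul, abs_of_pos (by positivity : (0 : ℝ) < 1 / (4 * N))]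
    have : |∑ m ∈ Finset.range N, (2 * (p * xav t) + dblk (2 ^ m) t)| ≤ N * (992 * p * s ^ 3) := by
      calc |∑ m ∈ Finset.range N, (2 * (p * xav t) + dblk (2 ^ m) t)| ≤
          ∑ m ∈ Finset.range N, |2 * (p * xav t) + dblk (2 ^ m) t| :=
            Finset.abs_sum_le_sum_abs _ _
        _ ≤ ∑ m ∈ Finset.range N, 992 * p * s ^ 3 :=
            Finset.sum_le_sum fun m _ => dblk_near hp hs0 hs ht (one_le_pow₀ (by norm_num))
        _ = _ := by rw [Finset.sum_const, Finset.card_range, nsmul_eq_mul]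
    calc 1 / (4 * (N : ℝ)) * |∑ m ∈ Finset.range N, (2 * (p * xav t) + dblk (2 ^ m) t)| ≤
        1 / (4 * (N : ℝ)) * (N * (992 * p * s ^ 3)) :=
          mul_le_mul_of_nonneg_left this (by positivity)
      _ = _ := by field_simp; ring
  have h2 : |ε₁ / N * (xav t ^ 3 * (4 + 2 * xav t) / (1 + xav t) ^ 3)| ≤ 48 * |ε₁| * s ^ 3 := by
    have hx := xav_abs hp hs0 hs ht
    have hx' := abs_le.1 hx
    have d := den_ge' hp hs0 hs ht le_rfl
    rw [abs_mul, abs_div, abs_div, abs_mul, abs_pow, abs_pow, abs_of_pos hNp]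
    have k1 : |4 + 2 * xav t| ≤ 6 := by
      rw [abs_le]; constructor <;> linarith [hx'.1, hx'.2]
    have k2 : (1 / 2 : ℝ) ^ 3 ≤ |1 + xav t| ^ 3 := by
      apply pow_le_pow_left₀ (by norm_num)
      rw [abs_of_nonneg (by linarith)]
      exact d
    have k3 : |xav t| ^ 3 ≤ s ^ 3 := pow_le_pow_left₀ (abs_nonneg _) hx 3
    have k4 : |xav t| ^ 3 * |4 + 2 * xav t| / |1 + xav t| ^ 3 ≤ 48 * s ^ 3 := by
      calc |xav t| ^ 3 * |4 + 2 * xav t| / |1 + xav t| ^ 3 ≤ s ^ 3 * 6 / (1 / 2) ^ 3 := by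
            apply div_le_div₀ (by positivity) _ (by positivity) k2
            exact mul_le_mul k3 k1 (abs_nonneg _) (by positivity)
        _ = _ := by ring
    have k5 : |ε₁| / (N : ℝ) ≤ |ε₁| := div_le_self (abs_nonneg _) hN1
    calc |ε₁| / (N : ℝ) * (|xav t| ^ 3 * |4 + 2 * xav t| / |1 + xav t| ^ 3) ≤
        |ε₁| * (48 * s ^ 3) := mul_le_mul k5 k4 (by positivity) (abs_nonneg _)
      _ = _ := by ring
  calc _ ≤ _ := abs_add_le _ _
    _ ≤ 248 * p * s ^ 3 + 48 * |ε₁| * s ^ 3 := add_le_add h1 h2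
    _ = _ := by ring

theorem KK_near {N : ℕ} (hN : 1 ≤ N) (M : ℕ) (ε₁ δ : ℝ) :
    |KK N M ε₁ δ t| ≤ 6 * p + 4 * |ε₁| + 2 * |δ| := by
  have hNp : (0 : ℝ) < N := by exact_mod_cast hN
  have hN1 : (1 : ℝ) ≤ N := by exact_mod_cast hN
  have hs16 := s_le hp hs0 hs ht
  have hx := xav_abs hp hs0 hs ht
  have hx' := abs_le.1 hx
  have hP : (0 : ℝ) < p := by exact_mod_cast hp
  have hblk : ∀ ρ : ℝ, 1 ≤ ρ → |blk ρ t| ≤ 22 * p := by
    intro ρ hρ
    have hρ0 : 0 < ρ := by linarith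
    have d2 := den_ge' hp hs0 hs ht hρ
    unfold blk
    rw [abs_mul, abs_of_pos hρ0]
    have j1 : |∑ i, (t i - 2 * xav t) ^ 2 / (ρ + t i + xav t)| ≤ 18 * p / ρ := by
      calc |∑ i, (t i - 2 * xav t) ^ 2 / (ρ + t i + xav t)| ≤
          ∑ i, |(t i - 2 * xav t) ^ 2 / (ρ + t i + xav t)| := Finset.abs_sum_le_sum_abs _ _
        _ ≤ ∑ i : Fin p, 18 / ρ := by
            apply Finset.sum_le_sum
            intro i _
            have d1 := den_ge hp hs0 hs ht hρ i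
            have hti := abs_le.1 (ht i)
            rw [abs_div, abs_of_nonneg (sq_nonneg _), abs_of_nonneg (by linarith)]
            have : (t i - 2 * xav t) ^ 2 ≤ 3 ^ 2 := by
              rw [← sq_abs (t i - 2 * xav t)]
              apply pow_le_pow_left₀ (abs_nonneg _)
              rw [abs_le]
              constructor <;> linarith [hx'.1, hx'.2, hti.1, hti.2]
            calc (t i - 2 * xav t) ^ 2 / (ρ + t i + xav t) ≤ 3 ^ 2 / (ρ / 2) :=
                  div_le_div₀ (by norm_num) this (by positivity) d1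
              _ = 18 / ρ := by field_simp; norm_num
        _ = _ := by
            rw [Finset.sum_const, Finset.card_univ, Fintype.card_fin, nsmul_eq_mul]; ring
    have j2 : |2 * p * xav t ^ 2 / (ρ + xav t)| ≤ 4 * p / ρ := by
      rw [abs_div, abs_of_nonneg (by positivity : 0 ≤ 2 * (p : ℝ) * xav t ^ 2),
        abs_of_nonneg (by linarith)]
      have : xav t ^ 2 ≤ 1 := by
        rw [← sq_abs]
        exact pow_le_one₀ (abs_nonneg _) (by linarith)
      calc 2 * p * xav t ^ 2 / (ρ + xav t) ≤ 2 * p * 1 / (ρ / 2) := by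
            apply div_le_div₀ (by positivity) _ (by positivity) d2
            exact mul_le_mul_of_nonneg_left this (by positivity)
        _ = 4 * p / ρ := by field_simp; ring
    calc ρ * |∑ i, (t i - 2 * xav t) ^ 2 / (ρ + t i + xav t) - 2 * p * xav t ^ 2 / (ρ + xav t)| ≤
        ρ * (18 * p / ρ + 4 * p / ρ) := by
          apply mul_le_mul_of_nonneg_left _ hρ0.le
          exact (abs_sub _ _).trans (add_le_add j1 j2)
      _ = 22 * p := by field_simp; ring
  have h1 : |E0 N t| ≤ 6 * p := by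
    unfold E0
    rw [abs_mul, abs_of_pos (by positivity : (0 : ℝ) < 1 / (4 * N))]
    have : |∑ m ∈ Finset.range N, blk (2 ^ m) t| ≤ N * (22 * p) := by
      calc |∑ m ∈ Finset.range N, blk (2 ^ m) t| ≤ ∑ m ∈ Finset.range N, |blk (2 ^ m) t| :=
            Finset.abs_sum_le_sum_abs _ _
        _ ≤ ∑ m ∈ Finset.range N, 22 * (p : ℝ) :=
            Finset.sum_le_sum fun m _ => hblk _ (one_le_pow₀ (by norm_num))
        _ = _ := by rw [Finset.sum_const, Finset.card_range, nsmul_eq_mul]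
    calc 1 / (4 * (N : ℝ)) * |∑ m ∈ Finset.range N, blk (2 ^ m) t| ≤
        1 / (4 * (N : ℝ)) * (N * (22 * p)) := mul_le_mul_of_nonneg_left this (by positivity)
      _ = 22 / 4 * p := by field_simp
      _ ≤ 6 * p := by linarith
  have h2 : |ε₁ / N * wq t| ≤ 4 * |ε₁| := by
    have d := den_ge' hp hs0 hs ht le_rfl
    rw [abs_mul, abs_div, abs_of_pos hNp]
    have k1 : |wq t| ≤ 4 := by
      unfold wq
      rw [abs_of_nonneg (by positivity)]
      have : xav t ^ 4 ≤ 1 := by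
        have : xav t ^ 4 = |xav t| ^ 4 := by rw [← abs_pow, abs_of_nonneg (by positivity)]
        rw [this]
        exact pow_le_one₀ (abs_nonneg _) (by linarith)
      calc xav t ^ 4 / (1 + xav t) ^ 2 ≤ 1 / (1 / 2) ^ 2 := by
            apply div_le_div₀ zero_le_one this (by norm_num)
            exact pow_le_pow_left₀ (by norm_num) d 2
        _ = 4 := by norm_num
    have k5 : |ε₁| / (N : ℝ) ≤ |ε₁| := div_le_self (abs_nonneg _) hN1
    calc |ε₁| / (N : ℝ) * |wq t| ≤ |ε₁| * 4 := mul_le_mul k5 k1 (abs_nonneg _) (abs_nonneg _)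
      _ = _ := by ring
  have h3 : |δ / N * S0 M t| ≤ 2 * |δ| := by
    rw [abs_mul, abs_div, abs_of_pos hNp, abs_of_nonneg (S0_nonneg t M)]
    have k5 : |δ| / (N : ℝ) ≤ |δ| := div_le_self (abs_nonneg _) hN1
    calc |δ| / (N : ℝ) * S0 M t ≤ |δ| * 2 :=
          mul_le_mul k5 (S0_le' hp M t) (S0_nonneg t M) (abs_nonneg _)
      _ = _ := by ring
  unfold KK
  refine (abs_add_three _ _ _).trans ?_
  linarith

theorem aV_near {N : ℕ} (hN : 1 ≤ N) (M : ℕ) (ε₁ δ : ℝ) :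
    |aV (2 ^ N) (Wm N M ε₁ δ) t| ≤
      (4 * p + 16 ^ 3 * p ^ 4 + 2 * (248 * p + 48 * |ε₁|) +
        96 * p * (16 * p) ^ 3 * (6 * p + 4 * |ε₁| + 2 * |δ|)) * s ^ 3 := by
  have hP : (0 : ℝ) < p := by exact_mod_cast hp
  have hP1 : (1 : ℝ) ≤ p := by exact_mod_cast hp
  have hs16 := s_le hp hs0 hs ht
  have hx := xav_abs hp hs0 hs ht
  have hR1 : (1 : ℝ) ≤ 2 ^ N := one_le_pow₀ (by norm_num)
  have hR0 : (0 : ℝ) < 2 ^ N := by positivity
  have hK := KK_near hp hs0 hs ht hN M ε₁ δ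
  have hD := dKK_near hp hs0 hs ht hN ε₁
  rw [aV_eq hp (reg_near hp hs0 hs ht)]
  -- S2, S3
  have hS2 : |∑ i, t i ^ 2| ≤ p * s ^ 2 := by
    calc |∑ i, t i ^ 2| ≤ ∑ i, |t i ^ 2| := Finset.abs_sum_le_sum_abs _ _
      _ ≤ ∑ i : Fin p, s ^ 2 := by
          apply Finset.sum_le_sum
          intro i _
          rw [abs_pow]
          exact pow_le_pow_left₀ (abs_nonneg _) (ht i) 2
      _ = _ := by rw [Finset.sum_const, Finset.card_univ, Fintype.card_fin, nsmul_eq_mul]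
  have hS3 : |∑ i, t i ^ 3| ≤ p * s ^ 3 := by
    calc |∑ i, t i ^ 3| ≤ ∑ i, |t i ^ 3| := Finset.abs_sum_le_sum_abs _ _
      _ ≤ ∑ i : Fin p, s ^ 3 := by
          apply Finset.sum_le_sum
          intro i _
          rw [abs_pow]
          exact pow_le_pow_left₀ (abs_nonneg _) (ht i) 3
      _ = _ := by rw [Finset.sum_const, Finset.card_univ, Fintype.card_fin, nsmul_eq_mul]
  have hF : |∑ i, (F1 (2 ^ N) (t i) - F1 (2 ^ N) 0) -
      (p * xav t / 2 - 3 * (∑ i, t i ^ 2) / (8 * 2 ^ N))| ≤ p * s ^ 3 := by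
    have e : ∑ i, (F1 (2 ^ N) (t i) - F1 (2 ^ N) 0) -
      (p * xav t / 2 - 3 * (∑ i, t i ^ 2) / (8 * 2 ^ N)) =
      ∑ i, (F1 (2 ^ N) (t i) - F1 (2 ^ N) 0 - (t i / 2 - 3 * t i ^ 2 / (8 * 2 ^ N))) := by
      have r1 : ∑ i, (F1 (2 ^ N) (t i) - F1 (2 ^ N) 0 - (t i / 2 - 3 * t i ^ 2 / (8 * 2 ^ N))) =
          ∑ i, (F1 (2 ^ N) (t i) - F1 (2 ^ N) 0) -
            (∑ i, t i / 2 - ∑ i, 3 * t i ^ 2 / (8 * 2 ^ N)) := by
        rw [← Finset.sum_sub_distrib, ← Finset.sum_sub_distrib]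
      rw [r1, ← Finset.sum_div, ← Finset.sum_div, ← Finset.mul_sum, sum_eq hp t]
    rw [e]
    calc _ ≤ ∑ i, |F1 (2 ^ N) (t i) - F1 (2 ^ N) 0 - (t i / 2 - 3 * t i ^ 2 / (8 * 2 ^ N))| :=
          Finset.abs_sum_le_sum_abs _ _
      _ ≤ ∑ i : Fin p, s ^ 3 := by
          apply Finset.sum_le_sum
          intro i _
          refine (F1_taylor hR1 (by have := ht i; linarith)).trans ?_
          exact pow_le_pow_left₀ (abs_nonneg _) (ht i) 3
      _ = _ := by rw [Finset.sum_const, Finset.card_univ, Fintype.card_fin, nsmul_eq_mul]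
  unfold dW mcut
  -- exponentials
  have hA : |Real.exp (-xav t) - 1| ≤ 2 * s := by
    have := Real.abs_exp_sub_one_le (x := -xav t) (by rw [abs_neg]; linarith)
    rw [abs_neg] at this
    linarith
  have hA3 : |Real.exp (-xav t)| ≤ 3 := by
    have := abs_le.1 hA
    rw [abs_of_pos (Real.exp_pos _)]
    linarith [this.2]
  have hz : |8 * p * xav t / 2 ^ N| ≤ 8 * p * s := by
    rw [abs_div, abs_of_pos hR0, abs_mul, abs_of_pos (by positivity : (0 : ℝ) < 8 * p)]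
    calc 8 * p * |xav t| / 2 ^ N ≤ 8 * p * |xav t| := div_le_self (by positivity) hR1
      _ ≤ _ := mul_le_mul_of_nonneg_left hx (by positivity)
  have hz1 : 8 * (p : ℝ) * s ≤ 1 / 2 := by
    calc 8 * (p : ℝ) * s ≤ 8 * p * (1 / (16 * p)) := mul_le_mul_of_nonneg_left hs (by positivity)
      _ = 1 / 2 := by field_simp; norm_num
  have ho : |1 - Real.exp (-(8 * p * xav t / 2 ^ N))| ≤ 16 * p * s := by
    have := Real.abs_exp_sub_one_le (x := -(8 * p * xav t / 2 ^ N)) (by rw [abs_neg]; linarith)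
    rw [abs_neg] at this
    rw [abs_sub_comm]
    linarith
  generalize hEE : Real.exp (-(8 * p * xav t / 2 ^ N)) = E at *
  have hE3 : |E| ≤ 3 := by
    have h1 : |E| ≤ |1 - E| + 1 := by
      calc |E| = |1 - (1 - E)| := by congr 1; ring
        _ ≤ |1| + |1 - E| := abs_sub _ _
        _ = _ := by rw [abs_one]; ring
    linarith
  generalize Real.exp (-xav t) = A at *
  generalize 1 - E = o at *
  generalize KK N M ε₁ δ t = K at *
  generalize dKK N ε₁ t = D at *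
  generalize ∑ i, t i ^ 2 = S2 at *
  generalize ∑ i, t i ^ 3 = S3 at *
  generalize ∑ i, (F1 (2 ^ N) (t i) - F1 (2 ^ N) 0) = FF at *
  generalize xav t = x at *
  generalize (2 : ℝ) ^ N = R at *
  generalize (p : ℝ) = P at *
  clear hEE hs ht
  set κ : ℝ := 6 * P + 4 * |ε₁| + 2 * |δ| with hκ
  have hκ0 : 0 ≤ κ := by positivity
  set d : ℝ := 248 * P + 48 * |ε₁| with hd
  have hd0 : 0 ≤ d := by positivity
  have ho3 : |o| ^ 3 ≤ (16 * P) ^ 3 * s ^ 3 := by
    rw [← mul_pow]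
    exact pow_le_pow_left₀ (abs_nonneg _) ho 3
  have ho1 : |o| ≤ 1 := by linarith
  have ho4 : |o ^ 4| ≤ (16 * P) ^ 3 * s ^ 3 := by
    rw [abs_pow]
    calc |o| ^ 4 = |o| ^ 3 * |o| := by ring
      _ ≤ |o| ^ 3 * 1 := mul_le_mul_of_nonneg_left ho1 (by positivity)
      _ ≤ _ := by rw [mul_one]; exact ho3
  have ho41 : |1 - o ^ 4| ≤ 2 := by
    have h1 : |o ^ 4| ≤ 1 := by rw [abs_pow]; exact pow_le_one₀ (abs_nonneg _) ho1
    calc |1 - o ^ 4| ≤ |1| + |o ^ 4| := abs_sub _ _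
      _ ≤ 2 := by rw [abs_one]; linarith
  have e : FF + (A * (3 * S2 - S3) / (8 * R) + (-(4 * (8 * P / R)) * o ^ 3 * E * K +
      (1 - o ^ 4) * D)) =
      (FF - (P * x / 2 - 3 * S2 / (8 * R))) + (A - 1) * (3 * S2) / (8 * R) +
        (-(A * S3 / (8 * R))) + (-(32 * P / R * o ^ 3 * E * K)) + (1 - o ^ 4) * (P * x / 2 + D) +
        o ^ 4 * (P * x / 2) := by
    ring
  rw [e]
  have s3 : 0 ≤ s ^ 3 := by positivity
  have b1 : |(A - 1) * (3 * S2) / (8 * R)| ≤ P * s ^ 3 := by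
    rw [abs_div, abs_mul, abs_mul, abs_of_pos (by positivity : 0 < 8 * R),
      abs_of_pos (by norm_num : (0 : ℝ) < 3)]
    calc |A - 1| * (3 * |S2|) / (8 * R) ≤ (2 * s) * (3 * (P * s ^ 2)) / 8 := by
          apply div_le_div₀ (by positivity) _ (by norm_num) (by linarith)
          exact mul_le_mul hA (by linarith) (by positivity) (by positivity)
      _ = 6 / 8 * (P * s ^ 3) := by ring
      _ ≤ P * s ^ 3 := by
          have : 0 ≤ P * s ^ 3 := by positivity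
          linarith
  have b2 : |(-(A * S3 / (8 * R)))| ≤ P * s ^ 3 := by
    rw [abs_neg, abs_div, abs_mul, abs_of_pos (by positivity : 0 < 8 * R)]
    calc |A| * |S3| / (8 * R) ≤ 3 * (P * s ^ 3) / 8 := by
          apply div_le_div₀ (by positivity) _ (by norm_num) (by linarith)
          exact mul_le_mul hA3 hS3 (abs_nonneg _) (by norm_num)
      _ ≤ P * s ^ 3 := by
          have : 0 ≤ P * s ^ 3 := by positivity
          linarith
  have b3 : |(-(32 * P / R * o ^ 3 * E * K))| ≤ 96 * P * (16 * P) ^ 3 * κ * s ^ 3 := by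
    rw [abs_neg, abs_mul, abs_mul, abs_mul, abs_div, abs_pow, abs_of_pos (by positivity : 0 < 32 * P),
      abs_of_pos hR0]
    calc 32 * P / R * |o| ^ 3 * |E| * |K| ≤ 32 * P * ((16 * P) ^ 3 * s ^ 3) * 3 * κ := by
          apply mul_le_mul _ hK (abs_nonneg _) (by positivity)
          apply mul_le_mul _ hE3 (abs_nonneg _) (by positivity)
          apply mul_le_mul _ ho3 (by positivity) (by positivity)
          exact div_le_self (by positivity) hR1
      _ = _ := by ring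
  have b4 : |(1 - o ^ 4) * (P * x / 2 + D)| ≤ 2 * (d * s ^ 3) := by
    rw [abs_mul]
    exact mul_le_mul ho41 hD (abs_nonneg _) (by norm_num)
  have b5 : |o ^ 4 * (P * x / 2)| ≤ 16 ^ 3 * P ^ 4 * s ^ 3 := by
    rw [abs_mul]
    have : |P * x / 2| ≤ P := by
      rw [abs_div, abs_mul, abs_of_pos hP, abs_two]
      have : |x| ≤ 1 := by linarith
      nlinarith
    calc |o ^ 4| * |P * x / 2| ≤ ((16 * P) ^ 3 * s ^ 3) * P :=
          mul_le_mul ho4 this (abs_nonneg _) (by positivity)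
      _ = _ := by ring
  have t1 := abs_add_le ((FF - (P * x / 2 - 3 * S2 / (8 * R))) + (A - 1) * (3 * S2) / (8 * R) +
        (-(A * S3 / (8 * R))) + (-(32 * P / R * o ^ 3 * E * K)) + (1 - o ^ 4) * (P * x / 2 + D))
        (o ^ 4 * (P * x / 2))
  have t2 := abs_add_le ((FF - (P * x / 2 - 3 * S2 / (8 * R))) + (A - 1) * (3 * S2) / (8 * R) +
        (-(A * S3 / (8 * R))) + (-(32 * P / R * o ^ 3 * E * K))) ((1 - o ^ 4) * (P * x / 2 + D))
  have t3 := abs_add_le ((FF - (P * x / 2 - 3 * S2 / (8 * R))) + (A - 1) * (3 * S2) / (8 * R) +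
        (-(A * S3 / (8 * R)))) (-(32 * P / R * o ^ 3 * E * K))
  have t4 := abs_add_three (FF - (P * x / 2 - 3 * S2 / (8 * R))) ((A - 1) * (3 * S2) / (8 * R))
        (-(A * S3 / (8 * R)))
  have hfin : (4 * P + 16 ^ 3 * P ^ 4 + 2 * d + 96 * P * (16 * P) ^ 3 * κ) * s ^ 3 =
      4 * (P * s ^ 3) + 16 ^ 3 * P ^ 4 * s ^ 3 + 2 * (d * s ^ 3) +
        96 * P * (16 * P) ^ 3 * κ * s ^ 3 := by ring
  rw [hfin]
  have : 0 ≤ P * s ^ 3 := by positivity
  linarith

end near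

end T7aux

open T7aux in
/-- monotonicity of the model function (HSC T7) -/
theorem Wm_mono {p : ℕ} (hp : 2 ≤ p) {ε₁ : ℝ} (h0 : 0 < ε₁) (h1 : ε₁ ≤ 1) :
    ∃ cp : ℝ, 0 < cp ∧ ∃ δ₀ : ℝ, 0 < δ₀ ∧ ∃ N₀ : ℕ, ∀ N : ℕ, N₀ ≤ N → ∀ δ : ℝ, 0 ≤ δ → δ ≤ δ₀ →
      ∀ M : ℕ, ∀ t : Fin p → ℝ, (∀ i, 0 ≤ t i) → ∀ i,
        cp * ε₁ / N * min 1 (t i) ^ 3 ≤ aV (2 ^ N) (Wm N M ε₁ δ) t := by
  have hP : (2 : ℝ) ≤ p := by exact_mod_cast hp
  have hP0 : (0 : ℝ) < p := by linarith
  have hP8 : 8 ≤ (p : ℝ) ^ 3 := by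
    calc (8 : ℝ) = 2 ^ 3 := by norm_num
      _ ≤ (p : ℝ) ^ 3 := pow_le_pow_left₀ (by norm_num) hP 3
  set c : ℝ := ε₁ / (8 * p ^ 3) with hc
  have hc0 : 0 < c := by positivity
  have hc1 : c ≤ 1 := by
    rw [hc, div_le_one (by positivity)]
    linarith
  have ev1 : ∀ᶠ N : ℕ in Filter.atTop, 18 * p / √(c * N) ≤ 1 / 32 := by
    have h1 : Filter.Tendsto (fun N : ℕ => √(c * N)) Filter.atTop Filter.atTop :=
      Real.tendsto_sqrt_atTop.comp
        ((tendsto_natCast_atTop_atTop (R := ℝ)).const_mul_atTop hc0)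
    have h2 : Filter.Tendsto (fun N : ℕ => 18 * (p : ℝ) / √(c * N)) Filter.atTop (nhds 0) :=
      h1.const_div_atTop _
    exact (h2.eventually_le_const (by norm_num : (0 : ℝ) < 1 / 32))
  have ev2 : ∀ᶠ N : ℕ in Filter.atTop,
      (32 * p * (3 * (p : ℝ) ^ 2 / 8 + 1) + 512 * p ^ 2 + p ^ 3 / c) / N ≤ 1 / 32 := by
    have h2 : Filter.Tendsto (fun N : ℕ =>
        (32 * p * (3 * (p : ℝ) ^ 2 / 8 + 1) + 512 * p ^ 2 + p ^ 3 / c) / (N : ℝ)) Filter.atTop
        (nhds 0) := (tendsto_natCast_atTop_atTop (R := ℝ)).const_div_atTop _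
    exact (h2.eventually_le_const (by norm_num : (0 : ℝ) < 1 / 32))
  have ev3 : ∀ᶠ N : ℕ in Filter.atTop, 1 ≤ c * N := by
    have h1 : Filter.Tendsto (fun N : ℕ => c * (N : ℝ)) Filter.atTop Filter.atTop :=
        (tendsto_natCast_atTop_atTop (R := ℝ)).const_mul_atTop hc0
    exact h1.eventually_ge_atTop 1
  obtain ⟨N₀, hN₀⟩ := Filter.eventually_atTop.1
    (((ev1.and ev2).and ev3).and (Filter.eventually_ge_atTop 4))
  refine ⟨1 / (128 * p ^ 3), by positivity, 1, one_pos, N₀, ?_⟩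
  intro N hN δ hd0 hd1 M t ht i
  obtain ⟨⟨⟨hb1, hb2⟩, hb3⟩, hN4⟩ := hN₀ N hN
  have hNR : (4 : ℝ) ≤ N := by exact_mod_cast hN4
  have hN0 : (0 : ℝ) < N := by linarith
  have hx := xav_nonneg ht
  have hm0 : 0 ≤ min 1 (t i) := le_min zero_le_one (ht i)
  have hm1 : min 1 (t i) ^ 3 ≤ 1 := pow_le_one₀ hm0 (min_le_left _ _)
  have hm3 : 0 ≤ min 1 (t i) ^ 3 := by positivity
  rcases le_or_gt (1 + xav t) (ε₁ * 2 ^ N / (4 * p ^ 3 * N)) with hA | hA
  · have h := regionA ht hp (by omega : 2 ≤ N) h0 h1 hd0 hd1 M hA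
    refine le_trans ?_ h
    have h3 := cube_ge (P := p) (by linarith) hx (ht i) (le_sum ht (by omega) i)
    calc 1 / (128 * (p : ℝ) ^ 3) * ε₁ / N * min 1 (t i) ^ 3 =
        ε₁ / (32 * N) * (min 1 (t i) ^ 3 / (4 * p ^ 3)) := by field_simp; ring
      _ ≤ ε₁ / (2 * N) * (xav t ^ 3 / (1 + xav t) ^ 2) := by
          apply mul_le_mul _ h3 (by positivity) (by positivity)
          apply div_le_div_of_nonneg_left h0.le (by positivity)
          linarith
  · have hpow : (N : ℝ) ^ 2 ≤ 2 ^ N := by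
      exact_mod_cast sq_le_two_pow hN4
    have hcx : c * 2 ^ N / N ≤ xav t := by
      have h3 : 1 ≤ c * 2 ^ N / N := by
        rw [le_div_iff₀ hN0]
        calc 1 * (N : ℝ) ≤ c * N * N := mul_le_mul_of_nonneg_right hb3 hN0.le
          _ = c * N ^ 2 := by ring
          _ ≤ c * 2 ^ N := mul_le_mul_of_nonneg_left hpow hc0.le
      have h4 : ε₁ * 2 ^ N / (4 * p ^ 3 * N) = 2 * (c * 2 ^ N / N) := by
        rw [hc]
        field_simp
        ring
      rw [h4] at hA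
      linarith
    have h := regionB ht hp (by omega : 1 ≤ N) h0 h1 hd0 hd1 M hc0 hc1 hcx hb1 hb2
    refine le_trans ?_ h
    calc 1 / (128 * (p : ℝ) ^ 3) * ε₁ / N * min 1 (t i) ^ 3 ≤
        1 / (128 * (p : ℝ) ^ 3) * ε₁ / N * 1 := mul_le_mul_of_nonneg_left hm1 (by positivity)
      _ = c / (16 * N) := by rw [hc]; field_simp; ring

open T7aux in
/-- cubic vanishing at `0` of the `u`-derivative (HSC T7) -/
theorem Wm_vert_a {p : ℕ} (hp : 2 ≤ p) {N : ℕ} (hN : 1 ≤ N) (ε₁ δ : ℝ) :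
    ∃ Ca : ℝ, ∀ M : ℕ, ∃ r : ℝ, 0 < r ∧ ∀ t : Fin p → ℝ, ∀ ρ : ℝ, ρ ≤ r → (∀ i, |t i| ≤ ρ) →
      |aV (2 ^ N) (Wm N M ε₁ δ) t| ≤ Ca * ρ ^ 3 := by
  have hp1 : 1 ≤ p := by omega
  have hP0 : (0 : ℝ) < p := by exact_mod_cast hp1
  refine ⟨4 * p + 16 ^ 3 * p ^ 4 + 2 * (248 * p + 48 * |ε₁|) +
        96 * p * (16 * p) ^ 3 * (6 * p + 4 * |ε₁| + 2 * |δ|), fun M => ⟨1 / (16 * p), by positivity,
        fun t ρ hρ ht => ?_⟩⟩
  have hρ0 : 0 ≤ ρ := (abs_nonneg _).trans (ht ⟨0, hp1⟩)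
  exact aV_near hp1 hρ0 hρ ht hN M ε₁ δ

end

end Pool.Agent.H789.HSC

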