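import Pool.Agent.H789.HSC.Model
import Pool.Agent.H789.HSC.JetCalc

/-! T8: the model function at the vertex `t = 0`. -/

open scoped BigOperators ContDiff ComplexConjugate Topology

namespace Pool.Agent.H789.HSC

noncomputable section

namespace T8aux

/-- the jet of `φ` has value `v` and top component `q` -/
def VQ (φ : ℂ → ℝ) (v q : ℝ) : Prop := ∃ J, HasJet φ J ∧ J.v = v ∧ J.Q = q

theorem VQ.add {φ ψ : ℂ → ℝ} {v q v' q' : ℝ} (h : VQ φ v q) (h' : VQ ψ v' q') :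
    VQ (fun ζ => φ ζ + ψ ζ) (v + v') (q + q') := by
  obtain ⟨J, h1, h2, h3⟩ := h
  obtain ⟨J', h1', h2', h3'⟩ := h'
  exact ⟨_, h1.add h1', by simp [Jet.add, h2, h2'], by simp [Jet.add, h3, h3']⟩

theorem VQ.smul {φ : ℂ → ℝ} {v q : ℝ} (h : VQ φ v q) (c : ℝ) :
    VQ (fun ζ => c * φ ζ) (c * v) (c * q) := by
  obtain ⟨J, h1, h2, h3⟩ := h
  exact ⟨_, h1.smul c, by simp [Jet.smul, h2], by simp [Jet.smul, h3]⟩

theorem VQ.zero : VQ (fun _ => 0) 0 0 := ⟨_, hasJet_const 0, rfl, rfl⟩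

theorem VQ.sum {κ : Type*} (s : Finset κ) {φ : κ → ℂ → ℝ} {v q : κ → ℝ}
    (h : ∀ i ∈ s, VQ (φ i) (v i) (q i)) :
    VQ (fun ζ => ∑ i ∈ s, φ i ζ) (∑ i ∈ s, v i) (∑ i ∈ s, q i) := by
  classical
  induction s using Finset.induction_on with
  | empty => simpa using VQ.zero
  | insert a s ha ih =>
    simp only [Finset.sum_insert ha]
    exact (h a (Finset.mem_insert_self _ _)).add
      (ih fun i hi => h i (Finset.mem_insert_of_mem hi))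

theorem VQ.congr {φ ψ : ℂ → ℝ} {v q : ℝ} (h : VQ φ v q) (e : ∀ ζ, φ ζ = ψ ζ) : VQ ψ v q := by
  have : φ = ψ := funext e
  rwa [← this]

/-- sum of jets -/
def jsum {κ : Type*} (s : Finset κ) (J : κ → Jet) : Jet :=
  ⟨∑ i ∈ s, (J i).v, ∑ i ∈ s, (J i).h, ∑ i ∈ s, (J i).Q, ∑ i ∈ s, (J i).a, ∑ i ∈ s, (J i).b,
    ∑ i ∈ s, (J i).k⟩

theorem hasJet_sum {κ : Type*} (s : Finset κ) {φ : κ → ℂ → ℝ} {J : κ → Jet}
    (h : ∀ i ∈ s, HasJet (φ i) (J i)) : HasJet (fun ζ => ∑ i ∈ s, φ i ζ) (jsum s J) := by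
  classical
  induction s using Finset.induction_on with
  | empty => simpa [jsum, Jet.const] using hasJet_const 0
  | insert a s ha ih =>
    have h1 := (h a (Finset.mem_insert_self _ _)).add
      (ih fun i hi => h i (Finset.mem_insert_of_mem hi))
    simp only [Finset.sum_insert ha]
    convert! h1 using 1
    simp [jsum, Jet.add, Finset.sum_insert ha]

/-- product with a function whose jet is `1, 0, 0, 0, 0, m` -/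
theorem VQ.cut {φ ψ : ℂ → ℝ} {v q m : ℝ} (h : VQ φ v q) (h' : HasJet ψ ⟨1, 0, m, 0, 0, 0⟩) :
    VQ (fun ζ => ψ ζ * φ ζ) v (q + m * v) := by
  obtain ⟨J, h1, h2, h3⟩ := h
  refine ⟨_, h'.mul h1, by simp [Jet.mul, h2], ?_⟩
  simp [Jet.mul, h2, h3]

/-- product of a function with jet `0, 0, Q, 0, 0, 0` -/
theorem VQ.flat {φ ψ : ℂ → ℝ} {q : ℝ} (h : HasJet φ ⟨0, 0, q, 0, 0, 0⟩)
    (h' : ContDiffAt ℝ 4 ψ 0) (h1 : ψ 0 = 1) : VQ (fun ζ => φ ζ * ψ ζ) 0 q := by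
  obtain ⟨K, hK⟩ := exists_hasJet h'
  have hv : K.v = 1 := by rw [← hK.2.1, h1]
  refine ⟨_, h.mul hK, by simp [Jet.mul], ?_⟩
  simp [Jet.mul, hv]

theorem mul_conj_re (z : ℂ) : (z * conj z).re = ‖z‖ ^ 2 := by
  rw [Complex.mul_conj, Complex.ofReal_re, Complex.normSq_eq_norm_sq]

theorem jet_sq {u : ℂ → ℝ} {τ σ : ℂ} (h : HasJet u (Jet.hol 0 τ σ)) :
    HasJet (fun ζ => u ζ ^ 2) ⟨0, 2 * ‖τ‖ ^ 2, 2 * ‖σ‖ ^ 2, 0, 2 * τ ^ 2, 2 * σ * conj τ⟩ := by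
  have h1 := h.mul h
  have e : (fun ζ => u ζ * u ζ) = fun ζ => u ζ ^ 2 := by funext ζ; ring
  rw [e] at h1
  convert! h1 using 1
  refine Jet.ext ?_ ?_ ?_ ?_ ?_ ?_
  · simp [Jet.mul, Jet.hol]
  · simp only [Jet.mul, Jet.hol]
    rw [mul_conj_re]
    ring
  · simp only [Jet.mul, Jet.hol]
    rw [mul_conj_re]
    simp
  · simp [Jet.mul, Jet.hol]
  · simp only [Jet.mul, Jet.hol]
    push_cast
    ring
  · simp only [Jet.mul, Jet.hol]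
    push_cast
    ring

/-- `u²` times a function with a known jet: top component -/
theorem VQ.sq_mul {φ ψ : ℂ → ℝ} {ζ s : ℂ} {K : Jet} (h : HasJet φ (Jet.hol 0 ζ s))
    (hK : HasJet ψ K) : VQ (fun w => φ w ^ 2 * ψ w) 0
      (2 * ‖s‖ ^ 2 * K.v + 8 * (s * conj ζ * conj K.a).re + 4 * (ζ ^ 2 * conj K.b).re
        + 8 * ‖ζ‖ ^ 2 * K.h) := by
  refine ⟨_, (jet_sq h).mul hK, by simp [Jet.mul], ?_⟩
  simp only [Jet.mul]
  have e1 : 2 * s * conj ζ * conj K.a = ((2 : ℝ) : ℂ) * (s * conj ζ * conj K.a) := by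
    push_cast; ring
  have e2 : 2 * ζ ^ 2 * conj K.b = ((2 : ℝ) : ℂ) * (ζ ^ 2 * conj K.b) := by
    push_cast; ring
  rw [e1, e2, Complex.re_ofReal_mul, Complex.re_ofReal_mul]
  simp only [zero_mul, mul_zero, Complex.zero_re]
  ring

theorem jet_cube {u : ℂ → ℝ} {τ σ : ℂ} (h : HasJet u (Jet.hol 0 τ σ)) :
    HasJet (fun ζ => u ζ ^ 3) ⟨0, 0, 12 * ((conj τ) ^ 2 * σ).re, 0, 0, 6 * ‖τ‖ ^ 2 * τ⟩ := by
  have h1 := HasJet.comp h (F := fun x => x ^ 3) (F1 := fun x => 3 * x ^ 2)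
    (F2 := fun x => 6 * x) (F3 := fun _ => 6) (F4 := fun _ => 0)
    (Filter.Eventually.of_forall fun x => by simpa using hasDerivAt_pow 3 x)
    (Filter.Eventually.of_forall fun x => by
      have := (hasDerivAt_pow 2 x).const_mul 3
      convert! this using 1
      simp; ring)
    (Filter.Eventually.of_forall fun x => by
      have := (hasDerivAt_id x).const_mul 6
      simpa using this)
    (Filter.Eventually.of_forall fun x => hasDerivAt_const _ _)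
    (Filter.Eventually.of_forall fun x => continuousAt_const)
  convert! h1 using 1
  refine Jet.ext ?_ ?_ ?_ ?_ ?_ ?_
  · simp [Jet.comp, Jet.hol]
  · simp [Jet.comp, Jet.hol]
  · simp [Jet.comp, Jet.hol]
    ring
  · simp [Jet.comp, Jet.hol]
  · simp [Jet.comp, Jet.hol]
  · simp [Jet.comp, Jet.hol]

/-- jet of `exp (- c u)` -/
theorem jet_exp {u : ℂ → ℝ} {J : Jet} (h : HasJet u J) (c : ℝ) :
    HasJet (fun ζ => Real.exp (-(c * u ζ))) (Jet.comp (Real.exp (-(c * J.v)))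
      (-c * Real.exp (-(c * J.v))) (c ^ 2 * Real.exp (-(c * J.v)))
      (-c ^ 3 * Real.exp (-(c * J.v))) (c ^ 4 * Real.exp (-(c * J.v))) J) := by
  have hd : ∀ a x : ℝ, HasDerivAt (fun x => a * Real.exp (-(c * x)))
      (a * -c * Real.exp (-(c * x))) x := by
    intro a x
    have h1 : HasDerivAt (fun x : ℝ => -(c * x)) (-c) x := by
      have h0 : HasDerivAt (fun x : ℝ => (-c) * x) (-c) x := by
        simpa using (hasDerivAt_id x).const_mul (-c)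
      convert! h0 using 1
      funext y
      ring
    have h2 := (h1.exp).const_mul a
    convert! h2 using 1
    ring
  refine HasJet.comp h (F := fun x => Real.exp (-(c * x)))
    (F1 := fun x => -c * Real.exp (-(c * x))) (F2 := fun x => c ^ 2 * Real.exp (-(c * x)))
    (F3 := fun x => -c ^ 3 * Real.exp (-(c * x))) (F4 := fun x => c ^ 4 * Real.exp (-(c * x)))
    ?_ ?_ ?_ ?_ ?_
  · exact Filter.Eventually.of_forall fun x => by simpa using hd 1 x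
  · exact Filter.Eventually.of_forall fun x => by
      convert! hd (-c) x using 1; ring
  · exact Filter.Eventually.of_forall fun x => by
      convert! hd (c ^ 2) x using 1; ring
  · exact Filter.Eventually.of_forall fun x => by
      convert! hd (-c ^ 3) x using 1; ring
  · exact Filter.Eventually.of_forall fun x => by fun_prop

/-- jet of `1 / (ρ + u)` -/
theorem jet_inv {u : ℂ → ℝ} {β b : ℂ} (h : HasJet u (Jet.hol 0 β b)) {ρ : ℝ} (hρ : 0 < ρ) :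
    HasJet (fun ζ => (ρ + u ζ)⁻¹) (Jet.comp ρ⁻¹ (-ρ⁻¹ ^ 2) (2 * ρ⁻¹ ^ 3) (-6 * ρ⁻¹ ^ 4)
      (24 * ρ⁻¹ ^ 5) (Jet.hol 0 β b)) := by
  have hd : ∀ (a : ℝ) (n : ℕ) (x : ℝ), ρ + x ≠ 0 → HasDerivAt (fun x => a * (ρ + x)⁻¹ ^ (n + 1))
      (-(a * (n + 1)) * (ρ + x)⁻¹ ^ (n + 2)) x := by
    intro a n x hx
    have h1 : HasDerivAt (fun x : ℝ => ρ + x) 1 x := by
      simpa using (hasDerivAt_id x).const_add ρ
    have h2 := ((h1.inv hx).pow (n + 1)).const_mul a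
    convert! h2 using 1
    have e : (-1 : ℝ) / (ρ + x) ^ 2 = -(ρ + x)⁻¹ ^ 2 := by rw [inv_pow]; ring
    rw [e]
    push_cast
    simp only [Pi.inv_apply]
    ring
  have hev : ∀ᶠ x in 𝓝 (0 : ℝ), ρ + x ≠ 0 := by
    have hc : ContinuousAt (fun x : ℝ => ρ + x) 0 := by fun_prop
    exact hc.eventually_ne (by simp [hρ.ne'])
  have := HasJet.comp h (F := fun x => (ρ + x)⁻¹)
    (F1 := fun x => -(ρ + x)⁻¹ ^ 2) (F2 := fun x => 2 * (ρ + x)⁻¹ ^ 3)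
    (F3 := fun x => -6 * (ρ + x)⁻¹ ^ 4) (F4 := fun x => 24 * (ρ + x)⁻¹ ^ 5)
    (hev.mono fun x hx => by
      convert! hd 1 0 x hx using 1
      · funext y; simp
      · simp)
    (hev.mono fun x hx => by
      convert! hd (-1) 1 x hx using 1
      · funext y; ring
      · push_cast; ring)
    (hev.mono fun x hx => by
      convert! hd 2 2 x hx using 1
      push_cast; ring)
    (hev.mono fun x hx => by
      convert! hd (-6) 3 x hx using 1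
      push_cast; ring)
    (hev.mono fun x hx => by
      fun_prop (disch := assumption))
  simpa [Jet.hol] using this

/-- jet of the cut off factor -/
theorem jet_mcut {u : ℂ → ℝ} {β b : ℂ} (h : HasJet u (Jet.hol 0 β b)) (p : ℕ) (R : ℝ) :
    HasJet (fun ζ => mcut p R (u ζ)) ⟨1, 0, -24 * (8 * p / R) ^ 4 * ‖β‖ ^ 4, 0, 0, 0⟩ := by
  set α : ℝ := 8 * p / R with hα
  let G : ℕ → ℝ → ℝ := fun n x => 4 * ((-α) ^ n * Real.exp (-(α * x)))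
    - 6 * ((-(2 * α)) ^ n * Real.exp (-(2 * α * x)))
    + 4 * ((-(3 * α)) ^ n * Real.exp (-(3 * α * x))) - (-(4 * α)) ^ n * Real.exp (-(4 * α * x))
  have hd : ∀ (c : ℝ) (n : ℕ) (x : ℝ), HasDerivAt (fun x => (-c) ^ n * Real.exp (-(c * x)))
      ((-c) ^ (n + 1) * Real.exp (-(c * x))) x := by
    intro c n x
    have h1 : HasDerivAt (fun x : ℝ => -(c * x)) (-c) x := by
      have h0 : HasDerivAt (fun x : ℝ => (-c) * x) (-c) x := by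
        simpa using (hasDerivAt_id x).const_mul (-c)
      convert! h0 using 1
      funext y
      ring
    have h2 := (h1.exp).const_mul ((-c) ^ n)
    convert! h2 using 1
    ring
  have hG : ∀ n x, HasDerivAt (G n) (G (n + 1) x) x := by
    intro n x
    exact ((((hd α n x).const_mul 4).sub ((hd (2 * α) n x).const_mul 6)).add
      ((hd (3 * α) n x).const_mul 4)).sub (hd (4 * α) n x)
  have e0 : mcut p R = G 0 := by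
    funext x
    have e1 : Real.exp (-(2 * α * x)) = Real.exp (-(α * x)) ^ 2 := by
      rw [← Real.exp_nat_mul]; congr 1; push_cast; ring
    have e2 : Real.exp (-(3 * α * x)) = Real.exp (-(α * x)) ^ 3 := by
      rw [← Real.exp_nat_mul]; congr 1; push_cast; ring
    have e3 : Real.exp (-(4 * α * x)) = Real.exp (-(α * x)) ^ 4 := by
      rw [← Real.exp_nat_mul]; congr 1; push_cast; ring
    simp only [G, mcut, pow_zero, one_mul, e1, e2, e3]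
    have : 8 * (p : ℝ) * x / R = α * x := by rw [hα]; ring
    rw [this]
    ring
  have h1 := HasJet.comp h (F := G 0) (F1 := G 1) (F2 := G 2) (F3 := G 3) (F4 := G 4)
    (Filter.Eventually.of_forall fun x => hG 0 x) (Filter.Eventually.of_forall fun x => hG 1 x)
    (Filter.Eventually.of_forall fun x => hG 2 x) (Filter.Eventually.of_forall fun x => hG 3 x)
    (Filter.Eventually.of_forall fun x => (hG 4 x).continuousAt)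
  rw [e0]
  convert! h1 using 1
  have g0 : G 0 0 = 1 := by simp [G]; norm_num
  have g1 : G 1 0 = 0 := by simp [G]; ring
  have g2 : G 2 0 = 0 := by simp [G]; ring
  have g3 : G 3 0 = 0 := by simp [G]; ring
  have g4 : G 4 0 = -24 * α ^ 4 := by simp [G]; ring
  simp only [Jet.hol, g0, g1, g2, g3, g4]
  refine Jet.ext ?_ ?_ ?_ ?_ ?_ ?_ <;> simp [Jet.comp]

theorem hol_lin {φ ψ : ℂ → ℝ} {a b a' b' : ℂ} (h : HasJet φ (Jet.hol 0 a b))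
    (h' : HasJet ψ (Jet.hol 0 a' b')) (c : ℝ) :
    HasJet (fun ζ => φ ζ + c * ψ ζ) (Jet.hol 0 (a + c * a') (b + c * b')) := by
  convert! h.add (h'.smul c) using 1
  refine Jet.ext ?_ ?_ ?_ ?_ ?_ ?_ <;> simp [Jet.add, Jet.smul, Jet.hol]

variable {p : ℕ}

/-- mean value -/
def mx (τ : Fin p → ℂ) : ℂ := ((p : ℝ)⁻¹ : ℝ) * ∑ i, τ i

theorem jet_t (τ σ : Fin p → ℂ) (i : Fin p) :
    HasJet (fun ζ => hpath (0 : Fin p → ℝ) τ σ ζ i) (Jet.hol 0 (τ i) (σ i)) :=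
  hasJet_hpath (0 : Fin p → ℝ) τ σ i

theorem jet_x (τ σ : Fin p → ℂ) :
    HasJet (fun ζ => xav (hpath (0 : Fin p → ℝ) τ σ ζ)) (Jet.hol 0 (mx τ) (mx σ)) := by
  have h := hasJet_hpath (fun _ : Unit => (0 : ℝ)) (fun _ => mx τ) (fun _ => mx σ) ()
  convert! h using 1
  funext ζ
  simp only [hpath, xav, mx, Pi.zero_apply, zero_add]
  rw [← Finset.mul_sum, ← Complex.re_sum, Finset.sum_add_distrib]
  have e : ζ * (((p : ℝ)⁻¹ : ℝ) * ∑ i, τ i) + ζ ^ 2 * (((p : ℝ)⁻¹ : ℝ) * ∑ i, σ i) / 2 =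
      (((p : ℝ)⁻¹ : ℝ) : ℂ) * (∑ i, ζ * τ i + ∑ i, ζ ^ 2 * σ i / 2) := by
    have e1 : ∑ i, ζ * τ i = ζ * ∑ i, τ i := (Finset.mul_sum _ _ _).symm
    have e2 : ∑ i, ζ ^ 2 * σ i / 2 = ζ ^ 2 * (∑ i, σ i) / 2 := by
      rw [← Finset.sum_div, ← Finset.mul_sum]
    rw [e1, e2]
    ring
  rw [e, Complex.re_ofReal_mul]
  ring

/-! ### term A -/

theorem jetA (τ σ : Fin p → ℂ) :
    VQ (fun ζ => Real.exp (-(1 * xav (hpath (0 : Fin p → ℝ) τ σ ζ))) *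
        ∑ i, hpath (0 : Fin p → ℝ) τ σ ζ i ^ 3) 0
      (12 * ∑ i, ((conj (τ i)) ^ 2 * σ i).re -
        24 * (mx τ * conj (∑ i, (‖τ i‖ ^ 2 : ℝ) * τ i)).re) := by
  have h1 := jet_exp (jet_x τ σ) 1
  have h2 := hasJet_sum Finset.univ fun i _ => jet_cube (jet_t τ σ i)
  refine ⟨_, h1.mul h2, ?_, ?_⟩
  · simp [Jet.mul, jsum]
  · have e : (∑ i, 6 * (‖τ i‖ : ℂ) ^ 2 * τ i) = ((6 : ℝ) : ℂ) * ∑ i, ((‖τ i‖ ^ 2 : ℝ) : ℂ) * τ i := by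
      rw [Finset.mul_sum]
      refine Finset.sum_congr rfl fun i _ => ?_
      push_cast
      ring
    have e2 : (mx τ * (((6 : ℝ) : ℂ) * conj (∑ i, ((‖τ i‖ ^ 2 : ℝ) : ℂ) * τ i))).re =
        6 * (mx τ * conj (∑ i, ((‖τ i‖ ^ 2 : ℝ) : ℂ) * τ i)).re := by
      rw [mul_left_comm, Complex.re_ofReal_mul]
    simp only [Jet.mul, jsum, Jet.comp, Jet.hol, Finset.sum_const_zero, map_zero, mul_zero,
      Complex.zero_re, add_zero, zero_mul]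
    rw [e, map_mul, Complex.conj_ofReal]
    simp only [neg_zero, Real.exp_zero, mul_one, one_mul]
    have e3 : (((-1 : ℝ) : ℂ) * mx τ * (((6 : ℝ) : ℂ) *
        conj (∑ i, ((‖τ i‖ ^ 2 : ℝ) : ℂ) * τ i))).re =
        -(6 * (mx τ * conj (∑ i, ((‖τ i‖ ^ 2 : ℝ) : ℂ) * τ i)).re) := by
      rw [mul_assoc, Complex.re_ofReal_mul, e2]
      ring
    rw [e3, ← Finset.mul_sum]
    ring

/-! ### the function `E0` -/

/-- top component of `z² / (ρ + X)` -/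
def fr (ρ : ℝ) (ζ s β b : ℂ) : ℝ :=
  2 * ‖s‖ ^ 2 * ρ⁻¹ - 8 * ρ⁻¹ ^ 2 * (s * conj ζ * conj β).re
    + (8 * ρ⁻¹ ^ 3 * (ζ ^ 2 * conj β ^ 2).re - 4 * ρ⁻¹ ^ 2 * (ζ ^ 2 * conj b).re)
    + 16 * ρ⁻¹ ^ 3 * ‖ζ‖ ^ 2 * ‖β‖ ^ 2

theorem jet_fr {z X : ℂ → ℝ} {ζ s β b : ℂ} (hz : HasJet z (Jet.hol 0 ζ s))
    (hX : HasJet X (Jet.hol 0 β b)) {ρ : ℝ} (hρ : 0 < ρ) :
    VQ (fun w => z w ^ 2 / (ρ + X w)) 0 (fr ρ ζ s β b) := by
  have h := VQ.sq_mul hz (jet_inv hX hρ)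
  have e : ∀ w, z w ^ 2 * (ρ + X w)⁻¹ = z w ^ 2 / (ρ + X w) := fun w => rfl
  convert! h.congr e using 1
  simp only [fr, Jet.comp, Jet.hol, map_mul, map_add, map_pow, Complex.conj_ofReal, mul_zero,
    add_zero]
  have e1 : (s * conj ζ * (((-ρ⁻¹ ^ 2 : ℝ) : ℂ) * conj β)).re =
      -ρ⁻¹ ^ 2 * (s * conj ζ * conj β).re := by
    rw [mul_left_comm, Complex.re_ofReal_mul]
  have e2 : (ζ ^ 2 * (((2 * ρ⁻¹ ^ 3 : ℝ) : ℂ) * conj β ^ 2 + ((-ρ⁻¹ ^ 2 : ℝ) : ℂ) * conj b)).re =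
      2 * ρ⁻¹ ^ 3 * (ζ ^ 2 * conj β ^ 2).re - ρ⁻¹ ^ 2 * (ζ ^ 2 * conj b).re := by
    rw [mul_add, mul_left_comm, mul_left_comm (ζ ^ 2) (((-ρ⁻¹ ^ 2 : ℝ) : ℂ)), Complex.add_re,
      Complex.re_ofReal_mul, Complex.re_ofReal_mul]
    ring
  rw [e1, e2]
  ring

theorem fr_lower {ρ : ℝ} (hρ : 1 ≤ ρ) (ζ s β b : ℂ) :
    2 * ‖s‖ ^ 2 - 8 * (‖s‖ * ‖ζ‖ * ‖β‖) - 8 * (‖ζ‖ ^ 2 * ‖β‖ ^ 2) - 4 * (‖ζ‖ ^ 2 * ‖b‖)
      ≤ ρ * fr ρ ζ s β b := by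
  have hρ0 : 0 < ρ := by linarith
  have hr : ρ⁻¹ ≤ 1 := inv_le_one_of_one_le₀ hρ
  have hr0 : 0 < ρ⁻¹ := by positivity
  have e : ρ * fr ρ ζ s β b = 2 * ‖s‖ ^ 2 - 8 * (ρ⁻¹ * (s * conj ζ * conj β).re)
      + 8 * (ρ⁻¹ ^ 2 * (ζ ^ 2 * conj β ^ 2).re) - 4 * (ρ⁻¹ * (ζ ^ 2 * conj b).re)
      + 16 * (ρ⁻¹ ^ 2 * (‖ζ‖ ^ 2 * ‖β‖ ^ 2)) := by
    unfold fr
    field_simp
    ring
  have k1 : ρ⁻¹ * (s * conj ζ * conj β).re ≤ ‖s‖ * ‖ζ‖ * ‖β‖ := by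
    have h1 : (s * conj ζ * conj β).re ≤ ‖s‖ * ‖ζ‖ * ‖β‖ := by
      refine (Complex.re_le_norm _).trans (le_of_eq ?_)
      simp
    have h2 : 0 ≤ ‖s‖ * ‖ζ‖ * ‖β‖ := by positivity
    nlinarith
  have k2 : -(‖ζ‖ ^ 2 * ‖β‖ ^ 2) ≤ ρ⁻¹ ^ 2 * (ζ ^ 2 * conj β ^ 2).re := by
    have h1 : -(‖ζ‖ ^ 2 * ‖β‖ ^ 2) ≤ (ζ ^ 2 * conj β ^ 2).re := by
      have := Complex.abs_re_le_norm (ζ ^ 2 * conj β ^ 2)
      have h3 : ‖ζ ^ 2 * conj β ^ 2‖ = ‖ζ‖ ^ 2 * ‖β‖ ^ 2 := by simp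
      rw [h3] at this
      exact (abs_le.1 this).1
    have h2 : 0 ≤ ‖ζ‖ ^ 2 * ‖β‖ ^ 2 := by positivity
    have h4 : ρ⁻¹ ^ 2 ≤ 1 := pow_le_one₀ hr0.le hr
    have h5 : 0 ≤ ρ⁻¹ ^ 2 := by positivity
    nlinarith
  have k3 : ρ⁻¹ * (ζ ^ 2 * conj b).re ≤ ‖ζ‖ ^ 2 * ‖b‖ := by
    have h1 : (ζ ^ 2 * conj b).re ≤ ‖ζ‖ ^ 2 * ‖b‖ := by
      refine (Complex.re_le_norm _).trans (le_of_eq ?_)
      simp
    have h2 : 0 ≤ ‖ζ‖ ^ 2 * ‖b‖ := by positivity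
    nlinarith
  have k4 : 0 ≤ ρ⁻¹ ^ 2 * (‖ζ‖ ^ 2 * ‖β‖ ^ 2) := by positivity
  rw [e]
  linarith

theorem fr_upper {ρ : ℝ} (hρ : 1 ≤ ρ) (τ σ : ℂ) :
    ρ * fr ρ τ σ τ σ ≤ 2 * ‖σ‖ ^ 2 + 12 * (‖σ‖ * ‖τ‖ ^ 2) + 24 * ‖τ‖ ^ 4 := by
  have hρ0 : 0 < ρ := by linarith
  have hr : ρ⁻¹ ≤ 1 := inv_le_one_of_one_le₀ hρ
  have hr0 : 0 < ρ⁻¹ := by positivity
  have e : ρ * fr ρ τ σ τ σ = 2 * ‖σ‖ ^ 2 - 8 * (ρ⁻¹ * (σ * conj τ * conj τ).re)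
      + 8 * (ρ⁻¹ ^ 2 * (τ ^ 2 * conj τ ^ 2).re) - 4 * (ρ⁻¹ * (τ ^ 2 * conj σ).re)
      + 16 * (ρ⁻¹ ^ 2 * (‖τ‖ ^ 2 * ‖τ‖ ^ 2)) := by
    unfold fr
    field_simp
    ring
  have h4 : ρ⁻¹ ^ 2 ≤ 1 := pow_le_one₀ hr0.le hr
  have h5 : 0 ≤ ρ⁻¹ ^ 2 := by positivity
  have hτ4 : ‖τ‖ ^ 2 * ‖τ‖ ^ 2 = ‖τ‖ ^ 4 := by ring
  have h0 : 0 ≤ ‖τ‖ ^ 4 := by positivity
  have h2 : 0 ≤ ‖σ‖ * ‖τ‖ ^ 2 := by positivity
  have k1 : -(‖σ‖ * ‖τ‖ ^ 2) ≤ ρ⁻¹ * (σ * conj τ * conj τ).re := by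
    have h1 : -(‖σ‖ * ‖τ‖ ^ 2) ≤ (σ * conj τ * conj τ).re := by
      have := Complex.abs_re_le_norm (σ * conj τ * conj τ)
      have h3 : ‖σ * conj τ * conj τ‖ = ‖σ‖ * ‖τ‖ ^ 2 := by simp; ring
      rw [h3] at this
      exact (abs_le.1 this).1
    nlinarith
  have k2 : ρ⁻¹ ^ 2 * (τ ^ 2 * conj τ ^ 2).re ≤ ‖τ‖ ^ 4 := by
    have h1 : (τ ^ 2 * conj τ ^ 2).re ≤ ‖τ‖ ^ 4 := by
      refine (Complex.re_le_norm _).trans (le_of_eq ?_)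
      simp; ring
    nlinarith
  have k3 : -(‖σ‖ * ‖τ‖ ^ 2) ≤ ρ⁻¹ * (τ ^ 2 * conj σ).re := by
    have h1 : -(‖σ‖ * ‖τ‖ ^ 2) ≤ (τ ^ 2 * conj σ).re := by
      have := Complex.abs_re_le_norm (τ ^ 2 * conj σ)
      have h3 : ‖τ ^ 2 * conj σ‖ = ‖σ‖ * ‖τ‖ ^ 2 := by simp; ring
      rw [h3] at this
      exact (abs_le.1 this).1
    nlinarith
  have k4 : ρ⁻¹ ^ 2 * (‖τ‖ ^ 2 * ‖τ‖ ^ 2) ≤ ‖τ‖ ^ 4 := by
    rw [hτ4]
    nlinarith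
  rw [e]
  linarith

/-- `∑ |z_i - c x|² = ∑ |z_i|² + (c² - 2c) p |x|²` -/
theorem sum_shift (hp : 2 ≤ p) (z : Fin p → ℂ) (c : ℝ) :
    ∑ i, ‖z i - c * mx z‖ ^ 2 = ∑ i, ‖z i‖ ^ 2 + (c ^ 2 - 2 * c) * (p * ‖mx z‖ ^ 2) := by
  have hp0 : (p : ℝ) ≠ 0 := by positivity
  have h1 : ∀ i, ‖z i - c * mx z‖ ^ 2 = ‖z i‖ ^ 2 - 2 * c * (z i * conj (mx z)).re +
      c ^ 2 * ‖mx z‖ ^ 2 := by
    intro i
    rw [← mul_conj_re, ← mul_conj_re (z i), ← mul_conj_re (mx z)]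
    simp only [map_sub, map_mul, Complex.conj_ofReal, Complex.mul_re, Complex.sub_re,
      Complex.sub_im, Complex.mul_im, Complex.conj_re, Complex.conj_im, Complex.ofReal_re,
      Complex.ofReal_im]
    ring
  have h2 : ∑ i, (z i * conj (mx z)).re = p * ‖mx z‖ ^ 2 := by
    rw [← Complex.re_sum, ← Finset.sum_mul]
    have h3 : ∑ i, z i = ((p : ℝ) : ℂ) * mx z := by
      rw [mx, ← mul_assoc, ← Complex.ofReal_mul, mul_inv_cancel₀ hp0]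
      simp
    rw [h3, mul_assoc, Complex.re_ofReal_mul, mul_conj_re]
  simp only [h1]
  rw [Finset.sum_add_distrib, Finset.sum_sub_distrib, ← Finset.mul_sum, h2]
  simp only [Finset.sum_const, Finset.card_univ, Fintype.card_fin, nsmul_eq_mul]
  ring

/-- the variance controls the values if one of them vanishes -/
theorem var_ge (hp : 2 ≤ p) (z : Fin p → ℂ) (i₀ : Fin p) (h0 : z i₀ = 0) (j : Fin p) :
    ‖z j‖ ^ 2 ≤ 2 * (∑ i, ‖z i‖ ^ 2 - p * ‖mx z‖ ^ 2) := by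
  have h := sum_shift hp z 1
  have e : ∑ i, ‖z i‖ ^ 2 - p * ‖mx z‖ ^ 2 = ∑ i, ‖z i - (1 : ℝ) * mx z‖ ^ 2 := by
    rw [h]; ring
  rw [e]
  by_cases hj : j = i₀
  · rw [hj, h0]
    rw [norm_zero, zero_pow two_ne_zero]
    positivity
  · have h1 : ‖z j - (1 : ℝ) * mx z‖ ^ 2 + ‖z i₀ - (1 : ℝ) * mx z‖ ^ 2 ≤
        ∑ i, ‖z i - (1 : ℝ) * mx z‖ ^ 2 := by
      have := Finset.sum_le_sum_of_subset_of_nonneg (Finset.subset_univ {j, i₀})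
        (f := fun i => ‖z i - (1 : ℝ) * mx z‖ ^ 2) (fun i _ _ => by positivity)
      rwa [Finset.sum_pair hj] at this
    rw [h0] at h1
    have h2 : ‖z j‖ ≤ ‖z j - (1 : ℝ) * mx z‖ + ‖0 - (1 : ℝ) * mx z‖ := by
      have := norm_sub_le (z j - (1 : ℝ) * mx z) (0 - (1 : ℝ) * mx z)
      simpa using this
    have h3 : ‖z j‖ ^ 2 ≤ (‖z j - (1 : ℝ) * mx z‖ + ‖0 - (1 : ℝ) * mx z‖) ^ 2 :=
      pow_le_pow_left₀ (norm_nonneg _) h2 2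
    nlinarith [sq_nonneg (‖z j - (1 : ℝ) * mx z‖ - ‖0 - (1 : ℝ) * mx z‖)]

theorem norm_mx_le (hp : 2 ≤ p) (z : Fin p → ℂ) {a : ℝ} (h : ∀ i, ‖z i‖ ≤ a) : ‖mx z‖ ≤ a := by
  have hp0 : (0 : ℝ) < p := by positivity
  rw [mx, norm_mul, Complex.norm_real, Real.norm_of_nonneg (by positivity)]
  have h1 : ‖∑ i, z i‖ ≤ p * a := by
    refine (norm_sum_le _ _).trans ?_
    refine (Finset.sum_le_sum fun i _ => h i).trans ?_
    simp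
  calc (p : ℝ)⁻¹ * ‖∑ i, z i‖ ≤ (p : ℝ)⁻¹ * (p * a) := mul_le_mul_of_nonneg_left h1 (by positivity)
    _ = a := by field_simp

/-- bounds of a vector -/
def Bd (τ : Fin p → ℂ) (a : ℝ) : Prop := ∀ i, ‖τ i‖ ≤ a

theorem jet_blk (τ σ : Fin p → ℂ) {ρ : ℝ} (hρ : 0 < ρ) :
    VQ (fun ζ => blk ρ (hpath (0 : Fin p → ℝ) τ σ ζ)) 0
      (ρ * (∑ i, fr ρ (τ i + (-2 : ℝ) * mx τ) (σ i + (-2 : ℝ) * mx σ) (τ i + (1 : ℝ) * mx τ)
        (σ i + (1 : ℝ) * mx σ) + -(2 * p) * fr ρ (mx τ) (mx σ) (mx τ) (mx σ))) := by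
  have h1 : ∀ i ∈ (Finset.univ : Finset (Fin p)), VQ (fun ζ => (hpath (0 : Fin p → ℝ) τ σ ζ i +
      (-2) * xav (hpath (0 : Fin p → ℝ) τ σ ζ)) ^ 2 / (ρ + (hpath (0 : Fin p → ℝ) τ σ ζ i +
      1 * xav (hpath (0 : Fin p → ℝ) τ σ ζ)))) 0 (fr ρ (τ i + (-2 : ℝ) * mx τ)
        (σ i + (-2 : ℝ) * mx σ) (τ i + (1 : ℝ) * mx τ) (σ i + (1 : ℝ) * mx σ)) := fun i _ =>
    jet_fr (hol_lin (jet_t τ σ i) (jet_x τ σ) (-2)) (hol_lin (jet_t τ σ i) (jet_x τ σ) 1) hρ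
  have h2 := VQ.sum Finset.univ h1
  have h3 := (jet_fr (jet_x τ σ) (jet_x τ σ) hρ).smul (-(2 * p))
  have h4 := (h2.add h3).smul ρ
  have h5 := h4.congr (ψ := fun ζ => blk ρ (hpath (0 : Fin p → ℝ) τ σ ζ)) (fun ζ => by
    unfold blk
    congr 1
    rw [sub_eq_add_neg]
    congr 1
    · refine Finset.sum_congr rfl fun i _ => ?_
      congr 1
      · ring
      · ring
    · ring)
  convert! h5 using 1
  simp

theorem blk_lower (hp : 2 ≤ p) (τ σ : Fin p → ℂ) {ρ a s : ℝ} (hρ : 1 ≤ ρ) (hτ : Bd τ a)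
    (hσ : Bd σ s) :
    2 * ∑ i, ‖σ i‖ ^ 2 - 4 * (p * ‖mx σ‖ ^ 2) - 400 * p * (a ^ 2 * s) - 400 * p * a ^ 4 ≤
      ρ * (∑ i, fr ρ (τ i + (-2 : ℝ) * mx τ) (σ i + (-2 : ℝ) * mx σ) (τ i + (1 : ℝ) * mx τ)
        (σ i + (1 : ℝ) * mx σ) + -(2 * p) * fr ρ (mx τ) (mx σ) (mx τ) (mx σ)) := by
  have hτx := norm_mx_le hp τ hτ
  have hσx := norm_mx_le hp σ hσ
  have i0 : Fin p := ⟨0, by omega⟩
  have ha : 0 ≤ a := (norm_nonneg _).trans (hτ i0)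
  have hs : 0 ≤ s := (norm_nonneg _).trans (hσ i0)
  have hp0 : (0 : ℝ) < p := by positivity
  have c2 : ‖(-2 : ℝ)‖ = 2 := by norm_num
  have hi : ∀ i, 2 * ‖σ i - (2 : ℝ) * mx σ‖ ^ 2 - 144 * (a ^ 2 * s) - 288 * a ^ 4
      - 72 * (a ^ 2 * s) ≤
      ρ * fr ρ (τ i + (-2 : ℝ) * mx τ) (σ i + (-2 : ℝ) * mx σ) (τ i + (1 : ℝ) * mx τ)
        (σ i + (1 : ℝ) * mx σ) := by
    intro i
    have h := fr_lower hρ (τ i + (-2 : ℝ) * mx τ) (σ i + (-2 : ℝ) * mx σ) (τ i + (1 : ℝ) * mx τ)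
        (σ i + (1 : ℝ) * mx σ)
    have n1 : ‖τ i + (-2 : ℝ) * mx τ‖ ≤ 3 * a := by
      refine (norm_add_le _ _).trans ?_
      rw [norm_mul, Complex.norm_real, c2]
      linarith [hτ i]
    have n2 : ‖σ i + (-2 : ℝ) * mx σ‖ ≤ 3 * s := by
      refine (norm_add_le _ _).trans ?_
      rw [norm_mul, Complex.norm_real, c2]
      linarith [hσ i]
    have n3 : ‖τ i + (1 : ℝ) * mx τ‖ ≤ 2 * a := by
      refine (norm_add_le _ _).trans ?_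
      rw [norm_mul, Complex.norm_real, norm_one]
      linarith [hτ i]
    have n4 : ‖σ i + (1 : ℝ) * mx σ‖ ≤ 2 * s := by
      refine (norm_add_le _ _).trans ?_
      rw [norm_mul, Complex.norm_real, norm_one]
      linarith [hσ i]
    have m1 : ‖σ i + (-2 : ℝ) * mx σ‖ * ‖τ i + (-2 : ℝ) * mx τ‖ * ‖τ i + (1 : ℝ) * mx τ‖ ≤
        3 * s * (3 * a) * (2 * a) := by gcongr
    have m2 : ‖τ i + (-2 : ℝ) * mx τ‖ ^ 2 * ‖τ i + (1 : ℝ) * mx τ‖ ^ 2 ≤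
        (3 * a) ^ 2 * (2 * a) ^ 2 := by gcongr
    have m3 : ‖τ i + (-2 : ℝ) * mx τ‖ ^ 2 * ‖σ i + (1 : ℝ) * mx σ‖ ≤
        (3 * a) ^ 2 * (2 * s) := by gcongr
    have e : σ i - (2 : ℝ) * mx σ = σ i + (-2 : ℝ) * mx σ := by push_cast; ring
    rw [e]
    refine le_trans ?_ h
    nlinarith [m1, m2, m3]
  have hx := fr_upper hρ (mx τ) (mx σ)
  have hx' : ρ * fr ρ (mx τ) (mx σ) (mx τ) (mx σ) ≤ 2 * ‖mx σ‖ ^ 2 + 12 * (a ^ 2 * s) +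
      24 * a ^ 4 := by
    have m1 : ‖mx σ‖ * ‖mx τ‖ ^ 2 ≤ s * a ^ 2 := by gcongr
    have m2 : ‖mx τ‖ ^ 4 ≤ a ^ 4 := by gcongr
    linarith
  have hsum := Finset.sum_le_sum fun i (_ : i ∈ (Finset.univ : Finset (Fin p))) => hi i
  have hsh := sum_shift hp σ 2
  rw [Finset.sum_sub_distrib, Finset.sum_sub_distrib, Finset.sum_sub_distrib, ← Finset.mul_sum,
    ← Finset.mul_sum, hsh] at hsum
  simp only [Finset.sum_const, Finset.card_univ, Fintype.card_fin, nsmul_eq_mul] at hsum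
  have hx'' : 2 * p * (ρ * fr ρ (mx τ) (mx σ) (mx τ) (mx σ)) ≤
      2 * p * (2 * ‖mx σ‖ ^ 2 + 12 * (a ^ 2 * s) + 24 * a ^ 4) :=
    mul_le_mul_of_nonneg_left hx' (by positivity)
  have q1 : 0 ≤ p * (a ^ 2 * s) := by positivity
  have q2 : 0 ≤ p * a ^ 4 := by positivity
  rw [← Finset.mul_sum Finset.univ (fun i => fr ρ (τ i + (-2 : ℝ) * mx τ)
    (σ i + (-2 : ℝ) * mx σ) (τ i + (1 : ℝ) * mx τ) (σ i + (1 : ℝ) * mx σ)) ρ] at hsum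
  rw [mul_add]
  refine le_trans ?_ (add_le_add hsum le_rfl)
  linarith

theorem jet_E0 (hp : 2 ≤ p) {N : ℕ} (hN : 1 ≤ N) (τ σ : Fin p → ℂ) {a s : ℝ} (hτ : Bd τ a)
    (hσ : Bd σ s) : ∃ q : ℝ, VQ (fun ζ => E0 N (hpath (0 : Fin p → ℝ) τ σ ζ)) 0 q ∧
      (∑ i, ‖σ i‖ ^ 2) / 2 - p * ‖mx σ‖ ^ 2 - 100 * p * (a ^ 2 * s) - 100 * p * a ^ 4 ≤ q := by
  have h1 : ∀ m ∈ Finset.range N, _ := fun m _ => jet_blk τ σ (ρ := 2 ^ m) (by positivity)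
  have h2 := (VQ.sum (Finset.range N) h1).smul (1 / (4 * N))
  have h2' := h2.congr (ψ := fun ζ => E0 N (hpath (0 : Fin p → ℝ) τ σ ζ)) (fun ζ => rfl)
  rw [Finset.sum_const_zero, mul_zero] at h2'
  refine ⟨_, h2', ?_⟩
  · have hN0 : (0 : ℝ) < N := by exact_mod_cast hN
    have h3 := Finset.sum_le_sum fun m (_ : m ∈ Finset.range N) =>
      blk_lower hp τ σ (ρ := 2 ^ m) (one_le_pow₀ (by norm_num)) hτ hσ
    rw [Finset.sum_const, Finset.card_range, nsmul_eq_mul] at h3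
    have h4 := mul_le_mul_of_nonneg_left h3 (show (0 : ℝ) ≤ 1 / (4 * N) by positivity)
    refine le_trans (le_of_eq ?_) h4
    field_simp
    ring

/-! ### the function `S0` -/

theorem jet_qhat (τ σ : Fin p → ℂ) : ∃ J : Jet,
    HasJet (fun ζ => qhat (hpath (0 : Fin p → ℝ) τ σ ζ)) J ∧ J.v = 0 ∧ J.a = 0 ∧
      J.h = 2 * (∑ i, ‖τ i‖ ^ 2 - p * ‖mx τ‖ ^ 2) ∧
      J.Q = 2 * (∑ i, ‖σ i‖ ^ 2 - p * ‖mx σ‖ ^ 2) := by
  have h1 := hasJet_sum Finset.univ fun i _ => jet_sq (jet_t τ σ i)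
  have h2 := h1.add ((jet_sq (jet_x τ σ)).smul (-p))
  have h3 : (fun ζ => qhat (hpath (0 : Fin p → ℝ) τ σ ζ)) = fun ζ =>
      ∑ i, hpath (0 : Fin p → ℝ) τ σ ζ i ^ 2 + -p * xav (hpath (0 : Fin p → ℝ) τ σ ζ) ^ 2 := by
    funext ζ
    unfold qhat
    ring
  rw [h3]
  refine ⟨_, h2, ?_, ?_, ?_, ?_⟩
  · simp [Jet.add, Jet.smul, jsum]
  · simp [Jet.add, Jet.smul, jsum]
  · simp only [Jet.add, Jet.smul, jsum]
    rw [← Finset.mul_sum]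
    ring
  · simp only [Jet.add, Jet.smul, jsum]
    rw [← Finset.mul_sum]
    ring

theorem var_nonneg (hp : 2 ≤ p) (z : Fin p → ℂ) : 0 ≤ ∑ i, ‖z i‖ ^ 2 - p * ‖mx z‖ ^ 2 := by
  have h := sum_shift hp z 1
  have e : ∑ i, ‖z i‖ ^ 2 - p * ‖mx z‖ ^ 2 = ∑ i, ‖z i - (1 : ℝ) * mx z‖ ^ 2 := by
    rw [h]; ring
  rw [e]
  positivity

theorem geom_le (r : ℝ) (h0 : 0 ≤ r) (h1 : r < 1) (M : ℕ) :
    ∑ j ∈ Finset.range M, r ^ j ≤ 1 / (1 - r) := by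
  rw [geom_sum_eq h1.ne, ← neg_div_neg_eq, neg_sub, neg_sub]
  refine div_le_div_of_nonneg_right ?_ (by linarith)
  have := pow_nonneg h0 M
  linarith

theorem jet_S0 (hp : 2 ≤ p) (M : ℕ) (τ σ : Fin p → ℂ) : ∃ v q : ℝ,
    VQ (fun ζ => S0 M (hpath (0 : Fin p → ℝ) τ σ ζ)) v q ∧ 0 ≤ v ∧ v ≤ 2 ∧
      8 * M * (∑ i, ‖τ i‖ ^ 2 - p * ‖mx τ‖ ^ 2) ^ 2 -
        8 / 3 * (∑ i, ‖σ i‖ ^ 2 - p * ‖mx σ‖ ^ 2) ≤ q := by
  obtain ⟨J, hJ, hv, ha, hh, hQ⟩ := jet_qhat τ σ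
  set T2 := ∑ i, ‖τ i‖ ^ 2 - p * ‖mx τ‖ ^ 2 with hT2
  set V := ∑ i, ‖σ i‖ ^ 2 - p * ‖mx σ‖ ^ 2 with hV
  have hV0 : 0 ≤ V := var_nonneg hp σ
  have h1 : ∀ j ∈ Finset.range M, VQ (fun ζ => (1 / 16 : ℝ) ^ j *
      Real.exp (-(4 ^ j * qhat (hpath (0 : Fin p → ℝ) τ σ ζ)))) ((1 / 16 : ℝ) ^ j * 1)
      ((1 / 16 : ℝ) ^ j * (-(4 ^ j) * J.Q + (4 ^ j) ^ 2 * (2 * J.h ^ 2 + ‖J.b‖ ^ 2))) := by
    intro j _
    have h2 : VQ (fun ζ => Real.exp (-(4 ^ j * qhat (hpath (0 : Fin p → ℝ) τ σ ζ)))) 1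
        (-(4 ^ j) * J.Q + (4 ^ j) ^ 2 * (2 * J.h ^ 2 + ‖J.b‖ ^ 2)) := by
      refine ⟨_, jet_exp hJ (4 ^ j), ?_, ?_⟩
      · simp [Jet.comp, hv]
      · simp [Jet.comp, hv, ha]
    exact h2.smul _
  have h2 := VQ.sum (Finset.range M) h1
  refine ⟨_, _, h2, ?_, ?_, ?_⟩
  · exact Finset.sum_nonneg fun j _ => by positivity
  · have := geom_le (1 / 16) (by norm_num) (by norm_num) M
    simp only [mul_one]
    refine this.trans (by norm_num)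
  · have h3 : ∀ j ∈ Finset.range M, 8 * T2 ^ 2 - 2 * V * (1 / 4 : ℝ) ^ j ≤
        (1 / 16 : ℝ) ^ j * (-(4 ^ j) * J.Q + (4 ^ j) ^ 2 * (2 * J.h ^ 2 + ‖J.b‖ ^ 2)) := by
      intro j _
      have e1 : (1 / 16 : ℝ) ^ j * (4 ^ j) ^ 2 = 1 := by
        rw [← pow_mul, mul_comm j 2, pow_mul, ← mul_pow]
        norm_num
      have e2 : (1 / 16 : ℝ) ^ j * 4 ^ j = (1 / 4 : ℝ) ^ j := by
        rw [← mul_pow]
        norm_num
      have e3 : (1 / 16 : ℝ) ^ j * (-(4 ^ j) * J.Q + (4 ^ j) ^ 2 * (2 * J.h ^ 2 + ‖J.b‖ ^ 2)) =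
          -((1 / 4 : ℝ) ^ j) * J.Q + (2 * J.h ^ 2 + ‖J.b‖ ^ 2) := by
        rw [← e2]
        linear_combination (2 * J.h ^ 2 + ‖J.b‖ ^ 2) * e1
      rw [e3, hh, hQ]
      have : 0 ≤ ‖J.b‖ ^ 2 := by positivity
      nlinarith
    have h4 := Finset.sum_le_sum h3
    rw [Finset.sum_sub_distrib, Finset.sum_const, Finset.card_range, nsmul_eq_mul,
      ← Finset.mul_sum (Finset.range M) (fun j => (1 / 4 : ℝ) ^ j) (2 * V)] at h4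
    have h5 := geom_le (1 / 4) (by norm_num) (by norm_num) M
    have h6 : 2 * V * ∑ j ∈ Finset.range M, (1 / 4 : ℝ) ^ j ≤ 2 * V * (1 / (1 - 1 / 4)) :=
      mul_le_mul_of_nonneg_left h5 (by positivity)
    have h7 : 2 * V * (1 / (1 - 1 / 4)) = 8 / 3 * V := by ring
    refine le_trans ?_ h4
    rw [h7] at h6
    linarith

/-! ### the function `wq` -/

theorem jet_wq (τ σ : Fin p → ℂ) :
    VQ (fun ζ => wq (hpath (0 : Fin p → ℝ) τ σ ζ)) 0 (24 * ‖mx τ‖ ^ 4) := by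
  have hx := jet_x τ σ
  have h1 := (jet_sq hx).mul (jet_sq hx)
  have h2 : HasJet (fun ζ => xav (hpath (0 : Fin p → ℝ) τ σ ζ) ^ 4)
      ⟨0, 0, 24 * ‖mx τ‖ ^ 4, 0, 0, 0⟩ := by
    have e : (fun ζ => xav (hpath (0 : Fin p → ℝ) τ σ ζ) ^ 2 *
        xav (hpath (0 : Fin p → ℝ) τ σ ζ) ^ 2) =
        fun ζ => xav (hpath (0 : Fin p → ℝ) τ σ ζ) ^ 4 := by
      funext ζ; ring
    rw [e] at h1
    convert! h1 using 1
    refine Jet.ext ?_ ?_ ?_ ?_ ?_ ?_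
    · simp [Jet.mul]
    · simp [Jet.mul]
    · simp only [Jet.mul]
      have e1 : 2 * mx τ ^ 2 * conj (2 * mx τ ^ 2) = ((4 * ‖mx τ‖ ^ 4 : ℝ) : ℂ) := by
        rw [Complex.mul_conj, Complex.normSq_eq_norm_sq]
        simp only [norm_mul, norm_pow, Complex.norm_ofNat]
        push_cast
        ring
      rw [e1, Complex.ofReal_re]
      simp only [zero_mul, mul_zero, map_zero, Complex.zero_re]
      ring
    · simp [Jet.mul]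
    · simp [Jet.mul]
    · simp [Jet.mul]
  have hv : xav (hpath (0 : Fin p → ℝ) τ σ 0) = 0 := by
    have := hx.2.1
    simpa [Jet.hol] using this
  have hc := hx.1
  have h3 : ContDiffAt ℝ 4 (fun ζ => ((1 + xav (hpath (0 : Fin p → ℝ) τ σ ζ)) ^ 2)⁻¹) 0 := by
    refine ContDiffAt.inv ((contDiffAt_const.add hc).pow 2) ?_
    simp [hv]
  exact (VQ.flat h2 h3 (by simp [hv])).congr fun ζ => by
    unfold wq
    rw [div_eq_mul_inv]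

/-! ### smoothness -/

theorem smooth_xav : ContDiff ℝ 4 (xav : (Fin p → ℝ) → ℝ) := by
  unfold xav
  fun_prop

theorem smooth_Wm (N M : ℕ) (ε₁ δ : ℝ) : ContDiffAt ℝ 4 (Wm N M ε₁ δ : (Fin p → ℝ) → ℝ) 0 := by
  have hx : ContDiffAt ℝ 4 (xav : (Fin p → ℝ) → ℝ) 0 := smooth_xav.contDiffAt
  have hx0 : xav (0 : Fin p → ℝ) = 0 := by simp [xav]
  have ht : ∀ i, ContDiffAt ℝ 4 (fun t : Fin p → ℝ => t i) 0 := fun i => by fun_prop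
  have hE : ContDiffAt ℝ 4 (E0 N : (Fin p → ℝ) → ℝ) 0 := by
    unfold E0
    refine contDiffAt_const.mul (ContDiffAt.sum fun m _ => ?_)
    unfold blk
    refine contDiffAt_const.mul (ContDiffAt.sub (ContDiffAt.sum fun i _ => ?_) ?_)
    · refine ContDiffAt.div (((ht i).sub (contDiffAt_const.mul hx)).pow 2)
        ((contDiffAt_const.add (ht i)).add hx) ?_
      simp [hx0]
    · refine ContDiffAt.div (contDiffAt_const.mul (hx.pow 2)) (contDiffAt_const.add hx) ?_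
      simp [hx0]
  have hw : ContDiffAt ℝ 4 (wq : (Fin p → ℝ) → ℝ) 0 := by
    unfold wq
    refine ContDiffAt.div (hx.pow 4) ((contDiffAt_const.add hx).pow 2) ?_
    simp [hx0]
  have hq : ContDiffAt ℝ 4 (qhat : (Fin p → ℝ) → ℝ) 0 := by
    unfold qhat
    exact (ContDiffAt.sum fun i _ => (ht i).pow 2).sub (contDiffAt_const.mul (hx.pow 2))
  have hS : ContDiffAt ℝ 4 (S0 M : (Fin p → ℝ) → ℝ) 0 := by
    unfold S0
    refine ContDiffAt.sum fun j _ => contDiffAt_const.mul ?_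
    exact (contDiffAt_const.mul hq).neg.exp
  have hm : ContDiffAt ℝ 4 (fun t : Fin p → ℝ => mcut p (2 ^ N) (xav t)) 0 := by
    unfold mcut
    refine contDiffAt_const.sub ((contDiffAt_const.sub ?_).pow 4)
    exact ((contDiffAt_const.mul hx).div_const _).neg.exp
  unfold Wm
  refine ContDiffAt.add (ContDiffAt.div_const (hx.neg.exp.mul
    (ContDiffAt.sum fun i _ => (ht i).pow 3)) _) (hm.mul ((hE.add (contDiffAt_const.mul hw)).add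
      (contDiffAt_const.mul hS)))

/-! ### assembly -/

/-- the final inequality -/
theorem final_arith {P T2 V a s : ℝ} (hT : 0 ≤ T2) (hV : 0 ≤ V) (ha2 : a ^ 2 = 2 * T2)
    (hs2 : s ^ 2 = 2 * V) {L D A B : ℝ} (hD0 : 0 ≤ D) (hD : D ≤ 1 / 16) {m : ℝ}
    (hm : 4 * |L| + 80000 * P ^ 2 + 4 * A ≤ 8 * m * D)
    (hB : V - 8 / 3 * D * V - 100 * P * (a ^ 2 * s) - A * a ^ 4 + 8 * m * D * T2 ^ 2 ≤ B)
    {x y : ℝ} (hx : x ^ 2 ≤ 2 * T2) (hy : y ^ 2 ≤ 2 * V) :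
    L * x ^ 4 + y ^ 2 / 8 ≤ B := by
  have h1 : L * x ^ 4 ≤ |L| * (4 * T2 ^ 2) := by
    have e : x ^ 4 = (x ^ 2) ^ 2 := by ring
    have e1 : x ^ 4 ≤ 4 * T2 ^ 2 := by
      rw [e]
      calc (x ^ 2) ^ 2 ≤ (2 * T2) ^ 2 := pow_le_pow_left₀ (by positivity) hx 2
        _ = 4 * T2 ^ 2 := by ring
    have e2 : 0 ≤ x ^ 4 := by positivity
    calc L * x ^ 4 ≤ |L| * x ^ 4 := mul_le_mul_of_nonneg_right (le_abs_self L) e2
      _ ≤ _ := mul_le_mul_of_nonneg_left e1 (abs_nonneg L)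
  have h2 : y ^ 2 / 8 ≤ V / 4 := by linarith
  have h3 : 100 * P * (a ^ 2 * s) ≤ V / 4 + 80000 * P ^ 2 * T2 ^ 2 := by
    rw [ha2]
    nlinarith [sq_nonneg (s - 800 * P * T2)]
  have h4 : A * a ^ 4 = 4 * A * T2 ^ 2 := by
    have : a ^ 4 = (a ^ 2) ^ 2 := by ring
    rw [this, ha2]
    ring
  have h5 : 8 / 3 * D * V ≤ V / 6 := by nlinarith
  have h6 : (4 * |L| + 80000 * P ^ 2 + 4 * A) * T2 ^ 2 ≤ 8 * m * D * T2 ^ 2 :=
    mul_le_mul_of_nonneg_right hm (by positivity)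
  linarith

end T8aux

open T8aux in
theorem Wm_vert_Q {p : ℕ} (hp : 2 ≤ p) {N : ℕ} (hN : 1 ≤ N) {ε₁ δ : ℝ} (h0 : 0 ≤ ε₁) (h1 : ε₁ ≤ 1)
    (hδ : 0 < δ) (hδ' : δ ≤ 1 / 16) (L : ℝ) :
    ∃ M : ℕ, ∀ (i₀ : Fin p) (τ σ : Fin p → ℂ), τ i₀ = 0 → σ i₀ = 0 → ∀ i j,
      L * ‖τ i‖ ^ 4 + ‖σ j‖ ^ 2 / 8
        ≤ ∑ i, QF (2 ^ N) 0 (τ i) (σ i) + holQ (Wm N M ε₁ δ) 0 τ σ := by
  have hN0 : (0 : ℝ) < N := by exact_mod_cast hN
  have hN1 : (1 : ℝ) ≤ N := by exact_mod_cast hN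
  have hp0 : (0 : ℝ) < p := by positivity
  set D : ℝ := δ / N with hD
  have hD0 : 0 < D := by positivity
  have hD1 : D ≤ 1 / 16 := by
    refine le_trans ?_ hδ'
    exact div_le_self hδ.le hN1
  set A : ℝ := 103 * p + 3 * (8 * p) ^ 4 with hA
  obtain ⟨M, hM⟩ := exists_nat_ge ((4 * |L| + 80000 * (p : ℝ) ^ 2 + 4 * A) / (8 * D))
  rw [div_le_iff₀ (by positivity)] at hM
  refine ⟨M, fun i₀ τ σ hτ0 hσ0 i j => ?_⟩
  set T2 := ∑ i, ‖τ i‖ ^ 2 - p * ‖mx τ‖ ^ 2 with hT2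
  set V := ∑ i, ‖σ i‖ ^ 2 - p * ‖mx σ‖ ^ 2 with hV
  have hT0 : 0 ≤ T2 := var_nonneg hp τ
  have hV0 : 0 ≤ V := var_nonneg hp σ
  have hτ2 : ∀ i, ‖τ i‖ ^ 2 ≤ 2 * T2 := fun i => var_ge hp τ i₀ hτ0 i
  have hσ2 : ∀ i, ‖σ i‖ ^ 2 ≤ 2 * V := fun i => var_ge hp σ i₀ hσ0 i
  have hτa : Bd τ (√(2 * T2)) := fun i => Real.le_sqrt_of_sq_le (hτ2 i)
  have hσs : Bd σ (√(2 * V)) := fun i => Real.le_sqrt_of_sq_le (hσ2 i)
  set a := √(2 * T2) with ha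
  set s := √(2 * V) with hs
  have ha2 : a ^ 2 = 2 * T2 := Real.sq_sqrt (by positivity)
  have hs2 : s ^ 2 = 2 * V := Real.sq_sqrt (by positivity)
  have ha0 : 0 ≤ a := Real.sqrt_nonneg _
  have hs0 : 0 ≤ s := Real.sqrt_nonneg _
  have hax := norm_mx_le hp τ hτa
  -- jets
  obtain ⟨qE, hE, hE'⟩ := jet_E0 hp hN τ σ hτa hσs
  obtain ⟨vS, qS, hS, hS0, hS1, hS'⟩ := jet_S0 hp M τ σ
  have hG := (hE.add ((jet_wq τ σ).smul (ε₁ / N))).add (hS.smul D)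
  have hcut := hG.cut (jet_mcut (jet_x τ σ) p (2 ^ N))
  have hAq := (jetA τ σ).smul ((8 * 2 ^ N)⁻¹)
  have hW := hAq.add hcut
  have hW' := hW.congr (ψ := fun ζ => Wm N M ε₁ δ (hpath (0 : Fin p → ℝ) τ σ ζ)) (fun ζ => by
    unfold Wm
    rw [one_mul, hD]
    ring)
  obtain ⟨J, hJ, -, hJQ⟩ := hW'
  have hq := (holQ_eq_of_hasJet (smooth_Wm N M ε₁ δ) hJ).1
  rw [hq, hJQ]
  -- the one variable functions
  set R : ℝ := 2 ^ N with hR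
  have hR1 : 1 ≤ R := one_le_pow₀ (by norm_num)
  have hR0 : 0 < R := by linarith
  have hQF : ∑ i, QF R 0 (τ i) (σ i) = 5 / (4 * R ^ 2) * ∑ i, ‖τ i‖ ^ 4
      - 3 / (2 * R) * ∑ i, ((conj (τ i)) ^ 2 * σ i).re + (∑ i, ‖σ i‖ ^ 2) / 2 := by
    rw [Finset.mul_sum, Finset.mul_sum, Finset.sum_div, ← Finset.sum_sub_distrib,
      ← Finset.sum_add_distrib]
    refine Finset.sum_congr rfl fun i _ => ?_
    simp only [QF, F4, F3, F2, zero_div, mul_zero, neg_zero, Real.exp_zero]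
    field_simp
    ring
  rw [hQF]
  -- the bounds
  have b1 : (mx τ * conj (∑ i, (‖τ i‖ ^ 2 : ℝ) * τ i)).re ≤ p * a ^ 4 := by
    refine (Complex.re_le_norm _).trans ?_
    rw [norm_mul, Complex.norm_conj]
    have h2 : ‖∑ i, ((‖τ i‖ ^ 2 : ℝ) : ℂ) * τ i‖ ≤ p * a ^ 3 := by
      refine (norm_sum_le _ _).trans ?_
      have : ∀ i ∈ (Finset.univ : Finset (Fin p)), ‖((‖τ i‖ ^ 2 : ℝ) : ℂ) * τ i‖ ≤ a ^ 3 := by
        intro i _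
        rw [norm_mul, Complex.norm_real, Real.norm_of_nonneg (by positivity)]
        have e : ‖τ i‖ ^ 2 * ‖τ i‖ = ‖τ i‖ ^ 3 := by ring
        rw [e]
        exact pow_le_pow_left₀ (norm_nonneg _) (hτa i) 3
      refine (Finset.sum_le_sum this).trans ?_
      simp
    calc ‖mx τ‖ * ‖∑ i, ((‖τ i‖ ^ 2 : ℝ) : ℂ) * τ i‖ ≤ a * (p * a ^ 3) := by gcongr
      _ = p * a ^ 4 := by ring
  have b2 : ‖mx τ‖ ^ 4 ≤ a ^ 4 := pow_le_pow_left₀ (norm_nonneg _) hax 4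
  have b3 : (8 * (p : ℝ) / R) ^ 4 ≤ (8 * p) ^ 4 :=
    pow_le_pow_left₀ (by positivity) (div_le_self (by positivity) hR1) 4
  have b4 : 24 * (8 * (p : ℝ) / R) ^ 4 * ‖mx τ‖ ^ 4 * (D * vS) ≤ 3 * (8 * p) ^ 4 * a ^ 4 := by
    have h3 : D * vS ≤ 1 / 8 := by
      calc D * vS ≤ (1 / 16) * 2 := by gcongr
        _ = 1 / 8 := by norm_num
    have h4 : 0 ≤ D * vS := by positivity
    calc 24 * (8 * (p : ℝ) / R) ^ 4 * ‖mx τ‖ ^ 4 * (D * vS)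
        ≤ 24 * (8 * (p : ℝ)) ^ 4 * a ^ 4 * (1 / 8) := by gcongr
      _ = 3 * (8 * p) ^ 4 * a ^ 4 := by ring
  have b5 : 3 / R * (mx τ * conj (∑ i, (‖τ i‖ ^ 2 : ℝ) * τ i)).re ≤ 3 * (p * a ^ 4) := by
    calc 3 / R * (mx τ * conj (∑ i, (‖τ i‖ ^ 2 : ℝ) * τ i)).re ≤ 3 / R * (p * a ^ 4) :=
          mul_le_mul_of_nonneg_left b1 (by positivity)
      _ ≤ 3 * (p * a ^ 4) := mul_le_mul_of_nonneg_right (div_le_self (by norm_num) hR1)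
          (by positivity)
  have b6 : 0 ≤ 5 / (4 * R ^ 2) * ∑ i, ‖τ i‖ ^ 4 := by positivity
  have b7 : 0 ≤ ε₁ / N * (24 * ‖mx τ‖ ^ 4) := by positivity
  have b8 : D * (8 * M * T2 ^ 2 - 8 / 3 * V) ≤ D * qS := mul_le_mul_of_nonneg_left hS' hD0.le
  refine final_arith (P := p) (T2 := T2) (V := V) (a := a) (s := s) (D := D) (A := A) (m := M)
    hT0 hV0 ha2 hs2 hD0.le hD1 (by linarith) ?_ (hτ2 i) (hσ2 j)
  have e1 : (8 * R)⁻¹ * (12 * ∑ i, ((conj (τ i)) ^ 2 * σ i).re -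
        24 * (mx τ * conj (∑ i, (‖τ i‖ ^ 2 : ℝ) * τ i)).re) =
      3 / (2 * R) * ∑ i, ((conj (τ i)) ^ 2 * σ i).re -
        3 / R * (mx τ * conj (∑ i, (‖τ i‖ ^ 2 : ℝ) * τ i)).re := by
    field_simp
    ring
  rw [e1, hA]
  have e2 : -24 * (8 * (p : ℝ) / R) ^ 4 * ‖mx τ‖ ^ 4 * (0 + ε₁ / N * 0 + D * vS) =
      -(24 * (8 * (p : ℝ) / R) ^ 4 * ‖mx τ‖ ^ 4 * (D * vS)) := by ring
  rw [e2]
  linarith

end

end Pool.Agent.H789.HSC
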