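import Pool.Agent.H789.HSC.ConeDefs
import Pool.Agent.H789.HSC.JetCalc
import Pool.Agent.H789.HSC.T6
import Pool.Agent.H789.HSC.T8
import Pool.Agent.H789.HSC.T9
import Pool.Agent.H789.HSC.T7
import Pool.Agent.H789.HSC.T11
import Pool.Agent.H789.HSC.T10

/-! Existence of the model function. -/

open scoped BigOperators ContDiff ComplexConjugate

namespace Pool.Agent.H789.HSC

noncomputable section

/-! assembly -/

theorem exists_model {p k : ℕ} (hp : 2 ≤ p) (hk : 2 * k + 1 ≤ p) :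
    ∃ ca : ℝ, 0 < ca ∧ ∃ Ca : ℝ, ∀ L : ℝ, ∃ R : ℝ, 2 ≤ R ∧ ∃ W : (Fin p → ℝ) → ℝ,
      IsModel p k ca Ca L R W := by
  obtain ⟨ε₁, h0, h1, δ₀, hδ₀, N₀, H⟩ := Wm_cone hp hk
  obtain ⟨cp, hcp, δ₁, hδ₁, N₁, H1⟩ := Wm_mono hp h0 h1
  obtain ⟨N₂, hN₂⟩ : ∃ N₂ : ℕ, 4 * p < 2 ^ N₂ := ⟨4 * p, Nat.lt_two_pow_self⟩
  set δ : ℝ := min (min δ₀ δ₁) (1 / 16) with hδdef
  have hδ : 0 < δ := by positivity
  have hδa : δ ≤ δ₀ := (min_le_left _ _).trans (min_le_left _ _)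
  have hδb : δ ≤ δ₁ := (min_le_left _ _).trans (min_le_right _ _)
  have hδc : δ ≤ 1 / 16 := min_le_right _ _
  set N : ℕ := max (max N₀ N₁) (max N₂ 1) with hN
  have hN0 : N₀ ≤ N := (le_max_left _ _).trans (le_max_left _ _)
  have hN1 : N₁ ≤ N := (le_max_right _ _).trans (le_max_left _ _)
  have hN2 : N₂ ≤ N := (le_max_left _ _).trans (le_max_right _ _)
  have hN3 : 1 ≤ N := (le_max_right _ _).trans (le_max_right _ _)
  have hN4 : 4 * p < 2 ^ N := hN₂.trans_le (Nat.pow_le_pow_right (by norm_num) hN2)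
  obtain ⟨Ca, hCa⟩ := Wm_vert_a hp hN3 ε₁ δ
  have hNpos : (0 : ℝ) < N := by exact_mod_cast hN3
  refine ⟨cp * ε₁ / N, by positivity, Ca, fun L => ?_⟩
  obtain ⟨M, hM⟩ := Wm_vert_Q hp hN3 h0.le h1 hδ hδc L
  have h2N : (2 : ℝ) ≤ 2 ^ N := by
    calc (2 : ℝ) = 2 ^ 1 := by norm_num
      _ ≤ 2 ^ N := pow_le_pow_right₀ (by norm_num) hN3
  refine ⟨2 ^ N, h2N, Wm N M ε₁ δ, ⟨one_le_pow₀ (by norm_num), fun t ht => Wm_smooth (by omega) N M ε₁ δ t ht,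
    Wm_bound hp hN4 M ε₁ δ, fun t ht i => H1 N hN1 δ hδ.le hδb M t ht i,
    H N hN0 δ hδ.le hδa M, hCa M, hM⟩⟩

end

end Pool.Agent.H789.HSC
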