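import Pool.Agent.H789.HSC.KDefs

/-! General position. -/

open scoped BigOperators

namespace Pool.Agent.H789.HSC

noncomputable section

variable {n q : ℕ}

namespace T4aux

/-- a vector is determined by `n+1` of the values -/
theorem eq_zero (L : Fin q → Fin (n + 1) → ℂ) (hL : GenPos L) (S : Finset (Fin q))
    (hS : n + 1 ≤ S.card) (x : Fin (n + 1) → ℂ) (h : ∀ i ∈ S, lform (L i) x = 0) : x = 0 := by
  obtain ⟨S', hS', hc⟩ := Finset.exists_subset_card_eq hS
  have hli := hL S' hc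
  have hspan : Submodule.span ℂ (Set.range fun i : S' => L i) = ⊤ := by
    apply hli.span_eq_top_of_card_eq_finrank'
    simp [hc]
  let φ : (Fin (n + 1) → ℂ) →ₗ[ℂ] ℂ :=
    { toFun := fun v => lform v x
      map_add' := fun v w => by simp [lform, add_mul, Finset.sum_add_distrib]
      map_smul' := fun r v => by simp [lform, Finset.mul_sum, mul_assoc] }
  have hφ : φ = 0 := by
    apply LinearMap.ext_on hspan
    rintro v ⟨i, rfl⟩
    exact h i.1 (hS' i.2)
  funext j
  have h1 : φ (Pi.single j 1) = 0 := by rw [hφ]; rfl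
  have h2 : φ (Pi.single j 1) = x j := by
    simp [φ, lform, Pi.single_apply]
  rw [← h2, h1]
  rfl

/-- the restriction of the forms to a set -/
def ev (L : Fin q → Fin (n + 1) → ℂ) (S : Finset (Fin q)) :
    (Fin (n + 1) → ℂ) →ₗ[ℂ] (S → ℂ) where
  toFun x i := lform (L i) x
  map_add' x y := by
    funext i
    simp [lform, mul_add, Finset.sum_add_distrib]
  map_smul' r x := by
    funext i
    simp only [lform, Pi.smul_apply, smul_eq_mul, Finset.mul_sum, RingHom.id_apply]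
    exact Finset.sum_congr rfl fun j _ => by ring

theorem exK (L : Fin q → Fin (n + 1) → ℂ) (hL : GenPos L) (S : Finset (Fin q)) :
    ∃ K : ℝ, 0 ≤ K ∧ (S.card = n + 1 → ∀ x, ‖x‖ ≤ K * ‖ev L S x‖) := by
  by_cases hS : S.card = n + 1
  · have hker : (ev L S).ker = ⊥ := by
      rw [LinearMap.ker_eq_bot']
      intro x hx
      refine eq_zero L hL S hS.ge x fun i hi => ?_
      exact congrFun hx ⟨i, hi⟩
    obtain ⟨K, hK0, hK⟩ := (ev L S).exists_antilipschitzWith hker
    refine ⟨K, K.2, fun _ x => ?_⟩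
    have := hK.le_mul_dist x 0
    simpa [dist_eq_norm] using this
  · exact ⟨0, le_rfl, fun h => absurd h hS⟩

theorem lform_le (L : Fin q → Fin (n + 1) → ℂ) (j : Fin q) (x : Fin (n + 1) → ℂ) :
    ‖lform (L j) x‖ ≤ (∑ i, ∑ k, ‖L i k‖) * ‖x‖ := by
  calc ‖lform (L j) x‖ ≤ ∑ k, ‖L j k * x k‖ := norm_sum_le _ _
    _ ≤ ∑ k, ‖L j k‖ * ‖x‖ := by
        refine Finset.sum_le_sum fun k _ => ?_
        rw [norm_mul]
        exact mul_le_mul_of_nonneg_left (norm_le_pi_norm x k) (norm_nonneg _)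
    _ = (∑ k, ‖L j k‖) * ‖x‖ := by rw [Finset.sum_mul]
    _ ≤ _ := by
        refine mul_le_mul_of_nonneg_right ?_ (norm_nonneg _)
        exact Finset.single_le_sum (f := fun i => ∑ k, ‖L i k‖)
          (fun _ _ => Finset.sum_nonneg fun _ _ => norm_nonneg _) (Finset.mem_univ j)

end T4aux

open T4aux

/-- at every point at least `n+1` of the forms are comparable to the largest one -/
theorem fan (hq : 2 * n + 1 ≤ q) (L : Fin q → Fin (n + 1) → ℂ) (hL : GenPos L) :
    ∃ c : ℝ, 0 < c ∧ ∀ x : Fin (n + 1) → ℂ,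
      n + 1 ≤ (Finset.univ.filter fun i => ∀ j, c * ‖lform (L j) x‖ ≤ ‖lform (L i) x‖).card := by
  choose K hK0 hK using exK L hL
  obtain ⟨KK, hKK⟩ : ∃ KK : ℝ, KK = ∑ S, K S + 1 := ⟨_, rfl⟩
  have hKK0 : 0 < KK := by
    have : 0 ≤ ∑ S, K S := Finset.sum_nonneg fun S _ => hK0 S
    linarith
  have hKS : ∀ S, K S ≤ KK := by
    intro S
    have := Finset.single_le_sum (f := K) (fun S _ => hK0 S) (Finset.mem_univ S)
    linarith
  obtain ⟨C, hC⟩ : ∃ C : ℝ, C = (∑ i, ∑ k, ‖L i k‖) + 1 := ⟨_, rfl⟩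
  have hC0 : 0 < C := by
    have : 0 ≤ ∑ i, ∑ k, ‖L i k‖ := Finset.sum_nonneg fun _ _ =>
      Finset.sum_nonneg fun _ _ => norm_nonneg _
    linarith
  refine ⟨1 / (2 * C * KK), by positivity, fun x => ?_⟩
  by_cases hx : x = 0
  · subst hx
    have : (Finset.univ.filter fun i : Fin q => ∀ j, 1 / (2 * C * KK) * ‖lform (L j) (0 : Fin (n + 1) → ℂ)‖ ≤
        ‖lform (L i) (0 : Fin (n + 1) → ℂ)‖) = Finset.univ := by
      ext i
      simp [lform]
    rw [this, Finset.card_univ, Fintype.card_fin]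
    omega
  by_contra hcon
  push Not at hcon
  obtain ⟨I, hI⟩ : ∃ I, I = (Finset.univ.filter fun i : Fin q => ∀ j, 1 / (2 * C * KK) * ‖lform (L j) x‖ ≤
        ‖lform (L i) x‖) := ⟨_, rfl⟩
  rw [← hI] at hcon
  have hcard : n + 1 ≤ Iᶜ.card := by
    rw [Finset.card_compl, Fintype.card_fin]
    omega
  obtain ⟨S, hS, hSc⟩ := Finset.exists_subset_card_eq hcard
  have hxn : 0 < ‖x‖ := norm_pos_iff.2 hx
  have h1 : ‖ev L S x‖ ≤ 1 / (2 * C * KK) * (C * ‖x‖) := by
    rw [pi_norm_le_iff_of_nonneg (by positivity)]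
    intro i
    have hi := hS i.2
    rw [hI, Finset.mem_compl, Finset.mem_filter] at hi
    push Not at hi
    obtain ⟨j, hj⟩ := hi (Finset.mem_univ _)
    refine hj.le.trans (mul_le_mul_of_nonneg_left ?_ (by positivity))
    refine (lform_le L j x).trans (mul_le_mul_of_nonneg_right (by linarith) (norm_nonneg _))
  have h2 := hK S hSc x
  have h3 : ‖x‖ ≤ KK * (1 / (2 * C * KK) * (C * ‖x‖)) := by
    calc ‖x‖ ≤ K S * ‖ev L S x‖ := h2
      _ ≤ KK * ‖ev L S x‖ := mul_le_mul_of_nonneg_right (hKS S) (norm_nonneg _)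
      _ ≤ _ := mul_le_mul_of_nonneg_left h1 hKK0.le
  have h4 : KK * (1 / (2 * C * KK) * (C * ‖x‖)) = ‖x‖ / 2 := by
    field_simp
  linarith

/-- a vector is determined by `n+1` of the values -/
theorem eq_zero_of_lform (L : Fin q → Fin (n + 1) → ℂ) (hL : GenPos L) (S : Finset (Fin q))
    (hS : n + 1 ≤ S.card) (x : Fin (n + 1) → ℂ) (h : ∀ i ∈ S, lform (L i) x = 0) : x = 0 :=
  eq_zero L hL S hS x h

end

end Pool.Agent.H789.HSC
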