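import Mathlib

/-!
Definitions used in the statement of the main theorem for MP_7c31d9_gt: Kaehler metrics on subsets
of `ℂ^n`, their curvature tensor and holomorphic sectional curvature; hyperplanes in general
position in `P^n` and the complement of their union.
-/

open scoped BigOperators ContDiff ComplexConjugate ComplexOrder Topology

namespace Pool.Agent.H789.HSC

noncomputable section

variable {n q : ℕ}

/-- `∂f/∂z_k` for a real differentiable function `f : ℂ^n → ℂ` -/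
def cpd (f : (Fin n → ℂ) → ℂ) (k : Fin n) (z : Fin n → ℂ) : ℂ :=
  (fderiv ℝ f z (Pi.single k 1) - Complex.I * fderiv ℝ f z (Pi.single k Complex.I)) / 2

/-- `∂f/∂z̄_k` -/
def cpdb (f : (Fin n → ℂ) → ℂ) (k : Fin n) (z : Fin n → ℂ) : ℂ :=
  (fderiv ℝ f z (Pi.single k 1) + Complex.I * fderiv ℝ f z (Pi.single k Complex.I)) / 2

/-- A Kaehler metric on an (open) subset `Ω` of `ℂ^n`: a smooth Hermitian positive definite matrix
valued function `g` on `Ω` (the metric is `∑ g i j dz_i ⊗ dz̄_j`) whose associated `(1,1)`-form is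
closed. -/
structure KahlerMetricOn (Ω : Set (Fin n → ℂ)) where
  g : (Fin n → ℂ) → Matrix (Fin n) (Fin n) ℂ
  smooth : ∀ i j, ContDiffOn ℝ ∞ (fun z => g z i j) Ω
  posDef : ∀ z ∈ Ω, (g z).PosDef
  closed : ∀ z ∈ Ω, ∀ i j k, cpd (fun w => g w i j) k z = cpd (fun w => g w k j) i z

/-- `|v|^2 = ∑ g_{ij̄} v_i v̄_j` -/
def metricSq (g : (Fin n → ℂ) → Matrix (Fin n) (Fin n) ℂ) (z v : Fin n → ℂ) : ℝ :=
  (∑ i, ∑ j, g z i j * v i * conj (v j)).re

/-- curvature tensor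
`R_{i j̄ k l̄} = - ∂_k ∂_l̄ g_{i j̄} + ∑_{a b} ∂_k g_{i ā} (g⁻¹)_{a b} ∂_l̄ g_{b j̄}` -/
def curv (g : (Fin n → ℂ) → Matrix (Fin n) (Fin n) ℂ) (z : Fin n → ℂ) (i j k l : Fin n) : ℂ :=
  - cpd (fun w => cpdb (fun y => g y i j) l w) k z
    + ∑ a, ∑ b, cpd (fun w => g w i a) k z * (g z)⁻¹ a b * cpdb (fun w => g w b j) l z

/-- holomorphic sectional curvature `R(v, v̄, v, v̄) / |v|^4` -/
def hsc (g : (Fin n → ℂ) → Matrix (Fin n) (Fin n) ℂ) (z v : Fin n → ℂ) : ℝ :=
  (∑ i, ∑ j, ∑ k, ∑ l, curv g z i j k l * v i * conj (v j) * v k * conj (v l)).re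
    / metricSq g z v ^ 2

/-- linear form on `ℂ^(n+1)` with coefficient vector `L` -/
def lform (L : Fin (n + 1) → ℂ) (x : Fin (n + 1) → ℂ) : ℂ := ∑ j, L j * x j

/-- general position: any `n + 1` of the forms are linearly independent -/
def GenPos (L : Fin q → Fin (n + 1) → ℂ) : Prop :=
  ∀ S : Finset (Fin q), S.card = n + 1 → LinearIndependent ℂ (fun i : S => L i)

/-- the complement in `P^n` of the hyperplanes `L_i = 0` -/
def projCompl (L : Fin q → Fin (n + 1) → ℂ) : Set (Projectivization ℂ (Fin (n + 1) → ℂ)) :=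
  {P | ∀ i, lform (L i) P.rep ≠ 0}

/-- linear coordinates `T` of `ℂ^(n+1)` in which the linear form `L₀` is the first coordinate -/
structure Coord (L₀ : Fin (n + 1) → ℂ) where
  T : (Fin (n + 1) → ℂ) ≃ₗ[ℂ] (Fin (n + 1) → ℂ)
  first : ∀ x, lform L₀ (T x) = x 0

/-- the vector `T (1, z)`; `z ↦ [T (1, z)]` is the affine chart of `P^n` whose hyperplane at
infinity is `L₀ = 0` -/
def Coord.pt {L₀ : Fin (n + 1) → ℂ} (c : Coord L₀) (z : Fin n → ℂ) : Fin (n + 1) → ℂ :=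
  c.T (Fin.cons 1 z)

/-- the complement of the hyperplanes `L_i = 0`, seen in the chart `z ↦ [T (1, z)]` -/
def affCompl (L : Fin q → Fin (n + 1) → ℂ) {L₀ : Fin (n + 1) → ℂ} (c : Coord L₀) :
    Set (Fin n → ℂ) :=
  {z | ∀ i, lform (L i) (c.pt z) ≠ 0}

end

end Pool.Agent.H789.HSC
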