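import Pool.Agent.H789.HSC.Defs
import Pool.Agent.H789.HSC.KDefs

/-! Kaehler metrics on open subsets of `ℂ^n` and complements of hyperplanes. -/

open scoped BigOperators ContDiff ComplexConjugate ComplexOrder Topology

namespace Pool.Agent.H789.HSC

noncomputable section

variable {n q : ℕ}

/-- affine function with constant term `α` and linear part `β` -/
def aff (α : ℂ) (β : Fin n → ℂ) (z : Fin n → ℂ) : ℂ := α + ∑ j, β j * z j

/-- `b log |A_i(z)|^2` -/
def slog (b : ℝ) (α : Fin q → ℂ) (β : Fin q → Fin n → ℂ) (z : Fin n → ℂ) : Fin q → ℝ :=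
  fun i => b * Real.log (‖aff (α i) (β i) z‖ ^ 2)

/-- `b dA_i(v) / A_i(z)` -/
def xilog (b : ℝ) (α : Fin q → ℂ) (β : Fin q → Fin n → ℂ) (z v : Fin n → ℂ) : Fin q → ℂ :=
  fun i => b * (∑ j, β i j * v j) / aff (α i) (β i) z

namespace T3aux

open Filter

/-! ### directional Wirtinger derivatives -/

/-- `f` is real differentiable at `z` with `∂_v f = x` and `∂̄_v f = y` -/
def HD (v : Fin n → ℂ) (f : (Fin n → ℂ) → ℂ) (z : Fin n → ℂ) (x y : ℂ) : Prop :=
  ∃ L : (Fin n → ℂ) →L[ℝ] ℂ, HasFDerivAt f L z ∧ L v = x + y ∧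
    L (Complex.I • v) = Complex.I * (x - y)

section rules

variable {v : Fin n → ℂ} {f g : (Fin n → ℂ) → ℂ} {z : Fin n → ℂ} {x y x' y' : ℂ}

lemma HD.unique (h : HD v f z x y) (h' : HD v f z x' y') : x = x' ∧ y = y' := by
  obtain ⟨L, hL, h1, h2⟩ := h
  obtain ⟨L', hL', h1', h2'⟩ := h'
  obtain rfl := hL.unique hL'
  rw [h1] at h1'
  rw [h2] at h2'
  have h3 : x - y = x' - y' := mul_left_cancel₀ Complex.I_ne_zero h2'
  constructor
  · linear_combination (h1' + h3) / 2
  · linear_combination (h1' - h3) / 2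

lemma HD.congr (h : HD v f z x y) (e : f =ᶠ[𝓝 z] g) : HD v g z x y := by
  obtain ⟨L, hL, h1, h2⟩ := h
  exact ⟨L, hL.congr_of_eventuallyEq e.symm, h1, h2⟩

lemma HD.of_eq (h : HD v f z x y) (e : x = x') (e' : y = y') : HD v f z x' y' := by
  rw [← e, ← e']; exact h

lemma HD.const (c : ℂ) : HD v (fun _ => c) z 0 0 :=
  ⟨0, hasFDerivAt_const c z, by simp, by simp⟩

lemma HD.add (h : HD v f z x y) (h' : HD v g z x' y') :
    HD v (fun w => f w + g w) z (x + x') (y + y') := by
  obtain ⟨L, hL, h1, h2⟩ := h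
  obtain ⟨L', hL', h1', h2'⟩ := h'
  refine ⟨L + L', hL.add hL', ?_, ?_⟩
  · rw [add_apply, h1, h1']; ring
  · rw [add_apply, h2, h2']; ring

lemma HD.mul (h : HD v f z x y) (h' : HD v g z x' y') :
    HD v (fun w => f w * g w) z (x * g z + f z * x') (y * g z + f z * y') := by
  obtain ⟨L, hL, h1, h2⟩ := h
  obtain ⟨L', hL', h1', h2'⟩ := h'
  refine ⟨f z • L' + g z • L, hL.mul hL', ?_, ?_⟩
  · simp only [add_apply, smul_apply, smul_eq_mul, h1,
      h1']
    ring
  · simp only [add_apply, smul_apply, smul_eq_mul, h2,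
      h2']
    ring

lemma HD.const_mul (h : HD v f z x y) (c : ℂ) : HD v (fun w => c * f w) z (c * x) (c * y) :=
  ((HD.const c).mul h).of_eq (by ring) (by ring)

lemma HD.mul_const (h : HD v f z x y) (c : ℂ) : HD v (fun w => f w * c) z (x * c) (y * c) :=
  (h.mul (HD.const c)).of_eq (by ring) (by ring)

lemma HD.sum {ι : Type*} (s : Finset ι) {f : ι → (Fin n → ℂ) → ℂ} {x y : ι → ℂ}
    (h : ∀ i ∈ s, HD v (f i) z (x i) (y i)) :
    HD v (fun w => ∑ i ∈ s, f i w) z (∑ i ∈ s, x i) (∑ i ∈ s, y i) := by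
  classical
  induction s using Finset.induction_on with
  | empty => simpa using HD.const (v := v) (z := z) 0
  | insert a s ha ih =>
    simp only [Finset.sum_insert ha]
    exact (h a (Finset.mem_insert_self a s)).add
      (ih (fun i hi => h i (Finset.mem_insert_of_mem hi)))

lemma HD.conj (h : HD v f z x y) : HD v (fun w => conj (f w)) z (conj y) (conj x) := by
  obtain ⟨L, hL, h1, h2⟩ := h
  refine ⟨(Complex.conjCLE : ℂ →L[ℝ] ℂ).comp L,
    (Complex.conjCLE : ℂ →L[ℝ] ℂ).hasFDerivAt.comp z hL, ?_, ?_⟩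
  · show conj (L v) = _
    rw [h1, map_add, add_comm]
  · show conj (L (Complex.I • v)) = _
    rw [h2, map_mul, map_sub, Complex.conj_I]
    ring

lemma HD.inv (h : HD v f z x y) (hf : f z ≠ 0) :
    HD v (fun w => (f w)⁻¹) z (-x * ((f z)⁻¹ * (f z)⁻¹)) (-y * ((f z)⁻¹ * (f z)⁻¹)) := by
  obtain ⟨L, hL, h1, h2⟩ := h
  have h3 := ((hasDerivAt_inv hf).hasFDerivAt.restrictScalars ℝ).comp z hL
  refine ⟨_, h3, ?_, ?_⟩
  · show L v • -(f z ^ 2)⁻¹ = _
    rw [h1, smul_eq_mul, pow_two, mul_inv]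
    ring
  · show L (Complex.I • v) • -(f z ^ 2)⁻¹ = _
    rw [h2, smul_eq_mul, pow_two, mul_inv]
    ring

lemma HD.proj (j : Fin n) : HD v (fun w => w j) z (v j) 0 :=
  ⟨ContinuousLinearMap.proj (R := ℝ) (φ := fun _ : Fin n => ℂ) j,
    (ContinuousLinearMap.proj (R := ℝ) (φ := fun _ : Fin n => ℂ) j).hasFDerivAt, by simp,
    by simp⟩

lemma HD.aff (α : ℂ) (β : Fin n → ℂ) : HD v (fun w => aff α β w) z (∑ j, β j * v j) 0 :=
  ((HD.const α).add (HD.sum Finset.univ (fun j _ => (HD.proj j).const_mul (β j)))).of_eq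
    (by simp) (by simp)

/-! ### relation with the coordinate derivatives -/

lemma I_smul_single (k : Fin n) :
    Complex.I • (Pi.single k 1 : Fin n → ℂ) = Pi.single k Complex.I := by
  rw [← Pi.single_smul, smul_eq_mul, mul_one]

lemma HD.cpd {k : Fin n} (h : HD (Pi.single k 1) f z x y) : cpd f k z = x := by
  obtain ⟨L, hL, h1, h2⟩ := h
  rw [I_smul_single] at h2
  unfold HSC.cpd
  rw [hL.fderiv, h1, h2]
  linear_combination (-(x - y) / 2) * Complex.I_mul_I

lemma HD.cpdb {k : Fin n} (h : HD (Pi.single k 1) f z x y) : cpdb f k z = y := by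
  obtain ⟨L, hL, h1, h2⟩ := h
  rw [I_smul_single] at h2
  unfold HSC.cpdb
  rw [hL.fderiv, h1, h2]
  linear_combination ((x - y) / 2) * Complex.I_mul_I

lemma real_decomp (v : Fin n → ℂ) :
    v = ∑ k, ((v k).re • (Pi.single k 1 : Fin n → ℂ) +
      (v k).im • (Pi.single k Complex.I : Fin n → ℂ)) := by
  ext j
  rw [Finset.sum_apply, Finset.sum_eq_single j]
  · simp
  · intro k _ hk
    simp [hk.symm]
  · simp

lemma real_decomp' (v : Fin n → ℂ) :
    Complex.I • v = ∑ k, ((-(v k).im) • (Pi.single k 1 : Fin n → ℂ) +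
      (v k).re • (Pi.single k Complex.I : Fin n → ℂ)) := by
  conv_lhs => rw [real_decomp (Complex.I • v)]
  simp

/-- a differentiable function has directional Wirtinger derivatives -/
lemma HD.of_diff (v : Fin n → ℂ) (h : DifferentiableAt ℝ f z) :
    HD v f z (∑ k, HSC.cpd f k z * v k) (∑ k, HSC.cpdb f k z * conj (v k)) := by
  refine ⟨fderiv ℝ f z, h.hasFDerivAt, ?_, ?_⟩
  · conv_lhs => rw [real_decomp v]
    rw [map_sum, ← Finset.sum_add_distrib]
    apply Finset.sum_congr rfl
    intro k _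
    rw [map_add, map_smul, map_smul]
    unfold HSC.cpd HSC.cpdb
    have hv := Complex.re_add_im (v k)
    have hv' : conj (v k) = (v k).re - (v k).im * Complex.I := by
      apply Complex.ext <;> simp
    rw [hv', Complex.real_smul, Complex.real_smul]
    nth_rw 3 [← hv]
    linear_combination ((v k).im * fderiv ℝ f z (Pi.single k Complex.I)) * Complex.I_mul_I
  · rw [real_decomp' v]
    rw [map_sum, ← Finset.sum_sub_distrib, Finset.mul_sum]
    apply Finset.sum_congr rfl
    intro k _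
    rw [map_add, map_smul, map_smul]
    unfold HSC.cpd HSC.cpdb
    have hv := Complex.re_add_im (v k)
    have hv' : conj (v k) = (v k).re - (v k).im * Complex.I := by
      apply Complex.ext <;> simp
    rw [hv', Complex.real_smul, Complex.real_smul]
    nth_rw 3 [← hv]
    push_cast
    linear_combination (-((v k).im * fderiv ℝ f z (Pi.single k 1) -
      (v k).re * fderiv ℝ f z (Pi.single k Complex.I))) * Complex.I_mul_I

lemma HD.diff (h : HD v f z x y) : DifferentiableAt ℝ f z := by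
  obtain ⟨L, hL, -, -⟩ := h
  exact hL.differentiableAt

lemma HD.sum_cpd (h : HD v f z x y) : ∑ k, HSC.cpd f k z * v k = x :=
  ((HD.of_diff v h.diff).unique h).1

lemma HD.sum_cpdb (h : HD v f z x y) : ∑ k, HSC.cpdb f k z * conj (v k) = y :=
  ((HD.of_diff v h.diff).unique h).2

end rules

/-! ### functions on `ℝ^q` -/

section real

variable {W : (Fin q → ℝ) → ℝ}

lemma pd_smooth (hW : ContDiff ℝ ∞ W) (i : Fin q) : ContDiff ℝ ∞ (pd W i) := by
  unfold pd
  exact (hW.fderiv_right (m := ∞) (by simp)).clm_apply contDiff_const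

lemma fderiv_eq_sum (t u : Fin q → ℝ) : fderiv ℝ W t u = ∑ a, pd W a t * u a := by
  conv_lhs => rw [pi_eq_sum_univ' u]
  rw [map_sum]
  apply Finset.sum_congr rfl
  intro a _
  rw [map_smul, smul_eq_mul, mul_comm]
  unfold pd
  congr 2

lemma pd_comm' (hW : ContDiff ℝ ∞ W) (i j : Fin q) : pd (pd W i) j = pd (pd W j) i := by
  funext t
  have h1 : DifferentiableAt ℝ (fderiv ℝ W) t :=
    (hW.fderiv_right (m := ∞) (by simp)).differentiable (by simp) t
  have h2 : IsSymmSndFDerivAt ℝ W t := hW.contDiffAt.isSymmSndFDerivAt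
    (by simp only [minSmoothness_of_isRCLikeNormedField]; exact ENat.LEInfty.out)
  have key : ∀ i j : Fin q, pd (pd W i) j t =
      fderiv ℝ (fderiv ℝ W) t (Pi.single j 1) (Pi.single i 1) := by
    intro i j
    unfold pd
    have h3 := h1.hasFDerivAt.clm_apply (hasFDerivAt_const (Pi.single i (1:ℝ) : Fin q → ℝ) t)
    rw [h3.fderiv]
    simp
  rw [key, key]
  exact h2 _ _

end real

/-- the path `s` has the (real) directional derivative with `∂_v s = ξ` -/
def HS (v : Fin n → ℂ) (s : (Fin n → ℂ) → Fin q → ℝ) (z : Fin n → ℂ) (ξ : Fin q → ℂ) : Prop :=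
  ∃ M : Fin q → ((Fin n → ℂ) →L[ℝ] ℝ), (∀ a, HasFDerivAt (fun w => s w a) (M a) z) ∧
    (∀ a, (M a v : ℂ) = ξ a + conj (ξ a)) ∧
    (∀ a, (M a (Complex.I • v) : ℂ) = Complex.I * (ξ a - conj (ξ a)))

section chain

variable {v : Fin n → ℂ} {s : (Fin n → ℂ) → Fin q → ℝ} {z : Fin n → ℂ} {ξ : Fin q → ℂ}

lemma HS.comp (h : HS v s z ξ) {W : (Fin q → ℝ) → ℝ} (hW : DifferentiableAt ℝ W (s z)) :
    HD v (fun w => (W (s w) : ℂ)) z (∑ a, (pd W a (s z) : ℂ) * ξ a)
      (∑ a, (pd W a (s z) : ℂ) * conj (ξ a)) := by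
  obtain ⟨M, h1, h2, h3⟩ := h
  have k1 : HasFDerivAt s (ContinuousLinearMap.pi M) z := hasFDerivAt_pi.2 h1
  have k2 := hW.hasFDerivAt.comp z k1
  have k3 := Complex.ofRealCLM.hasFDerivAt.comp z k2
  refine ⟨_, k3, ?_, ?_⟩
  · show ((fderiv ℝ W (s z) (fun a => M a v) : ℝ) : ℂ) = _
    rw [fderiv_eq_sum, ← Finset.sum_add_distrib]
    push_cast
    apply Finset.sum_congr rfl
    intro a _
    rw [h2]; ring
  · show ((fderiv ℝ W (s z) (fun a => M a (Complex.I • v)) : ℝ) : ℂ) = _
    rw [fderiv_eq_sum, ← Finset.sum_sub_distrib, Finset.mul_sum]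
    push_cast
    apply Finset.sum_congr rfl
    intro a _
    rw [h3]; ring

lemma HD.D2 {U : (Fin q → ℝ) → ℝ} (hU : ContDiff ℝ ∞ U) (hs : HS v s z ξ)
    {u u' : (Fin n → ℂ) → Fin q → ℂ} {u1 u2 u1' u2' : Fin q → ℂ}
    (hu : ∀ a, HD v (fun w => u w a) z (u1 a) (u2 a))
    (hu' : ∀ a, HD v (fun w => u' w a) z (u1' a) (u2' a)) :
    HD v (fun w => D2 U (s w) (u w) (u' w)) z
      (D3 U (s z) (u z) (u' z) ξ + D2 U (s z) u1 (u' z) + D2 U (s z) (u z) u1')
      (D3 U (s z) (u z) (u' z) (fun a => conj (ξ a)) + D2 U (s z) u2 (u' z) +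
        D2 U (s z) (u z) u2') := by
  have h0 : ∀ i j, HD v (fun w => (pd (pd U i) j (s w) : ℂ)) z
      (∑ a, (pd (pd (pd U i) j) a (s z) : ℂ) * ξ a)
      (∑ a, (pd (pd (pd U i) j) a (s z) : ℂ) * conj (ξ a)) := fun i j =>
    hs.comp (((pd_smooth (pd_smooth hU i) j).differentiable (by simp)) _)
  have h1 := HD.sum (v := v) (z := z) Finset.univ (fun i _ => HD.sum Finset.univ
    (fun j _ => ((h0 i j).mul (hu i)).mul (hu' j)))
  refine h1.of_eq ?_ ?_
  · unfold HSC.D2 HSC.D3
    simp only [← Finset.sum_add_distrib]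
    refine Finset.sum_congr rfl (fun i _ => Finset.sum_congr rfl (fun j _ => ?_))
    have : ∑ l, (pd (pd (pd U i) j) l (s z) : ℂ) * u z i * u' z j * ξ l =
        (∑ l, (pd (pd (pd U i) j) l (s z) : ℂ) * ξ l) * u z i * u' z j := by
      rw [Finset.sum_mul, Finset.sum_mul]
      exact Finset.sum_congr rfl (fun l _ => by ring)
    rw [this]; ring
  · unfold HSC.D2 HSC.D3
    simp only [← Finset.sum_add_distrib]
    refine Finset.sum_congr rfl (fun i _ => Finset.sum_congr rfl (fun j _ => ?_))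
    have : ∑ l, (pd (pd (pd U i) j) l (s z) : ℂ) * u z i * u' z j * conj (ξ l) =
        (∑ l, (pd (pd (pd U i) j) l (s z) : ℂ) * conj (ξ l)) * u z i * u' z j := by
      rw [Finset.sum_mul, Finset.sum_mul]
      exact Finset.sum_congr rfl (fun l _ => by ring)
    rw [this]; ring

lemma HD.D3 {U : (Fin q → ℝ) → ℝ} (hU : ContDiff ℝ ∞ U) (hs : HS v s z ξ)
    {u u' u'' : (Fin n → ℂ) → Fin q → ℂ} {u1 u2 u1' u2' u1'' u2'' : Fin q → ℂ}
    (hu : ∀ a, HD v (fun w => u w a) z (u1 a) (u2 a))
    (hu' : ∀ a, HD v (fun w => u' w a) z (u1' a) (u2' a))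
    (hu'' : ∀ a, HD v (fun w => u'' w a) z (u1'' a) (u2'' a)) :
    ∃ y, HD v (fun w => D3 U (s w) (u w) (u' w) (u'' w)) z
      (D4 U (s z) (u z) (u' z) (u'' z) ξ + D3 U (s z) u1 (u' z) (u'' z) +
        D3 U (s z) (u z) u1' (u'' z) + D3 U (s z) (u z) (u' z) u1'') y := by
  have h0 : ∀ i j l, HD v (fun w => (pd (pd (pd U i) j) l (s w) : ℂ)) z
      (∑ a, (pd (pd (pd (pd U i) j) l) a (s z) : ℂ) * ξ a)
      (∑ a, (pd (pd (pd (pd U i) j) l) a (s z) : ℂ) * conj (ξ a)) := fun i j l =>
    hs.comp (((pd_smooth (pd_smooth (pd_smooth hU i) j) l).differentiable (by simp)) _)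
  have h1 := HD.sum (v := v) (z := z) Finset.univ (fun i _ => HD.sum Finset.univ
    (fun j _ => HD.sum Finset.univ (fun l _ => (((h0 i j l).mul (hu i)).mul (hu' j)).mul
      (hu'' l))))
  refine ⟨_, h1.of_eq ?_ rfl⟩
  unfold HSC.D3 HSC.D4
  simp only [← Finset.sum_add_distrib]
  refine Finset.sum_congr rfl (fun i _ => Finset.sum_congr rfl (fun j _ =>
    Finset.sum_congr rfl (fun l _ => ?_)))
  have : ∑ m, (pd (pd (pd (pd U i) j) l) m (s z) : ℂ) * u z i * u' z j * u'' z l * ξ m =
      (∑ m, (pd (pd (pd (pd U i) j) l) m (s z) : ℂ) * ξ m) * u z i * u' z j * u'' z l := by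
    rw [Finset.sum_mul, Finset.sum_mul, Finset.sum_mul]
    exact Finset.sum_congr rfl (fun m _ => by ring)
  rw [this]; ring

end chain

/-! ### symmetry and multilinearity of the derivative tensors -/

section sym

variable {U : (Fin q → ℝ) → ℝ} {t : Fin q → ℝ} {u v w y : Fin q → ℂ}

lemma D2_swap (hU : ContDiff ℝ ∞ U) : D2 U t u v = D2 U t v u := by
  unfold D2
  rw [Finset.sum_comm]
  refine Finset.sum_congr rfl (fun i _ => Finset.sum_congr rfl (fun j _ => ?_))
  rw [pd_comm' hU j i]; ring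

lemma D3_swap12 (hU : ContDiff ℝ ∞ U) : D3 U t u v w = D3 U t v u w := by
  unfold D3
  rw [Finset.sum_comm]
  refine Finset.sum_congr rfl (fun i _ => Finset.sum_congr rfl (fun j _ =>
    Finset.sum_congr rfl (fun l _ => ?_)))
  rw [pd_comm' hU j i]; ring

lemma D3_swap23 (hU : ContDiff ℝ ∞ U) : D3 U t u v w = D3 U t u w v := by
  unfold D3
  refine Finset.sum_congr rfl (fun i _ => ?_)
  rw [Finset.sum_comm]
  refine Finset.sum_congr rfl (fun j _ => Finset.sum_congr rfl (fun l _ => ?_))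
  rw [pd_comm' (pd_smooth hU i) l j]; ring

lemma D4_swap23 (hU : ContDiff ℝ ∞ U) : D4 U t u v w y = D4 U t u w v y := by
  unfold D4
  refine Finset.sum_congr rfl (fun i _ => ?_)
  rw [Finset.sum_comm]
  refine Finset.sum_congr rfl (fun j _ => Finset.sum_congr rfl (fun l _ =>
    Finset.sum_congr rfl (fun m _ => ?_)))
  rw [pd_comm' (pd_smooth hU i) l j]; ring

lemma D4_swap34 (hU : ContDiff ℝ ∞ U) : D4 U t u v w y = D4 U t u v y w := by
  unfold D4
  refine Finset.sum_congr rfl (fun i _ => Finset.sum_congr rfl (fun j _ => ?_))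
  rw [Finset.sum_comm]
  refine Finset.sum_congr rfl (fun l _ => Finset.sum_congr rfl (fun m _ => ?_))
  rw [pd_comm' (pd_smooth (pd_smooth hU i) j) m l]; ring

lemma conj_D2 : conj (D2 U t u v) = D2 U t (fun a => conj (u a)) (fun a => conj (v a)) := by
  unfold D2
  simp only [map_sum, map_mul, Complex.conj_ofReal]

lemma conj_D3 : conj (D3 U t u v w) =
    D3 U t (fun a => conj (u a)) (fun a => conj (v a)) (fun a => conj (w a)) := by
  unfold D3
  simp only [map_sum, map_mul, Complex.conj_ofReal]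

lemma D2_add_left (u' : Fin q → ℂ) :
    D2 U t (fun a => u a + u' a) v = D2 U t u v + D2 U t u' v := by
  unfold D2
  simp only [← Finset.sum_add_distrib]
  refine Finset.sum_congr rfl (fun i _ => Finset.sum_congr rfl (fun j _ => ?_))
  ring

lemma D2_add_right (v' : Fin q → ℂ) :
    D2 U t u (fun a => v a + v' a) = D2 U t u v + D2 U t u v' := by
  unfold D2
  simp only [← Finset.sum_add_distrib]
  refine Finset.sum_congr rfl (fun i _ => Finset.sum_congr rfl (fun j _ => ?_))
  ring

lemma D3_add_left (u' : Fin q → ℂ) :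
    D3 U t (fun a => u a + u' a) v w = D3 U t u v w + D3 U t u' v w := by
  unfold D3
  simp only [← Finset.sum_add_distrib]
  refine Finset.sum_congr rfl (fun i _ => Finset.sum_congr rfl (fun j _ =>
    Finset.sum_congr rfl (fun l _ => ?_)))
  ring

lemma D2_zero_left : D2 U t 0 v = 0 := by simp [D2]
lemma D2_zero_right : D2 U t u 0 = 0 := by simp [D2]
lemma D3_zero_2 : D3 U t u 0 w = 0 := by simp [D3]
lemma D3_zero_3 : D3 U t u v 0 = 0 := by simp [D3]

lemma D2_sum_left {ι : Type*} [Fintype ι] (c : ι → ℂ) (x : ι → Fin q → ℂ) :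
    D2 U t (fun a => ∑ i, c i * x i a) v = ∑ i, c i * D2 U t (x i) v := by
  unfold D2
  simp only [Finset.mul_sum, Finset.sum_mul]
  symm
  rw [Finset.sum_comm]
  refine Finset.sum_congr rfl (fun a _ => ?_)
  rw [Finset.sum_comm]
  refine Finset.sum_congr rfl (fun b _ => Finset.sum_congr rfl (fun i _ => ?_))
  ring

lemma D2_sum_right {ι : Type*} [Fintype ι] (c : ι → ℂ) (x : ι → Fin q → ℂ) :
    D2 U t u (fun a => ∑ i, c i * x i a) = ∑ i, c i * D2 U t u (x i) := by
  unfold D2
  simp only [Finset.mul_sum]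
  symm
  rw [Finset.sum_comm]
  refine Finset.sum_congr rfl (fun a _ => ?_)
  rw [Finset.sum_comm]
  refine Finset.sum_congr rfl (fun b _ => Finset.sum_congr rfl (fun i _ => ?_))
  ring

lemma D3_sum_2 {ι : Type*} [Fintype ι] (c : ι → ℂ) (x : ι → Fin q → ℂ) :
    D3 U t u (fun a => ∑ i, c i * x i a) w = ∑ i, c i * D3 U t u (x i) w := by
  unfold D3
  simp only [Finset.mul_sum, Finset.sum_mul]
  symm
  rw [Finset.sum_comm]
  refine Finset.sum_congr rfl (fun a _ => ?_)
  rw [Finset.sum_comm]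
  refine Finset.sum_congr rfl (fun b _ => ?_)
  rw [Finset.sum_comm]
  refine Finset.sum_congr rfl (fun l _ => Finset.sum_congr rfl (fun i _ => ?_))
  ring

end sym

/-! ### the logarithms -/

section logs

variable (b : ℝ) (α : Fin q → ℂ) (β : Fin q → Fin n → ℂ)

/-- the derivative of `xilog _ u` in direction `v` -/
def Ef (z u v : Fin n → ℂ) (a : Fin q) : ℂ :=
  (b * (∑ j, β a j * u j)) *
    (-(∑ j, β a j * v j) * ((aff (α a) (β a) z)⁻¹ * (aff (α a) (β a) z)⁻¹))

variable {z : Fin n → ℂ}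

lemma Ef_symm (u v : Fin n → ℂ) : Ef b α β z u v = Ef b α β z v u := by
  funext a
  unfold Ef
  ring

lemma HD_X {a : Fin q} (hz : aff (α a) (β a) z ≠ 0) (u v : Fin n → ℂ) :
    HD v (fun w => xilog b α β w u a) z (Ef b α β z u v a) 0 := by
  have h := ((HD.aff (v := v) (z := z) (α a) (β a)).inv hz).const_mul (b * ∑ j, β a j * u j)
  have e : (fun w => xilog b α β w u a) =
      fun w => (b * ∑ j, β a j * u j) * (aff (α a) (β a) w)⁻¹ := by
    funext w
    unfold xilog
    rw [div_eq_mul_inv]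
  rw [e]
  exact h.of_eq rfl (by ring)

lemma HD_E {a : Fin q} (hz : aff (α a) (β a) z ≠ 0) (u u' v : Fin n → ℂ) :
    ∃ x, HD v (fun w => Ef b α β w u u' a) z x 0 := by
  have h0 := (HD.aff (v := v) (z := z) (α a) (β a)).inv hz
  have h := ((h0.mul h0).const_mul (-(∑ j, β a j * u' j))).const_mul (b * ∑ j, β a j * u j)
  exact ⟨_, h.of_eq rfl (by ring)⟩

lemma HS_slog (hz : ∀ a, aff (α a) (β a) z ≠ 0) (v : Fin n → ℂ) :
    HS v (slog b α β) z (xilog b α β z v) := by
  choose L hL h1 h2 using fun a => HD.aff (v := v) (z := z) (α a) (β a)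
  have hne : ∀ a, ‖aff (α a) (β a) z‖ ^ 2 ≠ 0 := fun a => by
    have := norm_ne_zero_iff.2 (hz a)
    positivity
  have key : ∀ (a : Fin q) (t : ℂ), ((b * ((‖aff (α a) (β a) z‖ ^ 2)⁻¹ *
      (2 * inner ℝ (aff (α a) (β a) z) t)) : ℝ) : ℂ) =
      b * t / aff (α a) (β a) z + conj (b * t / aff (α a) (β a) z) := by
    intro a t
    have e1 : ((‖aff (α a) (β a) z‖ ^ 2 : ℝ) : ℂ) =
        aff (α a) (β a) z * conj (aff (α a) (β a) z) := by
      rw [Complex.mul_conj, Complex.normSq_eq_norm_sq]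
    have e2 : ((inner ℝ (aff (α a) (β a) z) t : ℝ) : ℂ) =
        (conj (aff (α a) (β a) z) * t + aff (α a) (β a) z * conj t) / 2 := by
      rw [Complex.inner, Complex.re_eq_add_conj]
      simp only [map_mul, Complex.conj_conj]
      try ring
    have e3 : conj (aff (α a) (β a) z) ≠ 0 := by
      rw [Ne, map_eq_zero]; exact hz a
    have e4 := hz a
    rw [Complex.ofReal_mul, Complex.ofReal_mul, Complex.ofReal_inv, e1, Complex.ofReal_mul, e2,
      map_div₀, map_mul, Complex.conj_ofReal]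
    push_cast
    field_simp
    try ring
  refine ⟨fun a => b • ((‖aff (α a) (β a) z‖ ^ 2)⁻¹ •
    ((2 : ℝ) • (innerSL ℝ (aff (α a) (β a) z)).comp (L a))), ?_, ?_, ?_⟩
  · intro a
    have h3 := ((hL a).norm_sq.log (hne a)).const_mul b
    refine h3.congr_fderiv ?_
    ext w
    simp
    left; left
    ring
  · intro a
    have := key a (L a v)
    rw [h1 a, add_zero] at this
    unfold xilog
    rw [← this, ← add_zero (∑ j, β a j * v j), ← h1 a]
    rfl
  · intro a
    have := key a (L a (Complex.I • v))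
    have e : Complex.I * (xilog b α β z v a - conj (xilog b α β z v a)) =
        b * (L a (Complex.I • v)) / aff (α a) (β a) z +
          conj (b * (L a (Complex.I • v)) / aff (α a) (β a) z) := by
      rw [h2 a, sub_zero]
      unfold xilog
      simp only [map_div₀, map_mul, Complex.conj_I, Complex.conj_ofReal]
      ring
    rw [e, ← this]
    rfl

lemma X_sum (z v : Fin n → ℂ) :
    xilog b α β z v = fun a => ∑ i, v i * xilog b α β z (Pi.single i 1) a := by
  funext a
  unfold xilog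
  rw [Finset.mul_sum, Finset.sum_div]
  apply Finset.sum_congr rfl
  intro i _
  have : ∑ j, β a j * (Pi.single i 1 : Fin n → ℂ) j = β a i := by
    rw [Finset.sum_eq_single i]
    · simp
    · intro j _ hj
      simp [hj]
    · simp
  rw [this]
  ring

lemma aff_smooth (a : Fin q) : ContDiff ℝ ∞ (fun w => aff (α a) (β a) w) := by
  unfold aff
  exact contDiff_const.add (ContDiff.sum fun j _ => contDiff_const.mul (contDiff_apply ℝ ℂ j))

lemma slog_smooth (hz : ∀ a, aff (α a) (β a) z ≠ 0) : ContDiffAt ℝ ∞ (slog b α β) z := by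
  rw [contDiffAt_pi]
  intro a
  unfold slog
  have h1 : ‖aff (α a) (β a) z‖ ^ 2 ≠ 0 := by
    have := norm_ne_zero_iff.2 (hz a)
    positivity
  exact contDiffAt_const.mul (((aff_smooth α β a).contDiffAt.norm_sq ℝ).log h1)

lemma X_smooth {a : Fin q} (hz : aff (α a) (β a) z ≠ 0) (u : Fin n → ℂ) :
    ContDiffAt ℝ ∞ (fun w => xilog b α β w u a) z := by
  unfold xilog
  simp only [div_eq_mul_inv]
  exact contDiffAt_const.mul ((aff_smooth α β a).contDiffAt.inv hz)

lemma ev_ne (hz : ∀ a, aff (α a) (β a) z ≠ 0) :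
    ∀ᶠ w in 𝓝 z, ∀ a, aff (α a) (β a) w ≠ 0 := by
  rw [eventually_all]
  intro a
  exact (aff_smooth α β a).continuous.continuousAt.eventually_ne (hz a)

end logs

/-! ### the metric -/

section metric

variable (U : (Fin q → ℝ) → ℝ) (b : ℝ) (α : Fin q → ℂ) (β : Fin q → Fin n → ℂ) (c : ℝ)

/-- the Hermitian form -/
def gU (z u u' : Fin n → ℂ) : ℂ :=
  c * D2 U (slog b α β z) (xilog b α β z u) (fun a => conj (xilog b α β z u' a))

/-- the metric -/
def gM (z : Fin n → ℂ) : Matrix (Fin n) (Fin n) ℂ :=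
  Matrix.of fun i j => gU U b α β c z (Pi.single i 1) (Pi.single j 1)

lemma gM_apply (z : Fin n → ℂ) (i j : Fin n) :
    gM U b α β c z i j = gU U b α β c z (Pi.single i 1) (Pi.single j 1) := rfl

lemma gU_left (z v u' : Fin n → ℂ) :
    gU U b α β c z v u' = ∑ i, v i * gU U b α β c z (Pi.single i 1) u' := by
  unfold gU
  rw [X_sum b α β z v, D2_sum_left, Finset.mul_sum]
  exact Finset.sum_congr rfl (fun i _ => by ring)

lemma gU_right (z u v : Fin n → ℂ) :
    gU U b α β c z u v = ∑ j, conj (v j) * gU U b α β c z u (Pi.single j 1) := by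
  unfold gU
  rw [X_sum b α β z v]
  have : (fun a => conj (∑ i, v i * xilog b α β z (Pi.single i 1) a)) =
      fun a => ∑ i, conj (v i) * (fun a => conj (xilog b α β z (Pi.single i 1) a)) a := by
    funext a
    simp only [map_sum, map_mul]
  rw [this, D2_sum_right, Finset.mul_sum]
  exact Finset.sum_congr rfl (fun i _ => by ring)

lemma gU_sum (z u v : Fin n → ℂ) :
    gU U b α β c z u v = ∑ i, ∑ j, gM U b α β c z i j * u i * conj (v j) := by
  rw [gU_left]
  refine Finset.sum_congr rfl (fun i _ => ?_)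
  rw [gU_right, Finset.mul_sum]
  exact Finset.sum_congr rfl (fun j _ => by rw [gM_apply]; ring)

variable {U} (hU : ContDiff ℝ ∞ U) {z : Fin n → ℂ}

include hU

lemma gU_conj (u v : Fin n → ℂ) : conj (gU U b α β c z u v) = gU U b α β c z v u := by
  unfold gU
  rw [map_mul, Complex.conj_ofReal, conj_D2, D2_swap hU]
  simp only [Complex.conj_conj]

variable (hz : ∀ a, aff (α a) (β a) z ≠ 0)

include hz

lemma HD_gU (u u' v : Fin n → ℂ) :
    HD v (fun w => gU U b α β c w u u') z
      (c * (D3 U (slog b α β z) (xilog b α β z u) (fun a => conj (xilog b α β z u' a))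
          (xilog b α β z v) +
        D2 U (slog b α β z) (Ef b α β z u v) (fun a => conj (xilog b α β z u' a))))
      (c * (D3 U (slog b α β z) (xilog b α β z u) (fun a => conj (xilog b α β z u' a))
          (fun a => conj (xilog b α β z v a)) +
        D2 U (slog b α β z) (xilog b α β z u) (fun a => conj (Ef b α β z u' v a)))) := by
  have h1 := HD.D2 hU (HS_slog b α β hz v) (u := fun w => xilog b α β w u)
    (u' := fun w a => conj (xilog b α β w u' a)) (u1 := Ef b α β z u v) (u2 := 0)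
    (u1' := 0) (u2' := fun a => conj (Ef b α β z u' v a))
    (fun a => HD_X b α β (hz a) u v)
    (fun a => ((HD_X b α β (hz a) u' v).conj).of_eq (by simp) rfl)
  refine (h1.const_mul c).of_eq ?_ ?_
  · rw [D2_zero_right, add_zero]
  · rw [D2_zero_left, add_zero]

/-- `∂̄_v` of the square of the norm of `v` -/
def Hf (U : (Fin q → ℝ) → ℝ) (b : ℝ) (α : Fin q → ℂ) (β : Fin q → Fin n → ℂ) (c : ℝ)
    (v w : Fin n → ℂ) : ℂ :=
  c * (D3 U (slog b α β w) (xilog b α β w v) (fun a => conj (xilog b α β w v a))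
          (fun a => conj (xilog b α β w v a)) +
        D2 U (slog b α β w) (xilog b α β w v) (fun a => conj (Ef b α β w v v a)))

lemma HD_Hf (v : Fin n → ℂ) : ∃ y, HD v (Hf U b α β c v) z
    (c * (D4 U (slog b α β z) (xilog b α β z v) (fun a => conj (xilog b α β z v a))
          (fun a => conj (xilog b α β z v a)) (xilog b α β z v) +
        D3 U (slog b α β z) (Ef b α β z v v) (fun a => conj (xilog b α β z v a))
          (fun a => conj (xilog b α β z v a)) +
        D3 U (slog b α β z) (xilog b α β z v) (fun a => conj (Ef b α β z v v a))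
          (xilog b α β z v) +
        D2 U (slog b α β z) (Ef b α β z v v) (fun a => conj (Ef b α β z v v a)))) y := by
  have hX : ∀ a, HD v (fun w => xilog b α β w v a) z (Ef b α β z v v a) ((0 : Fin q → ℂ) a) :=
    fun a => HD_X b α β (hz a) v v
  have hXc : ∀ a, HD v (fun w => conj (xilog b α β w v a)) z ((0 : Fin q → ℂ) a)
      (conj (Ef b α β z v v a)) := fun a => ((hX a).conj).of_eq (by simp) rfl
  choose E' hE using fun a => HD_E b α β (hz a) v v v
  have hEc : ∀ a, HD v (fun w => conj (Ef b α β w v v a)) z ((0 : Fin q → ℂ) a)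
      (conj (E' a)) := fun a => ((hE a).conj).of_eq (by simp) rfl
  obtain ⟨y, h1⟩ := HD.D3 hU (HS_slog b α β hz v) (u := fun w => xilog b α β w v)
    (u' := fun w a => conj (xilog b α β w v a)) (u'' := fun w a => conj (xilog b α β w v a))
    hX hXc hXc
  have h2 := HD.D2 hU (HS_slog b α β hz v) (u := fun w => xilog b α β w v)
    (u' := fun w a => conj (Ef b α β w v v a)) hX hEc
  refine ⟨_, ((h1.add h2).const_mul c).of_eq ?_ rfl⟩
  rw [D3_zero_2, D3_zero_3, D2_zero_right]
  ring

lemma g_smooth (i j : Fin n) : ContDiffAt ℝ ∞ (fun w => gM U b α β c w i j) z := by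
  simp only [gM_apply]
  unfold gU D2
  refine contDiffAt_const.mul (ContDiffAt.sum fun a _ => ContDiffAt.sum fun a' _ => ?_)
  refine ContDiffAt.mul (ContDiffAt.mul ?_ (X_smooth b α β (hz a) _)) ?_
  · exact Complex.ofRealCLM.contDiff.contDiffAt.comp z
      (((pd_smooth (pd_smooth hU a) a').contDiffAt).comp z (slog_smooth b α β hz))
  · exact (Complex.conjCLE : ℂ →L[ℝ] ℂ).contDiff.contDiffAt.comp z (X_smooth b α β (hz a') _)

lemma cpdb_diff (i j l : Fin n) :
    DifferentiableAt ℝ (fun w => cpdb (fun y => gM U b α β c y i j) l w) z := by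
  have h1 := ((g_smooth b α β c hU hz i j).fderiv_right (m := ∞) (by simp)).differentiableAt
    (by simp)
  have h2 : ∀ e : Fin n → ℂ, DifferentiableAt ℝ
      (fun w => fderiv ℝ (fun w => gM U b α β c w i j) w e) z := fun e =>
    h1.clm_apply (differentiableAt_const e)
  unfold HSC.cpdb
  simp only [div_eq_mul_inv]
  exact ((h2 _).add ((h2 _).const_mul _)).mul_const _

end metric

/-! ### sums -/

section sums

variable {I J K L A B : Type*} [Fintype I] [Fintype J] [Fintype K] [Fintype L] [Fintype A]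
  [Fintype B]

lemma sc4 (t : I → J → K → L → A → ℂ) :
    ∑ i, ∑ j, ∑ k, ∑ l, ∑ p, t i j k l p = ∑ p, ∑ i, ∑ j, ∑ k, ∑ l, t i j k l p := by
  have h1 : ∀ i j k, ∑ l, ∑ p, t i j k l p = ∑ p, ∑ l, t i j k l p :=
    fun i j k => Finset.sum_comm
  have h2 : ∀ i j, ∑ k, ∑ p, ∑ l, t i j k l p = ∑ p, ∑ k, ∑ l, t i j k l p :=
    fun i j => Finset.sum_comm
  have h3 : ∀ i, ∑ j, ∑ p, ∑ k, ∑ l, t i j k l p = ∑ p, ∑ j, ∑ k, ∑ l, t i j k l p :=
    fun i => Finset.sum_comm
  simp only [h1, h2, h3]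
  exact Finset.sum_comm

lemma prod4 (x : I → K → ℂ) (m : ℂ) (y : J → L → ℂ) :
    ∑ i, ∑ j, ∑ k, ∑ l, x i k * m * y j l = (∑ i, ∑ k, x i k) * m * (∑ j, ∑ l, y j l) := by
  simp only [← Finset.mul_sum, ← Finset.sum_mul]

lemma rearr (p : I → A → K → ℂ) (m : A → B → ℂ) (r : B → J → L → ℂ) (v : I → ℂ) (v' : K → ℂ)
    (u : J → ℂ) (u' : L → ℂ) :
    ∑ i, ∑ j, ∑ k, ∑ l, (∑ a, ∑ a', p i a k * m a a' * r a' j l) * v i * u j * v' k * u' l =
      ∑ a, ∑ a', (∑ i, ∑ k, p i a k * v i * v' k) * m a a' * (∑ j, ∑ l, r a' j l * u j * u' l)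
      := by
  simp only [Finset.sum_mul]
  rw [sc4]
  refine Finset.sum_congr rfl (fun a _ => ?_)
  rw [sc4]
  refine Finset.sum_congr rfl (fun a' _ => ?_)
  simp only [← Finset.sum_mul]
  rw [← prod4]
  refine Finset.sum_congr rfl (fun i _ => Finset.sum_congr rfl (fun j _ =>
    Finset.sum_congr rfl (fun k _ => Finset.sum_congr rfl (fun l _ => ?_))))
  ring

end sums

/-! ### the curvature -/

section curvature

variable (U : (Fin q → ℝ) → ℝ) (b : ℝ) (α : Fin q → ℂ) (β : Fin q → Fin n → ℂ) (c : ℝ)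

/-- second derivatives of the metric -/
def Tf (z v : Fin n → ℂ) : ℂ :=
  c * (D4 U (slog b α β z) (xilog b α β z v) (fun a => conj (xilog b α β z v a))
          (fun a => conj (xilog b α β z v a)) (xilog b α β z v) +
        D3 U (slog b α β z) (Ef b α β z v v) (fun a => conj (xilog b α β z v a))
          (fun a => conj (xilog b α β z v a)) +
        D3 U (slog b α β z) (xilog b α β z v) (fun a => conj (Ef b α β z v v a))
          (xilog b α β z v) +
        D2 U (slog b α β z) (Ef b α β z v v) (fun a => conj (Ef b α β z v v a)))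

/-- first derivatives of the metric -/
def Pf (z v : Fin n → ℂ) (i : Fin n) : ℂ :=
  c * (D3 U (slog b α β z) (xilog b α β z v)
          (fun a => conj (xilog b α β z (Pi.single i 1) a)) (xilog b α β z v) +
        D2 U (slog b α β z) (Ef b α β z v v)
          (fun a => conj (xilog b α β z (Pi.single i 1) a)))

variable {U} (hU : ContDiff ℝ ∞ U) {z : Fin n → ℂ} (hz : ∀ a, aff (α a) (β a) z ≠ 0)

include hU hz

lemma T_eq (v : Fin n → ℂ) :
    ∑ i, ∑ j, ∑ k, ∑ l, cpd (fun w => cpdb (fun y => gM U b α β c y i j) l w) k z * v i *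
      conj (v j) * v k * conj (v l) = Tf U b α β c z v := by
  have hK : HD v (fun w => ∑ i, ∑ j, ∑ l, cpdb (fun y => gM U b α β c y i j) l w *
      (v i * conj (v j) * conj (v l))) z _ _ :=
    HD.sum Finset.univ fun i _ => HD.sum Finset.univ fun j _ => HD.sum Finset.univ fun l _ =>
      (HD.of_diff v (cpdb_diff b α β c hU hz i j l)).mul_const _
  have hKH : (fun w => ∑ i, ∑ j, ∑ l, cpdb (fun y => gM U b α β c y i j) l w *
      (v i * conj (v j) * conj (v l))) =ᶠ[𝓝 z] Hf U b α β c v := by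
    filter_upwards [ev_ne α β hz] with w hw
    have h1 : HD v (fun w => ∑ i, ∑ j, gM U b α β c w i j * (v i * conj (v j))) w _ _ :=
      HD.sum Finset.univ fun i _ => HD.sum Finset.univ fun j _ =>
        (HD.of_diff v ((g_smooth b α β c hU hw i j).differentiableAt (by simp))).mul_const _
    have h2 := HD_gU b α β c hU hw v v v
    have e : (fun w => gU U b α β c w v v) =
        fun w => ∑ i, ∑ j, gM U b α β c w i j * (v i * conj (v j)) := by
      funext w
      rw [gU_sum]
      refine Finset.sum_congr rfl (fun i _ => Finset.sum_congr rfl (fun j _ => ?_))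
      ring
    rw [e] at h2
    have h3 := (h1.unique h2).2
    unfold Hf
    rw [← h3]
    refine Finset.sum_congr rfl (fun i _ => Finset.sum_congr rfl (fun j _ => ?_))
    rw [Finset.sum_mul]
    exact Finset.sum_congr rfl (fun l _ => by ring)
  obtain ⟨y, hy⟩ := HD_Hf b α β c hU hz v
  have h4 := ((hK.congr hKH).unique hy).1
  unfold Tf
  rw [← h4]
  refine Finset.sum_congr rfl (fun i _ => Finset.sum_congr rfl (fun j _ => ?_))
  rw [Finset.sum_comm]
  refine Finset.sum_congr rfl (fun l _ => ?_)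
  rw [Finset.sum_mul]
  exact Finset.sum_congr rfl (fun k _ => by ring)

lemma P_eq (v : Fin n → ℂ) (j : Fin n) :
    ∑ i, ∑ k, cpd (fun w => gM U b α β c w i j) k z * v i * v k = Pf U b α β c z v j := by
  have h1 : HD v (fun w => ∑ i, gM U b α β c w i j * v i) z _ _ :=
    HD.sum Finset.univ fun i _ =>
      (HD.of_diff v ((g_smooth b α β c hU hz i j).differentiableAt (by simp))).mul_const _
  have h2 := HD_gU b α β c hU hz v (Pi.single j 1) v
  have e : (fun w => gU U b α β c w v (Pi.single j 1)) =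
      fun w => ∑ i, gM U b α β c w i j * v i := by
    funext w
    rw [gU_left]
    exact Finset.sum_congr rfl (fun i _ => by rw [gM_apply]; ring)
  rw [e] at h2
  unfold Pf
  rw [← (h1.unique h2).1]
  refine Finset.sum_congr rfl (fun i _ => ?_)
  rw [Finset.sum_mul]
  exact Finset.sum_congr rfl (fun k _ => by ring)

lemma Pb_eq (v : Fin n → ℂ) (i : Fin n) :
    ∑ j, ∑ l, cpdb (fun w => gM U b α β c w i j) l z * conj (v j) * conj (v l) =
      conj (Pf U b α β c z v i) := by
  rw [← P_eq b α β c hU hz v i, map_sum]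
  refine Finset.sum_congr rfl (fun j _ => ?_)
  have h1 := (HD.of_diff v ((g_smooth b α β c hU hz j i).differentiableAt (by simp))).conj
  have e : (fun w => conj (gM U b α β c w j i)) = fun w => gM U b α β c w i j := by
    funext w
    rw [gM_apply, gU_conj b α β c hU, gM_apply]
  rw [e] at h1
  have h2 := h1.sum_cpdb
  rw [map_sum] at h2
  rw [map_sum]
  calc ∑ l, cpdb (fun w => gM U b α β c w i j) l z * conj (v j) * conj (v l) =
      (∑ l, cpdb (fun w => gM U b α β c w i j) l z * conj (v l)) * conj (v j) := by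
        rw [Finset.sum_mul]
        exact Finset.sum_congr rfl (fun l _ => by ring)
    _ = _ := by
        rw [h2, Finset.sum_mul]
        refine Finset.sum_congr rfl (fun l _ => ?_)
        simp only [map_mul]
        ring

lemma curv_sum (v : Fin n → ℂ) :
    ∑ i, ∑ j, ∑ k, ∑ l, curv (gM U b α β c) z i j k l * v i * conj (v j) * v k * conj (v l) =
      -Tf U b α β c z v + ∑ a, ∑ a', Pf U b α β c z v a * (gM U b α β c z)⁻¹ a a' *
        conj (Pf U b α β c z v a') := by
  unfold curv
  simp only [add_mul, neg_mul, Finset.sum_add_distrib, Finset.sum_neg_distrib]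
  rw [T_eq b α β c hU hz v, rearr (fun i a k => cpd (fun w => gM U b α β c w i a) k z)
    (fun a a' => (gM U b α β c z)⁻¹ a a') (fun a' j l => cpdb (fun w => gM U b α β c w a' j) l z)
    v v (fun j => conj (v j)) (fun l => conj (v l))]
  simp only [P_eq b α β c hU hz v, Pb_eq b α β c hU hz v]

lemma closed_eq (i j k : Fin n) :
    cpd (fun w => gM U b α β c w i j) k z = cpd (fun w => gM U b α β c w k j) i z := by
  have h1 := (HD_gU b α β c hU hz (Pi.single i 1) (Pi.single j 1) (Pi.single k 1)).cpd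
  have h2 := (HD_gU b α β c hU hz (Pi.single k 1) (Pi.single j 1) (Pi.single i 1)).cpd
  rw [Ef_symm b α β (Pi.single i 1) (Pi.single k 1), D3_swap12 hU, D3_swap23 hU,
    D3_swap12 hU] at h1
  exact h1.trans h2.symm

omit hz in
lemma herm (z : Fin n → ℂ) : (gM U b α β c z).IsHermitian := by
  ext i j
  rw [Matrix.conjTranspose_apply, gM_apply, gM_apply]
  exact gU_conj b α β c hU _ _

omit hz in
/-- completing the square -/
lemma square (v w : Fin n → ℂ) :
    c * holQ U (slog b α β z) (xilog b α β z v)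
      (fun a => Ef b α β z v v a + xilog b α β z w a) =
    (Tf U b α β c z v).re + 2 * (∑ i, Pf U b α β c z v i * conj (w i)).re +
      (gU U b α β c z w w).re := by
  have hP : ∑ i, Pf U b α β c z v i * conj (w i) =
      c * (D3 U (slog b α β z) (xilog b α β z v) (fun a => conj (xilog b α β z w a))
        (xilog b α β z v) + D2 U (slog b α β z) (Ef b α β z v v)
          (fun a => conj (xilog b α β z w a))) := by
    have e : (fun a => conj (xilog b α β z w a)) =
        fun a => ∑ i, conj (w i) * (fun a => conj (xilog b α β z (Pi.single i 1) a)) a := by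
      funext a
      rw [X_sum b α β z w]
      simp only [map_sum, map_mul]
    rw [e, D3_sum_2, D2_sum_right, ← Finset.sum_add_distrib, Finset.mul_sum]
    refine Finset.sum_congr rfl (fun i _ => ?_)
    unfold Pf
    ring
  rw [hP]
  unfold holQ Tf gU
  simp only [map_add]
  rw [D3_add_left, D2_add_left, D2_add_right, D2_add_right]
  simp only [Complex.add_re, Complex.re_ofReal_mul]
  rw [D4_swap34 hU (w := fun a => conj (xilog b α β z v a)) (y := xilog b α β z v),
    D4_swap23 hU (v := fun a => conj (xilog b α β z v a)) (w := xilog b α β z v)]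
  have e1 : (D3 U (slog b α β z) (xilog b α β z v) (fun a => conj (Ef b α β z v v a))
      (xilog b α β z v)).re = (D3 U (slog b α β z) (Ef b α β z v v)
        (fun a => conj (xilog b α β z v a)) (fun a => conj (xilog b α β z v a))).re := by
    rw [← Complex.conj_re, conj_D3, D3_swap12 hU]
    simp only [Complex.conj_conj]
  have e2 : (D3 U (slog b α β z) (xilog b α β z w) (fun a => conj (xilog b α β z v a))
      (fun a => conj (xilog b α β z v a))).re = (D3 U (slog b α β z) (xilog b α β z v)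
        (fun a => conj (xilog b α β z w a)) (xilog b α β z v)).re := by
    rw [← Complex.conj_re, conj_D3, D3_swap12 hU]
    simp only [Complex.conj_conj]
  have e3 : (D2 U (slog b α β z) (xilog b α β z w) (fun a => conj (Ef b α β z v v a))).re =
      (D2 U (slog b α β z) (Ef b α β z v v) (fun a => conj (xilog b α β z w a))).re := by
    rw [← Complex.conj_re, conj_D2, D2_swap hU]
    simp only [Complex.conj_conj]
  rw [e1, e2, e3]
  ring

omit hU hz in
/-- the Schur complement -/
lemma schur (hM : (gM U b α β c z).PosDef) (v : Fin n → ℂ) : ∃ w : Fin n → ℂ,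
    (∑ a, ∑ a', Pf U b α β c z v a * (gM U b α β c z)⁻¹ a a' *
        conj (Pf U b α β c z v a')) = -∑ i, Pf U b α β c z v i * conj (w i) ∧
    gU U b α β c z w w = -∑ i, Pf U b α β c z v i * conj (w i) := by
  set M := gM U b α β c z with hMdef
  set P := Pf U b α β c z v with hP
  have hdet : IsUnit M.det := (Matrix.isUnit_iff_isUnit_det M).1 hM.isUnit
  refine ⟨fun i => -∑ a, P a * M⁻¹ a i, ?_, ?_⟩
  · rw [← Finset.sum_neg_distrib]
    refine Finset.sum_congr rfl (fun a _ => ?_)
    rw [map_neg, map_sum, mul_neg, neg_neg, Finset.mul_sum]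
    refine Finset.sum_congr rfl (fun a' _ => ?_)
    have h1 : conj (M⁻¹ a' a) = M⁻¹ a a' := hM.isHermitian.inv.apply a a'
    rw [map_mul, h1]
    ring
  · rw [gU_sum, ← hMdef, Finset.sum_comm, ← Finset.sum_neg_distrib]
    refine Finset.sum_congr rfl (fun j _ => ?_)
    rw [← Finset.sum_mul, ← neg_mul]
    congr 1
    have h2 : ∑ i, M i j * (-∑ a, P a * M⁻¹ a i) = -∑ a, P a * (M⁻¹ * M) a j := by
      simp only [Matrix.mul_apply, mul_neg, Finset.sum_neg_distrib, Finset.mul_sum]
      rw [Finset.sum_comm]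
      congr 1
      refine Finset.sum_congr rfl (fun a _ => Finset.sum_congr rfl (fun i _ => ?_))
      ring
    rw [h2, Matrix.nonsing_inv_mul M hdet]
    simp [Matrix.one_apply]

end curvature

end T3aux

/-- From a potential `U` on `ℝ^q` to a Kaehler metric on the complement of the zero sets of the
affine functions. -/
theorem exists_kahler (U : (Fin q → ℝ) → ℝ) (hU : ContDiff ℝ ∞ U) (b : ℝ) (hb : 0 < b)
    (α : Fin q → ℂ) (β : Fin q → Fin n → ℂ) (c : ℝ) (hc : 0 < c)
    (hQ : ∀ z : Fin n → ℂ, (∀ i, aff (α i) (β i) z ≠ 0) → ∀ ξ η : Fin q → ℂ,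
      c * (D2 U (slog b α β z) ξ (fun i => conj (ξ i))).re ^ 2 ≤ holQ U (slog b α β z) ξ η)
    (hpos : ∀ z : Fin n → ℂ, (∀ i, aff (α i) (β i) z ≠ 0) → ∀ v : Fin n → ℂ, v ≠ 0 →
      0 < (D2 U (slog b α β z) (xilog b α β z v) (fun i => conj (xilog b α β z v i))).re) :
    ∃ G : KahlerMetricOn {z : Fin n → ℂ | ∀ i, aff (α i) (β i) z ≠ 0},
      ∀ z : Fin n → ℂ, (∀ i, aff (α i) (β i) z ≠ 0) → ∀ v : Fin n → ℂ, v ≠ 0 →
        hsc G.g z v ≤ -1 := by
  have hre : ∀ z v : Fin n → ℂ, (T3aux.gU U b α β c z v v).re =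
      c * (D2 U (slog b α β z) (xilog b α β z v) (fun i => conj (xilog b α β z v i))).re := by
    intro z v
    unfold T3aux.gU
    rw [Complex.re_ofReal_mul]
  have hPD : ∀ z ∈ {z : Fin n → ℂ | ∀ i, aff (α i) (β i) z ≠ 0},
      (T3aux.gM U b α β c z).PosDef := by
    intro z hz
    refine Matrix.PosDef.of_dotProduct_mulVec_pos (T3aux.herm b α β c hU z) (fun x hx => ?_)
    have e : star x ⬝ᵥ (T3aux.gM U b α β c z).mulVec x =
        T3aux.gU U b α β c z (fun i => conj (x i)) (fun i => conj (x i)) := by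
      rw [T3aux.gU_sum]
      simp only [dotProduct, Matrix.mulVec, Finset.mul_sum]
      refine Finset.sum_congr rfl (fun i _ => Finset.sum_congr rfl (fun j _ => ?_))
      rw [Complex.conj_conj]
      show conj (x i) * _ = _
      ring
    have hx' : (fun i => conj (x i)) ≠ (0 : Fin n → ℂ) := by
      intro h
      apply hx
      funext i
      have := congrFun h i
      simpa using this
    rw [e, Complex.lt_def]
    constructor
    · rw [hre]
      exact mul_pos hc (hpos z hz _ hx')
    · have h1 := T3aux.gU_conj b α β c hU (z := z) (fun i => conj (x i)) (fun i => conj (x i))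
      have h2 := congrArg Complex.im h1
      rw [Complex.conj_im] at h2
      rw [Complex.zero_im]
      linarith
  refine ⟨⟨T3aux.gM U b α β c, fun i j z hz =>
    (T3aux.g_smooth b α β c hU hz i j).contDiffWithinAt, hPD,
    fun z hz i j k => T3aux.closed_eq b α β c hU hz i j k⟩, ?_⟩
  intro z hz v hv
  show hsc (T3aux.gM U b α β c) z v ≤ -1
  unfold hsc
  rw [T3aux.curv_sum b α β c hU hz v]
  have hm : metricSq (T3aux.gM U b α β c) z v = c * (D2 U (slog b α β z) (xilog b α β z v)
      (fun i => conj (xilog b α β z v i))).re := by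
    unfold metricSq
    rw [← T3aux.gU_sum, hre]
  rw [hm]
  obtain ⟨w, h1, h2⟩ := T3aux.schur b α β c (hPD z hz) v
  have h3 := T3aux.square b α β c hU (z := z) v w
  have h4 := hQ z hz (xilog b α β z v)
    (fun a => T3aux.Ef b α β z v v a + xilog b α β z w a)
  have h5 := hpos z hz v hv
  set D := (D2 U (slog b α β z) (xilog b α β z v) (fun i => conj (xilog b α β z v i))).re
  rw [h1, div_le_iff₀ (by positivity), Complex.add_re, Complex.neg_re, Complex.neg_re]
  rw [h2, Complex.neg_re] at h3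
  have h6 := mul_le_mul_of_nonneg_left h4 hc.le
  rw [h3] at h6
  nlinarith [h6]

end

end Pool.Agent.H789.HSC
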