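import Pool.Agent.H789.HSC.Recur
import Pool.Agent.H789.HSC.JetCalc
import Pool.Agent.H789.HSC.Geom
import Pool.Agent.H789.HSC.Fan

/-! The final step: from level `0` of the recursion to the metric; charts. -/

open scoped BigOperators ContDiff ComplexConjugate

namespace Pool.Agent.H789.HSC

noncomputable section

namespace C9aux

variable {n : ℕ}

lemma lform_add (L x y : Fin (n + 1) → ℂ) : lform L (x + y) = lform L x + lform L y := by
  simp [lform, mul_add, Finset.sum_add_distrib]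

lemma lform_smul (L : Fin (n + 1) → ℂ) (c : ℂ) (x : Fin (n + 1) → ℂ) :
    lform L (c • x) = c * lform L x := by
  simp only [lform, Pi.smul_apply, smul_eq_mul, Finset.mul_sum]
  exact Finset.sum_congr rfl fun j _ => by ring

lemma lform_zero (L : Fin (n + 1) → ℂ) : lform L 0 = 0 := by simp [lform]

lemma lform_sum (L : Fin (n + 1) → ℂ) {ι : Type*} (s : Finset ι) (x : ι → Fin (n + 1) → ℂ) :
    lform L (∑ i ∈ s, x i) = ∑ i ∈ s, lform L (x i) := by
  classical
  induction s using Finset.induction_on with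
  | empty => simp [lform_zero]
  | insert a s ha ih => rw [Finset.sum_insert ha, Finset.sum_insert ha, lform_add, ih]

lemma cons_decomp (z : Fin n → ℂ) :
    (Fin.cons 0 z : Fin (n + 1) → ℂ) =
      ∑ j, z j • (Fin.cons 0 (Pi.single j 1) : Fin (n + 1) → ℂ) := by
  funext k
  rw [Finset.sum_apply]
  refine Fin.cases ?_ (fun k => ?_) k
  · simp
  · simp only [Fin.cons_succ, Pi.smul_apply, smul_eq_mul]
    rw [Finset.sum_eq_single k]
    · simp
    · intro j _ hj
      simp [hj.symm]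
    · simp

lemma lform_cons0 (L : Fin (n + 1) → ℂ) (T₀ : (Fin (n + 1) → ℂ) ≃ₗ[ℂ] (Fin (n + 1) → ℂ))
    (v : Fin n → ℂ) :
    ∑ j, lform L (T₀ (Fin.cons 0 (Pi.single j 1))) * v j = lform L (T₀ (Fin.cons 0 v)) := by
  rw [cons_decomp v, map_sum, lform_sum]
  refine Finset.sum_congr rfl fun j _ => ?_
  rw [map_smul, lform_smul, mul_comm]

lemma aff_eq (L : Fin (n + 1) → ℂ) (T₀ : (Fin (n + 1) → ℂ) ≃ₗ[ℂ] (Fin (n + 1) → ℂ))
    (z : Fin n → ℂ) :
    aff (lform L (T₀ (Fin.cons 1 0))) (fun j => lform L (T₀ (Fin.cons 0 (Pi.single j 1)))) z =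
      lform L (T₀ (Fin.cons 1 z)) := by
  unfold aff
  rw [lform_cons0, ← lform_add, ← map_add]
  congr 2
  funext k
  refine Fin.cases ?_ (fun k => ?_) k
  · simp
  · simp

end C9aux

open C9aux

/-- C9: from level `0` to the metric on the complement of `2 n + 1` hyperplanes. -/
theorem metric_of_level {n : ℕ} (hn : 1 ≤ n) (hlev : Level n (2 * n + 1) 0)
    (L : Fin (2 * n + 1) → Fin (n + 1) → ℂ) (hL : GenPos L)
    (T₀ : (Fin (n + 1) → ℂ) ≃ₗ[ℂ] (Fin (n + 1) → ℂ)) (hT : ∀ x, lform (L 0) (T₀ x) = x 0) :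
    ∃ G : KahlerMetricOn {z : Fin n → ℂ | ∀ i, lform (L i) (T₀ (Fin.cons 1 z)) ≠ 0},
      ∀ z : Fin n → ℂ, (∀ i, lform (L i) (T₀ (Fin.cons 1 z)) ≠ 0) → ∀ v : Fin n → ℂ, v ≠ 0 →
        hsc G.g z v ≤ -1 := by
  obtain ⟨U, C, ϑ, T, R, hC, hϑ, hTp, hR, hB, hG⟩ := hlev
  obtain ⟨c0, hc0, hfan⟩ := fan (n := n) (q := 2 * n + 1) le_rfl L hL
  obtain ⟨α, hα⟩ : ∃ α : Fin (2 * n + 1) → ℂ, α = fun i => lform (L i) (T₀ (Fin.cons 1 0)) :=
    ⟨_, rfl⟩
  obtain ⟨β, hβ⟩ : ∃ β : Fin (2 * n + 1) → Fin n → ℂ,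
      β = fun i j => lform (L i) (T₀ (Fin.cons 0 (Pi.single j 1))) := ⟨_, rfl⟩
  have key : ∀ i z, aff (α i) (β i) z = lform (L i) (T₀ (Fin.cons 1 z)) := by
    intro i z
    rw [hα, hβ]
    exact aff_eq (L i) T₀ z
  obtain ⟨b, hbdef⟩ : ∃ b : ℝ, b = T / (1 + |Real.log (c0 ^ 2)|) := ⟨_, rfl⟩
  have hden : 0 < 1 + |Real.log (c0 ^ 2)| := by positivity
  have hb : 0 < b := by rw [hbdef]; positivity
  have hbT : b * |Real.log (c0 ^ 2)| ≤ T := by
    rw [hbdef, div_mul_eq_mul_div, div_le_iff₀ hden]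
    nlinarith [abs_nonneg (Real.log (c0 ^ 2))]
  have htops : ∀ z : Fin n → ℂ, (∀ i, aff (α i) (β i) z ≠ 0) →
      n + 1 ≤ (tops (slog b α β z) T).card := by
    intro z hz
    refine (hfan (T₀ (Fin.cons 1 z))).trans (Finset.card_le_card ?_)
    intro i hi
    rw [Finset.mem_filter] at hi
    unfold tops
    rw [Finset.mem_filter]
    refine ⟨Finset.mem_univ _, ?_⟩
    have h1 : mx (slog b α β z) ≤ slog b α β z i + T := by
      unfold mx
      refine ciSup_le fun j => ?_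
      have h2 := hi.2 j
      rw [← key, ← key] at h2
      have hi0 : 0 < ‖aff (α i) (β i) z‖ := norm_pos_iff.2 (hz i)
      have hj0 : 0 < ‖aff (α j) (β j) z‖ := norm_pos_iff.2 (hz j)
      have h3 : c0 ^ 2 * ‖aff (α j) (β j) z‖ ^ 2 ≤ ‖aff (α i) (β i) z‖ ^ 2 := by
        rw [← mul_pow]
        exact pow_le_pow_left₀ (by positivity) h2 2
      have h4 := Real.log_le_log (by positivity) h3
      rw [Real.log_mul (by positivity) (by positivity)] at h4
      have h5 := neg_abs_le (Real.log (c0 ^ 2))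
      unfold slog
      have h6 := mul_le_mul_of_nonneg_left h4 hb.le
      have h7 := mul_le_mul_of_nonneg_left h5 hb.le
      have h8 : b * (Real.log (c0 ^ 2) + Real.log (‖aff (α j) (β j) z‖ ^ 2)) =
        b * Real.log (c0 ^ 2) + b * Real.log (‖aff (α j) (β j) z‖ ^ 2) := by ring
      have h9 : b * -|Real.log (c0 ^ 2)| = -(b * |Real.log (c0 ^ 2)|) := by ring
      linarith
    linarith
  have hgood : ∀ z : Fin n → ℂ, (∀ i, aff (α i) (β i) z ≠ 0) →
      GoodAt U T C (slog b α β z) := fun z hz => hG _ (htops z hz) (Nat.zero_le _)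
  have hjet : ∀ (s : Fin (2 * n + 1) → ℝ) (ξ η : Fin (2 * n + 1) → ℂ), ∃ J : Jet,
      HasJet (fun ζ => U (hpath s ξ η ζ)) J := by
    intro s ξ η
    apply exists_hasJet
    have h1 : ContDiffAt ℝ 4 (fun ζ => hpath s ξ η ζ) 0 :=
      contDiffAt_pi.2 fun i => (hasJet_hpath s ξ η i).1
    exact ((hB.smooth.of_le (by exact ENat.LEInfty.out)).contDiffAt).comp (0 : ℂ) h1
  have hU4 : ∀ s, ContDiffAt ℝ 4 U s := fun s =>
    (hB.smooth.of_le (by exact ENat.LEInfty.out)).contDiffAt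
  obtain ⟨G, hGG⟩ := exists_kahler U hB.smooth b hb α β (1 / C ^ 2) (by positivity) (by
    intro z hz ξ η
    obtain ⟨J, hJ⟩ := hjet (slog b α β z) ξ η
    obtain ⟨h1, h2, -, -⟩ := holQ_eq_of_hasJet (hU4 _) hJ
    obtain ⟨A, hA0, hA1, hA2, -, -⟩ := hgood z hz ξ η J hJ
    rw [h1, h2]
    have hC0 : 0 < C := by linarith
    have h3 : J.h ^ 2 ≤ (C * A ^ 2) ^ 2 := by
      rw [← sq_abs]
      exact pow_le_pow_left₀ (abs_nonneg _) hA2 2
    rw [div_mul_eq_mul_div, one_mul, div_le_iff₀ (by positivity)]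
    calc J.h ^ 2 ≤ (C * A ^ 2) ^ 2 := h3
      _ = A ^ 4 * C ^ 2 := by ring
      _ ≤ J.Q * C ^ 2 := mul_le_mul_of_nonneg_right hA1 (by positivity)) (by
    intro z hz v hv
    obtain ⟨J, hJ⟩ := hjet (slog b α β z) 0 (xilog b α β z v)
    obtain ⟨h1, -, -, -⟩ := holQ_eq_of_hasJet (hU4 _) hJ
    obtain ⟨A, hA0, hA1, -, -, hA2⟩ := hgood z hz 0 (xilog b α β z v) J hJ
    have h2 : holQ U (slog b α β z) 0 (xilog b α β z v) =
        (D2 U (slog b α β z) (xilog b α β z v) (fun i => conj (xilog b α β z v i))).re := by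
      unfold holQ D4 D3
      simp
    rw [← h2, h1]
    by_contra hcon
    push Not at hcon
    have hA : A = 0 := by
      have h3 : A ^ 4 ≤ 0 := hA1.trans hcon
      exact pow_eq_zero_iff (by norm_num) |>.1 (le_antisymm h3 (by positivity))
    have h4 : ∀ i ∈ tops (slog b α β z) T, lform (L i)
        (T₀ ((b : ℂ) • Fin.cons 0 v - J.b • Fin.cons 1 z)) = 0 := by
      intro i hi
      have h5 := (hA2 i hi).2
      rw [hA] at h5
      have h6 : J.b = xilog b α β z v i := by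
        have : ‖J.b - xilog b α β z v i‖ ≤ 0 := by simpa using h5
        exact sub_eq_zero.1 (norm_le_zero_iff.1 this)
      have h7 : xilog b α β z v i * aff (α i) (β i) z = b * ∑ j, β i j * v j := by
        unfold xilog
        exact div_mul_cancel₀ _ (hz i)
      have h8 : ∑ j, β i j * v j = lform (L i) (T₀ (Fin.cons 0 v)) := by
        rw [hβ]
        exact lform_cons0 (L i) T₀ v
      rw [h8, key] at h7
      rw [sub_eq_add_neg, ← neg_smul, map_add, map_smul, map_smul, lform_add, lform_smul,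
        lform_smul, h6, ← h7]
      ring
    have h9 := eq_zero_of_lform L hL _ (htops z hz) _ h4
    have h10 : (b : ℂ) • (Fin.cons 0 v : Fin (n + 1) → ℂ) - J.b • Fin.cons 1 z = 0 :=
      T₀.map_eq_zero_iff.1 h9
    have h11 := congrFun h10 0
    have h12 : J.b = 0 := by simpa using h11
    apply hv
    funext j
    have h13 := congrFun h10 (Fin.succ j)
    rw [h12] at h13
    have h14 : (b : ℂ) * v j = 0 := by simpa using h13
    have hb' : (b : ℂ) ≠ 0 := by exact_mod_cast hb.ne'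
    exact (mul_eq_zero.1 h14).resolve_left hb')
  have hset : {z : Fin n → ℂ | ∀ i, lform (L i) (T₀ (Fin.cons 1 z)) ≠ 0} =
      {z : Fin n → ℂ | ∀ i, aff (α i) (β i) z ≠ 0} := by
    ext z
    simp only [Set.mem_ofPred_eq, key]
  rw [hset]
  exact ⟨G, fun z hz v hv => hGG z (fun i => by rw [key]; exact hz i) v hv⟩

/-- C10: coordinates with `L₀` as first coordinate exist. -/
theorem exists_coord {n : ℕ} (L : Fin (2 * n + 1) → Fin (n + 1) → ℂ) (hL : GenPos L) :
    ∃ T₀ : (Fin (n + 1) → ℂ) ≃ₗ[ℂ] (Fin (n + 1) → ℂ), ∀ x, lform (L 0) (T₀ x) = x 0 := by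
  have h0 : L 0 ≠ 0 := by
    obtain ⟨S, hS, hc⟩ := Finset.exists_superset_card_eq (s := {(0 : Fin (2 * n + 1))})
      (n := n + 1) (by simp) (by simp; omega)
    have := (hL S hc).ne_zero ⟨0, hS (Finset.mem_singleton_self _)⟩
    exact this
  obtain ⟨j₀, hj₀⟩ : ∃ j, L 0 j ≠ 0 := by
    by_contra h
    push Not at h
    exact h0 (funext h)
  let S : (Fin (n + 1) → ℂ) →ₗ[ℂ] (Fin (n + 1) → ℂ) :=
    { toFun := fun x => Fin.cons (lform (L 0) x) (fun k => x (j₀.succAbove k))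
      map_add' := by
        intro x y
        funext k
        refine Fin.cases ?_ (fun k => ?_) k
        · simp [lform_add]
        · simp
      map_smul' := by
        intro c x
        funext k
        refine Fin.cases ?_ (fun k => ?_) k
        · simp [lform_smul]
        · simp }
  have hS : Function.Injective S := by
    rw [injective_iff_map_eq_zero]
    intro x hx
    have h1 : ∀ k, x (j₀.succAbove k) = 0 := by
      intro k
      have := congrFun hx (Fin.succ k)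
      simpa [S] using this
    have h2 : lform (L 0) x = 0 := by
      have := congrFun hx 0
      simpa [S] using this
    unfold lform at h2
    rw [Fin.sum_univ_succAbove _ j₀] at h2
    simp only [h1, mul_zero, Finset.sum_const_zero, add_zero] at h2
    have h3 : x j₀ = 0 := (mul_eq_zero.1 h2).resolve_left hj₀
    funext k
    rcases Fin.eq_self_or_eq_succAbove j₀ k with h | ⟨m, h⟩
    · rw [h, h3]; rfl
    · rw [h, h1]; rfl
  refine ⟨(LinearEquiv.ofInjectiveEndo S hS).symm, fun x => ?_⟩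
  have h4 : S ((LinearEquiv.ofInjectiveEndo S hS).symm x) = x :=
    (LinearEquiv.ofInjectiveEndo S hS).apply_symm_apply x
  have h5 := congrFun h4 0
  simpa [S] using h5

/-- C11: the chart `z ↦ [T₀ (1, z)]` maps `Ω` bijectively onto the complement of the hyperplanes
`{L_i = 0}` in projective space. -/
theorem chart_bijOn {n : ℕ} (L : Fin (2 * n + 1) → Fin (n + 1) → ℂ)
    (T₀ : (Fin (n + 1) → ℂ) ≃ₗ[ℂ] (Fin (n + 1) → ℂ)) (hT : ∀ x, lform (L 0) (T₀ x) = x 0) :
    ∃ h : ∀ z : Fin n → ℂ, T₀ (Fin.cons 1 z) ≠ 0,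
      Set.BijOn (fun z : Fin n → ℂ => Projectivization.mk ℂ (T₀ (Fin.cons 1 z)) (h z))
        {z : Fin n → ℂ | ∀ i, lform (L i) (T₀ (Fin.cons 1 z)) ≠ 0}
        {P : Projectivization ℂ (Fin (n + 1) → ℂ) | ∀ i, lform (L i) P.rep ≠ 0} := by
  have h : ∀ z : Fin n → ℂ, T₀ (Fin.cons 1 z) ≠ 0 := by
    intro z hz
    have h1 := congrFun (T₀.map_eq_zero_iff.1 hz) 0
    simp at h1
  refine ⟨h, ?_, ?_, ?_⟩
  · intro z hz i
    obtain ⟨a, ha⟩ := Projectivization.exists_smul_eq_mk_rep ℂ (T₀ (Fin.cons 1 z)) (h z)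
    rw [← ha]
    show lform (L i) ((a : ℂ) • T₀ (Fin.cons 1 z)) ≠ 0
    rw [lform_smul]
    exact mul_ne_zero a.ne_zero (hz i)
  · intro z hz z' hz' he
    obtain ⟨a, ha⟩ := (Projectivization.mk_eq_mk_iff ℂ _ _ (h z) (h z')).1 he
    have h1 : T₀ ((a : ℂ) • Fin.cons 1 z') = T₀ (Fin.cons 1 z) := by
      rw [map_smul]; exact ha
    have h2 := T₀.injective h1
    have h3 : (a : ℂ) = 1 := by
      have := congrFun h2 0
      simpa using this
    funext j
    have h4 := congrFun h2 (Fin.succ j)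
    rw [h3] at h4
    simpa using h4.symm
  · intro P hP
    have hP' : ∀ i, lform (L i) P.rep ≠ 0 := hP
    obtain ⟨y, hy⟩ : ∃ y, y = T₀.symm P.rep := ⟨_, rfl⟩
    have hTy : T₀ y = P.rep := by rw [hy]; exact T₀.apply_symm_apply _
    have hy0 : y 0 ≠ 0 := by
      rw [← hT y, hTy]; exact hP' 0
    have hcons : (Fin.cons 1 (fun j => (y 0)⁻¹ * y (Fin.succ j)) : Fin (n + 1) → ℂ) =
        (y 0)⁻¹ • y := by
      funext k
      refine Fin.cases ?_ (fun k => ?_) k
      · simp [hy0]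
      · simp
    have hTz : T₀ (Fin.cons 1 (fun j => (y 0)⁻¹ * y (Fin.succ j))) = (y 0)⁻¹ • P.rep := by
      rw [hcons, map_smul, hTy]
    refine ⟨fun j => (y 0)⁻¹ * y (Fin.succ j), ?_, ?_⟩
    · intro i
      rw [hTz, lform_smul]
      exact mul_ne_zero (inv_ne_zero hy0) (hP' i)
    · have h5 : Projectivization.mk ℂ P.rep P.rep_nonzero = P := P.mk_rep
      conv_rhs => rw [← h5]
      exact (Projectivization.mk_eq_mk_iff' ℂ _ _ _ _).2 ⟨(y 0)⁻¹, hTz.symm⟩

end

end Pool.Agent.H789.HSC
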