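import Pool.Agent.H789.HSC.Defs

/-! Jet calculus in one complex variable (task T1 of project HSC). -/

open scoped BigOperators ContDiff ComplexConjugate Topology
open Filter

namespace Pool.Agent.H789.HSC

noncomputable section

namespace T1aux

/-- a first order derivation on germs -/
def dv (v : ℂ) (f : ℂ → ℂ) (z : ℂ) : ℂ := fderiv ℝ f z v

structure IsD (D : (ℂ → ℂ) → ℂ → ℂ) : Prop where
  congr : ∀ {f g : ℂ → ℂ}, f =ᶠ[𝓝 0] g → D f =ᶠ[𝓝 0] D g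
  cd : ∀ {f : ℂ → ℂ} {n : ℕ}, ContDiffAt ℝ (n + 1 : ℕ) f 0 → ContDiffAt ℝ n (D f) 0
  add : ∀ {f g : ℂ → ℂ}, ContDiffAt ℝ 1 f 0 → ContDiffAt ℝ 1 g 0 → D (f + g) =ᶠ[𝓝 0] D f + D g
  mul : ∀ {f g : ℂ → ℂ}, ContDiffAt ℝ 1 f 0 → ContDiffAt ℝ 1 g 0 →
    D (f * g) =ᶠ[𝓝 0] f * D g + g * D f

theorem ev {f : ℂ → ℂ} {n : ℕ} (h : ContDiffAt ℝ n f 0) : ∀ᶠ z in 𝓝 0, ContDiffAt ℝ n f z :=
  h.eventually (by simp)

theorem ev1 {f : ℂ → ℂ} (h : ContDiffAt ℝ 1 f 0) : ∀ᶠ z in 𝓝 0, DifferentiableAt ℝ f z :=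
  (h.eventually (by simp)).mono fun _ h => h.differentiableAt (by simp)

theorem isD_dv (v : ℂ) : IsD (dv v) where
  congr := by
    intro f g h
    filter_upwards [h.fderiv (𝕜 := ℝ)] with z hz
    simp [dv, hz]
  cd := by
    intro f n h
    have h' : ContDiffAt ℝ n (fderiv ℝ f) 0 := h.fderiv_right (by exact_mod_cast le_rfl)
    exact h'.clm_apply contDiffAt_const
  add := by
    intro f g hf hg
    filter_upwards [ev1 hf, ev1 hg] with z h1 h2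
    simp only [dv, Pi.add_apply]
    rw [fderiv_add h1 h2]
    rfl
  mul := by
    intro f g hf hg
    filter_upwards [ev1 hf, ev1 hg] with z h1 h2
    simp only [dv, Pi.add_apply, Pi.mul_apply]
    rw [fderiv_mul h1 h2]
    simp [smul_eq_mul]

theorem isD_lin (c d : ℂ) {D E : (ℂ → ℂ) → ℂ → ℂ} (hD : IsD D) (hE : IsD E) :
    IsD (fun f z => c * D f z + d * E f z) where
  congr := by
    intro f g h
    filter_upwards [hD.congr h, hE.congr h] with z h1 h2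
    rw [h1, h2]
  cd := by
    intro f n h
    exact (contDiffAt_const.mul (hD.cd h)).add (contDiffAt_const.mul (hE.cd h))
  add := by
    intro f g hf hg
    filter_upwards [hD.add hf hg, hE.add hf hg] with z h1 h2
    simp only [Pi.add_apply] at h1 h2 ⊢
    rw [h1, h2]; ring
  mul := by
    intro f g hf hg
    filter_upwards [hD.mul hf hg, hE.mul hf hg] with z h1 h2
    simp only [Pi.add_apply, Pi.mul_apply] at h1 h2 ⊢
    rw [h1, h2]; ring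

theorem dz_eq : dz = fun f z => (1 / 2 : ℂ) * dv 1 f z + (-Complex.I / 2) * dv Complex.I f z := by
  funext f z
  simp only [dz, dv]; ring

theorem dzb_eq : dzb = fun f z => (1 / 2 : ℂ) * dv 1 f z + (Complex.I / 2) * dv Complex.I f z := by
  funext f z
  simp only [dzb, dv]; ring

theorem P : IsD dz := by
  rw [dz_eq]; exact isD_lin _ _ (isD_dv _) (isD_dv _)

theorem N : IsD dzb := by
  rw [dzb_eq]; exact isD_lin _ _ (isD_dv _) (isD_dv _)

theorem low {f : ℂ → ℂ} {n m : ℕ} (h : ContDiffAt ℝ n f 0) (hm : m ≤ n) : ContDiffAt ℝ m f 0 :=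
  h.of_le (by exact_mod_cast hm)

/-- additivity of second order operators -/
theorem A2 {D E : (ℂ → ℂ) → ℂ → ℂ} (hD : IsD D) (hE : IsD E) {f g : ℂ → ℂ}
    (hf : ContDiffAt ℝ (2 : ℕ) f 0) (hg : ContDiffAt ℝ (2 : ℕ) g 0) :
    E (D (f + g)) =ᶠ[𝓝 0] E (D f) + E (D g) :=
  (hE.congr (hD.add (low hf (by norm_num)) (low hg (by norm_num)))).trans
    (hE.add (hD.cd (n := 1) hf) (hD.cd (n := 1) hg))

/-- Leibniz rule of order two -/
theorem L2 {D E : (ℂ → ℂ) → ℂ → ℂ} (hD : IsD D) (hE : IsD E) {f g : ℂ → ℂ}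
    (hf : ContDiffAt ℝ (2 : ℕ) f 0) (hg : ContDiffAt ℝ (2 : ℕ) g 0) :
    E (D (f * g)) =ᶠ[𝓝 0] f * E (D g) + E f * D g + g * E (D f) + E g * D f := by
  have f1 : ContDiffAt ℝ 1 f 0 := low hf (by norm_num)
  have g1 : ContDiffAt ℝ 1 g 0 := low hg (by norm_num)
  have Df : ContDiffAt ℝ 1 (D f) 0 := hD.cd (n := 1) hf
  have Dg : ContDiffAt ℝ 1 (D g) 0 := hD.cd (n := 1) hg
  refine (hE.congr (hD.mul f1 g1)).trans ((hE.add (f1.mul Dg) (g1.mul Df)).trans ?_)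
  filter_upwards [hE.mul f1 Dg, hE.mul g1 Df] with z h1 h2
  change E (f * D g) z + E (g * D f) z = f z * E (D g) z + E f z * D g z + g z * E (D f) z
    + E g z * D f z
  rw [h1, h2]
  simp only [Pi.add_apply, Pi.mul_apply]; ring

theorem dv_comm (v w : ℂ) {f : ℂ → ℂ} (hf : ContDiffAt ℝ (2 : ℕ) f 0) :
    dv v (dv w f) =ᶠ[𝓝 0] dv w (dv v f) := by
  filter_upwards [ev hf] with z hz
  have hd : DifferentiableAt ℝ (fderiv ℝ f) z :=
    (hz.fderiv_right (m := 1) (by norm_num)).differentiableAt (by simp)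
  have key : ∀ u x : ℂ, dv u (dv x f) z = fderiv ℝ (fderiv ℝ f) z u x := by
    intro u x
    have : dv x f = fun y => fderiv ℝ f y x := rfl
    rw [dv, this, fderiv_clm_apply hd (differentiableAt_const _)]
    simp
  rw [key, key]
  have sym : IsSymmSndFDerivAt ℝ f z := hz.isSymmSndFDerivAt (by simp)
  exact sym v w

theorem comm {f : ℂ → ℂ} (hf : ContDiffAt ℝ (2 : ℕ) f 0) : dz (dzb f) =ᶠ[𝓝 0] dzb (dz f) := by
  have key : ∀ (v c d : ℂ), dv v (fun z => c * dv 1 f z + d * dv Complex.I f z) =ᶠ[𝓝 0]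
      fun z => c * dv v (dv 1 f) z + d * dv v (dv Complex.I f) z := by
    intro v c d
    have h1 : ContDiffAt ℝ 1 (dv 1 f) 0 := (isD_dv 1).cd (n := 1) hf
    have h2 : ContDiffAt ℝ 1 (dv Complex.I f) 0 := (isD_dv Complex.I).cd (n := 1) hf
    filter_upwards [ev1 h1, ev1 h2] with z e1 e2
    have e3 := ((e1.hasFDerivAt.const_mul c).add (e2.hasFDerivAt.const_mul d)).fderiv
    have e4 : dv v (fun z => c * dv 1 f z + d * dv Complex.I f z) z =
      (c • fderiv ℝ (dv 1 f) z + d • fderiv ℝ (dv Complex.I f) z) v := by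
      rw [← e3]; rfl
    rw [e4]
    simp [smul_eq_mul, dv]
  rw [dz_eq, dzb_eq]
  filter_upwards [key 1 (1/2) (Complex.I / 2), key Complex.I (1/2) (Complex.I / 2),
    key 1 (1/2) (-Complex.I / 2), key Complex.I (1/2) (-Complex.I / 2), dv_comm 1 Complex.I hf]
    with z h1 h2 h3 h4 h5
  rw [h1, h2, h3, h4, h5]
  ring

/-- conjugate -/
def cj (f : ℂ → ℂ) : ℂ → ℂ := fun z => conj (f z)

theorem dv_cj (v : ℂ) (f : ℂ → ℂ) (z : ℂ) : dv v (cj f) z = conj (dv v f z) := by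
  have := (Complex.conjCLE : ℂ ≃L[ℝ] ℂ).comp_fderiv (f := f) (x := z)
  have e : cj f = (Complex.conjCLE : ℂ ≃L[ℝ] ℂ) ∘ f := by
    funext z; simp [cj]
  rw [dv, e, this]
  simp [dv]

theorem dz_cj (f : ℂ → ℂ) : dz (cj f) = cj (dzb f) := by
  funext z
  rw [dz_eq, dzb_eq]
  simp only [dv_cj, cj, map_add, map_mul, map_div₀, map_one, Complex.conj_I, map_neg, map_ofNat]
  try simp

theorem dzb_cj (f : ℂ → ℂ) : dzb (cj f) = cj (dz f) := by
  funext z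
  rw [dz_eq, dzb_eq]
  simp only [dv_cj, cj, map_add, map_mul, map_div₀, map_one, Complex.conj_I, map_neg, map_ofNat]
  try simp

theorem cj_congr {f g : ℂ → ℂ} (h : f =ᶠ[𝓝 0] g) : cj f =ᶠ[𝓝 0] cj g := by
  filter_upwards [h] with z hz
  simp [cj, hz]

theorem cj_cj (f : ℂ → ℂ) : cj (cj f) = f := by
  funext z; simp [cj]

/-- real functions as complex functions -/
def re (φ : ℂ → ℝ) : ℂ → ℂ := fun z => (φ z : ℂ)

theorem cj_re (φ : ℂ → ℝ) : cj (re φ) = re φ := by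
  funext z; simp [cj, re]

theorem re_cd {φ : ℂ → ℝ} {n : ℕ} (h : ContDiffAt ℝ n φ 0) : ContDiffAt ℝ n (re φ) 0 :=
  Complex.ofRealCLM.contDiff.contDiffAt.comp (0 : ℂ) h

theorem dzb_re (φ : ℂ → ℝ) : dzb (re φ) = cj (dz (re φ)) := by
  rw [← dzb_cj, cj_re]

theorem nn_re (φ : ℂ → ℝ) : dzb (dzb (re φ)) = cj (dz (dz (re φ))) := by
  rw [dzb_re, dzb_cj]

theorem np_real {φ : ℂ → ℝ} (h : ContDiffAt ℝ (2 : ℕ) φ 0) :
    cj (dzb (dz (re φ))) =ᶠ[𝓝 0] dzb (dz (re φ)) := by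
  rw [← dz_cj, ← dzb_re]
  exact comm (re_cd h)

theorem nnp_re {φ : ℂ → ℝ} (h : ContDiffAt ℝ (3 : ℕ) φ 0) :
    dzb (dzb (dz (re φ))) =ᶠ[𝓝 0] cj (dzb (dz (dz (re φ)))) := by
  refine (N.congr (np_real (h.of_le (by norm_num)))).symm.trans ?_
  rw [dzb_cj]
  exact cj_congr (comm (P.cd (n := 2) (re_cd h)))

theorem nnpp_real {φ : ℂ → ℝ} (h : ContDiffAt ℝ (4 : ℕ) φ 0) :
    cj (dzb (dzb (dz (dz (re φ))))) =ᶠ[𝓝 0] dzb (dzb (dz (dz (re φ)))) := by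
  have h2 : ContDiffAt ℝ (2 : ℕ) (re φ) 0 := re_cd (h.of_le (by norm_num))
  have h4 : ContDiffAt ℝ (4 : ℕ) (re φ) 0 := re_cd h
  have h3P : ContDiffAt ℝ (3 : ℕ) (dz (re φ)) 0 := P.cd (n := 3) h4
  have h3N : ContDiffAt ℝ (3 : ℕ) (dzb (re φ)) 0 := N.cd (n := 3) h4
  -- `cj (N N P P φ) = P P N N φ`
  have e1 : cj (dzb (dzb (dz (dz (re φ))))) = dz (dz (dzb (dzb (re φ)))) := by
    rw [← dz_cj, ← dz_cj, ← nn_re]
  rw [e1]
  -- P P N N = P N P N = N P P N ... 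
  have s1 : dz (dzb (dzb (re φ))) =ᶠ[𝓝 0] dzb (dz (dzb (re φ))) := comm (low h3N (by norm_num))
  have s2 : dz (dzb (re φ)) =ᶠ[𝓝 0] dzb (dz (re φ)) := comm h2
  have s3 : dz (dzb (dzb (re φ))) =ᶠ[𝓝 0] dzb (dzb (dz (re φ))) := s1.trans (N.congr s2)
  have s4 : dz (dz (dzb (dzb (re φ)))) =ᶠ[𝓝 0] dz (dzb (dzb (dz (re φ)))) := P.congr s3
  have s5 : dz (dzb (dzb (dz (re φ)))) =ᶠ[𝓝 0] dzb (dz (dzb (dz (re φ)))) :=
    comm (N.cd (n := 2) h3P)
  have s6 : dz (dzb (dz (re φ))) =ᶠ[𝓝 0] dzb (dz (dz (re φ))) := comm (low h3P (by norm_num))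
  exact s4.trans (s5.trans (N.congr s6))

theorem real_of_cj {f : ℂ → ℂ} (h : cj f =ᶠ[𝓝 0] f) : f 0 = ((f 0).re : ℂ) := by
  have := h.self_of_nhds
  simp only [cj] at this
  exact (Complex.conj_eq_iff_re.1 this).symm

/-- all the values contained in a jet -/
structure Full (φ : ℂ → ℝ) (J : Jet) : Prop where
  cd : ContDiffAt ℝ (4 : ℕ) (re φ) 0
  v : re φ 0 = J.v
  a : dz (re φ) 0 = J.a
  a' : dzb (re φ) 0 = conj J.a
  b : dz (dz (re φ)) 0 = J.b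
  b' : dzb (dzb (re φ)) 0 = conj J.b
  h : dzb (dz (re φ)) 0 = J.h
  k : dzb (dz (dz (re φ))) 0 = J.k
  k' : dzb (dzb (dz (re φ))) 0 = conj J.k
  Q : dzb (dzb (dz (dz (re φ)))) 0 = J.Q

theorem full {φ : ℂ → ℝ} {J : Jet} (H : HasJet φ J) : Full φ J := by
  obtain ⟨h, hv, ha, hb, hh, hk, hQ⟩ := H
  refine ⟨re_cd (n := 4) h, by simp [re, hv], ha, ?_, hb, ?_, hh, hk, ?_, hQ⟩
  · rw [dzb_re]; simp only [cj]; rw [← ha]; rfl
  · rw [nn_re]; simp only [cj]; rw [← hb]; rfl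
  · have := (nnp_re (h.of_le (by norm_num) : ContDiffAt ℝ (3 : ℕ) φ 0)).self_of_nhds
    rw [this]; simp only [cj]; rw [← hk]; rfl

end T1aux

open T1aux

theorem HasJet.unique {φ : ℂ → ℝ} {J K : Jet} (h1 : HasJet φ J) (h2 : HasJet φ K) : J = K := by
  obtain ⟨-, a1, a2, a3, a4, a5, a6⟩ := h1
  obtain ⟨-, b1, b2, b3, b4, b5, b6⟩ := h2
  have e4 : (J.h : ℂ) = K.h := a4.symm.trans b4
  have e6 : (J.Q : ℂ) = K.Q := a6.symm.trans b6
  ext1
  · exact a1.symm.trans b1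
  · exact_mod_cast e4
  · exact_mod_cast e6
  · exact a2.symm.trans b2
  · exact a3.symm.trans b3
  · exact a5.symm.trans b5

theorem HasJet.congr {φ ψ : ℂ → ℝ} {J : Jet} (h : HasJet φ J) (e : φ =ᶠ[𝓝 0] ψ) : HasJet ψ J := by
  obtain ⟨h, hv, ha, hb, hh, hk, hQ⟩ := h
  have E : (fun z => (φ z : ℂ)) =ᶠ[𝓝 0] fun z => (ψ z : ℂ) := by
    filter_upwards [e] with z hz
    rw [hz]
  refine ⟨h.congr_of_eventuallyEq e.symm, ?_, ?_, ?_, ?_, ?_, ?_⟩
  · rw [← e.self_of_nhds, hv]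
  · rw [← (P.congr E).self_of_nhds, ha]
  · rw [← (P.congr (P.congr E)).self_of_nhds, hb]
  · rw [← (N.congr (P.congr E)).self_of_nhds, hh]
  · rw [← (N.congr (P.congr (P.congr E))).self_of_nhds, hk]
  · rw [← (N.congr (N.congr (P.congr (P.congr E)))).self_of_nhds, hQ]

/-- every `C^4` real function has a jet -/
theorem exists_hasJet {φ : ℂ → ℝ} (h : ContDiffAt ℝ 4 φ 0) : ∃ J, HasJet φ J := by
  refine ⟨⟨φ 0, (dzb (dz (re φ)) 0).re, (dzb (dzb (dz (dz (re φ)))) 0).re, dz (re φ) 0,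
    dz (dz (re φ)) 0, dzb (dz (dz (re φ))) 0⟩, h, rfl, rfl, rfl, ?_, rfl, ?_⟩
  · exact real_of_cj (np_real (h.of_le (by norm_num)))
  · exact real_of_cj (nnpp_real h)

namespace T1aux

theorem dv_const (v c : ℂ) : dv v (fun _ => c) = fun _ => 0 := by
  funext z; simp [dv]

theorem dz_const (c : ℂ) : dz (fun _ => c) = fun _ => 0 := by
  funext z; simp [dz]

theorem dzb_const (c : ℂ) : dzb (fun _ => c) = fun _ => 0 := by
  funext z; simp [dzb]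

theorem dv_add_at {f g : ℂ → ℂ} {z : ℂ} (hf : DifferentiableAt ℝ f z) (hg : DifferentiableAt ℝ g z)
    (v : ℂ) : dv v (fun z => f z + g z) z = dv v f z + dv v g z := by
  have := (hf.hasFDerivAt.add hg.hasFDerivAt).fderiv
  have e : dv v (fun z => f z + g z) z = (fderiv ℝ f z + fderiv ℝ g z) v := by
    rw [← this]; rfl
  rw [e]; rfl

theorem dz_add_at {f g : ℂ → ℂ} {z : ℂ} (hf : DifferentiableAt ℝ f z) (hg : DifferentiableAt ℝ g z) :
    dz (fun z => f z + g z) z = dz f z + dz g z := by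
  rw [dz_eq]; simp only [dv_add_at hf hg]; ring

theorem dz_hol {g : ℂ → ℂ} {g' z : ℂ} (h : HasDerivAt g g' z) : dz g z = g' := by
  have := h.complexToReal_fderiv.fderiv
  simp only [dz, this]
  simp
  linear_combination (-g'/2) * Complex.I_mul_I

theorem dzb_hol {g : ℂ → ℂ} {g' z : ℂ} (h : HasDerivAt g g' z) : dzb g z = 0 := by
  have := h.complexToReal_fderiv.fderiv
  simp only [dzb, this]
  simp
  linear_combination (g') * Complex.I_mul_I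

end T1aux

theorem hasJet_const (c : ℝ) : HasJet (fun _ => c) (Jet.const c) := by
  refine ⟨contDiffAt_const, rfl, ?_, ?_, ?_, ?_, ?_⟩ <;>
  simp [dz_const, dzb_const, Jet.const]

theorem hasJet_hpath {ι : Type*} (s : ι → ℝ) (ξ η : ι → ℂ) (i : ι) :
    HasJet (fun ζ => hpath s ξ η ζ i) (Jet.hol (s i) (ξ i) (η i)) := by
  set x := ξ i
  set y := η i
  have hg : ∀ z : ℂ, HasDerivAt (fun z : ℂ => z * x + z ^ 2 * y / 2) (x + z * y) z := by
    intro z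
    have := ((hasDerivAt_id z).mul_const x).add (((hasDerivAt_pow 2 z).mul_const y).div_const 2)
    refine this.congr_deriv ?_
    simp; ring
  have cd : ContDiff ℝ 4 (fun ζ => hpath s ξ η ζ i) := by
    unfold hpath
    have h0 : ContDiff ℝ 4 (fun ζ : ℂ => ζ * x + ζ ^ 2 * y / 2) := by fun_prop
    have h1 : ContDiff ℝ 4 (fun ζ : ℂ => (ζ * x + ζ ^ 2 * y / 2).re) :=
      Complex.reCLM.contDiff.comp h0
    exact contDiff_const.add (contDiff_const.mul h1)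
  have e0 : (fun z => ((hpath s ξ η z i : ℝ) : ℂ)) = fun z =>
      ((s i : ℝ) : ℂ) + ((z * x + z ^ 2 * y / 2) + cj (fun z => z * x + z ^ 2 * y / 2) z) := by
    funext z
    simp only [hpath, cj]
    rw [Complex.add_conj]
    push_cast
    rfl
  have e1 : dz (fun z => ((hpath s ξ η z i : ℝ) : ℂ)) = fun z => x + z * y := by
    funext z
    have d1 : DifferentiableAt ℝ (fun z : ℂ => z * x + z ^ 2 * y / 2) z := by fun_prop
    have d2 : DifferentiableAt ℝ (cj fun z : ℂ => z * x + z ^ 2 * y / 2) z :=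
      ((Complex.conjCLE : ℂ ≃L[ℝ] ℂ).differentiableAt).comp z d1
    have s1 := dz_add_at (f := fun _ => ((s i : ℝ) : ℂ)) (g := fun z => (z * x + z ^ 2 * y / 2)
      + cj (fun z => z * x + z ^ 2 * y / 2) z) (z := z) (differentiableAt_const _) (d1.add d2)
    have s2 := dz_add_at d1 d2
    rw [e0, s1, s2, dz_const, dz_cj, dz_hol (hg z)]
    simp [cj, dzb_hol (hg z)]
  have hh : ∀ z : ℂ, HasDerivAt (fun z : ℂ => x + z * y) y z := by
    intro z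
    have := ((hasDerivAt_id z).mul_const y).const_add x
    simpa using this
  have e2 : dz (dz (fun z => ((hpath s ξ η z i : ℝ) : ℂ))) = fun _ => y := by
    rw [e1]; funext z; exact dz_hol (hh z)
  have e3 : dzb (dz (fun z => ((hpath s ξ η z i : ℝ) : ℂ))) = fun _ => 0 := by
    rw [e1]; funext z; exact dzb_hol (hh z)
  refine ⟨cd.contDiffAt, ?_, ?_, ?_, ?_, ?_, ?_⟩
  · simp [hpath, Jet.hol]
  · rw [e1]; simp [Jet.hol, x]
  · rw [e2]; rfl
  · rw [e3]; simp [Jet.hol]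
  · rw [e2, dzb_const]; simp [Jet.hol]
  · rw [e2, dzb_const, dzb_const]; simp [Jet.hol]

theorem HasJet.add {φ ψ : ℂ → ℝ} {J K : Jet} (h1 : HasJet φ J) (h2 : HasJet ψ K) :
    HasJet (fun ζ => φ ζ + ψ ζ) (J.add K) := by
  have F := full h1
  have G := full h2
  have E : (fun z => ((φ z + ψ z : ℝ) : ℂ)) = re φ + re ψ := by
    funext z; simp [re]
  have cF := F.cd
  have cG := G.cd
  have p1 : dz (re φ + re ψ) =ᶠ[𝓝 0] dz (re φ) + dz (re ψ) :=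
    P.add (low cF (by norm_num)) (low cG (by norm_num))
  have p2 : dz (dz (re φ + re ψ)) =ᶠ[𝓝 0] dz (dz (re φ)) + dz (dz (re ψ)) :=
    A2 P P (low cF (by norm_num)) (low cG (by norm_num))
  have p3 : dzb (dz (re φ + re ψ)) =ᶠ[𝓝 0] dzb (dz (re φ)) + dzb (dz (re ψ)) :=
    A2 P N (low cF (by norm_num)) (low cG (by norm_num))
  have p4 : dzb (dz (dz (re φ + re ψ))) =ᶠ[𝓝 0] dzb (dz (dz (re φ))) + dzb (dz (dz (re ψ))) :=
    (N.congr p2).trans (N.add (low (P.cd (n := 2) (P.cd (n := 3) cF)) (by norm_num))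
      (low (P.cd (n := 2) (P.cd (n := 3) cG)) (by norm_num)))
  have p5 : dzb (dzb (dz (dz (re φ + re ψ)))) =ᶠ[𝓝 0]
      dzb (dzb (dz (dz (re φ)))) + dzb (dzb (dz (dz (re ψ)))) :=
    (N.congr (N.congr p2)).trans (A2 N N (P.cd (n := 2) (P.cd (n := 3) cF))
      (P.cd (n := 2) (P.cd (n := 3) cG)))
  refine ⟨h1.1.add h2.1, ?_, ?_, ?_, ?_, ?_, ?_⟩
  · simp only [h1.2.1, h2.2.1]; rfl
  · rw [E, p1.self_of_nhds, Pi.add_apply, F.a, G.a]; rfl
  · rw [E, p2.self_of_nhds, Pi.add_apply, F.b, G.b]; rfl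
  · rw [E, p3.self_of_nhds, Pi.add_apply, F.h, G.h]; simp [Jet.add]
  · rw [E, p4.self_of_nhds, Pi.add_apply, F.k, G.k]; rfl
  · rw [E, p5.self_of_nhds, Pi.add_apply, F.Q, G.Q]; simp [Jet.add]

theorem HasJet.mul {φ ψ : ℂ → ℝ} {J K : Jet} (h1 : HasJet φ J) (h2 : HasJet ψ K) :
    HasJet (fun ζ => φ ζ * ψ ζ) (J.mul K) := by
  obtain ⟨cF, Fv, Fa, Fa', Fb, Fb', Fh, Fk, Fk', FQ⟩ := full h1
  obtain ⟨cG, Gv, Ga, Ga', Gb, Gb', Gh, Gk, Gk', GQ⟩ := full h2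
  have E : (fun z => ((φ z * ψ z : ℝ) : ℂ)) = re φ * re ψ := by
    funext z; simp [re]
  set f := re φ
  set g := re ψ
  have f3 : ContDiffAt ℝ (3 : ℕ) (dz f) 0 := P.cd (n := 3) cF
  have g3 : ContDiffAt ℝ (3 : ℕ) (dz g) 0 := P.cd (n := 3) cG
  have f2 : ContDiffAt ℝ (2 : ℕ) (dz (dz f)) 0 := P.cd (n := 2) f3
  have g2 : ContDiffAt ℝ (2 : ℕ) (dz (dz g)) 0 := P.cd (n := 2) g3
  have p1 : dz (f * g) =ᶠ[𝓝 0] f * dz g + g * dz f :=
    P.mul (low cF (by norm_num)) (low cG (by norm_num))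
  have p2 : dz (dz (f * g)) =ᶠ[𝓝 0] (f * dz (dz g) + dz f * dz g) + (g * dz (dz f) + dz g * dz f) := by
    refine (L2 P P (low cF (by norm_num)) (low cG (by norm_num))).trans (Eventually.of_forall ?_)
    intro z; simp only [Pi.add_apply, Pi.mul_apply]; ring
  have p3 : dzb (dz (f * g)) =ᶠ[𝓝 0] f * dzb (dz g) + dzb f * dz g + g * dzb (dz f) + dzb g * dz f :=
    L2 P N (low cF (by norm_num)) (low cG (by norm_num))
  have c1 : ContDiffAt ℝ (2 : ℕ) (f * dz (dz g)) 0 := (low cF (by norm_num)).mul g2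
  have c2 : ContDiffAt ℝ (2 : ℕ) (dz f * dz g) 0 := low (f3.mul g3) (by norm_num)
  have c3 : ContDiffAt ℝ (2 : ℕ) (g * dz (dz f)) 0 := (low cG (by norm_num)).mul f2
  have c4 : ContDiffAt ℝ (2 : ℕ) (dz g * dz f) 0 := low (g3.mul f3) (by norm_num)
  have c12 : ContDiffAt ℝ (2 : ℕ) (f * dz (dz g) + dz f * dz g) 0 := c1.add c2
  have c34 : ContDiffAt ℝ (2 : ℕ) (g * dz (dz f) + dz g * dz f) 0 := c3.add c4
  have l1 : ∀ {u : ℂ → ℂ} {n : ℕ}, 1 ≤ n → ContDiffAt ℝ n u 0 → ContDiffAt ℝ 1 u 0 :=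
    fun hn h => low h hn
  have p4 : dzb (dz (dz (f * g))) 0 = (f * dzb (dz (dz g)) + dz (dz g) * dzb f) 0
      + (dz f * dzb (dz g) + dz g * dzb (dz f)) 0 + ((g * dzb (dz (dz f)) + dz (dz f) * dzb g) 0
      + (dz g * dzb (dz f) + dz f * dzb (dz g)) 0) := by
    rw [(N.congr p2).self_of_nhds, (N.add (l1 (by norm_num) c12) (l1 (by norm_num) c34)).self_of_nhds,
      Pi.add_apply, (N.add (l1 (by norm_num) c1) (l1 (by norm_num) c2)).self_of_nhds,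
      (N.add (l1 (by norm_num) c3) (l1 (by norm_num) c4)).self_of_nhds, Pi.add_apply, Pi.add_apply,
      (N.mul (l1 (by norm_num) cF) (l1 (by norm_num) g2)).self_of_nhds,
      (N.mul (l1 (by norm_num) f3) (l1 (by norm_num) g3)).self_of_nhds,
      (N.mul (l1 (by norm_num) cG) (l1 (by norm_num) f2)).self_of_nhds,
      (N.mul (l1 (by norm_num) g3) (l1 (by norm_num) f3)).self_of_nhds]
  have p5 : dzb (dzb (dz (dz (f * g)))) 0 =
      (f * dzb (dzb (dz (dz g))) + dzb f * dzb (dz (dz g)) + dz (dz g) * dzb (dzb f)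
        + dzb (dz (dz g)) * dzb f) 0
      + (dz f * dzb (dzb (dz g)) + dzb (dz f) * dzb (dz g) + dz g * dzb (dzb (dz f))
        + dzb (dz g) * dzb (dz f)) 0
      + ((g * dzb (dzb (dz (dz f))) + dzb g * dzb (dz (dz f)) + dz (dz f) * dzb (dzb g)
        + dzb (dz (dz f)) * dzb g) 0
      + (dz g * dzb (dzb (dz f)) + dzb (dz g) * dzb (dz f) + dz f * dzb (dzb (dz g))
        + dzb (dz f) * dzb (dz g)) 0) := by
    rw [(N.congr (N.congr p2)).self_of_nhds, (A2 N N c12 c34).self_of_nhds,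
      Pi.add_apply, (A2 N N c1 c2).self_of_nhds, (A2 N N c3 c4).self_of_nhds, Pi.add_apply,
      Pi.add_apply, (L2 N N (low cF (by norm_num)) g2).self_of_nhds,
      (L2 N N (low f3 (by norm_num)) (low g3 (by norm_num))).self_of_nhds,
      (L2 N N (low cG (by norm_num)) f2).self_of_nhds,
      (L2 N N (low g3 (by norm_num)) (low f3 (by norm_num))).self_of_nhds]
  have two : ∀ z : ℂ, ((z.re : ℝ) : ℂ) = (z + conj z) / 2 := fun z => by
    rw [Complex.add_conj]; push_cast; ring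
  refine ⟨h1.1.mul h2.1, ?_, ?_, ?_, ?_, ?_, ?_⟩
  · simp only [h1.2.1, h2.2.1]; rfl
  · rw [E, p1.self_of_nhds]; simp only [Pi.add_apply, Pi.mul_apply, Fa, Ga, Fv, Gv, Jet.mul]
    try ring
  · rw [E, p2.self_of_nhds]
    simp only [Pi.add_apply, Pi.mul_apply, Fa, Ga, Fv, Gv, Fb, Gb, Jet.mul]
    ring
  · rw [E, p3.self_of_nhds]
    simp only [Pi.add_apply, Pi.mul_apply, Fa, Ga, Fv, Gv, Fb, Gb, Fa', Ga', Fh, Gh,
      Jet.mul]
    push_cast
    rw [two]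
    simp only [map_mul, Complex.conj_conj]
    ring
  · rw [E, p4]
    simp only [Pi.add_apply, Pi.mul_apply, Fa, Ga, Fv, Gv, Fb, Gb, Fa', Ga', Fh, Gh,
      Fk, Gk, Jet.mul]
    ring
  · rw [E, p5]
    simp only [Pi.add_apply, Pi.mul_apply, Fa, Ga, Fv, Gv, Fb, Gb, Fa', Ga', Fh, Gh,
      Fk, Gk, Fk', Gk', Fb', Gb', FQ, GQ, Jet.mul]
    push_cast
    rw [two, two, two]
    simp only [map_mul, Complex.conj_conj]
    ring

namespace T1aux

theorem succ_cd {F F1 : ℝ → ℝ} {x : ℝ} {n : ℕ} (h : ∀ᶠ y in 𝓝 x, HasDerivAt F (F1 y) y)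
    (h1 : ContDiffAt ℝ n F1 x) : ContDiffAt ℝ (n + 1 : ℕ) F x := by
  have : ContDiffAt ℝ ((n : WithTop ℕ∞) + 1) F x := by
    rw [contDiffAt_succ_iff_hasFDerivAt]
    refine ⟨fun y => ContinuousLinearMap.smulRight (1 : ℝ →L[ℝ] ℝ) (F1 y), ?_, ?_⟩
    · exact ⟨_, h, fun y hy => (show HasDerivAt F (F1 y) y from hy).hasFDerivAt⟩
    · exact contDiffAt_const.smulRight h1
  exact_mod_cast this

theorem comp_D {φ : ℂ → ℝ} (hφ : ContDiffAt ℝ 1 φ 0) {G G1 : ℝ → ℝ}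
    (h : ∀ᶠ x in 𝓝 (φ 0), HasDerivAt G (G1 x) x) (v : ℂ) :
    dv v (re fun z => G (φ z)) =ᶠ[𝓝 0] (re fun z => G1 (φ z)) * dv v (re φ) := by
  have ht : Tendsto φ (𝓝 0) (𝓝 (φ 0)) := hφ.continuousAt
  filter_upwards [ht.eventually h, hφ.eventually (by simp)] with z h1 h2
  have h3 : HasFDerivAt φ (fderiv ℝ φ z) z := (h2.differentiableAt (by simp)).hasFDerivAt
  have h4 := h1.comp_hasFDerivAt z h3
  have h5 : HasFDerivAt (re fun z => G (φ z)) (Complex.ofRealCLM.comp (G1 (φ z) • fderiv ℝ φ z)) z :=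
    Complex.ofRealCLM.hasFDerivAt.comp z h4
  have h6 : HasFDerivAt (re φ) (Complex.ofRealCLM.comp (fderiv ℝ φ z)) z :=
    Complex.ofRealCLM.hasFDerivAt.comp z h3
  simp only [dv, Pi.mul_apply, h5.fderiv, h6.fderiv]
  simp [re]

theorem comp_P {φ : ℂ → ℝ} (hφ : ContDiffAt ℝ 1 φ 0) {G G1 : ℝ → ℝ}
    (h : ∀ᶠ x in 𝓝 (φ 0), HasDerivAt G (G1 x) x) :
    dz (re fun z => G (φ z)) =ᶠ[𝓝 0] (re fun z => G1 (φ z)) * dz (re φ) := by
  rw [dz_eq]
  filter_upwards [comp_D hφ h 1, comp_D hφ h Complex.I] with z h1 h2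
  simp only [Pi.mul_apply] at h1 h2 ⊢
  rw [h1, h2]; ring

theorem comp_N {φ : ℂ → ℝ} (hφ : ContDiffAt ℝ 1 φ 0) {G G1 : ℝ → ℝ}
    (h : ∀ᶠ x in 𝓝 (φ 0), HasDerivAt G (G1 x) x) :
    dzb (re fun z => G (φ z)) =ᶠ[𝓝 0] (re fun z => G1 (φ z)) * dzb (re φ) := by
  rw [dzb_eq]
  filter_upwards [comp_D hφ h 1, comp_D hφ h Complex.I] with z h1 h2
  simp only [Pi.mul_apply] at h1 h2 ⊢
  rw [h1, h2]; ring

end T1aux

/-- chain rule, one variable.  `F1 .. F4` are the successive derivatives of `F` near `J.v`. -/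
theorem HasJet.comp {φ : ℂ → ℝ} {J : Jet} (h : HasJet φ J) {F F1 F2 F3 F4 : ℝ → ℝ}
    (h1 : ∀ᶠ x in 𝓝 J.v, HasDerivAt F (F1 x) x)
    (h2 : ∀ᶠ x in 𝓝 J.v, HasDerivAt F1 (F2 x) x)
    (h3 : ∀ᶠ x in 𝓝 J.v, HasDerivAt F2 (F3 x) x)
    (h4 : ∀ᶠ x in 𝓝 J.v, HasDerivAt F3 (F4 x) x)
    (h5 : ∀ᶠ x in 𝓝 J.v, ContinuousAt F4 x) :
    HasJet (fun ζ => F (φ ζ)) (Jet.comp (F J.v) (F1 J.v) (F2 J.v) (F3 J.v) (F4 J.v) J) := by
  obtain ⟨cf, fv, fa, fa', fb, fb', fh, fk, fk', fQ⟩ := full h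
  have hφ4 : ContDiffAt ℝ (4 : ℕ) φ 0 := h.1
  have hφ1 : ContDiffAt ℝ 1 φ 0 := hφ4.of_le (by norm_num)
  have hv : φ 0 = J.v := h.2.1
  have c0 : ContDiffAt ℝ (0 : ℕ) F4 J.v := by
    have : ContDiffAt ℝ 0 F4 J.v := by
      rw [contDiffAt_zero]
      exact ⟨_, h5, fun x hx => (show ContinuousAt F4 x from hx).continuousWithinAt⟩
    exact_mod_cast this
  have c1 : ContDiffAt ℝ (1 : ℕ) F3 J.v := succ_cd h4 c0
  have c2 : ContDiffAt ℝ (2 : ℕ) F2 J.v := succ_cd h3 c1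
  have c3 : ContDiffAt ℝ (3 : ℕ) F1 J.v := succ_cd h2 c2
  have c4 : ContDiffAt ℝ (4 : ℕ) F J.v := succ_cd h1 c3
  rw [← hv] at c1 c2 c3 c4 h1 h2 h3 h4
  have k4 : ContDiffAt ℝ (4 : ℕ) (fun z => F (φ z)) 0 := c4.comp (0 : ℂ) hφ4
  have k3 : ContDiffAt ℝ (3 : ℕ) (re fun z => F1 (φ z)) 0 :=
    re_cd (c3.comp (0 : ℂ) (hφ4.of_le (by norm_num)))
  have k2 : ContDiffAt ℝ (2 : ℕ) (re fun z => F2 (φ z)) 0 :=
    re_cd (c2.comp (0 : ℂ) (hφ4.of_le (by norm_num)))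
  have k1 : ContDiffAt ℝ (1 : ℕ) (re fun z => F3 (φ z)) 0 :=
    re_cd (c1.comp (0 : ℂ) (hφ4.of_le (by norm_num)))
  have v1 : re (fun z => F1 (φ z)) 0 = (F1 J.v : ℂ) := by simp [re, hv]
  have v2 : re (fun z => F2 (φ z)) 0 = (F2 J.v : ℂ) := by simp [re, hv]
  have v3 : re (fun z => F3 (φ z)) 0 = (F3 J.v : ℂ) := by simp [re, hv]
  have v4 : re (fun z => F4 (φ z)) 0 = (F4 J.v : ℂ) := by simp [re, hv]
  have P0 := comp_P hφ1 h1
  have P1 := comp_P hφ1 h2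
  have N0 := comp_N hφ1 h1
  have N1 := comp_N hφ1 h2
  have N2 := comp_N hφ1 h3
  have N3 := comp_N hφ1 h4
  have E : (fun z => ((F (φ z) : ℝ) : ℂ)) = re fun z => F (φ z) := rfl
  rw [HasJet, E]
  set f := re φ
  set g := re fun z => F (φ z)
  set g1 := re fun z => F1 (φ z)
  set g2 := re fun z => F2 (φ z)
  set g3 := re fun z => F3 (φ z)
  set g4 := re fun z => F4 (φ z)
  have l1 : ∀ {u : ℂ → ℂ} {n : ℕ}, 1 ≤ n → ContDiffAt ℝ n u 0 → ContDiffAt ℝ 1 u 0 :=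
    fun hn h => low h hn
  have f3 : ContDiffAt ℝ (3 : ℕ) (dz f) 0 := P.cd (n := 3) cf
  have f3' : ContDiffAt ℝ (3 : ℕ) (dzb f) 0 := N.cd (n := 3) cf
  have f2 : ContDiffAt ℝ (2 : ℕ) (dz (dz f)) 0 := P.cd (n := 2) f3
  have ff : ContDiffAt ℝ (2 : ℕ) (dz f * dz f) 0 := low (f3.mul f3) (by norm_num)
  have p2 : dz (dz g) =ᶠ[𝓝 0] g1 * dz (dz f) + g2 * (dz f * dz f) := by
    refine (P.congr P0).trans ((P.mul (l1 (by norm_num) k3) (l1 (by norm_num) f3)).trans ?_)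
    filter_upwards [P1] with z e1
    simp only [Pi.add_apply, Pi.mul_apply] at e1 ⊢
    rw [e1]; ring
  have p3 : dzb (dz g) =ᶠ[𝓝 0] g1 * dzb (dz f) + dz f * (g2 * dzb f) := by
    refine (N.congr P0).trans ((N.mul (l1 (by norm_num) k3) (l1 (by norm_num) f3)).trans ?_)
    filter_upwards [N1] with z e1
    simp only [Pi.add_apply, Pi.mul_apply] at e1 ⊢
    rw [e1]
  have q1 : ContDiffAt ℝ (2 : ℕ) (g1 * dz (dz f)) 0 := (low k3 (by norm_num)).mul f2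
  have q2 : ContDiffAt ℝ (2 : ℕ) (g2 * (dz f * dz f)) 0 := k2.mul ff
  have p4 : dzb (dz (dz g)) 0 = (g1 * dzb (dz (dz f)) + dz (dz f) * (g2 * dzb f)) 0
      + (g2 * (dz f * dzb (dz f) + dz f * dzb (dz f)) + (dz f * dz f) * (g3 * dzb f)) 0 := by
    rw [(N.congr p2).self_of_nhds, (N.add (l1 (by norm_num) q1) (l1 (by norm_num) q2)).self_of_nhds,
      Pi.add_apply, (N.mul (l1 (by norm_num) k3) (l1 (by norm_num) f2)).self_of_nhds,
      (N.mul (l1 (by norm_num) k2) (l1 (by norm_num) ff)).self_of_nhds]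
    simp only [Pi.add_apply, Pi.mul_apply]
    rw [N1.self_of_nhds, N2.self_of_nhds,
      (N.mul (l1 (by norm_num) f3) (l1 (by norm_num) f3)).self_of_nhds]
    simp only [Pi.add_apply, Pi.mul_apply]
  have r1 : dzb (dzb g1) =ᶠ[𝓝 0] g2 * dzb (dzb f) + dzb f * (g3 * dzb f) := by
    refine (N.congr N1).trans ((N.mul (l1 (by norm_num) k2) (l1 (by norm_num) f3')).trans ?_)
    filter_upwards [N2] with z e1
    simp only [Pi.add_apply, Pi.mul_apply] at e1 ⊢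
    rw [e1]
  have r2 : dzb (dzb g2) =ᶠ[𝓝 0] g3 * dzb (dzb f) + dzb f * (g4 * dzb f) := by
    refine (N.congr N2).trans ((N.mul (l1 (by norm_num) k1) (l1 (by norm_num) f3')).trans ?_)
    filter_upwards [N3] with z e1
    simp only [Pi.add_apply, Pi.mul_apply] at e1 ⊢
    rw [e1]
  have p5 : dzb (dzb (dz (dz g))) 0 =
      (g1 * dzb (dzb (dz (dz f))) + (g2 * dzb f) * dzb (dz (dz f))
        + dz (dz f) * (g2 * dzb (dzb f) + dzb f * (g3 * dzb f))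
        + dzb (dz (dz f)) * (g2 * dzb f)) 0
      + (g2 * (dz f * dzb (dzb (dz f)) + dzb (dz f) * dzb (dz f) + dz f * dzb (dzb (dz f))
        + dzb (dz f) * dzb (dz f))
        + (g3 * dzb f) * (dz f * dzb (dz f) + dz f * dzb (dz f))
        + (dz f * dz f) * (g3 * dzb (dzb f) + dzb f * (g4 * dzb f))
        + (dz f * dzb (dz f) + dz f * dzb (dz f)) * (g3 * dzb f)) 0 := by
    rw [(N.congr (N.congr p2)).self_of_nhds, (A2 N N q1 q2).self_of_nhds,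
      Pi.add_apply, (L2 N N (low k3 (by norm_num)) f2).self_of_nhds,
      (L2 N N k2 ff).self_of_nhds]
    simp only [Pi.add_apply, Pi.mul_apply]
    rw [N1.self_of_nhds, r1.self_of_nhds, N2.self_of_nhds, r2.self_of_nhds,
      (N.mul (l1 (by norm_num) f3) (l1 (by norm_num) f3)).self_of_nhds,
      (L2 N N (low f3 (by norm_num)) (low f3 (by norm_num))).self_of_nhds]
    simp only [Pi.add_apply, Pi.mul_apply]
  have two : ∀ z : ℂ, ((z.re : ℝ) : ℂ) = (z + conj z) / 2 := fun z => by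
    rw [Complex.add_conj]; push_cast; ring
  have nsq : ((‖J.a‖ : ℝ) : ℂ) ^ 2 = J.a * conj J.a := by
    rw [Complex.mul_conj, Complex.normSq_eq_norm_sq]; push_cast; ring
  have nsqb : ((‖J.b‖ : ℝ) : ℂ) ^ 2 = J.b * conj J.b := by
    rw [Complex.mul_conj, Complex.normSq_eq_norm_sq]; push_cast; ring
  have n4 : ((‖J.a‖ : ℝ) : ℂ) ^ 4 = (J.a * conj J.a) ^ 2 := by
    rw [← nsq]; ring
  refine ⟨k4, ?_, ?_, ?_, ?_, ?_, ?_⟩
  · simp only [hv]; rfl
  · rw [P0.self_of_nhds]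
    simp only [Pi.mul_apply, v1, fa, Jet.comp]
  · rw [p2.self_of_nhds]
    simp only [Pi.add_apply, Pi.mul_apply, v1, v2, fa, fb, Jet.comp]
    ring
  · rw [p3.self_of_nhds]
    simp only [Pi.add_apply, Pi.mul_apply, v1, v2, fa, fb, fh, fa', Jet.comp]
    push_cast
    rw [nsq]
    ring
  · rw [p4]
    simp only [Pi.add_apply, Pi.mul_apply, v1, v2, v3, fa, fb, fh, fk, fa', Jet.comp]
    rw [nsq]
    ring
  · rw [p5]
    simp only [Pi.add_apply, Pi.mul_apply, v1, v2, v3, v4, fa, fb, fh, fk, fa', fb', fk', fQ,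
      Jet.comp]
    push_cast
    rw [nsq, nsqb, n4, two, two]
    simp only [map_mul, map_pow, Complex.conj_conj]
    ring

theorem HasJet.smul {φ : ℂ → ℝ} {J : Jet} (h : HasJet φ J) (c : ℝ) :
    HasJet (fun ζ => c * φ ζ) (Jet.smul c J) := by
  have := (hasJet_const c).mul h
  have e : (Jet.const c).mul J = Jet.smul c J := by
    simp [Jet.mul, Jet.const, Jet.smul]
  rwa [e] at this

end

end Pool.Agent.H789.HSC
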