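import Mathlib

open scoped BigOperators ContDiff ComplexConjugate

namespace Pool.Agent.H789.HSC

noncomputable section

namespace RGaux

theorem norm_sq_sub (θ : ℝ) (τ σ : ℂ) :
    ‖σ - θ * τ ^ 2‖ ^ 2 = ‖σ‖ ^ 2 - 2 * θ * ((conj τ) ^ 2 * σ).re + θ ^ 2 * ‖τ‖ ^ 4 := by
  have h1 : ‖σ - θ * τ ^ 2‖ ^ 2 = Complex.normSq (σ - θ * τ ^ 2) :=
    (Complex.normSq_eq_norm_sq _).symm
  have h2 : ‖σ‖ ^ 2 = Complex.normSq σ := (Complex.normSq_eq_norm_sq _).symm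
  have h3 : ‖τ‖ ^ 4 = Complex.normSq τ ^ 2 := by
    rw [Complex.normSq_eq_norm_sq]; ring
  rw [h1, h2, h3]
  simp only [Complex.normSq_apply, pow_two, Complex.sub_re, Complex.sub_im, Complex.mul_re,
    Complex.mul_im, Complex.ofReal_re, Complex.ofReal_im, Complex.conj_re, Complex.conj_im]
  ring

/-- variant of `T5aux.core` keeping the squares -/
theorem core2 {θ e H Q y : ℝ} {τ σ K : ℂ} (hθ : 0 < θ) (hθ1 : θ ≤ 1) (he : 0 < e) (he1 : e ≤ 1)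
    (hy : 0 ≤ y) (hH : |H| ≤ y ^ 2) (hK : ‖K‖ ≤ y ^ 3) (hQ : |Q| ≤ y ^ 4) :
    θ ^ 2 / 7 * (e ^ 2 * (θ ^ 2 * ‖τ‖ ^ 4 + ‖σ‖ ^ 2)) ≤
      (e * (θ ^ 2 * ‖σ - θ * τ ^ 2‖ ^ 2) +
        e ^ 2 * (θ ^ 2 * ‖σ - ((2 * θ : ℝ) : ℂ) * τ ^ 2‖ ^ 2)) ∧
    (e * (θ ^ 2 * ‖σ - θ * τ ^ 2‖ ^ 2) +
        e ^ 2 * (θ ^ 2 * ‖σ - ((2 * θ : ℝ) : ℂ) * τ ^ 2‖ ^ 2)) / 2 - 2000 * y ^ 4 ≤
      (e * (-θ * Q + θ ^ 2 * (2 * H ^ 2 + ‖σ‖ ^ 2 + 4 * (τ * conj K).re) -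
        θ ^ 3 * (4 * ‖τ‖ ^ 2 * H + 2 * ((conj τ) ^ 2 * σ).re) + θ ^ 4 * ‖τ‖ ^ 4)) +
      1 / 4 * (e ^ 2 * (-(2 * θ) * Q + (2 * θ) ^ 2 * (2 * H ^ 2 + ‖σ‖ ^ 2 + 4 * (τ * conj K).re) -
        (2 * θ) ^ 3 * (4 * ‖τ‖ ^ 2 * H + 2 * ((conj τ) ^ 2 * σ).re) + (2 * θ) ^ 4 * ‖τ‖ ^ 4)) := by
  rw [norm_sq_sub, norm_sq_sub]
  set n := ‖τ‖ with hn
  have hn0 : 0 ≤ n := norm_nonneg _
  set m := ‖σ‖ with hm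
  have hm0 : 0 ≤ m := norm_nonneg _
  set r := ((conj τ) ^ 2 * σ).re with hr
  set p := (τ * conj K).re with hp
  have hp1 : |p| ≤ n * y ^ 3 := by
    refine (Complex.abs_re_le_norm _).trans ?_
    rw [norm_mul, Complex.norm_conj]
    gcongr
  have hp2 : -(n * y ^ 3) ≤ p := (abs_le.1 hp1).1
  -- r against n and m
  have hr1 : |r| ≤ n ^ 2 * m := by
    refine (Complex.abs_re_le_norm _).trans ?_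
    rw [norm_mul, norm_pow, Complex.norm_conj]
  have hr2 : r ≤ n ^ 2 * m := (abs_le.1 hr1).2
  have hr3 : -(n ^ 2 * m) ≤ r := (abs_le.1 hr1).1
  -- the squares
  have sq1 : 0 ≤ m ^ 2 - 2 * θ * r + θ ^ 2 * n ^ 4 := by
    nlinarith [sq_nonneg (m - θ * n ^ 2)]
  have sq2 : 0 ≤ m ^ 2 - 4 * θ * r + 4 * θ ^ 2 * n ^ 4 := by
    nlinarith [sq_nonneg (m - 2 * θ * n ^ 2)]
  have sqs : (θ ^ 2 * n ^ 4 + m ^ 2) / 7 ≤ (m ^ 2 - 2 * θ * r + θ ^ 2 * n ^ 4) +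
      (m ^ 2 - 4 * θ * r + 4 * θ ^ 2 * n ^ 4) := by
    have e1 : θ * r ≤ θ * (n ^ 2 * m) := by gcongr
    nlinarith [sq_nonneg (m - 3 / 2 * (θ * n ^ 2)), sq_nonneg (m - 2 * (θ * n ^ 2)),
      sq_nonneg (θ * n ^ 2), sq_nonneg m]
  have hee : e ^ 2 ≤ e := by nlinarith
  have e0 : 0 ≤ e ^ 2 := by positivity
  -- lower bound of the squares
  have S : θ ^ 2 / 7 * (e ^ 2 * (θ ^ 2 * n ^ 4 + m ^ 2)) ≤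
      e * (θ ^ 2 * (m ^ 2 - 2 * θ * r + θ ^ 2 * n ^ 4)) +
      e ^ 2 * (θ ^ 2 * (m ^ 2 - 4 * θ * r + 4 * θ ^ 2 * n ^ 4)) := by
    have t1 : e ^ 2 * (θ ^ 2 * (m ^ 2 - 2 * θ * r + θ ^ 2 * n ^ 4)) ≤
        e * (θ ^ 2 * (m ^ 2 - 2 * θ * r + θ ^ 2 * n ^ 4)) := by gcongr
    have t2 : e ^ 2 * θ ^ 2 * ((θ ^ 2 * n ^ 4 + m ^ 2) / 7) ≤ e ^ 2 * θ ^ 2 *
        ((m ^ 2 - 2 * θ * r + θ ^ 2 * n ^ 4) + (m ^ 2 - 4 * θ * r + 4 * θ ^ 2 * n ^ 4)) := by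
      gcongr
    nlinarith
  have eS : e * (θ ^ 2 * (m ^ 2 - 2 * θ * r + θ ^ 2 * n ^ 4)) +
      e ^ 2 * (θ ^ 2 * (m ^ 2 - 2 * (2 * θ) * r + (2 * θ) ^ 2 * n ^ 4)) =
      e * (θ ^ 2 * (m ^ 2 - 2 * θ * r + θ ^ 2 * n ^ 4)) +
      e ^ 2 * (θ ^ 2 * (m ^ 2 - 4 * θ * r + 4 * θ ^ 2 * n ^ 4)) := by ring
  rw [eS]
  refine ⟨S, ?_⟩
  -- the other terms
  set x := Real.sqrt e * n with hx
  have hx0 : 0 ≤ x := by positivity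
  have hse : Real.sqrt e ^ 2 = e := Real.sq_sqrt he.le
  have hse1 : Real.sqrt e ≤ 1 := Real.sqrt_le_one.2 he1
  have hse0 := Real.sqrt_nonneg e
  have hx2 : x ^ 2 = e * n ^ 2 := by rw [hx, mul_pow, hse]
  have hx4 : x ^ 4 = e ^ 2 * n ^ 4 := by
    have : x ^ 4 = (x ^ 2) ^ 2 := by ring
    rw [this, hx2]; ring
  have hen : e * n ≤ x := by
    rw [hx]
    have : e = Real.sqrt e * Real.sqrt e := by rw [← sq, hse]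
    calc e * n = Real.sqrt e * (Real.sqrt e * n) := by rw [← mul_assoc, ← this]
      _ ≤ 1 * (Real.sqrt e * n) := by gcongr
      _ = _ := one_mul _
  have P1 : -(x * y ^ 3) ≤ e * p := by
    have : e * (n * y ^ 3) ≤ x * y ^ 3 := by
      rw [← mul_assoc]; gcongr
    nlinarith
  have P2 : -(x * y ^ 3) ≤ e ^ 2 * p := by
    have h1 : e ^ 2 * (n * y ^ 3) ≤ x * y ^ 3 := by
      calc e ^ 2 * (n * y ^ 3) ≤ e * (n * y ^ 3) := by gcongr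
        _ = (e * n) * y ^ 3 := by ring
        _ ≤ x * y ^ 3 := by gcongr
    nlinarith
  have hH2 : H ≤ y ^ 2 := (abs_le.1 hH).2
  have hQ2 : Q ≤ y ^ 4 := (abs_le.1 hQ).2
  have H1 : e * n ^ 2 * H ≤ x ^ 2 * y ^ 2 := by rw [hx2]; gcongr
  have H2 : e ^ 2 * n ^ 2 * H ≤ x ^ 2 * y ^ 2 := by
    rw [hx2]
    calc e ^ 2 * n ^ 2 * H ≤ e ^ 2 * n ^ 2 * y ^ 2 := by gcongr
      _ ≤ e * n ^ 2 * y ^ 2 := by gcongr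
  have Q1 : e * Q ≤ y ^ 4 := by
    calc e * Q ≤ e * y ^ 4 := by gcongr
      _ ≤ 1 * y ^ 4 := by gcongr
      _ = _ := one_mul _
  have Q2 : e ^ 2 * Q ≤ y ^ 4 := by
    calc e ^ 2 * Q ≤ e ^ 2 * y ^ 4 := by gcongr
      _ ≤ 1 * y ^ 4 := by gcongr; exact pow_le_one₀ he.le he1
      _ = _ := one_mul _
  have hHH : 0 ≤ e * (θ ^ 2 * (2 * H ^ 2)) + e ^ 2 * (θ ^ 2 * (2 * H ^ 2)) := by positivity
  -- rewrite the right-hand side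
  have RHS : (e * (-θ * Q + θ ^ 2 * (2 * H ^ 2 + m ^ 2 + 4 * p) -
        θ ^ 3 * (4 * n ^ 2 * H + 2 * r) + θ ^ 4 * n ^ 4)) +
      1 / 4 * (e ^ 2 * (-(2 * θ) * Q + (2 * θ) ^ 2 * (2 * H ^ 2 + m ^ 2 + 4 * p) -
        (2 * θ) ^ 3 * (4 * n ^ 2 * H + 2 * r) + (2 * θ) ^ 4 * n ^ 4)) =
      (e * (θ ^ 2 * (m ^ 2 - 2 * θ * r + θ ^ 2 * n ^ 4)) +
      e ^ 2 * (θ ^ 2 * (m ^ 2 - 4 * θ * r + 4 * θ ^ 2 * n ^ 4))) +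
      (e * (θ ^ 2 * (2 * H ^ 2)) + e ^ 2 * (θ ^ 2 * (2 * H ^ 2))) +
      4 * θ ^ 2 * (e * p) + 4 * θ ^ 2 * (e ^ 2 * p) - 4 * θ ^ 3 * (e * n ^ 2 * H) -
      8 * θ ^ 3 * (e ^ 2 * n ^ 2 * H) - θ * (e * Q) - θ / 2 * (e ^ 2 * Q) := by ring
  rw [RHS]
  have G1 : -(4 * θ ^ 2 * (x * y ^ 3)) ≤ 4 * θ ^ 2 * (e * p) := by nlinarith [sq_nonneg θ]
  have G2 : -(4 * θ ^ 2 * (x * y ^ 3)) ≤ 4 * θ ^ 2 * (e ^ 2 * p) := by nlinarith [sq_nonneg θ]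
  have hθ3 : 0 ≤ θ ^ 3 := by positivity
  have G3 : 4 * θ ^ 3 * (e * n ^ 2 * H) ≤ 4 * θ ^ 3 * (x ^ 2 * y ^ 2) := by gcongr
  have G4 : 8 * θ ^ 3 * (e ^ 2 * n ^ 2 * H) ≤ 8 * θ ^ 3 * (x ^ 2 * y ^ 2) := by gcongr
  have G5 : θ * (e * Q) ≤ θ * y ^ 4 := by gcongr
  have G6 : θ / 2 * (e ^ 2 * Q) ≤ θ / 2 * y ^ 4 := by gcongr
  -- Young
  have Y1 : 8 * θ ^ 2 * (x * y ^ 3) ≤ θ ^ 4 / 28 * x ^ 4 + 116 * y ^ 4 := by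
    have a1 : 8 * θ ^ 2 * (x * y ^ 3) ≤ 4 * (θ ^ 2 * (x ^ 2 * y ^ 2)) + 4 * y ^ 4 := by
      have b1 : 2 * (x * y ^ 3) ≤ x ^ 2 * y ^ 2 + y ^ 4 := by
        nlinarith [mul_nonneg (sq_nonneg y) (sq_nonneg (x - y))]
      have b2 : θ ^ 2 * y ^ 4 ≤ 1 * y ^ 4 := by gcongr; exact pow_le_one₀ hθ.le hθ1
      have b3 : θ ^ 2 * (2 * (x * y ^ 3)) ≤ θ ^ 2 * (x ^ 2 * y ^ 2 + y ^ 4) := by gcongr
      nlinarith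
    have a2 : 4 * (θ ^ 2 * (x ^ 2 * y ^ 2)) ≤ θ ^ 4 / 28 * x ^ 4 + 112 * y ^ 4 := by
      nlinarith [sq_nonneg (θ ^ 2 * x ^ 2 - 56 * y ^ 2)]
    linarith
  have Y2 : 12 * θ ^ 3 * (x ^ 2 * y ^ 2) ≤ θ ^ 4 / 28 * x ^ 4 + 1008 * y ^ 4 := by
    have b0 : θ ^ 3 * (x ^ 2 * y ^ 2) ≤ θ ^ 2 * (x ^ 2 * y ^ 2) := by
      have : θ ^ 3 ≤ θ ^ 2 := pow_le_pow_of_le_one hθ.le hθ1 (by norm_num)
      gcongr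
    nlinarith [sq_nonneg (θ ^ 2 * x ^ 2 - 168 * y ^ 2)]
  have hy4 : 0 ≤ y ^ 4 := by positivity
  have Z : θ * y ^ 4 + θ / 2 * y ^ 4 ≤ 2 * y ^ 4 := by nlinarith
  have S' : θ ^ 4 / 7 * x ^ 4 + θ ^ 2 / 7 * (e ^ 2 * m ^ 2) ≤
      e * (θ ^ 2 * (m ^ 2 - 2 * θ * r + θ ^ 2 * n ^ 4)) +
      e ^ 2 * (θ ^ 2 * (m ^ 2 - 4 * θ * r + 4 * θ ^ 2 * n ^ 4)) := by
    refine le_trans (le_of_eq ?_) S
    rw [hx4]; ring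
  have hem : 0 ≤ θ ^ 2 / 7 * (e ^ 2 * m ^ 2) := by positivity
  linarith

/-- the lower components of one term -/
theorem comps {θ e H y A : ℝ} {τ σ K : ℂ} (hθ : 0 < θ) (hθ1 : θ ≤ 1) (he : 0 < e) (he1 : e ≤ 1)
    (hy : 0 ≤ y) (hA : 0 ≤ A) (hyA : y ≤ A) (hH : |H| ≤ y ^ 2) (hK : ‖K‖ ≤ y ^ 3)
    (h1 : θ ^ 2 / 7 * (e ^ 2 * (θ ^ 2 * ‖τ‖ ^ 4 + ‖σ‖ ^ 2)) ≤ 2 * A ^ 4)
    (h2 : e * (θ ^ 2 * ‖σ - θ * τ ^ 2‖ ^ 2) ≤ 2 * A ^ 4)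
    (h3 : e ^ 2 * (θ ^ 2 * ‖σ - ((2 * θ : ℝ) : ℂ) * τ ^ 2‖ ^ 2) ≤ 2 * A ^ 4) :
    θ * (e * ‖τ‖) ≤ 4 * A ∧ θ * (e * ‖σ‖) ≤ 4 * A ^ 2 ∧ θ ^ 2 * (e * ‖τ‖ ^ 2) ≤ 16 * A ^ 2 ∧
    θ ^ 2 * (e * (‖τ‖ * ‖σ - θ * τ ^ 2‖)) ≤ 8 * A ^ 3 ∧
    θ ^ 2 * (e ^ 2 * (‖τ‖ * ‖σ - ((2 * θ : ℝ) : ℂ) * τ ^ 2‖)) ≤ 8 * A ^ 3 := by
  set n := ‖τ‖ with hn
  have hn0 : 0 ≤ n := norm_nonneg _
  set m := ‖σ‖ with hm
  have hm0 : 0 ≤ m := norm_nonneg _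
  set u := ‖σ - θ * τ ^ 2‖ with hu
  have hu0 : 0 ≤ u := norm_nonneg _
  set v := ‖σ - ((2 * θ : ℝ) : ℂ) * τ ^ 2‖ with hv
  have hv0 : 0 ≤ v := norm_nonneg _
  set w := Real.sqrt e with hw
  have hw0 : 0 ≤ w := Real.sqrt_nonneg _
  have hw2 : w ^ 2 = e := Real.sq_sqrt he.le
  have hw1 : w ≤ 1 := Real.sqrt_le_one.2 he1
  have hem : 0 ≤ e ^ 2 * m ^ 2 := by positivity
  have hen : 0 ≤ e ^ 2 * (θ ^ 2 * n ^ 4) := by positivity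
  have hA4 : 0 ≤ A ^ 4 := by positivity
  -- x = θ w n ≤ 4 A
  have x1 : θ * (w * n) ≤ 2 * A := by
    by_contra hc
    push Not at hc
    have h4 : (2 * A) ^ 4 < (θ * (w * n)) ^ 4 := pow_lt_pow_left₀ hc (by positivity) (by norm_num)
    have h5 : (θ * (w * n)) ^ 4 = θ ^ 2 * (e ^ 2 * (θ ^ 2 * n ^ 4)) := by
      rw [← hw2]; ring
    have h6 : θ ^ 2 * (e ^ 2 * (θ ^ 2 * n ^ 4)) ≤ 14 * A ^ 4 := by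
      have h7 : 0 ≤ θ ^ 2 * (e ^ 2 * m ^ 2) := by positivity
      linarith
    rw [h5] at h4
    have h8 : (2 * A) ^ 4 = 16 * A ^ 4 := by ring
    rw [h8] at h4
    linarith
  have x2 : θ * (e * m) ≤ 4 * A ^ 2 := by
    apply le_of_sq_le_sq _ (by positivity)
    have h5 : (θ * (e * m)) ^ 2 = θ ^ 2 * (e ^ 2 * m ^ 2) := by ring
    have h6 : θ ^ 2 * (e ^ 2 * m ^ 2) ≤ 14 * A ^ 4 := by
      have h7 : 0 ≤ θ ^ 2 * (e ^ 2 * (θ ^ 2 * n ^ 4)) := by positivity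
      linarith
    rw [h5]
    have h8 : (4 * A ^ 2) ^ 2 = 16 * A ^ 4 := by ring
    linarith
  have x3 : θ * (w * u) ≤ 2 * A ^ 2 := by
    apply le_of_sq_le_sq _ (by positivity)
    have h5 : (θ * (w * u)) ^ 2 = e * (θ ^ 2 * u ^ 2) := by rw [← hw2]; ring
    rw [h5]
    have h8 : (2 * A ^ 2) ^ 2 = 4 * A ^ 4 := by ring
    linarith
  have x4 : θ * (e * v) ≤ 2 * A ^ 2 := by
    apply le_of_sq_le_sq _ (by positivity)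
    have h5 : (θ * (e * v)) ^ 2 = e ^ 2 * (θ ^ 2 * v ^ 2) := by ring
    rw [h5]
    have h8 : (2 * A ^ 2) ^ 2 = 4 * A ^ 4 := by ring
    linarith
  have hew : e ≤ w := by
    rw [← hw2]; nlinarith
  have x0 : θ * (e * n) ≤ 2 * A := by
    refine le_trans ?_ x1
    gcongr
  have q0 : 0 ≤ θ * (w * n) := by positivity
  have q1 : 0 ≤ θ * (w * u) := by positivity
  have q2 : 0 ≤ θ * (e * v) := by positivity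
  have q3 : 0 ≤ θ * (e * n) := by positivity
  refine ⟨by linarith, x2, ?_, ?_, ?_⟩
  · have h5 : θ ^ 2 * (e * n ^ 2) = (θ * (w * n)) ^ 2 := by rw [← hw2]; ring
    rw [h5]
    calc (θ * (w * n)) ^ 2 ≤ (2 * A) ^ 2 := pow_le_pow_left₀ q0 x1 2
      _ = 4 * A ^ 2 := by ring
      _ ≤ _ := by nlinarith [sq_nonneg A]
  · have h5 : θ ^ 2 * (e * (n * u)) = (θ * (w * n)) * (θ * (w * u)) := by rw [← hw2]; ring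
    rw [h5]
    calc (θ * (w * n)) * (θ * (w * u)) ≤ (2 * A) * (2 * A ^ 2) :=
          mul_le_mul x1 x3 q1 (by positivity)
      _ = 4 * A ^ 3 := by ring
      _ ≤ _ := by have : 0 ≤ A ^ 3 := by positivity
                  linarith
  · have h5 : θ ^ 2 * (e ^ 2 * (n * v)) = (θ * (e * n)) * (θ * (e * v)) := by ring
    rw [h5]
    calc (θ * (e * n)) * (θ * (e * v)) ≤ (2 * A) * (2 * A ^ 2) :=
          mul_le_mul x0 x4 q2 (by positivity)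
      _ = 4 * A ^ 3 := by ring
      _ ≤ _ := by have : 0 ≤ A ^ 3 := by positivity
                  linarith

end RGaux

end

end Pool.Agent.H789.HSC
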