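import Pool.Agent.H789.HSC.Recur
import Pool.Agent.H789.HSC.JetCalc

/-! Task T5 (helper685): log-sum-exp and the auxiliary function `RUN`. -/

open scoped BigOperators ContDiff ComplexConjugate Topology

namespace Pool.Agent.H789.HSC

noncomputable section

variable {q : ℕ}

namespace T5aux

/-! ### small jets -/

theorem relSmall_mono {J : Jet} {x y : ℂ} {A A' : ℝ} (h : RelSmall J x y A) (h0 : 0 ≤ A)
    (hA : A ≤ A') : RelSmall J x y A' := by
  obtain ⟨h1, h2, h3, h4, h5⟩ := h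
  exact ⟨h1.trans hA, h2.trans (by gcongr), h3.trans (by gcongr), h4.trans (by gcongr),
    h5.trans (by gcongr)⟩

theorem relSmall_add {J K : Jet} {A A' : ℝ} (h : RelSmall J 0 0 A) (h' : RelSmall K 0 0 A')
    (h0 : 0 ≤ A) (h0' : 0 ≤ A') : RelSmall (J.add K) 0 0 (A + A') := by
  obtain ⟨h1, h2, h3, h4, h5⟩ := h
  obtain ⟨k1, k2, k3, k4, k5⟩ := h'
  simp only [sub_zero] at h1 h2 h4 k1 k2 k4
  have e2 : A ^ 2 + A' ^ 2 ≤ (A + A') ^ 2 := by nlinarith [mul_nonneg h0 h0']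
  have e3 : A ^ 3 + A' ^ 3 ≤ (A + A') ^ 3 := by
    have : (A + A') ^ 3 = A ^ 3 + A' ^ 3 + 3 * A ^ 2 * A' + 3 * A * A' ^ 2 := by ring
    rw [this]
    have p1 : 0 ≤ 3 * A ^ 2 * A' := by positivity
    have p2 : 0 ≤ 3 * A * A' ^ 2 := by positivity
    linarith
  have e4 : A ^ 4 + A' ^ 4 ≤ (A + A') ^ 4 := by
    have : (A + A') ^ 4 = A ^ 4 + A' ^ 4 + 4 * A ^ 3 * A' + 6 * A ^ 2 * A' ^ 2 + 4 * A * A' ^ 3 := by
      ring
    rw [this]
    have p1 : 0 ≤ 4 * A ^ 3 * A' := by positivity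
    have p2 : 0 ≤ 6 * A ^ 2 * A' ^ 2 := by positivity
    have p3 : 0 ≤ 4 * A * A' ^ 3 := by positivity
    linarith
  refine ⟨?_, ?_, ?_, ?_, ?_⟩
  · simp only [Jet.add, sub_zero]
    exact (norm_add_le _ _).trans (add_le_add h1 k1)
  · simp only [Jet.add, sub_zero]
    exact ((norm_add_le _ _).trans (add_le_add h2 k2)).trans e2
  · simp only [Jet.add]
    exact ((abs_add_le _ _).trans (add_le_add h3 k3)).trans e2
  · simp only [Jet.add, sub_zero]
    exact ((norm_add_le _ _).trans (add_le_add h4 k4)).trans e3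
  · simp only [Jet.add]
    exact ((abs_add_le _ _).trans (add_le_add h5 k5)).trans e4

theorem relSmall_smul {J : Jet} {A c : ℝ} (h : RelSmall J 0 0 A) (hc : |c| ≤ 1) :
    RelSmall (Jet.smul c J) 0 0 A := by
  obtain ⟨h1, h2, h3, h4, h5⟩ := h
  simp only [sub_zero] at h1 h2 h4
  have hm : ∀ x : ℝ, |c * x| ≤ |x| := by
    intro x
    rw [abs_mul]
    exact mul_le_of_le_one_left (abs_nonneg _) hc
  have hm' : ∀ x : ℂ, ‖(c : ℂ) * x‖ ≤ ‖x‖ := by
    intro x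
    rw [norm_mul, Complex.norm_real]
    exact mul_le_of_le_one_left (norm_nonneg _) hc
  refine ⟨?_, ?_, ?_, ?_, ?_⟩
  · simp only [Jet.smul, sub_zero]; exact (hm' _).trans h1
  · simp only [Jet.smul, sub_zero]; exact (hm' _).trans h2
  · simp only [Jet.smul]; exact (hm _).trans h3
  · simp only [Jet.smul, sub_zero]; exact (hm' _).trans h4
  · simp only [Jet.smul]; exact (hm _).trans h5

/-- sums of jets -/
def sumJet {κ : Type*} (S : Finset κ) (J : κ → Jet) : Jet :=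
  ⟨∑ i ∈ S, (J i).v, ∑ i ∈ S, (J i).h, ∑ i ∈ S, (J i).Q, ∑ i ∈ S, (J i).a, ∑ i ∈ S, (J i).b,
    ∑ i ∈ S, (J i).k⟩

theorem sumJet_insert {κ : Type*} [DecidableEq κ] {S : Finset κ} {J : κ → Jet} {i : κ}
    (hi : i ∉ S) : sumJet (insert i S) J = (J i).add (sumJet S J) := by
  simp [sumJet, Jet.add, Finset.sum_insert hi]

theorem hasJet_sum {κ : Type*} (S : Finset κ) {φ : κ → ℂ → ℝ} {J : κ → Jet}
    (h : ∀ i ∈ S, HasJet (φ i) (J i)) : HasJet (fun ζ => ∑ i ∈ S, φ i ζ) (sumJet S J) := by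
  classical
  induction S using Finset.induction_on with
  | empty =>
    have := hasJet_const 0
    simpa [sumJet, Jet.const] using this
  | insert i S hi ih =>
    rw [sumJet_insert hi]
    have h1 := HasJet.add (h i (Finset.mem_insert_self _ _))
      (ih fun j hj => h j (Finset.mem_insert_of_mem hj))
    simpa [Finset.sum_insert hi] using h1

theorem relSmall_sum {κ : Type*} (S : Finset κ) {J : κ → Jet} {A : κ → ℝ}
    (h : ∀ i ∈ S, RelSmall (J i) 0 0 (A i)) (h0 : ∀ i ∈ S, 0 ≤ A i) :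
    RelSmall (sumJet S J) 0 0 (∑ i ∈ S, A i) := by
  classical
  induction S using Finset.induction_on with
  | empty => simp [sumJet, RelSmall]
  | insert i S hi ih =>
    rw [sumJet_insert hi, Finset.sum_insert hi]
    exact relSmall_add (h i (Finset.mem_insert_self _ _))
      (ih (fun j hj => h j (Finset.mem_insert_of_mem hj))
        (fun j hj => h0 j (Finset.mem_insert_of_mem hj)))
      (h0 i (Finset.mem_insert_self _ _))
      (Finset.sum_nonneg fun j hj => h0 j (Finset.mem_insert_of_mem hj))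

/-- composition with a function with small derivatives -/
theorem comp_small {J : Jet} {F0 F1 F2 F3 F4 w A B : ℝ} (hw0 : 0 ≤ w) (hw1 : w ≤ 1) (hB : 1 ≤ B)
    (hA : 0 ≤ A) (h1 : |F1| ≤ B * w ^ 4) (h2 : |F2| ≤ B * w ^ 4) (h3 : |F3| ≤ B * w ^ 4)
    (h4 : |F4| ≤ B * w ^ 4) (ha : w * ‖J.a‖ ≤ A) (hb : w ^ 2 * ‖J.b‖ ≤ A ^ 2)
    (hh : w ^ 2 * |J.h| ≤ A ^ 2) (hk : w ^ 3 * ‖J.k‖ ≤ A ^ 3) (hQ : w ^ 4 * |J.Q| ≤ A ^ 4) :
    RelSmall (Jet.comp F0 F1 F2 F3 F4 J) 0 0 (2 * B * A) := by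
  have w2 : w ^ 2 ≤ 1 := pow_le_one₀ hw0 hw1
  have w3 : w ^ 3 ≤ 1 := pow_le_one₀ hw0 hw1
  have hB0 : 0 ≤ B := by linarith
  have hα0 := norm_nonneg J.a
  have hβ0 := norm_nonneg J.b
  have hH0 := abs_nonneg J.h
  have hκ0 := norm_nonneg J.k
  have hΘ0 := abs_nonneg J.Q
  set α := ‖J.a‖ with hα
  set β := ‖J.b‖ with hβ
  set H := |J.h| with hH
  set κ := ‖J.k‖ with hκ
  set Θ := |J.Q| with hΘ
  have m_a : w ^ 4 * α ≤ A := by
    calc w ^ 4 * α = w ^ 3 * (w * α) := by ring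
      _ ≤ 1 * A := by gcongr
      _ = A := one_mul _
  have m_aa : w ^ 4 * α ^ 2 ≤ A ^ 2 := by
    calc w ^ 4 * α ^ 2 = w ^ 2 * (w * α) ^ 2 := by ring
      _ ≤ 1 * A ^ 2 := by gcongr
      _ = _ := one_mul _
  have m_b : w ^ 4 * β ≤ A ^ 2 := by
    calc w ^ 4 * β = w ^ 2 * (w ^ 2 * β) := by ring
      _ ≤ 1 * A ^ 2 := by gcongr
      _ = _ := one_mul _
  have m_h : w ^ 4 * H ≤ A ^ 2 := by
    calc w ^ 4 * H = w ^ 2 * (w ^ 2 * H) := by ring
      _ ≤ 1 * A ^ 2 := by gcongr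
      _ = _ := one_mul _
  have m_aaa : w ^ 4 * α ^ 3 ≤ A ^ 3 := by
    calc w ^ 4 * α ^ 3 = w * (w * α) ^ 3 := by ring
      _ ≤ 1 * A ^ 3 := by gcongr
      _ = _ := one_mul _
  have m_ah : w ^ 4 * (α * H) ≤ A ^ 3 := by
    calc w ^ 4 * (α * H) = w * ((w * α) * (w ^ 2 * H)) := by ring
      _ ≤ 1 * (A * A ^ 2) := by gcongr
      _ = _ := by ring
  have m_ab : w ^ 4 * (α * β) ≤ A ^ 3 := by
    calc w ^ 4 * (α * β) = w * ((w * α) * (w ^ 2 * β)) := by ring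
      _ ≤ 1 * (A * A ^ 2) := by gcongr
      _ = _ := by ring
  have m_k : w ^ 4 * κ ≤ A ^ 3 := by
    calc w ^ 4 * κ = w * (w ^ 3 * κ) := by ring
      _ ≤ 1 * A ^ 3 := by gcongr
      _ = _ := one_mul _
  have m_hh : w ^ 4 * H ^ 2 ≤ A ^ 4 := by
    calc w ^ 4 * H ^ 2 = (w ^ 2 * H) * (w ^ 2 * H) := by ring
      _ ≤ A ^ 2 * A ^ 2 := by gcongr
      _ = _ := by ring
  have m_bb : w ^ 4 * β ^ 2 ≤ A ^ 4 := by
    calc w ^ 4 * β ^ 2 = (w ^ 2 * β) * (w ^ 2 * β) := by ring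
      _ ≤ A ^ 2 * A ^ 2 := by gcongr
      _ = _ := by ring
  have m_ak : w ^ 4 * (α * κ) ≤ A ^ 4 := by
    calc w ^ 4 * (α * κ) = (w * α) * (w ^ 3 * κ) := by ring
      _ ≤ A * A ^ 3 := by gcongr
      _ = _ := by ring
  have m_aah : w ^ 4 * (α ^ 2 * H) ≤ A ^ 4 := by
    calc w ^ 4 * (α ^ 2 * H) = (w * α) ^ 2 * (w ^ 2 * H) := by ring
      _ ≤ A ^ 2 * A ^ 2 := by gcongr
      _ = _ := by ring
  have m_aab : w ^ 4 * (α ^ 2 * β) ≤ A ^ 4 := by
    calc w ^ 4 * (α ^ 2 * β) = (w * α) ^ 2 * (w ^ 2 * β) := by ring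
      _ ≤ A ^ 2 * A ^ 2 := by gcongr
      _ = _ := by ring
  have m_aaaa : w ^ 4 * α ^ 4 ≤ A ^ 4 := by
    calc w ^ 4 * α ^ 4 = (w * α) ^ 4 := by ring
      _ ≤ A ^ 4 := by gcongr
  -- products with the derivatives
  have key : ∀ {F x M : ℝ}, |F| ≤ B * w ^ 4 → 0 ≤ x → w ^ 4 * x ≤ M → |F| * x ≤ B * M := by
    intro F x M hF hx hM
    calc |F| * x ≤ (B * w ^ 4) * x := by gcongr
      _ = B * (w ^ 4 * x) := by ring
      _ ≤ B * M := by gcongr
  refine ⟨?_, ?_, ?_, ?_, ?_⟩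
  · simp only [Jet.comp, sub_zero]
    rw [norm_mul, Complex.norm_real]
    have := key h1 hα0 m_a
    have e : B * A ≤ 2 * B * A := by nlinarith [mul_nonneg hB0 hA]
    exact this.trans e
  · simp only [Jet.comp, sub_zero]
    refine (norm_add_le _ _).trans ?_
    rw [norm_mul, norm_mul, Complex.norm_real, Complex.norm_real, norm_pow]
    have e1 := key h2 (by positivity) m_aa
    have e2 := key h1 hβ0 m_b
    have e : B * A ^ 2 + B * A ^ 2 ≤ (2 * B * A) ^ 2 := by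
      have : (2 * B * A) ^ 2 = 4 * B * B * A ^ 2 := by ring
      rw [this]
      have : 0 ≤ B * A ^ 2 := by positivity
      nlinarith
    exact (add_le_add e1 e2).trans e
  · simp only [Jet.comp]
    refine (abs_add_le _ _).trans ?_
    rw [abs_mul, abs_mul, abs_of_nonneg (by positivity : (0:ℝ) ≤ ‖J.a‖ ^ 2)]
    have e1 := key h2 (by positivity) m_aa
    have e2 := key h1 hH0 m_h
    have e : B * A ^ 2 + B * A ^ 2 ≤ (2 * B * A) ^ 2 := by
      have : (2 * B * A) ^ 2 = 4 * B * B * A ^ 2 := by ring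
      rw [this]
      have : 0 ≤ B * A ^ 2 := by positivity
      nlinarith
    exact (add_le_add e1 e2).trans e
  · simp only [Jet.comp, sub_zero]
    have e1 := key h3 (by positivity) m_aaa
    have e2 := key h2 (by positivity) m_ah
    have e3 := key h2 (by positivity) m_ab
    have e4 := key h1 hκ0 m_k
    have n1 : ‖(F3 : ℂ) * (‖J.a‖ : ℂ) ^ 2 * J.a‖ = |F3| * α ^ 3 := by
      rw [norm_mul, norm_mul, Complex.norm_real, norm_pow, Complex.norm_real, norm_norm,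
        Real.norm_eq_abs]
      ring
    have n2 : ‖2 * (F2 : ℂ) * J.a * (J.h : ℂ)‖ = 2 * (|F2| * (α * H)) := by
      rw [norm_mul, norm_mul, norm_mul, Complex.norm_real, Complex.norm_real, Real.norm_eq_abs,
        Real.norm_eq_abs, Complex.norm_ofNat]
      ring
    have n3 : ‖(F2 : ℂ) * conj J.a * J.b‖ = |F2| * (α * β) := by
      rw [norm_mul, norm_mul, Complex.norm_real, Complex.norm_conj, Real.norm_eq_abs]
      ring
    have n4 : ‖(F1 : ℂ) * J.k‖ = |F1| * κ := by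
      rw [norm_mul, Complex.norm_real, Real.norm_eq_abs]
    refine (norm_add_le _ _).trans ?_
    refine (add_le_add ((norm_add_le _ _).trans (add_le_add (norm_add_le _ _) le_rfl)) le_rfl).trans ?_
    rw [n1, n2, n3, n4]
    have e : 5 * (B * A ^ 3) ≤ (2 * B * A) ^ 3 := by
      have : (2 * B * A) ^ 3 = 8 * (B * B) * (B * A ^ 3) := by ring
      rw [this]
      have h5 : 0 ≤ B * A ^ 3 := by positivity
      have h6 : 5 ≤ 8 * (B * B) := by nlinarith
      gcongr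
    linarith
  · simp only [Jet.comp]
    have e1 := key h1 hΘ0 hQ
    have e2 := key h2 (by positivity) m_hh
    have e3 := key h2 (by positivity) m_bb
    have e4 := key h2 (by positivity) m_ak
    have e5 := key h3 (by positivity) m_aah
    have e6 := key h3 (by positivity) m_aab
    have e7 := key h4 (by positivity) m_aaaa
    have r1 : |(J.a * conj J.k).re| ≤ α * κ := by
      refine (Complex.abs_re_le_norm _).trans ?_
      rw [norm_mul, Complex.norm_conj]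
    have r2 : |((conj J.a) ^ 2 * J.b).re| ≤ α ^ 2 * β := by
      refine (Complex.abs_re_le_norm _).trans ?_
      rw [norm_mul, norm_pow, Complex.norm_conj]
    have hh2 : J.h ^ 2 = H ^ 2 := by rw [hH, sq_abs]
    have b1 : |F1 * J.Q| = |F1| * Θ := abs_mul _ _
    have b2 : |F2 * (2 * J.h ^ 2 + ‖J.b‖ ^ 2 + 4 * (J.a * conj J.k).re)| ≤
        2 * (|F2| * H ^ 2) + |F2| * β ^ 2 + 4 * (|F2| * (α * κ)) := by
      rw [abs_mul, hh2]
      have : |2 * H ^ 2 + ‖J.b‖ ^ 2 + 4 * (J.a * conj J.k).re| ≤ 2 * H ^ 2 + β ^ 2 + 4 * (α * κ) := by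
        refine (abs_add_le _ _).trans ?_
        rw [abs_of_nonneg (by positivity : (0:ℝ) ≤ 2 * H ^ 2 + ‖J.b‖ ^ 2), abs_mul,
          abs_of_pos (by norm_num : (0:ℝ) < 4)]
        gcongr
      calc |F2| * |2 * H ^ 2 + ‖J.b‖ ^ 2 + 4 * (J.a * conj J.k).re|
          ≤ |F2| * (2 * H ^ 2 + β ^ 2 + 4 * (α * κ)) := by gcongr
        _ = _ := by ring
    have b3 : |F3 * (4 * ‖J.a‖ ^ 2 * J.h + 2 * ((conj J.a) ^ 2 * J.b).re)| ≤
        4 * (|F3| * (α ^ 2 * H)) + 2 * (|F3| * (α ^ 2 * β)) := by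
      rw [abs_mul]
      have : |4 * ‖J.a‖ ^ 2 * J.h + 2 * ((conj J.a) ^ 2 * J.b).re| ≤
          4 * (α ^ 2 * H) + 2 * (α ^ 2 * β) := by
        refine (abs_add_le _ _).trans ?_
        rw [abs_mul, abs_of_nonneg (by positivity : (0:ℝ) ≤ 4 * ‖J.a‖ ^ 2), abs_mul,
          abs_of_pos (by norm_num : (0:ℝ) < 2), mul_assoc]
        gcongr
      calc |F3| * |4 * ‖J.a‖ ^ 2 * J.h + 2 * ((conj J.a) ^ 2 * J.b).re|
          ≤ |F3| * (4 * (α ^ 2 * H) + 2 * (α ^ 2 * β)) := by gcongr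
        _ = _ := by ring
    have b4 : |F4 * ‖J.a‖ ^ 4| = |F4| * α ^ 4 := by
      rw [abs_mul, abs_of_nonneg (by positivity : (0:ℝ) ≤ ‖J.a‖ ^ 4)]
    refine (abs_add_le _ _).trans ?_
    refine (add_le_add ((abs_add_le _ _).trans (add_le_add (abs_add_le _ _) le_rfl)) le_rfl).trans ?_
    rw [b1, b4]
    have e : 15 * (B * A ^ 4) ≤ (2 * B * A) ^ 4 := by
      have : (2 * B * A) ^ 4 = 16 * (B * B * B) * (B * A ^ 4) := by ring
      rw [this]
      have h5 : 0 ≤ B * A ^ 4 := by positivity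
      have h6 : 15 ≤ 16 * (B * B * B) := by
        have : 1 ≤ B * B := by nlinarith
        nlinarith
      gcongr
    linarith

/-! ### the maximum, log-sum-exp -/

theorem le_mx (s : Fin q → ℝ) (i : Fin q) : s i ≤ mx s :=
  le_ciSup (Set.finite_range s).bddAbove i

theorem nonempty_of (hq : 1 ≤ q) : Nonempty (Fin q) := ⟨⟨0, by omega⟩⟩

theorem sum_exp_pos (hq : 1 ≤ q) (s : Fin q → ℝ) : 0 < ∑ i, Real.exp (s i) := by
  have := nonempty_of hq
  exact Finset.sum_pos (fun i _ => Real.exp_pos _) Finset.univ_nonempty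

theorem lse_smooth (hq : 1 ≤ q) : ContDiff ℝ ∞ (lse (q := q)) := by
  unfold lse
  refine ContDiff.log ?_ (fun s => (sum_exp_pos hq s).ne')
  fun_prop

theorem le_lse (hq : 1 ≤ q) (s : Fin q → ℝ) (i : Fin q) : s i ≤ lse s := by
  unfold lse
  rw [Real.le_log_iff_exp_le (sum_exp_pos hq s)]
  exact Finset.single_le_sum (f := fun i => Real.exp (s i)) (fun i _ => (Real.exp_pos _).le)
    (Finset.mem_univ i)

theorem mx_le_lse (hq : 1 ≤ q) (s : Fin q → ℝ) : mx s ≤ lse s := by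
  have := nonempty_of hq
  exact ciSup_le (le_lse hq s)

theorem lse_le (hq : 1 ≤ q) (s : Fin q → ℝ) : lse s ≤ mx s + Real.log q := by
  have hq0 : (0 : ℝ) < q := by exact_mod_cast hq
  unfold lse
  rw [Real.log_le_iff_le_exp (sum_exp_pos hq s), Real.exp_add, Real.exp_log hq0]
  calc ∑ i, Real.exp (s i) ≤ ∑ _i : Fin q, Real.exp (mx s) :=
        Finset.sum_le_sum fun i _ => Real.exp_le_exp.2 (le_mx s i)
    _ = Real.exp (mx s) * q := by simp [mul_comm]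

theorem lse_shift (hq : 1 ≤ q) (p : Fin q → ℝ) (i₀ : Fin q) :
    lse p = p i₀ + Real.log (∑ i, Real.exp (p i + (-1) * p i₀)) := by
  unfold lse
  have h1 : ∑ i, Real.exp (p i) = Real.exp (p i₀) * ∑ i, Real.exp (p i + (-1) * p i₀) := by
    rw [Finset.mul_sum]
    refine Finset.sum_congr rfl fun i _ => ?_
    rw [← Real.exp_add]
    congr 1
    ring
  rw [h1, Real.log_mul (Real.exp_pos _).ne' (sum_exp_pos hq _).ne', Real.log_exp]

theorem A0_nonneg (ϑ : ℝ) (s : Fin q → ℝ) (ξ η : Fin q → ℂ) (i₀ : Fin q) :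
    0 ≤ A0 ϑ s ξ η i₀ := by
  unfold A0
  positivity

theorem A0_mono {ϑ ϑ' : ℝ} (h : ϑ ≤ ϑ') (s : Fin q → ℝ) (ξ η : Fin q → ℂ) (i₀ : Fin q) :
    A0 ϑ' s ξ η i₀ ≤ A0 ϑ s ξ η i₀ := by
  unfold A0
  refine Finset.sum_le_sum fun i _ => ?_
  have hd : 0 ≤ mx s - s i := sub_nonneg.2 (le_mx s i)
  have : Real.exp (-(ϑ' * (mx s - s i))) ≤ Real.exp (-(ϑ * (mx s - s i))) := by
    apply Real.exp_le_exp.2
    nlinarith
  gcongr

theorem term_le_A0 (ϑ : ℝ) (s : Fin q → ℝ) (ξ η : Fin q → ℂ) (i₀ i : Fin q) :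
    Real.exp (-(ϑ * (mx s - s i))) * (‖ξ i - ξ i₀‖ + Real.sqrt ‖η i - η i₀‖) ≤
      A0 ϑ s ξ η i₀ := by
  unfold A0
  exact Finset.single_le_sum
    (f := fun i => Real.exp (-(ϑ * (mx s - s i))) * (‖ξ i - ξ i₀‖ + Real.sqrt ‖η i - η i₀‖))
    (fun i _ => by positivity) (Finset.mem_univ i)

/-- jet of the difference of two coordinates of the path -/
def dif (s : Fin q → ℝ) (ξ η : Fin q → ℂ) (i i₀ : Fin q) : Jet :=
  (Jet.hol (s i) (ξ i) (η i)).add (Jet.smul (-1) (Jet.hol (s i₀) (ξ i₀) (η i₀)))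

theorem hasJet_dif (s : Fin q → ℝ) (ξ η : Fin q → ℂ) (i i₀ : Fin q) :
    HasJet (fun ζ => hpath s ξ η ζ i + (-1) * hpath s ξ η ζ i₀) (dif s ξ η i i₀) :=
  HasJet.add (hasJet_hpath s ξ η i) (HasJet.smul (hasJet_hpath s ξ η i₀) (-1))

theorem hasJet_exp {φ : ℂ → ℝ} {J : Jet} (h : HasJet φ J) :
    HasJet (fun ζ => Real.exp (φ ζ)) (Jet.comp (Real.exp J.v) (Real.exp J.v) (Real.exp J.v)
      (Real.exp J.v) (Real.exp J.v) J) :=
  HasJet.comp h (Filter.Eventually.of_forall fun x => Real.hasDerivAt_exp x)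
    (Filter.Eventually.of_forall fun x => Real.hasDerivAt_exp x)
    (Filter.Eventually.of_forall fun x => Real.hasDerivAt_exp x)
    (Filter.Eventually.of_forall fun x => Real.hasDerivAt_exp x)
    (Filter.Eventually.of_forall fun x => Real.continuous_exp.continuousAt)

theorem hasJet_log {φ : ℂ → ℝ} {J : Jet} (h : HasJet φ J) (hv : 0 < J.v) :
    HasJet (fun ζ => Real.log (φ ζ)) (Jet.comp (Real.log J.v) (J.v⁻¹) (-(J.v ^ 2)⁻¹)
      (2 * (J.v ^ 3)⁻¹) (-(6 * (J.v ^ 4)⁻¹)) J) := by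
  have hev : ∀ᶠ x in 𝓝 J.v, 0 < x := lt_mem_nhds hv
  refine HasJet.comp (F := Real.log) (F1 := fun x => x⁻¹) (F2 := fun x => -(x ^ 2)⁻¹)
    (F3 := fun x => 2 * (x ^ 3)⁻¹) (F4 := fun x => -(6 * (x ^ 4)⁻¹)) h ?_ ?_ ?_ ?_ ?_
  · filter_upwards [hev] with x hx
    exact Real.hasDerivAt_log hx.ne'
  · filter_upwards [hev] with x hx
    exact hasDerivAt_inv hx.ne'
  · filter_upwards [hev] with x hx
    have hx' : x ≠ 0 := hx.ne'
    have h1 := ((hasDerivAt_pow 2 x).inv (by positivity)).neg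
    refine h1.congr_deriv ?_
    field_simp
    ring
  · filter_upwards [hev] with x hx
    have hx' : x ≠ 0 := hx.ne'
    have h1 := ((hasDerivAt_pow 3 x).inv (by positivity)).const_mul 2
    refine h1.congr_deriv ?_
    field_simp
    ring
  · filter_upwards [hev] with x hx
    have : x ^ 4 ≠ 0 := by positivity
    fun_prop (disch := assumption)

theorem lse_jet (hq : 1 ≤ q) (s : Fin q → ℝ) (ξ η : Fin q → ℂ) (i₀ : Fin q) (hi₀ : s i₀ = mx s) :
    ∃ J, HasJet (fun ζ => lse (hpath s ξ η ζ)) J ∧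
      RelSmall J (ξ i₀) (η i₀) (24 * A0 (1 / 4) s ξ η i₀) ∧ J.v = lse s := by
  -- the exponentials
  set E : Fin q → Jet := fun i => Jet.comp (Real.exp (dif s ξ η i i₀).v)
    (Real.exp (dif s ξ η i i₀).v) (Real.exp (dif s ξ η i i₀).v) (Real.exp (dif s ξ η i i₀).v)
    (Real.exp (dif s ξ η i i₀).v) (dif s ξ η i i₀) with hE
  have hEJ : ∀ i, HasJet (fun ζ => Real.exp (hpath s ξ η ζ i + (-1) * hpath s ξ η ζ i₀)) (E i) :=
    fun i => hasJet_exp (hasJet_dif s ξ η i i₀)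
  set Ai : Fin q → ℝ := fun i =>
    Real.exp (-(1 / 4 * (mx s - s i))) * (‖ξ i - ξ i₀‖ + Real.sqrt ‖η i - η i₀‖) with hAi
  have hAi0 : ∀ i, 0 ≤ Ai i := fun i => by positivity
  have hES : ∀ i ∈ Finset.univ, RelSmall (E i) 0 0 (2 * 1 * Ai i) := by
    intro i _
    have hd : 0 ≤ mx s - s i := sub_nonneg.2 (le_mx s i)
    set w := Real.exp (-(1 / 4 * (mx s - s i))) with hw
    have hw0 : 0 ≤ w := (Real.exp_pos _).le
    have hw1 : w ≤ 1 := by
      rw [hw, Real.exp_le_one_iff]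
      nlinarith
    have hw4 : Real.exp (dif s ξ η i i₀).v = w ^ 4 := by
      rw [hw, ← Real.exp_nat_mul]
      congr 1
      simp only [dif, Jet.add, Jet.smul, Jet.hol]
      rw [hi₀]
      push_cast
      ring
    have habs : |Real.exp (dif s ξ η i i₀).v| ≤ 1 * w ^ 4 := by
      rw [hw4, one_mul, abs_of_nonneg (by positivity)]
    have hx : (dif s ξ η i i₀).a = ξ i - ξ i₀ := by
      simp only [dif, Jet.add, Jet.smul, Jet.hol]; push_cast; ring
    have hy : (dif s ξ η i i₀).b = η i - η i₀ := by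
      simp only [dif, Jet.add, Jet.smul, Jet.hol]; push_cast; ring
    have hsq : Real.sqrt ‖η i - η i₀‖ ^ 2 = ‖η i - η i₀‖ := Real.sq_sqrt (norm_nonneg _)
    have hs0 := Real.sqrt_nonneg ‖η i - η i₀‖
    have hn0 := norm_nonneg (ξ i - ξ i₀)
    refine comp_small hw0 hw1 le_rfl (hAi0 i) habs habs habs habs ?_ ?_ ?_ ?_ ?_
    · rw [hx]
      simp only [hAi]
      have : ‖ξ i - ξ i₀‖ ≤ ‖ξ i - ξ i₀‖ + Real.sqrt ‖η i - η i₀‖ := by linarith
      exact mul_le_mul_of_nonneg_left this hw0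
    · rw [hy]
      simp only [hAi]
      rw [mul_pow]
      refine mul_le_mul_of_nonneg_left ?_ (by positivity)
      nlinarith [mul_nonneg hn0 hs0]
    · simp only [dif, Jet.add, Jet.smul, Jet.hol]
      simp only [mul_zero, add_zero, abs_zero]
      positivity
    · simp only [dif, Jet.add, Jet.smul, Jet.hol]
      simp only [mul_zero, add_zero, norm_zero]
      have := hAi0 i
      positivity
    · simp only [dif, Jet.add, Jet.smul, Jet.hol]
      simp only [mul_zero, add_zero, abs_zero]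
      positivity
  have hSJ := hasJet_sum Finset.univ (fun i _ => hEJ i)
  have hSS := relSmall_sum Finset.univ hES (fun i _ => by have := hAi0 i; positivity)
  set SJ := sumJet Finset.univ E with hSJdef
  have hsumA : ∑ i, 2 * 1 * Ai i = 2 * A0 (1 / 4) s ξ η i₀ := by
    unfold A0
    rw [Finset.mul_sum]
    refine Finset.sum_congr rfl fun i _ => ?_
    simp only [hAi]
    ring
  rw [hsumA] at hSS
  have hA00 := A0_nonneg (1 / 4) s ξ η i₀
  have hv1 : 1 ≤ SJ.v := by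
    have h1 : (E i₀).v ≤ SJ.v := by
      simp only [hSJdef, sumJet]
      refine Finset.single_le_sum (f := fun i => (E i).v) (fun i _ => ?_) (Finset.mem_univ i₀)
      simp only [hE, Jet.comp]
      exact (Real.exp_pos _).le
    have h2 : (E i₀).v = 1 := by
      simp only [hE, Jet.comp, dif, Jet.add, Jet.smul, Jet.hol]
      rw [show s i₀ + -1 * s i₀ = 0 by ring, Real.exp_zero]
    linarith
  have hv0 : 0 < SJ.v := by linarith
  have hLJ := hasJet_log hSJ hv0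
  have hLS : RelSmall (Jet.comp (Real.log SJ.v) (SJ.v⁻¹) (-(SJ.v ^ 2)⁻¹)
      (2 * (SJ.v ^ 3)⁻¹) (-(6 * (SJ.v ^ 4)⁻¹)) SJ) 0 0 (2 * 6 * (2 * A0 (1 / 4) s ξ η i₀)) := by
    obtain ⟨g1, g2, g3, g4, g5⟩ := hSS
    simp only [sub_zero] at g1 g2 g4
    have i1 : SJ.v⁻¹ ≤ 1 := inv_le_one_of_one_le₀ hv1
    have i2 : (SJ.v ^ 2)⁻¹ ≤ 1 := inv_le_one_of_one_le₀ (one_le_pow₀ hv1)
    have i3 : (SJ.v ^ 3)⁻¹ ≤ 1 := inv_le_one_of_one_le₀ (one_le_pow₀ hv1)
    have i4 : (SJ.v ^ 4)⁻¹ ≤ 1 := inv_le_one_of_one_le₀ (one_le_pow₀ hv1)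
    refine comp_small (w := 1) zero_le_one le_rfl (by norm_num) (by positivity) ?_ ?_ ?_ ?_ ?_ ?_
      ?_ ?_ ?_
    · rw [abs_of_nonneg (by positivity)]; linarith
    · rw [abs_neg, abs_of_nonneg (by positivity)]; linarith
    · rw [abs_of_nonneg (by positivity)]; linarith
    · rw [abs_neg, abs_of_nonneg (by positivity)]; linarith
    · simpa using g1
    · simpa using g2
    · simpa using g3
    · simpa using g4
    · simpa using g5
  set LJ := Jet.comp (Real.log SJ.v) (SJ.v⁻¹) (-(SJ.v ^ 2)⁻¹)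
      (2 * (SJ.v ^ 3)⁻¹) (-(6 * (SJ.v ^ 4)⁻¹)) SJ with hLJdef
  have hfin := HasJet.add (hasJet_hpath s ξ η i₀) hLJ
  have hfun : (fun ζ => hpath s ξ η ζ i₀ + Real.log (∑ i, Real.exp (hpath s ξ η ζ i +
      (-1) * hpath s ξ η ζ i₀))) = fun ζ => lse (hpath s ξ η ζ) := by
    funext ζ
    rw [lse_shift hq _ i₀]
  rw [hfun] at hfin
  refine ⟨_, hfin, ?_, ?_⟩
  · obtain ⟨g1, g2, g3, g4, g5⟩ := hLS
    have hc : 2 * 6 * (2 * A0 (1 / 4) s ξ η i₀) = 24 * A0 (1 / 4) s ξ η i₀ := by ring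
    rw [hc] at g1 g2 g3 g4 g5
    simp only [sub_zero] at g1 g2 g4
    refine ⟨?_, ?_, ?_, ?_, ?_⟩
    · simpa [Jet.add, Jet.hol] using g1
    · simpa [Jet.add, Jet.hol] using g2
    · simpa [Jet.add, Jet.hol] using g3
    · simpa [Jet.add, Jet.hol] using g4
    · simpa [Jet.add, Jet.hol] using g5
  · have h0 := hfin.2.1
    rw [← h0]
    change lse (hpath s ξ η 0) = lse s
    congr 1
    funext i
    simp [hpath]

end T5aux

open T5aux

/-- log-sum-exp satisfies the global bounds -/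
theorem lse_bdd (hq : 1 ≤ q) : ∃ C : ℝ, 1 ≤ C ∧ Bdd (q := q) lse C (1 / 4) := by
  have hlog : 0 ≤ Real.log q := Real.log_nonneg (by exact_mod_cast hq)
  refine ⟨24 + Real.log q, by linarith, ⟨lse_smooth hq, mx_le_lse hq, ?_, ?_⟩⟩
  · intro s
    have := lse_le hq s
    linarith
  · intro s ξ η i₀ hi₀ J hJ
    obtain ⟨K, hK, hK2, -⟩ := lse_jet hq s ξ η i₀ hi₀
    have hJK := HasJet.unique hJ hK
    subst hJK
    have hA := A0_nonneg (1 / 4) s ξ η i₀
    refine relSmall_mono hK2 (by positivity) ?_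
    have : 0 ≤ Real.log q * A0 (1 / 4) s ξ η i₀ := mul_nonneg hlog hA
    linarith

/-- smoothness and upper bounds for `RUN` -/
theorem RUN_smooth (hq : 1 ≤ q) (θ : ℝ) : ContDiff ℝ ∞ (RUN (q := q) θ) := by
  have := lse_smooth (q := q) hq
  unfold RUN
  fun_prop

namespace T5aux

/-- jet of `exp (-(ϑ φ))` -/
def eJ (ϑ : ℝ) (J : Jet) : Jet :=
  Jet.comp (Real.exp (-(ϑ * J.v))) (-ϑ * Real.exp (-(ϑ * J.v))) (ϑ ^ 2 * Real.exp (-(ϑ * J.v)))
    (-ϑ ^ 3 * Real.exp (-(ϑ * J.v))) (ϑ ^ 4 * Real.exp (-(ϑ * J.v))) J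

theorem hasJet_expneg (ϑ : ℝ) {φ : ℂ → ℝ} {J : Jet} (h : HasJet φ J) :
    HasJet (fun ζ => Real.exp (-(ϑ * φ ζ))) (eJ ϑ J) := by
  have hd : ∀ c x : ℝ, HasDerivAt (fun y => c * Real.exp (-(ϑ * y)))
      (c * (-ϑ * Real.exp (-(ϑ * x)))) x := by
    intro c x
    have h1 : HasDerivAt (fun y : ℝ => -(ϑ * y)) (-ϑ) x := by
      have h := (hasDerivAt_id' x).const_mul (-ϑ)
      have e : (fun y : ℝ => -(ϑ * y)) = fun y => -ϑ * y := by
        funext y; ring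
      rw [e]
      simpa using h
    have h2 := (h1.exp).const_mul c
    refine h2.congr_deriv ?_
    ring
  refine HasJet.comp (F := fun x => Real.exp (-(ϑ * x)))
    (F1 := fun x => -ϑ * Real.exp (-(ϑ * x))) (F2 := fun x => ϑ ^ 2 * Real.exp (-(ϑ * x)))
    (F3 := fun x => -ϑ ^ 3 * Real.exp (-(ϑ * x))) (F4 := fun x => ϑ ^ 4 * Real.exp (-(ϑ * x)))
    h ?_ ?_ ?_ ?_ ?_
  · refine Filter.Eventually.of_forall fun x => ?_
    have := hd 1 x
    simpa using this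
  · refine Filter.Eventually.of_forall fun x => ?_
    exact (hd (-ϑ) x).congr_deriv (by ring)
  · refine Filter.Eventually.of_forall fun x => ?_
    exact (hd (ϑ ^ 2) x).congr_deriv (by ring)
  · refine Filter.Eventually.of_forall fun x => ?_
    exact (hd (-ϑ ^ 3) x).congr_deriv (by ring)
  · exact Filter.Eventually.of_forall fun x => by fun_prop

/-- jet of `lse - s_i` from a jet of `lse` -/
def tJ (L : Jet) (s : Fin q → ℝ) (ξ η : Fin q → ℂ) (i : Fin q) : Jet :=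
  L.add (Jet.smul (-1) (Jet.hol (s i) (ξ i) (η i)))

theorem hasJet_t {s : Fin q → ℝ} {ξ η : Fin q → ℂ} {L : Jet}
    (hL : HasJet (fun ζ => lse (hpath s ξ η ζ)) L) (i : Fin q) :
    HasJet (fun ζ => lse (hpath s ξ η ζ) - hpath s ξ η ζ i) (tJ L s ξ η i) := by
  have := HasJet.add hL (HasJet.smul (hasJet_hpath s ξ η i) (-1))
  have e : (fun ζ => lse (hpath s ξ η ζ) - hpath s ξ η ζ i) =
      fun ζ => lse (hpath s ξ η ζ) + (-1) * hpath s ξ η ζ i := by
    funext ζ; ring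
  rw [e]
  exact this

/-- jet of `RUN` -/
def rJ (θ : ℝ) (L : Jet) (s : Fin q → ℝ) (ξ η : Fin q → ℂ) : Jet :=
  sumJet Finset.univ fun i => (eJ θ (tJ L s ξ η i)).add (Jet.smul (1 / 4) (eJ (2 * θ) (tJ L s ξ η i)))

theorem hasJet_RUN {θ : ℝ} {s : Fin q → ℝ} {ξ η : Fin q → ℂ} {L : Jet}
    (hL : HasJet (fun ζ => lse (hpath s ξ η ζ)) L) :
    HasJet (fun ζ => RUN θ (hpath s ξ η ζ)) (rJ θ L s ξ η) := by
  have := hasJet_sum Finset.univ (fun i _ => HasJet.add (hasJet_expneg θ (hasJet_t hL i))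
    (HasJet.smul (hasJet_expneg (2 * θ) (hasJet_t hL i)) (1 / 4)))
  have e : (fun ζ => RUN θ (hpath s ξ η ζ)) = fun ζ => ∑ i,
      (Real.exp (-(θ * (lse (hpath s ξ η ζ) - hpath s ξ η ζ i))) +
        1 / 4 * Real.exp (-(2 * θ * (lse (hpath s ξ η ζ) - hpath s ξ η ζ i)))) := by
    funext ζ
    unfold RUN
    refine Finset.sum_congr rfl fun i _ => ?_
    rw [mul_assoc 2 θ]
    ring
  rw [e]
  exact this

theorem tJ_fields (L : Jet) (s : Fin q → ℝ) (ξ η : Fin q → ℂ) (i : Fin q) :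
    (tJ L s ξ η i).v = L.v - s i ∧ (tJ L s ξ η i).a = L.a - ξ i ∧ (tJ L s ξ η i).b = L.b - η i ∧
    (tJ L s ξ η i).h = L.h ∧ (tJ L s ξ η i).k = L.k ∧ (tJ L s ξ η i).Q = L.Q := by
  simp only [tJ, Jet.add, Jet.smul, Jet.hol]
  refine ⟨by ring, ?_, ?_, ?_, ?_, ?_⟩ <;> (push_cast; ring)

end T5aux

end

end Pool.Agent.H789.HSC
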