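import Pool.Agent.H789.HSC.Recur
import Pool.Agent.H789.HSC.JetCalc
import Pool.Agent.H789.HSC.T5a
import Pool.Agent.H789.HSC.LseA

/-! The lower components of `RUN` are controlled by its `Q`-component. -/

open scoped BigOperators ContDiff ComplexConjugate

namespace Pool.Agent.H789.HSC

noncomputable section

variable {q : ℕ}

open T5aux

open RGaux

/-- the lower components of `RUN` are controlled by its `Q`-component -/
theorem RUN_good (hq : 1 ≤ q) {θ : ℝ} (h0 : 0 < θ) (h1 : θ ≤ 1 / 8) :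
    ∃ C : ℝ, 0 ≤ C ∧ ∀ (s : Fin q → ℝ) (ξ η : Fin q → ℂ) (i₀ : Fin q), s i₀ = mx s → ∀ J : Jet,
      HasJet (fun ζ => RUN θ (hpath s ξ η ζ)) J →
      ∀ A : ℝ, 0 ≤ A → J.Q + C * A0 (1 / 4) s ξ η i₀ ^ 4 ≤ A ^ 4 →
        ‖J.a‖ ≤ C * A ∧ ‖J.b‖ ≤ C * A ^ 2 ∧ |J.h| ≤ C * A ^ 2 ∧ ‖J.k‖ ≤ C * A ^ 3 := by
  have hq1 : (1 : ℝ) ≤ q := by exact_mod_cast hq
  have hθ1 : θ ≤ 1 := by linarith
  refine ⟨q * (2001 * 24 ^ 4), by positivity, ?_⟩
  intro s ξ η i₀ hi₀ J hJ A hA hJA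
  obtain ⟨L, hL, hLS, hLv⟩ := lse_jet hq s ξ η i₀ hi₀
  have hJK := HasJet.unique hJ (hasJet_RUN hL)
  subst hJK
  obtain ⟨l1, l2, l3, l4, l5⟩ := hLS
  set y := 24 * A0 (1 / 4) s ξ η i₀ with hy
  have hA0 := A0_nonneg (1 / 4) s ξ η i₀
  have hy0 : 0 ≤ y := by positivity
  set e : Fin q → ℝ := fun i => Real.exp (-(θ * (L.v - s i))) with he
  have he0 : ∀ i, 0 < e i := fun i => Real.exp_pos _
  have ht0 : ∀ i, 0 ≤ L.v - s i := by
    intro i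
    rw [hLv]; exact sub_nonneg.2 (le_lse hq s i)
  have he1 : ∀ i, e i ≤ 1 := by
    intro i
    simp only [he]
    rw [Real.exp_le_one_iff]
    have := mul_nonneg h0.le (ht0 i)
    linarith
  have he2 : ∀ i, Real.exp (-(2 * θ * (L.v - s i))) = e i ^ 2 := by
    intro i
    simp only [he]
    rw [← Real.exp_nat_mul]
    congr 1
    push_cast
    ring
  set Br : Fin q → ℝ := fun i => e i * (θ ^ 2 * ‖(L.b - η i) - θ * (L.a - ξ i) ^ 2‖ ^ 2) +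
      e i ^ 2 * (θ ^ 2 * ‖(L.b - η i) - ((2 * θ : ℝ) : ℂ) * (L.a - ξ i) ^ 2‖ ^ 2) with hBr
  have hc := fun i => core2 (θ := θ) (e := e i) (H := L.h) (Q := L.Q) (y := y) (τ := L.a - ξ i)
    (σ := L.b - η i) (K := L.k) h0 hθ1 (he0 i) (he1 i) hy0 l3 l4 l5
  have hQ : ∀ i, ((eJ θ (tJ L s ξ η i)).add (Jet.smul (1 / 4) (eJ (2 * θ) (tJ L s ξ η i)))).Q =
        (e i * (-θ * L.Q + θ ^ 2 * (2 * L.h ^ 2 + ‖L.b - η i‖ ^ 2 +
          4 * ((L.a - ξ i) * conj L.k).re) -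
          θ ^ 3 * (4 * ‖L.a - ξ i‖ ^ 2 * L.h + 2 * ((conj (L.a - ξ i)) ^ 2 * (L.b - η i)).re) +
          θ ^ 4 * ‖L.a - ξ i‖ ^ 4)) +
        1 / 4 * (e i ^ 2 * (-(2 * θ) * L.Q + (2 * θ) ^ 2 * (2 * L.h ^ 2 + ‖L.b - η i‖ ^ 2 +
          4 * ((L.a - ξ i) * conj L.k).re) - (2 * θ) ^ 3 * (4 * ‖L.a - ξ i‖ ^ 2 * L.h +
          2 * ((conj (L.a - ξ i)) ^ 2 * (L.b - η i)).re) + (2 * θ) ^ 4 * ‖L.a - ξ i‖ ^ 4)) := by
    intro i
    obtain ⟨tv, ta, tb, th, tk, tQ⟩ := tJ_fields L s ξ η i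
    simp only [Jet.add, Jet.smul, eJ, Jet.comp]
    rw [tv, ta, tb, th, tk, tQ, he2]
    simp only [he]
    ring
  have hJQ : (rJ θ L s ξ η).Q = ∑ i, ((eJ θ (tJ L s ξ η i)).add
      (Jet.smul (1 / 4) (eJ (2 * θ) (tJ L s ξ η i)))).Q := rfl
  have hBr0 : ∀ i, 0 ≤ Br i := by
    intro i
    have := (he0 i).le
    simp only [hBr]
    positivity
  have hsum : (∑ i, Br i) / 2 - q * (2000 * y ^ 4) ≤ (rJ θ L s ξ η).Q := by
    rw [hJQ]
    have h5 : ∀ i ∈ (Finset.univ : Finset (Fin q)), Br i / 2 - 2000 * y ^ 4 ≤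
        ((eJ θ (tJ L s ξ η i)).add (Jet.smul (1 / 4) (eJ (2 * θ) (tJ L s ξ η i)))).Q := by
      intro i _
      rw [hQ i]
      exact (hc i).2
    refine le_trans (le_of_eq ?_) (Finset.sum_le_sum h5)
    rw [Finset.sum_sub_distrib, Finset.sum_const, Finset.card_univ, Fintype.card_fin,
      nsmul_eq_mul, Finset.sum_div]
  have hy4 : y ^ 4 = 24 ^ 4 * A0 (1 / 4) s ξ η i₀ ^ 4 := by rw [hy, mul_pow]
  have hy40 : 0 ≤ y ^ 4 := by positivity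
  have hBs0 : 0 ≤ ∑ i, Br i := Finset.sum_nonneg fun i _ => hBr0 i
  have hJA' : (∑ i, Br i) / 2 + q * y ^ 4 ≤ A ^ 4 := by
    have h6 : (q : ℝ) * (2001 * 24 ^ 4) * A0 (1 / 4) s ξ η i₀ ^ 4 = q * (2001 * y ^ 4) := by
      rw [hy4]; ring
    rw [h6] at hJA
    linarith
  have hBr1 : ∀ i, Br i ≤ 2 * A ^ 4 := by
    intro i
    have h7 : Br i ≤ ∑ i, Br i := Finset.single_le_sum (fun i _ => hBr0 i) (Finset.mem_univ i)
    have h8 : 0 ≤ (q : ℝ) * y ^ 4 := by positivity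
    linarith
  have hyA : y ≤ A := by
    by_contra hcon
    push Not at hcon
    have h8 : A ^ 4 < y ^ 4 := pow_lt_pow_left₀ hcon hA (by norm_num)
    have h9 : y ^ 4 ≤ q * y ^ 4 := by nlinarith
    linarith
  have hyA2 : y ^ 2 ≤ A ^ 2 := pow_le_pow_left₀ hy0 hyA 2
  have hyA3 : y ^ 3 ≤ A ^ 3 := pow_le_pow_left₀ hy0 hyA 3
  have hcomp := fun i => comps (θ := θ) (e := e i) (H := L.h) (y := y) (A := A) (τ := L.a - ξ i)
    (σ := L.b - η i) (K := L.k) h0 hθ1 (he0 i) (he1 i) hy0 hA hyA l3 l4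
    ((hc i).1.trans (hBr1 i))
    (le_trans (le_add_of_nonneg_right (by have := (he0 i).le; positivity)) (hBr1 i))
    (le_trans (le_add_of_nonneg_left (by have := (he0 i).le; positivity)) (hBr1 i))
  have hH' : |L.h| ≤ A ^ 2 := l3.trans hyA2
  have hK' : ‖L.k‖ ≤ A ^ 3 := l4.trans hyA3
  have hA2 : 0 ≤ A ^ 2 := by positivity
  have hA3 : 0 ≤ A ^ 3 := by positivity
  have hee : ∀ i, e i ^ 2 ≤ e i := by
    intro i
    have := he0 i
    have := he1 i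
    nlinarith
  -- componentwise bounds
  have ba : ∀ i, ‖((eJ θ (tJ L s ξ η i)).add (Jet.smul (1 / 4) (eJ (2 * θ) (tJ L s ξ η i)))).a‖ ≤
      100 * A := by
    intro i
    obtain ⟨tv, ta, tb, th, tk, tQ⟩ := tJ_fields L s ξ η i
    obtain ⟨c1, c2, c3, c4, c5⟩ := hcomp i
    have e0 := (he0 i).le
    have e1 : ((eJ θ (tJ L s ξ η i)).add (Jet.smul (1 / 4) (eJ (2 * θ) (tJ L s ξ η i)))).a =
        ((-(θ * e i) - θ / 2 * e i ^ 2 : ℝ) : ℂ) * (L.a - ξ i) := by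
      simp only [Jet.add, Jet.smul, eJ, Jet.comp]
      rw [tv, ta, he2]
      simp only [he]
      push_cast
      ring
    rw [e1, norm_mul, Complex.norm_real, Real.norm_eq_abs]
    have e2 : |-(θ * e i) - θ / 2 * e i ^ 2| ≤ 2 * (θ * e i) := by
      rw [abs_le]
      have := mul_le_mul_of_nonneg_left (hee i) h0.le
      have : 0 ≤ θ * e i := by positivity
      have : 0 ≤ θ * e i ^ 2 := by positivity
      constructor <;> linarith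
    calc |-(θ * e i) - θ / 2 * e i ^ 2| * ‖L.a - ξ i‖ ≤ 2 * (θ * e i) * ‖L.a - ξ i‖ := by gcongr
      _ = 2 * (θ * (e i * ‖L.a - ξ i‖)) := by ring
      _ ≤ _ := by linarith
  have bb : ∀ i, ‖((eJ θ (tJ L s ξ η i)).add (Jet.smul (1 / 4) (eJ (2 * θ) (tJ L s ξ η i)))).b‖ ≤
      100 * A ^ 2 := by
    intro i
    obtain ⟨tv, ta, tb, th, tk, tQ⟩ := tJ_fields L s ξ η i
    obtain ⟨c1, c2, c3, c4, c5⟩ := hcomp i
    have e0 := (he0 i).le
    have e1 : ((eJ θ (tJ L s ξ η i)).add (Jet.smul (1 / 4) (eJ (2 * θ) (tJ L s ξ η i)))).b =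
        ((θ ^ 2 * e i + θ ^ 2 * e i ^ 2 : ℝ) : ℂ) * (L.a - ξ i) ^ 2 +
        ((-(θ * e i) - θ / 2 * e i ^ 2 : ℝ) : ℂ) * (L.b - η i) := by
      simp only [Jet.add, Jet.smul, eJ, Jet.comp]
      rw [tv, ta, tb, he2]
      simp only [he]
      push_cast
      ring
    rw [e1]
    refine (norm_add_le _ _).trans ?_
    rw [norm_mul, norm_mul, Complex.norm_real, Real.norm_eq_abs, Complex.norm_real,
      Real.norm_eq_abs, norm_pow]
    have e2 : |-(θ * e i) - θ / 2 * e i ^ 2| ≤ 2 * (θ * e i) := by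
      rw [abs_le]
      have := mul_le_mul_of_nonneg_left (hee i) h0.le
      have : 0 ≤ θ * e i := by positivity
      have : 0 ≤ θ * e i ^ 2 := by positivity
      constructor <;> linarith
    have e3 : |θ ^ 2 * e i + θ ^ 2 * e i ^ 2| ≤ 2 * (θ ^ 2 * e i) := by
      rw [abs_of_nonneg (by positivity)]
      have := mul_le_mul_of_nonneg_left (hee i) (by positivity : 0 ≤ θ ^ 2)
      linarith
    calc |θ ^ 2 * e i + θ ^ 2 * e i ^ 2| * ‖L.a - ξ i‖ ^ 2 +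
        |-(θ * e i) - θ / 2 * e i ^ 2| * ‖L.b - η i‖
        ≤ 2 * (θ ^ 2 * e i) * ‖L.a - ξ i‖ ^ 2 + 2 * (θ * e i) * ‖L.b - η i‖ := by gcongr
      _ = 2 * (θ ^ 2 * (e i * ‖L.a - ξ i‖ ^ 2)) + 2 * (θ * (e i * ‖L.b - η i‖)) := by ring
      _ ≤ _ := by linarith
  have bh : ∀ i, |((eJ θ (tJ L s ξ η i)).add (Jet.smul (1 / 4) (eJ (2 * θ) (tJ L s ξ η i)))).h| ≤
      100 * A ^ 2 := by
    intro i
    obtain ⟨tv, ta, tb, th, tk, tQ⟩ := tJ_fields L s ξ η i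
    obtain ⟨c1, c2, c3, c4, c5⟩ := hcomp i
    have e0 := (he0 i).le
    have e1 : ((eJ θ (tJ L s ξ η i)).add (Jet.smul (1 / 4) (eJ (2 * θ) (tJ L s ξ η i)))).h =
        (θ ^ 2 * e i + θ ^ 2 * e i ^ 2) * ‖L.a - ξ i‖ ^ 2 +
        (-(θ * e i) - θ / 2 * e i ^ 2) * L.h := by
      simp only [Jet.add, Jet.smul, eJ, Jet.comp]
      rw [tv, ta, th, he2]
      simp only [he]
      ring
    rw [e1]
    refine (abs_add_le _ _).trans ?_
    rw [abs_mul, abs_mul]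
    have e2 : |-(θ * e i) - θ / 2 * e i ^ 2| ≤ 2 := by
      rw [abs_le]
      have a1 := mul_le_mul_of_nonneg_left (hee i) h0.le
      have a2 : 0 ≤ θ * e i := by positivity
      have a3 : 0 ≤ θ * e i ^ 2 := by positivity
      have a4 : θ * e i ≤ 1 * 1 := mul_le_mul hθ1 (he1 i) e0 (by norm_num)
      constructor <;> linarith
    have e3 : |θ ^ 2 * e i + θ ^ 2 * e i ^ 2| ≤ 2 * (θ ^ 2 * e i) := by
      rw [abs_of_nonneg (by positivity)]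
      have := mul_le_mul_of_nonneg_left (hee i) (by positivity : 0 ≤ θ ^ 2)
      linarith
    have e4 : |‖L.a - ξ i‖ ^ 2| = ‖L.a - ξ i‖ ^ 2 := abs_of_nonneg (by positivity)
    rw [e4]
    calc |θ ^ 2 * e i + θ ^ 2 * e i ^ 2| * ‖L.a - ξ i‖ ^ 2 +
        |-(θ * e i) - θ / 2 * e i ^ 2| * |L.h|
        ≤ 2 * (θ ^ 2 * e i) * ‖L.a - ξ i‖ ^ 2 + 2 * A ^ 2 := by gcongr
      _ = 2 * (θ ^ 2 * (e i * ‖L.a - ξ i‖ ^ 2)) + 2 * A ^ 2 := by ring
      _ ≤ _ := by linarith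
  have bk : ∀ i, ‖((eJ θ (tJ L s ξ η i)).add (Jet.smul (1 / 4) (eJ (2 * θ) (tJ L s ξ η i)))).k‖ ≤
      100 * A ^ 3 := by
    intro i
    obtain ⟨tv, ta, tb, th, tk, tQ⟩ := tJ_fields L s ξ η i
    obtain ⟨c1, c2, c3, c4, c5⟩ := hcomp i
    have e0 := (he0 i).le
    have hcc : (L.a - ξ i) * conj (L.a - ξ i) = ((‖L.a - ξ i‖ ^ 2 : ℝ) : ℂ) := by
      rw [Complex.mul_conj']; push_cast; ring
    have e1 : ((eJ θ (tJ L s ξ η i)).add (Jet.smul (1 / 4) (eJ (2 * θ) (tJ L s ξ η i)))).k =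
        ((θ ^ 2 * e i : ℝ) : ℂ) * (conj (L.a - ξ i) *
          ((L.b - η i) - θ * (L.a - ξ i) ^ 2)) +
        ((θ ^ 2 * e i ^ 2 : ℝ) : ℂ) * (conj (L.a - ξ i) *
          ((L.b - η i) - ((2 * θ : ℝ) : ℂ) * (L.a - ξ i) ^ 2)) +
        ((2 * (θ ^ 2 * e i + θ ^ 2 * e i ^ 2) * L.h : ℝ) : ℂ) * (L.a - ξ i) +
        ((-(θ * e i) - θ / 2 * e i ^ 2 : ℝ) : ℂ) * L.k := by
      simp only [Jet.add, Jet.smul, eJ, Jet.comp]
      rw [tv, ta, tb, th, tk, he2]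
      simp only [he]
      have hc2 : (‖L.a - ξ i‖ : ℂ) ^ 2 = (L.a - ξ i) * conj (L.a - ξ i) := by
        rw [hcc]; push_cast; ring
      rw [hc2]
      push_cast
      ring
    rw [e1]
    refine (norm_add_le _ _).trans ?_
    refine (add_le_add_left (norm_add_le _ _) _).trans ?_
    refine (add_le_add_left (add_le_add_left (norm_add_le _ _) _) _).trans ?_
    rw [norm_mul, norm_mul, norm_mul, norm_mul, norm_mul, norm_mul, Complex.norm_conj,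
      Complex.norm_real, Complex.norm_real, Complex.norm_real, Complex.norm_real,
      Real.norm_eq_abs, Real.norm_eq_abs, Real.norm_eq_abs, Real.norm_eq_abs]
    have f1 : |θ ^ 2 * e i| = θ ^ 2 * e i := abs_of_nonneg (by positivity)
    have f2 : |θ ^ 2 * e i ^ 2| = θ ^ 2 * e i ^ 2 := abs_of_nonneg (by positivity)
    have f3 : |2 * (θ ^ 2 * e i + θ ^ 2 * e i ^ 2) * L.h| ≤ 4 * (θ * e i) * A ^ 2 := by
      rw [abs_mul]
      have g1 : |2 * (θ ^ 2 * e i + θ ^ 2 * e i ^ 2)| ≤ 4 * (θ * e i) := by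
        rw [abs_of_nonneg (by positivity)]
        have a1 := mul_le_mul_of_nonneg_left (hee i) (by positivity : 0 ≤ θ ^ 2)
        have a2 : θ ^ 2 ≤ θ := by nlinarith
        have a3 := mul_le_mul_of_nonneg_right a2 e0
        linarith
      exact mul_le_mul g1 hH' (abs_nonneg _) (by positivity)
    have f4 : |-(θ * e i) - θ / 2 * e i ^ 2| ≤ 2 := by
      rw [abs_le]
      have a1 := mul_le_mul_of_nonneg_left (hee i) h0.le
      have a2 : 0 ≤ θ * e i := by positivity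
      have a3 : 0 ≤ θ * e i ^ 2 := by positivity
      have a4 : θ * e i ≤ 1 * 1 := mul_le_mul hθ1 (he1 i) e0 (by norm_num)
      constructor <;> linarith
    rw [f1, f2]
    calc θ ^ 2 * e i * (‖L.a - ξ i‖ * ‖L.b - η i - θ * (L.a - ξ i) ^ 2‖) +
        θ ^ 2 * e i ^ 2 * (‖L.a - ξ i‖ * ‖L.b - η i - ((2 * θ : ℝ) : ℂ) * (L.a - ξ i) ^ 2‖) +
        |2 * (θ ^ 2 * e i + θ ^ 2 * e i ^ 2) * L.h| * ‖L.a - ξ i‖ +
        |-(θ * e i) - θ / 2 * e i ^ 2| * ‖L.k‖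
        ≤ θ ^ 2 * e i * (‖L.a - ξ i‖ * ‖L.b - η i - θ * (L.a - ξ i) ^ 2‖) +
        θ ^ 2 * e i ^ 2 * (‖L.a - ξ i‖ * ‖L.b - η i - ((2 * θ : ℝ) : ℂ) * (L.a - ξ i) ^ 2‖) +
        4 * (θ * e i) * A ^ 2 * ‖L.a - ξ i‖ + 2 * A ^ 3 := by gcongr
      _ = θ ^ 2 * (e i * (‖L.a - ξ i‖ * ‖L.b - η i - θ * (L.a - ξ i) ^ 2‖)) +
        θ ^ 2 * (e i ^ 2 * (‖L.a - ξ i‖ *
          ‖L.b - η i - ((2 * θ : ℝ) : ℂ) * (L.a - ξ i) ^ 2‖)) +
        4 * A ^ 2 * (θ * (e i * ‖L.a - ξ i‖)) + 2 * A ^ 3 := by ring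
      _ ≤ 8 * A ^ 3 + 8 * A ^ 3 + 4 * A ^ 2 * (4 * A) + 2 * A ^ 3 := by gcongr
      _ = 34 * A ^ 3 := by ring
      _ ≤ _ := by linarith
  have hq100 : (q : ℝ) * 100 ≤ q * (2001 * 24 ^ 4) := by
    have : (0 : ℝ) ≤ q := by positivity
    nlinarith
  have sumc : ∀ x : ℝ, ∑ _i : Fin q, 100 * x = q * 100 * x := by
    intro x
    rw [Finset.sum_const, Finset.card_univ, Fintype.card_fin, nsmul_eq_mul]
    ring
  refine ⟨?_, ?_, ?_, ?_⟩
  · have e1 : (rJ θ L s ξ η).a = ∑ i, ((eJ θ (tJ L s ξ η i)).add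
      (Jet.smul (1 / 4) (eJ (2 * θ) (tJ L s ξ η i)))).a := rfl
    rw [e1]
    refine (norm_sum_le _ _).trans ((Finset.sum_le_sum fun i _ => ba i).trans ?_)
    rw [sumc]
    exact mul_le_mul_of_nonneg_right hq100 hA
  · have e1 : (rJ θ L s ξ η).b = ∑ i, ((eJ θ (tJ L s ξ η i)).add
      (Jet.smul (1 / 4) (eJ (2 * θ) (tJ L s ξ η i)))).b := rfl
    rw [e1]
    refine (norm_sum_le _ _).trans ((Finset.sum_le_sum fun i _ => bb i).trans ?_)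
    rw [sumc]
    exact mul_le_mul_of_nonneg_right hq100 hA2
  · have e1 : (rJ θ L s ξ η).h = ∑ i, ((eJ θ (tJ L s ξ η i)).add
      (Jet.smul (1 / 4) (eJ (2 * θ) (tJ L s ξ η i)))).h := rfl
    rw [e1]
    refine (Finset.abs_sum_le_sum_abs _ _).trans ((Finset.sum_le_sum fun i _ => bh i).trans ?_)
    rw [sumc]
    exact mul_le_mul_of_nonneg_right hq100 hA2
  · have e1 : (rJ θ L s ξ η).k = ∑ i, ((eJ θ (tJ L s ξ η i)).add
      (Jet.smul (1 / 4) (eJ (2 * θ) (tJ L s ξ η i)))).k := rfl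
    rw [e1]
    refine (norm_sum_le _ _).trans ((Finset.sum_le_sum fun i _ => bk i).trans ?_)
    rw [sumc]
    exact mul_le_mul_of_nonneg_right hq100 hA3

end

end Pool.Agent.H789.HSC
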