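import Pool.Agent.H789.HSC.Defs

/-! The model functions: definitions. -/

open scoped BigOperators ContDiff ComplexConjugate

namespace Pool.Agent.H789.HSC

noncomputable section

/-! ### the one variable function `F0 R` and its derivatives -/

def F0 (R t : ℝ) : ℝ := R ^ 2 / 4 * (Real.exp (-(t / R)) + Real.exp (-(2 * t / R)) / 4)
def F1 (R t : ℝ) : ℝ := -(R / 4) * (Real.exp (-(t / R)) + Real.exp (-(2 * t / R)) / 2)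
def F2 (R t : ℝ) : ℝ := (Real.exp (-(t / R)) + Real.exp (-(2 * t / R))) / 4
def F3 (R t : ℝ) : ℝ := -(Real.exp (-(t / R)) + 2 * Real.exp (-(2 * t / R))) / (4 * R)
def F4 (R t : ℝ) : ℝ := (Real.exp (-(t / R)) + 4 * Real.exp (-(2 * t / R))) / (4 * R ^ 2)

/-- `Q`-component of `F0 R` along a pluriharmonic jet `(t; τ, σ)` -/
def QF (R t : ℝ) (τ σ : ℂ) : ℝ :=
  F4 R t * ‖τ‖ ^ 4 + 2 * F3 R t * ((conj τ) ^ 2 * σ).re + F2 R t * ‖σ‖ ^ 2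

/-- the `u`-derivative of `c u + ∑ F0 (t_i) + W t` (normalised to vanish for `F` at `t = 0`) -/
def aV {p : ℕ} (R : ℝ) (W : (Fin p → ℝ) → ℝ) (t : Fin p → ℝ) : ℝ :=
  ∑ i, (F1 R (t i) - F1 R 0) + ∑ i, pd W i t

/-- properties of the model function `W` used in the recursion -/
structure IsModel (p k : ℕ) (ca Ca L R : ℝ) (W : (Fin p → ℝ) → ℝ) : Prop where
  hR : 1 ≤ R
  smooth : ∀ t : Fin p → ℝ, (∀ i, 0 ≤ t i) → ContDiffAt ℝ ∞ W t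
  bound : ∃ C : ℝ, ∀ t : Fin p → ℝ, (∀ i, 0 ≤ t i) → ∀ m : ℕ, m ≤ 4 →
    ‖iteratedFDeriv ℝ m W t‖ ≤ C * Real.exp (-(2 * (∑ i, t i) / R))
  mono : ∀ t : Fin p → ℝ, (∀ i, 0 ≤ t i) → ∀ i, ca * min 1 (t i) ^ 3 ≤ aV R W t
  cone : ∃ cs : ℝ, 0 < cs ∧ ∃ ε : ℝ, 0 < ε ∧ ∀ t : Fin p → ℝ, (∀ i, 0 ≤ t i) →
    ∀ J : Finset (Fin p), J.card ≤ k → (∀ i, i ∉ J → t i ≤ ε) →
    ∀ τ σ : Fin p → ℂ, (∀ i, i ∉ J → τ i = 0 ∧ σ i = 0) →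
      cs * ∑ i ∈ J, Real.exp (-(2 * t i / R)) * (‖τ i‖ ^ 4 + ‖σ i‖ ^ 2)
        ≤ ∑ i, QF R (t i) (τ i) (σ i) + holQ W t τ σ
  vert_a : ∃ r : ℝ, 0 < r ∧ ∀ t : Fin p → ℝ, ∀ ρ : ℝ, ρ ≤ r → (∀ i, |t i| ≤ ρ) →
    |aV R W t| ≤ Ca * ρ ^ 3
  vert_Q : ∀ (i₀ : Fin p) (τ σ : Fin p → ℂ), τ i₀ = 0 → σ i₀ = 0 → ∀ i j,
    L * ‖τ i‖ ^ 4 + ‖σ j‖ ^ 2 / 8 ≤ ∑ i, QF R 0 (τ i) (σ i) + holQ W 0 τ σ

/-! ### the explicit model function -/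

/-- mean value `x` -/
def xav {p : ℕ} (t : Fin p → ℝ) : ℝ := (∑ i, t i) / p

/-- `blk ρ t = ρ (∑ (t_i - 2x)^2 / (ρ + t_i + x) - 2 p x^2 / (ρ + x))` -/
def blk {p : ℕ} (ρ : ℝ) (t : Fin p → ℝ) : ℝ :=
  ρ * (∑ i, (t i - 2 * xav t) ^ 2 / (ρ + t i + xav t) - 2 * p * xav t ^ 2 / (ρ + xav t))

def E0 {p : ℕ} (N : ℕ) (t : Fin p → ℝ) : ℝ :=
  (1 / (4 * N)) * ∑ m ∈ Finset.range N, blk (2 ^ m) t

def wq {p : ℕ} (t : Fin p → ℝ) : ℝ := xav t ^ 4 / (1 + xav t) ^ 2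

/-- `|t - x|^2 = ∑ t_i^2 - p x^2` -/
def qhat {p : ℕ} (t : Fin p → ℝ) : ℝ := ∑ i, t i ^ 2 - p * xav t ^ 2

def S0 {p : ℕ} (M : ℕ) (t : Fin p → ℝ) : ℝ :=
  ∑ j ∈ Finset.range M, (1 / 16 : ℝ) ^ j * Real.exp (-(4 ^ j * qhat t))

/-- cut off factor: `1 - (1 - exp (-8 p x / R))^4` -/
def mcut (p : ℕ) (R x : ℝ) : ℝ := 1 - (1 - Real.exp (-(8 * p * x / R))) ^ 4

/-- the model function; `R = 2 ^ N` -/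
def Wm {p : ℕ} (N M : ℕ) (ε₁ δ : ℝ) (t : Fin p → ℝ) : ℝ :=
  Real.exp (-xav t) * (∑ i, t i ^ 3) / (8 * 2 ^ N)
    + mcut p (2 ^ N) (xav t) * (E0 N t + ε₁ / N * wq t + δ / N * S0 M t)

end

end Pool.Agent.H789.HSC
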