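import Pool.Agent.H789.HSC.StepDefs0

/-! The new function of the recursion step. -/

open scoped BigOperators ContDiff ComplexConjugate

namespace Pool.Agent.H789.HSC

noncomputable section

variable {q p : ℕ}

/-- rescaling -/
def resc (lam : ℝ) (U : (Fin q → ℝ) → ℝ) (s : Fin q → ℝ) : ℝ := lam * U (fun i => s i / lam)

/-- the new function before normalisation -/
def GG (p : ℕ) (R : ℝ) (W : (Fin p → ℝ) → ℝ) (ε₃ θ : ℝ) (u : (Fin q → ℝ) → ℝ)
    (s : Fin q → ℝ) : ℝ :=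
  -(p * F1 R 0) * u s + ∑ i, F0 R (u s - s i)
    + (1 / (p.factorial : ℝ)) * ∑ e : Fin p ↪ Fin q, W (fun j => u s - s (e j))
    + ε₃ * RUN θ s

/-- the new function -/
def newU (p : ℕ) (R : ℝ) (W : (Fin p → ℝ) → ℝ) (ε₃ θ : ℝ) (u : (Fin q → ℝ) → ℝ) (C' : ℝ)
    (s : Fin q → ℝ) : ℝ :=
  (1 / (-(p * F1 R 0))) * GG p R W ε₃ θ u s + C'

end

end Pool.Agent.H789.HSC
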