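import Pool.Agent.H789.HSC.NewU0
import Pool.Agent.H789.HSC.JetCalc

set_option autoImplicit false

open scoped BigOperators ContDiff ComplexConjugate

namespace Pool.Agent.H789.HSC

noncomputable section

namespace C6aux

/-! ### sums of jets -/

/-- sum of jets -/
def jsum {κ : Type*} (S : Finset κ) (J : κ → Jet) : Jet :=
  ⟨∑ i ∈ S, (J i).v, ∑ i ∈ S, (J i).h, ∑ i ∈ S, (J i).Q, ∑ i ∈ S, (J i).a, ∑ i ∈ S, (J i).b,
    ∑ i ∈ S, (J i).k⟩

theorem hasJet_sum {κ : Type*} (S : Finset κ) (φ : κ → ℂ → ℝ) (J : κ → Jet)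
    (h : ∀ i, HasJet (φ i) (J i)) : HasJet (fun ζ => ∑ i ∈ S, φ i ζ) (jsum S J) := by
  classical
  induction S using Finset.induction_on with
  | empty =>
    have := hasJet_const 0
    simpa [jsum, Jet.const] using this
  | insert i S hi ih =>
    have h1 := (h i).add ih
    have e1 : (fun ζ => φ i ζ + ∑ i ∈ S, φ i ζ) = fun ζ => ∑ i ∈ insert i S, φ i ζ := by
      funext ζ
      rw [Finset.sum_insert hi]
    have e2 : (J i).add (jsum S J) = jsum (insert i S) J := by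
      simp only [jsum, Jet.add, Finset.sum_insert hi]
    rw [e1, e2] at h1
    exact h1

/-! ### derivatives of `F0` -/

theorem dE (c x : ℝ) : HasDerivAt (fun t : ℝ => Real.exp (-(c * t))) (-c * Real.exp (-(c * x))) x := by
  have h0 : HasDerivAt (fun t : ℝ => -(c * t)) (-c) x := by
    have := (hasDerivAt_id x).const_mul (-c)
    simpa using this
  exact h0.exp.congr_deriv (by ring)

theorem dE1 (R x : ℝ) : HasDerivAt (fun t : ℝ => Real.exp (-(t / R))) (-(1 / R) * Real.exp (-(x / R))) x := by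
  have h := dE (1 / R) x
  have e : (fun t : ℝ => Real.exp (-(1 / R * t))) = fun t : ℝ => Real.exp (-(t / R)) := by
    funext t; congr 2; ring
  rw [e] at h
  convert h using 3
  ring

theorem dE2 (R x : ℝ) : HasDerivAt (fun t : ℝ => Real.exp (-(2 * t / R))) (-(2 / R) * Real.exp (-(2 * x / R))) x := by
  have h := dE (2 / R) x
  have e : (fun t : ℝ => Real.exp (-(2 / R * t))) = fun t : ℝ => Real.exp (-(2 * t / R)) := by
    funext t; congr 2; ring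
  rw [e] at h
  convert h using 3
  ring

theorem dF0 {R : ℝ} (hR : R ≠ 0) (x : ℝ) : HasDerivAt (F0 R) (F1 R x) x := by
  have h := ((dE1 R x).add ((dE2 R x).div_const 4)).const_mul (R ^ 2 / 4)
  refine h.congr_deriv ?_
  unfold F1
  field_simp
  ring

theorem dF1 {R : ℝ} (hR : R ≠ 0) (x : ℝ) : HasDerivAt (F1 R) (F2 R x) x := by
  have h := ((dE1 R x).add ((dE2 R x).div_const 2)).const_mul (-(R / 4))
  refine h.congr_deriv ?_
  unfold F2
  field_simp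
  ring

theorem dF2 {R : ℝ} (hR : R ≠ 0) (x : ℝ) : HasDerivAt (F2 R) (F3 R x) x := by
  have h := ((dE1 R x).add (dE2 R x)).div_const 4
  refine h.congr_deriv ?_
  unfold F3
  field_simp
  ring

theorem dF3 {R : ℝ} (hR : R ≠ 0) (x : ℝ) : HasDerivAt (F3 R) (F4 R x) x := by
  have h := (((dE1 R x).add ((dE2 R x).const_mul 2)).neg).div_const (4 * R)
  refine h.congr_deriv ?_
  unfold F4
  field_simp
  ring

theorem cF4 (R x : ℝ) : ContinuousAt (F4 R) x := by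
  have h1 := (dE1 R x).continuousAt
  have h2 := (dE2 R x).continuousAt
  unfold F4
  exact (h1.add (h2.const_mul 4)).div_const _

/-- the weight -/
theorem F_bounds {R t : ℝ} (hR : 1 ≤ R) (ht : 0 ≤ t) :
    |F1 R t| ≤ 2 * R * Real.exp (-(t / R)) ∧ |F2 R t| ≤ 2 * R * Real.exp (-(t / R)) ∧
      |F3 R t| ≤ 2 * R * Real.exp (-(t / R)) ∧ |F4 R t| ≤ 2 * R * Real.exp (-(t / R)) := by
  have hR0 : 0 < R := by linarith
  have hx : Real.exp (-(2 * t / R)) ≤ Real.exp (-(t / R)) := by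
    apply Real.exp_le_exp.2
    have : t / R ≤ 2 * t / R := by
      apply div_le_div_of_nonneg_right _ hR0.le
      linarith
    linarith
  have h1 := Real.exp_pos (-(t / R))
  have h2 := Real.exp_pos (-(2 * t / R))
  set x := Real.exp (-(t / R))
  set y := Real.exp (-(2 * t / R))
  have hRx : x ≤ R * x := by nlinarith
  refine ⟨?_, ?_, ?_, ?_⟩
  · unfold F1
    rw [abs_mul, abs_neg, abs_of_pos (by positivity : 0 < R / 4), abs_of_pos (by positivity : 0 < x + y / 2)]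
    nlinarith
  · unfold F2
    rw [abs_of_pos (by positivity : 0 < (x + y) / 4)]
    linarith
  · unfold F3
    rw [abs_div, abs_neg, abs_of_pos (by positivity : 0 < x + 2 * y), abs_of_pos (by positivity : 0 < 4 * R),
      div_le_iff₀ (by positivity)]
    nlinarith [mul_pos hR0 h1, mul_pos hR0 (mul_pos hR0 h1)]
  · unfold F4
    rw [abs_div, abs_of_pos (by positivity : 0 < x + 4 * y), abs_of_pos (by positivity : 0 < 4 * R ^ 2),
      div_le_iff₀ (by positivity)]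
    have : x ≤ R ^ 3 * x := by
      have : 1 ≤ R ^ 3 := one_le_pow₀ hR
      nlinarith
    nlinarith

/-! ### small jets -/

/-- small jets -/
structure Sm (J : Jet) (E : ℝ) : Prop where
  a : ‖J.a‖ ≤ E
  b : ‖J.b‖ ≤ E ^ 2
  h : |J.h| ≤ E ^ 2
  k : ‖J.k‖ ≤ E ^ 3

/-- conclusions -/
structure Bd (J : Jet) (K E : ℝ) : Prop where
  a : ‖J.a‖ ≤ K * E
  b : ‖J.b‖ ≤ K * E ^ 2
  h : |J.h| ≤ K * E ^ 2
  k : ‖J.k‖ ≤ K * E ^ 3

theorem re_mul_le {z w : ℂ} {A B : ℝ} (hA : 0 ≤ A) (hz : ‖z‖ ≤ A) (hw : ‖w‖ ≤ B) : |(z * w).re| ≤ A * B := by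
  refine (Complex.abs_re_le_norm _).trans ?_
  rw [norm_mul]
  exact mul_le_mul hz hw (norm_nonneg _) hA

theorem cn (z : ℂ) : ‖conj z‖ = ‖z‖ := RCLike.norm_conj z

theorem comp_bd {J : Jet} {f0 f1 f2 f3 f4 M E : ℝ} (hE : 0 ≤ E) (h : Sm J E) (h1 : |f1| ≤ M)
    (h2 : |f2| ≤ M) (h3 : |f3| ≤ M) (h4 : |f4| ≤ M) :
    Bd (Jet.comp f0 f1 f2 f3 f4 J) (15 * M) E ∧
      (|J.Q| ≤ E ^ 4 → |(Jet.comp f0 f1 f2 f3 f4 J).Q| ≤ 15 * M * E ^ 4) := by
  have hM : 0 ≤ M := (abs_nonneg _).trans h1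
  obtain ⟨ha, hb, hh, hk⟩ := h
  have n1 : ‖((f1 : ℝ) : ℂ)‖ ≤ M := by rw [Complex.norm_real]; exact h1
  have n2 : ‖((f2 : ℝ) : ℂ)‖ ≤ M := by rw [Complex.norm_real]; exact h2
  have n3 : ‖((f3 : ℝ) : ℂ)‖ ≤ M := by rw [Complex.norm_real]; exact h3
  have nh : ‖((J.h : ℝ) : ℂ)‖ ≤ E ^ 2 := by rw [Complex.norm_real]; exact hh
  have a2 : ‖J.a‖ ^ 2 ≤ E ^ 2 := pow_le_pow_left₀ (norm_nonneg _) ha 2
  have a4 : ‖J.a‖ ^ 4 ≤ E ^ 4 := pow_le_pow_left₀ (norm_nonneg _) ha 4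
  have hE2 : 0 ≤ E ^ 2 := by positivity
  have hE3 : 0 ≤ E ^ 3 := by positivity
  have hE4 : 0 ≤ E ^ 4 := by positivity
  have p1 : 0 ≤ M * E := by positivity
  have p2 : 0 ≤ M * E ^ 2 := by positivity
  have p3 : 0 ≤ M * E ^ 3 := by positivity
  have p4 : 0 ≤ M * E ^ 4 := by positivity
  refine ⟨⟨?_, ?_, ?_, ?_⟩, fun hQ => ?_⟩
  · show ‖(f1 : ℂ) * J.a‖ ≤ _
    rw [norm_mul]
    have := mul_le_mul n1 ha (norm_nonneg _) hM
    linarith
  · show ‖(f2 : ℂ) * J.a ^ 2 + (f1 : ℂ) * J.b‖ ≤ _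
    refine (norm_add_le _ _).trans ?_
    rw [norm_mul, norm_mul, norm_pow]
    have e1 := mul_le_mul n2 a2 (by positivity) hM
    have e2 := mul_le_mul n1 hb (norm_nonneg _) hM
    linarith
  · show |f2 * ‖J.a‖ ^ 2 + f1 * J.h| ≤ _
    refine (abs_add_le _ _).trans ?_
    rw [abs_mul, abs_mul, abs_of_nonneg (by positivity : 0 ≤ ‖J.a‖ ^ 2)]
    have e1 := mul_le_mul h2 a2 (by positivity) hM
    have e2 := mul_le_mul h1 hh (abs_nonneg _) hM
    linarith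
  · show ‖(f3 : ℂ) * (‖J.a‖ : ℂ) ^ 2 * J.a + 2 * (f2 : ℂ) * J.a * (J.h : ℂ) + (f2 : ℂ) * conj J.a * J.b +
      (f1 : ℂ) * J.k‖ ≤ _
    have e1 : ‖(f3 : ℂ) * (‖J.a‖ : ℂ) ^ 2 * J.a‖ ≤ M * E ^ 3 := by
      have t : ‖((‖J.a‖ : ℝ) : ℂ)‖ = ‖J.a‖ := by rw [Complex.norm_real, norm_norm]
      rw [norm_mul, norm_mul, norm_pow, t]
      calc ‖(f3 : ℂ)‖ * ‖J.a‖ ^ 2 * ‖J.a‖ ≤ M * E ^ 2 * E := by gcongr
        _ = _ := by ring
    have e2 : ‖2 * (f2 : ℂ) * J.a * (J.h : ℂ)‖ ≤ 2 * (M * E ^ 3) := by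
      rw [norm_mul, norm_mul, norm_mul]
      calc ‖(2 : ℂ)‖ * ‖(f2 : ℂ)‖ * ‖J.a‖ * ‖(J.h : ℂ)‖ ≤ 2 * M * E * E ^ 2 := by
            have : ‖(2 : ℂ)‖ = 2 := by simp
            rw [this]
            gcongr
        _ = _ := by ring
    have e3 : ‖(f2 : ℂ) * conj J.a * J.b‖ ≤ M * E ^ 3 := by
      rw [norm_mul, norm_mul, cn]
      calc ‖(f2 : ℂ)‖ * ‖J.a‖ * ‖J.b‖ ≤ M * E * E ^ 2 := by gcongr
        _ = _ := by ring
    have e4 : ‖(f1 : ℂ) * J.k‖ ≤ M * E ^ 3 := by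
      rw [norm_mul]
      exact mul_le_mul n1 hk (norm_nonneg _) hM
    refine (norm_add_le _ _).trans ?_
    have g1 := norm_add_le ((f3 : ℂ) * (‖J.a‖ : ℂ) ^ 2 * J.a + 2 * (f2 : ℂ) * J.a * (J.h : ℂ))
      ((f2 : ℂ) * conj J.a * J.b)
    have g2 := norm_add_le ((f3 : ℂ) * (‖J.a‖ : ℂ) ^ 2 * J.a) (2 * (f2 : ℂ) * J.a * (J.h : ℂ))
    linarith
  · show |f1 * J.Q + f2 * (2 * J.h ^ 2 + ‖J.b‖ ^ 2 + 4 * (J.a * conj J.k).re) +
      f3 * (4 * ‖J.a‖ ^ 2 * J.h + 2 * ((conj J.a) ^ 2 * J.b).re) + f4 * ‖J.a‖ ^ 4| ≤ _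
    have e1 : |f1 * J.Q| ≤ M * E ^ 4 := by
      rw [abs_mul]; exact mul_le_mul h1 hQ (abs_nonneg _) hM
    have q1 : |2 * J.h ^ 2 + ‖J.b‖ ^ 2 + 4 * (J.a * conj J.k).re| ≤ 7 * E ^ 4 := by
      have r1 : |J.h| ^ 2 ≤ (E ^ 2) ^ 2 := pow_le_pow_left₀ (abs_nonneg _) hh 2
      have r2 : ‖J.b‖ ^ 2 ≤ (E ^ 2) ^ 2 := pow_le_pow_left₀ (norm_nonneg _) hb 2
      have r3 : |(J.a * conj J.k).re| ≤ E * E ^ 3 := re_mul_le hE ha (by rw [cn]; exact hk)
      have r4 := abs_le.1 r3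
      rw [sq_abs] at r1
      rw [abs_le]
      have r5 : (E ^ 2) ^ 2 = E ^ 4 := by ring
      have r6 : E * E ^ 3 = E ^ 4 := by ring
      rw [r5] at r1 r2
      rw [r6] at r4
      constructor
      · nlinarith [sq_nonneg J.h, sq_nonneg ‖J.b‖, r4.1]
      · linarith [r4.2]
    have q2 : |4 * ‖J.a‖ ^ 2 * J.h + 2 * ((conj J.a) ^ 2 * J.b).re| ≤ 6 * E ^ 4 := by
      have r1 : |((conj J.a) ^ 2 * J.b).re| ≤ E ^ 2 * E ^ 2 :=
        re_mul_le hE2 (by rw [norm_pow, cn]; exact a2) hb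
      refine (abs_add_le _ _).trans ?_
      rw [abs_mul, abs_mul, abs_mul, abs_of_nonneg (by positivity : 0 ≤ ‖J.a‖ ^ 2)]
      have r2 : ‖J.a‖ ^ 2 * |J.h| ≤ E ^ 2 * E ^ 2 := mul_le_mul a2 hh (abs_nonneg _) hE2
      have t4 : |(4 : ℝ)| = 4 := by norm_num
      have t2 : |(2 : ℝ)| = 2 := by norm_num
      rw [t4, t2, mul_assoc]
      have r5 : E ^ 2 * E ^ 2 = E ^ 4 := by ring
      rw [r5] at r1 r2
      linarith
    have e2 : |f2 * (2 * J.h ^ 2 + ‖J.b‖ ^ 2 + 4 * (J.a * conj J.k).re)| ≤ M * (7 * E ^ 4) := by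
      rw [abs_mul]; exact mul_le_mul h2 q1 (abs_nonneg _) hM
    have e3 : |f3 * (4 * ‖J.a‖ ^ 2 * J.h + 2 * ((conj J.a) ^ 2 * J.b).re)| ≤ M * (6 * E ^ 4) := by
      rw [abs_mul]; exact mul_le_mul h3 q2 (abs_nonneg _) hM
    have e4 : |f4 * ‖J.a‖ ^ 4| ≤ M * E ^ 4 := by
      rw [abs_mul, abs_of_nonneg (by positivity : 0 ≤ ‖J.a‖ ^ 4)]
      exact mul_le_mul h4 a4 (by positivity) hM
    refine (abs_add_le _ _).trans ?_
    have g1 := abs_add_le (f1 * J.Q + f2 * (2 * J.h ^ 2 + ‖J.b‖ ^ 2 + 4 * (J.a * conj J.k).re))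
      (f3 * (4 * ‖J.a‖ ^ 2 * J.h + 2 * ((conj J.a) ^ 2 * J.b).re))
    have g2 := abs_add_le (f1 * J.Q) (f2 * (2 * J.h ^ 2 + ‖J.b‖ ^ 2 + 4 * (J.a * conj J.k).re))
    linarith

/-! ### the tensors -/

section

variable {p : ℕ} {W : (Fin p → ℝ) → ℝ} {x : Fin p → ℝ} {M : ℝ}

theorem D1_le (hM : 0 ≤ M) (h1 : ∀ i, |pd W i x| ≤ M) {u : Fin p → ℂ} {U : ℝ} (hu : ∀ i, ‖u i‖ ≤ U) :
    ‖D1 W x u‖ ≤ p * (M * U) := by
  unfold D1
  refine (norm_sum_le _ _).trans ?_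
  calc ∑ i, ‖(pd W i x : ℂ) * u i‖ ≤ ∑ _i : Fin p, M * U := by
        refine Finset.sum_le_sum fun i _ => ?_
        rw [norm_mul, Complex.norm_real]
        exact mul_le_mul (h1 i) (hu i) (norm_nonneg _) hM
    _ = _ := by simp

theorem D2_le (hM : 0 ≤ M) (h2 : ∀ i j, |pd (pd W i) j x| ≤ M) {u v : Fin p → ℂ} {U V : ℝ}
    (hU : 0 ≤ U) (hu : ∀ i, ‖u i‖ ≤ U) (hv : ∀ i, ‖v i‖ ≤ V) :
    ‖D2 W x u v‖ ≤ p * (p * (M * U * V)) := by
  unfold D2
  refine (norm_sum_le _ _).trans ?_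
  calc ∑ i, ‖∑ j, (pd (pd W i) j x : ℂ) * u i * v j‖ ≤ ∑ _i : Fin p, ∑ _j : Fin p, M * U * V := by
        refine Finset.sum_le_sum fun i _ => (norm_sum_le _ _).trans (Finset.sum_le_sum fun j _ => ?_)
        rw [norm_mul, norm_mul, Complex.norm_real]
        exact mul_le_mul (mul_le_mul (h2 i j) (hu i) (norm_nonneg _) hM) (hv j) (norm_nonneg _) (by positivity)
    _ = _ := by simp

theorem D3_le (hM : 0 ≤ M) (h3 : ∀ i j l, |pd (pd (pd W i) j) l x| ≤ M) {u v w : Fin p → ℂ} {U V Z : ℝ}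
    (hU : 0 ≤ U) (hV : 0 ≤ V) (hu : ∀ i, ‖u i‖ ≤ U) (hv : ∀ i, ‖v i‖ ≤ V) (hw : ∀ i, ‖w i‖ ≤ Z) :
    ‖D3 W x u v w‖ ≤ p * (p * (p * (M * U * V * Z))) := by
  unfold D3
  refine (norm_sum_le _ _).trans ?_
  calc ∑ i, ‖∑ j, ∑ l, (pd (pd (pd W i) j) l x : ℂ) * u i * v j * w l‖ ≤
        ∑ _i : Fin p, ∑ _j : Fin p, ∑ _l : Fin p, M * U * V * Z := by
        refine Finset.sum_le_sum fun i _ => (norm_sum_le _ _).trans (Finset.sum_le_sum fun j _ =>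
          (norm_sum_le _ _).trans (Finset.sum_le_sum fun l _ => ?_))
        rw [norm_mul, norm_mul, norm_mul, Complex.norm_real]
        exact mul_le_mul (mul_le_mul (mul_le_mul (h3 i j l) (hu i) (norm_nonneg _) hM) (hv j)
          (norm_nonneg _) (by positivity)) (hw l) (norm_nonneg _) (by positivity)
    _ = _ := by simp

theorem D4_le (hM : 0 ≤ M) (h4 : ∀ i j l m, |pd (pd (pd (pd W i) j) l) m x| ≤ M)
    {u v w y : Fin p → ℂ} {U V Z Y : ℝ}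
    (hU : 0 ≤ U) (hV : 0 ≤ V) (hZ : 0 ≤ Z) (hu : ∀ i, ‖u i‖ ≤ U) (hv : ∀ i, ‖v i‖ ≤ V)
    (hw : ∀ i, ‖w i‖ ≤ Z) (hy : ∀ i, ‖y i‖ ≤ Y) :
    ‖D4 W x u v w y‖ ≤ p * (p * (p * (p * (M * U * V * Z * Y)))) := by
  unfold D4
  refine (norm_sum_le _ _).trans ?_
  calc ∑ i, ‖∑ j, ∑ l, ∑ m, (pd (pd (pd (pd W i) j) l) m x : ℂ) * u i * v j * w l * y m‖ ≤
        ∑ _i : Fin p, ∑ _j : Fin p, ∑ _l : Fin p, ∑ _m : Fin p, M * U * V * Z * Y := by
        refine Finset.sum_le_sum fun i _ => (norm_sum_le _ _).trans (Finset.sum_le_sum fun j _ =>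
          (norm_sum_le _ _).trans (Finset.sum_le_sum fun l _ =>
          (norm_sum_le _ _).trans (Finset.sum_le_sum fun m _ => ?_)))
        rw [norm_mul, norm_mul, norm_mul, norm_mul, Complex.norm_real]
        exact mul_le_mul (mul_le_mul (mul_le_mul (mul_le_mul (h4 i j l m) (hu i) (norm_nonneg _) hM) (hv j)
          (norm_nonneg _) (by positivity)) (hw l) (norm_nonneg _) (by positivity)) (hy m) (norm_nonneg _)
          (by positivity)
    _ = _ := by simp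

theorem S_le (hM : 0 ≤ M) (h1 : ∀ i, |pd W i x| ≤ M) {u : Fin p → ℝ} {U : ℝ} (hu : ∀ i, |u i| ≤ U) :
    |∑ i, pd W i x * u i| ≤ p * (M * U) := by
  refine (Finset.abs_sum_le_sum_abs _ _).trans ?_
  calc ∑ i, |pd W i x * u i| ≤ ∑ _i : Fin p, M * U := by
        refine Finset.sum_le_sum fun i _ => ?_
        rw [abs_mul]
        exact mul_le_mul (h1 i) (hu i) (abs_nonneg _) hM
    _ = _ := by simp

/-- the constant for `p` variables -/
def Np (p : ℕ) : ℝ := ((p : ℝ) + 1) ^ 4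

theorem Np1 (p : ℕ) {A : ℝ} (hA : 0 ≤ A) : p * A ≤ Np p * A := by
  apply mul_le_mul_of_nonneg_right _ hA
  unfold Np
  have hp : (0 : ℝ) ≤ p := Nat.cast_nonneg p
  nlinarith [pow_nonneg hp 2, pow_nonneg hp 3, pow_nonneg hp 4]

theorem Np2 (p : ℕ) {A : ℝ} (hA : 0 ≤ A) : p * (p * A) ≤ Np p * A := by
  rw [← mul_assoc]
  apply mul_le_mul_of_nonneg_right _ hA
  unfold Np
  have hp : (0 : ℝ) ≤ p := Nat.cast_nonneg p
  nlinarith [pow_nonneg hp 2, pow_nonneg hp 3, pow_nonneg hp 4]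

theorem Np3 (p : ℕ) {A : ℝ} (hA : 0 ≤ A) : p * (p * (p * A)) ≤ Np p * A := by
  rw [← mul_assoc, ← mul_assoc]
  apply mul_le_mul_of_nonneg_right _ hA
  unfold Np
  have hp : (0 : ℝ) ≤ p := Nat.cast_nonneg p
  nlinarith [pow_nonneg hp 2, pow_nonneg hp 3, pow_nonneg hp 4]

theorem Np4 (p : ℕ) {A : ℝ} (hA : 0 ≤ A) : p * (p * (p * (p * A))) ≤ Np p * A := by
  rw [← mul_assoc, ← mul_assoc, ← mul_assoc]
  apply mul_le_mul_of_nonneg_right _ hA
  unfold Np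
  have hp : (0 : ℝ) ≤ p := Nat.cast_nonneg p
  nlinarith [pow_nonneg hp 2, pow_nonneg hp 3, pow_nonneg hp 4]

theorem multi_bd {T : Fin p → Jet} {E : ℝ} (hM : 0 ≤ M) (hE : 0 ≤ E) (hT : ∀ i, Sm (T i) E)
    (hx : x = fun i => (T i).v)
    (h1 : ∀ i, |pd W i x| ≤ M) (h2 : ∀ i j, |pd (pd W i) j x| ≤ M)
    (h3 : ∀ i j l, |pd (pd (pd W i) j) l x| ≤ M)
    (h4 : ∀ i j l m, |pd (pd (pd (pd W i) j) l) m x| ≤ M) :
    Bd (multiJet W T) (15 * Np p * M) E ∧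
      ((∀ i, |(T i).Q| ≤ E ^ 4) → |(multiJet W T).Q| ≤ 15 * Np p * M * E ^ 4) := by
  subst hx
  have ha : ∀ i, ‖(T i).a‖ ≤ E := fun i => (hT i).a
  have ha' : ∀ i, ‖conj (T i).a‖ ≤ E := fun i => by rw [cn]; exact (hT i).a
  have hb : ∀ i, ‖(T i).b‖ ≤ E ^ 2 := fun i => (hT i).b
  have hb' : ∀ i, ‖conj (T i).b‖ ≤ E ^ 2 := fun i => by rw [cn]; exact (hT i).b
  have hh : ∀ i, ‖((T i).h : ℂ)‖ ≤ E ^ 2 := fun i => by rw [Complex.norm_real]; exact (hT i).h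
  have hk : ∀ i, ‖(T i).k‖ ≤ E ^ 3 := fun i => (hT i).k
  have hE2 : 0 ≤ E ^ 2 := by positivity
  have hE3 : 0 ≤ E ^ 3 := by positivity
  have hN : 0 ≤ Np p := by unfold Np; positivity
  have re_le : ∀ {z : ℂ} {A : ℝ}, ‖z‖ ≤ A → |z.re| ≤ A := fun h => (Complex.abs_re_le_norm _).trans h
  -- the bounds
  have q1 : ∀ {A : ℝ}, 0 ≤ A → (p : ℝ) * (M * A) ≤ Np p * (M * A) := fun h => Np1 p (by positivity)
  refine ⟨⟨?_, ?_, ?_, ?_⟩, fun hQ => ?_⟩
  · show ‖D1 W _ _‖ ≤ _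
    have e1 := (D1_le hM h1 ha).trans (q1 hE)
    have : 0 ≤ Np p * (M * E) := by positivity
    linarith
  · show ‖D2 W _ _ _ + D1 W _ _‖ ≤ _
    have e1 := (D1_le hM h1 hb).trans (q1 hE2)
    have e2 := (D2_le hM h2 hE ha ha).trans (Np2 p (A := M * E * E) (by positivity))
    have e3 := norm_add_le (D2 W (fun i => (T i).v) (fun i => (T i).a) (fun i => (T i).a))
      (D1 W (fun i => (T i).v) (fun i => (T i).b))
    have : 0 ≤ Np p * (M * E ^ 2) := by positivity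
    have e4 : Np p * (M * E * E) = Np p * (M * E ^ 2) := by ring
    rw [e4] at e2
    linarith
  · show |(D2 W _ _ _).re + ∑ i, pd W i _ * (T i).h| ≤ _
    have e1 := (S_le hM h1 (fun i => (hT i).h)).trans (q1 hE2)
    have e2 := re_le ((D2_le hM h2 hE ha ha').trans (Np2 p (A := M * E * E) (by positivity)))
    have e3 := abs_add_le (D2 W (fun i => (T i).v) (fun i => (T i).a) (fun i => conj (T i).a)).re
      (∑ i, pd W i (fun i => (T i).v) * (T i).h)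
    have : 0 ≤ Np p * (M * E ^ 2) := by positivity
    have e4 : Np p * (M * E * E) = Np p * (M * E ^ 2) := by ring
    rw [e4] at e2
    linarith
  · show ‖D3 W (fun i => (T i).v) (fun i => (T i).a) (fun i => (T i).a) (fun i => conj (T i).a) +
      D2 W (fun i => (T i).v) (fun i => (T i).b) (fun i => conj (T i).a) +
      2 * D2 W (fun i => (T i).v) (fun i => (T i).a) (fun i => ((T i).h : ℂ)) +
      D1 W (fun i => (T i).v) (fun i => (T i).k)‖ ≤ _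
    have e1 := (D3_le hM h3 hE hE ha ha ha').trans (Np3 p (A := M * E * E * E) (by positivity))
    have e2 := (D2_le hM h2 hE2 hb ha').trans (Np2 p (A := M * E ^ 2 * E) (by positivity))
    have e3 := (D2_le hM h2 hE ha hh).trans (Np2 p (A := M * E * E ^ 2) (by positivity))
    have e4 := (D1_le hM h1 hk).trans (q1 hE3)
    have f1 : Np p * (M * E * E * E) = Np p * (M * E ^ 3) := by ring
    have f2 : Np p * (M * E ^ 2 * E) = Np p * (M * E ^ 3) := by ring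
    have f3 : Np p * (M * E * E ^ 2) = Np p * (M * E ^ 3) := by ring
    rw [f1] at e1
    rw [f2] at e2
    rw [f3] at e3
    have e5 : ‖2 * D2 W (fun i => (T i).v) (fun i => (T i).a) (fun i => ((T i).h : ℂ))‖ ≤
        2 * (Np p * (M * E ^ 3)) := by
      rw [norm_mul]
      have : ‖(2 : ℂ)‖ = 2 := by simp
      rw [this]
      linarith
    have g0 := norm_add₃_le (a := D3 W (fun i => (T i).v) (fun i => (T i).a) (fun i => (T i).a)
      (fun i => conj (T i).a)) (b := D2 W (fun i => (T i).v) (fun i => (T i).b) (fun i => conj (T i).a))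
      (c := 2 * D2 W (fun i => (T i).v) (fun i => (T i).a) (fun i => ((T i).h : ℂ)))
    refine (norm_add_le _ _).trans ?_
    have : 0 ≤ Np p * (M * E ^ 3) := by positivity
    linarith
  · show |(D4 W (fun i => (T i).v) (fun i => (T i).a) (fun i => (T i).a) (fun i => conj (T i).a)
        (fun i => conj (T i).a)).re +
      2 * (D3 W (fun i => (T i).v) (fun i => (T i).b) (fun i => conj (T i).a) (fun i => conj (T i).a)).re +
      4 * (D3 W (fun i => (T i).v) (fun i => (T i).a) (fun i => conj (T i).a) (fun i => ((T i).h : ℂ))).re +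
      (D2 W (fun i => (T i).v) (fun i => (T i).b) (fun i => conj (T i).b)).re +
      2 * (D2 W (fun i => (T i).v) (fun i => ((T i).h : ℂ)) (fun i => ((T i).h : ℂ))).re +
      4 * (D2 W (fun i => (T i).v) (fun i => (T i).k) (fun i => conj (T i).a)).re +
      ∑ i, pd W i (fun i => (T i).v) * (T i).Q| ≤ _
    have e1 := abs_le.1 (re_le ((D4_le hM h4 hE hE hE ha ha ha' ha').trans
      (Np4 p (A := M * E * E * E * E) (by positivity))))
    have e2 := abs_le.1 (re_le ((D3_le hM h3 hE2 hE hb ha' ha').trans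
      (Np3 p (A := M * E ^ 2 * E * E) (by positivity))))
    have e3 := abs_le.1 (re_le ((D3_le hM h3 hE hE ha ha' hh).trans
      (Np3 p (A := M * E * E * E ^ 2) (by positivity))))
    have e4 := abs_le.1 (re_le ((D2_le hM h2 hE2 hb hb').trans
      (Np2 p (A := M * E ^ 2 * E ^ 2) (by positivity))))
    have e5 := abs_le.1 (re_le ((D2_le hM h2 hE2 hh hh).trans
      (Np2 p (A := M * E ^ 2 * E ^ 2) (by positivity))))
    have e6 := abs_le.1 (re_le ((D2_le hM h2 hE3 hk ha').trans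
      (Np2 p (A := M * E ^ 3 * E) (by positivity))))
    have e7 := abs_le.1 ((S_le hM h1 hQ).trans (q1 (by positivity)))
    have f1 : Np p * (M * E * E * E * E) = Np p * (M * E ^ 4) := by ring
    have f2 : Np p * (M * E ^ 2 * E * E) = Np p * (M * E ^ 4) := by ring
    have f3 : Np p * (M * E * E * E ^ 2) = Np p * (M * E ^ 4) := by ring
    have f4 : Np p * (M * E ^ 2 * E ^ 2) = Np p * (M * E ^ 4) := by ring
    have f6 : Np p * (M * E ^ 3 * E) = Np p * (M * E ^ 4) := by ring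
    rw [f1] at e1
    rw [f2] at e2
    rw [f3] at e3
    rw [f4] at e4 e5
    rw [f6] at e6
    rw [abs_le]
    constructor
    · linarith [e1.1, e2.1, e3.1, e4.1, e5.1, e6.1, e7.1]
    · linarith [e1.2, e2.2, e3.2, e4.2, e5.2, e6.2, e7.2]

end

/-! ### weights -/

theorem Bd.weight {J : Jet} {K w E : ℝ} (hK : 0 ≤ K) (hw0 : 0 < w) (hw1 : w ≤ 1) (hE : 0 ≤ E)
    (h : Bd J (K * w ^ 4) (E / w)) : Bd J K E := by
  have hw : w ≠ 0 := hw0.ne'
  have w1 : w ^ 3 ≤ 1 := pow_le_one₀ hw0.le hw1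
  have w2 : w ^ 2 ≤ 1 := pow_le_one₀ hw0.le hw1
  obtain ⟨ha, hb, hh, hk⟩ := h
  have e1 : K * w ^ 4 * (E / w) = K * E * w ^ 3 := by field_simp
  have e2 : K * w ^ 4 * (E / w) ^ 2 = K * E ^ 2 * w ^ 2 := by field_simp
  have e3 : K * w ^ 4 * (E / w) ^ 3 = K * E ^ 3 * w := by field_simp
  rw [e1] at ha
  rw [e2] at hb hh
  rw [e3] at hk
  have p1 : 0 ≤ K * E := by positivity
  have p2 : 0 ≤ K * E ^ 2 := by positivity
  have p3 : 0 ≤ K * E ^ 3 := by positivity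
  exact ⟨ha.trans (mul_le_of_le_one_right p1 w1), hb.trans (mul_le_of_le_one_right p2 w2),
    hh.trans (mul_le_of_le_one_right p2 w2), hk.trans (mul_le_of_le_one_right p3 hw1)⟩

/-- size of a jet relative to a weight -/
theorem Sm.weight {J : Jet} {w E : ℝ} (hw0 : 0 < w) (hw1 : w ≤ 1) (hE : 0 ≤ E)
    (ha : w * ‖J.a‖ ≤ E) (hb : w ^ 2 * ‖J.b‖ ≤ E ^ 2) (hh : |J.h| ≤ E ^ 2) (hk : ‖J.k‖ ≤ E ^ 3) :
    Sm J (E / w) := by
  have hEw : E ≤ E / w := by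
    rw [le_div_iff₀ hw0]
    nlinarith
  refine ⟨?_, ?_, hh.trans (pow_le_pow_left₀ hE hEw 2), hk.trans (pow_le_pow_left₀ hE hEw 3)⟩
  · rw [le_div_iff₀ hw0, mul_comm]; exact ha
  · rw [div_pow, le_div_iff₀ (by positivity), mul_comm]; exact hb

theorem fin_c {c0 qf X K1 K2 A ε : ℝ} {f : ℝ} (hc : 0 < c0) (hX : 0 ≤ X) (hK1 : 0 ≤ K1) (hK2 : 0 ≤ K2)
    (hf0 : 0 ≤ f) (hf : f ≤ 1) (hA : 0 ≤ A) (hq : 0 ≤ qf) {z SA SB ZR : ℂ}
    (hz : z = ((1 / c0 : ℝ) : ℂ) * (SA + (f : ℂ) * SB + (ε : ℂ) * ZR))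
    (hSA : ‖SA‖ ≤ qf * (K1 * X)) (hSB : ‖SB‖ ≤ A * (K2 * X)) :
    ‖z‖ ≤ (1 / c0 * (qf * K1 + A * K2 + 1)) * X + (1 / c0 * (qf * K1 + A * K2 + 1)) * |ε| * ‖ZR‖ := by
  have hc' : 0 < 1 / c0 := by positivity
  have h1 : ‖z‖ ≤ 1 / c0 * (‖SA‖ + ‖SB‖ + |ε| * ‖ZR‖) := by
    rw [hz, norm_mul, Complex.norm_real, Real.norm_eq_abs, abs_of_pos hc']
    apply mul_le_mul_of_nonneg_left _ hc'.le
    refine (norm_add_le _ _).trans ?_
    refine add_le_add ((norm_add_le _ _).trans (add_le_add le_rfl ?_)) (le_of_eq ?_)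
    · rw [norm_mul, Complex.norm_real, Real.norm_eq_abs, abs_of_nonneg hf0]
      exact mul_le_of_le_one_left (norm_nonneg _) hf
    · rw [norm_mul, Complex.norm_real, Real.norm_eq_abs]
  have h2 : 0 ≤ |ε| * ‖ZR‖ := by positivity
  have h3 : 0 ≤ qf * K1 + A * K2 := by positivity
  have h4 : ‖SA‖ + ‖SB‖ ≤ (qf * K1 + A * K2) * X := by linarith
  have h5 : ‖SA‖ + ‖SB‖ + |ε| * ‖ZR‖ ≤ (qf * K1 + A * K2 + 1) * X +
      (qf * K1 + A * K2 + 1) * (|ε| * ‖ZR‖) := by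
    have : 0 ≤ (qf * K1 + A * K2) * (|ε| * ‖ZR‖) := by positivity
    linarith
  refine h1.trans ?_
  calc 1 / c0 * (‖SA‖ + ‖SB‖ + |ε| * ‖ZR‖) ≤ 1 / c0 * ((qf * K1 + A * K2 + 1) * X +
        (qf * K1 + A * K2 + 1) * (|ε| * ‖ZR‖)) := mul_le_mul_of_nonneg_left h5 hc'.le
    _ = _ := by ring

theorem fin_r {c0 qf X K1 K2 A ε : ℝ} {f : ℝ} (hc : 0 < c0) (hX : 0 ≤ X) (hK1 : 0 ≤ K1) (hK2 : 0 ≤ K2)
    (hf0 : 0 ≤ f) (hf : f ≤ 1) (hA : 0 ≤ A) (hq : 0 ≤ qf) {z SA SB ZR : ℝ}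
    (hz : z = (1 / c0) * (SA + f * SB + ε * ZR))
    (hSA : |SA| ≤ qf * (K1 * X)) (hSB : |SB| ≤ A * (K2 * X)) :
    |z| ≤ (1 / c0 * (qf * K1 + A * K2 + 1)) * X + (1 / c0 * (qf * K1 + A * K2 + 1)) * |ε| * |ZR| := by
  have := fin_c (c0 := c0) (qf := qf) (X := X) (K1 := K1) (K2 := K2) (A := A) (ε := ε) (f := f)
    hc hX hK1 hK2 hf0 hf hA hq (z := (z : ℂ)) (SA := (SA : ℂ)) (SB := (SB : ℂ)) (ZR := (ZR : ℂ))
    (by rw [hz]; push_cast; ring) (by rw [Complex.norm_real]; exact hSA)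
    (by rw [Complex.norm_real]; exact hSB)
  rwa [Complex.norm_real, Complex.norm_real] at this

/-! ### sums -/

theorem sum_c {κ : Type*} [Fintype κ] {z : κ → ℂ} {B : ℝ} (h : ∀ i, ‖z i‖ ≤ B) :
    ‖∑ i, z i‖ ≤ (Fintype.card κ : ℝ) * B := by
  refine (norm_sum_le _ _).trans ((Finset.sum_le_sum fun i _ => h i).trans (le_of_eq ?_))
  simp

theorem sum_r {κ : Type*} [Fintype κ] {z : κ → ℝ} {B : ℝ} (h : ∀ i, |z i| ≤ B) :
    |∑ i, z i| ≤ (Fintype.card κ : ℝ) * B := by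
  refine (Finset.abs_sum_le_sum_abs _ _).trans ((Finset.sum_le_sum fun i _ => h i).trans (le_of_eq ?_))
  simp

theorem hpath_zero {q : ℕ} (s : Fin q → ℝ) (ξ η : Fin q → ℂ) : hpath s ξ η 0 = s := by
  funext i
  simp [hpath]

/-- the jet of `u - s_i` -/
theorem hasJet_diff {q : ℕ} {u : (Fin q → ℝ) → ℝ} {s : Fin q → ℝ} {ξ η : Fin q → ℂ} {Ju : Jet}
    (hu : HasJet (fun ζ => u (hpath s ξ η ζ)) Ju) (i : Fin q) :
    HasJet (fun ζ => u (hpath s ξ η ζ) - hpath s ξ η ζ i)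
      (TJ (fun i => u s - s i) (fun i => Ju.a - ξ i) (fun i => Ju.b - η i) Ju.h Ju.k Ju.Q i) := by
  have h := hu.add ((hasJet_hpath s ξ η i).smul (-1))
  have e1 : (fun ζ => u (hpath s ξ η ζ) + -1 * hpath s ξ η ζ i) =
      fun ζ => u (hpath s ξ η ζ) - hpath s ξ η ζ i := by
    funext ζ; ring
  have hv : u s = Ju.v := by
    have h0 : u (hpath s ξ η 0) = Ju.v := hu.2.1
    rwa [hpath_zero] at h0
  have e2 : Ju.add (Jet.smul (-1) (Jet.hol (s i) (ξ i) (η i))) =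
      TJ (fun i => u s - s i) (fun i => Ju.a - ξ i) (fun i => Ju.b - η i) Ju.h Ju.k Ju.Q i := by
    simp only [Jet.add, Jet.smul, Jet.hol, TJ, hv]
    ext
    · simp; ring
    · simp
    · simp
    · simp; ring
    · simp; ring
    · simp
  rw [e1, e2] at h
  exact h

theorem hasJet_F0 {R : ℝ} (hR : 1 ≤ R) {φ : ℂ → ℝ} {T : Jet} (h : HasJet φ T) :
    HasJet (fun ζ => F0 R (φ ζ)) (FJ R T) := by
  have hR0 : R ≠ 0 := by linarith
  exact HasJet.comp h (Filter.Eventually.of_forall (dF0 hR0)) (Filter.Eventually.of_forall (dF1 hR0))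
    (Filter.Eventually.of_forall (dF2 hR0)) (Filter.Eventually.of_forall (dF3 hR0))
    (Filter.Eventually.of_forall (cF4 R))

end C6aux

open C6aux in
/-- C6: jets of the new function in terms of the jets of `u` and `RUN` -/
theorem newU_jets {p : ℕ} (hp : 1 ≤ p) {kk : ℕ} {ca Ca L R : ℝ} {W : (Fin p → ℝ) → ℝ}
    (hM : IsModel p kk ca Ca L R W) (q : ℕ) :
    ∃ C : ℝ, 0 ≤ C ∧ ∀ (ε₃ θ C' : ℝ) (u : (Fin q → ℝ) → ℝ) (s : Fin q → ℝ) (ξ η : Fin q → ℂ)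
      (Ju JR J : Jet), (∀ i, s i ≤ u s) →
      HasJet (fun ζ => u (hpath s ξ η ζ)) Ju →
      HasJet (fun ζ => RUN θ (hpath s ξ η ζ)) JR →
      HasJet (fun ζ => newU p R W ε₃ θ u C' (hpath s ξ η ζ)) J →
      -(p * F1 R 0) * J.Q = QG p R W (fun i => u s - s i) (fun i => Ju.a - ξ i)
          (fun i => Ju.b - η i) Ju.h Ju.k Ju.Q + ε₃ * JR.Q ∧
      ∀ E : ℝ, 0 ≤ E →
        (∀ i, Real.exp (-((u s - s i) / (8 * R))) * ‖Ju.a - ξ i‖ ≤ E ∧
          Real.exp (-((u s - s i) / (4 * R))) * ‖Ju.b - η i‖ ≤ E ^ 2) →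
        |Ju.h| ≤ E ^ 2 → ‖Ju.k‖ ≤ E ^ 3 →
        ‖J.a - Ju.a‖ ≤ C * E + C * |ε₃| * ‖JR.a‖ ∧
        ‖J.b - Ju.b‖ ≤ C * E ^ 2 + C * |ε₃| * ‖JR.b‖ ∧
        |J.h - Ju.h| ≤ C * E ^ 2 + C * |ε₃| * |JR.h| ∧
        ‖J.k - Ju.k‖ ≤ C * E ^ 3 + C * |ε₃| * ‖JR.k‖ ∧
        (|Ju.Q| ≤ E ^ 4 → |J.Q - Ju.Q| ≤ C * E ^ 4 + C * |ε₃| * |JR.Q|) := by
  classical
  obtain ⟨CW, hCW⟩ := hM.bound
  have hR := hM.hR
  have hR0 : 0 < R := by linarith
  have hpp : (0 : ℝ) < p := by exact_mod_cast hp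
  obtain ⟨c0, hc0⟩ : ∃ c0, c0 = -(p * F1 R 0) := ⟨_, rfl⟩
  have hc0p : 0 < c0 := by
    rw [hc0]
    unfold F1
    simp only [zero_div, neg_zero, Real.exp_zero, mul_zero]
    have : 0 < (p : ℝ) * R := by positivity
    linarith
  have hc0n : c0 ≠ 0 := hc0p.ne'
  have hCW0 : 0 ≤ CW := by
    have := (norm_nonneg _).trans (hCW 0 (fun _ => le_rfl) 0 (by norm_num))
    exact nonneg_of_mul_nonneg_left this (Real.exp_pos _)
  set f : ℝ := 1 / (p.factorial : ℝ) with hf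
  have hfac : (1 : ℝ) ≤ (p.factorial : ℝ) := by exact_mod_cast Nat.one_le_iff_ne_zero.2 (Nat.factorial_ne_zero p)
  have hf0 : 0 ≤ f := by positivity
  have hf1 : f ≤ 1 := by
    rw [hf, div_le_one (by linarith)]
    exact hfac
  set K1 : ℝ := 15 * (2 * R) with hK1
  set K2 : ℝ := 15 * Np p * CW with hK2
  have hNp : 0 ≤ Np p := by unfold Np; positivity
  have hK10 : 0 ≤ K1 := by positivity
  have hK20 : 0 ≤ K2 := by positivity
  set Ne : ℝ := (Fintype.card (Fin p ↪ Fin q) : ℝ) with hNe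
  have hNe0 : 0 ≤ Ne := by positivity
  refine ⟨1 / c0 * ((q : ℝ) * K1 + Ne * K2 + 1), by positivity,
    fun ε₃ θ C' u s ξ η Ju JR J hsu hu hRU hJ => ?_⟩
  set t : Fin q → ℝ := fun i => u s - s i with ht
  have ht0 : ∀ i, 0 ≤ t i := fun i => by rw [ht]; exact sub_nonneg.2 (hsu i)
  set T : Fin q → Jet := TJ (fun i => u s - s i) (fun i => Ju.a - ξ i) (fun i => Ju.b - η i) Ju.h Ju.k Ju.Q
    with hT
  have hTj : ∀ i, HasJet (fun ζ => u (hpath s ξ η ζ) - hpath s ξ η ζ i) (T i) := fun i => hasJet_diff hu i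
  have hTe : ∀ e : Fin p ↪ Fin q, ContDiffAt ℝ ∞ W (fun j => (T (e j)).v) := fun e =>
    hM.smooth _ (fun j => ht0 (e j))
  -- the jet of the new function
  have j1 : HasJet (fun ζ => ∑ i, F0 R (u (hpath s ξ η ζ) - hpath s ξ η ζ i))
      (jsum Finset.univ fun i => FJ R (T i)) :=
    hasJet_sum _ (fun i ζ => F0 R (u (hpath s ξ η ζ) - hpath s ξ η ζ i)) _ fun i => hasJet_F0 hR (hTj i)
  have j2 : HasJet (fun ζ => ∑ e : Fin p ↪ Fin q, W (fun j => u (hpath s ξ η ζ) - hpath s ξ η ζ (e j)))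
      (jsum Finset.univ fun e : Fin p ↪ Fin q => multiJet W (fun j => T (e j))) :=
    hasJet_sum _ (fun (e : Fin p ↪ Fin q) ζ => W (fun j => u (hpath s ξ η ζ) - hpath s ξ η ζ (e j))) _
      fun e => HasJet.multi (t := fun ζ j => u (hpath s ξ η ζ) - hpath s ξ η ζ (e j))
        (fun j => hTj (e j)) ((hTe e).of_le (WithTop.coe_le_coe.2 le_top))
  have j3 := (((((hu.smul c0).add j1).add (j2.smul f)).add (hRU.smul ε₃)).smul (1 / c0)).add (hasJet_const C')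
  have e3 : (fun ζ => 1 / c0 * (c0 * u (hpath s ξ η ζ) + ∑ i, F0 R (u (hpath s ξ η ζ) - hpath s ξ η ζ i) +
      f * ∑ e : Fin p ↪ Fin q, W (fun j => u (hpath s ξ η ζ) - hpath s ξ η ζ (e j)) +
      ε₃ * RUN θ (hpath s ξ η ζ)) + C') = fun ζ => newU p R W ε₃ θ u C' (hpath s ξ η ζ) := by
    funext ζ
    rw [newU, GG, ← hc0]
  rw [e3] at j3
  have hJe := hJ.unique j3
  have eQ : J.Q = 1 / c0 * (c0 * Ju.Q + ∑ i, (FJ R (T i)).Q +
      f * ∑ e : Fin p ↪ Fin q, (multiJet W (fun j => T (e j))).Q + ε₃ * JR.Q) := by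
    rw [hJe]
    simp [Jet.add, Jet.smul, Jet.const, jsum]
  have eh : J.h = 1 / c0 * (c0 * Ju.h + ∑ i, (FJ R (T i)).h +
      f * ∑ e : Fin p ↪ Fin q, (multiJet W (fun j => T (e j))).h + ε₃ * JR.h) := by
    rw [hJe]
    simp [Jet.add, Jet.smul, Jet.const, jsum]
  have ea : J.a = ((1 / c0 : ℝ) : ℂ) * ((c0 : ℂ) * Ju.a + ∑ i, (FJ R (T i)).a +
      (f : ℂ) * ∑ e : Fin p ↪ Fin q, (multiJet W (fun j => T (e j))).a + (ε₃ : ℂ) * JR.a) := by
    rw [hJe]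
    simp [Jet.add, Jet.smul, Jet.const, jsum]
  have eb : J.b = ((1 / c0 : ℝ) : ℂ) * ((c0 : ℂ) * Ju.b + ∑ i, (FJ R (T i)).b +
      (f : ℂ) * ∑ e : Fin p ↪ Fin q, (multiJet W (fun j => T (e j))).b + (ε₃ : ℂ) * JR.b) := by
    rw [hJe]
    simp [Jet.add, Jet.smul, Jet.const, jsum]
  have ek : J.k = ((1 / c0 : ℝ) : ℂ) * ((c0 : ℂ) * Ju.k + ∑ i, (FJ R (T i)).k +
      (f : ℂ) * ∑ e : Fin p ↪ Fin q, (multiJet W (fun j => T (e j))).k + (ε₃ : ℂ) * JR.k) := by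
    rw [hJe]
    simp [Jet.add, Jet.smul, Jet.const, jsum]
  have hcc : ((1 / c0 : ℝ) : ℂ) * (c0 : ℂ) = 1 := by
    rw [← Complex.ofReal_mul, one_div, inv_mul_cancel₀ hc0n, Complex.ofReal_one]
  refine ⟨?_, fun E hE hw hh hk => ?_⟩
  · rw [eQ, ← hc0, QG, ← hc0]
    rw [← mul_assoc, mul_one_div_cancel hc0n, one_mul]
  -- the sizes of the jets
  have hwt : ∀ i, Real.exp (-(t i / (4 * R))) = Real.exp (-(t i / (8 * R))) ^ 2 := by
    intro i
    rw [← Real.exp_nat_mul]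
    congr 1
    push_cast
    field_simp
    ring
  have hFb : ∀ i, Bd (FJ R (T i)) K1 E ∧ (|Ju.Q| ≤ E ^ 4 → |(FJ R (T i)).Q| ≤ K1 * E ^ 4) := by
    intro i
    obtain ⟨w, hwd⟩ : ∃ w, w = Real.exp (-(t i / (8 * R))) := ⟨_, rfl⟩
    have hw0 : 0 < w := by rw [hwd]; exact Real.exp_pos _
    have hw1 : w ≤ 1 := by
      rw [hwd, Real.exp_le_one_iff]
      have : 0 ≤ t i / (8 * R) := div_nonneg (ht0 i) (by positivity)
      linarith
    have hEw : E ≤ E / w := by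
      rw [le_div_iff₀ hw0]
      nlinarith
    have hSm : Sm (T i) (E / w) := by
      refine Sm.weight hw0 hw1 hE ?_ ?_ hh hk
      · rw [hwd]; exact (hw i).1
      · have := (hw i).2
        rw [show Real.exp (-((u s - s i) / (4 * R))) = Real.exp (-(t i / (8 * R))) ^ 2 from hwt i] at this
        rw [hwd]; exact this
    have h8 : Real.exp (-(t i / R)) ≤ w ^ 4 := by
      rw [hwd, ← Real.exp_nat_mul]
      apply Real.exp_le_exp.2
      have h1 : (4 : ℕ) * -(t i / (8 * R)) = -(t i / R) / 2 := by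
        push_cast; field_simp; ring
      rw [h1]
      have : 0 ≤ t i / R := div_nonneg (ht0 i) hR0.le
      linarith
    obtain ⟨b1, b2, b3, b4⟩ := F_bounds hR (ht0 i)
    have h9 : 2 * R * Real.exp (-(t i / R)) ≤ 2 * R * w ^ 4 := mul_le_mul_of_nonneg_left h8 (by positivity)
    obtain ⟨c1, c2⟩ := comp_bd (f0 := F0 R (T i).v) (by positivity) hSm (b1.trans h9) (b2.trans h9) (b3.trans h9) (b4.trans h9)
    have e1 : 15 * (2 * R * w ^ 4) = K1 * w ^ 4 := by rw [hK1]; ring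
    rw [e1] at c1 c2
    refine ⟨c1.weight hK10 hw0 hw1 hE, fun hQ => ?_⟩
    have c3 := c2 (hQ.trans (pow_le_pow_left₀ hE hEw 4))
    have e4 : K1 * w ^ 4 * (E / w) ^ 4 = K1 * E ^ 4 := by field_simp
    rw [e4] at c3
    exact c3
  have hMb : ∀ e : Fin p ↪ Fin q, Bd (multiJet W (fun j => T (e j))) K2 E ∧
      (|Ju.Q| ≤ E ^ 4 → |(multiJet W (fun j => T (e j))).Q| ≤ K2 * E ^ 4) := by
    intro e
    obtain ⟨x, hx⟩ : ∃ x : Fin p → ℝ, x = fun j => (T (e j)).v := ⟨_, rfl⟩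
    have hx0 : ∀ j, 0 ≤ x j := fun j => by rw [hx]; exact ht0 (e j)
    have hxt : ∀ j, x j = t (e j) := fun j => by rw [hx]; rfl
    have hS0 : 0 ≤ ∑ j, x j := Finset.sum_nonneg fun j _ => hx0 j
    obtain ⟨w, hwd⟩ : ∃ w, w = Real.exp (-((∑ j, x j) / (8 * R))) := ⟨_, rfl⟩
    have hw0 : 0 < w := by rw [hwd]; exact Real.exp_pos _
    have hw1 : w ≤ 1 := by
      rw [hwd, Real.exp_le_one_iff]
      have : 0 ≤ (∑ j, x j) / (8 * R) := div_nonneg hS0 (by positivity)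
      linarith
    have hwj : ∀ j, w ≤ Real.exp (-(t (e j) / (8 * R))) := by
      intro j
      rw [hwd]
      apply Real.exp_le_exp.2
      have h1 : t (e j) / (8 * R) ≤ (∑ j, x j) / (8 * R) := by
        apply div_le_div_of_nonneg_right _ (by positivity)
        rw [← hxt j]
        exact Finset.single_le_sum (fun j _ => hx0 j) (Finset.mem_univ j)
      linarith
    have hEw : E ≤ E / w := by
      rw [le_div_iff₀ hw0]
      nlinarith
    have hSm : ∀ j, Sm (T (e j)) (E / w) := by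
      intro j
      refine Sm.weight hw0 hw1 hE ?_ ?_ hh hk
      · exact (mul_le_mul_of_nonneg_right (hwj j) (norm_nonneg _)).trans (hw (e j)).1
      · have := (hw (e j)).2
        rw [show Real.exp (-((u s - s (e j)) / (4 * R))) = Real.exp (-(t (e j) / (8 * R))) ^ 2 from hwt (e j)] at this
        exact (mul_le_mul_of_nonneg_right (pow_le_pow_left₀ hw0.le (hwj j) 2) (norm_nonneg _)).trans this
    have h8 : Real.exp (-(2 * (∑ j, x j) / R)) ≤ w ^ 4 := by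
      rw [hwd, ← Real.exp_nat_mul]
      apply Real.exp_le_exp.2
      have h1 : (4 : ℕ) * -((∑ j, x j) / (8 * R)) = -((∑ j, x j) / R) / 2 := by
        push_cast; field_simp; ring
      have h2 : 2 * (∑ j, x j) / R = 2 * ((∑ j, x j) / R) := by ring
      rw [h1, h2]
      have : 0 ≤ (∑ j, x j) / R := div_nonneg hS0 hR0.le
      linarith
    have h9 : ∀ m : ℕ, m ≤ 4 → ‖iteratedFDeriv ℝ m W x‖ ≤ CW * w ^ 4 := fun m hm =>
      (hCW x hx0 m hm).trans (mul_le_mul_of_nonneg_left h8 hCW0)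
    have hsm : ContDiffAt ℝ ∞ W x := by rw [hx]; exact hTe e
    have d1 : ∀ i, |pd W i x| ≤ CW * w ^ 4 := fun i =>
      (abs_pd1_le (hsm.of_le (WithTop.coe_le_coe.2 le_top)) i).trans (h9 1 (by norm_num))
    have d2 : ∀ i j, |pd (pd W i) j x| ≤ CW * w ^ 4 := fun i j =>
      (abs_pd2_le (hsm.of_le (WithTop.coe_le_coe.2 le_top)) i j).trans (h9 2 (by norm_num))
    have d3 : ∀ i j l, |pd (pd (pd W i) j) l x| ≤ CW * w ^ 4 := fun i j l =>
      (abs_pd3_le (hsm.of_le (WithTop.coe_le_coe.2 le_top)) i j l).trans (h9 3 (by norm_num))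
    have d4 : ∀ i j l m, |pd (pd (pd (pd W i) j) l) m x| ≤ CW * w ^ 4 := fun i j l m =>
      (abs_pd4_le (hsm.of_le (WithTop.coe_le_coe.2 le_top)) i j l m).trans (h9 4 (by norm_num))
    obtain ⟨c1, c2⟩ := multi_bd (T := fun j => T (e j)) (by positivity) (by positivity) hSm hx d1 d2 d3 d4
    have e1 : 15 * Np p * (CW * w ^ 4) = K2 * w ^ 4 := by rw [hK2]; ring
    rw [e1] at c1 c2
    refine ⟨c1.weight hK20 hw0 hw1 hE, fun hQ => ?_⟩
    have c3 := c2 (fun _ => hQ.trans (pow_le_pow_left₀ hE hEw 4))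
    have e4 : K2 * w ^ 4 * (E / w) ^ 4 = K2 * E ^ 4 := by field_simp
    rw [e4] at c3
    exact c3
  have hqc : (Fintype.card (Fin q) : ℝ) = q := by simp
  refine ⟨?_, ?_, ?_, ?_, fun hQ => ?_⟩
  · refine fin_c hc0p hE hK10 hK20 hf0 hf1 hNe0 (Nat.cast_nonneg q)
      (SA := ∑ i, (FJ R (T i)).a) (SB := ∑ e : Fin p ↪ Fin q, (multiJet W (fun j => T (e j))).a) ?_ ?_ ?_
    · rw [ea]
      linear_combination Ju.a * hcc
    · rw [← hqc]; exact sum_c fun i => (hFb i).1.a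
    · exact sum_c fun e => (hMb e).1.a
  · refine fin_c hc0p (by positivity) hK10 hK20 hf0 hf1 hNe0 (Nat.cast_nonneg q)
      (SA := ∑ i, (FJ R (T i)).b) (SB := ∑ e : Fin p ↪ Fin q, (multiJet W (fun j => T (e j))).b) ?_ ?_ ?_
    · rw [eb]
      linear_combination Ju.b * hcc
    · rw [← hqc]; exact sum_c fun i => (hFb i).1.b
    · exact sum_c fun e => (hMb e).1.b
  · refine fin_r hc0p (by positivity) hK10 hK20 hf0 hf1 hNe0 (Nat.cast_nonneg q)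
      (SA := ∑ i, (FJ R (T i)).h) (SB := ∑ e : Fin p ↪ Fin q, (multiJet W (fun j => T (e j))).h) ?_ ?_ ?_
    · rw [eh]
      field_simp
      ring
    · rw [← hqc]; exact sum_r fun i => (hFb i).1.h
    · exact sum_r fun e => (hMb e).1.h
  · refine fin_c hc0p (by positivity) hK10 hK20 hf0 hf1 hNe0 (Nat.cast_nonneg q)
      (SA := ∑ i, (FJ R (T i)).k) (SB := ∑ e : Fin p ↪ Fin q, (multiJet W (fun j => T (e j))).k) ?_ ?_ ?_
    · rw [ek]
      linear_combination Ju.k * hcc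
    · rw [← hqc]; exact sum_c fun i => (hFb i).1.k
    · exact sum_c fun e => (hMb e).1.k
  · refine fin_r hc0p (by positivity) hK10 hK20 hf0 hf1 hNe0 (Nat.cast_nonneg q)
      (SA := ∑ i, (FJ R (T i)).Q) (SB := ∑ e : Fin p ↪ Fin q, (multiJet W (fun j => T (e j))).Q) ?_ ?_ ?_
    · rw [eQ]
      field_simp
      ring
    · rw [← hqc]; exact sum_r fun i => (hFb i).2 hQ
    · exact sum_r fun e => (hMb e).2 hQ

end

end Pool.Agent.H789.HSC
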