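import Pool.Agent.H789.HSC.Recur
import Pool.Agent.H789.HSC.JetCalc
import Pool.Agent.H789.HSC.T5a

open scoped BigOperators ContDiff ComplexConjugate Topology

namespace Pool.Agent.H789.HSC

noncomputable section

variable {q : ℕ}

open T5aux

theorem RUN_upper (hq : 1 ≤ q) {θ : ℝ} (h0 : 0 < θ) (h1 : θ ≤ 1) :
    ∃ C : ℝ, 1 ≤ C ∧ (∀ s : Fin q → ℝ, |RUN θ s| ≤ C) ∧
    ∀ (s : Fin q → ℝ) (ξ η : Fin q → ℂ) (i₀ : Fin q), s i₀ = mx s → ∀ J : Jet,
      HasJet (fun ζ => RUN θ (hpath s ξ η ζ)) J →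
      RelSmall J 0 0 (C * A0 (θ / 4) s ξ η i₀) := by
  have hq1 : (1 : ℝ) ≤ q := by exact_mod_cast hq
  refine ⟨850 * q, by linarith, ?_, ?_⟩
  · intro s
    have hpos : 0 ≤ RUN θ s := by
      unfold RUN
      positivity
    rw [abs_of_nonneg hpos]
    unfold RUN
    have : ∀ i ∈ (Finset.univ : Finset (Fin q)), (Real.exp (-(θ * (lse s - s i))) +
        Real.exp (-(2 * (θ * (lse s - s i)))) / 4) ≤ 2 := by
      intro i _
      have ht : 0 ≤ lse s - s i := sub_nonneg.2 (le_lse hq s i)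
      have e1 : Real.exp (-(θ * (lse s - s i))) ≤ 1 := by
        rw [Real.exp_le_one_iff]
        have := mul_nonneg h0.le ht
        linarith
      have e2 : Real.exp (-(2 * (θ * (lse s - s i)))) ≤ 1 := by
        rw [Real.exp_le_one_iff]
        have := mul_nonneg h0.le ht
        linarith
      linarith
    refine (Finset.sum_le_sum this).trans ?_
    simp only [Finset.sum_const, Finset.card_univ, Fintype.card_fin, nsmul_eq_mul]
    linarith
  · intro s ξ η i₀ hi₀ J hJ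
    obtain ⟨L, hL, hLS, hLv⟩ := lse_jet hq s ξ η i₀ hi₀
    have hJK := HasJet.unique hJ (hasJet_RUN hL)
    subst hJK
    obtain ⟨l1, l2, l3, l4, l5⟩ := hLS
    set A := A0 (θ / 4) s ξ η i₀ with hA
    have hA0 : 0 ≤ A := A0_nonneg _ _ _ _ _
    have hle : A0 (1 / 4) s ξ η i₀ ≤ A := A0_mono (by linarith) s ξ η i₀
    have hA40 := A0_nonneg (1 / 4) s ξ η i₀
    have l1' : ‖L.a - ξ i₀‖ ≤ 24 * A := l1.trans (by gcongr)
    have l2' : ‖L.b - η i₀‖ ≤ (24 * A) ^ 2 := l2.trans (by gcongr)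
    have l3' : |L.h| ≤ (24 * A) ^ 2 := l3.trans (by gcongr)
    have l4' : ‖L.k‖ ≤ (24 * A) ^ 3 := l4.trans (by gcongr)
    have l5' : |L.Q| ≤ (24 * A) ^ 4 := l5.trans (by gcongr)
    have hterm : ∀ i ∈ (Finset.univ : Finset (Fin q)),
        RelSmall ((eJ θ (tJ L s ξ η i)).add (Jet.smul (1 / 4) (eJ (2 * θ) (tJ L s ξ η i)))) 0 0
          (850 * A) := by
      intro i _
      obtain ⟨tv, ta, tb, th, tk, tQ⟩ := tJ_fields L s ξ η i
      have hd : 0 ≤ mx s - s i := sub_nonneg.2 (le_mx s i)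
      have htd : mx s - s i ≤ L.v - s i := by
        have := mx_le_lse hq s
        rw [hLv]; linarith
      have ht0 : 0 ≤ L.v - s i := hd.trans htd
      set w := Real.exp (-(θ / 4 * (mx s - s i))) with hw
      have hw0 : 0 ≤ w := (Real.exp_pos _).le
      have hw1 : w ≤ 1 := by
        rw [hw, Real.exp_le_one_iff]
        have := mul_nonneg h0.le hd
        linarith
      have hw4 : Real.exp (-(θ * (L.v - s i))) ≤ w ^ 4 := by
        rw [hw, ← Real.exp_nat_mul]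
        apply Real.exp_le_exp.2
        push_cast
        nlinarith
      have hw4' : Real.exp (-(2 * θ * (L.v - s i))) ≤ w ^ 4 := by
        refine le_trans ?_ hw4
        apply Real.exp_le_exp.2
        have := mul_nonneg h0.le ht0
        nlinarith
      -- size of the data
      have hPA := term_le_A0 (θ / 4) s ξ η i₀ i
      rw [← hA, ← hw] at hPA
      have hX0 := norm_nonneg (ξ i - ξ i₀)
      have hY0 := norm_nonneg (η i - η i₀)
      have hs0 := Real.sqrt_nonneg ‖η i - η i₀‖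
      have hsq : Real.sqrt ‖η i - η i₀‖ ^ 2 = ‖η i - η i₀‖ := Real.sq_sqrt hY0
      have hwX : w * ‖ξ i - ξ i₀‖ ≤ A := by
        refine le_trans ?_ hPA
        gcongr
        linarith
      have hwY : w ^ 2 * ‖η i - η i₀‖ ≤ A ^ 2 := by
        have h5 : w * Real.sqrt ‖η i - η i₀‖ ≤ A := by
          refine le_trans ?_ hPA
          gcongr
          linarith
        calc w ^ 2 * ‖η i - η i₀‖ = (w * Real.sqrt ‖η i - η i₀‖) ^ 2 := by rw [mul_pow, hsq]
          _ ≤ A ^ 2 := by gcongr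
      have w2 : w ^ 2 ≤ 1 := pow_le_one₀ hw0 hw1
      have w3 : w ^ 3 ≤ 1 := pow_le_one₀ hw0 hw1
      have w4 : w ^ 4 ≤ 1 := pow_le_one₀ hw0 hw1
      have c1 : w * ‖(tJ L s ξ η i).a‖ ≤ 25 * A := by
        rw [ta]
        have e : L.a - ξ i = (L.a - ξ i₀) - (ξ i - ξ i₀) := by ring
        have e2 : ‖L.a - ξ i‖ ≤ ‖L.a - ξ i₀‖ + ‖ξ i - ξ i₀‖ := by
          rw [e]; exact norm_sub_le _ _
        calc w * ‖L.a - ξ i‖ ≤ w * (‖L.a - ξ i₀‖ + ‖ξ i - ξ i₀‖) := by gcongr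
          _ = w * ‖L.a - ξ i₀‖ + w * ‖ξ i - ξ i₀‖ := by ring
          _ ≤ 1 * (24 * A) + A := by gcongr
          _ = 25 * A := by ring
      have c2 : w ^ 2 * ‖(tJ L s ξ η i).b‖ ≤ (25 * A) ^ 2 := by
        rw [tb]
        have e : L.b - η i = (L.b - η i₀) - (η i - η i₀) := by ring
        have e2 : ‖L.b - η i‖ ≤ ‖L.b - η i₀‖ + ‖η i - η i₀‖ := by
          rw [e]; exact norm_sub_le _ _
        calc w ^ 2 * ‖L.b - η i‖ ≤ w ^ 2 * (‖L.b - η i₀‖ + ‖η i - η i₀‖) := by gcongr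
          _ = w ^ 2 * ‖L.b - η i₀‖ + w ^ 2 * ‖η i - η i₀‖ := by ring
          _ ≤ 1 * (24 * A) ^ 2 + A ^ 2 := by gcongr
          _ ≤ (25 * A) ^ 2 := by nlinarith [sq_nonneg A]
      have h25 : 24 * A ≤ 25 * A := by linarith
      have c3 : w ^ 2 * |(tJ L s ξ η i).h| ≤ (25 * A) ^ 2 := by
        rw [th]
        calc w ^ 2 * |L.h| ≤ 1 * (24 * A) ^ 2 := by gcongr
          _ ≤ (25 * A) ^ 2 := by rw [one_mul]; gcongr
      have c4 : w ^ 3 * ‖(tJ L s ξ η i).k‖ ≤ (25 * A) ^ 3 := by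
        rw [tk]
        calc w ^ 3 * ‖L.k‖ ≤ 1 * (24 * A) ^ 3 := by gcongr
          _ ≤ (25 * A) ^ 3 := by rw [one_mul]; gcongr
      have c5 : w ^ 4 * |(tJ L s ξ η i).Q| ≤ (25 * A) ^ 4 := by
        rw [tQ]
        calc w ^ 4 * |L.Q| ≤ 1 * (24 * A) ^ 4 := by gcongr
          _ ≤ (25 * A) ^ 4 := by rw [one_mul]; gcongr
      have hE0 : ∀ ϑ : ℝ, 0 ≤ Real.exp (-(ϑ * (tJ L s ξ η i).v)) := fun ϑ => (Real.exp_pos _).le
      have bnd : ∀ (ϑ B c : ℝ), |c| ≤ B → Real.exp (-(ϑ * (tJ L s ξ η i).v)) ≤ w ^ 4 →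
          |c * Real.exp (-(ϑ * (tJ L s ξ η i).v))| ≤ B * w ^ 4 := by
        intro ϑ B c hc he
        rw [abs_mul, abs_of_nonneg (hE0 ϑ)]
        exact mul_le_mul hc he (hE0 ϑ) ((abs_nonneg c).trans hc)
      have s1 : RelSmall (eJ θ (tJ L s ξ η i)) 0 0 (2 * 1 * (25 * A)) := by
        unfold eJ
        have hv : Real.exp (-(θ * (tJ L s ξ η i).v)) ≤ w ^ 4 := by rw [tv]; exact hw4
        refine comp_small hw0 hw1 le_rfl (by positivity) (bnd _ _ _ ?_ hv) (bnd _ _ _ ?_ hv)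
          (bnd _ _ _ ?_ hv) (bnd _ _ _ ?_ hv) c1 c2 c3 c4 c5
        · rw [abs_neg, abs_of_pos h0]; exact h1
        · rw [abs_of_nonneg (by positivity)]; exact pow_le_one₀ h0.le h1
        · rw [abs_neg, abs_of_nonneg (by positivity)]; exact pow_le_one₀ h0.le h1
        · rw [abs_of_nonneg (by positivity)]; exact pow_le_one₀ h0.le h1
      have s2 : RelSmall (eJ (2 * θ) (tJ L s ξ η i)) 0 0 (2 * 16 * (25 * A)) := by
        unfold eJ
        have hv : Real.exp (-(2 * θ * (tJ L s ξ η i).v)) ≤ w ^ 4 := by rw [tv]; exact hw4'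
        have hθ2 : θ ^ 2 ≤ 1 := pow_le_one₀ h0.le h1
        have hθ3 : θ ^ 3 ≤ 1 := pow_le_one₀ h0.le h1
        have hθ4 : θ ^ 4 ≤ 1 := pow_le_one₀ h0.le h1
        refine comp_small hw0 hw1 (by norm_num) (by positivity) (bnd _ _ _ ?_ hv)
          (bnd _ _ _ ?_ hv) (bnd _ _ _ ?_ hv) (bnd _ _ _ ?_ hv) c1 c2 c3 c4 c5
        · rw [abs_neg, abs_of_nonneg (by positivity)]; linarith
        · rw [abs_of_nonneg (by positivity), mul_pow]; linarith
        · rw [abs_neg, abs_of_nonneg (by positivity), mul_pow]; linarith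
        · rw [abs_of_nonneg (by positivity), mul_pow]; linarith
      have s3 := relSmall_add s1 (relSmall_smul (c := 1 / 4) s2
        (by rw [abs_of_pos (by norm_num)]; norm_num)) (by positivity) (by positivity)
      have e : 2 * 1 * (25 * A) + 2 * 16 * (25 * A) = 850 * A := by ring
      rwa [e] at s3
    have hsum := relSmall_sum Finset.univ hterm (fun i _ => by positivity)
    have e : ∑ _i : Fin q, 850 * A = 850 * q * A := by
      simp only [Finset.sum_const, Finset.card_univ, Fintype.card_fin, nsmul_eq_mul]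
      ring
    rw [e] at hsum
    exact hsum

end

end Pool.Agent.H789.HSC
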