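import Pool.Agent.H789.HSC.NewU0
import Pool.Agent.H789.HSC.NewUJets
import Pool.Agent.H789.HSC.T5b

/-! Task C7 (helper734): the new function of the recursion step satisfies the global bounds. -/

open scoped BigOperators ContDiff ComplexConjugate

namespace Pool.Agent.H789.HSC

noncomputable section

variable {q p : ℕ}

namespace C7aux

open T5aux

theorem hpath_smooth (s : Fin q → ℝ) (ξ η : Fin q → ℂ) : ContDiff ℝ ∞ (fun ζ : ℂ => hpath s ξ η ζ) := by
  rw [contDiff_pi]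
  intro i
  unfold hpath
  have h1 : ContDiff ℝ ∞ (fun ζ : ℂ => ζ * ξ i + ζ ^ 2 * η i / 2) := by fun_prop
  have h2 : ContDiff ℝ ∞ (fun ζ : ℂ => (ζ * ξ i + ζ ^ 2 * η i / 2).re) := Complex.reCLM.contDiff.comp h1
  fun_prop

theorem exists_jet_comp {U : (Fin q → ℝ) → ℝ} (hU : ContDiff ℝ ∞ U) (s : Fin q → ℝ) (ξ η : Fin q → ℂ) :
    ∃ J, HasJet (fun ζ => U (hpath s ξ η ζ)) J := by
  apply exists_hasJet
  have h1 : ContDiff ℝ ∞ (fun ζ : ℂ => U (hpath s ξ η ζ)) := hU.comp (hpath_smooth s ξ η)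
  exact (h1.contDiffAt).of_le (WithTop.coe_le_coe.2 (le_top : (4 : ℕ∞) ≤ ⊤))

theorem hpath_div {lam : ℝ} (s : Fin q → ℝ) (ξ η : Fin q → ℂ) (ζ : ℂ) :
    (fun i => hpath s ξ η ζ i / lam) =
      hpath (fun i => s i / lam) (fun i => ξ i / lam) (fun i => η i / lam) ζ := by
  funext i
  unfold hpath
  have h1 : ζ * (ξ i / (lam : ℂ)) + ζ ^ 2 * (η i / (lam : ℂ)) / 2 = (ζ * ξ i + ζ ^ 2 * η i / 2) / (lam : ℂ) := by
    ring
  rw [h1, Complex.div_ofReal_re]
  ring

end C7aux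

open T5aux C7aux

/-- C7b: jets of the rescaled function -/
theorem resc_jets {U : (Fin q → ℝ) → ℝ} {lam : ℝ} (h0 : 0 < lam) (s : Fin q → ℝ)
    (ξ η : Fin q → ℂ) (J0 : Jet)
    (hJ : HasJet (fun ζ => U (hpath (fun i => s i / lam) (fun i => ξ i / lam)
      (fun i => η i / lam) ζ)) J0) :
    HasJet (fun ζ => resc lam U (hpath s ξ η ζ)) (Jet.smul lam J0) := by
  have h1 := HasJet.smul hJ lam
  have e : (fun ζ => resc lam U (hpath s ξ η ζ)) = fun ζ => lam * U (hpath (fun i => s i / lam)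
      (fun i => ξ i / lam) (fun i => η i / lam) ζ) := by
    funext ζ
    unfold resc
    rw [hpath_div]
  rw [e]
  exact h1

namespace C7aux

theorem mx_div {lam : ℝ} (h0 : 0 < lam) (s : Fin q → ℝ) : mx (fun i => s i / lam) = mx s / lam := by
  unfold mx
  simp only [div_eq_mul_inv]
  exact (Real.iSup_mul_of_nonneg (by positivity) _).symm

theorem resc_lower {U : (Fin q → ℝ) → ℝ} {C ϑ lam : ℝ} (hU : Bdd U C ϑ) (h0 : 0 < lam) (s : Fin q → ℝ) :
    mx s ≤ resc lam U s := by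
  have h1 := hU.lower (fun i => s i / lam)
  rw [mx_div h0, div_le_iff₀ h0] at h1
  unfold resc
  linarith

theorem resc_upper {U : (Fin q → ℝ) → ℝ} {C ϑ lam : ℝ} (hU : Bdd U C ϑ) (h0 : 0 < lam) (s : Fin q → ℝ) :
    resc lam U s ≤ mx s + lam * C := by
  have h1 := hU.upper (fun i => s i / lam)
  rw [mx_div h0] at h1
  unfold resc
  have h2 := mul_le_mul_of_nonneg_left h1 h0.le
  rw [mul_add, mul_div_cancel₀ _ h0.ne'] at h2
  exact h2

theorem resc_smooth {U : (Fin q → ℝ) → ℝ} (hU : ContDiff ℝ ∞ U) (lam : ℝ) : ContDiff ℝ ∞ (resc lam U) := by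
  unfold resc
  have h1 : ContDiff ℝ ∞ (fun (s : Fin q → ℝ) (i : Fin q) => s i / lam) := by fun_prop
  exact contDiff_const.mul (hU.comp h1)

theorem F0_smooth (R : ℝ) : ContDiff ℝ ∞ (F0 R) := by
  unfold F0
  fun_prop

theorem F0_bd {R : ℝ} (hR : 1 ≤ R) {t : ℝ} (ht : 0 ≤ t) : 0 ≤ F0 R t ∧ F0 R t ≤ R ^ 2 := by
  unfold F0
  have hR0 : 0 < R := by linarith
  have e1 : Real.exp (-(t / R)) ≤ 1 := by
    rw [Real.exp_le_one_iff]
    have : 0 ≤ t / R := by positivity
    linarith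
  have e2 : Real.exp (-(2 * t / R)) ≤ 1 := by
    rw [Real.exp_le_one_iff]
    have : 0 ≤ 2 * t / R := by positivity
    linarith
  have e3 := Real.exp_pos (-(t / R))
  have e4 := Real.exp_pos (-(2 * t / R))
  have hR2 : 0 ≤ R ^ 2 := by positivity
  constructor
  · positivity
  · nlinarith

theorem A0_div {lam : ℝ} (h0 : 0 < lam) (h1 : lam ≤ 1) (ϑ : ℝ) (s : Fin q → ℝ) (ξ η : Fin q → ℂ) (i₀ : Fin q) :
    A0 ϑ (fun i => s i / lam) (fun i => ξ i / lam) (fun i => η i / lam) i₀ ≤ (1 / lam) * A0 (ϑ / lam) s ξ η i₀ := by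
  unfold A0
  rw [Finset.mul_sum]
  refine Finset.sum_le_sum fun i _ => ?_
  rw [mx_div h0]
  have e1 : -(ϑ * (mx s / lam - s i / lam)) = -(ϑ / lam * (mx s - s i)) := by ring
  rw [e1]
  have e2 : ‖ξ i / (lam : ℂ) - ξ i₀ / (lam : ℂ)‖ = (1 / lam) * ‖ξ i - ξ i₀‖ := by
    rw [← sub_div, norm_div, Complex.norm_real, Real.norm_of_nonneg h0.le]
    ring
  have e3 : Real.sqrt ‖η i / (lam : ℂ) - η i₀ / (lam : ℂ)‖ ≤ (1 / lam) * Real.sqrt ‖η i - η i₀‖ := by
    rw [← sub_div, norm_div, Complex.norm_real, Real.norm_of_nonneg h0.le]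
    have hx := norm_nonneg (η i - η i₀)
    rw [Real.sqrt_le_left (by positivity), mul_pow, Real.sq_sqrt hx]
    have : 1 / lam ≤ (1 / lam) ^ 2 := by
      have h2 : 1 ≤ 1 / lam := by rw [le_div_iff₀ h0]; linarith
      nlinarith
    calc ‖η i - η i₀‖ / lam = (1 / lam) * ‖η i - η i₀‖ := by ring
      _ ≤ (1 / lam) ^ 2 * ‖η i - η i₀‖ := mul_le_mul_of_nonneg_right this hx
  rw [e2]
  have hE := Real.exp_pos (-(ϑ / lam * (mx s - s i)))
  calc Real.exp (-(ϑ / lam * (mx s - s i))) * ((1 / lam) * ‖ξ i - ξ i₀‖ +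
        Real.sqrt ‖η i / (lam : ℂ) - η i₀ / (lam : ℂ)‖) ≤
        Real.exp (-(ϑ / lam * (mx s - s i))) * ((1 / lam) * ‖ξ i - ξ i₀‖ + (1 / lam) * Real.sqrt ‖η i - η i₀‖) := by
        gcongr
    _ = _ := by ring

/-- scaling of jets -/
theorem relSmall_scale {J : Jet} {x y : ℂ} {B lam : ℝ} (h0 : 0 < lam) (h1 : lam ≤ 1)
    (h : RelSmall J (x / lam) (y / lam) B) : RelSmall (Jet.smul lam J) x y B := by
  obtain ⟨a1, a2, a3, a4, a5⟩ := h
  have hl : (lam : ℂ) ≠ 0 := by exact_mod_cast h0.ne'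
  have hm : ∀ x : ℝ, |lam * x| ≤ |x| := by
    intro x
    rw [abs_mul, abs_of_pos h0]
    exact mul_le_of_le_one_left (abs_nonneg _) h1
  have hm' : ∀ x : ℂ, ‖(lam : ℂ) * x‖ ≤ ‖x‖ := by
    intro x
    rw [norm_mul, Complex.norm_real, Real.norm_of_nonneg h0.le]
    exact mul_le_of_le_one_left (norm_nonneg _) h1
  refine ⟨?_, ?_, ?_, ?_, ?_⟩
  · have e : (Jet.smul lam J).a - x = (lam : ℂ) * (J.a - x / lam) := by
      simp only [Jet.smul]
      field_simp
    rw [e]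
    exact (hm' _).trans a1
  · have e : (Jet.smul lam J).b - y = (lam : ℂ) * (J.b - y / lam) := by
      simp only [Jet.smul]
      field_simp
    rw [e]
    exact (hm' _).trans a2
  · simp only [Jet.smul]; exact (hm _).trans a3
  · simp only [Jet.smul]; exact (hm' _).trans a4
  · simp only [Jet.smul]; exact (hm _).trans a5

/-- the bounds for the jets of the rescaled function -/
theorem resc_rel {U : (Fin q → ℝ) → ℝ} {C ϑ lam : ℝ} (hC : 1 ≤ C) (hU : Bdd U C ϑ) (h0 : 0 < lam) (h1 : lam ≤ 1)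
    (s : Fin q → ℝ) (ξ η : Fin q → ℂ) (i₀ : Fin q) (hi₀ : s i₀ = mx s) :
    ∃ Ju, HasJet (fun ζ => resc lam U (hpath s ξ η ζ)) Ju ∧
      RelSmall Ju (ξ i₀) (η i₀) (C / lam * A0 (ϑ / lam) s ξ η i₀) := by
  obtain ⟨J0, hJ0⟩ := exists_jet_comp hU.smooth (fun i => s i / lam) (fun i => ξ i / lam) (fun i => η i / lam)
  refine ⟨Jet.smul lam J0, resc_jets h0 s ξ η J0 hJ0, ?_⟩
  have hmx : (fun i => s i / lam) i₀ = mx (fun i => s i / lam) := by
    rw [mx_div h0, ← hi₀]
  have h2 := hU.jets _ _ _ i₀ hmx J0 hJ0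
  have h3 := relSmall_scale h0 h1 h2
  refine relSmall_mono h3 (mul_nonneg (by linarith) (A0_nonneg _ _ _ _ _)) ?_
  have h4 := A0_div h0 h1 ϑ s ξ η i₀
  calc C * A0 ϑ (fun i => s i / lam) (fun i => ξ i / lam) (fun i => η i / lam) i₀ ≤
        C * ((1 / lam) * A0 (ϑ / lam) s ξ η i₀) := mul_le_mul_of_nonneg_left h4 (by linarith)
    _ = _ := by ring

end C7aux

/-- C7: the new function satisfies the global bounds, for a suitable additive constant `C'` -/
theorem newU_bdd (hp : 1 ≤ p) (hq : 1 ≤ q) {kk : ℕ} {ca Ca L R : ℝ} {W : (Fin p → ℝ) → ℝ}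
    (hM : IsModel p kk ca Ca L R W) {U : (Fin q → ℝ) → ℝ} {C ϑ : ℝ} (hC : 1 ≤ C) (hϑ : 0 < ϑ)
    (hU : Bdd U C ϑ) {lam ε₃ θ : ℝ} (h0 : 0 < lam) (h1 : lam ≤ 1) (h2 : 0 ≤ ε₃)
    (h3 : 0 < θ) (h4 : θ ≤ 1 / 8) :
    ∃ C' C₁ ϑ₁ : ℝ, 1 ≤ C₁ ∧ 0 < ϑ₁ ∧ Bdd (newU p R W ε₃ θ (resc lam U) C') C₁ ϑ₁ := by
  obtain ⟨CW, hCW⟩ := hM.bound
  obtain ⟨CR, hCR1, hRb, hRj⟩ := RUN_upper hq h3 (by linarith : θ ≤ 1)
  obtain ⟨C6, hC60, hC6⟩ := newU_jets hp hM q
  have hR := hM.hR
  have hR0 : 0 < R := by linarith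
  have hpr : (1 : ℝ) ≤ p := by exact_mod_cast hp
  have hc0 : 0 < -(p * F1 R 0) := by
    unfold F1
    have : -(p * (-(R / 4) * (Real.exp (-(0 / R)) + Real.exp (-(2 * 0 / R)) / 2))) = 3 * p * R / 8 := by
      simp
      ring
    rw [this]
    positivity
  set c0 : ℝ := -(p * F1 R 0) with hc0def
  set u := resc lam U with hu
  have hul : ∀ s, mx s ≤ u s := resc_lower hU h0
  have huu : ∀ s, u s ≤ mx s + lam * C := resc_upper hU h0
  have hus : ContDiff ℝ ∞ u := resc_smooth hU.smooth lam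
  have hui : ∀ s i, s i ≤ u s := fun s i => (le_mx s i).trans (hul s)
  -- the bound of the difference
  set Z : (Fin q → ℝ) → ℝ := fun s => ∑ i, F0 R (u s - s i) + (1 / (p.factorial : ℝ)) *
    ∑ e : Fin p ↪ Fin q, W (fun j => u s - s (e j)) + ε₃ * RUN θ s with hZ
  have hnew : ∀ C' s, newU p R W ε₃ θ u C' s = u s + (1 / c0) * Z s + C' := by
    intro C' s
    unfold newU GG
    rw [hZ, ← hc0def]
    field_simp
    ring
  set B : ℝ := q * R ^ 2 + (1 / (p.factorial : ℝ)) * (Fintype.card (Fin p ↪ Fin q) * |CW|) + ε₃ * CR with hB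
  have hB0 : 0 ≤ B := by positivity
  have hZb : ∀ s, |Z s| ≤ B := by
    intro s
    rw [hZ, hB]
    refine (abs_add_le _ _).trans (add_le_add ((abs_add_le _ _).trans (add_le_add ?_ ?_)) ?_)
    · refine (Finset.abs_sum_le_sum_abs _ _).trans ?_
      calc ∑ i, |F0 R (u s - s i)| ≤ ∑ _i : Fin q, R ^ 2 := by
            refine Finset.sum_le_sum fun i _ => ?_
            have := F0_bd hR (sub_nonneg.2 (hui s i))
            rw [abs_of_nonneg this.1]
            exact this.2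
        _ = q * R ^ 2 := by simp
    · rw [abs_mul, abs_of_nonneg (by positivity : (0 : ℝ) ≤ 1 / (p.factorial : ℝ))]
      apply mul_le_mul_of_nonneg_left _ (by positivity)
      refine (Finset.abs_sum_le_sum_abs _ _).trans ?_
      calc ∑ e : Fin p ↪ Fin q, |W (fun j => u s - s (e j))| ≤ ∑ _e : Fin p ↪ Fin q, |CW| := by
            refine Finset.sum_le_sum fun e _ => ?_
            have ht : ∀ j, 0 ≤ (fun j => u s - s (e j)) j := fun j => sub_nonneg.2 (hui s _)
            have hb := hCW _ ht 0 (by norm_num)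
            rw [norm_iteratedFDeriv_zero] at hb
            refine hb.trans ?_
            have he : Real.exp (-(2 * (∑ i, (u s - s (e i))) / R)) ≤ 1 := by
              rw [Real.exp_le_one_iff]
              have : 0 ≤ ∑ i, (u s - s (e i)) := Finset.sum_nonneg fun j _ => ht j
              have : 0 ≤ 2 * (∑ i, (u s - s (e i))) / R := by positivity
              linarith
            calc CW * Real.exp (-(2 * (∑ i, (u s - s (e i))) / R)) ≤
                  |CW| * Real.exp (-(2 * (∑ i, (u s - s (e i))) / R)) :=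
                  mul_le_mul_of_nonneg_right (le_abs_self _) (Real.exp_pos _).le
              _ ≤ |CW| * 1 := mul_le_mul_of_nonneg_left he (abs_nonneg _)
              _ = |CW| := mul_one _
        _ = Fintype.card (Fin p ↪ Fin q) * |CW| := by simp
    · rw [abs_mul, abs_of_nonneg h2]
      exact mul_le_mul_of_nonneg_left (hRb s) h2
  set M : ℝ := (1 / c0) * B with hMdef
  have hM0 : 0 ≤ M := by positivity
  have hZM : ∀ s, |(1 / c0) * Z s| ≤ M := by
    intro s
    rw [abs_mul, abs_of_nonneg (by positivity : 0 ≤ 1 / c0)]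
    exact mul_le_mul_of_nonneg_left (hZb s) (by positivity)
  -- constants
  set K : ℝ := C / lam with hK
  have hK1 : 1 ≤ K := by
    rw [hK, le_div_iff₀ h0]
    linarith
  set N : ℝ := (K + 1) * CR with hN
  have hN1 : 1 ≤ N := by
    rw [hN]
    exact one_le_mul_of_one_le_of_one_le (by linarith) hCR1
  set m : ℝ := 1 + C6 + C6 * ε₃ with hm
  have hm1 : 1 ≤ m := by
    have : 0 ≤ C6 * ε₃ := by positivity
    rw [hm]; linarith
  have hNm : 1 ≤ N * m := one_le_mul_of_one_le_of_one_le hN1 hm1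
  set C₁ : ℝ := N * m + lam * C + 2 * M with hC₁
  have hlC : 0 ≤ lam * C := by positivity
  set ϑ₁ : ℝ := min (ϑ / lam) (min (θ / 4) (1 / (8 * R))) with hϑ₁
  have hϑ₁0 : 0 < ϑ₁ := by
    rw [hϑ₁]
    apply lt_min (by positivity)
    apply lt_min (by positivity) (by positivity)
  have t1 : ϑ₁ ≤ ϑ / lam := min_le_left _ _
  have t2 : ϑ₁ ≤ θ / 4 := (min_le_right _ _).trans (min_le_left _ _)
  have t3 : ϑ₁ ≤ 1 / (8 * R) := (min_le_right _ _).trans (min_le_right _ _)
  refine ⟨M, C₁, ϑ₁, by rw [hC₁]; linarith, hϑ₁0, ⟨?_, ?_, ?_, ?_⟩⟩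
  · -- smooth
    have e : newU p R W ε₃ θ u M = fun s => u s + (1 / c0) * Z s + M := funext (hnew M)
    rw [e]
    have hZs : ContDiff ℝ ∞ Z := by
      rw [hZ]
      refine ((ContDiff.sum fun i _ => ?_).add (contDiff_const.mul (ContDiff.sum fun e _ => ?_))).add
        (contDiff_const.mul (RUN_smooth hq θ))
      · have h5 : ContDiff ℝ ∞ (fun s : Fin q → ℝ => u s - s i) := hus.sub (contDiff_apply ℝ ℝ i)
        exact (F0_smooth R).comp h5
      · rw [contDiff_iff_contDiffAt]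
        intro s
        have h5 : ContDiffAt ℝ ∞ (fun (s : Fin q → ℝ) (j : Fin p) => u s - s (e j)) s := by
          have : ContDiff ℝ ∞ (fun (s : Fin q → ℝ) (j : Fin p) => u s - s (e j)) := by
            rw [contDiff_pi]
            intro j
            exact hus.sub (contDiff_apply ℝ ℝ (e j))
          exact this.contDiffAt
        exact (hM.smooth (fun j => u s - s (e j)) (fun j => sub_nonneg.2 (hui s _))).comp s h5
    exact (hus.add (contDiff_const.mul hZs)).add contDiff_const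
  · -- lower
    intro s
    rw [hnew]
    have h5 := hul s
    have h6 := (abs_le.1 (hZM s)).1
    linarith
  · -- upper
    intro s
    rw [hnew, hC₁]
    have h5 := huu s
    have h6 := (abs_le.1 (hZM s)).2
    linarith
  · -- jets
    intro s ξ η i₀ hi₀ J hJ
    obtain ⟨Ju, hJu, hJuS⟩ := resc_rel hC hU h0 h1 s ξ η i₀ hi₀
    obtain ⟨JR, hJR⟩ := exists_jet_comp (RUN_smooth hq θ) s ξ η
    have hJRS := hRj s ξ η i₀ hi₀ JR hJR
    set A := A0 ϑ₁ s ξ η i₀ with hA
    have hA0 : 0 ≤ A := A0_nonneg _ _ _ _ _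
    have hJuS' : RelSmall Ju (ξ i₀) (η i₀) (K * A) := by
      refine relSmall_mono hJuS (mul_nonneg (by positivity) (A0_nonneg _ _ _ _ _)) ?_
      exact mul_le_mul_of_nonneg_left (A0_mono t1 s ξ η i₀) (by positivity)
    have hJRS' : RelSmall JR 0 0 (CR * A) := by
      refine relSmall_mono hJRS (mul_nonneg (by linarith) (A0_nonneg _ _ _ _ _)) ?_
      exact mul_le_mul_of_nonneg_left (A0_mono t2 s ξ η i₀) (by linarith)
    obtain ⟨a1, a2, a3, a4, a5⟩ := hJuS'
    obtain ⟨b1, b2, b3, b4, b5⟩ := hJRS'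
    simp only [sub_zero] at b1 b2
    set E : ℝ := (K + 1) * A with hE
    have hE0 : 0 ≤ E := by positivity
    have hKE : K * A ≤ E := by rw [hE, add_mul, one_mul]; linarith
    have hKA0 : 0 ≤ K * A := by positivity
    have hwt : ∀ i, Real.exp (-((u s - s i) / (8 * R))) * ‖Ju.a - ξ i‖ ≤ E ∧
        Real.exp (-((u s - s i) / (4 * R))) * ‖Ju.b - η i‖ ≤ E ^ 2 := by
      intro i
      have hd0 : 0 ≤ mx s - s i := sub_nonneg.2 (le_mx s i)
      have hdu : mx s - s i ≤ u s - s i := by linarith [hul s]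
      have hterm := term_le_A0 ϑ₁ s ξ η i₀ i
      rw [← hA] at hterm
      set d := mx s - s i with hd
      set g := Real.exp (-(ϑ₁ * d)) with hg
      have hg0 : 0 < g := Real.exp_pos _
      have hw1 : Real.exp (-((u s - s i) / (8 * R))) ≤ g := by
        rw [hg]
        apply Real.exp_le_exp.2
        have h6 : ϑ₁ * d ≤ 1 / (8 * R) * d := mul_le_mul_of_nonneg_right t3 hd0
        have h7 : 1 / (8 * R) * d ≤ (u s - s i) / (8 * R) := by
          rw [one_div, inv_mul_eq_div]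
          exact div_le_div_of_nonneg_right hdu (by positivity)
        linarith
      have hw2 : Real.exp (-((u s - s i) / (4 * R))) ≤ g ^ 2 := by
        have e1 : Real.exp (-((u s - s i) / (4 * R))) = Real.exp (-((u s - s i) / (8 * R))) ^ 2 := by
          rw [← Real.exp_nat_mul]
          congr 1
          field_simp
          ring
        rw [e1]
        exact pow_le_pow_left₀ (Real.exp_pos _).le hw1 2
      have hone1 : Real.exp (-((u s - s i) / (8 * R))) ≤ 1 := by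
        rw [Real.exp_le_one_iff]
        have : 0 ≤ (u s - s i) / (8 * R) := div_nonneg (by linarith) (by positivity)
        linarith
      have hone2 : Real.exp (-((u s - s i) / (4 * R))) ≤ 1 := by
        rw [Real.exp_le_one_iff]
        have : 0 ≤ (u s - s i) / (4 * R) := div_nonneg (by linarith) (by positivity)
        linarith
      have hp1 := Real.exp_pos (-((u s - s i) / (8 * R)))
      have hp2 := Real.exp_pos (-((u s - s i) / (4 * R)))
      have hx0 := norm_nonneg (ξ i - ξ i₀)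
      have hy0 := Real.sqrt_nonneg ‖η i - η i₀‖
      rw [mul_add] at hterm
      have hgx : g * ‖ξ i - ξ i₀‖ ≤ A := by
        have : 0 ≤ g * Real.sqrt ‖η i - η i₀‖ := by positivity
        linarith
      have hgy : g * Real.sqrt ‖η i - η i₀‖ ≤ A := by
        have : 0 ≤ g * ‖ξ i - ξ i₀‖ := by positivity
        linarith
      constructor
      · have h8 : ‖Ju.a - ξ i‖ ≤ K * A + ‖ξ i - ξ i₀‖ := by
          calc ‖Ju.a - ξ i‖ = ‖(Ju.a - ξ i₀) - (ξ i - ξ i₀)‖ := by congr 1; ring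
            _ ≤ ‖Ju.a - ξ i₀‖ + ‖ξ i - ξ i₀‖ := norm_sub_le _ _
            _ ≤ _ := by linarith
        calc Real.exp (-((u s - s i) / (8 * R))) * ‖Ju.a - ξ i‖ ≤
              Real.exp (-((u s - s i) / (8 * R))) * (K * A + ‖ξ i - ξ i₀‖) :=
              mul_le_mul_of_nonneg_left h8 hp1.le
          _ = Real.exp (-((u s - s i) / (8 * R))) * (K * A) + Real.exp (-((u s - s i) / (8 * R))) * ‖ξ i - ξ i₀‖ := by
              ring
          _ ≤ 1 * (K * A) + g * ‖ξ i - ξ i₀‖ :=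
              add_le_add (mul_le_mul_of_nonneg_right hone1 hKA0) (mul_le_mul_of_nonneg_right hw1 hx0)
          _ ≤ E := by rw [hE]; linarith
      · have h8 : ‖Ju.b - η i‖ ≤ (K * A) ^ 2 + ‖η i - η i₀‖ := by
          calc ‖Ju.b - η i‖ = ‖(Ju.b - η i₀) - (η i - η i₀)‖ := by congr 1; ring
            _ ≤ ‖Ju.b - η i₀‖ + ‖η i - η i₀‖ := norm_sub_le _ _
            _ ≤ _ := by linarith
        have h9 : g ^ 2 * ‖η i - η i₀‖ ≤ A ^ 2 := by
          have e1 : g ^ 2 * ‖η i - η i₀‖ = (g * Real.sqrt ‖η i - η i₀‖) ^ 2 := by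
            rw [mul_pow, Real.sq_sqrt (norm_nonneg _)]
          rw [e1]
          exact pow_le_pow_left₀ (by positivity) hgy 2
        calc Real.exp (-((u s - s i) / (4 * R))) * ‖Ju.b - η i‖ ≤
              Real.exp (-((u s - s i) / (4 * R))) * ((K * A) ^ 2 + ‖η i - η i₀‖) :=
              mul_le_mul_of_nonneg_left h8 hp2.le
          _ = Real.exp (-((u s - s i) / (4 * R))) * (K * A) ^ 2 +
              Real.exp (-((u s - s i) / (4 * R))) * ‖η i - η i₀‖ := by ring
          _ ≤ 1 * (K * A) ^ 2 + g ^ 2 * ‖η i - η i₀‖ :=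
              add_le_add (mul_le_mul_of_nonneg_right hone2 (by positivity))
                (mul_le_mul_of_nonneg_right hw2 (norm_nonneg _))
          _ ≤ (K * A) ^ 2 + A ^ 2 := by linarith
          _ ≤ E ^ 2 := by
              have e9 : E ^ 2 = (K * A) ^ 2 + A ^ 2 + 2 * (K * A * A) := by rw [hE]; ring
              have : 0 ≤ K * A * A := by positivity
              rw [e9]
              linarith
    have hmain := (hC6 ε₃ θ M u s ξ η Ju JR J (hui s) hJu hJR hJ).2 E hE0 hwt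
      (a3.trans (pow_le_pow_left₀ hKA0 hKE 2)) (a4.trans (pow_le_pow_left₀ hKA0 hKE 3))
    obtain ⟨d1, d2, d3, d4, d5⟩ := hmain
    have d5' := d5 (a5.trans (pow_le_pow_left₀ hKA0 hKE 4))
    rw [abs_of_nonneg h2] at d1 d2 d3 d4 d5'
    -- general comparison
    have hCE : 0 ≤ C6 * ε₃ := by positivity
    have hcmp : ∀ k : ℕ, 1 ≤ k → (K * A) ^ k + (C6 * E ^ k + C6 * ε₃ * (CR * A) ^ k) ≤ (C₁ * A) ^ k := by
      intro k hk
      have hKN' : K + 1 ≤ N := by
        rw [hN]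
        exact le_mul_of_one_le_right (by linarith) hCR1
      have hRN' : CR ≤ N := by
        rw [hN]
        exact le_mul_of_one_le_left (by linarith) (by linarith)
      have hKN : K * A ≤ N * A := mul_le_mul_of_nonneg_right (by linarith) hA0
      have hEN : E ≤ N * A := by
        rw [hE]
        exact mul_le_mul_of_nonneg_right hKN' hA0
      have hRN : CR * A ≤ N * A := mul_le_mul_of_nonneg_right hRN' hA0
      have hNA0 : 0 ≤ N * A := by positivity
      have g1 : (K * A) ^ k ≤ (N * A) ^ k := pow_le_pow_left₀ hKA0 hKN k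
      have g2 : E ^ k ≤ (N * A) ^ k := pow_le_pow_left₀ hE0 hEN k
      have g3 : (CR * A) ^ k ≤ (N * A) ^ k := pow_le_pow_left₀ (by positivity) hRN k
      have g4 : m ≤ m ^ k := le_self_pow₀ hm1 (by omega)
      have g5 : 0 ≤ (N * A) ^ k := by positivity
      have g6 : N * m ≤ C₁ := by rw [hC₁]; linarith
      calc (K * A) ^ k + (C6 * E ^ k + C6 * ε₃ * (CR * A) ^ k) ≤
            (N * A) ^ k + (C6 * (N * A) ^ k + C6 * ε₃ * (N * A) ^ k) := by gcongr
        _ = m * (N * A) ^ k := by rw [hm]; ring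
        _ ≤ m ^ k * (N * A) ^ k := mul_le_mul_of_nonneg_right g4 g5
        _ = (N * m * A) ^ k := by rw [← mul_pow]; ring
        _ ≤ (C₁ * A) ^ k := pow_le_pow_left₀ (by positivity) (mul_le_mul_of_nonneg_right g6 hA0) k
    refine ⟨?_, ?_, ?_, ?_, ?_⟩
    · have h5 := hcmp 1 le_rfl
      rw [pow_one, pow_one, pow_one, pow_one] at h5
      have h6 : C6 * ε₃ * ‖JR.a‖ ≤ C6 * ε₃ * (CR * A) := mul_le_mul_of_nonneg_left b1 hCE
      calc ‖J.a - ξ i₀‖ = ‖(Ju.a - ξ i₀) + (J.a - Ju.a)‖ := by congr 1; ring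
        _ ≤ ‖Ju.a - ξ i₀‖ + ‖J.a - Ju.a‖ := norm_add_le _ _
        _ ≤ _ := by linarith
    · have h5 := hcmp 2 (by norm_num)
      have h6 : C6 * ε₃ * ‖JR.b‖ ≤ C6 * ε₃ * (CR * A) ^ 2 := mul_le_mul_of_nonneg_left b2 hCE
      calc ‖J.b - η i₀‖ = ‖(Ju.b - η i₀) + (J.b - Ju.b)‖ := by congr 1; ring
        _ ≤ ‖Ju.b - η i₀‖ + ‖J.b - Ju.b‖ := norm_add_le _ _
        _ ≤ _ := by linarith
    · have h5 := hcmp 2 (by norm_num)
      have h6 : C6 * ε₃ * |JR.h| ≤ C6 * ε₃ * (CR * A) ^ 2 := mul_le_mul_of_nonneg_left b3 hCE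
      calc |J.h| = |Ju.h + (J.h - Ju.h)| := by congr 1; ring
        _ ≤ |Ju.h| + |J.h - Ju.h| := abs_add_le _ _
        _ ≤ _ := by linarith
    · have h5 := hcmp 3 (by norm_num)
      have h6 : C6 * ε₃ * ‖JR.k‖ ≤ C6 * ε₃ * (CR * A) ^ 3 := mul_le_mul_of_nonneg_left b4 hCE
      calc ‖J.k‖ = ‖Ju.k + (J.k - Ju.k)‖ := by congr 1; ring
        _ ≤ ‖Ju.k‖ + ‖J.k - Ju.k‖ := norm_add_le _ _
        _ ≤ _ := by linarith
    · have h5 := hcmp 4 (by norm_num)
      have h6 : C6 * ε₃ * |JR.Q| ≤ C6 * ε₃ * (CR * A) ^ 4 := mul_le_mul_of_nonneg_left b5 hCE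
      calc |J.Q| = |Ju.Q + (J.Q - Ju.Q)| := by congr 1; ring
        _ ≤ |Ju.Q| + |J.Q - Ju.Q| := abs_add_le _ _
        _ ≤ _ := by linarith

end

end Pool.Agent.H789.HSC
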