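import Pool.Agent.H789.HSC.NewU0
import Pool.Agent.H789.HSC.NewUJets
import Pool.Agent.H789.HSC.NewUBdd
import Pool.Agent.H789.HSC.LseTasks
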