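import Pool.Agent.H789.HSC.Model

/-! Definitions for the recursion. -/

open scoped BigOperators ContDiff ComplexConjugate

namespace Pool.Agent.H789.HSC

noncomputable section

variable {q : ℕ}

/-- maximum of the coordinates -/
def mx (s : Fin q → ℝ) : ℝ := ⨆ i, s i

/-- weighted size of `(ξ, η)` relative to the coordinate `i₀` -/
def A0 (ϑ : ℝ) (s : Fin q → ℝ) (ξ η : Fin q → ℂ) (i₀ : Fin q) : ℝ :=
  ∑ i, Real.exp (-(ϑ * (mx s - s i))) * (‖ξ i - ξ i₀‖ + Real.sqrt ‖η i - η i₀‖)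

/-- the jet `J` is small of size `A` relative to the pluriharmonic jet `(·; x, y)` -/
def RelSmall (J : Jet) (x y : ℂ) (A : ℝ) : Prop :=
  ‖J.a - x‖ ≤ A ∧ ‖J.b - y‖ ≤ A ^ 2 ∧ |J.h| ≤ A ^ 2 ∧ ‖J.k‖ ≤ A ^ 3 ∧ |J.Q| ≤ A ^ 4

/-- log-sum-exp -/
def lse (s : Fin q → ℝ) : ℝ := Real.log (∑ i, Real.exp (s i))

/-- the auxiliary function `∑ (e^{-θ (lse - s_i)} + e^{-2 θ (lse - s_i)} / 4)` -/
def RUN (θ : ℝ) (s : Fin q → ℝ) : ℝ :=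
  ∑ i, (Real.exp (-(θ * (lse s - s i))) + Real.exp (-(2 * (θ * (lse s - s i)))) / 4)

/-- number of coordinates within `T` of the maximum -/
def tops (s : Fin q → ℝ) (T : ℝ) : Finset (Fin q) := Finset.univ.filter fun i => mx s - s i ≤ T

/-- coordinates at depth at least `R` -/
def deep (s : Fin q → ℝ) (R : ℝ) : Finset (Fin q) := Finset.univ.filter fun i => R ≤ mx s - s i

/-- global bounds -/
structure Bdd (U : (Fin q → ℝ) → ℝ) (C ϑ : ℝ) : Prop where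
  smooth : ContDiff ℝ ∞ U
  lower : ∀ s, mx s ≤ U s
  upper : ∀ s, U s ≤ mx s + C
  jets : ∀ (s : Fin q → ℝ) (ξ η : Fin q → ℂ) (i₀ : Fin q), s i₀ = mx s → ∀ J : Jet,
    HasJet (fun ζ => U (hpath s ξ η ζ)) J → RelSmall J (ξ i₀) (η i₀) (C * A0 ϑ s ξ η i₀)

/-- `U` is good at `s` (with constants `T, C`) -/
def GoodAt (U : (Fin q → ℝ) → ℝ) (T C : ℝ) (s : Fin q → ℝ) : Prop :=
  ∀ (ξ η : Fin q → ℂ) (J : Jet), HasJet (fun ζ => U (hpath s ξ η ζ)) J →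
    ∃ A : ℝ, 0 ≤ A ∧ A ^ 4 ≤ J.Q ∧ |J.h| ≤ C * A ^ 2 ∧ ‖J.k‖ ≤ C * A ^ 3 ∧
      ∀ i ∈ tops s T, ‖J.a - ξ i‖ ≤ C * A ∧ ‖J.b - η i‖ ≤ C * A ^ 2

/-- level `k` statement; `m = n - k` is the number of deep coordinates that are required -/
def Level (n q m : ℕ) : Prop :=
  ∃ (U : (Fin q → ℝ) → ℝ) (C ϑ T R : ℝ), 1 ≤ C ∧ 0 < ϑ ∧ 0 < T ∧ 0 < R ∧ Bdd U C ϑ ∧
    ∀ s : Fin q → ℝ, n + 1 ≤ (tops s T).card → m ≤ (deep s R).card → GoodAt U T C s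

end

end Pool.Agent.H789.HSC
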