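import Pool.Agent.H789.HSC.NewU0

/-! Elementary facts for the recursion step. -/

open scoped BigOperators ContDiff ComplexConjugate

namespace Pool.Agent.H789.HSC

noncomputable section

namespace Stp

variable {q : ℕ}

theorem le_mx (s : Fin q → ℝ) (i : Fin q) : s i ≤ mx s :=
  le_ciSup (Set.finite_range s).bddAbove i

theorem exists_mx (hq : 1 ≤ q) (s : Fin q → ℝ) : ∃ i, s i = mx s := by
  haveI : Nonempty (Fin q) := ⟨⟨0, hq⟩⟩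
  obtain ⟨i, hi⟩ := exists_eq_ciSup_of_finite (f := s)
  exact ⟨i, hi⟩

theorem mx_div (hq : 1 ≤ q) {lam : ℝ} (h : 0 < lam) (s : Fin q → ℝ) :
    mx (fun i => s i / lam) = mx s / lam := by
  haveI : Nonempty (Fin q) := ⟨⟨0, hq⟩⟩
  apply le_antisymm
  · exact ciSup_le fun i => div_le_div_of_nonneg_right (le_mx s i) h.le
  · obtain ⟨i, hi⟩ := exists_mx hq s
    rw [← hi]
    exact le_mx (fun i => s i / lam) i

theorem tops_div (hq : 1 ≤ q) {lam : ℝ} (h : 0 < lam) (s : Fin q → ℝ) (T : ℝ) :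
    tops (fun i => s i / lam) T = tops s (lam * T) := by
  unfold tops
  ext i
  simp only [Finset.mem_filter, Finset.mem_univ, true_and]
  rw [mx_div hq h, ← sub_div, div_le_iff₀ h, mul_comm T]

theorem mem_deep_div (hq : 1 ≤ q) {lam : ℝ} (h : 0 < lam) (s : Fin q → ℝ) (R : ℝ) (i : Fin q) :
    i ∈ deep (fun i => s i / lam) R ↔ lam * R ≤ mx s - s i := by
  unfold deep
  simp only [Finset.mem_filter, Finset.mem_univ, true_and]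
  rw [mx_div hq h, ← sub_div, le_div_iff₀ h, mul_comm R]

theorem mem_tops (s : Fin q → ℝ) (T : ℝ) (i : Fin q) : i ∈ tops s T ↔ mx s - s i ≤ T := by
  simp [tops]

theorem mem_deep (s : Fin q → ℝ) (R : ℝ) (i : Fin q) : i ∈ deep s R ↔ R ≤ mx s - s i := by
  simp [deep]

/-! ### the quantity `P` -/

/-- fourth power of `P` -/
def P4 (θ : ℝ) (s : Fin q → ℝ) (ξ η : Fin q → ℂ) (i₀ : Fin q) : ℝ :=
  ∑ i, Real.exp (-(2 * θ * (mx s - s i))) * (‖ξ i - ξ i₀‖ ^ 4 + ‖η i - η i₀‖ ^ 2)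

theorem P4_nonneg (θ : ℝ) (s : Fin q → ℝ) (ξ η : Fin q → ℂ) (i₀ : Fin q) :
    0 ≤ P4 θ s ξ η i₀ := Finset.sum_nonneg fun i _ => by positivity

theorem exists_root4 {x : ℝ} (hx : 0 ≤ x) : ∃ y : ℝ, 0 ≤ y ∧ y ^ 4 = x := by
  refine ⟨Real.sqrt (Real.sqrt x), Real.sqrt_nonneg _, ?_⟩
  have h1 : Real.sqrt (Real.sqrt x) ^ 4 = (Real.sqrt (Real.sqrt x) ^ 2) ^ 2 := by ring
  rw [h1, Real.sq_sqrt (Real.sqrt_nonneg _), Real.sq_sqrt hx]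

theorem le_of_pow4 {x y : ℝ} (hy : 0 ≤ y) (h : x ^ 4 ≤ y ^ 4) : x ≤ y := by
  by_contra hc
  push Not at hc
  have : y ^ 4 < x ^ 4 := pow_lt_pow_left₀ hc hy (by norm_num)
  linarith

theorem P_xi {θ : ℝ} {s : Fin q → ℝ} {ξ η : Fin q → ℂ} {i₀ : Fin q} {P : ℝ} (hP : 0 ≤ P)
    (h : P ^ 4 = P4 θ s ξ η i₀) (i : Fin q) :
    Real.exp (-(θ / 2 * (mx s - s i))) * ‖ξ i - ξ i₀‖ ≤ P := by
  apply le_of_pow4 hP
  rw [h, mul_pow, ← Real.exp_nat_mul]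
  have h1 : Real.exp (-(2 * θ * (mx s - s i))) * (‖ξ i - ξ i₀‖ ^ 4 + ‖η i - η i₀‖ ^ 2)
      ≤ P4 θ s ξ η i₀ := by
    unfold P4
    exact Finset.single_le_sum (f := fun i => Real.exp (-(2 * θ * (mx s - s i))) *
      (‖ξ i - ξ i₀‖ ^ 4 + ‖η i - η i₀‖ ^ 2)) (fun i _ => by positivity) (Finset.mem_univ i)
  have h2 : ((4 : ℕ) : ℝ) * -(θ / 2 * (mx s - s i)) = -(2 * θ * (mx s - s i)) := by
    push_cast; ring
  rw [h2]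
  have h3 : Real.exp (-(2 * θ * (mx s - s i))) * ‖ξ i - ξ i₀‖ ^ 4 ≤
      Real.exp (-(2 * θ * (mx s - s i))) * (‖ξ i - ξ i₀‖ ^ 4 + ‖η i - η i₀‖ ^ 2) := by
    apply mul_le_mul_of_nonneg_left _ (Real.exp_pos _).le
    have : 0 ≤ ‖η i - η i₀‖ ^ 2 := by positivity
    linarith
  linarith

theorem P_eta {θ : ℝ} {s : Fin q → ℝ} {ξ η : Fin q → ℂ} {i₀ : Fin q} {P : ℝ}
    (h : P ^ 4 = P4 θ s ξ η i₀) (i : Fin q) :
    Real.exp (-(θ * (mx s - s i))) * ‖η i - η i₀‖ ≤ P ^ 2 := by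
  apply le_of_sq_le_sq _ (by positivity)
  have h0 : (P ^ 2) ^ 2 = P ^ 4 := by ring
  rw [h0, h, mul_pow, ← Real.exp_nat_mul]
  have h1 : Real.exp (-(2 * θ * (mx s - s i))) * (‖ξ i - ξ i₀‖ ^ 4 + ‖η i - η i₀‖ ^ 2)
      ≤ P4 θ s ξ η i₀ := by
    unfold P4
    exact Finset.single_le_sum (f := fun i => Real.exp (-(2 * θ * (mx s - s i))) *
      (‖ξ i - ξ i₀‖ ^ 4 + ‖η i - η i₀‖ ^ 2)) (fun i _ => by positivity) (Finset.mem_univ i)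
  have h2 : ((2 : ℕ) : ℝ) * -(θ * (mx s - s i)) = -(2 * θ * (mx s - s i)) := by
    push_cast; ring
  rw [h2]
  have h3 : Real.exp (-(2 * θ * (mx s - s i))) * ‖η i - η i₀‖ ^ 2 ≤
      Real.exp (-(2 * θ * (mx s - s i))) * (‖ξ i - ξ i₀‖ ^ 4 + ‖η i - η i₀‖ ^ 2) := by
    apply mul_le_mul_of_nonneg_left _ (Real.exp_pos _).le
    have : 0 ≤ ‖ξ i - ξ i₀‖ ^ 4 := by positivity
    linarith
  linarith

theorem exp_mono {x y : ℝ} (h : x ≤ y) : Real.exp x ≤ Real.exp y := Real.exp_le_exp.2 h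

/-- `A0 (1/4)` in terms of `P` -/
theorem A0_le_P {θ : ℝ} (hθ : θ ≤ 1 / 8) {s : Fin q → ℝ} {ξ η : Fin q → ℂ} {i₀ : Fin q} {P : ℝ}
    (hP : 0 ≤ P) (h : P ^ 4 = P4 θ s ξ η i₀) :
    A0 (1 / 4) s ξ η i₀ ≤ 2 * q * P := by
  have h1 : ∀ i : Fin q, Real.exp (-(1 / 4 * (mx s - s i))) *
      (‖ξ i - ξ i₀‖ + Real.sqrt ‖η i - η i₀‖) ≤ 2 * P := by
    intro i
    have hd : 0 ≤ mx s - s i := sub_nonneg.2 (le_mx s i)
    have a1 : Real.exp (-(1 / 4 * (mx s - s i))) * ‖ξ i - ξ i₀‖ ≤ P := by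
      refine le_trans ?_ (P_xi hP h i)
      apply mul_le_mul_of_nonneg_right _ (norm_nonneg _)
      apply exp_mono
      nlinarith
    have a2 : Real.exp (-(1 / 4 * (mx s - s i))) * Real.sqrt ‖η i - η i₀‖ ≤ P := by
      apply le_of_sq_le_sq _ hP
      rw [mul_pow, Real.sq_sqrt (norm_nonneg _), ← Real.exp_nat_mul]
      refine le_trans ?_ (P_eta h i)
      apply mul_le_mul_of_nonneg_right _ (norm_nonneg _)
      apply exp_mono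
      push_cast
      nlinarith
    nlinarith
  unfold A0
  calc _ ≤ ∑ i : Fin q, 2 * P := Finset.sum_le_sum fun i _ => h1 i
    _ = 2 * q * P := by simp; ring

theorem add_pow4_le {a b : ℝ} : (a + b) ^ 4 ≤ 8 * (a ^ 4 + b ^ 4) := by
  nlinarith [sq_nonneg (a - b), sq_nonneg (a + b), sq_nonneg (a ^ 2 - b ^ 2),
    sq_nonneg (a * b), mul_nonneg (sq_nonneg (a - b)) (sq_nonneg (a - b)),
    mul_nonneg (sq_nonneg (a - b)) (sq_nonneg (a + b)), mul_nonneg (sq_nonneg a) (sq_nonneg b)]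

theorem A0_pow4_le (hq : 1 ≤ q) (s : Fin q → ℝ) (ξ η : Fin q → ℂ) (i₀ : Fin q) :
    A0 (1 / 4) s ξ η i₀ ^ 4 ≤ 8 * (q : ℝ) ^ 3 *
      ∑ i, Real.exp (-(mx s - s i)) * (‖ξ i - ξ i₀‖ ^ 4 + ‖η i - η i₀‖ ^ 2) := by
  unfold A0
  have h1 := pow_sum_le_card_mul_sum_pow (s := (Finset.univ : Finset (Fin q)))
    (f := fun i => Real.exp (-(1 / 4 * (mx s - s i))) * (‖ξ i - ξ i₀‖ + Real.sqrt ‖η i - η i₀‖))
    (fun i _ => by positivity) 3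
  simp only [Finset.card_univ, Fintype.card_fin] at h1
  refine h1.trans ?_
  have h2 : ∑ i : Fin q, (Real.exp (-(1 / 4 * (mx s - s i))) *
      (‖ξ i - ξ i₀‖ + Real.sqrt ‖η i - η i₀‖)) ^ (3 + 1) ≤
      8 * ∑ i, Real.exp (-(mx s - s i)) * (‖ξ i - ξ i₀‖ ^ 4 + ‖η i - η i₀‖ ^ 2) := by
    rw [Finset.mul_sum]
    apply Finset.sum_le_sum
    intro i _
    rw [mul_pow, ← Real.exp_nat_mul]
    have e1 : ((3 + 1 : ℕ) : ℝ) * -(1 / 4 * (mx s - s i)) = -(mx s - s i) := by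
      push_cast; ring
    rw [e1]
    have e2 : (‖ξ i - ξ i₀‖ + Real.sqrt ‖η i - η i₀‖) ^ (3 + 1) ≤
        8 * (‖ξ i - ξ i₀‖ ^ 4 + ‖η i - η i₀‖ ^ 2) := by
      have := @add_pow4_le ‖ξ i - ξ i₀‖ (Real.sqrt ‖η i - η i₀‖)
      have e3 : Real.sqrt ‖η i - η i₀‖ ^ 4 = ‖η i - η i₀‖ ^ 2 := by
        have : Real.sqrt ‖η i - η i₀‖ ^ 4 = (Real.sqrt ‖η i - η i₀‖ ^ 2) ^ 2 := by ring
        rw [this, Real.sq_sqrt (norm_nonneg _)]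
      rw [e3] at this
      exact this
    have := mul_le_mul_of_nonneg_left e2 (Real.exp_pos (-(mx s - s i))).le
    linarith
  have h3 : (0 : ℝ) ≤ (q : ℝ) ^ 3 := by positivity
  calc (q : ℝ) ^ 3 * ∑ i : Fin q, (Real.exp (-(1 / 4 * (mx s - s i))) *
      (‖ξ i - ξ i₀‖ + Real.sqrt ‖η i - η i₀‖)) ^ (3 + 1)
      ≤ (q : ℝ) ^ 3 * (8 * ∑ i, Real.exp (-(mx s - s i)) *
        (‖ξ i - ξ i₀‖ ^ 4 + ‖η i - η i₀‖ ^ 2)) := mul_le_mul_of_nonneg_left h2 h3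
    _ = _ := by ring

theorem pow4_sub_le {a b : ℂ} : ‖a - b‖ ^ 4 ≤ 8 * (‖a‖ ^ 4 + ‖b‖ ^ 4) := by
  have h1 : ‖a - b‖ ≤ ‖a‖ + ‖b‖ := norm_sub_le a b
  have h2 : ‖a - b‖ ^ 4 ≤ (‖a‖ + ‖b‖) ^ 4 := pow_le_pow_left₀ (norm_nonneg _) h1 4
  exact h2.trans add_pow4_le

theorem sq_sub_le {a b : ℂ} : ‖a - b‖ ^ 2 ≤ 2 * (‖a‖ ^ 2 + ‖b‖ ^ 2) := by
  have h1 : ‖a - b‖ ≤ ‖a‖ + ‖b‖ := norm_sub_le a b
  have h2 : ‖a - b‖ ^ 2 ≤ (‖a‖ + ‖b‖) ^ 2 := pow_le_pow_left₀ (norm_nonneg _) h1 2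
  nlinarith [sq_nonneg (‖a‖ - ‖b‖)]

/-- bound of `A0^4` in case B -/
theorem A4_caseB (hq : 1 ≤ q) {s : Fin q → ℝ} {ξ η τ σ : Fin q → ℂ} {i₀ : Fin q} {t : Fin q → ℝ}
    {I : Finset (Fin q)} {lam B C R : ℝ} (h0 : 0 ≤ lam) (h1 : lam ≤ 1) (hB : 0 ≤ B) (hC : 0 ≤ C)
    (hR : 2 ≤ R) (hξ : ∀ i, ξ i - ξ i₀ = τ i₀ - τ i) (hη : ∀ i, η i - η i₀ = σ i₀ - σ i)
    (ht : ∀ i, t i ≤ (mx s - s i) + C) (hi₀ : i₀ ∈ I)
    (hI : ∀ i ∈ I, ‖τ i‖ ≤ lam * B ∧ ‖σ i‖ ≤ lam * B ^ 2) :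
    A0 (1 / 4) s ξ η i₀ ^ 4 ≤ 256 * (q : ℝ) ^ 4 * Real.exp C * (lam ^ 2 * B ^ 4 +
      ∑ i ∈ Iᶜ, Real.exp (-(2 * t i / R)) * (‖τ i‖ ^ 4 + ‖σ i‖ ^ 2)) := by
  set S := ∑ i ∈ Iᶜ, Real.exp (-(2 * t i / R)) * (‖τ i‖ ^ 4 + ‖σ i‖ ^ 2) with hS
  have hS0 : 0 ≤ S := Finset.sum_nonneg fun i _ => by positivity
  have heC : 1 ≤ Real.exp C := Real.one_le_exp hC
  have hlam : ∀ i ∈ I, ‖τ i‖ ^ 4 ≤ lam ^ 2 * B ^ 4 ∧ ‖σ i‖ ^ 2 ≤ lam ^ 2 * B ^ 4 := by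
    intro i hi
    obtain ⟨a1, a2⟩ := hI i hi
    constructor
    · calc ‖τ i‖ ^ 4 ≤ (lam * B) ^ 4 := pow_le_pow_left₀ (norm_nonneg _) a1 4
        _ = lam ^ 2 * (lam ^ 2 * B ^ 4) := by ring
        _ ≤ 1 * (lam ^ 2 * B ^ 4) := by
            apply mul_le_mul_of_nonneg_right _ (by positivity)
            nlinarith
        _ = _ := by ring
    · calc ‖σ i‖ ^ 2 ≤ (lam * B ^ 2) ^ 2 := pow_le_pow_left₀ (norm_nonneg _) a2 2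
        _ = _ := by ring
  have key : ∀ i, Real.exp (-(mx s - s i)) * (‖ξ i - ξ i₀‖ ^ 4 + ‖η i - η i₀‖ ^ 2) ≤
      32 * (lam ^ 2 * B ^ 4) + (if i ∈ Iᶜ then 8 * Real.exp C *
        (Real.exp (-(2 * t i / R)) * (‖τ i‖ ^ 4 + ‖σ i‖ ^ 2)) else 0) := by
    intro i
    have hd : 0 ≤ mx s - s i := sub_nonneg.2 (le_mx s i)
    have b1 : ‖ξ i - ξ i₀‖ ^ 4 + ‖η i - η i₀‖ ^ 2 ≤
        16 * (lam ^ 2 * B ^ 4) + 8 * (‖τ i‖ ^ 4 + ‖σ i‖ ^ 2) := by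
      rw [hξ, hη]
      have c1 := @pow4_sub_le (τ i₀) (τ i)
      have c2 := @sq_sub_le (σ i₀) (σ i)
      obtain ⟨c3, c4⟩ := hlam i₀ hi₀
      have c5 : 0 ≤ ‖σ i‖ ^ 2 := by positivity
      have c6 : 0 ≤ ‖σ i₀‖ ^ 2 := by positivity
      have c7 : 0 ≤ lam ^ 2 * B ^ 4 := by positivity
      linarith
    have he : Real.exp (-(mx s - s i)) ≤ 1 := Real.exp_le_one_iff.2 (by linarith)
    by_cases hi : i ∈ I
    · have : i ∉ Iᶜ := by simpa using hi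
      rw [if_neg this]
      obtain ⟨c3, c4⟩ := hlam i hi
      have b2 : ‖ξ i - ξ i₀‖ ^ 4 + ‖η i - η i₀‖ ^ 2 ≤ 32 * (lam ^ 2 * B ^ 4) := by linarith
      have b3 : 0 ≤ ‖ξ i - ξ i₀‖ ^ 4 + ‖η i - η i₀‖ ^ 2 := by positivity
      have := mul_le_mul_of_nonneg_right he b3
      linarith
    · have hi' : i ∈ Iᶜ := by simpa using hi
      rw [if_pos hi']
      have b2 : Real.exp (-(mx s - s i)) ≤ Real.exp C * Real.exp (-(2 * t i / R)) := by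
        rw [← Real.exp_add]
        apply exp_mono
        have c1 : 2 * t i / R ≤ 2 * ((mx s - s i) + C) / R := by
          apply div_le_div_of_nonneg_right _ (by linarith)
          linarith [ht i]
        have c2 : 2 * ((mx s - s i) + C) / R ≤ (mx s - s i) + C := by
          rw [div_le_iff₀ (by linarith)]
          nlinarith
        linarith
      have b3 : 0 ≤ ‖τ i‖ ^ 4 + ‖σ i‖ ^ 2 := by positivity
      have b4 : 0 ≤ 16 * (lam ^ 2 * B ^ 4) := by positivity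
      calc Real.exp (-(mx s - s i)) * (‖ξ i - ξ i₀‖ ^ 4 + ‖η i - η i₀‖ ^ 2)
          ≤ Real.exp (-(mx s - s i)) * (16 * (lam ^ 2 * B ^ 4) + 8 * (‖τ i‖ ^ 4 + ‖σ i‖ ^ 2)) :=
            mul_le_mul_of_nonneg_left b1 (Real.exp_pos _).le
        _ = Real.exp (-(mx s - s i)) * (16 * (lam ^ 2 * B ^ 4)) +
            8 * (Real.exp (-(mx s - s i)) * (‖τ i‖ ^ 4 + ‖σ i‖ ^ 2)) := by ring
        _ ≤ 1 * (16 * (lam ^ 2 * B ^ 4)) +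
            8 * (Real.exp C * Real.exp (-(2 * t i / R)) * (‖τ i‖ ^ 4 + ‖σ i‖ ^ 2)) := by
            gcongr
        _ ≤ _ := by nlinarith
  have hsum : ∑ i, Real.exp (-(mx s - s i)) * (‖ξ i - ξ i₀‖ ^ 4 + ‖η i - η i₀‖ ^ 2) ≤
      (q : ℝ) * (32 * (lam ^ 2 * B ^ 4)) + 8 * Real.exp C * S := by
    calc _ ≤ ∑ i : Fin q, (32 * (lam ^ 2 * B ^ 4) + (if i ∈ Iᶜ then 8 * Real.exp C *
        (Real.exp (-(2 * t i / R)) * (‖τ i‖ ^ 4 + ‖σ i‖ ^ 2)) else 0)) :=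
          Finset.sum_le_sum fun i _ => key i
      _ = _ := by
        rw [Finset.sum_add_distrib, Finset.sum_const, Finset.card_univ, Fintype.card_fin,
          nsmul_eq_mul, Finset.sum_ite_mem, Finset.univ_inter, ← Finset.mul_sum]
  have hq' : (1 : ℝ) ≤ q := by exact_mod_cast hq
  refine (A0_pow4_le hq s ξ η i₀).trans ?_
  calc 8 * (q : ℝ) ^ 3 *
      ∑ i, Real.exp (-(mx s - s i)) * (‖ξ i - ξ i₀‖ ^ 4 + ‖η i - η i₀‖ ^ 2)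
      ≤ 8 * (q : ℝ) ^ 3 * ((q : ℝ) * (32 * (lam ^ 2 * B ^ 4)) + 8 * Real.exp C * S) :=
        mul_le_mul_of_nonneg_left hsum (by positivity)
    _ = 256 * (q : ℝ) ^ 4 * (lam ^ 2 * B ^ 4) + 64 * (q : ℝ) ^ 3 * (Real.exp C * S) := by ring
    _ ≤ 256 * (q : ℝ) ^ 4 * (Real.exp C * (lam ^ 2 * B ^ 4)) +
        256 * (q : ℝ) ^ 4 * (Real.exp C * S) := by
        have e1 : lam ^ 2 * B ^ 4 ≤ Real.exp C * (lam ^ 2 * B ^ 4) := by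
          have : 0 ≤ lam ^ 2 * B ^ 4 := by positivity
          nlinarith
        have e2 : (q : ℝ) ^ 3 ≤ (q : ℝ) ^ 4 := pow_le_pow_right₀ hq' (by norm_num)
        have e3 : 0 ≤ Real.exp C * S := by positivity
        have e4 : (0 : ℝ) ≤ (q : ℝ) ^ 4 := by positivity
        have e5 : 64 * (q : ℝ) ^ 3 * (Real.exp C * S) ≤ 256 * (q : ℝ) ^ 4 * (Real.exp C * S) := by
          apply mul_le_mul_of_nonneg_right _ e3
          linarith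
        have e6 := mul_le_mul_of_nonneg_left e1 (by positivity : (0 : ℝ) ≤ 256 * (q : ℝ) ^ 4)
        linarith
    _ = _ := by ring

/-- bound of `A0^4` in case A -/
theorem A4_caseA (hq : 1 ≤ q) {θ : ℝ} (hθ0 : 0 < θ) (hθ : θ ≤ 1 / 8) {s : Fin q → ℝ}
    {ξ η : Fin q → ℂ} {i₀ : Fin q} {D : Finset (Fin q)} {X Y R₂ : ℝ}
    (hX : ∀ i, i ∉ D → ‖ξ i - ξ i₀‖ ≤ X) (hY : ∀ i, i ∉ D → ‖η i - η i₀‖ ≤ Y)
    (hD : ∀ i ∈ D, R₂ ≤ mx s - s i) (hR₂ : 0 ≤ R₂) :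
    A0 (1 / 4) s ξ η i₀ ^ 4 ≤ 8 * (q : ℝ) ^ 4 * (X ^ 4 + Y ^ 2) +
      8 * (q : ℝ) ^ 3 * (Real.exp (-(R₂ / 2)) * P4 θ s ξ η i₀) := by
  have key : ∀ i, Real.exp (-(mx s - s i)) * (‖ξ i - ξ i₀‖ ^ 4 + ‖η i - η i₀‖ ^ 2) ≤
      (X ^ 4 + Y ^ 2) + Real.exp (-(R₂ / 2)) * (Real.exp (-(2 * θ * (mx s - s i))) *
        (‖ξ i - ξ i₀‖ ^ 4 + ‖η i - η i₀‖ ^ 2)) := by
    intro i
    have hd : 0 ≤ mx s - s i := sub_nonneg.2 (le_mx s i)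
    have he : Real.exp (-(mx s - s i)) ≤ 1 := Real.exp_le_one_iff.2 (by linarith)
    have b3 : 0 ≤ ‖ξ i - ξ i₀‖ ^ 4 + ‖η i - η i₀‖ ^ 2 := by positivity
    by_cases hi : i ∈ D
    · have b1 : Real.exp (-(mx s - s i)) ≤ Real.exp (-(R₂ / 2)) *
          Real.exp (-(2 * θ * (mx s - s i))) := by
        rw [← Real.exp_add]
        apply exp_mono
        have := hD i hi
        nlinarith
      have b2 := mul_le_mul_of_nonneg_right b1 b3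
      have b4 : 0 ≤ X ^ 4 + Y ^ 2 := by positivity
      linarith
    · have b1 : ‖ξ i - ξ i₀‖ ^ 4 ≤ X ^ 4 := pow_le_pow_left₀ (norm_nonneg _) (hX i hi) 4
      have b2 : ‖η i - η i₀‖ ^ 2 ≤ Y ^ 2 := pow_le_pow_left₀ (norm_nonneg _) (hY i hi) 2
      have b4 : 0 ≤ Real.exp (-(R₂ / 2)) * (Real.exp (-(2 * θ * (mx s - s i))) *
        (‖ξ i - ξ i₀‖ ^ 4 + ‖η i - η i₀‖ ^ 2)) := by positivity
      have := mul_le_mul_of_nonneg_right he b3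
      linarith
  have hsum : ∑ i, Real.exp (-(mx s - s i)) * (‖ξ i - ξ i₀‖ ^ 4 + ‖η i - η i₀‖ ^ 2) ≤
      (q : ℝ) * (X ^ 4 + Y ^ 2) + Real.exp (-(R₂ / 2)) * P4 θ s ξ η i₀ := by
    calc _ ≤ ∑ i : Fin q, ((X ^ 4 + Y ^ 2) + Real.exp (-(R₂ / 2)) *
        (Real.exp (-(2 * θ * (mx s - s i))) * (‖ξ i - ξ i₀‖ ^ 4 + ‖η i - η i₀‖ ^ 2))) :=
          Finset.sum_le_sum fun i _ => key i
      _ = _ := by
        rw [Finset.sum_add_distrib, Finset.sum_const, Finset.card_univ, Fintype.card_fin,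
          nsmul_eq_mul, ← Finset.mul_sum]
        rfl
  refine (A0_pow4_le hq s ξ η i₀).trans ?_
  calc 8 * (q : ℝ) ^ 3 *
      ∑ i, Real.exp (-(mx s - s i)) * (‖ξ i - ξ i₀‖ ^ 4 + ‖η i - η i₀‖ ^ 2)
      ≤ 8 * (q : ℝ) ^ 3 * ((q : ℝ) * (X ^ 4 + Y ^ 2) + Real.exp (-(R₂ / 2)) * P4 θ s ξ η i₀) :=
        mul_le_mul_of_nonneg_left hsum (by positivity)
    _ = _ := by ring

end Stp

end

end Pool.Agent.H789.HSC
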