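import Mathlib

/-! Numerical absorption lemmas for the recursion step. -/

namespace Pool.Agent.H789.HSC

noncomputable section

namespace Stp

theorem young1 {a P B : ℝ} (ha : 1 ≤ a) (hP : 0 ≤ P) (hB : 0 ≤ B) :
    P * B ^ 3 ≤ B ^ 4 / a + a ^ 3 * P ^ 4 := by
  have ha0 : 0 < a := by linarith
  by_cases h : a * P ≤ B
  · have h1 : P * B ^ 3 ≤ B ^ 4 / a := by
      rw [le_div_iff₀ ha0]
      have : a * P * B ^ 3 ≤ B * B ^ 3 := mul_le_mul_of_nonneg_right h (by positivity)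
      calc P * B ^ 3 * a = a * P * B ^ 3 := by ring
        _ ≤ B * B ^ 3 := this
        _ = B ^ 4 := by ring
    have : 0 ≤ a ^ 3 * P ^ 4 := by positivity
    linarith
  · push Not at h
    have h1 : B ^ 3 ≤ (a * P) ^ 3 := pow_le_pow_left₀ hB h.le 3
    have h2 : P * B ^ 3 ≤ P * (a * P) ^ 3 := mul_le_mul_of_nonneg_left h1 hP
    have h3 : P * (a * P) ^ 3 = a ^ 3 * P ^ 4 := by ring
    have : 0 ≤ B ^ 4 / a := by positivity
    linarith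

theorem young2 {a P B : ℝ} (ha : 1 ≤ a) (hP : 0 ≤ P) (hB : 0 ≤ B) :
    P ^ 2 * B ^ 2 ≤ B ^ 4 / a + a ^ 3 * P ^ 4 := by
  have ha0 : 0 < a := by linarith
  by_cases h : a * P ≤ B
  · have h1 : P ^ 2 * B ^ 2 ≤ B ^ 4 / a := by
      rw [le_div_iff₀ ha0]
      have h3 : (a * P) ^ 2 ≤ B ^ 2 := pow_le_pow_left₀ (by positivity) h 2
      have h4 : a * P ^ 2 ≤ (a * P) ^ 2 := by
        have : 0 ≤ P ^ 2 := by positivity
        nlinarith
      have : a * P ^ 2 * B ^ 2 ≤ B ^ 2 * B ^ 2 :=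
        mul_le_mul_of_nonneg_right (h4.trans h3) (by positivity)
      calc P ^ 2 * B ^ 2 * a = a * P ^ 2 * B ^ 2 := by ring
        _ ≤ B ^ 2 * B ^ 2 := this
        _ = B ^ 4 := by ring
    have : 0 ≤ a ^ 3 * P ^ 4 := by positivity
    linarith
  · push Not at h
    have h1 : B ^ 2 ≤ (a * P) ^ 2 := pow_le_pow_left₀ hB h.le 2
    have h2 : P ^ 2 * B ^ 2 ≤ P ^ 2 * (a * P) ^ 2 := mul_le_mul_of_nonneg_left h1 (by positivity)
    have h3 : P ^ 2 * (a * P) ^ 2 = a ^ 2 * P ^ 4 := by ring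
    have h4 : a ^ 2 ≤ a ^ 3 := pow_le_pow_right₀ ha (by norm_num)
    have h5 : a ^ 2 * P ^ 4 ≤ a ^ 3 * P ^ 4 := mul_le_mul_of_nonneg_right h4 (by positivity)
    have : 0 ≤ B ^ 4 / a := by positivity
    linarith

theorem young3 {a P B : ℝ} (ha : 1 ≤ a) (hP : 0 ≤ P) (hB : 0 ≤ B) :
    P ^ 3 * B ≤ B ^ 4 / a + a ^ 3 * P ^ 4 := by
  have ha0 : 0 < a := by linarith
  by_cases h : a * P ≤ B
  · have h1 : P ^ 3 * B ≤ B ^ 4 / a := by
      rw [le_div_iff₀ ha0]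
      have h3 : (a * P) ^ 3 ≤ B ^ 3 := pow_le_pow_left₀ (by positivity) h 3
      have h4 : a * P ^ 3 ≤ (a * P) ^ 3 := by
        have : 0 ≤ P ^ 3 := by positivity
        have h5 : a ≤ a ^ 3 := by nlinarith [mul_nonneg ha0.le (sq_nonneg (a - 1))]
        calc a * P ^ 3 ≤ a ^ 3 * P ^ 3 := mul_le_mul_of_nonneg_right h5 this
          _ = _ := by ring
      have : a * P ^ 3 * B ≤ B ^ 3 * B :=
        mul_le_mul_of_nonneg_right (h4.trans h3) (by positivity)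
      calc P ^ 3 * B * a = a * P ^ 3 * B := by ring
        _ ≤ B ^ 3 * B := this
        _ = B ^ 4 := by ring
    have : 0 ≤ a ^ 3 * P ^ 4 := by positivity
    linarith
  · push Not at h
    have h2 : P ^ 3 * B ≤ P ^ 3 * (a * P) := mul_le_mul_of_nonneg_left h.le (by positivity)
    have h3 : P ^ 3 * (a * P) = a * P ^ 4 := by ring
    have h4 : a ≤ a ^ 3 := by nlinarith [mul_nonneg ha0.le (sq_nonneg (a - 1))]
    have h5 : a * P ^ 4 ≤ a ^ 3 * P ^ 4 := mul_le_mul_of_nonneg_right h4 (by positivity)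
    have : 0 ≤ B ^ 4 / a := by positivity
    linarith

theorem p4 {x y : ℝ} : (x + y) ^ 4 ≤ 8 * (x ^ 4 + y ^ 4) := by
  nlinarith [sq_nonneg (x - y), sq_nonneg (x + y), sq_nonneg (x ^ 2 - y ^ 2),
    sq_nonneg (x * y), mul_nonneg (sq_nonneg (x - y)) (sq_nonneg (x - y)),
    mul_nonneg (sq_nonneg (x - y)) (sq_nonneg (x + y)), mul_nonneg (sq_nonneg x) (sq_nonneg y)]

theorem p3 {x y : ℝ} (hx : 0 ≤ x) (hy : 0 ≤ y) : (x + y) ^ 3 ≤ 4 * (x ^ 3 + y ^ 3) := by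
  nlinarith [mul_nonneg (add_nonneg hx hy) (sq_nonneg (x - y))]

/-- the error terms of case B -/
theorem errB {C a l δ P B : ℝ} (hC : 0 ≤ C) (ha : 1 ≤ a) (hl : 0 < l) (hl1 : l ≤ 1) (hδ : 0 ≤ δ)
    (hP : 0 ≤ P) (hB : 0 ≤ B) :
    C * (l ^ 2 * ((P + l * B) ^ 3 * B + (P + l * B) ^ 2 * B ^ 2 + (P + l * B) * B ^ 3)
      + (l ^ 2) ^ 2 * B ^ 4 + δ * (P + l * B) ^ 4)
      ≤ C * (l ^ 2 * (7 * (B ^ 4 / a + a ^ 3 * P ^ 4)) + 8 * l ^ 3 * B ^ 4 + 8 * δ * P ^ 4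
        + 8 * δ * l ^ 2 * B ^ 4) := by
  apply mul_le_mul_of_nonneg_left _ hC
  have hlB : 0 ≤ l * B := by positivity
  have h3 : (P + l * B) ^ 3 * B ≤ 4 * (P ^ 3 * B) + 4 * l ^ 3 * B ^ 4 := by
    have := mul_le_mul_of_nonneg_right (p3 hP hlB) hB
    nlinarith
  have h2 : (P + l * B) ^ 2 * B ^ 2 ≤ 2 * (P ^ 2 * B ^ 2) + 2 * l ^ 2 * B ^ 4 := by
    nlinarith [mul_nonneg (sq_nonneg (P - l * B)) (sq_nonneg B)]
  have h1 : (P + l * B) * B ^ 3 = P * B ^ 3 + l * B ^ 4 := by ring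
  have h4 : (P + l * B) ^ 4 ≤ 8 * (P ^ 4 + l ^ 4 * B ^ 4) := by
    have := @p4 P (l * B)
    have e : (l * B) ^ 4 = l ^ 4 * B ^ 4 := by ring
    rw [e] at this
    exact this
  have y1 := young1 ha hP hB
  have y2 := young2 ha hP hB
  have y3 := young3 ha hP hB
  have hB4 : 0 ≤ B ^ 4 := by positivity
  have hP4 : 0 ≤ P ^ 4 := by positivity
  have l2 : 0 ≤ l ^ 2 := by positivity
  have s1 : (P + l * B) ^ 3 * B + (P + l * B) ^ 2 * B ^ 2 + (P + l * B) * B ^ 3 ≤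
      7 * (B ^ 4 / a + a ^ 3 * P ^ 4) + (4 * l ^ 3 + 2 * l ^ 2 + l) * B ^ 4 := by
    rw [h1]
    nlinarith
  have s2 := mul_le_mul_of_nonneg_left s1 l2
  have s3 := mul_le_mul_of_nonneg_left h4 hδ
  have s4 : l ^ 2 * ((4 * l ^ 3 + 2 * l ^ 2 + l) * B ^ 4) + (l ^ 2) ^ 2 * B ^ 4 ≤
      8 * l ^ 3 * B ^ 4 := by
    have e1 : l ^ 5 ≤ l ^ 3 := pow_le_pow_of_le_one hl.le hl1 (by norm_num)
    have e2 : l ^ 4 ≤ l ^ 3 := pow_le_pow_of_le_one hl.le hl1 (by norm_num)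
    have e3 : l ^ 5 * B ^ 4 ≤ l ^ 3 * B ^ 4 := mul_le_mul_of_nonneg_right e1 hB4
    have e4 : l ^ 4 * B ^ 4 ≤ l ^ 3 * B ^ 4 := mul_le_mul_of_nonneg_right e2 hB4
    nlinarith
  have s5 : δ * (8 * (P ^ 4 + l ^ 4 * B ^ 4)) ≤ 8 * δ * P ^ 4 + 8 * δ * l ^ 2 * B ^ 4 := by
    have e2 : l ^ 4 ≤ l ^ 2 := pow_le_pow_of_le_one hl.le hl1 (by norm_num)
    have e4 : l ^ 4 * B ^ 4 ≤ l ^ 2 * B ^ 4 := mul_le_mul_of_nonneg_right e2 hB4
    have e5 := mul_le_mul_of_nonneg_left e4 hδ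
    nlinarith
  nlinarith

theorem absB {c C cr Cr C1 : ℝ} (hc : 0 < c) (hcr : 0 < cr) :
    ∃ ε₀ : ℝ, 0 < ε₀ ∧ ∀ ε₃ : ℝ, 0 < ε₃ → ε₃ ≤ ε₀ → ∃ l₀ : ℝ, 0 < l₀ ∧ ∀ l : ℝ, 0 < l → l ≤ l₀ →
      ∃ δ₀ : ℝ, 0 < δ₀ ∧ ∃ cf Cf : ℝ, 0 < cf ∧ 0 ≤ Cf ∧ ∀ δ B P S A4 QG JR : ℝ, 0 ≤ δ → δ ≤ δ₀ →
        0 ≤ B → 0 ≤ P → 0 ≤ S → 0 ≤ A4 →
        c * l ^ 2 * B ^ 4 + c * S - C * (l ^ 2 * ((P + l * B) ^ 3 * B + (P + l * B) ^ 2 * B ^ 2
          + (P + l * B) * B ^ 3) + (l ^ 2) ^ 2 * B ^ 4 + δ * (P + l * B) ^ 4) ≤ QG →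
        cr * P ^ 4 - Cr * A4 ≤ JR → A4 ≤ C1 * ((l ^ 2) ^ 2 * B ^ 4 + S) →
        cf * (P ^ 4 + B ^ 4) ≤ QG + ε₃ * JR ∧ -(Cf * (P ^ 4 + B ^ 4)) ≤ QG := by
  set C' := |C| + 1 with hC'
  set Cr' := |Cr| + 1 with hCr'
  set C1' := |C1| + 1 with hC1'
  have hC'0 : 0 < C' := by positivity
  have hCr'0 : 0 < Cr' := by positivity
  have hC1'0 : 0 < C1' := by positivity
  have hCC : C ≤ C' := by have := le_abs_self C; linarith
  have hCrC : Cr ≤ Cr' := by have := le_abs_self Cr; linarith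
  have hC1C : C1 ≤ C1' := by have := le_abs_self C1; linarith
  refine ⟨c / (2 * Cr' * C1'), by positivity, fun ε₃ hε hε' => ?_⟩
  set a := 1 + 112 * C' / c with ha
  have ha1 : 1 ≤ a := by
    have : 0 ≤ 112 * C' / c := by positivity
    linarith
  have ha0 : 0 < a := by linarith
  have haC : 7 * C' / a ≤ c / 16 := by
    rw [div_le_iff₀ ha0, ha]
    have : c / 16 * (1 + 112 * C' / c) = c / 16 + 7 * C' := by field_simp; ring
    rw [this]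
    linarith
  have hεC : ε₃ * (Cr' * C1') ≤ c / 2 := by
    have := mul_le_mul_of_nonneg_right hε' (by positivity : 0 ≤ Cr' * C1')
    have e : c / (2 * Cr' * C1') * (Cr' * C1') = c / 2 := by field_simp
    linarith
  set l₀ := min 1 (min (c / (128 * C')) (ε₃ * cr / (56 * C' * a ^ 3))) with hl₀
  refine ⟨l₀, by positivity, fun l hl hll => ?_⟩
  have hl1 : l ≤ 1 := hll.trans (min_le_left _ _)
  have hl2 : l ≤ c / (128 * C') := hll.trans ((min_le_right _ _).trans (min_le_left _ _))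
  have hl3 : l ≤ ε₃ * cr / (56 * C' * a ^ 3) :=
    hll.trans ((min_le_right _ _).trans (min_le_right _ _))
  have hl2' : 8 * C' * l ≤ c / 16 := by
    have := mul_le_mul_of_nonneg_left hl2 (by positivity : 0 ≤ 8 * C')
    have e : 8 * C' * (c / (128 * C')) = c / 16 := by field_simp; norm_num
    linarith
  have hl3' : 7 * C' * a ^ 3 * l ^ 2 ≤ ε₃ * cr / 8 := by
    have h1 : l ^ 2 ≤ l := by
      calc l ^ 2 ≤ l ^ 1 := pow_le_pow_of_le_one hl.le hl1 (by norm_num)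
        _ = l := pow_one l
    have h2 : 7 * C' * a ^ 3 * l ^ 2 ≤ 7 * C' * a ^ 3 * l :=
      mul_le_mul_of_nonneg_left h1 (by positivity)
    have := mul_le_mul_of_nonneg_left hl3 (by positivity : 0 ≤ 7 * C' * a ^ 3)
    have e : 7 * C' * a ^ 3 * (ε₃ * cr / (56 * C' * a ^ 3)) = ε₃ * cr / 8 := by
      field_simp; norm_num
    linarith
  set δ₀ := min (ε₃ * cr / (64 * C')) (c / (128 * C')) with hδ₀
  refine ⟨δ₀, by positivity, min (c * l ^ 2 / 4) (ε₃ * cr / 2), c * l ^ 2 + ε₃ * cr,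
    by positivity, by positivity, ?_⟩
  intro δ B P S A4 QG JR hδ hδ' hB hP hS hA4 h1 h2 h3
  have hδ1 : 8 * C' * δ ≤ ε₃ * cr / 8 := by
    have := mul_le_mul_of_nonneg_left (hδ'.trans (min_le_left _ _)) (by positivity : 0 ≤ 8 * C')
    have e : 8 * C' * (ε₃ * cr / (64 * C')) = ε₃ * cr / 8 := by field_simp; norm_num
    linarith
  have hδ2 : 8 * C' * δ ≤ c / 16 := by
    have := mul_le_mul_of_nonneg_left (hδ'.trans (min_le_right _ _)) (by positivity : 0 ≤ 8 * C')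
    have e : 8 * C' * (c / (128 * C')) = c / 16 := by field_simp; norm_num
    linarith
  have hB4 : 0 ≤ B ^ 4 := by positivity
  have hP4 : 0 ≤ P ^ 4 := by positivity
  have l2 : 0 < l ^ 2 := by positivity
  set Er := l ^ 2 * ((P + l * B) ^ 3 * B + (P + l * B) ^ 2 * B ^ 2
          + (P + l * B) * B ^ 3) + (l ^ 2) ^ 2 * B ^ 4 + δ * (P + l * B) ^ 4 with hEr
  have hEr0 : 0 ≤ Er := by positivity
  have hE1 : C * Er ≤ C' * Er := mul_le_mul_of_nonneg_right hCC hEr0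
  have hE2 : C' * Er ≤ 3 * (c / 16) * (l ^ 2 * B ^ 4) + ε₃ * cr / 4 * P ^ 4 := by
    refine (errB hC'0.le ha1 hl hl1 hδ hP hB).trans ?_
    have e1 : C' * (l ^ 2 * (7 * (B ^ 4 / a + a ^ 3 * P ^ 4)) + 8 * l ^ 3 * B ^ 4 + 8 * δ * P ^ 4
        + 8 * δ * l ^ 2 * B ^ 4) = (7 * C' / a) * (l ^ 2 * B ^ 4) +
        (7 * C' * a ^ 3 * l ^ 2) * P ^ 4 + (8 * C' * l) * (l ^ 2 * B ^ 4) +
        (8 * C' * δ) * P ^ 4 + (8 * C' * δ) * (l ^ 2 * B ^ 4) := by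
      field_simp
    rw [e1]
    have f1 := mul_le_mul_of_nonneg_right haC (by positivity : 0 ≤ l ^ 2 * B ^ 4)
    have f2 := mul_le_mul_of_nonneg_right hl3' hP4
    have f3 := mul_le_mul_of_nonneg_right hl2' (by positivity : 0 ≤ l ^ 2 * B ^ 4)
    have f4 := mul_le_mul_of_nonneg_right hδ1 hP4
    have f5 := mul_le_mul_of_nonneg_right hδ2 (by positivity : 0 ≤ l ^ 2 * B ^ 4)
    linarith
  have hA : ε₃ * (Cr * A4) ≤ c / 2 * (l ^ 2 * B ^ 4 + S) := by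
    have g1 : A4 ≤ C1' * (l ^ 2 * B ^ 4 + S) := by
      refine h3.trans ?_
      have g0 : (l ^ 2) ^ 2 * B ^ 4 ≤ l ^ 2 * B ^ 4 := by
        have : (l ^ 2) ^ 2 ≤ l ^ 2 := by
          rw [← pow_mul]
          exact pow_le_pow_of_le_one hl.le hl1 (by norm_num)
        exact mul_le_mul_of_nonneg_right this hB4
      have g2 : C1 * ((l ^ 2) ^ 2 * B ^ 4 + S) ≤ C1' * ((l ^ 2) ^ 2 * B ^ 4 + S) :=
        mul_le_mul_of_nonneg_right hC1C (by positivity)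
      have g3 : C1' * ((l ^ 2) ^ 2 * B ^ 4 + S) ≤ C1' * (l ^ 2 * B ^ 4 + S) :=
        mul_le_mul_of_nonneg_left (by linarith) hC1'0.le
      linarith
    have g2 : Cr * A4 ≤ Cr' * (C1' * (l ^ 2 * B ^ 4 + S)) :=
      (mul_le_mul_of_nonneg_right hCrC hA4).trans (mul_le_mul_of_nonneg_left g1 hCr'0.le)
    have g3 := mul_le_mul_of_nonneg_left g2 hε.le
    have g4 := mul_le_mul_of_nonneg_right hεC (by positivity : 0 ≤ l ^ 2 * B ^ 4 + S)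
    linarith
  have hJ := mul_le_mul_of_nonneg_left h2 hε.le
  have hcS : 0 ≤ c * S := by positivity
  constructor
  · have m1 : min (c * l ^ 2 / 4) (ε₃ * cr / 2) * P ^ 4 ≤ ε₃ * cr / 2 * P ^ 4 :=
      mul_le_mul_of_nonneg_right (min_le_right _ _) hP4
    have m2 : min (c * l ^ 2 / 4) (ε₃ * cr / 2) * B ^ 4 ≤ c * l ^ 2 / 4 * B ^ 4 :=
      mul_le_mul_of_nonneg_right (min_le_left _ _) hB4
    have m3 : 0 ≤ c * (l ^ 2 * B ^ 4) := by positivity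
    have m4 : 0 ≤ ε₃ * cr * P ^ 4 := by positivity
    linarith
  · have m3 : 0 ≤ c * (l ^ 2 * B ^ 4) := by positivity
    have m4 : 0 ≤ ε₃ * cr * P ^ 4 := by positivity
    have m5 : 0 ≤ c * l ^ 2 * P ^ 4 := by positivity
    have m6 : 0 ≤ ε₃ * cr * B ^ 4 := by positivity
    linarith

theorem absA1 {C cr Cr Ca1 Ca2 : ℝ} (hcr : 0 < cr) :
    ∃ ε₀ : ℝ, 0 < ε₀ ∧ ∀ ε₃ : ℝ, 0 < ε₃ → ε₃ ≤ ε₀ → ∀ l : ℝ, 0 < l → l ≤ 1 →
      ∃ δ₀ : ℝ, 0 < δ₀ ∧ ∃ cf Cf : ℝ, 0 < cf ∧ 0 ≤ Cf ∧ ∀ δ e B P X Y A4 QG JR : ℝ, 0 ≤ δ →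
        δ ≤ δ₀ → 0 ≤ e → e ≤ δ₀ → 0 ≤ B → 0 ≤ P → 0 ≤ A4 →
        X ^ 4 + Y ^ 2 / 64 + (l ^ 2 * B) ^ 4 - C * δ * ((P + l * B) ^ 4 + B ^ 4) ≤ QG →
        cr * P ^ 4 - Cr * A4 ≤ JR → A4 ≤ Ca1 * (X ^ 4 + Y ^ 2) + Ca2 * (e * P ^ 4) →
        cf * (P ^ 4 + B ^ 4) ≤ QG + ε₃ * JR ∧ -(Cf * (P ^ 4 + B ^ 4)) ≤ QG := by
  set C' := |C| + 1 with hC'
  set Cr' := |Cr| + 1 with hCr'
  set C1' := |Ca1| + 1 with hC1'
  set C2' := |Ca2| + 1 with hC2'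
  have hC'0 : 0 < C' := by positivity
  have hCr'0 : 0 < Cr' := by positivity
  have hC1'0 : 0 < C1' := by positivity
  have hC2'0 : 0 < C2' := by positivity
  have hCC : C ≤ C' := by have := le_abs_self C; linarith
  have hCrC : Cr ≤ Cr' := by have := le_abs_self Cr; linarith
  have hC1C : Ca1 ≤ C1' := by have := le_abs_self Ca1; linarith
  have hC2C : Ca2 ≤ C2' := by have := le_abs_self Ca2; linarith
  refine ⟨1 / (128 * (Cr' * C1')), by positivity, fun ε₃ hε hε' l hl hl1 => ?_⟩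
  have hεC : ε₃ * (Cr' * C1') ≤ 1 / 128 := by
    have := mul_le_mul_of_nonneg_right hε' (by positivity : 0 ≤ Cr' * C1')
    have e : 1 / (128 * (Cr' * C1')) * (Cr' * C1') = 1 / 128 := by field_simp
    linarith
  set δ₀ := min (cr / (4 * (Cr' * C2'))) (min (l ^ 8 / (18 * C')) (ε₃ * cr / (32 * C'))) with hδ₀
  have hl8 : 0 < l ^ 8 := by positivity
  refine ⟨δ₀, by positivity, min (l ^ 8 / 2) (ε₃ * cr / 2), 9 * C' * δ₀,
    by positivity, by positivity, ?_⟩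
  intro δ e B P X Y A4 QG JR hδ hδ' he he' hB hP hA4 h1 h2 h3
  have hB4 : 0 ≤ B ^ 4 := by positivity
  have hP4 : 0 ≤ P ^ 4 := by positivity
  have hX4 : 0 ≤ X ^ 4 := by positivity
  have hY2 : 0 ≤ Y ^ 2 := by positivity
  have d1 : e * (Cr' * C2') ≤ cr / 4 := by
    have := mul_le_mul_of_nonneg_right (he'.trans (min_le_left _ _))
      (by positivity : 0 ≤ Cr' * C2')
    have e : cr / (4 * (Cr' * C2')) * (Cr' * C2') = cr / 4 := by field_simp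
    linarith
  have d2 : 9 * C' * δ ≤ l ^ 8 / 2 := by
    have := mul_le_mul_of_nonneg_left (hδ'.trans ((min_le_right _ _).trans (min_le_left _ _)))
      (by positivity : 0 ≤ 9 * C')
    have e : 9 * C' * (l ^ 8 / (18 * C')) = l ^ 8 / 2 := by field_simp; norm_num
    linarith
  have d3 : 8 * C' * δ ≤ ε₃ * cr / 4 := by
    have := mul_le_mul_of_nonneg_left (hδ'.trans ((min_le_right _ _).trans (min_le_right _ _)))
      (by positivity : 0 ≤ 8 * C')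
    have e : 8 * C' * (ε₃ * cr / (32 * C')) = ε₃ * cr / 4 := by field_simp; norm_num
    linarith
  have g1 : (P + l * B) ^ 4 + B ^ 4 ≤ 8 * P ^ 4 + 9 * B ^ 4 := by
    have h4 := @p4 P (l * B)
    have e1 : (l * B) ^ 4 = l ^ 4 * B ^ 4 := by ring
    have e2 : l ^ 4 ≤ 1 := pow_le_one₀ hl.le hl1
    have e3 := mul_le_mul_of_nonneg_right e2 hB4
    rw [e1] at h4
    linarith
  have g2 : C * δ * ((P + l * B) ^ 4 + B ^ 4) ≤ C' * δ * (8 * P ^ 4 + 9 * B ^ 4) := by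
    have k0 : 0 ≤ (P + l * B) ^ 4 + B ^ 4 := by positivity
    have k1 : C * δ ≤ C' * δ := mul_le_mul_of_nonneg_right hCC hδ
    exact (mul_le_mul_of_nonneg_right k1 k0).trans
      (mul_le_mul_of_nonneg_left g1 (by positivity))
  have g3 : ε₃ * (Cr * A4) ≤ 1 / 128 * (X ^ 4 + Y ^ 2) + ε₃ * cr / 4 * P ^ 4 := by
    have k1 : A4 ≤ C1' * (X ^ 4 + Y ^ 2) + C2' * (e * P ^ 4) := by
      refine h3.trans ?_
      have := mul_le_mul_of_nonneg_right hC1C (by positivity : 0 ≤ X ^ 4 + Y ^ 2)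
      have := mul_le_mul_of_nonneg_right hC2C (by positivity : 0 ≤ e * P ^ 4)
      linarith
    have k2 : Cr * A4 ≤ Cr' * (C1' * (X ^ 4 + Y ^ 2) + C2' * (e * P ^ 4)) :=
      (mul_le_mul_of_nonneg_right hCrC hA4).trans (mul_le_mul_of_nonneg_left k1 hCr'0.le)
    have k3 := mul_le_mul_of_nonneg_left k2 hε.le
    have k4 := mul_le_mul_of_nonneg_right hεC (by positivity : 0 ≤ X ^ 4 + Y ^ 2)
    have k5 := mul_le_mul_of_nonneg_right d1 (by positivity : 0 ≤ ε₃ * P ^ 4)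
    linarith
  have hJ := mul_le_mul_of_nonneg_left h2 hε.le
  have hl4 : (l ^ 2 * B) ^ 4 = l ^ 8 * B ^ 4 := by ring
  rw [hl4] at h1
  have q1 := mul_le_mul_of_nonneg_right d2 hB4
  have q2 := mul_le_mul_of_nonneg_right d3 hP4
  constructor
  · have m1 : min (l ^ 8 / 2) (ε₃ * cr / 2) * P ^ 4 ≤ ε₃ * cr / 2 * P ^ 4 :=
      mul_le_mul_of_nonneg_right (min_le_right _ _) hP4
    have m2 : min (l ^ 8 / 2) (ε₃ * cr / 2) * B ^ 4 ≤ l ^ 8 / 2 * B ^ 4 :=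
      mul_le_mul_of_nonneg_right (min_le_left _ _) hB4
    linarith
  · have m1 : C' * δ * (8 * P ^ 4 + 9 * B ^ 4) ≤ 9 * C' * δ₀ * (P ^ 4 + B ^ 4) := by
      have k1 : C' * δ ≤ C' * δ₀ := mul_le_mul_of_nonneg_left hδ' hC'0.le
      have k2 := mul_le_mul_of_nonneg_right k1 (by positivity : 0 ≤ 8 * P ^ 4 + 9 * B ^ 4)
      have k3 : 0 ≤ C' * δ₀ * P ^ 4 := by positivity
      linarith
    have m3 : 0 ≤ l ^ 8 * B ^ 4 := by positivity
    linarith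

theorem absA2 {C cr Cr Ca1 Ca2 KU : ℝ} (hcr : 0 < cr) (hKU : 0 ≤ KU) :
    ∃ ε₀ : ℝ, 0 < ε₀ ∧ ∀ ε₃ : ℝ, 0 < ε₃ → ε₃ ≤ ε₀ → ∀ l : ℝ, 0 < l → l ≤ 1 →
      ∃ δ₀ : ℝ, 0 < δ₀ ∧ ∃ cf Cf : ℝ, 0 < cf ∧ 0 ≤ Cf ∧ ∀ δ e B P X Y A4 QG JR : ℝ, 0 ≤ δ →
        δ ≤ δ₀ → 0 ≤ e → e ≤ δ₀ → 0 ≤ B → 0 ≤ P → 0 ≤ X → 0 ≤ Y → 0 ≤ A4 →
        l ^ 2 * B ≤ KU * (X + Real.sqrt (l ^ 2 * Y)) + δ * P →
        X ^ 4 + Y ^ 2 / 64 - C * δ * (P + l * B) ^ 4 ≤ QG →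
        cr * P ^ 4 - Cr * A4 ≤ JR → A4 ≤ Ca1 * (X ^ 4 + Y ^ 2) + Ca2 * (e * P ^ 4) →
        cf * (P ^ 4 + B ^ 4) ≤ QG + ε₃ * JR ∧ -(Cf * (P ^ 4 + B ^ 4)) ≤ QG := by
  set C' := |C| + 1 with hC'
  set Cr' := |Cr| + 1 with hCr'
  set C1' := |Ca1| + 1 with hC1'
  set C2' := |Ca2| + 1 with hC2'
  have hC'0 : 0 < C' := by positivity
  have hCr'0 : 0 < Cr' := by positivity
  have hC1'0 : 0 < C1' := by positivity
  have hC2'0 : 0 < C2' := by positivity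
  have hCC : C ≤ C' := by have := le_abs_self C; linarith
  have hCrC : Cr ≤ Cr' := by have := le_abs_self Cr; linarith
  have hC1C : Ca1 ≤ C1' := by have := le_abs_self Ca1; linarith
  have hC2C : Ca2 ≤ C2' := by have := le_abs_self Ca2; linarith
  refine ⟨1 / (256 * (Cr' * C1')), by positivity, fun ε₃ hε hε' l hl hl1 => ?_⟩
  have hεC : ε₃ * (Cr' * C1') ≤ 1 / 256 := by
    have := mul_le_mul_of_nonneg_right hε' (by positivity : 0 ≤ Cr' * C1')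
    have e : 1 / (256 * (Cr' * C1')) * (Cr' * C1') = 1 / 256 := by field_simp
    linarith
  set KK := 64 * (KU ^ 4 + 1) with hKK
  have hKK0 : 0 < KK := by positivity
  set δ₀ := min 1 (min (cr / (4 * (Cr' * C2'))) (min (l ^ 8 / (1024 * C' * KK))
    (min (ε₃ * cr / (64 * C')) (ε₃ * cr / (64 * C' * KK) * l ^ 8)))) with hδ₀
  have hl8 : 0 < l ^ 8 := by positivity
  set cf := min (1 / 512) (ε₃ * cr / 4) * (l ^ 8 / (2 * KK)) / 2 with hcf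
  have hcf0 : 0 < cf := by positivity
  refine ⟨δ₀, by positivity, min cf (ε₃ * cr / 8), 8 * C' * δ₀,
    by positivity, by positivity, ?_⟩
  intro δ e B P X Y A4 QG JR hδ hδ' he he' hB hP hX hY hA4 h0 h1 h2 h3
  have hδ1 : δ ≤ 1 := hδ'.trans (min_le_left _ _)
  have hδ'' := hδ'.trans (min_le_right _ _)
  have hB4 : 0 ≤ B ^ 4 := by positivity
  have hP4 : 0 ≤ P ^ 4 := by positivity
  have hX4 : 0 ≤ X ^ 4 := by positivity
  have hY2 : 0 ≤ Y ^ 2 := by positivity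
  have d1 : e * (Cr' * C2') ≤ cr / 4 := by
    have := mul_le_mul_of_nonneg_right ((he'.trans (min_le_right _ _)).trans (min_le_left _ _))
      (by positivity : 0 ≤ Cr' * C2')
    have e : cr / (4 * (Cr' * C2')) * (Cr' * C2') = cr / 4 := by field_simp
    linarith
  have d2 : 8 * C' * δ * (2 * KK) ≤ l ^ 8 / 64 := by
    have := mul_le_mul_of_nonneg_left (hδ''.trans ((min_le_right _ _).trans (min_le_left _ _)))
      (by positivity : 0 ≤ 16 * C' * KK)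
    have e : 16 * C' * KK * (l ^ 8 / (1024 * C' * KK)) = l ^ 8 / 64 := by field_simp; norm_num
    linarith
  have d3 : 8 * C' * δ ≤ ε₃ * cr / 8 := by
    have := mul_le_mul_of_nonneg_left (hδ''.trans ((min_le_right _ _).trans
      ((min_le_right _ _).trans (min_le_left _ _)))) (by positivity : 0 ≤ 8 * C')
    have e : 8 * C' * (ε₃ * cr / (64 * C')) = ε₃ * cr / 8 := by field_simp; norm_num
    linarith
  have d4 : 8 * C' * δ * KK ≤ ε₃ * cr / 8 * l ^ 8 := by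
    have := mul_le_mul_of_nonneg_left (hδ''.trans ((min_le_right _ _).trans
      ((min_le_right _ _).trans (min_le_right _ _)))) (by positivity : 0 ≤ 8 * C' * KK)
    have e : 8 * C' * KK * (ε₃ * cr / (64 * C' * KK) * l ^ 8) = ε₃ * cr / 8 * l ^ 8 := by
      field_simp; norm_num
    linarith
  -- bound of B
  have b1 : l ^ 8 * B ^ 4 ≤ KK * (X ^ 4 + Y ^ 2 + P ^ 4) := by
    have k0 : 0 ≤ Real.sqrt (l ^ 2 * Y) := Real.sqrt_nonneg _
    have k1 : (l ^ 2 * B) ^ 4 ≤ (KU * (X + Real.sqrt (l ^ 2 * Y)) + δ * P) ^ 4 :=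
      pow_le_pow_left₀ (by positivity) h0 4
    have k2 := @p4 (KU * (X + Real.sqrt (l ^ 2 * Y))) (δ * P)
    have k3 := @p4 X (Real.sqrt (l ^ 2 * Y))
    have k4 : Real.sqrt (l ^ 2 * Y) ^ 4 = l ^ 4 * Y ^ 2 := by
      have : Real.sqrt (l ^ 2 * Y) ^ 4 = (Real.sqrt (l ^ 2 * Y) ^ 2) ^ 2 := by ring
      rw [this, Real.sq_sqrt (by positivity)]; ring
    have k5 : l ^ 4 * Y ^ 2 ≤ Y ^ 2 := by
      have : l ^ 4 ≤ 1 := pow_le_one₀ hl.le hl1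
      have := mul_le_mul_of_nonneg_right this hY2
      linarith
    have k6 : (δ * P) ^ 4 ≤ P ^ 4 := by
      have : δ ^ 4 ≤ 1 := pow_le_one₀ hδ hδ1
      have e1 : (δ * P) ^ 4 = δ ^ 4 * P ^ 4 := by ring
      have := mul_le_mul_of_nonneg_right this hP4
      rw [e1]; linarith
    have k7 : (KU * (X + Real.sqrt (l ^ 2 * Y))) ^ 4 ≤ KU ^ 4 * (8 * (X ^ 4 + Y ^ 2)) := by
      have e1 : (KU * (X + Real.sqrt (l ^ 2 * Y))) ^ 4 =
        KU ^ 4 * (X + Real.sqrt (l ^ 2 * Y)) ^ 4 := by ring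
      rw [e1]
      apply mul_le_mul_of_nonneg_left _ (by positivity)
      rw [k4] at k3
      linarith
    have e0 : (l ^ 2 * B) ^ 4 = l ^ 8 * B ^ 4 := by ring
    rw [e0] at k1
    have hKU4 : 0 ≤ KU ^ 4 := by positivity
    have k8 : 0 ≤ KU ^ 4 * P ^ 4 := by positivity
    rw [hKK]
    linarith
  have g1 : (P + l * B) ^ 4 ≤ 8 * P ^ 4 + 8 * B ^ 4 := by
    have h4 := @p4 P (l * B)
    have e1 : (l * B) ^ 4 = l ^ 4 * B ^ 4 := by ring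
    have e2 : l ^ 4 ≤ 1 := pow_le_one₀ hl.le hl1
    have e3 := mul_le_mul_of_nonneg_right e2 hB4
    rw [e1] at h4
    linarith
  have g2 : C * δ * (P + l * B) ^ 4 ≤ 8 * C' * δ * (P ^ 4 + B ^ 4) := by
    have k0 : 0 ≤ (P + l * B) ^ 4 := by positivity
    have k1 : C * δ ≤ C' * δ := mul_le_mul_of_nonneg_right hCC hδ
    have := (mul_le_mul_of_nonneg_right k1 k0).trans
      (mul_le_mul_of_nonneg_left g1 (by positivity))
    linarith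
  have g2' : 8 * C' * δ * B ^ 4 ≤ 1 / 128 * (X ^ 4 + Y ^ 2) + ε₃ * cr / 8 * P ^ 4 := by
    have k1 : 8 * C' * δ * (l ^ 8 * B ^ 4) ≤ 8 * C' * δ * (KK * (X ^ 4 + Y ^ 2 + P ^ 4)) :=
      mul_le_mul_of_nonneg_left b1 (by positivity)
    have k2 : 8 * C' * δ * KK * (X ^ 4 + Y ^ 2) ≤ l ^ 8 / 128 * (X ^ 4 + Y ^ 2) :=
      mul_le_mul_of_nonneg_right (by linarith) (by positivity)
    have k3 : 8 * C' * δ * KK * P ^ 4 ≤ ε₃ * cr / 8 * l ^ 8 * P ^ 4 :=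
      mul_le_mul_of_nonneg_right d4 hP4
    have k4 : l ^ 8 * (8 * C' * δ * B ^ 4) ≤
        l ^ 8 * (1 / 128 * (X ^ 4 + Y ^ 2) + ε₃ * cr / 8 * P ^ 4) := by linarith
    exact le_of_mul_le_mul_left k4 hl8
  have g3 : ε₃ * (Cr * A4) ≤ 1 / 256 * (X ^ 4 + Y ^ 2) + ε₃ * cr / 4 * P ^ 4 := by
    have k1 : A4 ≤ C1' * (X ^ 4 + Y ^ 2) + C2' * (e * P ^ 4) := by
      refine h3.trans ?_
      have := mul_le_mul_of_nonneg_right hC1C (by positivity : 0 ≤ X ^ 4 + Y ^ 2)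
      have := mul_le_mul_of_nonneg_right hC2C (by positivity : 0 ≤ e * P ^ 4)
      linarith
    have k2 : Cr * A4 ≤ Cr' * (C1' * (X ^ 4 + Y ^ 2) + C2' * (e * P ^ 4)) :=
      (mul_le_mul_of_nonneg_right hCrC hA4).trans (mul_le_mul_of_nonneg_left k1 hCr'0.le)
    have k3 := mul_le_mul_of_nonneg_left k2 hε.le
    have k4 := mul_le_mul_of_nonneg_right hεC (by positivity : 0 ≤ X ^ 4 + Y ^ 2)
    have k5 := mul_le_mul_of_nonneg_right d1 (by positivity : 0 ≤ ε₃ * P ^ 4)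
    linarith
  have hJ := mul_le_mul_of_nonneg_left h2 hε.le
  have q2 := mul_le_mul_of_nonneg_right d3 hP4
  have main : 1 / 256 * (X ^ 4 + Y ^ 2) + ε₃ * cr / 2 * P ^ 4 ≤ QG + ε₃ * JR := by
    linarith
  constructor
  · refine le_trans ?_ main
    have m1 : min cf (ε₃ * cr / 8) * P ^ 4 ≤ ε₃ * cr / 8 * P ^ 4 :=
      mul_le_mul_of_nonneg_right (min_le_right _ _) hP4
    have m2 : min cf (ε₃ * cr / 8) * B ^ 4 ≤ cf * B ^ 4 :=
      mul_le_mul_of_nonneg_right (min_le_left _ _) hB4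
    have m3 : cf * B ^ 4 ≤ 1 / 512 * (X ^ 4 + Y ^ 2) + ε₃ * cr / 4 * P ^ 4 := by
      have n0 : 0 < min (1 / 512) (ε₃ * cr / 4) := by positivity
      have n1 : cf * B ^ 4 = min (1 / 512) (ε₃ * cr / 4) * ((l ^ 8 * B ^ 4) / (4 * KK)) := by
        rw [hcf]; field_simp; norm_num
      have n2 : (l ^ 8 * B ^ 4) / (4 * KK) ≤ X ^ 4 + Y ^ 2 + P ^ 4 := by
        rw [div_le_iff₀ (by positivity)]
        have : 0 ≤ KK * (X ^ 4 + Y ^ 2 + P ^ 4) := by positivity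
        linarith
      rw [n1]
      have n3 := mul_le_mul_of_nonneg_left n2 n0.le
      have n4 : min (1 / 512) (ε₃ * cr / 4) * (X ^ 4 + Y ^ 2) ≤ 1 / 512 * (X ^ 4 + Y ^ 2) :=
        mul_le_mul_of_nonneg_right (min_le_left _ _) (by positivity)
      have n5 : min (1 / 512) (ε₃ * cr / 4) * P ^ 4 ≤ ε₃ * cr / 4 * P ^ 4 :=
        mul_le_mul_of_nonneg_right (min_le_right _ _) hP4
      linarith
    have m4 : 0 ≤ ε₃ * cr * P ^ 4 := by positivity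
    linarith
  · have m1 : 8 * C' * δ * (P ^ 4 + B ^ 4) ≤ 8 * C' * δ₀ * (P ^ 4 + B ^ 4) := by
      apply mul_le_mul_of_nonneg_right _ (by positivity)
      exact mul_le_mul_of_nonneg_left hδ' (by positivity)
    linarith

end Stp

end

end Pool.Agent.H789.HSC
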