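import Pool.Agent.H789.HSC.StepA
import Pool.Agent.H789.HSC.StepB
import Pool.Agent.H789.HSC.StepDefs
import Pool.Agent.H789.HSC.NewUTasks
import Pool.Agent.H789.HSC.SoftTasks
import Pool.Agent.H789.HSC.ExistsModel

/-! The recursion step: preparations. -/

open scoped BigOperators ContDiff ComplexConjugate

namespace Pool.Agent.H789.HSC

noncomputable section

namespace Stp

theorem exists_nearV {p kk : ℕ} {ca Ca L R K : ℝ} {W : (Fin p → ℝ) → ℝ}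
    (hK : ∀ f : (Fin p → ℝ) → ℝ, ContDiffAt ℝ 4 f 0 →
      ∀ r : ℝ, 0 < r → (∀ t : Fin p → ℝ, ∀ ρ : ℝ, ρ ≤ r → (∀ i, |t i| ≤ ρ) → |f t| ≤ Ca * ρ ^ 3) →
      ∃ r₀ : ℝ, 0 < r₀ ∧ r₀ ≤ r ∧ ∀ t : Fin p → ℝ, ∀ ρ : ℝ, 0 ≤ ρ → ρ ≤ r₀ → (∀ i, |t i| ≤ ρ) →
        (∀ i, |pd f i t| ≤ K * ρ ^ 2) ∧ (∀ i j, |pd (pd f i) j t| ≤ K * ρ) ∧
        (∀ i j l, |pd (pd (pd f i) j) l t| ≤ K))
    (hM : IsModel p kk ca Ca (L + 1) R W) (hL : 0 < L) :
    ∃ r₀, NearV p (max K |Ca|) L R r₀ W := by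
  have hR := hM.hR
  have hW0 : ContDiffAt ℝ ∞ W 0 := hM.smooth 0 (fun i => le_refl _)
  have hpd : ∀ i, ContDiffAt ℝ 4 (pd W i) 0 := by
    intro i
    have h5 : ContDiffAt ℝ ((4 + 1 : ℕ) : WithTop ℕ∞) W 0 := hW0.of_le (by
      show ((((4 + 1 : ℕ) : ℕ∞)) : WithTop ℕ∞) ≤ ((⊤ : ℕ∞) : WithTop ℕ∞)
      exact WithTop.coe_le_coe.2 le_top)
    exact_mod_cast ContDiffAt.pd (n := 4) h5 i
  have hF1 : ContDiff ℝ 4 (F1 R) := by
    unfold F1
    fun_prop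
  have ha : ContDiffAt ℝ 4 (aV R W) 0 := by
    unfold aV
    apply ContDiffAt.add
    · apply ContDiffAt.sum
      intro i _
      apply ContDiffAt.sub _ contDiffAt_const
      exact (hF1.comp (contDiff_apply ℝ ℝ i)).contDiffAt
    · exact ContDiffAt.sum fun i _ => hpd i
  obtain ⟨r, hr, hv⟩ := hM.vert_a
  obtain ⟨r₁, hr₁, hr₁', H1⟩ := hK (aV R W) ha r hr hv
  obtain ⟨r₂, hr₂, H2⟩ := vertex_cont hR (by linarith : 0 < L + 1) hW0 hM.vert_Q
  have hmin : 0 < min (min r₁ r₂) 1 := by positivity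
  refine ⟨min (min r₁ r₂) 1, hmin, min_le_right _ _, ?_, ?_⟩
  · intro t ρ hρ hρ' ht
    have hρ1 : ρ ≤ r₁ := hρ'.trans ((min_le_left _ _).trans (min_le_left _ _))
    obtain ⟨b1, b2, b3⟩ := H1 t ρ hρ hρ1 ht
    have hK1 : K ≤ max K |Ca| := le_max_left _ _
    refine ⟨?_, fun i => (b1 i).trans ?_, fun i j => (b2 i j).trans ?_,
      fun i j l => (b3 i j l).trans hK1⟩
    · refine (hv t ρ (hρ1.trans hr₁') ht).trans ?_
      apply mul_le_mul_of_nonneg_right _ (by positivity)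
      exact (le_abs_self Ca).trans (le_max_right _ _)
    · exact mul_le_mul_of_nonneg_right hK1 (by positivity)
    · exact mul_le_mul_of_nonneg_right hK1 hρ
  · intro t ht i₀ τ σ h1 h2 i j
    have ht' : ∀ i, |t i| ≤ r₂ := fun i =>
      (ht i).trans ((min_le_left _ _).trans (min_le_right _ _))
    have := H2 t ht' i₀ τ σ h1 h2 i j
    have e : L + 1 - 1 = L := by ring
    rwa [e] at this

variable {q : ℕ}

/-- the weighted bounds by `P' = P + l B` -/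
theorem weights {θ R : ℝ} (hR : 2 ≤ R) (hθ : θ = 1 / (8 * R)) {s : Fin q → ℝ}
    {ξ η : Fin q → ℂ} {i₀ : Fin q} {P : ℝ} (hP : 0 ≤ P) (h : P ^ 4 = P4 θ s ξ η i₀)
    {l B us : ℝ} {a b : ℂ} (hl : 0 < l) (hl1 : l ≤ 1) (hB : 0 ≤ B)
    (ha : ‖a - ξ i₀‖ ≤ l ^ 2 * B) (hb : ‖b - η i₀‖ ≤ l ^ 2 * B ^ 2) (hus : mx s ≤ us)
    (i : Fin q) :
    Real.exp (-((us - s i) / (8 * R))) * ‖a - ξ i‖ ≤ P + l * B ∧
      Real.exp (-((us - s i) / (4 * R))) * ‖b - η i‖ ≤ (P + l * B) ^ 2 := by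
  have hR0 : 0 < R := by linarith
  have hθ0 : 0 < θ := by rw [hθ]; positivity
  have hd : 0 ≤ mx s - s i := sub_nonneg.2 (le_mx s i)
  have e1 : (us - s i) / (8 * R) = θ * (us - s i) := by rw [hθ]; field_simp
  have e2 : (us - s i) / (4 * R) = 2 * θ * (us - s i) := by rw [hθ]; field_simp; ring
  rw [e1, e2]
  have hus' : mx s - s i ≤ us - s i := by linarith
  have w1 : Real.exp (-(θ * (us - s i))) ≤ Real.exp (-(θ / 2 * (mx s - s i))) := by
    apply exp_mono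
    nlinarith
  have w2 : Real.exp (-(2 * θ * (us - s i))) ≤ Real.exp (-(θ * (mx s - s i))) := by
    apply exp_mono
    nlinarith
  have w1' : Real.exp (-(θ * (us - s i))) ≤ 1 := Real.exp_le_one_iff.2 (by nlinarith)
  have w2' : Real.exp (-(2 * θ * (us - s i))) ≤ 1 := Real.exp_le_one_iff.2 (by nlinarith)
  have n1 : ‖a - ξ i‖ ≤ l ^ 2 * B + ‖ξ i - ξ i₀‖ := by
    have : a - ξ i = (a - ξ i₀) - (ξ i - ξ i₀) := by ring
    rw [this]
    exact (norm_sub_le _ _).trans (by linarith)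
  have n2 : ‖b - η i‖ ≤ l ^ 2 * B ^ 2 + ‖η i - η i₀‖ := by
    have : b - η i = (b - η i₀) - (η i - η i₀) := by ring
    rw [this]
    exact (norm_sub_le _ _).trans (by linarith)
  have p1 := P_xi hP h i
  have p2 := P_eta h i
  constructor
  · calc Real.exp (-(θ * (us - s i))) * ‖a - ξ i‖
        ≤ Real.exp (-(θ * (us - s i))) * (l ^ 2 * B + ‖ξ i - ξ i₀‖) :=
          mul_le_mul_of_nonneg_left n1 (Real.exp_pos _).le
      _ = Real.exp (-(θ * (us - s i))) * (l ^ 2 * B) +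
          Real.exp (-(θ * (us - s i))) * ‖ξ i - ξ i₀‖ := by ring
      _ ≤ 1 * (l ^ 2 * B) + Real.exp (-(θ / 2 * (mx s - s i))) * ‖ξ i - ξ i₀‖ := by
          gcongr
      _ ≤ l * B + P := by
          have : l ^ 2 ≤ l := by nlinarith
          have := mul_le_mul_of_nonneg_right this hB
          linarith
      _ = _ := by ring
  · calc Real.exp (-(2 * θ * (us - s i))) * ‖b - η i‖
        ≤ Real.exp (-(2 * θ * (us - s i))) * (l ^ 2 * B ^ 2 + ‖η i - η i₀‖) :=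
          mul_le_mul_of_nonneg_left n2 (Real.exp_pos _).le
      _ = Real.exp (-(2 * θ * (us - s i))) * (l ^ 2 * B ^ 2) +
          Real.exp (-(2 * θ * (us - s i))) * ‖η i - η i₀‖ := by ring
      _ ≤ 1 * (l ^ 2 * B ^ 2) + Real.exp (-(θ * (mx s - s i))) * ‖η i - η i₀‖ := by
          gcongr
      _ ≤ l ^ 2 * B ^ 2 + P ^ 2 := by linarith
      _ ≤ _ := by
          have : 0 ≤ P * (l * B) := by positivity
          nlinarith

theorem scale_norm {lam : ℝ} (h : 0 < lam) (a x : ℂ) :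
    ‖(lam : ℂ) * a - x‖ = lam * ‖a - x / (lam : ℂ)‖ := by
  have hne : (lam : ℂ) ≠ 0 := by exact_mod_cast h.ne'
  have e : (lam : ℂ) * a - x = (lam : ℂ) * (a - x / (lam : ℂ)) := by
    field_simp
  rw [e, norm_mul, Complex.norm_real, Real.norm_of_nonneg h.le]

/-- consequences of goodness at the rescaled point -/
theorem good_bounds {U : (Fin q → ℝ) → ℝ} {T C lam : ℝ} (hq : 1 ≤ q) (hlam : 0 < lam) (hC : 1 ≤ C)
    {s : Fin q → ℝ} {ξ η : Fin q → ℂ} {J0 : Jet}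
    (hg : GoodAt U T C (fun i => s i / lam))
    (hJ : HasJet (fun ζ => U (hpath (fun i => s i / lam) (fun i => ξ i / lam)
      (fun i => η i / lam) ζ)) J0) :
    ∃ B : ℝ, 0 ≤ B ∧ (∀ i ∈ tops s (lam * T), ‖(Jet.smul lam J0).a - ξ i‖ ≤ lam * B ∧
        ‖(Jet.smul lam J0).b - η i‖ ≤ lam * B ^ 2) ∧
      |(Jet.smul lam J0).h| ≤ lam * B ^ 2 ∧ ‖(Jet.smul lam J0).k‖ ≤ lam * B ^ 3 ∧
      1 / C ^ 4 * lam * B ^ 4 ≤ (Jet.smul lam J0).Q := by
  obtain ⟨A, hA, h1, h2, h3, h4⟩ := hg _ _ _ hJ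
  have hC0 : 0 < C := by linarith
  have hCC : C ≤ C ^ 2 := by nlinarith
  have hCC3 : C ≤ C ^ 3 := by
    calc C = C ^ 1 := (pow_one C).symm
      _ ≤ C ^ 3 := pow_le_pow_right₀ hC (by norm_num)
  refine ⟨C * A, by positivity, ?_, ?_, ?_, ?_⟩
  · intro i hi
    rw [← tops_div hq hlam] at hi
    obtain ⟨a1, a2⟩ := h4 i hi
    simp only [Jet.smul]
    rw [scale_norm hlam, scale_norm hlam]
    constructor
    · exact mul_le_mul_of_nonneg_left a1 hlam.le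
    · apply mul_le_mul_of_nonneg_left _ hlam.le
      refine a2.trans ?_
      have : 0 ≤ A ^ 2 := by positivity
      calc C * A ^ 2 ≤ C ^ 2 * A ^ 2 := mul_le_mul_of_nonneg_right hCC this
        _ = _ := by ring
  · simp only [Jet.smul]
    rw [abs_mul, abs_of_pos hlam]
    apply mul_le_mul_of_nonneg_left _ hlam.le
    refine h2.trans ?_
    have : 0 ≤ A ^ 2 := by positivity
    calc C * A ^ 2 ≤ C ^ 2 * A ^ 2 := mul_le_mul_of_nonneg_right hCC this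
      _ = _ := by ring
  · simp only [Jet.smul]
    rw [norm_mul, Complex.norm_real, Real.norm_of_nonneg hlam.le]
    apply mul_le_mul_of_nonneg_left _ hlam.le
    refine h3.trans ?_
    have : 0 ≤ A ^ 3 := by positivity
    calc C * A ^ 3 ≤ C ^ 3 * A ^ 3 := mul_le_mul_of_nonneg_right hCC3 this
      _ = _ := by ring
  · simp only [Jet.smul]
    have e : 1 / C ^ 4 * lam * (C * A) ^ 4 = lam * A ^ 4 := by field_simp
    rw [e]
    exact mul_le_mul_of_nonneg_left h1 hlam.le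

/-- consequences of the global bounds at the rescaled point -/
theorem bdd_bounds {U : (Fin q → ℝ) → ℝ} {C ϑ lam : ℝ} (hq : 1 ≤ q) (hlam : 0 < lam) (hC : 1 ≤ C)
    (hU : Bdd U C ϑ) {s : Fin q → ℝ} {ξ η : Fin q → ℂ} {i₀ : Fin q} (hi₀ : s i₀ = mx s) {J0 : Jet}
    (hJ : HasJet (fun ζ => U (hpath (fun i => s i / lam) (fun i => ξ i / lam)
      (fun i => η i / lam) ζ)) J0) :
    ∃ B : ℝ, B = C * A0 ϑ (fun i => s i / lam) (fun i => ξ i / lam) (fun i => η i / lam) i₀ ∧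
      0 ≤ B ∧ ‖(Jet.smul lam J0).a - ξ i₀‖ ≤ lam * B ∧
      ‖(Jet.smul lam J0).b - η i₀‖ ≤ lam * B ^ 2 ∧
      |(Jet.smul lam J0).h| ≤ lam * B ^ 2 ∧ ‖(Jet.smul lam J0).k‖ ≤ lam * B ^ 3 ∧
      |(Jet.smul lam J0).Q| ≤ lam * B ^ 4 := by
  have hi : (fun i => s i / lam) i₀ = mx (fun i => s i / lam) := by
    rw [mx_div hq hlam, ← hi₀]
  obtain ⟨h1, h2, h3, h4, h5⟩ := hU.jets _ _ _ i₀ hi J0 hJ
  refine ⟨_, rfl, ?_, ?_, ?_, ?_, ?_, ?_⟩
  · have : 0 ≤ A0 ϑ (fun i => s i / lam) (fun i => ξ i / lam) (fun i => η i / lam) i₀ := by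
      unfold A0
      exact Finset.sum_nonneg fun i _ => by positivity
    have hC0 : 0 ≤ C := by linarith
    positivity
  · simp only [Jet.smul]
    rw [scale_norm hlam]
    exact mul_le_mul_of_nonneg_left h1 hlam.le
  · simp only [Jet.smul]
    rw [scale_norm hlam]
    exact mul_le_mul_of_nonneg_left h2 hlam.le
  · simp only [Jet.smul]
    rw [abs_mul, abs_of_pos hlam]
    exact mul_le_mul_of_nonneg_left h3 hlam.le
  · simp only [Jet.smul]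
    rw [norm_mul, Complex.norm_real, Real.norm_of_nonneg hlam.le]
    exact mul_le_mul_of_nonneg_left h4 hlam.le
  · simp only [Jet.smul]
    rw [abs_mul, abs_of_pos hlam]
    exact mul_le_mul_of_nonneg_left h5 hlam.le

/-- bound of `lam * B` in case A2 -/
theorem B_caseA2 (hq : 1 ≤ q) {θ ϑ C l R R₂ X Y P : ℝ} (hR : 2 ≤ R) (hθ : θ = 1 / (8 * R))
    (hC : 1 ≤ C) (hl : 0 < l) (hl1 : l ≤ 1) (hϑ : l ^ 2 ≤ ϑ)
    {s : Fin q → ℝ} {ξ η : Fin q → ℂ} {i₀ : Fin q} {D : Finset (Fin q)}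
    (hP : 0 ≤ P) (hP4 : P ^ 4 = P4 θ s ξ η i₀)
    (hX0 : 0 ≤ X) (hX : ∀ i, i ∉ D → ‖ξ i - ξ i₀‖ ≤ X) (hY : ∀ i, i ∉ D → ‖η i - η i₀‖ ≤ Y)
    (hD : ∀ i ∈ D, R₂ ≤ mx s - s i) (hR₂ : C * (2 * q) * Real.exp (-(R₂ / 2)) ≤ 1) (hR20 : 0 ≤ R₂) :
    l ^ 2 * (C * A0 ϑ (fun i => s i / (l ^ 2)) (fun i => ξ i / ((l ^ 2 : ℝ) : ℂ))
      (fun i => η i / ((l ^ 2 : ℝ) : ℂ)) i₀)
      ≤ (C * q) * (X + Real.sqrt (l ^ 2 * Y)) + Real.exp (-(R₂ / (2 * R))) * P := by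
  have hlam : 0 < l ^ 2 := by positivity
  have hR0 : 0 < R := by linarith
  have hθ0 : 0 < θ := by rw [hθ]; positivity
  have hθ1 : θ ≤ 1 / 16 := by
    rw [hθ]
    apply one_div_le_one_div_of_le (by norm_num)
    linarith
  have hC0 : 0 < C := by linarith
  have hq0 : (0 : ℝ) < q := by exact_mod_cast hq
  -- termwise
  have key : ∀ i, l ^ 2 * (Real.exp (-(ϑ * (mx (fun i => s i / (l ^ 2)) - s i / (l ^ 2)))) *
      (‖ξ i / ((l ^ 2 : ℝ) : ℂ) - ξ i₀ / ((l ^ 2 : ℝ) : ℂ)‖ +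
        Real.sqrt ‖η i / ((l ^ 2 : ℝ) : ℂ) - η i₀ / ((l ^ 2 : ℝ) : ℂ)‖)) ≤
      (X + Real.sqrt (l ^ 2 * Y)) + 2 * (Real.exp (-(R₂ / 2)) *
        (Real.exp (-(R₂ / (2 * R))) * P)) := by
    intro i
    have hd : 0 ≤ mx s - s i := sub_nonneg.2 (le_mx s i)
    rw [mx_div hq hlam, ← sub_div]
    have n1 : ‖ξ i / ((l ^ 2 : ℝ) : ℂ) - ξ i₀ / ((l ^ 2 : ℝ) : ℂ)‖ = ‖ξ i - ξ i₀‖ / l ^ 2 := by
      rw [← sub_div, norm_div, Complex.norm_real, Real.norm_of_nonneg hlam.le]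
    have n2 : ‖η i / ((l ^ 2 : ℝ) : ℂ) - η i₀ / ((l ^ 2 : ℝ) : ℂ)‖ = ‖η i - η i₀‖ / l ^ 2 := by
      rw [← sub_div, norm_div, Complex.norm_real, Real.norm_of_nonneg hlam.le]
    rw [n1, n2]
    have n3 : l ^ 2 * Real.sqrt (‖η i - η i₀‖ / l ^ 2) = l * Real.sqrt ‖η i - η i₀‖ := by
      rw [Real.sqrt_div (norm_nonneg _), Real.sqrt_sq hl.le]
      field_simp
    have e0 : l ^ 2 * (Real.exp (-(ϑ * ((mx s - s i) / l ^ 2))) *
        (‖ξ i - ξ i₀‖ / l ^ 2 + Real.sqrt (‖η i - η i₀‖ / l ^ 2))) =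
        Real.exp (-(ϑ * ((mx s - s i) / l ^ 2))) *
          (‖ξ i - ξ i₀‖ + l * Real.sqrt ‖η i - η i₀‖) := by
      rw [← n3]
      field_simp
    rw [e0]
    have w0 : mx s - s i ≤ ϑ * ((mx s - s i) / l ^ 2) := by
      rw [mul_div_assoc', le_div_iff₀ hlam]
      nlinarith
    by_cases hi : i ∈ D
    · have hRd := hD i hi
      have w1 : Real.exp (-(ϑ * ((mx s - s i) / l ^ 2))) ≤
          (Real.exp (-(R₂ / 2)) * Real.exp (-(R₂ / (2 * R)))) *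
            Real.exp (-(θ / 2 * (mx s - s i))) := by
        rw [← Real.exp_add, ← Real.exp_add]
        apply exp_mono
        have z1 : R₂ / (2 * R) ≤ R₂ / 4 := by
          apply div_le_div_of_nonneg_left hR20 (by norm_num)
          linarith
        have z2 : θ / 2 * (mx s - s i) ≤ 1 / 32 * (mx s - s i) :=
          mul_le_mul_of_nonneg_right (by linarith) hd
        linarith
      have p1 := P_xi hP hP4 i
      have p2 : Real.exp (-(θ / 2 * (mx s - s i))) * Real.sqrt ‖η i - η i₀‖ ≤ P := by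
        apply le_of_sq_le_sq _ hP
        rw [mul_pow, Real.sq_sqrt (norm_nonneg _), ← Real.exp_nat_mul]
        have : ((2 : ℕ) : ℝ) * -(θ / 2 * (mx s - s i)) = -(θ * (mx s - s i)) := by
          push_cast; ring
        rw [this]
        exact P_eta hP4 i
      have p3 : l * Real.sqrt ‖η i - η i₀‖ ≤ Real.sqrt ‖η i - η i₀‖ := by
        have := Real.sqrt_nonneg ‖η i - η i₀‖
        nlinarith
      have hs0 : 0 ≤ X + Real.sqrt (l ^ 2 * Y) := by positivity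
      calc Real.exp (-(ϑ * ((mx s - s i) / l ^ 2))) *
          (‖ξ i - ξ i₀‖ + l * Real.sqrt ‖η i - η i₀‖)
          ≤ ((Real.exp (-(R₂ / 2)) * Real.exp (-(R₂ / (2 * R)))) *
            Real.exp (-(θ / 2 * (mx s - s i)))) *
            (‖ξ i - ξ i₀‖ + Real.sqrt ‖η i - η i₀‖) := by
            apply mul_le_mul w1 (by linarith) (by positivity) (by positivity)
        _ = (Real.exp (-(R₂ / 2)) * Real.exp (-(R₂ / (2 * R)))) *
            (Real.exp (-(θ / 2 * (mx s - s i))) * ‖ξ i - ξ i₀‖ +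
             Real.exp (-(θ / 2 * (mx s - s i))) * Real.sqrt ‖η i - η i₀‖) := by ring
        _ ≤ (Real.exp (-(R₂ / 2)) * Real.exp (-(R₂ / (2 * R)))) * (P + P) := by
            gcongr
        _ ≤ _ := by linarith
    · have w2 : Real.exp (-(ϑ * ((mx s - s i) / l ^ 2))) ≤ 1 :=
        Real.exp_le_one_iff.2 (by linarith)
      have z1 : l * Real.sqrt ‖η i - η i₀‖ ≤ Real.sqrt (l ^ 2 * Y) := by
        have : Real.sqrt (l ^ 2 * Y) = l * Real.sqrt Y := by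
          rw [Real.sqrt_mul (by positivity), Real.sqrt_sq hl.le]
        rw [this]
        exact mul_le_mul_of_nonneg_left (Real.sqrt_le_sqrt (hY i hi)) hl.le
      have z2 : 0 ≤ 2 * (Real.exp (-(R₂ / 2)) * (Real.exp (-(R₂ / (2 * R))) * P)) := by
        positivity
      have z3 : 0 ≤ ‖ξ i - ξ i₀‖ + l * Real.sqrt ‖η i - η i₀‖ := by positivity
      have := mul_le_mul_of_nonneg_right w2 z3
      have := hX i hi
      linarith
  have hsum : l ^ 2 * A0 ϑ (fun i => s i / (l ^ 2)) (fun i => ξ i / ((l ^ 2 : ℝ) : ℂ))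
      (fun i => η i / ((l ^ 2 : ℝ) : ℂ)) i₀ ≤ q * ((X + Real.sqrt (l ^ 2 * Y)) +
        2 * (Real.exp (-(R₂ / 2)) * (Real.exp (-(R₂ / (2 * R))) * P))) := by
    unfold A0
    rw [Finset.mul_sum]
    calc _ ≤ ∑ i : Fin q, ((X + Real.sqrt (l ^ 2 * Y)) +
        2 * (Real.exp (-(R₂ / 2)) * (Real.exp (-(R₂ / (2 * R))) * P))) :=
          Finset.sum_le_sum fun i _ => key i
      _ = _ := by
        rw [Finset.sum_const, Finset.card_univ, Fintype.card_fin, nsmul_eq_mul]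
  have h2 := mul_le_mul_of_nonneg_left hsum hC0.le
  have h3 : 0 ≤ Real.exp (-(R₂ / (2 * R))) * P := by positivity
  have h4 := mul_le_mul_of_nonneg_right hR₂ h3
  calc l ^ 2 * (C * A0 ϑ (fun i => s i / (l ^ 2)) (fun i => ξ i / ((l ^ 2 : ℝ) : ℂ))
      (fun i => η i / ((l ^ 2 : ℝ) : ℂ)) i₀) = C * (l ^ 2 * A0 ϑ (fun i => s i / (l ^ 2))
        (fun i => ξ i / ((l ^ 2 : ℝ) : ℂ)) (fun i => η i / ((l ^ 2 : ℝ) : ℂ)) i₀) := by ring
    _ ≤ C * (q * ((X + Real.sqrt (l ^ 2 * Y)) +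
        2 * (Real.exp (-(R₂ / 2)) * (Real.exp (-(R₂ / (2 * R))) * P)))) := h2
    _ = (C * q) * (X + Real.sqrt (l ^ 2 * Y)) + C * (2 * q) * Real.exp (-(R₂ / 2)) *
        (Real.exp (-(R₂ / (2 * R))) * P) := by ring
    _ ≤ _ := by linarith

end Stp

end

end Pool.Agent.H789.HSC
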