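import Mathlib

open scoped BigOperators ContDiff ComplexConjugate Topology

namespace Pool.Agent.H789.HSC

noncomputable section

namespace T5aux

/-- the algebraic core of `RUN_pos` -/
theorem core {θ e H Q y : ℝ} {τ σ K : ℂ} (hθ : 0 < θ) (hθ1 : θ ≤ 1) (he : 0 < e) (he1 : e ≤ 1)
    (hy : 0 ≤ y) (hH : |H| ≤ y ^ 2) (hK : ‖K‖ ≤ y ^ 3) (hQ : |Q| ≤ y ^ 4) :
    θ ^ 4 / 14 * (e ^ 2 * ‖τ‖ ^ 4) + θ ^ 2 / 7 * (e ^ 2 * ‖σ‖ ^ 2) - 2000 * y ^ 4 ≤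
      (e * (-θ * Q + θ ^ 2 * (2 * H ^ 2 + ‖σ‖ ^ 2 + 4 * (τ * conj K).re) -
        θ ^ 3 * (4 * ‖τ‖ ^ 2 * H + 2 * ((conj τ) ^ 2 * σ).re) + θ ^ 4 * ‖τ‖ ^ 4)) +
      1 / 4 * (e ^ 2 * (-(2 * θ) * Q + (2 * θ) ^ 2 * (2 * H ^ 2 + ‖σ‖ ^ 2 + 4 * (τ * conj K).re) -
        (2 * θ) ^ 3 * (4 * ‖τ‖ ^ 2 * H + 2 * ((conj τ) ^ 2 * σ).re) + (2 * θ) ^ 4 * ‖τ‖ ^ 4)) := by
  set n := ‖τ‖ with hn
  have hn0 : 0 ≤ n := norm_nonneg _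
  set m := ‖σ‖ with hm
  have hm0 : 0 ≤ m := norm_nonneg _
  set r := ((conj τ) ^ 2 * σ).re with hr
  set p := (τ * conj K).re with hp
  have hp1 : |p| ≤ n * y ^ 3 := by
    refine (Complex.abs_re_le_norm _).trans ?_
    rw [norm_mul, Complex.norm_conj]
    gcongr
  have hp2 : -(n * y ^ 3) ≤ p := (abs_le.1 hp1).1
  -- r against n and m
  have hr1 : |r| ≤ n ^ 2 * m := by
    refine (Complex.abs_re_le_norm _).trans ?_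
    rw [norm_mul, norm_pow, Complex.norm_conj]
  have hr2 : r ≤ n ^ 2 * m := (abs_le.1 hr1).2
  have hr3 : -(n ^ 2 * m) ≤ r := (abs_le.1 hr1).1
  -- the squares
  have sq1 : 0 ≤ m ^ 2 - 2 * θ * r + θ ^ 2 * n ^ 4 := by
    nlinarith [sq_nonneg (m - θ * n ^ 2)]
  have sq2 : 0 ≤ m ^ 2 - 4 * θ * r + 4 * θ ^ 2 * n ^ 4 := by
    nlinarith [sq_nonneg (m - 2 * θ * n ^ 2)]
  have sqs : (θ ^ 2 * n ^ 4 + m ^ 2) / 7 ≤ (m ^ 2 - 2 * θ * r + θ ^ 2 * n ^ 4) +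
      (m ^ 2 - 4 * θ * r + 4 * θ ^ 2 * n ^ 4) := by
    have e1 : θ * r ≤ θ * (n ^ 2 * m) := by gcongr
    nlinarith [sq_nonneg (m - 3 / 2 * (θ * n ^ 2)), sq_nonneg (m - 2 * (θ * n ^ 2)),
      sq_nonneg (θ * n ^ 2), sq_nonneg m]
  have hee : e ^ 2 ≤ e := by nlinarith
  have e0 : 0 ≤ e ^ 2 := by positivity
  -- lower bound of the squares
  have S : θ ^ 2 / 7 * (e ^ 2 * (θ ^ 2 * n ^ 4 + m ^ 2)) ≤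
      e * (θ ^ 2 * (m ^ 2 - 2 * θ * r + θ ^ 2 * n ^ 4)) +
      e ^ 2 * (θ ^ 2 * (m ^ 2 - 4 * θ * r + 4 * θ ^ 2 * n ^ 4)) := by
    have t1 : e ^ 2 * (θ ^ 2 * (m ^ 2 - 2 * θ * r + θ ^ 2 * n ^ 4)) ≤
        e * (θ ^ 2 * (m ^ 2 - 2 * θ * r + θ ^ 2 * n ^ 4)) := by gcongr
    have t2 : e ^ 2 * θ ^ 2 * ((θ ^ 2 * n ^ 4 + m ^ 2) / 7) ≤ e ^ 2 * θ ^ 2 *
        ((m ^ 2 - 2 * θ * r + θ ^ 2 * n ^ 4) + (m ^ 2 - 4 * θ * r + 4 * θ ^ 2 * n ^ 4)) := by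
      gcongr
    nlinarith
  -- the other terms
  set x := Real.sqrt e * n with hx
  have hx0 : 0 ≤ x := by positivity
  have hse : Real.sqrt e ^ 2 = e := Real.sq_sqrt he.le
  have hse1 : Real.sqrt e ≤ 1 := Real.sqrt_le_one.2 he1
  have hse0 := Real.sqrt_nonneg e
  have hx2 : x ^ 2 = e * n ^ 2 := by rw [hx, mul_pow, hse]
  have hx4 : x ^ 4 = e ^ 2 * n ^ 4 := by
    have : x ^ 4 = (x ^ 2) ^ 2 := by ring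
    rw [this, hx2]; ring
  have hen : e * n ≤ x := by
    rw [hx]
    have : e = Real.sqrt e * Real.sqrt e := by rw [← sq, hse]
    calc e * n = Real.sqrt e * (Real.sqrt e * n) := by rw [← mul_assoc, ← this]
      _ ≤ 1 * (Real.sqrt e * n) := by gcongr
      _ = _ := one_mul _
  have P1 : -(x * y ^ 3) ≤ e * p := by
    have : e * (n * y ^ 3) ≤ x * y ^ 3 := by
      rw [← mul_assoc]; gcongr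
    nlinarith
  have P2 : -(x * y ^ 3) ≤ e ^ 2 * p := by
    have h1 : e ^ 2 * (n * y ^ 3) ≤ x * y ^ 3 := by
      calc e ^ 2 * (n * y ^ 3) ≤ e * (n * y ^ 3) := by gcongr
        _ = (e * n) * y ^ 3 := by ring
        _ ≤ x * y ^ 3 := by gcongr
    nlinarith
  have hH2 : H ≤ y ^ 2 := (abs_le.1 hH).2
  have hQ2 : Q ≤ y ^ 4 := (abs_le.1 hQ).2
  have H1 : e * n ^ 2 * H ≤ x ^ 2 * y ^ 2 := by rw [hx2]; gcongr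
  have H2 : e ^ 2 * n ^ 2 * H ≤ x ^ 2 * y ^ 2 := by
    rw [hx2]
    calc e ^ 2 * n ^ 2 * H ≤ e ^ 2 * n ^ 2 * y ^ 2 := by gcongr
      _ ≤ e * n ^ 2 * y ^ 2 := by gcongr
  have Q1 : e * Q ≤ y ^ 4 := by
    calc e * Q ≤ e * y ^ 4 := by gcongr
      _ ≤ 1 * y ^ 4 := by gcongr
      _ = _ := one_mul _
  have Q2 : e ^ 2 * Q ≤ y ^ 4 := by
    calc e ^ 2 * Q ≤ e ^ 2 * y ^ 4 := by gcongr
      _ ≤ 1 * y ^ 4 := by gcongr; exact pow_le_one₀ he.le he1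
      _ = _ := one_mul _
  have hHH : 0 ≤ e * (θ ^ 2 * (2 * H ^ 2)) + e ^ 2 * (θ ^ 2 * (2 * H ^ 2)) := by positivity
  -- rewrite the right-hand side
  have RHS : (e * (-θ * Q + θ ^ 2 * (2 * H ^ 2 + m ^ 2 + 4 * p) -
        θ ^ 3 * (4 * n ^ 2 * H + 2 * r) + θ ^ 4 * n ^ 4)) +
      1 / 4 * (e ^ 2 * (-(2 * θ) * Q + (2 * θ) ^ 2 * (2 * H ^ 2 + m ^ 2 + 4 * p) -
        (2 * θ) ^ 3 * (4 * n ^ 2 * H + 2 * r) + (2 * θ) ^ 4 * n ^ 4)) =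
      (e * (θ ^ 2 * (m ^ 2 - 2 * θ * r + θ ^ 2 * n ^ 4)) +
      e ^ 2 * (θ ^ 2 * (m ^ 2 - 4 * θ * r + 4 * θ ^ 2 * n ^ 4))) +
      (e * (θ ^ 2 * (2 * H ^ 2)) + e ^ 2 * (θ ^ 2 * (2 * H ^ 2))) +
      4 * θ ^ 2 * (e * p) + 4 * θ ^ 2 * (e ^ 2 * p) - 4 * θ ^ 3 * (e * n ^ 2 * H) -
      8 * θ ^ 3 * (e ^ 2 * n ^ 2 * H) - θ * (e * Q) - θ / 2 * (e ^ 2 * Q) := by ring
  rw [RHS]
  have G1 : -(4 * θ ^ 2 * (x * y ^ 3)) ≤ 4 * θ ^ 2 * (e * p) := by nlinarith [sq_nonneg θ]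
  have G2 : -(4 * θ ^ 2 * (x * y ^ 3)) ≤ 4 * θ ^ 2 * (e ^ 2 * p) := by nlinarith [sq_nonneg θ]
  have hθ3 : 0 ≤ θ ^ 3 := by positivity
  have G3 : 4 * θ ^ 3 * (e * n ^ 2 * H) ≤ 4 * θ ^ 3 * (x ^ 2 * y ^ 2) := by gcongr
  have G4 : 8 * θ ^ 3 * (e ^ 2 * n ^ 2 * H) ≤ 8 * θ ^ 3 * (x ^ 2 * y ^ 2) := by gcongr
  have G5 : θ * (e * Q) ≤ θ * y ^ 4 := by gcongr
  have G6 : θ / 2 * (e ^ 2 * Q) ≤ θ / 2 * y ^ 4 := by gcongr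
  -- Young
  have Y1 : 8 * θ ^ 2 * (x * y ^ 3) ≤ θ ^ 4 / 28 * x ^ 4 + 116 * y ^ 4 := by
    have a1 : 8 * θ ^ 2 * (x * y ^ 3) ≤ 4 * (θ ^ 2 * (x ^ 2 * y ^ 2)) + 4 * y ^ 4 := by
      have b1 : 2 * (x * y ^ 3) ≤ x ^ 2 * y ^ 2 + y ^ 4 := by
        nlinarith [mul_nonneg (sq_nonneg y) (sq_nonneg (x - y))]
      have b2 : θ ^ 2 * y ^ 4 ≤ 1 * y ^ 4 := by gcongr; exact pow_le_one₀ hθ.le hθ1
      have b3 : θ ^ 2 * (2 * (x * y ^ 3)) ≤ θ ^ 2 * (x ^ 2 * y ^ 2 + y ^ 4) := by gcongr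
      nlinarith
    have a2 : 4 * (θ ^ 2 * (x ^ 2 * y ^ 2)) ≤ θ ^ 4 / 28 * x ^ 4 + 112 * y ^ 4 := by
      nlinarith [sq_nonneg (θ ^ 2 * x ^ 2 - 56 * y ^ 2)]
    linarith
  have Y2 : 12 * θ ^ 3 * (x ^ 2 * y ^ 2) ≤ θ ^ 4 / 28 * x ^ 4 + 1008 * y ^ 4 := by
    have b0 : θ ^ 3 * (x ^ 2 * y ^ 2) ≤ θ ^ 2 * (x ^ 2 * y ^ 2) := by
      have : θ ^ 3 ≤ θ ^ 2 := pow_le_pow_of_le_one hθ.le hθ1 (by norm_num)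
      gcongr
    nlinarith [sq_nonneg (θ ^ 2 * x ^ 2 - 168 * y ^ 2)]
  have hy4 : 0 ≤ y ^ 4 := by positivity
  have Z : θ * y ^ 4 + θ / 2 * y ^ 4 ≤ 2 * y ^ 4 := by nlinarith
  have S' : θ ^ 4 / 7 * x ^ 4 + θ ^ 2 / 7 * (e ^ 2 * m ^ 2) ≤
      e * (θ ^ 2 * (m ^ 2 - 2 * θ * r + θ ^ 2 * n ^ 4)) +
      e ^ 2 * (θ ^ 2 * (m ^ 2 - 4 * θ * r + 4 * θ ^ 2 * n ^ 4)) := by
    refine le_trans (le_of_eq ?_) S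
    rw [hx4]; ring
  rw [← hx4]
  linarith

end T5aux

end

end Pool.Agent.H789.HSC
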