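import Pool.Agent.H789.HSC.Recur
import Pool.Agent.H789.HSC.JetCalc
import Pool.Agent.H789.HSC.T5a
import Pool.Agent.H789.HSC.T5c

open scoped BigOperators ContDiff ComplexConjugate Topology

namespace Pool.Agent.H789.HSC

noncomputable section

variable {q : ℕ}

open T5aux

/-- positivity of `RUN` -/
theorem RUN_pos (hq : 1 ≤ q) {θ : ℝ} (h0 : 0 < θ) (h1 : θ ≤ 1 / 8) :
    ∃ c C : ℝ, 0 < c ∧ ∀ (s : Fin q → ℝ) (ξ η : Fin q → ℂ) (i₀ : Fin q), s i₀ = mx s → ∀ J : Jet,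
      HasJet (fun ζ => RUN θ (hpath s ξ η ζ)) J →
      c * ∑ i, Real.exp (-(2 * θ * (mx s - s i))) * (‖ξ i - ξ i₀‖ ^ 4 + ‖η i - η i₀‖ ^ 2)
        - C * A0 (1 / 4) s ξ η i₀ ^ 4 ≤ J.Q := by
  have hq1 : (1 : ℝ) ≤ q := by exact_mod_cast hq
  have hθ1 : θ ≤ 1 := by linarith
  refine ⟨θ ^ 4 / (112 * q ^ 2), q * (2002 * 24 ^ 4), by positivity, ?_⟩
  intro s ξ η i₀ hi₀ J hJ
  obtain ⟨L, hL, hLS, hLv⟩ := lse_jet hq s ξ η i₀ hi₀
  have hJK := HasJet.unique hJ (hasJet_RUN hL)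
  subst hJK
  obtain ⟨l1, l2, l3, l4, l5⟩ := hLS
  set y := 24 * A0 (1 / 4) s ξ η i₀ with hy
  have hA0 := A0_nonneg (1 / 4) s ξ η i₀
  have hy0 : 0 ≤ y := by positivity
  have hterm : ∀ i ∈ (Finset.univ : Finset (Fin q)),
      θ ^ 4 / (112 * q ^ 2) * (Real.exp (-(2 * θ * (mx s - s i))) *
        (‖ξ i - ξ i₀‖ ^ 4 + ‖η i - η i₀‖ ^ 2)) - 2002 * y ^ 4 ≤
      ((eJ θ (tJ L s ξ η i)).add (Jet.smul (1 / 4) (eJ (2 * θ) (tJ L s ξ η i)))).Q := by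
    intro i _
    obtain ⟨tv, ta, tb, th, tk, tQ⟩ := tJ_fields L s ξ η i
    have hd : 0 ≤ mx s - s i := sub_nonneg.2 (le_mx s i)
    have ht0 : 0 ≤ L.v - s i := by
      rw [hLv]; exact sub_nonneg.2 (le_lse hq s i)
    set e := Real.exp (-(θ * (L.v - s i))) with he
    have he0 : 0 < e := Real.exp_pos _
    have he1 : e ≤ 1 := by
      rw [he, Real.exp_le_one_iff]
      have := mul_nonneg h0.le ht0
      linarith
    have he2 : Real.exp (-(2 * θ * (L.v - s i))) = e ^ 2 := by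
      rw [he, ← Real.exp_nat_mul]
      congr 1
      push_cast
      ring
    have hc := core (θ := θ) (e := e) (H := L.h) (Q := L.Q) (y := y) (τ := L.a - ξ i)
      (σ := L.b - η i) (K := L.k) h0 hθ1 he0 he1 hy0 l3 l4 l5
    -- identify the Q component
    have hQ : ((eJ θ (tJ L s ξ η i)).add (Jet.smul (1 / 4) (eJ (2 * θ) (tJ L s ξ η i)))).Q =
        (e * (-θ * L.Q + θ ^ 2 * (2 * L.h ^ 2 + ‖L.b - η i‖ ^ 2 + 4 * ((L.a - ξ i) * conj L.k).re) -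
          θ ^ 3 * (4 * ‖L.a - ξ i‖ ^ 2 * L.h + 2 * ((conj (L.a - ξ i)) ^ 2 * (L.b - η i)).re) +
          θ ^ 4 * ‖L.a - ξ i‖ ^ 4)) +
        1 / 4 * (e ^ 2 * (-(2 * θ) * L.Q + (2 * θ) ^ 2 * (2 * L.h ^ 2 + ‖L.b - η i‖ ^ 2 +
          4 * ((L.a - ξ i) * conj L.k).re) - (2 * θ) ^ 3 * (4 * ‖L.a - ξ i‖ ^ 2 * L.h +
          2 * ((conj (L.a - ξ i)) ^ 2 * (L.b - η i)).re) + (2 * θ) ^ 4 * ‖L.a - ξ i‖ ^ 4)) := by
      simp only [Jet.add, Jet.smul, eJ, Jet.comp]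
      rw [tv, ta, tb, th, tk, tQ, he2, ← he]
      ring
    rw [hQ]
    refine le_trans ?_ hc
    -- comparison of the weights
    have heq : Real.exp (-(2 * θ * (mx s - s i))) ≤ q ^ 2 * e ^ 2 := by
      have hq0 : (0 : ℝ) < q := by linarith
      have h5 : Real.exp (-(θ * (mx s - s i))) ≤ q * e := by
        have h6 : (q : ℝ) = Real.exp (Real.log q) := (Real.exp_log hq0).symm
        rw [h6, he, ← Real.exp_add]
        apply Real.exp_le_exp.2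
        have h7 := lse_le hq s
        have h8 : 0 ≤ Real.log q := Real.log_nonneg hq1
        rw [hLv]
        nlinarith
      have h9 : Real.exp (-(2 * θ * (mx s - s i))) = Real.exp (-(θ * (mx s - s i))) ^ 2 := by
        rw [← Real.exp_nat_mul]
        congr 1
        push_cast
        ring
      rw [h9, ← mul_pow]
      have := (Real.exp_pos (-(θ * (mx s - s i)))).le
      gcongr
    set g := Real.exp (-(2 * θ * (mx s - s i))) with hg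
    have hg0 : 0 ≤ g := (Real.exp_pos _).le
    have hg1 : g ≤ 1 := by
      rw [hg, Real.exp_le_one_iff]
      have := mul_nonneg h0.le hd
      linarith
    have hX : ‖ξ i - ξ i₀‖ ≤ ‖L.a - ξ i‖ + y := by
      have : ξ i - ξ i₀ = (L.a - ξ i₀) - (L.a - ξ i) := by ring
      rw [this]
      refine (norm_sub_le _ _).trans ?_
      linarith
    have hY : ‖η i - η i₀‖ ≤ ‖L.b - η i‖ + y ^ 2 := by
      have : η i - η i₀ = (L.b - η i₀) - (L.b - η i) := by ring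
      rw [this]
      refine (norm_sub_le _ _).trans ?_
      linarith
    have hn0 := norm_nonneg (L.a - ξ i)
    have hm0 := norm_nonneg (L.b - η i)
    set n := ‖L.a - ξ i‖ with hn
    set m := ‖L.b - η i‖ with hm
    have hX4 : ‖ξ i - ξ i₀‖ ^ 4 ≤ 8 * (n ^ 4 + y ^ 4) := by
      have h5 : ‖ξ i - ξ i₀‖ ^ 4 ≤ (n + y) ^ 4 := by gcongr
      have h6 : (n + y) ^ 2 ≤ 2 * (n ^ 2 + y ^ 2) := by nlinarith [sq_nonneg (n - y)]
      have h7 : (n + y) ^ 4 ≤ (2 * (n ^ 2 + y ^ 2)) ^ 2 := by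
        have : (n + y) ^ 4 = ((n + y) ^ 2) ^ 2 := by ring
        rw [this]; gcongr
      nlinarith [sq_nonneg (n ^ 2 - y ^ 2)]
    have hY2 : ‖η i - η i₀‖ ^ 2 ≤ 2 * (m ^ 2 + y ^ 4) := by
      have h5 : ‖η i - η i₀‖ ^ 2 ≤ (m + y ^ 2) ^ 2 := by gcongr
      nlinarith [sq_nonneg (m - y ^ 2)]
    have hq0 : (0 : ℝ) < q := by linarith
    have hy4 : 0 ≤ y ^ 4 := by positivity
    have hT2 : θ ^ 2 ≤ 1 := pow_le_one₀ h0.le hθ1
    have hT4 : θ ^ 4 ≤ θ ^ 2 := pow_le_pow_of_le_one h0.le hθ1 (by norm_num)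
    have hT0 : 0 ≤ θ ^ 4 := by positivity
    -- main estimate
    have k1 : g * ‖ξ i - ξ i₀‖ ^ 4 ≤ 8 * (q ^ 2 * e ^ 2 * n ^ 4 + y ^ 4) := by
      calc g * ‖ξ i - ξ i₀‖ ^ 4 ≤ g * (8 * (n ^ 4 + y ^ 4)) := by gcongr
        _ = 8 * (g * n ^ 4 + g * y ^ 4) := by ring
        _ ≤ 8 * (q ^ 2 * e ^ 2 * n ^ 4 + 1 * y ^ 4) := by gcongr
        _ = _ := by ring
    have k2 : g * ‖η i - η i₀‖ ^ 2 ≤ 2 * (q ^ 2 * e ^ 2 * m ^ 2 + y ^ 4) := by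
      calc g * ‖η i - η i₀‖ ^ 2 ≤ g * (2 * (m ^ 2 + y ^ 4)) := by gcongr
        _ = 2 * (g * m ^ 2 + g * y ^ 4) := by ring
        _ ≤ 2 * (q ^ 2 * e ^ 2 * m ^ 2 + 1 * y ^ 4) := by gcongr
        _ = _ := by ring
    have k3 : θ ^ 4 / (112 * q ^ 2) * (g * (‖ξ i - ξ i₀‖ ^ 4 + ‖η i - η i₀‖ ^ 2)) ≤
        θ ^ 4 / (112 * q ^ 2) * (8 * (q ^ 2 * e ^ 2 * n ^ 4 + y ^ 4) +
          2 * (q ^ 2 * e ^ 2 * m ^ 2 + y ^ 4)) := by
      have : g * (‖ξ i - ξ i₀‖ ^ 4 + ‖η i - η i₀‖ ^ 2) =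
        g * ‖ξ i - ξ i₀‖ ^ 4 + g * ‖η i - η i₀‖ ^ 2 := by ring
      rw [this]
      gcongr
    have k4 : θ ^ 4 / (112 * q ^ 2) * (8 * (q ^ 2 * e ^ 2 * n ^ 4 + y ^ 4) +
          2 * (q ^ 2 * e ^ 2 * m ^ 2 + y ^ 4)) =
        θ ^ 4 / 14 * (e ^ 2 * n ^ 4) + θ ^ 4 / 56 * (e ^ 2 * m ^ 2) +
          10 * (θ ^ 4 / (112 * q ^ 2)) * y ^ 4 := by
      field_simp
      ring
    have k5 : 10 * (θ ^ 4 / (112 * q ^ 2)) * y ^ 4 ≤ 1 * y ^ 4 := by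
      gcongr
      have h5 : θ ^ 4 / (112 * q ^ 2) ≤ 1 / 112 := by
        rw [div_le_div_iff₀ (by positivity) (by norm_num)]
        have : (1 : ℝ) ≤ q ^ 2 := one_le_pow₀ hq1
        nlinarith
      linarith
    have k6 : θ ^ 4 / 56 * (e ^ 2 * m ^ 2) ≤ θ ^ 2 / 7 * (e ^ 2 * m ^ 2) := by
      gcongr
      nlinarith
    linarith
  have hsum := Finset.sum_le_sum hterm
  have hJQ : (rJ θ L s ξ η).Q = ∑ i, ((eJ θ (tJ L s ξ η i)).add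
      (Jet.smul (1 / 4) (eJ (2 * θ) (tJ L s ξ η i)))).Q := rfl
  rw [hJQ]
  refine le_trans (le_of_eq ?_) hsum
  rw [Finset.sum_sub_distrib, ← Finset.mul_sum, Finset.sum_const, Finset.card_univ,
    Fintype.card_fin, nsmul_eq_mul, hy]
  ring


end

end Pool.Agent.H789.HSC
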