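import Pool.Agent.H789.HSC.StepC
import Pool.Agent.H789.HSC.T5d

/-! The recursion step: the core estimate. -/

open scoped BigOperators ContDiff ComplexConjugate

namespace Pool.Agent.H789.HSC

noncomputable section

namespace Stp

theorem exists_R₂ {R δ b : ℝ} (hR : 2 ≤ R) (hδ : 0 < δ) :
    ∃ R₂ : ℝ, b ≤ R₂ ∧ 0 < R₂ ∧ Real.exp (-(R₂ / (2 * R))) ≤ δ ∧ Real.exp (-(R₂ / 2)) ≤ δ := by
  have hR0 : 0 < R := by linarith
  set R₂ := max b (2 * R * (|Real.log δ| + 1)) with hR₂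
  have h1 : 2 * R * (|Real.log δ| + 1) ≤ R₂ := le_max_right _ _
  have h0 : 0 < R₂ := lt_of_lt_of_le (by positivity) h1
  have h2 : |Real.log δ| + 1 ≤ R₂ / (2 * R) := by
    rw [le_div_iff₀ (by positivity)]
    linarith
  have h3 : R₂ / (2 * R) ≤ R₂ / 2 := by
    apply div_le_div_of_nonneg_left h0.le (by norm_num)
    linarith
  have h4 : -Real.log δ ≤ |Real.log δ| := neg_le_abs _
  have h5 : Real.exp (Real.log δ) = δ := Real.exp_log hδ
  refine ⟨R₂, le_max_left _ _, h0, ?_, ?_⟩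
  · rw [← h5]; exact exp_mono (by linarith)
  · rw [← h5]; exact exp_mono (by linarith)

theorem core {n m p : ℕ} (hn : 1 ≤ n) (hm : m ≤ n) (hp : p + m = 2 * n + 1) (hp2 : 2 ≤ p)
    {U : (Fin (2 * n + 1) → ℝ) → ℝ} {C ϑ T R₁ : ℝ} (hC : 1 ≤ C) (hϑ : 0 < ϑ) (hT : 0 < T)
    (hR₁ : 0 < R₁) (hU : Bdd U C ϑ)
    (hgood : ∀ s, n + 1 ≤ (tops s T).card → m + 1 ≤ (deep s R₁).card → GoodAt U T C s) :
    ∃ (ca Ca L' R : ℝ) (W : (Fin p → ℝ) → ℝ), 2 ≤ R ∧ IsModel p (n - m) ca Ca L' R W ∧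
    ∃ ε₃ l R₂ cf Cf : ℝ, 0 < ε₃ ∧ 0 < l ∧ l ≤ 1 ∧ 0 < R₂ ∧ 0 < cf ∧ 0 ≤ Cf ∧
    ∀ (s : Fin (2 * n + 1) → ℝ) (ξ η : Fin (2 * n + 1) → ℂ) (i₀ : Fin (2 * n + 1)) (J0 JR : Jet)
      (P : ℝ), s i₀ = mx s →
      n + 1 ≤ (tops s (l ^ 2 * T)).card → m ≤ (deep s R₂).card →
      HasJet (fun ζ => U (hpath (fun i => s i / (l ^ 2)) (fun i => ξ i / ((l ^ 2 : ℝ) : ℂ))
        (fun i => η i / ((l ^ 2 : ℝ) : ℂ)) ζ)) J0 →
      HasJet (fun ζ => RUN (1 / (8 * R)) (hpath s ξ η ζ)) JR → 0 ≤ P →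
      P ^ 4 = P4 (1 / (8 * R)) s ξ η i₀ →
      ∃ B : ℝ, 0 ≤ B ∧ ‖(Jet.smul (l ^ 2) J0).a - ξ i₀‖ ≤ l ^ 2 * B ∧
        ‖(Jet.smul (l ^ 2) J0).b - η i₀‖ ≤ l ^ 2 * B ^ 2 ∧
        |(Jet.smul (l ^ 2) J0).h| ≤ l ^ 2 * B ^ 2 ∧ ‖(Jet.smul (l ^ 2) J0).k‖ ≤ l ^ 2 * B ^ 3 ∧
        cf * (P ^ 4 + B ^ 4) ≤ QG p R W (fun i => resc (l ^ 2) U s - s i)
          (fun i => (Jet.smul (l ^ 2) J0).a - ξ i) (fun i => (Jet.smul (l ^ 2) J0).b - η i)
          (Jet.smul (l ^ 2) J0).h (Jet.smul (l ^ 2) J0).k (Jet.smul (l ^ 2) J0).Q + ε₃ * JR.Q ∧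
        -(Cf * (P ^ 4 + B ^ 4)) ≤ QG p R W (fun i => resc (l ^ 2) U s - s i)
          (fun i => (Jet.smul (l ^ 2) J0).a - ξ i) (fun i => (Jet.smul (l ^ 2) J0).b - η i)
          (Jet.smul (l ^ 2) J0).h (Jet.smul (l ^ 2) J0).k (Jet.smul (l ^ 2) J0).Q := by
  have hC0 : 0 < C := by linarith
  have hq : 1 ≤ 2 * n + 1 := by omega
  set qr : ℝ := ((2 * n + 1 : ℕ) : ℝ) with hqr
  have hqr0 : 0 < qr := by rw [hqr]; exact_mod_cast hq
  have hk : 2 * (n - m) + 1 ≤ p := by omega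
  obtain ⟨ca, hca, Ca, HM⟩ := exists_model (p := p) (k := n - m) hp2 hk
  obtain ⟨K0, hK0, HK⟩ := cubic_vanish p Ca
  have hK : 0 ≤ max K0 |Ca| := hK0.trans (le_max_left _ _)
  have hκ : 0 < 1 / C ^ 4 := by positivity
  obtain ⟨M₁, L₁, hM₁, hL₁, HA1⟩ := caseA1 (p := p) hp2 hK hca hκ
  set M₂ := max M₁ (C + R₁) with hM₂def
  have hM₂ : 1 ≤ M₂ := hM₁.trans (le_max_left _ _)
  have hM₂0 : 0 < M₂ := by linarith
  have hM₂1 : M₁ ≤ M₂ := le_max_left _ _
  have hM₂2 : C + R₁ ≤ M₂ := le_max_right _ _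
  have hKU : 0 ≤ C * qr := by positivity
  obtain ⟨L₂, hL₂, HA2⟩ := caseA2 (p := p) hp2 hK hKU hM₂
  set L := max L₁ L₂ with hLdef
  have hL1 : L₁ ≤ L := le_max_left _ _
  have hL2 : L₂ ≤ L := le_max_right _ _
  have hL0 : 0 < L := by linarith
  obtain ⟨R, hR, W, hM⟩ := HM (L + 1)
  have hR0 : 0 < R := by linarith
  obtain ⟨r₀, hNV⟩ := exists_nearV (K := K0) HK hM hL0
  obtain ⟨CA, δA, hCA, hδA, HA1⟩ := HA1 hp (n - m) Ca L (L + 1) R r₀ W hM hNV hL1
  obtain ⟨CB, lamB, δB, hCB, hlamB, hδB, HA2⟩ := HA2 hp (n - m) ca Ca L (L + 1) R r₀ W hM hNV hL2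
  have hr₀ := hNV.pos
  obtain ⟨c, Cc, ε, δc, hc, hε, hδc, HB⟩ := caseB hn hm hp hca hM hr₀ hκ
  set θ := 1 / (8 * R) with hθ
  have hθ0 : 0 < θ := by positivity
  have hθ1 : θ ≤ 1 / 8 := by
    rw [hθ]
    apply one_div_le_one_div_of_le (by norm_num)
    linarith
  obtain ⟨cr, Cr, hcr, HR⟩ := RUN_pos (q := 2 * n + 1) hq hθ0 hθ1
  obtain ⟨e1, he1, HB'⟩ := absB (c := c) (C := Cc) (cr := cr) (Cr := Cr)
    (C1 := 256 * qr ^ 4 * Real.exp C) hc hcr
  obtain ⟨e2, he2, HA1'⟩ := absA1 (C := CA) (cr := cr) (Cr := Cr) (Ca1 := 8 * qr ^ 4)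
    (Ca2 := 8 * qr ^ 3) hcr
  obtain ⟨e3, he3, HA2'⟩ := absA2 (C := CB) (cr := cr) (Cr := Cr) (Ca1 := 8 * qr ^ 4)
    (Ca2 := 8 * qr ^ 3) hcr hKU
  set ε₃ := min e1 (min e2 e3) with hε₃def
  have hε₃ : 0 < ε₃ := by positivity
  obtain ⟨l1, hl1, HB''⟩ := HB' ε₃ hε₃ (min_le_left _ _)
  set l := min 1 (min l1 (min lamB (min (ε / (C + T)) (min (r₀ / M₂) ϑ)))) with hldef
  have hl : 0 < l := by positivity
  have hl_1 : l ≤ 1 := min_le_left _ _
  have hl_2 : l ≤ l1 := (min_le_right _ _).trans (min_le_left _ _)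
  have hl_3 : l ≤ lamB := (min_le_right _ _).trans ((min_le_right _ _).trans (min_le_left _ _))
  have hl_4 : l ≤ ε / (C + T) := (min_le_right _ _).trans ((min_le_right _ _).trans
    ((min_le_right _ _).trans (min_le_left _ _)))
  have hl_5 : l ≤ r₀ / M₂ := (min_le_right _ _).trans ((min_le_right _ _).trans
    ((min_le_right _ _).trans ((min_le_right _ _).trans (min_le_left _ _))))
  have hl_6 : l ≤ ϑ := (min_le_right _ _).trans ((min_le_right _ _).trans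
    ((min_le_right _ _).trans ((min_le_right _ _).trans (min_le_right _ _))))
  clear_value l
  have hll : l ^ 2 ≤ l := by nlinarith
  have hlam0 : 0 < l ^ 2 := by positivity
  have hlam1 : l ^ 2 ≤ 1 := hll.trans hl_1
  have hlamB' : l ^ 2 ≤ lamB := hll.trans hl_3
  have hlamε : l ^ 2 * (C + T) ≤ ε := by
    have := hll.trans hl_4
    rwa [le_div_iff₀ (by linarith)] at this
  have hlamr : M₂ * l ^ 2 ≤ r₀ := by
    have := hll.trans hl_5
    rw [le_div_iff₀ hM₂0] at this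
    linarith
  have hlamϑ : l ^ 2 ≤ ϑ := hll.trans hl_6
  obtain ⟨δ1, hδ1, cf1, Cf1, hcf1, hCf1, HB3⟩ := HB'' l hl hl_2
  obtain ⟨δ2, hδ2, cf2, Cf2, hcf2, hCf2, HA13⟩ := HA1' ε₃ hε₃
    ((min_le_right _ _).trans (min_le_left _ _)) l hl hl_1
  obtain ⟨δ3, hδ3, cf3, Cf3, hcf3, hCf3, HA23⟩ := HA2' ε₃ hε₃
    ((min_le_right _ _).trans (min_le_right _ _)) l hl hl_1
  set δm := min δc (min (δA * (l ^ 2) ^ 3) (min (δB * (l ^ 2) ^ 4) (min δ1 (min δ2
    (min δ3 (1 / (C * (2 * qr)))))))) with hδmdef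
  have hδm : 0 < δm := by positivity
  have dm1 : δm ≤ δc := min_le_left _ _
  have dm2 : δm ≤ δA * (l ^ 2) ^ 3 := (min_le_right _ _).trans (min_le_left _ _)
  have dm3 : δm ≤ δB * (l ^ 2) ^ 4 := (min_le_right _ _).trans ((min_le_right _ _).trans
    (min_le_left _ _))
  have dm4 : δm ≤ δ1 := (min_le_right _ _).trans ((min_le_right _ _).trans
    ((min_le_right _ _).trans (min_le_left _ _)))
  have dm5 : δm ≤ δ2 := (min_le_right _ _).trans ((min_le_right _ _).trans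
    ((min_le_right _ _).trans ((min_le_right _ _).trans (min_le_left _ _))))
  have dm6 : δm ≤ δ3 := (min_le_right _ _).trans ((min_le_right _ _).trans
    ((min_le_right _ _).trans ((min_le_right _ _).trans ((min_le_right _ _).trans
      (min_le_left _ _)))))
  have dm7 : δm ≤ 1 / (C * (2 * qr)) := (min_le_right _ _).trans ((min_le_right _ _).trans
    ((min_le_right _ _).trans ((min_le_right _ _).trans ((min_le_right _ _).trans
      (min_le_right _ _)))))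
  clear_value δm
  obtain ⟨R₂, hR₂b, hR₂0, hR₂δ, hR₂e⟩ := exists_R₂ (b := l ^ 2 * (T + R₁) + 1) hR hδm
  refine ⟨ca, Ca, L + 1, R, W, hR, hM, ε₃, l, R₂, min cf1 (min cf2 cf3), max Cf1 (max Cf2 Cf3),
    hε₃, hl, hl_1, hR₂0, by positivity, hCf1.trans (le_max_left _ _), ?_⟩
  intro s ξ η i₀ J0 JR P hi₀ htops hdeep hJ0 hJR hP hP4
  -- monotonicity of the final constants
  have fin : ∀ {cf' Cf' B QG0 : ℝ}, min cf1 (min cf2 cf3) ≤ cf' → Cf' ≤ max Cf1 (max Cf2 Cf3) →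
      (cf' * (P ^ 4 + B ^ 4) ≤ QG0 + ε₃ * JR.Q ∧ -(Cf' * (P ^ 4 + B ^ 4)) ≤ QG0) →
      (min cf1 (min cf2 cf3) * (P ^ 4 + B ^ 4) ≤ QG0 + ε₃ * JR.Q ∧
        -(max Cf1 (max Cf2 Cf3) * (P ^ 4 + B ^ 4)) ≤ QG0) := by
    intro cf' Cf' B QG0 h1 h2 h3
    have h4 : 0 ≤ P ^ 4 + B ^ 4 := by positivity
    have h5 := mul_le_mul_of_nonneg_right h1 h4
    have h6 := mul_le_mul_of_nonneg_right h2 h4
    exact ⟨by linarith [h3.1], by linarith [h3.2]⟩
  set lam := l ^ 2 with hlamdef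
  set Ju := Jet.smul lam J0 with hJu
  set us := resc lam U s with husdef
  set δ := Real.exp (-(R₂ / (2 * R))) with hδdef
  have hδ0 : 0 ≤ δ := (Real.exp_pos _).le
  have he0 : 0 ≤ Real.exp (-(R₂ / 2)) := (Real.exp_pos _).le
  have hus1 : mx s ≤ us := by
    have := hU.lower (fun i => s i / lam)
    rw [mx_div hq hlam0, div_le_iff₀ hlam0] at this
    rw [husdef]; unfold resc; linarith
  have hus2 : us ≤ mx s + lam * C := by
    have := hU.upper (fun i => s i / lam)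
    rw [mx_div hq hlam0] at this
    have h2 := mul_le_mul_of_nonneg_left this hlam0.le
    have e : lam * (mx s / lam + C) = mx s + lam * C := by field_simp
    rw [husdef]; unfold resc; linarith
  have hd0 : ∀ i, 0 ≤ mx s - s i := fun i => sub_nonneg.2 (le_mx s i)
  have ht0 : ∀ i, 0 ≤ us - s i := fun i => by linarith [hd0 i]
  have ht1 : ∀ i, us - s i ≤ (mx s - s i) + lam * C := fun i => by linarith
  have hlamC : lam * C ≤ C := by nlinarith
  have ht2 : ∀ i, us - s i ≤ (mx s - s i) + C := fun i => by linarith [ht1 i]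
  have hD : ∀ i ∈ deep s R₂, R₂ ≤ mx s - s i := fun i hi => (mem_deep s R₂ i).1 hi
  have hdisj : Disjoint (deep s R₂) (tops s (lam * T)) := by
    rw [Finset.disjoint_left]
    intro i h1 h2
    rw [mem_deep] at h1
    rw [mem_tops] at h2
    have : 0 < lam * R₁ := by positivity
    linarith
  have hi₀I : i₀ ∈ tops s (lam * T) := by
    rw [mem_tops, hi₀]
    have : 0 < lam * T := by positivity
    linarith
  have hi₀D : i₀ ∉ deep s R₂ := by
    rw [mem_deep, hi₀]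
    push Not
    linarith
  have hDδ : ∀ i ∈ deep s R₂, Real.exp (-((us - s i) / (2 * R))) ≤ δ := by
    intro i hi
    apply exp_mono
    have h1 := hD i hi
    have : R₂ / (2 * R) ≤ (us - s i) / (2 * R) :=
      div_le_div_of_nonneg_right (by linarith) (by positivity)
    linarith
  have hwts : ∀ B : ℝ, 0 ≤ B → ‖Ju.a - ξ i₀‖ ≤ lam * B → ‖Ju.b - η i₀‖ ≤ lam * B ^ 2 →
      ∀ i, Real.exp (-((us - s i) / (8 * R))) * ‖Ju.a - ξ i‖ ≤ P + l * B ∧
      Real.exp (-((us - s i) / (4 * R))) * ‖Ju.b - η i‖ ≤ (P + l * B) ^ 2 := by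
    intro B hB h1 h2 i
    exact weights hR hθ hP hP4 hl hl_1 hB h1 h2 hus1 i
  have hJRQ : cr * P ^ 4 - Cr * A0 (1 / 4) s ξ η i₀ ^ 4 ≤ JR.Q := by
    have := HR s ξ η i₀ hi₀ JR hJR
    rw [hP4]
    exact this
  have hA0 : 0 ≤ A0 (1 / 4) s ξ η i₀ ^ 4 := by positivity
  have hDsub : ∀ i ∈ deep s R₂, i ∈ deep (fun i => s i / lam) R₁ := by
    intro i hi
    rw [mem_deep_div hq hlam0]
    have h1 := hD i hi
    have : 0 < lam * T := by positivity
    linarith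
  have hgo : m + 1 ≤ (deep (fun i => s i / lam) R₁).card → GoodAt U T C (fun i => s i / lam) := by
    intro h
    apply hgood _ _ h
    rw [tops_div hq hlam0]
    exact htops
  by_cases hcase : m + 1 ≤ (deep s R₂).card ∨ ∃ i, i ∉ deep s R₂ ∧ r₀ ≤ us - s i
  · -- case B
    have hdp : m + 1 ≤ (deep (fun i => s i / lam) R₁).card := by
      rcases hcase with h | ⟨i, hi, hi'⟩
      · exact h.trans (Finset.card_le_card hDsub)
      · have h1 : insert i (deep s R₂) ⊆ deep (fun i => s i / lam) R₁ := by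
          intro j hj
          rw [Finset.mem_insert] at hj
          rcases hj with rfl | hj
          · rw [mem_deep_div hq hlam0]
            have h1 := ht1 j
            have h2 : lam * (C + R₁) ≤ lam * M₂ := mul_le_mul_of_nonneg_left hM₂2 hlam0.le
            linarith
          · exact hDsub j hj
        have h2 := Finset.card_le_card h1
        rw [Finset.card_insert_of_notMem hi] at h2
        omega
    obtain ⟨B, hB, hB1, hB2, hB3, hB4⟩ := good_bounds hq hlam0 hC (hgo hdp) hJ0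
    have hBi₀ := hB1 i₀ hi₀I
    have hw := hwts B hB hBi₀.1 hBi₀.2
    have hP' : 0 ≤ P + l * B := by positivity
    have hBres := HB lam δ B (P + l * B) Ju.h Ju.Q Ju.k (fun i => us - s i)
      (fun i => Ju.a - ξ i) (fun i => Ju.b - η i) (deep s R₂) (tops s (lam * T))
      hlam0 hlam1 hδ0 (hR₂δ.trans dm1) hB hP' ht0 hdeep htops hdisj hDδ
      (fun i hi => ⟨by
        have h1 := ht1 i
        have h2 := (mem_tops s (lam * T) i).1 hi
        show us - s i ≤ ε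
        linarith, (hB1 i hi).1, (hB1 i hi).2⟩) hB2 hB3 hB4 hw hcase
    have hA4 := A4_caseB hq (s := s) (ξ := ξ) (η := η) (τ := fun i => Ju.a - ξ i)
      (σ := fun i => Ju.b - η i) (i₀ := i₀) (t := fun i => us - s i) (I := tops s (lam * T))
      (lam := lam) (B := B) (C := C) (R := R) hlam0.le hlam1 hB hC0.le hR
      (fun i => by ring) (fun i => by ring) ht2 hi₀I hB1
    have hS0 : 0 ≤ ∑ i ∈ (tops s (lam * T))ᶜ, Real.exp (-(2 * (us - s i) / R)) *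
        (‖Ju.a - ξ i‖ ^ 4 + ‖Ju.b - η i‖ ^ 2) := Finset.sum_nonneg fun i _ => by positivity
    have := HB3 δ B P _ _ _ JR.Q hδ0 (hR₂δ.trans dm4) hB hP hS0 hA0 hBres hJRQ hA4
    exact ⟨B, hB, hBi₀.1, hBi₀.2, hB2, hB3, fin (min_le_left _ _) (le_max_left _ _) this⟩
  · push Not at hcase
    obtain ⟨hc1, hc2⟩ := hcase
    have hDm : (deep s R₂).card = m := by omega
    have hne : ((deep s R₂)ᶜ).Nonempty := ⟨i₀, by simpa using hi₀D⟩
    obtain ⟨i₁, hi₁, hmax⟩ := Finset.exists_max_image _ (fun i => us - s i) hne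
    obtain ⟨iX, hiX, hmaxX⟩ := Finset.exists_max_image _ (fun i => ‖ξ i - ξ i₀‖) hne
    obtain ⟨iY, hiY, hmaxY⟩ := Finset.exists_max_image _ (fun i => ‖η i - η i₀‖) hne
    rw [Finset.mem_compl] at hi₁ hiX hiY
    have hmax' : ∀ i, i ∉ deep s R₂ → us - s i ≤ us - s i₁ := fun i hi =>
      hmax i (Finset.mem_compl.2 hi)
    have hmaxX' : ∀ i, i ∉ deep s R₂ → ‖ξ i - ξ i₀‖ ≤ ‖ξ iX - ξ i₀‖ := fun i hi =>
      hmaxX i (Finset.mem_compl.2 hi)
    have hmaxY' : ∀ i, i ∉ deep s R₂ → ‖η i - η i₀‖ ≤ ‖η iY - η i₀‖ := fun i hi =>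
      hmaxY i (Finset.mem_compl.2 hi)
    have hnx : ∀ i, ‖(Ju.a - ξ i) - (Ju.a - ξ i₀)‖ = ‖ξ i - ξ i₀‖ := by
      intro i
      have : (Ju.a - ξ i) - (Ju.a - ξ i₀) = -(ξ i - ξ i₀) := by ring
      rw [this, norm_neg]
    have hny : ∀ i, ‖(Ju.b - η i) - (Ju.b - η i₀)‖ = ‖η i - η i₀‖ := by
      intro i
      have : (Ju.b - η i) - (Ju.b - η i₀) = -(η i - η i₀) := by ring
      rw [this, norm_neg]
    have hA4 := A4_caseA hq hθ0 hθ1 hmaxX' hmaxY' hD hR₂0.le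
    rw [← hP4] at hA4
    by_cases hρ : M₂ * lam ≤ us - s i₁
    · -- case A1
      have hdp : m + 1 ≤ (deep (fun i => s i / lam) R₁).card := by
        have h1 : insert i₁ (deep s R₂) ⊆ deep (fun i => s i / lam) R₁ := by
          intro j hj
          rw [Finset.mem_insert] at hj
          rcases hj with rfl | hj
          · rw [mem_deep_div hq hlam0]
            have h1 := ht1 j
            have h2 : lam * (C + R₁) ≤ lam * M₂ := mul_le_mul_of_nonneg_left hM₂2 hlam0.le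
            linarith
          · exact hDsub j hj
        have h2 := Finset.card_le_card h1
        rw [Finset.card_insert_of_notMem hi₁] at h2
        omega
      obtain ⟨B, hB, hB1, hB2, hB3, hB4⟩ := good_bounds hq hlam0 hC (hgo hdp) hJ0
      have hBi₀ := hB1 i₀ hi₀I
      have hw := hwts B hB hBi₀.1 hBi₀.2
      have hP' : 0 ≤ P + l * B := by positivity
      have hres := HA1 lam δ B (P + l * B) (us - s i₁) Ju.h Ju.Q Ju.k (fun i => us - s i)
        (fun i => Ju.a - ξ i) (fun i => Ju.b - η i) (deep s R₂) i₀ hlam0 hlam1 hδ0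
        (hR₂δ.trans dm2) hB hP' ht0 hDm hi₀D (fun i hi => ⟨hDδ i hi, (hw i).1, (hw i).2⟩)
        hmax' ⟨i₁, hi₁, rfl⟩ (hc2 i₁ hi₁).le
        (le_trans (mul_le_mul_of_nonneg_right hM₂1 hlam0.le) hρ)
        hBi₀.1 hBi₀.2 hB2 hB3 hB4 iX hiX iY hiY
      simp only [hnx, hny] at hres
      have := HA13 δ (Real.exp (-(R₂ / 2))) B P ‖ξ iX - ξ i₀‖ ‖η iY - η i₀‖ _ _ JR.Q hδ0
        (hR₂δ.trans dm5) he0 (hR₂e.trans dm5) hB hP hA0 hres hJRQ hA4
      exact ⟨B, hB, hBi₀.1, hBi₀.2, hB2, hB3, fin ((min_le_right _ _).trans (min_le_left _ _))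
        ((le_max_left _ _).trans (le_max_right _ _)) this⟩
    · -- case A2
      push Not at hρ
      obtain ⟨B, hBdef, hB, hB1, hB2, hB3, hB4, hB5⟩ := bdd_bounds hq hlam0 hC hU hi₀ hJ0
      have hw := hwts B hB hB1 hB2
      have hP' : 0 ≤ P + l * B := by positivity
      have hlB : lam * B ≤ (C * qr) * (‖ξ iX - ξ i₀‖ + Real.sqrt (lam * ‖η iY - η i₀‖))
          + δ * P := by
        rw [hBdef]
        refine B_caseA2 hq hR hθ hC hl hl_1 hlamϑ hP hP4 (norm_nonneg _) hmaxX' hmaxY' hD ?_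
          hR₂0.le
        have h1 := hR₂e.trans dm7
        have h2 := mul_le_mul_of_nonneg_left h1 (by positivity : 0 ≤ C * (2 * qr))
        have h3 : C * (2 * qr) * (1 / (C * (2 * qr))) = 1 := by field_simp
        linarith
      have hres := HA2 lam δ B (P + l * B) ‖ξ iX - ξ i₀‖ ‖η iY - η i₀‖ Ju.h Ju.Q Ju.k
        (fun i => us - s i) (fun i => Ju.a - ξ i) (fun i => Ju.b - η i) (deep s R₂) i₀
        hlam0 hlamB' hδ0 (hR₂δ.trans dm3) hB hP' ht0 hDm hi₀D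
        (fun i hi => ⟨hDδ i hi, (hw i).1, (hw i).2⟩)
        (fun i hi => (hmax' i hi).trans hρ.le) hlamr
        (fun i hi => ⟨by rw [hnx]; exact hmaxX' i hi, by rw [hny]; exact hmaxY' i hi⟩)
        ⟨iX, hiX, hnx iX⟩ ⟨iY, hiY, hny iY⟩ hB1 hB2 hB3 hB4 hB5
        (hlB.trans (by
          have h1 : δ * P ≤ δ * (P + l * B) :=
            mul_le_mul_of_nonneg_left (by have : 0 ≤ l * B := by positivity
                                          linarith) hδ0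
          linarith))
      have := HA23 δ (Real.exp (-(R₂ / 2))) B P ‖ξ iX - ξ i₀‖ ‖η iY - η i₀‖ _ _ JR.Q hδ0
        (hR₂δ.trans dm6) he0 (hR₂e.trans dm6) hB hP (norm_nonneg _) (norm_nonneg _) hA0 hlB
        hres hJRQ hA4
      exact ⟨B, hB, hB1, hB2, hB3, hB4, fin ((min_le_right _ _).trans (min_le_right _ _))
        ((le_max_right _ _).trans (le_max_right _ _)) this⟩

end Stp

end

end Pool.Agent.H789.HSC
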