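import Pool.Agent.H789.HSC.Recur
import Pool.Agent.H789.HSC.JetCalc

/-! Definitions for the recursion step. -/

open scoped BigOperators ContDiff ComplexConjugate

namespace Pool.Agent.H789.HSC

noncomputable section

variable {q p : ℕ}

/-- the jets of `t_i = u - s_i` : values `t`, first/second holomorphic derivatives `τ, σ`,
common mixed components `h, k, Qu`. -/
def TJ (t : Fin q → ℝ) (τ σ : Fin q → ℂ) (h : ℝ) (k : ℂ) (Qu : ℝ) (i : Fin q) : Jet :=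
  ⟨t i, h, Qu, τ i, σ i, k⟩

/-- jet of `F0 R ∘ t_i` -/
def FJ (R : ℝ) (T : Jet) : Jet := Jet.comp (F0 R T.v) (F1 R T.v) (F2 R T.v) (F3 R T.v) (F4 R T.v) T

/-- `Q`-component of `c₀ u + ∑ F0 (t_i) + (1/p!) ∑_e W (t ∘ e)`, `c₀ = - p F1 R 0` -/
def QG (p : ℕ) (R : ℝ) (W : (Fin p → ℝ) → ℝ) (t : Fin q → ℝ) (τ σ : Fin q → ℂ) (h : ℝ) (k : ℂ)
    (Qu : ℝ) : ℝ :=
  -(p * F1 R 0) * Qu + ∑ i, (FJ R (TJ t τ σ h k Qu i)).Q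
    + (1 / (p.factorial : ℝ)) *
      ∑ e : Fin p ↪ Fin q, (multiJet W (fun j => TJ t τ σ h k Qu (e j))).Q

/-- the near-vertex properties of a model function used in cases A1, A2 -/
structure NearV (p : ℕ) (K L R r₀ : ℝ) (W : (Fin p → ℝ) → ℝ) : Prop where
  pos : 0 < r₀
  le_one : r₀ ≤ 1
  a0 : ∀ (t : Fin p → ℝ) (ρ : ℝ), 0 ≤ ρ → ρ ≤ r₀ → (∀ i, |t i| ≤ ρ) → |aV R W t| ≤ K * ρ ^ 3 ∧
    (∀ i, |pd (aV R W) i t| ≤ K * ρ ^ 2) ∧ (∀ i j, |pd (pd (aV R W) i) j t| ≤ K * ρ) ∧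
    (∀ i j l, |pd (pd (pd (aV R W) i) j) l t| ≤ K)
  Q0 : ∀ t : Fin p → ℝ, (∀ i, |t i| ≤ r₀) →
    ∀ (i₀ : Fin p) (τ σ : Fin p → ℂ), τ i₀ = 0 → σ i₀ = 0 → ∀ i j,
      L * ‖τ i‖ ^ 4 + ‖σ j‖ ^ 2 / 16 ≤ ∑ i, QF R (t i) (τ i) (σ i) + holQ W t τ σ

end

end Pool.Agent.H789.HSC
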