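import Mathlib

/-! Real arithmetic used in the recursion step. -/

namespace Pool.Agent.H789.HSC

noncomputable section

namespace Ar

theorem p4 {G : ℝ} (h : 1 ≤ G) : G ≤ G ^ 4 := by
  calc G = G ^ 1 := (pow_one _).symm
    _ ≤ G ^ 4 := pow_le_pow_right₀ h (by norm_num)

theorem p3 {G : ℝ} (h : 1 ≤ G) : G ≤ G ^ 3 := by
  calc G = G ^ 1 := (pow_one _).symm
    _ ≤ G ^ 3 := pow_le_pow_right₀ h (by norm_num)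

theorem p23 {G : ℝ} (h : 1 ≤ G) : G ^ 2 ≤ G ^ 3 := pow_le_pow_right₀ h (by norm_num)

theorem le4 {x y : ℝ} (hy : 0 ≤ y) (h : x ^ 4 ≤ y ^ 4) : x ≤ y := by
  by_contra hlt
  push Not at hlt
  exact absurd h (not_le.2 (pow_lt_pow_left₀ hlt hy (by norm_num)))

theorem a1 {P B A G r : ℝ} (hP : 0 ≤ P) (hB : 0 ≤ B) (hA : 0 ≤ A) (hG1 : 1 ≤ G)
    (hrG : r ≤ G) (h : P ^ 4 + B ^ 4 ≤ r * A ^ 4) :
    P ≤ G * A ∧ B ≤ G * A ∧ P ^ 4 + B ^ 4 ≤ 2 * G ^ 4 * A ^ 4 := by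
  have hA4 : 0 ≤ A ^ 4 := by positivity
  have hP4 : 0 ≤ P ^ 4 := by positivity
  have hB4 : 0 ≤ B ^ 4 := by positivity
  have h1 : r * A ^ 4 ≤ G ^ 4 * A ^ 4 := mul_le_mul_of_nonneg_right (hrG.trans (p4 hG1)) hA4
  have hGA : 0 ≤ G * A := by positivity
  refine ⟨le4 hGA ?_, le4 hGA ?_, ?_⟩
  · rw [mul_pow]; linarith only [h, h1, hB4]
  · rw [mul_pow]; linarith only [h, h1, hP4]
  · have : 0 ≤ G ^ 4 * A ^ 4 := by positivity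
    linarith only [h, h1, this]

theorem a2 {A a0 P B G G₂ G₃ c₀ Cf ε₃ CR qr JQ JRQ Qv : ℝ} (hA : 0 ≤ A) (hG1 : 1 ≤ G)
    (hε₃ : 0 < ε₃) (hCf : 0 ≤ Cf) (hCR : 0 ≤ CR) (hqr : 0 < qr) (ha0 : 0 ≤ a0)
    (hG₂ : G₂ = (c₀ + 2 * Cf * G ^ 4) / ε₃ + CR * (2 * qr * G) ^ 4)
    (hG₃ : G₃ = 1 + G₂) (hG₃1 : 1 ≤ G₃)
    (hA4 : A ^ 4 = JQ) (hB6 : -(Cf * (P ^ 4 + B ^ 4)) ≤ Qv) (hQ : c₀ * JQ = Qv + ε₃ * JRQ)
    (hPB : P ^ 4 + B ^ 4 ≤ 2 * G ^ 4 * A ^ 4) (hPA : P ≤ G * A) (h0 : a0 ≤ 2 * qr * P) :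
    JRQ + CR * a0 ^ 4 ≤ (G₃ * A) ^ 4 := by
  have hA4' : 0 ≤ A ^ 4 := by positivity
  have h1 : ε₃ * JRQ ≤ (c₀ + 2 * Cf * G ^ 4) * A ^ 4 := by
    have h2 : Cf * (P ^ 4 + B ^ 4) ≤ Cf * (2 * G ^ 4 * A ^ 4) :=
      mul_le_mul_of_nonneg_left hPB hCf
    have h3 : c₀ * JQ = c₀ * A ^ 4 := by rw [hA4]
    linarith only [h2, h3, hB6, hQ]
  have h2 : JRQ ≤ (c₀ + 2 * Cf * G ^ 4) / ε₃ * A ^ 4 := by
    rw [div_mul_eq_mul_div, le_div_iff₀ hε₃]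
    linarith only [h1]
  have h3 : a0 ≤ 2 * qr * G * A := by
    refine h0.trans ?_
    have := mul_le_mul_of_nonneg_left hPA (by positivity : 0 ≤ 2 * qr)
    linarith only [this]
  have h4 : a0 ^ 4 ≤ (2 * qr * G * A) ^ 4 := pow_le_pow_left₀ ha0 h3 4
  have h5 := mul_le_mul_of_nonneg_left h4 hCR
  have h6 : (2 * qr * G * A) ^ 4 = (2 * qr * G) ^ 4 * A ^ 4 := by ring
  rw [h6] at h5
  have h7 : G₂ ≤ G₃ ^ 4 := (by linarith only [hG₃] : G₂ ≤ G₃).trans (p4 hG₃1)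
  have h8 := mul_le_mul_of_nonneg_right h7 hA4'
  rw [mul_pow]
  have h9 : JRQ + CR * a0 ^ 4 ≤ G₂ * A ^ 4 := by
    rw [hG₂]
    linarith only [h2, h5]
  linarith only [h8, h9]

theorem a3 {CR G₃ A x : ℝ} (hCR : 0 ≤ CR) (hA : 0 ≤ A) (hG : 1 ≤ G₃) (h : x ≤ CR * (G₃ * A)) :
    x ≤ CR * G₃ ^ 3 * A := by
  refine h.trans ?_
  have := mul_le_mul_of_nonneg_right (mul_le_mul_of_nonneg_left (p3 hG) hCR) hA
  linarith only [this]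

theorem a4 {CR G₃ A x : ℝ} (hCR : 0 ≤ CR) (hG : 1 ≤ G₃) (h : x ≤ CR * (G₃ * A) ^ 2) :
    x ≤ CR * G₃ ^ 3 * A ^ 2 := by
  refine h.trans ?_
  have := mul_le_mul_of_nonneg_right (mul_le_mul_of_nonneg_left (p23 hG) hCR) (sq_nonneg A)
  rw [mul_pow]
  linarith only [this]

theorem a5 {CR G₃ A x : ℝ} (h : x ≤ CR * (G₃ * A) ^ 3) : x ≤ CR * G₃ ^ 3 * A ^ 3 := by
  refine h.trans ?_
  rw [mul_pow]
  linarith only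

theorem b0 {l B G A : ℝ} (hl : 0 < l) (hl1 : l ≤ 1) (hB : 0 ≤ B) (hG : 1 ≤ G) (hA : 0 ≤ A)
    (hBG : B ≤ G * A) : l ^ 2 * B ≤ 2 * G * A ∧ l ^ 2 * B ^ 2 ≤ (2 * G * A) ^ 2 ∧
      l ^ 2 * B ^ 3 ≤ (2 * G * A) ^ 3 ∧ l * B ≤ G * A := by
  have hlam1 : l ^ 2 ≤ 1 := pow_le_one₀ hl.le hl1
  have hGA : 0 ≤ G * A := by positivity
  have hB' : B ≤ 2 * G * A := by linarith only [hBG, hGA]
  refine ⟨?_, ?_, ?_, ?_⟩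
  · have h1 : l ^ 2 * B ≤ 1 * B := mul_le_mul_of_nonneg_right hlam1 hB
    linarith only [h1, hB']
  · have h1 : l ^ 2 * B ^ 2 ≤ 1 * B ^ 2 := mul_le_mul_of_nonneg_right hlam1 (by positivity)
    have h2 := pow_le_pow_left₀ hB hB' 2
    linarith only [h1, h2]
  · have h1 : l ^ 2 * B ^ 3 ≤ 1 * B ^ 3 := mul_le_mul_of_nonneg_right hlam1 (by positivity)
    have h2 := pow_le_pow_left₀ hB hB' 3
    linarith only [h1, h2]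
  · have : l * B ≤ 1 * B := mul_le_mul_of_nonneg_right hl1 hB
    linarith only [this, hBG]

theorem g1 {Gb A : ℝ} (hG : 1 ≤ Gb) (hA : 0 ≤ A) : Gb * A ≤ Gb ^ 3 * A ∧
    (Gb * A) ^ 2 ≤ Gb ^ 3 * A ^ 2 ∧ (Gb * A) ^ 3 = Gb ^ 3 * A ^ 3 := by
  refine ⟨mul_le_mul_of_nonneg_right (p3 hG) hA, ?_, by rw [mul_pow]⟩
  rw [mul_pow]; exact mul_le_mul_of_nonneg_right (p23 hG) (by positivity)

/-- bound for the second component -/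
theorem f1 {x d u jr CN Gb A ε₃ CR G₃ eT : ℝ} (hCN : 0 ≤ CN) (hε : 0 < ε₃) (heT : 0 < eT)
    (hG : 1 ≤ Gb) (hA : 0 ≤ A) (h1 : x ≤ d + u) (eh : d ≤ CN * (Gb * A) ^ 2 + CN * ε₃ * jr)
    (hjr : jr ≤ CR * G₃ ^ 3 * A ^ 2) (hu : u ≤ (Gb * A) ^ 2) :
    x ≤ (CN * Gb ^ 3 + CN * ε₃ * (CR * G₃ ^ 3) + Gb ^ 3 + eT * Gb ^ 3) * A ^ 2 := by
  obtain ⟨-, g2, -⟩ := g1 hG hA
  have h2 := mul_le_mul_of_nonneg_left g2 hCN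
  have h3 := mul_le_mul_of_nonneg_left hjr (by positivity : 0 ≤ CN * ε₃)
  have z : 0 ≤ eT * Gb ^ 3 * A ^ 2 := by positivity
  linarith only [h1, eh, h2, h3, z, hu, g2]

theorem f2 {x d u jr CN Gb A ε₃ CR G₃ eT : ℝ} (hCN : 0 ≤ CN) (hε : 0 < ε₃) (heT : 0 < eT)
    (hG : 1 ≤ Gb) (hA : 0 ≤ A) (h1 : x ≤ d + u) (eh : d ≤ CN * (Gb * A) ^ 3 + CN * ε₃ * jr)
    (hjr : jr ≤ CR * G₃ ^ 3 * A ^ 3) (hu : u ≤ (Gb * A) ^ 3) :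
    x ≤ (CN * Gb ^ 3 + CN * ε₃ * (CR * G₃ ^ 3) + Gb ^ 3 + eT * Gb ^ 3) * A ^ 3 := by
  obtain ⟨-, -, g3⟩ := g1 hG hA
  rw [g3] at eh hu
  have h3 := mul_le_mul_of_nonneg_left hjr (by positivity : 0 ≤ CN * ε₃)
  have z : 0 ≤ eT * Gb ^ 3 * A ^ 3 := by positivity
  linarith only [h1, eh, h3, z, hu]

theorem f3 {x d u t jr CN Gb A ε₃ CR G₃ eT : ℝ} (hCN : 0 ≤ CN) (hε : 0 < ε₃) (heT : 0 < eT)
    (hG : 1 ≤ Gb) (hA : 0 ≤ A) (h1 : x ≤ d + u + t) (eh : d ≤ CN * (Gb * A) + CN * ε₃ * jr)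
    (hjr : jr ≤ CR * G₃ ^ 3 * A) (hu : u ≤ Gb * A) (ht : t ≤ eT * (Gb * A)) :
    x ≤ (CN * Gb ^ 3 + CN * ε₃ * (CR * G₃ ^ 3) + Gb ^ 3 + eT * Gb ^ 3) * A := by
  obtain ⟨g, -, -⟩ := g1 hG hA
  have h2 := mul_le_mul_of_nonneg_left g hCN
  have h3 := mul_le_mul_of_nonneg_left hjr (by positivity : 0 ≤ CN * ε₃)
  have h5 := mul_le_mul_of_nonneg_left g heT.le
  linarith only [h1, eh, h2, h3, h5, hu, g, ht]

theorem f4 {x d u t jr CN Gb A ε₃ CR G₃ eT : ℝ} (hCN : 0 ≤ CN) (hε : 0 < ε₃) (heT : 0 < eT)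
    (hG : 1 ≤ Gb) (hA : 0 ≤ A) (h1 : x ≤ d + u + t)
    (eh : d ≤ CN * (Gb * A) ^ 2 + CN * ε₃ * jr)
    (hjr : jr ≤ CR * G₃ ^ 3 * A ^ 2) (hu : u ≤ (Gb * A) ^ 2) (ht : t ≤ eT * (Gb * A) ^ 2) :
    x ≤ (CN * Gb ^ 3 + CN * ε₃ * (CR * G₃ ^ 3) + Gb ^ 3 + eT * Gb ^ 3) * A ^ 2 := by
  obtain ⟨-, g, -⟩ := g1 hG hA
  have h2 := mul_le_mul_of_nonneg_left g hCN
  have h3 := mul_le_mul_of_nonneg_left hjr (by positivity : 0 ≤ CN * ε₃)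
  have h5 := mul_le_mul_of_nonneg_left g heT.le
  linarith only [h1, eh, h2, h3, h5, hu, g, ht]

/-- the points near the top -/
theorem t1 {T d l θ N M P X : ℝ} (hT : 0 < T) (hl : 0 < l) (hl1 : l ≤ 1) (hθ0 : 0 < θ)
    (hθ1 : θ ≤ 1 / 8) (hd : 0 ≤ d) (hdT : d ≤ l ^ 2 * T) (hN : 0 ≤ N) (hM : 0 ≤ M)
    (hP : 0 ≤ P) (hPX : P ≤ X)
    (x1 : Real.exp (-(θ / 2 * d)) * N ≤ P) (x2 : Real.exp (-(θ * d)) * M ≤ P ^ 2) :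
    N ≤ Real.exp T * X ∧ M ≤ Real.exp T * X ^ 2 := by
  have hlam1 : l ^ 2 ≤ 1 := pow_le_one₀ hl.le hl1
  have hdT' : d ≤ T := by
    have : l ^ 2 * T ≤ 1 * T := mul_le_mul_of_nonneg_right hlam1 hT.le
    linarith only [this, hdT]
  have hP2 : P ^ 2 ≤ X ^ 2 := pow_le_pow_left₀ hP hPX 2
  have k1 : θ / 2 * d ≤ 1 * d := mul_le_mul_of_nonneg_right (by linarith only [hθ0, hθ1]) hd
  have k2 : θ * d ≤ 1 * d := mul_le_mul_of_nonneg_right (by linarith only [hθ0, hθ1]) hd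
  have y1 : Real.exp (-T) ≤ Real.exp (-(θ / 2 * d)) :=
    Real.exp_le_exp.2 (by linarith only [k1, hdT'])
  have y2 : Real.exp (-T) ≤ Real.exp (-(θ * d)) :=
    Real.exp_le_exp.2 (by linarith only [k2, hdT'])
  have y0 : Real.exp T * Real.exp (-T) = 1 := by rw [← Real.exp_add]; simp
  have eT : 0 < Real.exp T := Real.exp_pos T
  constructor
  · have h1 : Real.exp (-T) * N ≤ X := (mul_le_mul_of_nonneg_right y1 hN).trans (x1.trans hPX)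
    have h2 := mul_le_mul_of_nonneg_left h1 eT.le
    calc N = Real.exp T * (Real.exp (-T) * N) := by rw [← mul_assoc, y0, one_mul]
      _ ≤ _ := h2
  · have h1 : Real.exp (-T) * M ≤ X ^ 2 := (mul_le_mul_of_nonneg_right y2 hM).trans (x2.trans hP2)
    have h2 := mul_le_mul_of_nonneg_left h1 eT.le
    calc M = Real.exp T * (Real.exp (-T) * M) := by rw [← mul_assoc, y0, one_mul]
      _ ≤ _ := h2

end Ar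

end

end Pool.Agent.H789.HSC
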