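import Pool.Agent.H789.HSC.StepD
import Pool.Agent.H789.HSC.StepEa

/-! The recursion. -/

open scoped BigOperators ContDiff ComplexConjugate

namespace Pool.Agent.H789.HSC

noncomputable section

namespace Stp

variable {q : ℕ}

theorem hpath_contDiff (s : Fin q → ℝ) (ξ η : Fin q → ℂ) : ContDiffAt ℝ 4 (hpath s ξ η) 0 :=
  contDiffAt_pi.2 fun i => (hasJet_hpath s ξ η i).1

theorem hpath_zero (s : Fin q → ℝ) (ξ η : Fin q → ℂ) : hpath s ξ η 0 = s := by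
  funext i
  simp [hpath]

theorem comp_hpath_contDiff {U : (Fin q → ℝ) → ℝ} (hU : ContDiff ℝ ∞ U) (s : Fin q → ℝ)
    (ξ η : Fin q → ℂ) : ContDiffAt ℝ 4 (fun ζ => U (hpath s ξ η ζ)) 0 := by
  have h4 : ContDiff ℝ 4 U := hU.of_le (by
    show ((((4 : ℕ) : ℕ∞)) : WithTop ℕ∞) ≤ ((⊤ : ℕ∞) : WithTop ℕ∞)
    exact WithTop.coe_le_coe.2 le_top)
  exact h4.contDiffAt.comp 0 (hpath_contDiff s ξ η)

theorem RelSmall.mono {J : Jet} {x y : ℂ} {A A' : ℝ} (h : RelSmall J x y A) (hA : 0 ≤ A)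
    (hAA : A ≤ A') : RelSmall J x y A' := by
  obtain ⟨h1, h2, h3, h4, h5⟩ := h
  exact ⟨h1.trans hAA, h2.trans (pow_le_pow_left₀ hA hAA 2), h3.trans (pow_le_pow_left₀ hA hAA 2),
    h4.trans (pow_le_pow_left₀ hA hAA 3), h5.trans (pow_le_pow_left₀ hA hAA 4)⟩

theorem A0_nonneg (ϑ : ℝ) (s : Fin q → ℝ) (ξ η : Fin q → ℂ) (i₀ : Fin q) :
    0 ≤ A0 ϑ s ξ η i₀ := by
  unfold A0
  exact Finset.sum_nonneg fun i _ => by positivity

theorem Bdd.mono {U : (Fin q → ℝ) → ℝ} {C C' ϑ : ℝ} (h : Bdd U C ϑ) (hC : 0 ≤ C) (hCC : C ≤ C') :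
    Bdd U C' ϑ where
  smooth := h.smooth
  lower := h.lower
  upper := fun s => (h.upper s).trans (by linarith)
  jets := fun s ξ η i₀ hi₀ J hJ => RelSmall.mono (h.jets s ξ η i₀ hi₀ J hJ)
    (mul_nonneg hC (A0_nonneg _ _ _ _ _)) (mul_le_mul_of_nonneg_right hCC (A0_nonneg _ _ _ _ _))

theorem GoodAt.mono {U : (Fin q → ℝ) → ℝ} {T C C' : ℝ} {s : Fin q → ℝ} (h : GoodAt U T C s)
    (hCC : C ≤ C') : GoodAt U T C' s := by
  intro ξ η J hJ
  obtain ⟨A, hA, h1, h2, h3, h4⟩ := h ξ η J hJ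
  refine ⟨A, hA, h1, h2.trans ?_, h3.trans ?_, fun i hi => ⟨(h4 i hi).1.trans ?_,
    (h4 i hi).2.trans ?_⟩⟩
  all_goals exact mul_le_mul_of_nonneg_right hCC (by positivity)

theorem pow_le_pow4_of_one_le {G : ℝ} (h : 1 ≤ G) : G ≤ G ^ 4 := by
  calc G = G ^ 1 := (pow_one G).symm
    _ ≤ G ^ 4 := pow_le_pow_right₀ h (by norm_num)

theorem step {n m : ℕ} (hn : 1 ≤ n) (hm : m ≤ n) (h : Level n (2 * n + 1) (m + 1)) :
    Level n (2 * n + 1) m := by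
  obtain ⟨U, C, ϑ, T, R₁, hC, hϑ, hT, hR₁, hU, hgood⟩ := h
  obtain ⟨p, hp⟩ : ∃ p, p + m = 2 * n + 1 := ⟨2 * n + 1 - m, by omega⟩
  have hp2 : 2 ≤ p := by omega
  have hq : 1 ≤ 2 * n + 1 := by omega
  obtain ⟨ca, Ca, L', R, W, hR, hM, ε₃, l, R₂, cf, Cf, hε₃, hl, hl1, hR₂, hcf, hCf, H⟩ :=
    core hn hm hp hp2 hC hϑ hT hR₁ hU hgood
  have hR0 : 0 < R := by linarith
  set θ := 1 / (8 * R) with hθ
  have hθ0 : 0 < θ := by positivity
  have hθ1 : θ ≤ 1 / 8 := by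
    rw [hθ]
    apply one_div_le_one_div_of_le (by norm_num)
    linarith
  have hlam0 : 0 < l ^ 2 := by positivity
  have hlam1 : l ^ 2 ≤ 1 := pow_le_one₀ hl.le hl1
  obtain ⟨C', C₁, ϑ₁, hC₁, hϑ₁, hB⟩ := newU_bdd (p := p) (by omega) hq hM hC hϑ hU hlam0 hlam1
    hε₃.le hθ0 hθ1
  obtain ⟨CN, hCN, HN⟩ := newU_jets (p := p) (by omega) hM (2 * n + 1)
  obtain ⟨CR, hCR, HRg⟩ := RUN_good (q := 2 * n + 1) hq hθ0 hθ1
  set qr : ℝ := ((2 * n + 1 : ℕ) : ℝ) with hqr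
  have hqr0 : 0 < qr := by rw [hqr]; exact_mod_cast hq
  set c₀ := -(p * F1 R 0) with hc₀
  have hc₀0 : 0 < c₀ := by
    have hF : F1 R 0 = -(3 * R / 8) := by
      unfold F1; simp; ring
    have hp0 : (0 : ℝ) < p := by exact_mod_cast (by omega : 0 < p)
    rw [hc₀, hF]
    have : 0 < (p : ℝ) * (3 * R / 8) := by positivity
    linarith
  -- constants
  set G := 1 + c₀ / cf with hG
  have hG1 : 1 ≤ G := by
    have : 0 ≤ c₀ / cf := by positivity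
    linarith
  have hG0 : 0 < G := by linarith
  set G₂ := (c₀ + 2 * Cf * G ^ 4) / ε₃ + CR * (2 * qr * G) ^ 4 with hG₂
  have hG₂0 : 0 ≤ G₂ := by positivity
  set G₃ := 1 + G₂ with hG₃
  have hG₃1 : 1 ≤ G₃ := by linarith
  have hG₃0 : 0 < G₃ := by linarith
  set Gb := 2 * G with hGb
  have hGb1 : 1 ≤ Gb := by linarith
  have hGb0 : 0 < Gb := by linarith
  set C₂ := CN * Gb ^ 3 + CN * ε₃ * (CR * G₃ ^ 3) + Gb ^ 3 + Real.exp T * Gb ^ 3 with hC₂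
  have good : ∀ s, n + 1 ≤ (tops s (l ^ 2 * T)).card → m ≤ (deep s R₂).card →
      GoodAt (newU p R W ε₃ θ (resc (l ^ 2) U) C') (l ^ 2 * T) C₂ s := by
    intro s htops hdeep ξ η J hJ
    obtain ⟨i₀, hi₀⟩ := exists_mx hq s
    obtain ⟨J0, hJ0⟩ := exists_hasJet (comp_hpath_contDiff hU.smooth (fun i => s i / (l ^ 2))
      (fun i => ξ i / ((l ^ 2 : ℝ) : ℂ)) (fun i => η i / ((l ^ 2 : ℝ) : ℂ)))
    have hJu := resc_jets hlam0 s ξ η J0 hJ0
    obtain ⟨JR, hJR⟩ := exists_hasJet (comp_hpath_contDiff (RUN_smooth hq θ) s ξ η)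
    obtain ⟨P, hP, hP4⟩ := exists_root4 (P4_nonneg θ s ξ η i₀)
    obtain ⟨B, hB0, hB1, hB2, hB3, hB4, hB5, hB6⟩ := H s ξ η i₀ J0 JR P hi₀ htops hdeep hJ0 hJR
      hP hP4
    set Ju := Jet.smul (l ^ 2) J0 with hJudef
    have hus1 : mx s ≤ resc (l ^ 2) U s := by
      have := hU.lower (fun i => s i / (l ^ 2))
      rw [mx_div hq hlam0, div_le_iff₀ hlam0] at this
      unfold resc; linarith only [this]
    have hle : ∀ i, s i ≤ resc (l ^ 2) U s := fun i => (le_mx s i).trans hus1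
    obtain ⟨hQ, hE⟩ := HN ε₃ θ C' (resc (l ^ 2) U) s ξ η Ju JR J hle hJu hJR hJ
    rw [← hQ] at hB5
    have hJQ : 0 ≤ J.Q := by
      have h1 : 0 ≤ c₀ * J.Q := le_trans (by positivity) hB5
      exact nonneg_of_mul_nonneg_right h1 hc₀0
    obtain ⟨A, hA, hA4⟩ := exists_root4 hJQ
    have hPBA : P ^ 4 + B ^ 4 ≤ c₀ / cf * A ^ 4 := by
      rw [hA4, div_mul_eq_mul_div, le_div_iff₀ hcf]
      linarith only [hB5]
    obtain ⟨hPA, hBA, hPBA'⟩ := Ar.a1 hP hB0 hA hG1 (by linarith only [hG] : c₀ / cf ≤ G) hPBA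
    have hRQ : JR.Q + CR * A0 (1 / 4) s ξ η i₀ ^ 4 ≤ (G₃ * A) ^ 4 :=
      Ar.a2 hA hG1 hε₃ hCf hCR hqr0 (A0_nonneg _ _ _ _ _) hG₂ hG₃ hG₃1 hA4 hB6 hQ hPBA' hPA
        (A0_le_P hθ1 hP hP4)
    obtain ⟨hRa, hRb, hRh, hRk⟩ := HRg s ξ η i₀ hi₀ JR hJR (G₃ * A) (by positivity) hRQ
    have hRa' := Ar.a3 hCR hA hG₃1 hRa
    have hRb' := Ar.a4 hCR hG₃1 hRb
    have hRh' := Ar.a4 hCR hG₃1 hRh
    have hRk' := Ar.a5 hRk
    obtain ⟨hb1, hb2, hb3, hlB⟩ := Ar.b0 hl hl1 hB0 hG1 hA hBA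
    have hPlB : P + l * B ≤ Gb * A := by rw [hGb]; linarith only [hPA, hlB]
    have hPlB0 : 0 ≤ P + l * B := by positivity
    have hw : ∀ i, Real.exp (-((resc (l ^ 2) U s - s i) / (8 * R))) * ‖Ju.a - ξ i‖ ≤ Gb * A ∧
        Real.exp (-((resc (l ^ 2) U s - s i) / (4 * R))) * ‖Ju.b - η i‖ ≤ (Gb * A) ^ 2 := by
      intro i
      obtain ⟨w1, w2⟩ := weights hR hθ hP hP4 hl hl1 hB0 hB1 hB2 hus1 i
      exact ⟨w1.trans hPlB, w2.trans (pow_le_pow_left₀ hPlB0 hPlB 2)⟩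
    obtain ⟨ea, eb, eh, ek, -⟩ := hE (Gb * A) (by positivity) hw (hB3.trans hb2) (hB4.trans hb3)
    rw [abs_of_pos hε₃] at ea eb eh ek
    have eT : 0 < Real.exp T := Real.exp_pos T
    have hPG : P ≤ Gb * A := le_trans (le_add_of_nonneg_right (by positivity)) hPlB
    have htop : ∀ i ∈ tops s (l ^ 2 * T), ‖ξ i - ξ i₀‖ ≤ Real.exp T * (Gb * A) ∧
        ‖η i - η i₀‖ ≤ Real.exp T * (Gb * A) ^ 2 := by
      intro i hi
      rw [mem_tops] at hi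
      exact Ar.t1 hT hl hl1 hθ0 hθ1 (sub_nonneg.2 (le_mx s i)) (by linarith only [hi])
        (norm_nonneg _) (norm_nonneg _) hP hPG (P_xi hP hP4 i) (P_eta hP4 i)
    refine ⟨A, hA, hA4.le, ?_, ?_, ?_⟩
    · refine Ar.f1 hCN hε₃ eT hGb1 hA ?_ eh hRh' (hB3.trans hb2)
      have := abs_add_le (J.h - Ju.h) Ju.h
      simpa using this
    · refine Ar.f2 hCN hε₃ eT hGb1 hA ?_ ek hRk' (hB4.trans hb3)
      have := norm_add_le (J.k - Ju.k) Ju.k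
      simpa using this
    · intro i hi
      obtain ⟨t1, t2⟩ := htop i hi
      constructor
      · refine Ar.f3 hCN hε₃ eT hGb1 hA ?_ ea hRa' (hB1.trans hb1) t1
        have e : J.a - ξ i = (J.a - Ju.a) + (Ju.a - ξ i₀) - (ξ i - ξ i₀) := by ring
        rw [e]
        exact (norm_sub_le _ _).trans (add_le_add (norm_add_le _ _) le_rfl)
      · refine Ar.f4 hCN hε₃ eT hGb1 hA ?_ eb hRb' (hB2.trans hb2) t2
        have e : J.b - η i = (J.b - Ju.b) + (Ju.b - η i₀) - (η i - η i₀) := by ring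
        rw [e]
        exact (norm_sub_le _ _).trans (add_le_add (norm_add_le _ _) le_rfl)
  refine ⟨newU p R W ε₃ θ (resc (l ^ 2) U) C', max C₁ C₂, ϑ₁, l ^ 2 * T, R₂,
    hC₁.trans (le_max_left _ _), hϑ₁, by positivity, hR₂,
    Bdd.mono hB (by linarith) (le_max_left _ _), ?_⟩
  intro s h1 h2
  exact GoodAt.mono (good s h1 h2) (le_max_right _ _)

theorem base {n : ℕ} : Level n (2 * n + 1) (n + 1) := by
  obtain ⟨C, hC, hB⟩ := lse_bdd (q := 2 * n + 1) (by omega)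
  refine ⟨lse, C, 1 / 4, 1, 2, hC, by norm_num, by norm_num, by norm_num, hB, ?_⟩
  intro s h1 h2
  exfalso
  have hd : Disjoint (tops s 1) (deep s 2) := by
    rw [Finset.disjoint_left]
    intro i hi hj
    rw [mem_tops] at hi
    rw [mem_deep] at hj
    linarith
  have h3 := Finset.card_union_of_disjoint hd
  have h4 := Finset.card_le_univ (tops s 1 ∪ deep s 2)
  rw [Fintype.card_fin] at h4
  omega

end Stp

/-- the recursion -/
theorem level_zero {n : ℕ} (hn : 1 ≤ n) : Level n (2 * n + 1) 0 := by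
  have h : ∀ j, j ≤ n + 1 → Level n (2 * n + 1) (n + 1 - j) := by
    intro j
    induction j with
    | zero => intro _; exact Stp.base
    | succ j ih =>
      intro hj
      have h1 := ih (by omega)
      have e : n + 1 - j = (n + 1 - (j + 1)) + 1 := by omega
      rw [e] at h1
      exact Stp.step hn (by omega) h1
  have := h (n + 1) le_rfl
  simpa using this

end

end Pool.Agent.H789.HSC
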