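import Pool.Agent.H789.HSC.Model

open scoped BigOperators ContDiff ComplexConjugate Topology

open Filter Asymptotics

namespace Pool.Agent.H789.HSC

noncomputable section

namespace T12aux

theorem oStep {F F' : ℝ → ℝ} {n : ℕ} (hF : ∀ᶠ x in 𝓝 (0 : ℝ), HasDerivAt F (F' x) x)
    (h0 : F 0 = 0) (ho : F' =o[𝓝 0] fun x => x ^ n) : F =o[𝓝 0] fun x => x ^ (n + 1) := by
  obtain ⟨δ, hδ, hb⟩ := Metric.eventually_nhds_iff_ball.1 hF
  have h1 := Convex.isLittleO_pow_succ_real (f := F) (f' := F') (n := n) (convex_ball (0 : ℝ) δ)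
    (Metric.mem_ball_self hδ) (fun x hx => (hb x hx).hasDerivWithinAt) (by
      simpa using ho.mono nhdsWithin_le_nhds)
  rw [Metric.isOpen_ball.nhdsWithin_eq (Metric.mem_ball_self hδ)] at h1
  simpa [h0] using h1

theorem limAux {a : ℝ} {φ : ℝ → ℝ} (hφ : Continuous φ) (h : ∀ᶠ x in 𝓝[>] (0 : ℝ), a ≤ φ x) :
    a ≤ φ 0 :=
  ge_of_tendsto (hφ.continuousAt.tendsto.mono_left nhdsWithin_le_nhds) h

theorem taylor1 {g G1 G2 G3 : ℝ → ℝ} (h1 : ∀ᶠ x in 𝓝 (0 : ℝ), HasDerivAt g (G1 x) x)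
    (h2 : ∀ᶠ x in 𝓝 (0 : ℝ), HasDerivAt G1 (G2 x) x)
    (h3 : ∀ᶠ x in 𝓝 (0 : ℝ), HasDerivAt G2 (G3 x) x) (hc : ContinuousAt G3 0) {C r : ℝ}
    (hr : 0 < r) (hb : ∀ x : ℝ, |x| ≤ r → |g x| ≤ C * |x| ^ 3) :
    G1 0 = 0 ∧ G2 0 = 0 ∧ |G3 0| ≤ 6 * C := by
  have g0 : g 0 = 0 := by
    have := hb 0 (by simpa using hr.le)
    simpa using this
  have o3 : (fun x => G3 x - G3 0) =o[𝓝 0] fun x : ℝ => x ^ 0 := by
    simp only [pow_zero]
    rw [isLittleO_one_iff]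
    simpa using hc.tendsto.sub_const (G3 0)
  have o2 : (fun x => G2 x - G2 0 - G3 0 * x) =o[𝓝 0] fun x : ℝ => x ^ 1 := by
    refine oStep ?_ (by simp) o3
    filter_upwards [h3] with x hx
    have := (hx.sub_const (G2 0)).sub ((hasDerivAt_id x).const_mul (G3 0))
    refine this.congr_deriv ?_
    simp
  have o1 : (fun x => G1 x - G1 0 - G2 0 * x - G3 0 * x ^ 2 / 2) =o[𝓝 0] fun x : ℝ => x ^ 2 := by
    refine oStep ?_ (by simp) o2
    filter_upwards [h2] with x hx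
    have := ((hx.sub_const (G1 0)).sub ((hasDerivAt_id x).const_mul (G2 0))).sub
      (((hasDerivAt_pow 2 x).const_mul (G3 0)).div_const 2)
    refine this.congr_deriv ?_
    simp; ring
  have o0 : (fun x => g x - g 0 - G1 0 * x - G2 0 * x ^ 2 / 2 - G3 0 * x ^ 3 / 6) =o[𝓝 0]
      fun x : ℝ => x ^ 3 := by
    refine oStep ?_ (by simp) o1
    filter_upwards [h1] with x hx
    have := (((hx.sub_const (g 0)).sub ((hasDerivAt_id x).const_mul (G1 0))).sub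
      (((hasDerivAt_pow 2 x).const_mul (G2 0)).div_const 2)).sub
      (((hasDerivAt_pow 3 x).const_mul (G3 0)).div_const 6)
    refine this.congr_deriv ?_
    simp; ring
  have key : ∀ ε : ℝ, 0 < ε → ∀ᶠ x in 𝓝[>] (0 : ℝ),
      |G1 0 * x + G2 0 * x ^ 2 / 2 + G3 0 * x ^ 3 / 6| ≤ (C + ε) * x ^ 3 ∧ 0 < x := by
    intro ε hε
    have e1 := (isLittleO_iff.1 o0 hε).filter_mono (nhdsWithin_le_nhds (s := Set.Ioi (0 : ℝ)))
    have e2 : ∀ᶠ x in 𝓝[>] (0 : ℝ), x < r := nhdsWithin_le_nhds (gt_mem_nhds hr)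
    filter_upwards [e1, e2, self_mem_nhdsWithin] with x hx hxr hx0
    have hx0' : 0 < x := hx0
    refine ⟨?_, hx0'⟩
    have h4 := hb x (by rw [abs_of_pos hx0']; exact hxr.le)
    rw [g0, Real.norm_eq_abs, Real.norm_eq_abs, abs_of_pos (by positivity : 0 < x ^ 3)] at hx
    rw [abs_of_pos hx0'] at h4
    have h5 := abs_le.1 h4
    have h6 := abs_le.1 hx
    rw [abs_le]
    constructor <;> nlinarith [h5.1, h5.2, h6.1, h6.2]
  have a0 : G1 0 = 0 := by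
    have hφ : Continuous (fun x : ℝ => |G2 0| * x / 2 + |G3 0| * x ^ 2 / 6 + (C + 1) * x ^ 2) := by
      fun_prop
    have : |G1 0| ≤ (fun x : ℝ => |G2 0| * x / 2 + |G3 0| * x ^ 2 / 6 + (C + 1) * x ^ 2) 0 := by
      refine limAux hφ ?_
      filter_upwards [key 1 one_pos] with x hx
      obtain ⟨hx, hx0⟩ := hx
      have h4 : |G1 0| * x ≤ |G1 0 * x + G2 0 * x ^ 2 / 2 + G3 0 * x ^ 3 / 6| +
          |G2 0| * x ^ 2 / 2 + |G3 0| * x ^ 3 / 6 := by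
        have e : G1 0 * x = (G1 0 * x + G2 0 * x ^ 2 / 2 + G3 0 * x ^ 3 / 6) -
            G2 0 * x ^ 2 / 2 - G3 0 * x ^ 3 / 6 := by ring
        have e2 : |G1 0| * x = |G1 0 * x| := by rw [abs_mul, abs_of_pos hx0]
        have e3 : |G2 0| * x ^ 2 / 2 = |G2 0 * x ^ 2 / 2| := by
          rw [abs_div, abs_mul, abs_of_pos (by positivity : 0 < x ^ 2), abs_of_pos (by norm_num : (0:ℝ) < 2)]
        have e4 : |G3 0| * x ^ 3 / 6 = |G3 0 * x ^ 3 / 6| := by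
          rw [abs_div, abs_mul, abs_of_pos (by positivity : 0 < x ^ 3), abs_of_pos (by norm_num : (0:ℝ) < 6)]
        rw [e2, e3, e4]
        conv_lhs => rw [e]
        have := abs_sub (G1 0 * x + G2 0 * x ^ 2 / 2 + G3 0 * x ^ 3 / 6 - G2 0 * x ^ 2 / 2)
          (G3 0 * x ^ 3 / 6)
        have := abs_sub (G1 0 * x + G2 0 * x ^ 2 / 2 + G3 0 * x ^ 3 / 6) (G2 0 * x ^ 2 / 2)
        linarith
      have h5 : |G1 0| * x ≤ (|G2 0| * x / 2 + |G3 0| * x ^ 2 / 6 + (C + 1) * x ^ 2) * x := by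
        nlinarith
      exact le_of_mul_le_mul_right h5 hx0
    simp at this
    exact this
  have b0 : G2 0 = 0 := by
    have hφ : Continuous (fun x : ℝ => |G3 0| * x / 3 + 2 * (C + 1) * x) := by fun_prop
    have : |G2 0| ≤ (fun x : ℝ => |G3 0| * x / 3 + 2 * (C + 1) * x) 0 := by
      refine limAux hφ ?_
      filter_upwards [key 1 one_pos] with x hx
      obtain ⟨hx, hx0⟩ := hx
      rw [a0, zero_mul, zero_add] at hx
      have h4 : |G2 0| * x ^ 2 / 2 ≤ |G2 0 * x ^ 2 / 2 + G3 0 * x ^ 3 / 6| + |G3 0| * x ^ 3 / 6 := by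
        have e : G2 0 * x ^ 2 / 2 = (G2 0 * x ^ 2 / 2 + G3 0 * x ^ 3 / 6) - G3 0 * x ^ 3 / 6 := by ring
        have e3 : |G2 0| * x ^ 2 / 2 = |G2 0 * x ^ 2 / 2| := by
          rw [abs_div, abs_mul, abs_of_pos (by positivity : 0 < x ^ 2), abs_of_pos (by norm_num : (0:ℝ) < 2)]
        have e4 : |G3 0| * x ^ 3 / 6 = |G3 0 * x ^ 3 / 6| := by
          rw [abs_div, abs_mul, abs_of_pos (by positivity : 0 < x ^ 3), abs_of_pos (by norm_num : (0:ℝ) < 6)]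
        rw [e3, e4]
        conv_lhs => rw [e]
        exact abs_sub _ _
      have h5 : |G2 0| * (x ^ 2 / 2) ≤ (|G3 0| * x / 3 + 2 * (C + 1) * x) * (x ^ 2 / 2) := by
        nlinarith
      exact le_of_mul_le_mul_right h5 (by positivity)
    simp at this
    exact this
  refine ⟨a0, b0, ?_⟩
  refine le_of_forall_pos_le_add fun ε hε => ?_
  obtain ⟨x, hx, hx0⟩ := (key (ε / 6) (by positivity)).exists
  rw [a0, b0, zero_mul, zero_mul, zero_div, zero_add, zero_add, abs_div, abs_mul,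
    abs_of_pos (by positivity : 0 < x ^ 3), abs_of_pos (by norm_num : (0:ℝ) < 6)] at hx
  have h5 : |G3 0| * (x ^ 3 / 6) ≤ (6 * C + ε) * (x ^ 3 / 6) := by nlinarith
  exact le_of_mul_le_mul_right h5 (by positivity)

section multi

variable {p : ℕ}

/-- the basis vectors -/
abbrev ev (i : Fin p) : Fin p → ℝ := Pi.single i 1

theorem fderiv_eq_sum (F : (Fin p → ℝ) → ℝ) (y v : Fin p → ℝ) :
    fderiv ℝ F y v = ∑ i, v i * pd F i y := by
  have h1 : v = ∑ i, v i • (Pi.single i (1 : ℝ) : Fin p → ℝ) := by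
    ext j
    simp [Finset.sum_apply, Pi.single_apply]
  conv_lhs => rw [h1]
  rw [map_sum]
  refine Finset.sum_congr rfl fun i _ => ?_
  rw [map_smul, smul_eq_mul]
  rfl

theorem line {F : (Fin p → ℝ) → ℝ} {v : Fin p → ℝ} {x : ℝ} (h : DifferentiableAt ℝ F (x • v)) :
    HasDerivAt (fun x : ℝ => F (x • v)) (∑ i, v i * pd F i (x • v)) x := by
  have h1 : HasDerivAt (fun x : ℝ => x • v) ((1 : ℝ) • v) x := (hasDerivAt_id x).smul_const v
  rw [one_smul] at h1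
  rw [← fderiv_eq_sum]
  exact h.hasFDerivAt.comp_hasDerivAt x h1

theorem cd_pd {W : (Fin p → ℝ) → ℝ} {t : Fin p → ℝ} {m n : ℕ∞} (hW : ContDiffAt ℝ n W t)
    (hmn : m + 1 ≤ n) (i : Fin p) : ContDiffAt ℝ m (pd W i) t := by
  have h1 : ContDiffAt ℝ m (fderiv ℝ W) t := hW.fderiv_right (by exact_mod_cast hmn)
  exact h1.clm_apply contDiffAt_const

theorem pd_comm' {W : (Fin p → ℝ) → ℝ} {t : Fin p → ℝ} (hW : ContDiffAt ℝ 2 W t) (i j : Fin p) :
    pd (pd W i) j t = pd (pd W j) i t := by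
  have hd : DifferentiableAt ℝ (fderiv ℝ W) t :=
    (hW.fderiv_right (m := 1) (by norm_num)).differentiableAt (by norm_num)
  have h1 : ∀ a b : Fin p, pd (pd W a) b t =
      fderiv ℝ (fderiv ℝ W) t (Pi.single b 1) (Pi.single a 1) := by
    intro a b
    show fderiv ℝ (fun s => fderiv ℝ W s (Pi.single a 1)) t (Pi.single b 1) = _
    rw [fderiv_clm_apply hd (differentiableAt_const _)]
    simp
  rw [h1, h1]
  exact hW.isSymmSndFDerivAt (by simp) _ _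

/-- trilinear form -/
def T3 (c : Fin p → Fin p → Fin p → ℝ) (u v w : Fin p → ℝ) : ℝ :=
  ∑ i, u i * ∑ j, v j * ∑ l, w l * c i j l

theorem T3_add1 (c : Fin p → Fin p → Fin p → ℝ) (u u' v w : Fin p → ℝ) :
    T3 c (u + u') v w = T3 c u v w + T3 c u' v w := by
  simp [T3, add_mul, Finset.sum_add_distrib]
theorem T3_add2 (c : Fin p → Fin p → Fin p → ℝ) (u v v' w : Fin p → ℝ) :
    T3 c u (v + v') w = T3 c u v w + T3 c u v' w := by
  simp [T3, add_mul, mul_add, Finset.sum_add_distrib]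
theorem T3_add3 (c : Fin p → Fin p → Fin p → ℝ) (u v w w' : Fin p → ℝ) :
    T3 c u v (w + w') = T3 c u v w + T3 c u v w' := by
  simp [T3, add_mul, mul_add, Finset.sum_add_distrib]
theorem T3_single (c : Fin p → Fin p → Fin p → ℝ) (i j l : Fin p) :
    T3 c (ev i) (ev j) (ev l) = c i j l := by
  simp [T3, ev, Pi.single_apply]

/-- bilinear form -/
def T2 (c : Fin p → Fin p → ℝ) (u v : Fin p → ℝ) : ℝ := ∑ i, u i * ∑ j, v j * c i j

theorem T2_add1 (c : Fin p → Fin p → ℝ) (u u' v : Fin p → ℝ) :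
    T2 c (u + u') v = T2 c u v + T2 c u' v := by
  simp [T2, add_mul, Finset.sum_add_distrib]
theorem T2_add2 (c : Fin p → Fin p → ℝ) (u v v' : Fin p → ℝ) :
    T2 c u (v + v') = T2 c u v + T2 c u v' := by
  simp [T2, add_mul, mul_add, Finset.sum_add_distrib]
theorem T2_single (c : Fin p → Fin p → ℝ) (i j : Fin p) : T2 c (ev i) (ev j) = c i j := by
  simp [T2, ev, Pi.single_apply]

theorem norm_ev (i : Fin p) : ‖(ev i : Fin p → ℝ)‖ = 1 := by
  rw [ev, Pi.norm_single, norm_one]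

/-- what is used of `f` -/
structure Nice (f : (Fin p → ℝ) → ℝ) (y : Fin p → ℝ) : Prop where
  d0 : DifferentiableAt ℝ f y
  d1 : ∀ i, DifferentiableAt ℝ (pd f i) y
  d2 : ∀ i j, DifferentiableAt ℝ (pd (pd f i) j) y
  s : ∀ i j, pd (pd f i) j y = pd (pd f j) i y

theorem nice_ev {f : (Fin p → ℝ) → ℝ} (hf : ContDiffAt ℝ 4 f 0) : ∀ᶠ y in 𝓝 0, Nice f y := by
  filter_upwards [hf.eventually (by simp)] with y hy
  have h1 : ∀ i, ContDiffAt ℝ 3 (pd f i) y := fun i =>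
    cd_pd (m := 3) (n := 4) hy (by norm_num) i
  have h2 : ∀ i j, ContDiffAt ℝ 2 (pd (pd f i) j) y := fun i j =>
    cd_pd (m := 2) (n := 3) (h1 i) (by norm_num) j
  exact ⟨hy.differentiableAt (by norm_num), fun i => (h1 i).differentiableAt (by norm_num),
    fun i j => (h2 i j).differentiableAt (by norm_num),
    fun i j => pd_comm' (hy.of_le (by norm_num)) i j⟩

theorem at_zero {f : (Fin p → ℝ) → ℝ} (hf : ContDiffAt ℝ 4 f 0) {C r : ℝ} (hr : 0 < r)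
    (hb : ∀ t : Fin p → ℝ, ∀ ρ : ℝ, ρ ≤ r → (∀ i, |t i| ≤ ρ) → |f t| ≤ C * ρ ^ 3) :
    (∀ i, pd f i 0 = 0) ∧ (∀ i j, pd (pd f i) j 0 = 0) ∧
      ∀ i j l, |pd (pd (pd f i) j) l 0| ≤ 54 * |C| := by
  have hn := nice_ev hf
  have h1 : ∀ i, ContDiffAt ℝ 3 (pd f i) 0 := fun i =>
    cd_pd (m := 3) (n := 4) hf (by norm_num) i
  have h2 : ∀ i j, ContDiffAt ℝ 2 (pd (pd f i) j) 0 := fun i j =>
    cd_pd (m := 2) (n := 3) (h1 i) (by norm_num) j
  have h3 : ∀ i j l, ContDiffAt ℝ 1 (pd (pd (pd f i) j) l) 0 := fun i j l =>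
    cd_pd (m := 1) (n := 2) (h2 i j) (by norm_num) l
  set c2 : Fin p → Fin p → ℝ := fun i j => pd (pd f i) j 0 with hc2
  set c3 : Fin p → Fin p → Fin p → ℝ := fun i j l => pd (pd (pd f i) j) l 0 with hc3
  have hlim : ∀ v : Fin p → ℝ, Tendsto (fun x : ℝ => x • v) (𝓝 0) (𝓝 0) := fun v => by
    have : Continuous fun x : ℝ => x • v := by fun_prop
    simpa using this.tendsto 0
  have hline : ∀ v : Fin p → ℝ, ∑ i, v i * pd f i 0 = 0 ∧ T2 c2 v v = 0 ∧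
      |T3 c3 v v v| ≤ 6 * (|C| * ‖v‖ ^ 3) := by
    intro v
    have e1 := (hlim v).eventually hn
    have := taylor1 (g := fun x => f (x • v)) (G1 := fun x => ∑ i, v i * pd f i (x • v))
      (G2 := fun x => T2 (fun i j => pd (pd f i) j (x • v)) v v)
      (G3 := fun x => T3 (fun i j l => pd (pd (pd f i) j) l (x • v)) v v v)
      (C := |C| * ‖v‖ ^ 3) (r := r / (‖v‖ + 1)) ?_ ?_ ?_ ?_ (by positivity) ?_
    · simpa using this
    · filter_upwards [e1] with x hx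
      exact line hx.d0
    · filter_upwards [e1] with x hx
      unfold T2
      exact HasDerivAt.fun_sum fun i _ => (line (hx.d1 i)).const_mul _
    · filter_upwards [e1] with x hx
      unfold T2 T3
      exact HasDerivAt.fun_sum fun i _ => (HasDerivAt.fun_sum fun j _ =>
        (line (hx.d2 i j)).const_mul _).const_mul _
    · have hcont : ∀ i j l, ContinuousAt (fun x : ℝ => pd (pd (pd f i) j) l (x • v)) 0 := by
        intro i j l
        have h5 := (h3 i j l).continuousAt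
        have h6 : ContinuousAt (fun x : ℝ => x • v) 0 := by fun_prop
        have h7 : ContinuousAt (pd (pd (pd f i) j) l) ((0 : ℝ) • v) := by simpa using h5
        exact ContinuousAt.comp (x := (0 : ℝ)) (f := fun x : ℝ => x • v) h7 h6
      unfold T3
      refine tendsto_finsetSum _ fun i _ => Tendsto.const_mul _ ?_
      refine tendsto_finsetSum _ fun j _ => Tendsto.const_mul _ ?_
      exact tendsto_finsetSum _ fun l _ => Tendsto.const_mul _ (hcont i j l)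
    · intro x hx
      have h4 : |x| * ‖v‖ ≤ r := by
        rw [le_div_iff₀ (by positivity)] at hx
        nlinarith [abs_nonneg x, norm_nonneg v]
      have h5 := hb (x • v) (|x| * ‖v‖) h4 (fun i => by
        rw [Pi.smul_apply, smul_eq_mul, abs_mul]
        gcongr
        exact norm_le_pi_norm v i)
      refine h5.trans ?_
      calc C * (|x| * ‖v‖) ^ 3 ≤ |C| * (|x| * ‖v‖) ^ 3 := by
            gcongr
            exact le_abs_self C
        _ = _ := by ring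
  have hs2 : ∀ i j, c2 i j = c2 j i := fun i j => hn.self_of_nhds.s i j
  have hs3 : ∀ i j l, c3 i j l = c3 j i l := by
    intro i j l
    have : pd (pd f i) j =ᶠ[𝓝 0] pd (pd f j) i := hn.mono fun y hy => hy.s i j
    show fderiv ℝ _ 0 _ = fderiv ℝ _ 0 _
    rw [this.fderiv_eq]
  have hs3' : ∀ i j l, c3 i j l = c3 i l j := fun i j l =>
    pd_comm' ((h1 i).of_le (by norm_num)) j l
  refine ⟨fun i => ?_, fun i j => ?_, fun i j l => ?_⟩
  · have := (hline (ev i)).1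
    simpa [ev, Pi.single_apply] using this
  · have e := (hline (ev i + ev j)).2.1
    have ei := (hline (ev i)).2.1
    have ej := (hline (ev j)).2.1
    rw [T2_add1, T2_add2, T2_add2, ei, ej, T2_single, T2_single, hs2 j i] at e
    change c2 i j = 0
    linarith
  · have e1 := (hline (ev i + ev j + ev l)).2.2
    have e2 := (hline (ev i + ev j)).2.2
    have e3 := (hline (ev i + ev l)).2.2
    have e4 := (hline (ev j + ev l)).2.2
    have e5 := (hline (ev i)).2.2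
    have e6 := (hline (ev j)).2.2
    have e7 := (hline (ev l)).2.2
    have n2 : ‖(ev i + ev j : Fin p → ℝ)‖ ≤ 2 :=
      (norm_add_le _ _).trans (by rw [norm_ev, norm_ev]; norm_num)
    have n3 : ‖(ev i + ev l : Fin p → ℝ)‖ ≤ 2 :=
      (norm_add_le _ _).trans (by rw [norm_ev, norm_ev]; norm_num)
    have n4 : ‖(ev j + ev l : Fin p → ℝ)‖ ≤ 2 :=
      (norm_add_le _ _).trans (by rw [norm_ev, norm_ev]; norm_num)
    have n1 : ‖(ev i + ev j + ev l : Fin p → ℝ)‖ ≤ 3 :=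
      (norm_add_le _ _).trans (by rw [norm_ev]; linarith)
    have cube : ∀ a b : ℝ, 0 ≤ a → a ≤ b → 6 * (|C| * a ^ 3) ≤ 6 * (|C| * b ^ 3) := by
      intro a b h0 hab
      gcongr
    rw [norm_ev] at e5 e6 e7
    have q1 := abs_le.1 (e1.trans (cube _ _ (norm_nonneg _) n1))
    have q2 := abs_le.1 (e2.trans (cube _ _ (norm_nonneg _) n2))
    have q3 := abs_le.1 (e3.trans (cube _ _ (norm_nonneg _) n3))
    have q4 := abs_le.1 (e4.trans (cube _ _ (norm_nonneg _) n4))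
    have q5 := abs_le.1 e5
    have q6 := abs_le.1 e6
    have q7 := abs_le.1 e7
    have pol : 6 * c3 i j l = T3 c3 (ev i + ev j + ev l) (ev i + ev j + ev l) (ev i + ev j + ev l) -
        T3 c3 (ev i + ev j) (ev i + ev j) (ev i + ev j) -
        T3 c3 (ev i + ev l) (ev i + ev l) (ev i + ev l) -
        T3 c3 (ev j + ev l) (ev j + ev l) (ev j + ev l) +
        T3 c3 (ev i) (ev i) (ev i) + T3 c3 (ev j) (ev j) (ev j) + T3 c3 (ev l) (ev l) (ev l) := by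
      simp only [T3_add1, T3_add2, T3_add3, T3_single]
      have r1 := hs3' i j l
      have r2 := hs3 i j l
      have r3 := hs3 i l j
      have r4 := hs3' j i l
      have r5 := hs3' l i j
      linarith [r1, r2, r3, r4, r5]
    change |c3 i j l| ≤ _
    rw [abs_le]
    constructor <;> linarith [q1.1, q1.2, q2.1, q2.2, q3.1, q3.2, q4.1, q4.2, q5.1, q5.2, q6.1,
      q6.2, q7.1, q7.2]

/-- mean value inequality on cubes -/
theorem mv {F : (Fin p → ℝ) → ℝ} {ρ B : ℝ} (hB : 0 ≤ B) (h0 : F 0 = 0)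
    (h : ∀ y : Fin p → ℝ, (∀ i, |y i| ≤ ρ) → DifferentiableAt ℝ F y ∧ ∀ l, |pd F l y| ≤ B)
    (t : Fin p → ℝ) (ht : ∀ i, |t i| ≤ ρ) : |F t| ≤ p * B * ρ := by
  have hseg : ∀ x ∈ Set.Icc (0 : ℝ) 1, ∀ i, |(x • t) i| ≤ ρ := by
    intro x hx i
    rw [Pi.smul_apply, smul_eq_mul, abs_mul, abs_of_nonneg hx.1]
    calc x * |t i| ≤ 1 * |t i| := by gcongr; exact hx.2
      _ ≤ ρ := by rw [one_mul]; exact ht i
  have h1 := norm_image_sub_le_of_norm_deriv_le_segment_01' (f := fun x : ℝ => F (x • t))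
    (f' := fun x => ∑ i, t i * pd F i (x • t)) (C := p * B * ρ)
    (fun x hx => (line (h _ (hseg x hx)).1).hasDerivWithinAt) (by
      intro x hx
      refine (norm_sum_le _ _).trans ?_
      have h2 : ∀ i ∈ Finset.univ, ‖t i * pd F i (x • t)‖ ≤ ρ * B := by
        intro i _
        rw [norm_mul]
        exact mul_le_mul (ht i) ((h _ (hseg x ⟨hx.1, hx.2.le⟩)).2 i) (norm_nonneg _)
          ((abs_nonneg _).trans (ht i))
      refine (Finset.sum_le_card_nsmul _ _ _ h2).trans_eq ?_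
      rw [Finset.card_univ, Fintype.card_fin, nsmul_eq_mul]
      ring)
  simpa [h0] using h1

/-- sums of the differences of the coefficients -/
def E2 (W : (Fin p → ℝ) → ℝ) (t : Fin p → ℝ) : ℝ :=
  ∑ i, ∑ j, |pd (pd W i) j t - pd (pd W i) j 0|
def E3 (W : (Fin p → ℝ) → ℝ) (t : Fin p → ℝ) : ℝ :=
  ∑ i, ∑ j, ∑ l, |pd (pd (pd W i) j) l t - pd (pd (pd W i) j) l 0|
def E4 (W : (Fin p → ℝ) → ℝ) (t : Fin p → ℝ) : ℝ :=
  ∑ i, ∑ j, ∑ l, ∑ m, |pd (pd (pd (pd W i) j) l) m t - pd (pd (pd (pd W i) j) l) m 0|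

theorem D2_diff (W : (Fin p → ℝ) → ℝ) (t : Fin p → ℝ) {u v : Fin p → ℂ} {U V : ℝ} (hU0 : 0 ≤ U)
    (hU : ∀ i, ‖u i‖ ≤ U) (hV : ∀ i, ‖v i‖ ≤ V) :
    ‖D2 W t u v - D2 W 0 u v‖ ≤ E2 W t * (U * V) := by
  unfold D2 E2
  simp only [← Finset.sum_sub_distrib, Finset.sum_mul]
  refine norm_sum_le_of_le _ fun i _ => norm_sum_le_of_le _ fun j _ => ?_
  have e : (pd (pd W i) j t : ℂ) * u i * v j - (pd (pd W i) j 0 : ℂ) * u i * v j =
      ((pd (pd W i) j t - pd (pd W i) j 0 : ℝ) : ℂ) * (u i * v j) := by push_cast; ring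
  rw [e, norm_mul, norm_mul, Complex.norm_real, Real.norm_eq_abs]
  gcongr
  · exact hU i
  · exact hV j

theorem D3_diff (W : (Fin p → ℝ) → ℝ) (t : Fin p → ℝ) {u v w : Fin p → ℂ} {U V X : ℝ}
    (hU0 : 0 ≤ U) (hV0 : 0 ≤ V)
    (hU : ∀ i, ‖u i‖ ≤ U) (hV : ∀ i, ‖v i‖ ≤ V) (hX : ∀ i, ‖w i‖ ≤ X) :
    ‖D3 W t u v w - D3 W 0 u v w‖ ≤ E3 W t * (U * V * X) := by
  unfold D3 E3
  simp only [← Finset.sum_sub_distrib, Finset.sum_mul]
  refine norm_sum_le_of_le _ fun i _ => norm_sum_le_of_le _ fun j _ =>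
    norm_sum_le_of_le _ fun l _ => ?_
  have e : (pd (pd (pd W i) j) l t : ℂ) * u i * v j * w l -
      (pd (pd (pd W i) j) l 0 : ℂ) * u i * v j * w l =
      ((pd (pd (pd W i) j) l t - pd (pd (pd W i) j) l 0 : ℝ) : ℂ) * (u i * v j * w l) := by
    push_cast; ring
  rw [e, norm_mul, norm_mul, norm_mul, Complex.norm_real, Real.norm_eq_abs]
  gcongr
  · exact hU i
  · exact hV j
  · exact hX l

theorem D4_diff (W : (Fin p → ℝ) → ℝ) (t : Fin p → ℝ) {u v w y : Fin p → ℂ} {U V X Y : ℝ}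
    (hU0 : 0 ≤ U) (hV0 : 0 ≤ V) (hX0 : 0 ≤ X)
    (hU : ∀ i, ‖u i‖ ≤ U) (hV : ∀ i, ‖v i‖ ≤ V) (hX : ∀ i, ‖w i‖ ≤ X) (hY : ∀ i, ‖y i‖ ≤ Y) :
    ‖D4 W t u v w y - D4 W 0 u v w y‖ ≤ E4 W t * (U * V * X * Y) := by
  unfold D4 E4
  simp only [← Finset.sum_sub_distrib, Finset.sum_mul]
  refine norm_sum_le_of_le _ fun i _ => norm_sum_le_of_le _ fun j _ =>
    norm_sum_le_of_le _ fun l _ => norm_sum_le_of_le _ fun m _ => ?_
  have e : (pd (pd (pd (pd W i) j) l) m t : ℂ) * u i * v j * w l * y m -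
      (pd (pd (pd (pd W i) j) l) m 0 : ℂ) * u i * v j * w l * y m =
      ((pd (pd (pd (pd W i) j) l) m t - pd (pd (pd (pd W i) j) l) m 0 : ℝ) : ℂ) *
        (u i * v j * w l * y m) := by
    push_cast; ring
  rw [e, norm_mul, norm_mul, norm_mul, norm_mul, Complex.norm_real, Real.norm_eq_abs]
  gcongr
  · exact hU i
  · exact hV j
  · exact hX l
  · exact hY m

theorem holQ_diff (W : (Fin p → ℝ) → ℝ) (t : Fin p → ℝ) {τ σ : Fin p → ℂ} {A B : ℝ}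
    (hA0 : 0 ≤ A) (hB0 : 0 ≤ B) (hA : ∀ i, ‖τ i‖ ≤ A) (hB : ∀ i, ‖σ i‖ ≤ B) :
    |holQ W t τ σ - holQ W 0 τ σ| ≤ E4 W t * A ^ 4 + 2 * E3 W t * (A ^ 2 * B) + E2 W t * B ^ 2 := by
  have hA' : ∀ i, ‖(fun i => conj (τ i)) i‖ ≤ A := fun i => by
    simpa using hA i
  have hB' : ∀ i, ‖(fun i => conj (σ i)) i‖ ≤ B := fun i => by
    simpa using hB i
  have h4 := (Complex.abs_re_le_norm _).trans (D4_diff W t hA0 hA0 hA0 hA hA hA' hA')
  have h3 := (Complex.abs_re_le_norm _).trans (D3_diff W t hB0 hA0 hB hA' hA')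
  have h2 := (Complex.abs_re_le_norm _).trans (D2_diff W t hB0 hB hB')
  rw [Complex.sub_re] at h4 h3 h2
  have h4' := abs_le.1 h4
  have h3' := abs_le.1 h3
  have h2' := abs_le.1 h2
  unfold holQ
  rw [abs_le]
  constructor <;> nlinarith [h4'.1, h4'.2, h3'.1, h3'.2, h2'.1, h2'.2]

/-- sum of the differences of the coefficients of `QF` -/
def EF (R : ℝ) (t : Fin p → ℝ) : ℝ :=
  ∑ i, (|F4 R (t i) - F4 R 0| + 2 * |F3 R (t i) - F3 R 0| + |F2 R (t i) - F2 R 0|)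

theorem QF_diff (R : ℝ) (t : Fin p → ℝ) {τ σ : Fin p → ℂ} {A B : ℝ}
    (hA0 : 0 ≤ A) (hB0 : 0 ≤ B) (hA : ∀ i, ‖τ i‖ ≤ A) (hB : ∀ i, ‖σ i‖ ≤ B) :
    |∑ i, QF R (t i) (τ i) (σ i) - ∑ i, QF R 0 (τ i) (σ i)| ≤
      EF R t * (A ^ 4 + A ^ 2 * B + B ^ 2) := by
  unfold EF
  rw [← Finset.sum_sub_distrib, Finset.sum_mul]
  refine (Finset.abs_sum_le_sum_abs _ _).trans (Finset.sum_le_sum fun i _ => ?_)
  have e : QF R (t i) (τ i) (σ i) - QF R 0 (τ i) (σ i) =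
      (F4 R (t i) - F4 R 0) * ‖τ i‖ ^ 4 + 2 * (F3 R (t i) - F3 R 0) * ((conj (τ i)) ^ 2 * σ i).re +
        (F2 R (t i) - F2 R 0) * ‖σ i‖ ^ 2 := by unfold QF; ring
  have k1 : ‖τ i‖ ^ 4 ≤ A ^ 4 := by gcongr; exact hA i
  have k2 : |((conj (τ i)) ^ 2 * σ i).re| ≤ A ^ 2 * B := by
    refine (Complex.abs_re_le_norm _).trans ?_
    rw [norm_mul, norm_pow, RCLike.norm_conj]
    gcongr
    · exact hA i
    · exact hB i
  have k3 : ‖σ i‖ ^ 2 ≤ B ^ 2 := by gcongr; exact hB i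
  rw [e]
  have j1 : |(F4 R (t i) - F4 R 0) * ‖τ i‖ ^ 4| ≤ |F4 R (t i) - F4 R 0| * A ^ 4 := by
    rw [abs_mul, abs_of_nonneg (by positivity : 0 ≤ ‖τ i‖ ^ 4)]; gcongr
  have j2 : |2 * (F3 R (t i) - F3 R 0) * ((conj (τ i)) ^ 2 * σ i).re| ≤
      2 * |F3 R (t i) - F3 R 0| * (A ^ 2 * B) := by
    rw [abs_mul, abs_mul, abs_of_pos (by norm_num : (0:ℝ) < 2)]; gcongr
  have j3 : |(F2 R (t i) - F2 R 0) * ‖σ i‖ ^ 2| ≤ |F2 R (t i) - F2 R 0| * B ^ 2 := by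
    rw [abs_mul, abs_of_nonneg (by positivity : 0 ≤ ‖σ i‖ ^ 2)]; gcongr
  have j4 := abs_add_three ((F4 R (t i) - F4 R 0) * ‖τ i‖ ^ 4)
    (2 * (F3 R (t i) - F3 R 0) * ((conj (τ i)) ^ 2 * σ i).re) ((F2 R (t i) - F2 R 0) * ‖σ i‖ ^ 2)
  have m1 := abs_nonneg (F4 R (t i) - F4 R 0)
  have m2 := abs_nonneg (F3 R (t i) - F3 R 0)
  have m3 := abs_nonneg (F2 R (t i) - F2 R 0)
  have m4 : 0 ≤ A ^ 4 := by positivity
  have m5 : 0 ≤ A ^ 2 * B := by positivity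
  have m6 : 0 ≤ B ^ 2 := by positivity
  have p1 := mul_nonneg m1 m5
  have p2 := mul_nonneg m1 m6
  have p3 := mul_nonneg m2 m4
  have p4 := mul_nonneg m2 m6
  have p5 := mul_nonneg m3 m4
  have p6 := mul_nonneg m3 m5
  nlinarith

end multi

end T12aux

open T12aux

/-- T12 -/
theorem cubic_vanish (p : ℕ) (C : ℝ) : ∃ K : ℝ, 0 ≤ K ∧ ∀ f : (Fin p → ℝ) → ℝ, ContDiffAt ℝ 4 f 0 →
    ∀ r : ℝ, 0 < r → (∀ t : Fin p → ℝ, ∀ ρ : ℝ, ρ ≤ r → (∀ i, |t i| ≤ ρ) → |f t| ≤ C * ρ ^ 3) →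
    ∃ r₀ : ℝ, 0 < r₀ ∧ r₀ ≤ r ∧ ∀ t : Fin p → ℝ, ∀ ρ : ℝ, 0 ≤ ρ → ρ ≤ r₀ → (∀ i, |t i| ≤ ρ) →
      (∀ i, |pd f i t| ≤ K * ρ ^ 2) ∧ (∀ i j, |pd (pd f i) j t| ≤ K * ρ) ∧
      (∀ i j l, |pd (pd (pd f i) j) l t| ≤ K) := by
  set K3 : ℝ := 54 * |C| + 1 with hK3
  have hK3' : 0 ≤ K3 := by positivity
  refine ⟨(p ^ 2 + p + 1) * K3, by positivity, fun f hf r hr hb => ?_⟩
  obtain ⟨z1, z2, z3⟩ := at_zero hf hr hb
  have h1 : ∀ i, ContDiffAt ℝ 3 (pd f i) 0 := fun i =>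
    cd_pd (m := 3) (n := 4) hf (by norm_num) i
  have h2 : ∀ i j, ContDiffAt ℝ 2 (pd (pd f i) j) 0 := fun i j =>
    cd_pd (m := 2) (n := 3) (h1 i) (by norm_num) j
  have h3 : ∀ i j l, ContDiffAt ℝ 1 (pd (pd (pd f i) j) l) 0 := fun i j l =>
    cd_pd (m := 1) (n := 2) (h2 i j) (by norm_num) l
  have hev : ∀ᶠ y in 𝓝 (0 : Fin p → ℝ), Nice f y ∧ ∀ i j l, |pd (pd (pd f i) j) l y| ≤ K3 := by
    refine (nice_ev hf).and ?_
    rw [eventually_all]
    intro i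
    rw [eventually_all]
    intro j
    rw [eventually_all]
    intro l
    have hc : ContinuousAt (fun y => |pd (pd (pd f i) j) l y|) 0 := (h3 i j l).continuousAt.abs
    exact (hc.eventually_lt continuousAt_const (by
      have := z3 i j l
      linarith : |pd (pd (pd f i) j) l 0| < K3)).mono fun y hy => hy.le
  obtain ⟨r₁, hr₁, hball⟩ := Metric.eventually_nhds_iff_ball.1 hev
  refine ⟨min r (r₁ / 2), by positivity, min_le_left _ _, fun t ρ hρ0 hρ ht => ?_⟩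
  have hgood : ∀ y : Fin p → ℝ, (∀ i, |y i| ≤ ρ) → Nice f y ∧ ∀ i j l,
      |pd (pd (pd f i) j) l y| ≤ K3 := by
    intro y hy
    refine hball y ?_
    rw [mem_ball_zero_iff]
    have h4 : ‖y‖ ≤ ρ := (pi_norm_le_iff_of_nonneg hρ0).2 hy
    have h5 : ρ ≤ r₁ / 2 := hρ.trans (min_le_right _ _)
    linarith
  have g2 : ∀ i j, ∀ y : Fin p → ℝ, (∀ i, |y i| ≤ ρ) → |pd (pd f i) j y| ≤ p * K3 * ρ := by
    intro i j y hy
    exact mv hK3' (z2 i j) (fun y hy => ⟨(hgood y hy).1.d2 i j, (hgood y hy).2 i j⟩) y hy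
  have g1 : ∀ i, ∀ y : Fin p → ℝ, (∀ i, |y i| ≤ ρ) → |pd f i y| ≤ p * (p * K3 * ρ) * ρ := by
    intro i y hy
    exact mv (by positivity) (z1 i) (fun y hy => ⟨(hgood y hy).1.d1 i, fun l => g2 i l y hy⟩) y hy
  have hp0 : (0 : ℝ) ≤ p := Nat.cast_nonneg p
  refine ⟨fun i => (g1 i t ht).trans ?_, fun i j => (g2 i j t ht).trans ?_,
    fun i j l => ((hgood t ht).2 i j l).trans ?_⟩
  · have : 0 ≤ (p + 1) * K3 * ρ ^ 2 := by positivity
    nlinarith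
  · have : 0 ≤ (p ^ 2 + 1) * K3 * ρ := by positivity
    nlinarith
  · have : 0 ≤ ((p : ℝ) ^ 2 + p) * K3 := by positivity
    nlinarith

/-- T13 -/
theorem vertex_cont {p : ℕ} {R L : ℝ} {W : (Fin p → ℝ) → ℝ} (hR : 1 ≤ R) (hL : 0 < L)
    (hW : ContDiffAt ℝ ∞ W 0)
    (h : ∀ (i₀ : Fin p) (τ σ : Fin p → ℂ), τ i₀ = 0 → σ i₀ = 0 → ∀ i j,
      L * ‖τ i‖ ^ 4 + ‖σ j‖ ^ 2 / 8 ≤ ∑ i, QF R 0 (τ i) (σ i) + holQ W 0 τ σ) :
    ∃ r₀ : ℝ, 0 < r₀ ∧ ∀ t : Fin p → ℝ, (∀ i, |t i| ≤ r₀) →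
      ∀ (i₀ : Fin p) (τ σ : Fin p → ℂ), τ i₀ = 0 → σ i₀ = 0 → ∀ i j,
      (L - 1) * ‖τ i‖ ^ 4 + ‖σ j‖ ^ 2 / 16 ≤ ∑ i, QF R (t i) (τ i) (σ i) + holQ W t τ σ := by
  have c1 : ∀ i, ContDiffAt ℝ ∞ (pd W i) 0 := fun i => cd_pd (m := ⊤) (n := ⊤) hW (by simp) i
  have c2 : ∀ i j, ContDiffAt ℝ ∞ (pd (pd W i) j) 0 := fun i j =>
    cd_pd (m := ⊤) (n := ⊤) (c1 i) (by simp) j
  have c3 : ∀ i j l, ContDiffAt ℝ ∞ (pd (pd (pd W i) j) l) 0 := fun i j l =>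
    cd_pd (m := ⊤) (n := ⊤) (c2 i j) (by simp) l
  have c4 : ∀ i j l m, ContDiffAt ℝ ∞ (pd (pd (pd (pd W i) j) l) m) 0 := fun i j l m =>
    cd_pd (m := ⊤) (n := ⊤) (c3 i j l) (by simp) m
  have hcont : ContinuousAt (fun t : Fin p → ℝ => E4 W t + 2 * E3 W t + E2 W t + EF R t) 0 := by
    refine ContinuousAt.add (ContinuousAt.add (ContinuousAt.add ?_ (ContinuousAt.mul
      continuousAt_const ?_)) ?_) ?_
    · unfold E4
      exact tendsto_finsetSum _ fun i _ => tendsto_finsetSum _ fun j _ =>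
        tendsto_finsetSum _ fun l _ => tendsto_finsetSum _ fun m _ =>
          ((c4 i j l m).continuousAt.sub continuousAt_const).abs
    · unfold E3
      exact tendsto_finsetSum _ fun i _ => tendsto_finsetSum _ fun j _ =>
        tendsto_finsetSum _ fun l _ => ((c3 i j l).continuousAt.sub continuousAt_const).abs
    · unfold E2
      exact tendsto_finsetSum _ fun i _ => tendsto_finsetSum _ fun j _ =>
        ((c2 i j).continuousAt.sub continuousAt_const).abs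
    · unfold EF F4 F3 F2
      fun_prop
  have h0 : E4 W 0 + 2 * E3 W 0 + E2 W 0 + EF R (0 : Fin p → ℝ) = 0 := by
    simp [E4, E3, E2, EF]
  set m := min L 1 with hm
  have hm0 : 0 < m := by positivity
  have hmL : m ≤ L := min_le_left _ _
  have hm1 : m ≤ 1 := min_le_right _ _
  have hev := hcont.eventually_lt (continuousAt_const (y := m / 24)) (by rw [h0]; positivity)
  obtain ⟨δ, hδ, hball⟩ := Metric.eventually_nhds_iff_ball.1 hev
  refine ⟨δ / 2, by positivity, fun t ht i₀ τ σ hτ hσ i j => ?_⟩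
  have hte := hball t (by
    rw [mem_ball_zero_iff]
    have : ‖t‖ ≤ δ / 2 := (pi_norm_le_iff_of_nonneg (by positivity)).2 ht
    linarith)
  obtain ⟨iA, -, hiA⟩ := Finset.exists_max_image Finset.univ (fun i => ‖τ i‖) ⟨i₀, Finset.mem_univ _⟩
  obtain ⟨jB, -, hjB⟩ := Finset.exists_max_image Finset.univ (fun i => ‖σ i‖) ⟨i₀, Finset.mem_univ _⟩
  have hA : ∀ i, ‖τ i‖ ≤ ‖τ iA‖ := fun i => hiA i (Finset.mem_univ _)
  have hB : ∀ i, ‖σ i‖ ≤ ‖σ jB‖ := fun i => hjB i (Finset.mem_univ _)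
  have k0 := h i₀ τ σ hτ hσ iA jB
  have k1 := abs_le.1 (holQ_diff W t (norm_nonneg _) (norm_nonneg _) hA hB)
  have k2 := abs_le.1 (QF_diff R t (norm_nonneg _) (norm_nonneg _) hA hB)
  have s1 : ‖τ i‖ ^ 4 ≤ ‖τ iA‖ ^ 4 := by gcongr; exact hA i
  have s2 : ‖σ j‖ ^ 2 ≤ ‖σ jB‖ ^ 2 := by gcongr; exact hB j
  have hE4 : 0 ≤ E4 W t := by unfold E4; positivity
  have hE3 : 0 ≤ E3 W t := by unfold E3; positivity
  have hE2 : 0 ≤ E2 W t := by unfold E2; positivity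
  have hEF : 0 ≤ EF R t := by unfold EF; positivity
  have hY : ‖τ iA‖ ^ 2 * ‖σ jB‖ ≤ (‖τ iA‖ ^ 4 + ‖σ jB‖ ^ 2) / 2 := by
    nlinarith [sq_nonneg (‖τ iA‖ ^ 2 - ‖σ jB‖)]
  have hX0 : 0 ≤ ‖τ iA‖ ^ 4 := by positivity
  have hY0 : 0 ≤ ‖τ iA‖ ^ 2 * ‖σ jB‖ := by positivity
  have hZ0 : 0 ≤ ‖σ jB‖ ^ 2 := by positivity
  generalize ‖τ iA‖ ^ 4 = X at *
  generalize ‖τ iA‖ ^ 2 * ‖σ jB‖ = Y at *
  generalize ‖σ jB‖ ^ 2 = Z at *
  generalize E4 W t = e4 at *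
  generalize E3 W t = e3 at *
  generalize E2 W t = e2 at *
  generalize EF R t = eF at *
  have t1 : e4 * X + 2 * e3 * Y + e2 * Z + eF * (X + Y + Z) ≤
      (e4 + 2 * e3 + e2 + eF) * (X + Y + Z) := by
    nlinarith [mul_nonneg hE4 hY0, mul_nonneg hE4 hZ0, mul_nonneg hE3 hX0, mul_nonneg hE3 hZ0,
      mul_nonneg hE2 hX0, mul_nonneg hE2 hY0]
  have t2 : (e4 + 2 * e3 + e2 + eF) * (X + Y + Z) ≤ m / 24 * (X + Y + Z) := by
    gcongr
  have t3 : m / 24 * (X + Y + Z) ≤ m / 16 * (X + Z) := by nlinarith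
  have t4 : L * X + Z / 8 - m / 16 * (X + Z) ≤ ∑ i, QF R (t i) (τ i) (σ i) + holQ W t τ σ := by
    linarith [k1.1, k2.1]
  have t5 : m / 16 * Z ≤ Z / 16 := by nlinarith
  have t6 : (L - 1) * ‖τ i‖ ^ 4 ≤ (L - m / 16) * X := by
    have hn : 0 ≤ ‖τ i‖ ^ 4 := by positivity
    rcases le_total L 1 with hl | hl
    · have a1 : (L - 1) * ‖τ i‖ ^ 4 ≤ 0 := mul_nonpos_of_nonpos_of_nonneg (by linarith) hn
      have a2 : 0 ≤ (L - m / 16) * X := mul_nonneg (by linarith) hX0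
      linarith
    · have a1 : (L - 1) * ‖τ i‖ ^ 4 ≤ (L - 1) * X := mul_le_mul_of_nonneg_left s1 (by linarith)
      have a2 : (L - 1) * X ≤ (L - m / 16) * X := mul_le_mul_of_nonneg_right (by linarith) hX0
      linarith
  linarith

end

end Pool.Agent.H789.HSC
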