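import Pool.Agent.H789.HSC.T5a
import Pool.Agent.H789.HSC.T5b
import Pool.Agent.H789.HSC.T5c
import Pool.Agent.H789.HSC.T5d
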